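import Pool.Agent.H68.LV.Qf

/-!
# Module AFF: a map with small distortion is close to an affine map, to second order

Let C be the distortion constant, F0 = F - F x0, x0 = 0 after translation (x is a vector with
|x| <= h). Polarise: 2 bf G' (F0 x) (F0 y) = qf G' (F0 x) + qf G' (F0 y) - qf G' (F0 x - F0 y), and
the same for G, so |bf G' (F0 x) (F0 y) - bf G x y| <= (3/2) C h^3 for |x|, |y| <= h.
Define A by A e_i = F0(h e_i)/h =: a_i. (1) |bf G' a_i a_j - G_ij| <= (3/2) C h, hence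
|qf G' (A v) - qf G v| <= (3/2) C h (sum |v_i|)^2 <= (3/2) C n h |v|^2.
(2) Let u = F0 x - A x. |bf G' u a_i| <= |bf G' (F0 x) (F0 (h e_i))/h - bf G x e_i|
+ sum_j |x_j| |G_ji - bf G' a_j a_i| <= (3/2) C h^2 + (3/2) C h n h.
(3) if (3/2) C n h <= 1/(2Λ) then qf G' (A v) >= |v|^2/(2Λ), so A is injective, hence onto:
u = A w, |w|^2 <= 2Λ qf G' u, and qf G' u = bf G' u (A w) <= sum |w_i| |bf G' u a_i|
<= sqrt n |w| C'' h^2 <= sqrt(n) C'' h^2 sqrt(2Λ qf G' u). So qf G' u <= 2 n Λ C''^2 h^4 and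
|u|^2 <= Λ qf G' u.
-/

open Metric Matrix

noncomputable section
namespace Pool.H68.LV

variable {n : ℕ}

private theorem bf_sum_sum (G : Mat n) (c d : Fin n → ℝ) (a b : Fin n → E n) :
    bf G (∑ i, c i • a i) (∑ j, d j • b j) = ∑ i, ∑ j, c i * d j * bf G (a i) (b j) := by
  rw [bf_sum_left]
  refine Finset.sum_congr rfl fun i _ => ?_
  rw [bf_smul_left, bf_sum_right, Finset.mul_sum]
  refine Finset.sum_congr rfl fun j _ => ?_
  rw [bf_smul_right]
  ring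

private theorem sum_abs_le (v : E n) : ∑ i, |v i| ≤ n * ‖v‖ := by
  refine (Finset.sum_le_sum fun i _ => abs_apply_le v i).trans (le_of_eq ?_)
  rw [Finset.sum_const, Finset.card_univ, Fintype.card_fin, nsmul_eq_mul]

private theorem sum_sq_le (v : E n) : (∑ i, |v i|) ^ 2 ≤ n * ‖v‖ ^ 2 := by
  have h := sq_sum_le_card_mul_sum_sq (s := (Finset.univ : Finset (Fin n))) (f := fun i => |v i|)
  rw [Finset.card_univ, Fintype.card_fin] at h
  rw [EuclideanSpace.norm_sq_eq]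
  simpa only [Real.norm_eq_abs] using h

/-- The linear map with columns a. -/
private def lm (a : Fin n → E n) : E n →L[ℝ] E n :=
  ∑ i, (EuclideanSpace.proj i : E n →L[ℝ] ℝ).smulRight (a i)

private theorem lm_apply (a : Fin n → E n) (v : E n) : lm a v = ∑ i, v i • a i := by
  rw [lm, ContinuousLinearMap.sum_apply]
  rfl

private theorem gram_le (G G' : Mat n) (a : Fin n → E n) (c : ℝ)
    (h : ∀ i j, |bf G' (a i) (a j) - G i j| ≤ c) (v : E n) (hc : 0 ≤ c) :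
    |qf G' (lm a v) - qf G v| ≤ c * n * ‖v‖ ^ 2 := by
  have e1 : qf G' (lm a v) - qf G v = ∑ i, ∑ j, v i * v j * (bf G' (a i) (a j) - G i j) := by
    rw [← bf_self G', lm_apply, bf_sum_sum, qf, ← Finset.sum_sub_distrib]
    refine Finset.sum_congr rfl fun i _ => ?_
    rw [← Finset.sum_sub_distrib]
    refine Finset.sum_congr rfl fun j _ => ?_
    ring
  have e2 : |qf G' (lm a v) - qf G v| ≤ c * (∑ i, |v i|) ^ 2 := by
    rw [e1, pow_two, Finset.sum_mul_sum, Finset.mul_sum]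
    refine (Finset.abs_sum_le_sum_abs _ _).trans (Finset.sum_le_sum fun i _ => ?_)
    rw [Finset.mul_sum]
    refine (Finset.abs_sum_le_sum_abs _ _).trans (Finset.sum_le_sum fun j _ => ?_)
    rw [abs_mul, abs_mul, mul_comm c]
    exact mul_le_mul_of_nonneg_left (h i j) (mul_nonneg (abs_nonneg _) (abs_nonneg _))
  calc |qf G' (lm a v) - qf G v| ≤ c * (∑ i, |v i|) ^ 2 := e2
    _ ≤ c * (n * ‖v‖ ^ 2) := mul_le_mul_of_nonneg_left (sum_sq_le v) hc
    _ = c * n * ‖v‖ ^ 2 := by ring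

private theorem polar {G G' : Mat n} (hG : Gᵀ = G) (hG' : G'ᵀ = G') {a b x y : E n} {d : ℝ}
    (h1 : |qf G' a - qf G x| ≤ d) (h2 : |qf G' b - qf G y| ≤ d)
    (h3 : |qf G' (a - b) - qf G (x - y)| ≤ d) : |bf G' a b - bf G x y| ≤ 3 / 2 * d := by
  rw [qf_sub hG, qf_sub hG'] at h3
  rw [abs_le] at *
  constructor <;> linarith [h1.1, h1.2, h2.1, h2.2, h3.1, h3.2]

private theorem close_u {G' : Mat n} {Λ : ℝ} (hΛ : 1 ≤ Λ)
    (hlo : ∀ v, Λ⁻¹ * ‖v‖ ^ 2 ≤ qf G' v) (a : Fin n → E n) {e : ℝ} (he : 0 ≤ e) (u : E n)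
    (hu : ∀ i, |bf G' u (a i)| ≤ e) (hinj : ∀ v, (2 * Λ)⁻¹ * ‖v‖ ^ 2 ≤ qf G' (lm a v)) :
    ‖u‖ ≤ 2 * Λ * n * e := by
  have hΛ0 : 0 < Λ := by linarith
  have hi : Function.Injective (lm a) := by
    rw [injective_iff_map_eq_zero]
    intro v hv
    have h1 := hinj v
    rw [hv, qf_zero] at h1
    have h2 : ‖v‖ ^ 2 ≤ 0 := by
      have h3 : 0 < (2 * Λ)⁻¹ := by positivity
      by_contra hc
      push Not at hc
      have := mul_pos h3 hc
      linarith
    have h4 : ‖v‖ = 0 := by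
      have := sq_nonneg ‖v‖
      exact pow_eq_zero_iff (two_ne_zero) |>.mp (le_antisymm h2 this)
    exact norm_eq_zero.mp h4
  have hs : Function.Surjective (lm a) :=
    (LinearMap.injective_iff_surjective (f := ((lm a : E n →L[ℝ] E n) : E n →ₗ[ℝ] E n))).mp hi
  obtain ⟨w, hw⟩ := hs u
  have h1 := hinj w
  rw [hw] at h1
  set q := qf G' u with hq
  have h2 : q ≤ e * (n * ‖w‖) := by
    have e1 : q = ∑ i, w i * bf G' u (a i) := by
      rw [hq, ← bf_self]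
      conv_lhs => rw [← hw]
      rw [hw]
      nth_rewrite 2 [← hw]
      rw [lm_apply, bf_sum_right]
      refine Finset.sum_congr rfl fun i _ => ?_
      rw [bf_smul_right]
    have e2 : |q| ≤ e * ∑ i, |w i| := by
      rw [e1, Finset.mul_sum]
      refine (Finset.abs_sum_le_sum_abs _ _).trans (Finset.sum_le_sum fun i _ => ?_)
      rw [abs_mul, mul_comm e]
      exact mul_le_mul_of_nonneg_left (hu i) (abs_nonneg _)
    exact (le_abs_self q).trans (e2.trans (mul_le_mul_of_nonneg_left (sum_abs_le w) he))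
  have h3 : ‖w‖ ^ 2 ≤ 2 * Λ * q := by
    have := mul_le_mul_of_nonneg_left h1 (by positivity : 0 ≤ 2 * Λ)
    rwa [← mul_assoc, mul_inv_cancel₀ (by positivity : 2 * Λ ≠ 0), one_mul] at this
  have hw0 := norm_nonneg w
  have h4 : ‖w‖ ≤ 2 * Λ * n * e := by
    by_contra hc
    push Not at hc
    have hpos : 0 ≤ 2 * Λ * n * e := by positivity
    have hw1 : 0 < ‖w‖ := lt_of_le_of_lt hpos hc
    have h5 : ‖w‖ ^ 2 ≤ (2 * Λ * n * e) * ‖w‖ := by
      calc ‖w‖ ^ 2 ≤ 2 * Λ * q := h3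
        _ ≤ 2 * Λ * (e * (n * ‖w‖)) := mul_le_mul_of_nonneg_left h2 (by positivity)
        _ = (2 * Λ * n * e) * ‖w‖ := by ring
    have h6 : ‖w‖ * ‖w‖ ≤ (2 * Λ * n * e) * ‖w‖ := by rw [← pow_two]; exact h5
    have h7 := le_of_mul_le_mul_right h6 hw1
    linarith
  have h5 : ‖u‖ ^ 2 ≤ Λ * q := by
    have := mul_le_mul_of_nonneg_left (hlo u) hΛ0.le
    rwa [← mul_assoc, mul_inv_cancel₀ hΛ0.ne', one_mul] at this
  have h6 : ‖u‖ ^ 2 ≤ (2 * Λ * n * e) ^ 2 := by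
    have hne : (0 : ℝ) ≤ n * e := by positivity
    calc ‖u‖ ^ 2 ≤ Λ * q := h5
      _ ≤ Λ * (e * (n * ‖w‖)) := mul_le_mul_of_nonneg_left h2 hΛ0.le
      _ = Λ * (n * e) * ‖w‖ := by ring
      _ ≤ Λ * (n * e) * (2 * Λ * n * e) := mul_le_mul_of_nonneg_left h4 (by positivity)
      _ = 2 * (Λ * (n * e)) ^ 2 := by ring
      _ ≤ 4 * (Λ * (n * e)) ^ 2 := by
        have := sq_nonneg (Λ * (n * e))
        linarith
      _ = (2 * Λ * n * e) ^ 2 := by ring
  by_contra hc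
  push Not at hc
  have h0 : 0 ≤ 2 * Λ * n * e := by positivity
  nlinarith [norm_nonneg u]

theorem affine_approx (n : ℕ) (Λ C : ℝ) (hΛ : 1 ≤ Λ) (hC : 0 ≤ C) :
    ∃ C' : ℝ, 0 ≤ C' ∧ ∃ h1 : ℝ, 0 < h1 ∧ ∀ G G' : Mat n, Gᵀ = G → G'ᵀ = G' →
      (∀ v, Λ⁻¹ * ‖v‖ ^ 2 ≤ qf G v) → (∀ v, qf G v ≤ Λ * ‖v‖ ^ 2) →
      (∀ v, Λ⁻¹ * ‖v‖ ^ 2 ≤ qf G' v) → (∀ v, qf G' v ≤ Λ * ‖v‖ ^ 2) →
      ∀ h : ℝ, 0 < h → h ≤ h1 → ∀ (F : E n → E n) (x0 : E n),
      (∀ x ∈ closedBall x0 h, ∀ y ∈ closedBall x0 h,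
        |qf G' (F x - F y) - qf G (x - y)| ≤ C * h ^ 3) →
      ∃ A : E n →L[ℝ] E n,
        (∀ x ∈ closedBall x0 h, ‖F x - F x0 - A (x - x0)‖ ≤ C' * h ^ 2) ∧
        ∀ v, |qf G' (A v) - qf G v| ≤ C' * h * ‖v‖ ^ 2 := by
  have hΛ0 : 0 < Λ := by linarith
  have hn0 : (0 : ℝ) ≤ n := Nat.cast_nonneg n
  set c1 : ℝ := 3 / 2 * C with hc1
  have hc10 : 0 ≤ c1 := by positivity
  set c2 : ℝ := c1 * (1 + n) with hc2
  have hc20 : 0 ≤ c2 := by positivity
  refine ⟨2 * Λ * n * c2 + c1 * n, by positivity, 1 / (2 * Λ * (c1 * n + 1)), by positivity, ?_⟩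
  intro G G' hG hG' hGlo hGup hGlo' hGup' h hh hh1 F x0 hF
  have hh2 : c1 * h * n ≤ (2 * Λ)⁻¹ := by
    have h1 : (c1 * n + 1) * h ≤ (2 * Λ)⁻¹ := by
      have := mul_le_mul_of_nonneg_left hh1 (by positivity : 0 ≤ c1 * n + 1)
      refine this.trans (le_of_eq ?_)
      field_simp
    nlinarith
  -- the translated map
  set F0 : E n → E n := fun x => F (x0 + x) - F x0 with hF0
  have hmem : ∀ x : E n, ‖x‖ ≤ h → x0 + x ∈ closedBall x0 h := by
    intro x hx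
    rw [mem_closedBall, dist_eq_norm, add_sub_cancel_left]
    exact hx
  have k1 : ∀ x y : E n, ‖x‖ ≤ h → ‖y‖ ≤ h →
      |qf G' (F0 x - F0 y) - qf G (x - y)| ≤ C * h ^ 3 := by
    intro x y hx hy
    have := hF _ (hmem x hx) _ (hmem y hy)
    rw [add_sub_add_left_eq_sub] at this
    rw [hF0]
    show |qf G' (F (x0 + x) - F x0 - (F (x0 + y) - F x0)) - qf G (x - y)| ≤ C * h ^ 3
    rw [sub_sub_sub_cancel_right]
    exact this
  have hF00 : F0 0 = 0 := by
    rw [hF0]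
    show F (x0 + 0) - F x0 = 0
    rw [add_zero, sub_self]
  have k2 : ∀ x : E n, ‖x‖ ≤ h → |qf G' (F0 x) - qf G x| ≤ C * h ^ 3 := by
    intro x hx
    have := k1 x 0 hx (by rw [norm_zero]; exact hh.le)
    rwa [hF00, sub_zero, sub_zero] at this
  have k3 : ∀ x y : E n, ‖x‖ ≤ h → ‖y‖ ≤ h → |bf G' (F0 x) (F0 y) - bf G x y| ≤ c1 * h ^ 3 := by
    intro x y hx hy
    have := polar hG hG' (k2 x hx) (k2 y hy) (k1 x y hx hy)
    rw [hc1]
    linarith
  set a : Fin n → E n := fun i => h⁻¹ • F0 (h • ee i) with ha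
  have hei : ∀ i : Fin n, ‖(h • ee i : E n)‖ ≤ h := by
    intro i
    rw [norm_smul, norm_ee, mul_one, Real.norm_of_nonneg hh.le]
  have k4 : ∀ i j, |bf G' (a i) (a j) - G i j| ≤ c1 * h := by
    intro i j
    have h1 := k3 _ _ (hei i) (hei j)
    have e1 : bf G' (a i) (a j) - G i j
        = h⁻¹ ^ 2 * (bf G' (F0 (h • ee i)) (F0 (h • ee j)) - bf G (h • ee i) (h • ee j)) := by
      rw [ha, bf_smul_left, bf_smul_right, bf_smul_left, bf_smul_right, bf_ee]
      field_simp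
    rw [e1, abs_mul, abs_of_nonneg (sq_nonneg h⁻¹)]
    calc h⁻¹ ^ 2 * |bf G' (F0 (h • ee i)) (F0 (h • ee j)) - bf G (h • ee i) (h • ee j)|
        ≤ h⁻¹ ^ 2 * (c1 * h ^ 3) := mul_le_mul_of_nonneg_left h1 (sq_nonneg _)
      _ = c1 * h := by field_simp
  have k5 : ∀ v, |qf G' (lm a v) - qf G v| ≤ c1 * h * n * ‖v‖ ^ 2 := fun v =>
    gram_le G G' a (c1 * h) k4 v (by positivity)
  have k6 : ∀ v, (2 * Λ)⁻¹ * ‖v‖ ^ 2 ≤ qf G' (lm a v) := by
    intro v
    have h1 := (abs_le.mp (k5 v)).1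
    have h2 := hGlo v
    have h3 := mul_le_mul_of_nonneg_right hh2 (sq_nonneg ‖v‖)
    have h4 : Λ⁻¹ * ‖v‖ ^ 2 = 2 * ((2 * Λ)⁻¹ * ‖v‖ ^ 2) := by field_simp
    linarith
  refine ⟨lm a, fun x hx => ?_, fun v => (k5 v).trans ?_⟩
  · set z : E n := x - x0 with hz
    have hzn : ‖z‖ ≤ h := by
      rw [mem_closedBall, dist_eq_norm] at hx
      exact hx
    have hFz : F x - F x0 = F0 z := by
      rw [hF0, hz]
      show F x - F x0 = F (x0 + (x - x0)) - F x0
      rw [add_sub_cancel]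
    rw [hFz]
    have hu : ∀ i, |bf G' (F0 z - lm a z) (a i)| ≤ c2 * h ^ 2 := by
      intro i
      have h1 := k3 z (h • ee i) hzn (hei i)
      have e1 : bf G' (F0 z - lm a z) (a i)
          = h⁻¹ * (bf G' (F0 z) (F0 (h • ee i)) - bf G z (h • ee i))
            + ∑ j, z j * (G j i - bf G' (a j) (a i)) := by
        have e2 : bf G z (h • ee i) = h * ∑ j, z j * G j i := by
          rw [bf_smul_right]
          congr 1
          conv_lhs => rw [sum_ee z]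
          rw [bf_sum_left]
          refine Finset.sum_congr rfl fun j _ => ?_
          rw [bf_smul_left, bf_ee]
        have e3 : bf G' (F0 z) (a i) = h⁻¹ * bf G' (F0 z) (F0 (h • ee i)) := by
          rw [ha, bf_smul_right]
        have e4 : bf G' (lm a z) (a i) = ∑ j, z j * bf G' (a j) (a i) := by
          rw [lm_apply, bf_sum_left]
          refine Finset.sum_congr rfl fun j _ => ?_
          rw [bf_smul_left]
        rw [bf_sub_left, e3, e4, e2]
        simp only [mul_sub, Finset.sum_sub_distrib]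
        field_simp
        ring
      have h2 : |h⁻¹ * (bf G' (F0 z) (F0 (h • ee i)) - bf G z (h • ee i))| ≤ c1 * h ^ 2 := by
        rw [abs_mul, abs_of_pos (inv_pos.mpr hh)]
        calc h⁻¹ * |bf G' (F0 z) (F0 (h • ee i)) - bf G z (h • ee i)| ≤ h⁻¹ * (c1 * h ^ 3) :=
              mul_le_mul_of_nonneg_left h1 (inv_nonneg.mpr hh.le)
          _ = c1 * h ^ 2 := by field_simp
      have h3 : |∑ j, z j * (G j i - bf G' (a j) (a i))| ≤ n * h * (c1 * h) := by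
        refine (Finset.abs_sum_le_sum_abs _ _).trans ((Finset.sum_le_sum
          (g := fun _ => h * (c1 * h)) fun j _ => ?_).trans (le_of_eq ?_))
        · rw [abs_mul, abs_sub_comm]
          exact mul_le_mul ((abs_apply_le z j).trans hzn) (k4 j i) (abs_nonneg _) hh.le
        · rw [Finset.sum_const, Finset.card_univ, Fintype.card_fin, nsmul_eq_mul]
          ring
      rw [e1]
      refine (abs_add_le _ _).trans ((add_le_add h2 h3).trans (le_of_eq ?_))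
      rw [hc2]
      ring
    have h4 := close_u hΛ hGlo' a (by positivity : 0 ≤ c2 * h ^ 2) _ hu k6
    refine h4.trans ?_
    have h5 : 0 ≤ c1 * n * h ^ 2 := by positivity
    nlinarith
  · have h5 : 0 ≤ 2 * Λ * n * c2 * h * ‖v‖ ^ 2 := by positivity
    nlinarith

end Pool.H68.LV
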