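import Pool.Agent.H68.LV.Gsm

/-!
# Module CAL: calculus of matrix fields (entrywise)

All statements are entrywise and follow from fderiv_add, fderiv_mul, fderiv_sum etc. for real
functions; DA X x below means: every entry is differentiable at x.
-/

open Matrix
open scoped ContDiff

noncomputable section
namespace Pool.H68.LV

variable {n : ℕ}

/-- Entrywise differentiability at a point. -/
def DA {α β : Type} (X : E n → Matrix α β ℝ) (x : E n) : Prop :=
  ∀ a b, DifferentiableAt ℝ (fun y => X y a b) x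

theorem pd_add (i : Fin n) {f g : E n → ℝ} {x : E n} (hf : DifferentiableAt ℝ f x)
    (hg : DifferentiableAt ℝ g x) : pd i (fun y => f y + g y) x = pd i f x + pd i g x := by
  simp only [pd]
  rw [fderiv_fun_add hf hg]; rfl

theorem pd_sub (i : Fin n) {f g : E n → ℝ} {x : E n} (hf : DifferentiableAt ℝ f x)
    (hg : DifferentiableAt ℝ g x) : pd i (fun y => f y - g y) x = pd i f x - pd i g x := by
  simp only [pd]
  rw [fderiv_fun_sub hf hg]; rfl

theorem pd_mul (i : Fin n) {f g : E n → ℝ} {x : E n} (hf : DifferentiableAt ℝ f x)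
    (hg : DifferentiableAt ℝ g x) :
    pd i (fun y => f y * g y) x = pd i f x * g x + f x * pd i g x := by
  simp only [pd]
  rw [fderiv_fun_mul hf hg]
  simp only [ContinuousLinearMap.add_apply, ContinuousLinearMap.smul_apply, smul_eq_mul]
  ring

theorem pd_const_mul (i : Fin n) (c : ℝ) {f : E n → ℝ} {x : E n}
    (hf : DifferentiableAt ℝ f x) : pd i (fun y => c * f y) x = c * pd i f x := by
  simp only [pd]
  rw [fderiv_const_mul hf]
  rfl

theorem pd_const (i : Fin n) (c : ℝ) (x : E n) : pd i (fun _ => c) x = 0 := by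
  simp only [pd]
  rw [fderiv_fun_const]; rfl

theorem pd_sum {ι : Type} (s : Finset ι) (i : Fin n) {f : ι → E n → ℝ} {x : E n}
    (hf : ∀ a ∈ s, DifferentiableAt ℝ (f a) x) :
    pd i (fun y => ∑ a ∈ s, f a y) x = ∑ a ∈ s, pd i (f a) x := by
  simp only [pd]
  rw [fderiv_fun_sum hf, ContinuousLinearMap.sum_apply]

/-- Partial derivatives of smooth functions on an open set are smooth and commute. -/
theorem pd_contDiffOn {U : Set (E n)} (hU : IsOpen U) {f : E n → ℝ} (hf : ContDiffOn ℝ ∞ f U)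
    (i : Fin n) : ContDiffOn ℝ ∞ (pd i f) U := by
  have h1 : ContDiffOn ℝ ∞ (fderiv ℝ f) U := hf.fderiv_of_isOpen hU (by simp)
  exact h1.clm_apply contDiffOn_const

theorem pd_comm {U : Set (E n)} (hU : IsOpen U) {f : E n → ℝ} (hf : ContDiffOn ℝ ∞ f U)
    {x : E n} (hx : x ∈ U) (i j : Fin n) : pd i (pd j f) x = pd j (pd i f) x := by
  have hx' := hU.mem_nhds hx
  have hfx : ContDiffAt ℝ ∞ f x := hf.contDiffAt hx'
  have h1 : DifferentiableAt ℝ (fderiv ℝ f) x :=
    (hfx.fderiv_right (m := ∞) (by simp)).differentiableAt (by simp)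
  have h2 : ∀ k l : Fin n, pd k (pd l f) x = fderiv ℝ (fderiv ℝ f) x (ee k) (ee l) := by
    intro k l
    have e1 : pd l f = fun y => (fderiv ℝ f y) (ee l) := rfl
    rw [pd, e1, fderiv_clm_apply h1 (differentiableAt_const _)]
    simp
  rw [h2, h2]
  refine (hfx.isSymmSndFDerivAt ?_).eq _ _
  rw [minSmoothness_of_isRCLikeNormedField]
  exact ENat.LEInfty.out

theorem Sm.da {α β : Type} {U : Set (E n)} (hU : IsOpen U) {X : E n → Matrix α β ℝ}
    (hX : Sm U X) {x : E n} (hx : x ∈ U) : DA X x :=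
  fun a b => ((hX a b).contDiffAt (hU.mem_nhds hx)).differentiableAt (by simp)

theorem Sm.mpd {α β : Type} {U : Set (E n)} (hU : IsOpen U) {X : E n → Matrix α β ℝ}
    (hX : Sm U X) (i : Fin n) : Sm U (Pool.H68.LV.mpd i X) :=
  fun a b => pd_contDiffOn hU (hX a b) i

theorem Sm.add {α β : Type} {U : Set (E n)} {X Y : E n → Matrix α β ℝ}
    (hX : Sm U X) (hY : Sm U Y) : Sm U (fun y => X y + Y y) :=
  SmV.add hX hY

theorem Sm.sub {α β : Type} {U : Set (E n)} {X Y : E n → Matrix α β ℝ}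
    (hX : Sm U X) (hY : Sm U Y) : Sm U (fun y => X y - Y y) :=
  SmV.sub hX hY

theorem Sm.neg {α β : Type} {U : Set (E n)} {X : E n → Matrix α β ℝ}
    (hX : Sm U X) : Sm U (fun y => - X y) :=
  SmV.neg hX

theorem Sm.smul {α β : Type} {U : Set (E n)} {f : E n → ℝ} {X : E n → Matrix α β ℝ}
    (hf : ContDiffOn ℝ ∞ f U) (hX : Sm U X) : Sm U (fun y => f y • X y) :=
  SmV.smul hf hX

theorem Sm.transpose {α β : Type} {U : Set (E n)} {X : E n → Matrix α β ℝ}
    (hX : Sm U X) : Sm U (fun y => (X y)ᵀ) :=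
  SmV.transpose hX

theorem Sm.mul {α β γ : Type} [Fintype β] {U : Set (E n)} {X : E n → Matrix α β ℝ}
    {Y : E n → Matrix β γ ℝ} (hX : Sm U X) (hY : Sm U Y) : Sm U (fun y => X y * Y y) :=
  SmV.mul hX hY

theorem Sm.const {α β : Type} {U : Set (E n)} (A : Matrix α β ℝ) : Sm U (fun _ => A) :=
  SmV.const A

theorem Sm.pow {α : Type} [Fintype α] [DecidableEq α] {U : Set (E n)}
    {X : E n → Matrix α α ℝ} (hX : Sm U X) (k : ℕ) : Sm U (fun y => X y ^ k) :=
  SmV.pow hX k

theorem mpd_add {α β : Type} (i : Fin n) {X Y : E n → Matrix α β ℝ} {x : E n} (hX : DA X x)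
    (hY : DA Y x) : mpd i (fun y => X y + Y y) x = mpd i X x + mpd i Y x := by
  ext a b
  exact pd_add i (hX a b) (hY a b)

theorem mpd_sub {α β : Type} (i : Fin n) {X Y : E n → Matrix α β ℝ} {x : E n} (hX : DA X x)
    (hY : DA Y x) : mpd i (fun y => X y - Y y) x = mpd i X x - mpd i Y x := by
  ext a b
  exact pd_sub i (hX a b) (hY a b)

theorem mpd_smul {α β : Type} (i : Fin n) {f : E n → ℝ} {X : E n → Matrix α β ℝ} {x : E n}
    (hf : DifferentiableAt ℝ f x) (hX : DA X x) :
    mpd i (fun y => f y • X y) x = pd i f x • X x + f x • mpd i X x := by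
  ext a b
  exact pd_mul i hf (hX a b)

theorem mpd_const_smul {α β : Type} (i : Fin n) (c : ℝ) {X : E n → Matrix α β ℝ} {x : E n}
    (hX : DA X x) : mpd i (fun y => c • X y) x = c • mpd i X x := by
  ext a b
  exact pd_const_mul i c (hX a b)

theorem mpd_transpose {α β : Type} (i : Fin n) (X : E n → Matrix α β ℝ) (x : E n) :
    mpd i (fun y => (X y)ᵀ) x = (mpd i X x)ᵀ := by
  rfl

theorem mpd_mul {α β γ : Type} [Fintype β] (i : Fin n) {X : E n → Matrix α β ℝ}
    {Y : E n → Matrix β γ ℝ} {x : E n} (hX : DA X x) (hY : DA Y x) :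
    mpd i (fun y => X y * Y y) x = mpd i X x * Y x + X x * mpd i Y x := by
  ext a c
  have h1 : (fun y => (X y * Y y) a c) = fun y => ∑ b, X y a b * Y y b c := by
    funext y; rw [Matrix.mul_apply]
  simp only [mpd, Matrix.of_apply, Matrix.add_apply, Matrix.mul_apply]
  rw [pd_sum (f := fun b y => X y a b * Y y b c) _ _ (fun b _ => (hX a b).mul (hY b c)),
    ← Finset.sum_add_distrib]
  exact Finset.sum_congr rfl fun b _ => pd_mul i (hX a b) (hY b c)

theorem mpd_const {α β : Type} (i : Fin n) (A : Matrix α β ℝ) (x : E n) :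
    mpd i (fun _ => A) x = 0 := by
  ext a b
  exact pd_const i _ x

theorem mpd_comm {α β : Type} {U : Set (E n)} (hU : IsOpen U) {X : E n → Matrix α β ℝ}
    (hX : Sm U X) {x : E n} (hx : x ∈ U) (i j : Fin n) :
    mpd i (mpd j X) x = mpd j (mpd i X) x := by
  ext a b
  exact pd_comm hU (hX a b) hx i j

/-- The double form of a smooth field. -/
theorem Sm.h2 {U : Set (E n)} {h : E n → Mat n} (hh : Sm U h) :
    Sm U (fun y => Pool.H68.LV.h2 (h y)) :=
  SmV.h2 hh

theorem Sm.h4 {U : Set (E n)} {T : E n → Fin n → Fin n → Mat n}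
    (hT : ∀ i j, Sm U (fun y => T y i j)) : Sm U (fun y => Pool.H68.LV.h4 (T y)) :=
  SmV.h4 hT

theorem mpd_h2 (i : Fin n) {h : E n → Mat n} {x : E n} (hh : DA h x) :
    mpd i (fun y => h2 (h y)) x = h2 (mpd i h x) := by
  ext p q
  have h1 : ∀ M : Mat n, h2 M p q = ∑ a, ∑ b, M a b * ((Lc a * Rc b : DD n) p q) := by
    intro M
    simp only [h2, Matrix.sum_apply, Matrix.smul_apply, smul_eq_mul]
  simp only [mpd, Matrix.of_apply, h1]
  rw [pd_sum _ _ (fun a _ => DifferentiableAt.fun_sum fun b _ => (hh a b).mul_const _)]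
  refine Finset.sum_congr rfl fun a _ => ?_
  rw [pd_sum _ _ (fun b _ => (hh a b).mul_const _)]
  refine Finset.sum_congr rfl fun b _ => ?_
  rw [pd_mul i (hh a b) (differentiableAt_const _), pd_const, mul_zero, add_zero]

theorem mpd_h4 (i : Fin n) {T : E n → Fin n → Fin n → Mat n} {x : E n}
    (hT : ∀ a b, DA (fun y => T y a b) x) :
    mpd i (fun y => h4 (T y)) x = h4 (fun a b => mpd i (fun y => T y a b) x) := by
  ext p q
  have h1 : ∀ M : Fin n → Fin n → Mat n, h4 M p q = ∑ a, ∑ b, ∑ c, ∑ d,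
      M a b c d * (1 / 4 * (Lc a * Lc b * Rc c * Rc d : DD n) p q) := by
    intro M
    simp only [h4, Matrix.sum_apply, Matrix.smul_apply, smul_eq_mul, Finset.mul_sum]
    refine Finset.sum_congr rfl fun a _ => Finset.sum_congr rfl fun b _ =>
      Finset.sum_congr rfl fun c _ => Finset.sum_congr rfl fun d _ => by ring
  simp only [mpd, Matrix.of_apply, h1]
  rw [pd_sum _ _ (fun a _ => DifferentiableAt.fun_sum fun b _ => DifferentiableAt.fun_sum
    fun c _ => DifferentiableAt.fun_sum fun d _ => (hT a b c d).mul_const _)]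
  refine Finset.sum_congr rfl fun a _ => ?_
  rw [pd_sum _ _ (fun b _ => DifferentiableAt.fun_sum
    fun c _ => DifferentiableAt.fun_sum fun d _ => (hT a b c d).mul_const _)]
  refine Finset.sum_congr rfl fun b _ => ?_
  rw [pd_sum _ _ (fun c _ => DifferentiableAt.fun_sum fun d _ => (hT a b c d).mul_const _)]
  refine Finset.sum_congr rfl fun c _ => ?_
  rw [pd_sum _ _ (fun d _ => (hT a b c d).mul_const _)]
  refine Finset.sum_congr rfl fun d _ => ?_
  rw [pd_mul i (hT a b c d) (differentiableAt_const _), pd_const, mul_zero, add_zero]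

theorem pd_bt (i : Fin n) {X : E n → DD n} {x : E n} : pd i (fun y => bt (X y)) x
    = bt (mpd i X x) := by
  rfl

end Pool.H68.LV
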