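import Pool.Agent.H68.LV.Cal

/-!
# Module CAL2: inverse, determinant and the density factor

Inverse: entries of g^(-1) are det^(-1) times polynomials (Matrix.inv_def, adjugate), so smooth
where det <> 0; differentiate g * g^(-1) = 1 (mpd_mul).
Determinant: Jacobi's formula, e.g. Matrix.det_apply and the product rule, or: det is a polynomial
in the entries, smooth; d det = det * tr(g^(-1) dg) (Matrix.derivative_det_one_add_X_smul, or a
search in Mathlib for the derivative of det).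
sw = det^(-1/2): pd sw = -(1/2) det^(-3/2) pd det.
-/

open Matrix
open scoped ContDiff

noncomputable section
namespace Pool.H68.LV

variable {n : ℕ}

/-- Differentiability of the determinant, and derivatives along lines. -/
private theorem da_det {m : ℕ} {V : Type} [NormedAddCommGroup V] [NormedSpace ℝ V]
    {g : V → Mat m} {x : V} (hg : ∀ a b, DifferentiableAt ℝ (fun y => g y a b) x) :
    DifferentiableAt ℝ (fun y => (g y).det) x := by
  have : (fun y => (g y).det)
      = fun y => ∑ σ : Equiv.Perm (Fin m), ((Equiv.Perm.sign σ : ℤ) : ℝ) * ∏ i, g y (σ i) i := by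
    funext y
    rw [Matrix.det_apply']
  rw [this]
  exact DifferentiableAt.fun_sum fun σ _ =>
    (differentiableAt_const _).mul (HasFDerivAt.finsetProd (u := Finset.univ)
      (g := fun i y => g y (σ i) i) fun i _ => (hg (σ i) i).hasFDerivAt).differentiableAt

private theorem da_inv {m : ℕ} {V : Type} [NormedAddCommGroup V] [NormedSpace ℝ V]
    {g : V → Mat m} {x : V} (hg : ∀ a b, DifferentiableAt ℝ (fun y => g y a b) x)
    (hd : (g x).det ≠ 0) (a b : Fin m) : DifferentiableAt ℝ (fun y => (g y)⁻¹ a b) x := by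
  have h1 : (fun y => (g y)⁻¹ a b)
      = fun y => ((g y).det)⁻¹ * ((g y).updateRow b (Pi.single a 1)).det := by
    funext y
    rw [Matrix.inv_def, Ring.inverse_eq_inv', Matrix.smul_apply, Matrix.adjugate_apply,
      smul_eq_mul]
  rw [h1]
  refine ((da_det hg).inv hd).mul (da_det ?_)
  intro c d
  by_cases hc : c = b
  · subst hc
    simp only [Matrix.updateRow_self]
    exact differentiableAt_const _
  · simp only [Matrix.updateRow_ne hc]
    exact hg c d

private theorem line_deriv {f : E n → ℝ} {x : E n} (hf : DifferentiableAt ℝ f x) (i : Fin n) :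
    HasDerivAt (fun t : ℝ => f (x + t • ee i)) (pd i f x) 0 := by
  have h1 : HasDerivAt (fun t : ℝ => x + t • (ee i : E n)) (ee i) 0 := by
    have := ((hasDerivAt_id (0 : ℝ)).smul_const (ee i : E n)).const_add x
    simpa using this
  have h2 : HasFDerivAt f (fderiv ℝ f x) (x + (0 : ℝ) • ee i) := by
    rw [zero_smul, add_zero]; exact hf.hasFDerivAt
  exact h2.comp_hasDerivAt (0 : ℝ) h1

private theorem hasDerivAt_det_aux {m : ℕ} {g : ℝ → Mat m} {g' : Mat m} {s : ℝ}
    (hg : ∀ a b, HasDerivAt (fun t => g t a b) (g' a b) s) :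
    HasDerivAt (fun t => (g t).det) (((g s).adjugate * g').trace) s := by
  have h0 : (fun t => (g t).det)
      = fun t => ∑ σ : Equiv.Perm (Fin m), ((Equiv.Perm.sign σ : ℤ) : ℝ) * ∏ i, g t (σ i) i := by
    funext y
    rw [Matrix.det_apply']
  rw [h0]
  have h1 : HasDerivAt
      (fun t => ∑ σ : Equiv.Perm (Fin m), ((Equiv.Perm.sign σ : ℤ) : ℝ) * ∏ i, g t (σ i) i)
      (∑ σ : Equiv.Perm (Fin m), ((Equiv.Perm.sign σ : ℤ) : ℝ) *
        ∑ i, (∏ j ∈ Finset.univ.erase i, g s (σ j) j) • g' (σ i) i) s :=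
    HasDerivAt.fun_sum fun σ _ => HasDerivAt.const_mul _
      (HasDerivAt.fun_finsetProd fun i _ => hg _ _)
  refine h1.congr_deriv ?_
  have h2 : ∀ i, (((g s).adjugate * g') i i) = ((g s).updateCol i (fun k => g' k i)).det := by
    intro i
    rw [← Matrix.cramer_apply, Matrix.cramer_eq_adjugate_mulVec]
    rfl
  simp only [Matrix.trace, Matrix.diag_apply, h2, Matrix.det_apply', Finset.mul_sum]
  rw [Finset.sum_comm]
  refine Finset.sum_congr rfl fun i _ => Finset.sum_congr rfl fun σ _ => ?_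
  congr 1
  rw [← Finset.mul_prod_erase Finset.univ _ (Finset.mem_univ i)]
  rw [Matrix.updateCol_self, smul_eq_mul, mul_comm]
  congr 1
  refine Finset.prod_congr rfl fun j hj => ?_
  rw [Matrix.updateCol_ne (Finset.ne_of_mem_erase hj)]

private theorem adj_trace {m : ℕ} {G G' : Mat m} (hd : G.det ≠ 0) :
    (G.adjugate * G').trace = G.det * (G⁻¹ * G').trace := by
  rw [Matrix.inv_def, Ring.inverse_eq_inv', Matrix.smul_mul, Matrix.trace_smul, smul_eq_mul,
    ← mul_assoc, mul_inv_cancel₀ hd, one_mul]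

private theorem hasDerivAt_inv_aux {m : ℕ} {g : ℝ → Mat m} {g' : Mat m} {s : ℝ}
    (hg : ∀ a b, HasDerivAt (fun t => g t a b) (g' a b) s) (hd : (g s).det ≠ 0) (a b : Fin m) :
    HasDerivAt (fun t => (g t)⁻¹ a b) (-((g s)⁻¹ * g' * (g s)⁻¹) a b) s := by
  have hgd : ∀ a b, DifferentiableAt ℝ (fun t => g t a b) s := fun a b =>
    (hg a b).differentiableAt
  have hi : ∀ a b, HasDerivAt (fun t => (g t)⁻¹ a b) (deriv (fun t => (g t)⁻¹ a b) s) s :=
    fun a b => (da_inv hgd hd a b).hasDerivAt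
  set Y' : Mat m := Matrix.of fun a b => deriv (fun t => (g t)⁻¹ a b) s with hY
  have h2 : ∀ᶠ t in nhds s, (g t).det ≠ 0 := (da_det hgd).continuousAt.eventually_ne hd
  have h3 : g' * (g s)⁻¹ + g s * Y' = 0 := by
    ext a b
    have h4 : HasDerivAt (fun t => ∑ c, g t a c * (g t)⁻¹ c b)
        (∑ c, (g' a c * (g s)⁻¹ c b + g s a c * Y' c b)) s :=
      HasDerivAt.fun_sum fun c _ => (hg a c).mul (hi c b)
    have h5 : (fun t => ∑ c, g t a c * (g t)⁻¹ c b) =ᶠ[nhds s] fun _ => (1 : Mat m) a b := by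
      filter_upwards [h2] with t ht
      rw [← Matrix.mul_apply, Matrix.mul_nonsing_inv _ (isUnit_iff_ne_zero.mpr ht)]
    have h6 := (h4.congr_of_eventuallyEq h5.symm).unique (hasDerivAt_const s ((1 : Mat m) a b))
    rw [Finset.sum_add_distrib] at h6
    rw [Matrix.add_apply, Matrix.mul_apply, Matrix.mul_apply]
    exact h6
  have h7 : Y' = -((g s)⁻¹ * g' * (g s)⁻¹) := by
    have h8 : g s * Y' = -(g' * (g s)⁻¹) := eq_neg_of_add_eq_zero_right h3
    calc Y' = (g s)⁻¹ * (g s * Y') := by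
          rw [← Matrix.mul_assoc, Matrix.nonsing_inv_mul _ (isUnit_iff_ne_zero.mpr hd),
            Matrix.one_mul]
      _ = -((g s)⁻¹ * g' * (g s)⁻¹) := by
          rw [h8, Matrix.mul_neg, Matrix.mul_assoc]
  have h9 := hi a b
  have h10 : deriv (fun t => (g t)⁻¹ a b) s = Y' a b := rfl
  rw [h10, h7] at h9
  exact h9

private theorem hasDerivAt_sw_aux {m : ℕ} {g : ℝ → Mat m} {g' : Mat m} {s : ℝ}
    (hg : ∀ a b, HasDerivAt (fun t => g t a b) (g' a b) s) (hd : 0 < (g s).det) :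
    HasDerivAt (fun t => (Real.sqrt (g t).det)⁻¹)
      (-(1 / 2) * ((g s)⁻¹ * g').trace * (Real.sqrt (g s).det)⁻¹) s := by
  have h1 := hasDerivAt_det_aux hg
  rw [adj_trace hd.ne'] at h1
  have hs := Real.sqrt_pos.mpr hd
  have h2 := (h1.sqrt hd.ne').inv hs.ne'
  refine h2.congr_deriv ?_
  have h3 : Real.sqrt (g s).det ^ 2 = (g s).det := Real.sq_sqrt hd.le
  rw [h3]
  field_simp

theorem Sm.inv {U : Set (E n)} {g : E n → Mat n} (hg : Sm U g)
    (hd : ∀ x ∈ U, (g x).det ≠ 0) : Sm U (fun y => (g y)⁻¹) :=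
  SmV.inv hg hd

theorem det_contDiffOn {U : Set (E n)} {g : E n → Mat n} (hg : Sm U g) :
    ContDiffOn ℝ ∞ (fun y => (g y).det) U :=
  SmV.det hg

theorem mpd_inv (i : Fin n) {g : E n → Mat n} {x : E n} (hg : DA g x) (hd : (g x).det ≠ 0) :
    mpd i (fun y => (g y)⁻¹) x = -((g x)⁻¹ * mpd i g x * (g x)⁻¹) := by
  have hi : DA (fun y => (g y)⁻¹) x := fun a b => da_inv hg hd a b
  have hdc : ContinuousAt (fun y => (g y).det) x := (da_det hg).continuousAt
  have h2 : ∀ᶠ y in nhds x, (g y).det ≠ 0 := hdc.eventually_ne hd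
  have h3 : mpd i (fun y => g y * (g y)⁻¹) x = 0 := by
    ext a b
    have h4 : (fun y => (g y * (g y)⁻¹) a b) =ᶠ[nhds x] fun _ => (1 : Mat n) a b := by
      filter_upwards [h2] with y hy
      rw [Matrix.mul_nonsing_inv _ (isUnit_iff_ne_zero.mpr hy)]
    simp only [mpd, Matrix.of_apply, Matrix.zero_apply, pd]
    rw [h4.fderiv_eq]
    simp
  rw [mpd_mul i hg hi] at h3
  have h5 : g x * mpd i (fun y => (g y)⁻¹) x = -(mpd i g x * (g x)⁻¹) :=
    eq_neg_of_add_eq_zero_right h3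
  have h6 : mpd i (fun y => (g y)⁻¹) x = (g x)⁻¹ * (g x * mpd i (fun y => (g y)⁻¹) x) := by
    rw [← Matrix.mul_assoc, Matrix.nonsing_inv_mul _ (isUnit_iff_ne_zero.mpr hd), Matrix.one_mul]
  rw [h6, h5, Matrix.mul_neg, Matrix.mul_assoc]

theorem pd_det (i : Fin n) {g : E n → Mat n} {x : E n} (hg : DA g x) (hd : (g x).det ≠ 0) :
    pd i (fun y => (g y).det) x = (g x).det * ((g x)⁻¹ * mpd i g x).trace := by
  have hl : ∀ a b, HasDerivAt (fun t : ℝ => g (x + t • ee i) a b) (mpd i g x a b) 0 :=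
    fun a b => line_deriv (hg a b) i
  have h1 := hasDerivAt_det_aux (g := fun t : ℝ => g (x + t • ee i)) hl
  have h2 := line_deriv (da_det hg) i
  have h3 := h2.unique h1
  simp only [zero_smul, add_zero] at h3
  rw [h3, adj_trace hd]

theorem sw_contDiffOn {U : Set (E n)} {g : E n → Mat n} (hg : Sm U g)
    (hd : ∀ x ∈ U, 0 < (g x).det) : ContDiffOn ℝ ∞ (sw g) U := by
  have h1 : ContDiffOn ℝ ∞ (fun y => (g y).det) U := SmV.det hg
  exact (h1.sqrt fun x hx => (hd x hx).ne').inv fun x hx => (Real.sqrt_pos.mpr (hd x hx)).ne'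

theorem pd_sw (i : Fin n) {g : E n → Mat n} {x : E n} (hg : DA g x) (hd : 0 < (g x).det) :
    pd i (sw g) x = -(1 / 2) * ((g x)⁻¹ * mpd i g x).trace * sw g x := by
  have hl : ∀ a b, HasDerivAt (fun t : ℝ => g (x + t • ee i) a b) (mpd i g x a b) 0 :=
    fun a b => line_deriv (hg a b) i
  have hd0 : 0 < (g (x + (0 : ℝ) • ee i)).det := by rw [zero_smul, add_zero]; exact hd
  have h1 := hasDerivAt_sw_aux (g := fun t : ℝ => g (x + t • ee i)) hl hd0
  have hdet : DifferentiableAt ℝ (fun y => (g y).det) x := da_det hg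
  have hsd : DifferentiableAt ℝ (sw g) x :=
    (hdet.sqrt hd.ne').inv (Real.sqrt_pos.mpr hd).ne'
  have h2 := line_deriv hsd i
  have h3 := h2.unique h1
  simp only [zero_smul, add_zero] at h3
  exact h3

theorem CC_sm {U : Set (E n)} (hU : IsOpen U) {g : E n → Mat n} (hg : Sm U g) (j : Fin n) :
    Sm U (CC g j) := by
  have h1 : ∀ (i : Fin n) (a b : Fin n), ContDiffOn ℝ ∞ (pd i fun y => g y a b) U :=
    fun i a b => pd_contDiffOn hU (hg a b) i
  intro k l
  exact contDiffOn_const.mul (((h1 j k l).add (h1 l k j)).sub (h1 k j l))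

theorem GG_sm {U : Set (E n)} (hU : IsOpen U) {g : E n → Mat n} (hg : Sm U g)
    (hd : ∀ x ∈ U, (g x).det ≠ 0) (j : Fin n) : Sm U (GG g j) :=
  (Sm.inv hg hd).mul (CC_sm hU hg j)

theorem RR_sm {U : Set (E n)} (hU : IsOpen U) {g : E n → Mat n} (hg : Sm U g)
    (hd : ∀ x ∈ U, (g x).det ≠ 0) (i j : Fin n) : Sm U (fun y => RR g y i j) := by
  have hi := Sm.inv hg hd
  exact ((((CC_sm hU hg j).mpd hU i).sub ((CC_sm hU hg i).mpd hU j)).sub
    (((CC_sm hU hg i).transpose.mul hi).mul (CC_sm hU hg j))).add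
    (((CC_sm hU hg j).transpose.mul hi).mul (CC_sm hU hg i))

/-- Derivatives of one-parameter families of matrices (the same computations). -/
theorem hasDerivAt_inv {g : ℝ → Mat n} {g' : Mat n} {s : ℝ}
    (hg : ∀ a b, HasDerivAt (fun t => g t a b) (g' a b) s) (hd : (g s).det ≠ 0) (a b : Fin n) :
    HasDerivAt (fun t => (g t)⁻¹ a b) (-((g s)⁻¹ * g' * (g s)⁻¹) a b) s := by
  exact hasDerivAt_inv_aux hg hd a b

theorem hasDerivAt_sw {g : ℝ → Mat n} {g' : Mat n} {s : ℝ}
    (hg : ∀ a b, HasDerivAt (fun t => g t a b) (g' a b) s) (hd : 0 < (g s).det) :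
    HasDerivAt (fun t => (Real.sqrt (g t).det)⁻¹)
      (-(1 / 2) * ((g s)⁻¹ * g').trace * (Real.sqrt (g s).det)⁻¹) s := by
  exact hasDerivAt_sw_aux hg hd

end Pool.H68.LV
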