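import Pool.Agent.H68.LV.Fk

/-!
# Module CAR: the canonical anticommutation relations

Everything is a computation with the definition of cr (entries (-1)^(number of j in S' below i)
if S = insert i S' and i is not in S'). Suggested: first show how a product acts, i.e.
(A * B) S S' = sum over S1; for cr j the only S1 is insert j S'. Cases i = j, i < j, j < i.
Key count: for j not in S' and i not in insert j S',
#{k in insert j S' : k < i} = #{k in S' : k < i} + (1 if j < i else 0).
-/

open Matrix

noncomputable section
namespace Pool.H68.LV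

variable {n : ℕ}

private def eps (i : Fin n) (S : FI n) : ℝ := (-1 : ℝ) ^ (S.filter (fun j => j < i)).card

private theorem eps_sq (i : Fin n) (S : FI n) : eps i S * eps i S = 1 := by
  rw [eps, ← pow_add, ← two_mul, pow_mul]
  norm_num

private theorem eps_insert (i j : Fin n) (S : FI n) (hj : j ∉ S) :
    eps i (insert j S) = (if j < i then -1 else 1) * eps i S := by
  rw [eps, eps, Finset.filter_insert]
  by_cases h : j < i
  · rw [if_pos h, if_pos h, Finset.card_insert_of_notMem (by simp [hj]), pow_succ]
    ring
  · rw [if_neg h, if_neg h, one_mul]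

private theorem cr_apply (i : Fin n) (S S' : FI n) :
    (cr i : Matrix (FI n) (FI n) ℝ) S S' = if i ∉ S' ∧ S = insert i S' then eps i S' else 0 := rfl

private theorem mul_cr (A : Matrix (FI n) (FI n) ℝ) (j : Fin n) (S T : FI n) :
    (A * cr j) S T = if j ∉ T then A S (insert j T) * eps j T else 0 := by
  rw [Matrix.mul_apply]
  by_cases hj : j ∈ T
  · rw [if_neg (not_not.mpr hj)]
    exact Finset.sum_eq_zero fun S' _ => by rw [cr_apply, if_neg (by tauto), mul_zero]
  · rw [if_pos hj, Finset.sum_eq_single (insert j T)]
    · rw [cr_apply, if_pos ⟨hj, rfl⟩]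
    · intro S' _ hS'
      rw [cr_apply, if_neg (by tauto), mul_zero]
    · intro h; exact absurd (Finset.mem_univ _) h

private theorem mul_crT (A : Matrix (FI n) (FI n) ℝ) (j : Fin n) (S T : FI n) :
    (A * (cr j)ᵀ) S T = if j ∈ T then A S (T.erase j) * eps j (T.erase j) else 0 := by
  rw [Matrix.mul_apply]
  by_cases hj : j ∈ T
  · rw [if_pos hj, Finset.sum_eq_single (T.erase j)]
    · rw [transpose_apply, cr_apply, if_pos ⟨Finset.notMem_erase j T,
        (Finset.insert_erase hj).symm⟩]
    · intro S' _ hS'
      rw [transpose_apply, cr_apply, if_neg, mul_zero]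
      rintro ⟨h1, h2⟩
      apply hS'
      rw [h2, Finset.erase_insert h1]
    · intro h; exact absurd (Finset.mem_univ _) h
  · rw [if_neg hj]
    refine Finset.sum_eq_zero fun S' _ => ?_
    rw [transpose_apply, cr_apply, if_neg, mul_zero]
    rintro ⟨_, h2⟩
    apply hj
    rw [h2]
    exact Finset.mem_insert_self j S'


theorem cr_mul_cr (i j : Fin n) :
    (cr i : Matrix (FI n) (FI n) ℝ) * cr j = -(cr j * cr i) := by
  ext S T
  rw [Matrix.neg_apply, mul_cr, mul_cr, cr_apply, cr_apply]
  by_cases hij : i = j
  · subst hij
    by_cases hj : i ∈ T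
    · simp [hj]
    · simp [hj]
  · by_cases hj : j ∈ T
    · simp [hj]
    · by_cases hi : i ∈ T
      · simp [hi]
      · by_cases hS : S = insert i (insert j T)
        · have hS' : S = insert j (insert i T) := by rw [hS, Finset.insert_comm]
          have c1 : i ∉ insert j T := by simp [hij, hi]
          have c2 : j ∉ insert i T := by simp [Ne.symm hij, hj]
          rw [if_pos hj, if_pos hi, if_pos ⟨c1, hS⟩, if_pos ⟨c2, hS'⟩, eps_insert _ _ _ hj,
            eps_insert _ _ _ hi]
          rcases lt_or_gt_of_ne hij with h | h
          · rw [if_pos h, if_neg (not_lt.mpr h.le)]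
            ring
          · rw [if_pos h, if_neg (not_lt.mpr h.le)]
            ring
        · have hS' : ¬ S = insert j (insert i T) := by rw [Finset.insert_comm]; exact hS
          rw [if_pos hj, if_pos hi, if_neg (by tauto), if_neg (by tauto)]
          simp

theorem an_mul_cr (i j : Fin n) :
    (cr i : Matrix (FI n) (FI n) ℝ)ᵀ * cr j + cr j * (cr i)ᵀ = if i = j then 1 else 0 := by
  ext S T
  rw [Matrix.add_apply, mul_cr, mul_crT, transpose_apply, cr_apply, cr_apply]
  by_cases hij : i = j
  · subst hij
    rw [if_pos rfl, Matrix.one_apply]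
    by_cases hT : i ∈ T
    · rw [if_neg (not_not.mpr hT), zero_add, if_pos hT]
      by_cases hS : S = T
      · subst hS
        rw [if_pos ⟨Finset.notMem_erase i S, (Finset.insert_erase hT).symm⟩, if_pos rfl, eps_sq]
      · rw [if_neg, zero_mul, if_neg hS]
        rintro ⟨_, h⟩
        apply hS
        rw [h, Finset.insert_erase hT]
    · rw [if_pos hT, if_neg hT, add_zero]
      by_cases hS : S = T
      · subst hS
        rw [if_pos ⟨hT, rfl⟩, if_pos rfl, eps_sq]
      · rw [if_neg, zero_mul, if_neg hS]
        rintro ⟨h1, h2⟩
        apply hS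
        rw [← Finset.erase_insert h1, ← h2, Finset.erase_insert hT]
  · rw [if_neg hij, Matrix.zero_apply]
    by_cases hc : j ∉ T ∧ i ∈ T ∧ i ∉ S ∧ insert j T = insert i S
    · obtain ⟨h1, h2, h3, h4⟩ := hc
      set R := T.erase i with hR
      have hiR : i ∉ R := Finset.notMem_erase i T
      have hT : T = insert i R := (Finset.insert_erase h2).symm
      have hjR : j ∉ R := fun h => h1 (Finset.mem_of_mem_erase h)
      have hS : S = insert j R := by
        rw [← Finset.erase_insert h3, ← h4, hT, Finset.insert_comm, Finset.erase_insert]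
        simp [hij, hiR]
      rw [if_pos h1, if_pos h2, if_pos ⟨h3, h4⟩, if_pos ⟨hjR, hS⟩, hS, eps_insert _ _ _ hjR,
        hT, eps_insert _ _ _ hiR]
      rcases lt_or_gt_of_ne hij with h | h
      · rw [if_pos h, if_neg (not_lt.mpr h.le)]
        ring
      · rw [if_pos h, if_neg (not_lt.mpr h.le)]
        ring
    · have z1 : (if j ∉ T then (if i ∉ S ∧ insert j T = insert i S then eps i S else 0) * eps j T
          else 0) = 0 := by
        split_ifs with a1 a2
        · rfl
        · exfalso
          apply hc
          refine ⟨a1, ?_, a2.1, a2.2⟩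
          have : i ∈ insert j T := by rw [a2.2]; exact Finset.mem_insert_self i S
          rcases Finset.mem_insert.mp this with h | h
          · exact absurd h hij
          · exact h
        · rw [zero_mul]
      have z2 : (if i ∈ T then (if j ∉ T.erase i ∧ S = insert j (T.erase i) then
          eps j (T.erase i) else 0) * eps i (T.erase i) else 0) = 0 := by
        split_ifs with a1 a2
        · exfalso
          apply hc
          obtain ⟨b1, b2⟩ := a2
          have hjT : j ∉ T := fun h => b1 (Finset.mem_erase.mpr ⟨Ne.symm hij, h⟩)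
          refine ⟨hjT, a1, ?_, ?_⟩
          · rw [b2]; simp [hij]
          · rw [b2, Finset.insert_comm, Finset.insert_erase a1]
        · rw [zero_mul]
        · rfl
      rw [z1, z2, add_zero]

/-- The annihilation matrices kill the vacuum. -/
theorem an_vac (i : Fin n) (S : FI n) : (cr i : Matrix (FI n) (FI n) ℝ)ᵀ S ∅ = 0 := by
  rw [transpose_apply, cr_apply, if_neg]
  rintro ⟨_, h⟩
  exact (Finset.insert_ne_empty i S) h.symm

/-- The top row of cr p * (cr q)^T. -/
theorem cr_an_top (p q : Fin n) (S : FI n) :
    ((cr p : Matrix (FI n) (FI n) ℝ) * (cr q)ᵀ) Finset.univ S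
      = if p = q then (1 : Matrix (FI n) (FI n) ℝ) Finset.univ S else 0 := by
  rw [mul_crT, cr_apply]
  by_cases hpq : p = q
  · subst hpq
    rw [if_pos rfl, Matrix.one_apply]
    by_cases hS : Finset.univ = S
    · subst hS
      rw [if_pos (Finset.mem_univ p), if_pos ⟨Finset.notMem_erase p _,
        (Finset.insert_erase (Finset.mem_univ p)).symm⟩, if_pos rfl, eps_sq]
    · rw [if_neg hS]
      split_ifs with a1 a2
      · exfalso
        apply hS
        rw [a2.2, Finset.insert_erase a1]
      · rw [zero_mul]
      · rfl
  · rw [if_neg hpq]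
    split_ifs with a1 a2
    · exfalso
      have : q ∈ insert p (S.erase q) := by rw [← a2.2]; exact Finset.mem_univ q
      rcases Finset.mem_insert.mp this with h | h
      · exact hpq h.symm
      · exact (Finset.notMem_erase q S) h
    · rw [zero_mul]
    · rfl

end Pool.H68.LV
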