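import Pool.Agent.H68.LV.Gb1

/-!
# Module GB2: Gauss-Bonnet scalar and double forms for g = 1

h4 T ^ 2 = (1/16) sum T_abpq T_cdrs Lc a Lc b Rc p Rc q Lc c Lc d Rc r Rc s
= (1/16) sum T_abpq T_cdrs wL[a,b,c,d] wR[p,q,r,s] (L and R commute). By bt_delta
bt(h4 T^2 h2 1^(n-4)) = (n-4)!/16 sum_(abcd pqrs) T_abpq T_cdrs det(delta).
Expand the 4x4 determinant over the 24 permutations (Matrix.det_apply, Finset.univ of
Perm (Fin 4), or Matrix.det_succ_row_zero and simp): each permutation makes the sum over p,q,r,s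
collapse. With a12, a34, pair the 24 terms give 4 Sc^2 - 16 |Ric|^2 + 4 |Rm|^2, where (g = 1)
Ric_ik = sum_j T_ijkj, Sc = sum T_ijij, |Rm|^2 = sum T_ijkl^2: 4 permutations preserve
{0,1} and {2,3} (4 Sc^2), 4 exchange the two pairs (4 |Rm|^2), 16 mix (each gives -|Ric|^2).
(Checked numerically for n = 4.)
-/

open Matrix

noncomputable section
namespace Pool.H68.LV

variable {n : ℕ}

theorem abs4 {R : Type*} [Ring R] {a b p q c d r s : R} (h1 : c * p = p * c)
    (h2 : c * q = q * c) (h3 : d * p = p * d) (h4 : d * q = q * d) :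
    a * b * p * q * (c * d * r * s) = a * b * c * d * (p * q * r * s) := by
  have e : p * q * (c * d) = c * d * (p * q) := by
    have c1 : Commute (p * q) (c * d) :=
      Commute.mul_left (Commute.mul_right h1.symm h3.symm) (Commute.mul_right h2.symm h4.symm)
    exact c1.eq
  calc a * b * p * q * (c * d * r * s) = a * b * (p * q * (c * d)) * (r * s) := by noncomm_ring
    _ = a * b * (c * d * (p * q)) * (r * s) := by rw [e]
    _ = _ := by noncomm_ring


private theorem det4 (M : Matrix (Fin 4) (Fin 4) ℝ) : M.det =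
    M 0 0 * M 1 1 * M 2 2 * M 3 3
      - M 0 0 * M 1 1 * M 3 2 * M 2 3
      - M 0 0 * M 2 1 * M 1 2 * M 3 3
      + M 0 0 * M 2 1 * M 3 2 * M 1 3
      + M 0 0 * M 3 1 * M 1 2 * M 2 3
      - M 0 0 * M 3 1 * M 2 2 * M 1 3
      - M 1 0 * M 0 1 * M 2 2 * M 3 3
      + M 1 0 * M 0 1 * M 3 2 * M 2 3
      + M 1 0 * M 2 1 * M 0 2 * M 3 3
      - M 1 0 * M 2 1 * M 3 2 * M 0 3
      - M 1 0 * M 3 1 * M 0 2 * M 2 3
      + M 1 0 * M 3 1 * M 2 2 * M 0 3
      + M 2 0 * M 0 1 * M 1 2 * M 3 3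
      - M 2 0 * M 0 1 * M 3 2 * M 1 3
      - M 2 0 * M 1 1 * M 0 2 * M 3 3
      + M 2 0 * M 1 1 * M 3 2 * M 0 3
      + M 2 0 * M 3 1 * M 0 2 * M 1 3
      - M 2 0 * M 3 1 * M 1 2 * M 0 3
      - M 3 0 * M 0 1 * M 1 2 * M 2 3
      + M 3 0 * M 0 1 * M 2 2 * M 1 3
      + M 3 0 * M 1 1 * M 0 2 * M 2 3
      - M 3 0 * M 1 1 * M 2 2 * M 0 3
      - M 3 0 * M 2 1 * M 0 2 * M 1 3
      + M 3 0 * M 2 1 * M 1 2 * M 0 3 := by
  rw [Matrix.det_succ_row_zero]
  simp only [Fin.sum_univ_succ, Matrix.det_fin_three, Matrix.submatrix_apply]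
  simp [Fin.succAbove, Fin.lt_def]
  ring

private def dl (u v : Fin n) : ℝ := if u = v then 1 else 0

private theorem coll (K : Fin n → Fin n → Fin n → Fin n → ℝ) (x0 x1 x2 x3 : Fin n) :
    ∑ p, ∑ q, ∑ r, ∑ s, K p q r s * (dl x0 p * dl x1 q * dl x2 r * dl x3 s) = K x0 x1 x2 x3 := by
  simp [dl]


private theorem det_sum (K : Fin n → Fin n → Fin n → Fin n → ℝ) (x0 x1 x2 x3 : Fin n) :
    ∑ p, ∑ q, ∑ r, ∑ s, K p q r s * (Matrix.of fun a b : Fin 4 =>
      if (![x0, x1, x2, x3] : Fin 4 → Fin n) a = (![p, q, r, s] : Fin 4 → Fin n) b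
        then (1 : ℝ) else 0).det
      = K x0 x1 x2 x3
      - K x0 x1 x3 x2
      - K x0 x2 x1 x3
      + K x0 x2 x3 x1
      + K x0 x3 x1 x2
      - K x0 x3 x2 x1
      - K x1 x0 x2 x3
      + K x1 x0 x3 x2
      + K x1 x2 x0 x3
      - K x1 x2 x3 x0
      - K x1 x3 x0 x2
      + K x1 x3 x2 x0
      + K x2 x0 x1 x3
      - K x2 x0 x3 x1
      - K x2 x1 x0 x3
      + K x2 x1 x3 x0
      + K x2 x3 x0 x1
      - K x2 x3 x1 x0
      - K x3 x0 x1 x2
      + K x3 x0 x2 x1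
      + K x3 x1 x0 x2
      - K x3 x1 x2 x0
      - K x3 x2 x0 x1
      + K x3 x2 x1 x0 := by
  have h : ∀ p q r s : Fin n, K p q r s * (Matrix.of fun a b : Fin 4 =>
      if (![x0, x1, x2, x3] : Fin 4 → Fin n) a = (![p, q, r, s] : Fin 4 → Fin n) b
        then (1 : ℝ) else 0).det
      = K p q r s * (dl x0 p * dl x1 q * dl x2 r * dl x3 s)
      - K p q r s * (dl x0 p * dl x1 q * dl x3 r * dl x2 s)
      - K p q r s * (dl x0 p * dl x2 q * dl x1 r * dl x3 s)
      + K p q r s * (dl x0 p * dl x2 q * dl x3 r * dl x1 s)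
      + K p q r s * (dl x0 p * dl x3 q * dl x1 r * dl x2 s)
      - K p q r s * (dl x0 p * dl x3 q * dl x2 r * dl x1 s)
      - K p q r s * (dl x1 p * dl x0 q * dl x2 r * dl x3 s)
      + K p q r s * (dl x1 p * dl x0 q * dl x3 r * dl x2 s)
      + K p q r s * (dl x1 p * dl x2 q * dl x0 r * dl x3 s)
      - K p q r s * (dl x1 p * dl x2 q * dl x3 r * dl x0 s)
      - K p q r s * (dl x1 p * dl x3 q * dl x0 r * dl x2 s)
      + K p q r s * (dl x1 p * dl x3 q * dl x2 r * dl x0 s)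
      + K p q r s * (dl x2 p * dl x0 q * dl x1 r * dl x3 s)
      - K p q r s * (dl x2 p * dl x0 q * dl x3 r * dl x1 s)
      - K p q r s * (dl x2 p * dl x1 q * dl x0 r * dl x3 s)
      + K p q r s * (dl x2 p * dl x1 q * dl x3 r * dl x0 s)
      + K p q r s * (dl x2 p * dl x3 q * dl x0 r * dl x1 s)
      - K p q r s * (dl x2 p * dl x3 q * dl x1 r * dl x0 s)
      - K p q r s * (dl x3 p * dl x0 q * dl x1 r * dl x2 s)
      + K p q r s * (dl x3 p * dl x0 q * dl x2 r * dl x1 s)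
      + K p q r s * (dl x3 p * dl x1 q * dl x0 r * dl x2 s)
      - K p q r s * (dl x3 p * dl x1 q * dl x2 r * dl x0 s)
      - K p q r s * (dl x3 p * dl x2 q * dl x0 r * dl x1 s)
      + K p q r s * (dl x3 p * dl x2 q * dl x1 r * dl x0 s) := by
    intro p q r s
    show K p q r s * (Matrix.of fun a b : Fin 4 =>
      dl ((![x0, x1, x2, x3] : Fin 4 → Fin n) a) ((![p, q, r, s] : Fin 4 → Fin n) b)).det = _
    rw [det4]
    simp only [Matrix.of_apply, Matrix.cons_val]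
    ring
  simp only [h, Finset.sum_add_distrib, Finset.sum_sub_distrib, coll]


theorem det_sum' (K : Fin n → Fin n → Fin n → Fin n → ℝ) (x0 x1 x2 x3 : Fin n)
    (h1 : ∀ p q r s, K q p r s = - K p q r s) (h2 : ∀ p q r s, K p q s r = - K p q r s) :
    ∑ p, ∑ q, ∑ r, ∑ s, K p q r s * (Matrix.of fun a b : Fin 4 =>
      if (![x0, x1, x2, x3] : Fin 4 → Fin n) a = (![p, q, r, s] : Fin 4 → Fin n) b
        then (1 : ℝ) else 0).det
      = 4 * (K x0 x1 x2 x3 - K x0 x2 x1 x3 + K x0 x3 x1 x2 + K x1 x2 x0 x3 - K x1 x3 x0 x2 + K x2 x3 x0 x1) := by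
  rw [det_sum]
  linarith [h2 x0 x1 x2 x3,
    h2 x0 x2 x1 x3,
    h2 x0 x3 x1 x2,
    h1 x0 x1 x2 x3,
    h1 x0 x1 x3 x2,
    h2 x1 x2 x0 x3,
    h2 x1 x3 x0 x2,
    h1 x0 x2 x1 x3,
    h1 x0 x2 x3 x1,
    h1 x1 x2 x0 x3,
    h1 x1 x2 x3 x0,
    h2 x2 x3 x0 x1,
    h1 x0 x3 x1 x2,
    h1 x0 x3 x2 x1,
    h1 x1 x3 x0 x2,
    h1 x1 x3 x2 x0,
    h1 x2 x3 x0 x1,
    h1 x2 x3 x1 x0]


theorem h4_sq (T : Fin n → Fin n → Mat n) :
    h4 T ^ 2 = (1 / 16 : ℝ) • ∑ a, ∑ b, ∑ p, ∑ q, ∑ c, ∑ d, ∑ r, ∑ s,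
      (T a b p q * T c d r s) • (wL (List.ofFn ![a, b, c, d]) * wR (List.ofFn ![p, q, r, s]) :
        DD n) := by
  have hw : ∀ a b p q c d r s : Fin n, (Lc a * Lc b * Rc p * Rc q * (Lc c * Lc d * Rc r * Rc s) :
      DD n) = wL (List.ofFn ![a, b, c, d]) * wR (List.ofFn ![p, q, r, s]) := by
    intro a b p q c d r s
    have e1 : wL (List.ofFn ![a, b, c, d]) = (Lc a * Lc b * Lc c * Lc d : DD n) := by
      simp [wL, mul_assoc]
    have e2 : wR (List.ofFn ![p, q, r, s]) = (Rc p * Rc q * Rc r * Rc s : DD n) := by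
      simp [wR, mul_assoc]
    rw [e1, e2]
    exact abs4 (Lc_mul_Rc c p) (Lc_mul_Rc c q) (Lc_mul_Rc d p) (Lc_mul_Rc d q)
  rw [pow_two, h4, smul_mul_smul_comm]
  congr 1
  · norm_num
  rw [Finset.sum_mul]
  refine Finset.sum_congr rfl fun a _ => ?_
  rw [Finset.sum_mul]
  refine Finset.sum_congr rfl fun b _ => ?_
  rw [Finset.sum_mul]
  refine Finset.sum_congr rfl fun p _ => ?_
  rw [Finset.sum_mul]
  refine Finset.sum_congr rfl fun q _ => ?_
  rw [Finset.mul_sum]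
  refine Finset.sum_congr rfl fun c _ => ?_
  rw [Finset.mul_sum]
  refine Finset.sum_congr rfl fun d _ => ?_
  rw [Finset.mul_sum]
  refine Finset.sum_congr rfl fun r _ => ?_
  rw [Finset.mul_sum]
  refine Finset.sum_congr rfl fun s _ => ?_
  rw [smul_mul_smul_comm, hw]

theorem bt_sum {ι : Type*} (s : Finset ι) (f : ι → DD n) :
    bt (∑ i ∈ s, f i) = ∑ i ∈ s, bt (f i) := by
  rw [bt, Matrix.sum_apply]
  rfl

private theorem bt_h4sq (hn : 4 ≤ n) (T : Fin n → Fin n → Mat n) :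
    bt (h4 T ^ 2 * h2 (1 : Mat n) ^ (n - 4))
      = (1 / 16 : ℝ) * ∑ a, ∑ b, ∑ c, ∑ d, (n - 4).factorial * ∑ p, ∑ q, ∑ r, ∑ s,
      (T a b p q * T c d r s) * (Matrix.of fun i j : Fin 4 =>
      if (![a, b, c, d] : Fin 4 → Fin n) i = (![p, q, r, s] : Fin 4 → Fin n) j
        then (1 : ℝ) else 0).det := by
  rw [h4_sq, smul_mul_assoc, bt_smul]
  congr 1
  rw [Finset.sum_mul, bt_sum]
  refine Finset.sum_congr rfl fun a _ => ?_
  rw [Finset.sum_mul, bt_sum]
  refine Finset.sum_congr rfl fun b _ => ?_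
  simp only [Finset.sum_mul, bt_sum, smul_mul_assoc, bt_smul, bt_delta hn]
  have e : ∀ f : Fin n → Fin n → Fin n → Fin n → Fin n → Fin n → ℝ,
      ∑ p, ∑ q, ∑ c, ∑ d, ∑ r, ∑ s, f p q c d r s = ∑ c, ∑ d, ∑ p, ∑ q, ∑ r, ∑ s, f p q c d r s := by
    intro f
    have h := Finset.sum_comm (s := (Finset.univ : Finset (Fin n × Fin n)))
      (t := (Finset.univ : Finset (Fin n × Fin n)))
      (f := fun u v => ∑ r, ∑ s, f u.1 u.2 v.1 v.2 r s)
    simpa only [Fintype.sum_prod_type] using h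
  rw [e]
  refine Finset.sum_congr rfl fun c _ => Finset.sum_congr rfl fun d _ => ?_
  simp only [Finset.mul_sum]
  refine Finset.sum_congr rfl fun p _ => Finset.sum_congr rfl fun q _ =>
    Finset.sum_congr rfl fun r _ => Finset.sum_congr rfl fun s _ => ?_
  ring


/-- Ricci contraction for the unit matrix. -/
private def RI (T : Fin n → Fin n → Mat n) (i k : Fin n) : ℝ := ∑ j, T i j k j

private theorem RI_symm (T : Fin n → Fin n → Mat n) (hT : Curv T) (i k : Fin n) :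
    RI T i k = RI T k i := by
  refine Finset.sum_congr rfl fun j _ => ?_
  exact hT.pair i j k j

private theorem RI_alt (T : Fin n → Fin n → Mat n) (hT : Curv T) (i k : Fin n) :
    RI T i k = ∑ j, T j i j k := by
  refine Finset.sum_congr rfl fun j _ => ?_
  rw [hT.a12, hT.a34, neg_neg]

private theorem s1 (T : Fin n → Fin n → Mat n) :
    ∑ a, ∑ b, ∑ c, ∑ d, T a b a b * T c d c d = (∑ i, RI T i i) ^ 2 := by
  have h : ∀ a b, ∑ c, ∑ d, T a b a b * T c d c d = T a b a b * ∑ i, RI T i i := by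
    intro a b
    simp only [RI, Finset.mul_sum]
  simp only [h, ← Finset.sum_mul]
  rw [pow_two]
  rfl

private theorem s2 (T : Fin n → Fin n → Mat n) (hT : Curv T) :
    ∑ a, ∑ b, ∑ c, ∑ d, T a b c d * T c d a b = ∑ a, ∑ b, ∑ c, ∑ d, T a b c d * T a b c d := by
  refine Finset.sum_congr rfl fun a _ => Finset.sum_congr rfl fun b _ =>
    Finset.sum_congr rfl fun c _ => Finset.sum_congr rfl fun d _ => ?_
  rw [hT.pair c d a b]

private theorem s3 (T : Fin n → Fin n → Mat n) (hT : Curv T) :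
    ∑ a, ∑ b, ∑ c, ∑ d, T a b a c * T c d b d = ∑ i, ∑ k, RI T i k * RI T i k := by
  have h : ∀ a b c, ∑ d, T a b a c * T c d b d = T a b a c * RI T b c := by
    intro a b c
    rw [← Finset.mul_sum, RI_symm T hT b c]
    rfl
  simp only [h]
  rw [Finset.sum_comm]
  refine Finset.sum_congr rfl fun b _ => ?_
  rw [Finset.sum_comm]
  refine Finset.sum_congr rfl fun c _ => ?_
  rw [← Finset.sum_mul, ← RI_alt T hT]

private theorem s4 (T : Fin n → Fin n → Mat n) (hT : Curv T) :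
    ∑ a, ∑ b, ∑ c, ∑ d, T a b a d * T c d b c = - ∑ i, ∑ k, RI T i k * RI T i k := by
  rw [← s3 T hT]
  simp only [← Finset.sum_neg_distrib]
  refine Finset.sum_congr rfl fun a _ => Finset.sum_congr rfl fun b _ => ?_
  rw [Finset.sum_comm]
  refine Finset.sum_congr rfl fun c _ => Finset.sum_congr rfl fun d _ => ?_
  rw [hT.a12 d c b d]
  ring

private theorem s5 (T : Fin n → Fin n → Mat n) (hT : Curv T) :
    ∑ a, ∑ b, ∑ c, ∑ d, T a b b c * T c d a d = - ∑ i, ∑ k, RI T i k * RI T i k := by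
  rw [← s3 T hT, Finset.sum_comm]
  simp only [← Finset.sum_neg_distrib]
  refine Finset.sum_congr rfl fun a _ => Finset.sum_congr rfl fun b _ =>
    Finset.sum_congr rfl fun c _ => Finset.sum_congr rfl fun d _ => ?_
  rw [hT.a12 b a a c]
  ring

private theorem s6 (T : Fin n → Fin n → Mat n) (hT : Curv T) :
    ∑ a, ∑ b, ∑ c, ∑ d, T a b b d * T c d a c = ∑ i, ∑ k, RI T i k * RI T i k := by
  rw [← s3 T hT, Finset.sum_comm]
  refine Finset.sum_congr rfl fun a _ => Finset.sum_congr rfl fun b _ => ?_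
  rw [Finset.sum_comm]
  refine Finset.sum_congr rfl fun c _ => Finset.sum_congr rfl fun d _ => ?_
  rw [hT.a12 b a a c, hT.a12 d c b d]
  ring

private theorem ric_one (T : Fin n → Fin n → Mat n) (i k : Fin n) :
    ricT 1 T i k = RI T i k := by
  simp [ricT, RI, Matrix.one_apply]

private theorem gb_one (T : Fin n → Fin n → Mat n) : gbT 1 T =
    (∑ i, RI T i i) ^ 2 - 4 * (∑ i, ∑ k, RI T i k * RI T i k)
      + ∑ a, ∑ b, ∑ c, ∑ d, T a b c d * T a b c d := by
  have h1 : scT 1 T = ∑ i, RI T i i := by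
    simp [scT, ric_one, Matrix.one_apply]
  rw [gbT, h1]
  congr 1
  · congr 1
    congr 1
    refine Finset.sum_congr rfl fun i _ => Finset.sum_congr rfl fun k _ => ?_
    simp [ric_one, Matrix.one_apply]
  · refine Finset.sum_congr rfl fun i _ => Finset.sum_congr rfl fun j _ =>
      Finset.sum_congr rfl fun k _ => Finset.sum_congr rfl fun l _ => ?_
    simp [Matrix.one_apply]

theorem bt_gb_one (hn : 4 ≤ n) (T : Fin n → Fin n → Mat n) (hT : Curv T) :
    bt (h4 T ^ 2 * h2 (1 : Mat n) ^ (n - 4)) = ((n - 4).factorial / 4) * gbT 1 T := by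
  rw [bt_h4sq hn, gb_one]
  have h : ∀ a b c d : Fin n, ∑ p, ∑ q, ∑ r, ∑ s,
      (T a b p q * T c d r s) * (Matrix.of fun i j : Fin 4 =>
      if (![a, b, c, d] : Fin 4 → Fin n) i = (![p, q, r, s] : Fin 4 → Fin n) j
        then (1 : ℝ) else 0).det
      = 4 * (T a b a b * T c d c d - T a b a c * T c d b d + T a b a d * T c d b c
        + T a b b c * T c d a d - T a b b d * T c d a c + T a b c d * T c d a b) := by
    intro a b c d
    exact det_sum' (fun p q r s => T a b p q * T c d r s) a b c d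
      (fun p q r s => by rw [hT.a34 a b q p, neg_mul]) (fun p q r s => by
        rw [hT.a34 c d s r, mul_neg])
  simp only [h]
  have h2 : ∑ a, ∑ b, ∑ c, ∑ d, ((n - 4).factorial : ℝ) *
      (4 * (T a b a b * T c d c d - T a b a c * T c d b d + T a b a d * T c d b c
        + T a b b c * T c d a d - T a b b d * T c d a c + T a b c d * T c d a b))
      = (n - 4).factorial * (4 * ((∑ i, RI T i i) ^ 2 - (∑ i, ∑ k, RI T i k * RI T i k)
        + (- ∑ i, ∑ k, RI T i k * RI T i k) + (- ∑ i, ∑ k, RI T i k * RI T i k)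
        - (∑ i, ∑ k, RI T i k * RI T i k) + ∑ a, ∑ b, ∑ c, ∑ d, T a b c d * T a b c d)) := by
    simp only [← Finset.mul_sum]
    congr 2
    simp only [Finset.sum_add_distrib, Finset.sum_sub_distrib]
    rw [s1 T, s2 T hT, s3 T hT, s4 T hT, s5 T hT, s6 T hT]
  rw [h2]
  ring

end Pool.H68.LV
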