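import Mathlib

/-!
# Module SLM: the S-lemma (Finsler's lemma) for one quadratic equation

Let A(x) = x.Ax, Q(x) = x.Qx. Claim: if Q(a) > 0 > Q(b) then A(a)/Q(a) + A(b)/|Q(b)| >= 0.
Scale: Q(a) = 1, Q(b) = -1 (A(ca) = c^2 A(a)). Let q = a.Qb. The equation
Q(za + b) = z^2 + 2qz - 1 = 0 has two real roots z1 > 0 > z2 = -1/z1. The hypothesis gives
z_i^2 A(a) + 2 z_i A(a,b) + A(b) >= 0 for i = 1, 2. Add 1/z1 times the first and z1 times the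
second: (z1 + 1/z1)(A(a) + A(b)) >= 0. So A(a) + A(b) >= 0.
Hence t := sup over {Q(a) > 0} of -A(a)/Q(a) is finite (bounded above by A(b0)/|Q(b0)|; the set is
nonempty), and A + tQ >= 0 on {Q > 0} by definition, on {Q < 0} by the claim
(t <= A(b)/|Q(b)|), on {Q = 0} by hypothesis.
-/

open Matrix

namespace Pool.H68.LV

private theorem quad_exp {m : ℕ} (M : Matrix (Fin m) (Fin m) ℝ) (hM : Mᵀ = M) (a b : Fin m → ℝ)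
    (s : ℝ) : (s • a + b) ⬝ᵥ (M *ᵥ (s • a + b))
      = s ^ 2 * (a ⬝ᵥ (M *ᵥ a)) + 2 * s * (a ⬝ᵥ (M *ᵥ b)) + b ⬝ᵥ (M *ᵥ b) := by
  have h : b ⬝ᵥ (M *ᵥ a) = a ⬝ᵥ (M *ᵥ b) := by
    rw [Matrix.dotProduct_mulVec, ← Matrix.mulVec_transpose, hM, dotProduct_comm]
  rw [Matrix.mulVec_add, Matrix.mulVec_smul, dotProduct_add, add_dotProduct, add_dotProduct,
    smul_dotProduct, dotProduct_smul, dotProduct_smul, smul_dotProduct, h]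
  simp only [smul_eq_mul]
  ring

private theorem roots {p q r : ℝ} (hp : 0 < p) (hr : r < 0) :
    ∃ s1 s2 : ℝ, 0 < s1 ∧ s2 < 0 ∧ s1 ^ 2 * p + 2 * s1 * q + r = 0 ∧
      s2 ^ 2 * p + 2 * s2 * q + r = 0 ∧ s1 * s2 * p = r := by
  have hD : 0 < q ^ 2 - p * r := by nlinarith [sq_nonneg q, mul_pos hp (neg_pos.mpr hr)]
  set d := Real.sqrt (q ^ 2 - p * r) with hd
  have hd2 : d ^ 2 = q ^ 2 - p * r := Real.sq_sqrt hD.le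
  have hdq : |q| < d := by
    apply lt_of_pow_lt_pow_left₀ 2 (Real.sqrt_nonneg _)
    rw [hd2, sq_abs]
    nlinarith [mul_pos hp (neg_pos.mpr hr)]
  have h1 : q < d := lt_of_le_of_lt (le_abs_self q) hdq
  have h2 : -q < d := lt_of_le_of_lt (neg_le_abs q) hdq
  refine ⟨(-q + d) / p, (-q - d) / p, div_pos (by linarith) hp,
    div_neg_of_neg_of_pos (by linarith) hp, ?_, ?_, ?_⟩
  · field_simp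
    nlinarith
  · field_simp
    nlinarith
  · field_simp
    nlinarith

private theorem claim {m : ℕ} (A Q : Matrix (Fin m) (Fin m) ℝ) (hA : Aᵀ = A) (hQ : Qᵀ = Q)
    (h : ∀ x : Fin m → ℝ, x ⬝ᵥ (Q *ᵥ x) = 0 → 0 ≤ x ⬝ᵥ (A *ᵥ x)) (a b : Fin m → ℝ)
    (ha : 0 < a ⬝ᵥ (Q *ᵥ a)) (hb : b ⬝ᵥ (Q *ᵥ b) < 0) :
    0 ≤ (b ⬝ᵥ (A *ᵥ b)) * (a ⬝ᵥ (Q *ᵥ a)) - (b ⬝ᵥ (Q *ᵥ b)) * (a ⬝ᵥ (A *ᵥ a)) := by
  obtain ⟨s1, s2, h1, h2, h3, h4, h5⟩ := roots (q := a ⬝ᵥ (Q *ᵥ b)) ha hb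
  have k1 := h (s1 • a + b) (by rw [quad_exp Q hQ]; exact h3)
  have k2 := h (s2 • a + b) (by rw [quad_exp Q hQ]; exact h4)
  rw [quad_exp A hA] at k1 k2
  have k3 : 0 ≤ (s1 - s2) * (-(s1 * s2) * (a ⬝ᵥ (A *ᵥ a)) + b ⬝ᵥ (A *ᵥ b)) := by
    have e1 := mul_nonneg (neg_nonneg.mpr h2.le) k1
    have e2 := mul_nonneg h1.le k2
    linarith
  have k4 : 0 ≤ -(s1 * s2) * (a ⬝ᵥ (A *ᵥ a)) + b ⬝ᵥ (A *ᵥ b) :=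
    nonneg_of_mul_nonneg_right k3 (by linarith)
  have k5 := mul_nonneg k4 ha.le
  rw [← h5]
  linarith

theorem slemma {m : ℕ} (A Q : Matrix (Fin m) (Fin m) ℝ) (hA : Aᵀ = A) (hQ : Qᵀ = Q)
    (h : ∀ x : Fin m → ℝ, x ⬝ᵥ (Q *ᵥ x) = 0 → 0 ≤ x ⬝ᵥ (A *ᵥ x))
    (hp : ∃ x : Fin m → ℝ, 0 < x ⬝ᵥ (Q *ᵥ x)) (hm : ∃ x : Fin m → ℝ, x ⬝ᵥ (Q *ᵥ x) < 0) :
    ∃ t : ℝ, ∀ x : Fin m → ℝ, 0 ≤ x ⬝ᵥ (A *ᵥ x) + t * (x ⬝ᵥ (Q *ᵥ x)) := by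
  obtain ⟨a0, ha0⟩ := hp
  obtain ⟨b0, hb0⟩ := hm
  set S : Set ℝ := {t | ∃ a : Fin m → ℝ, 0 < a ⬝ᵥ (Q *ᵥ a) ∧
    t = -(a ⬝ᵥ (A *ᵥ a)) / (a ⬝ᵥ (Q *ᵥ a))} with hS
  have hub : ∀ b : Fin m → ℝ, b ⬝ᵥ (Q *ᵥ b) < 0 → ∀ t ∈ S,
      t ≤ (b ⬝ᵥ (A *ᵥ b)) / (-(b ⬝ᵥ (Q *ᵥ b))) := by
    rintro b hb t ⟨a, ha, rfl⟩
    rw [div_le_div_iff₀ ha (neg_pos.mpr hb)]
    have := claim A Q hA hQ h a b ha hb
    linarith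
  have hne : S.Nonempty := ⟨_, a0, ha0, rfl⟩
  have hbd : BddAbove S := ⟨_, fun t ht => hub b0 hb0 t ht⟩
  refine ⟨sSup S, fun x => ?_⟩
  rcases lt_trichotomy (x ⬝ᵥ (Q *ᵥ x)) 0 with hx | hx | hx
  · have h1 : sSup S ≤ (x ⬝ᵥ (A *ᵥ x)) / (-(x ⬝ᵥ (Q *ᵥ x))) := csSup_le hne (hub x hx)
    rw [le_div_iff₀ (neg_pos.mpr hx)] at h1
    linarith
  · rw [hx, mul_zero, add_zero]
    exact h x hx
  · have h1 : -(x ⬝ᵥ (A *ᵥ x)) / (x ⬝ᵥ (Q *ᵥ x)) ≤ sSup S := le_csSup hbd ⟨x, hx, rfl⟩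
    rw [div_le_iff₀ hx] at h1
    linarith

end Pool.H68.LV
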