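import Pool.Agent.H68.LV.Fk
import Pool.Agent.H68.LV.Slm
import Pool.Agent.H68.LV.Gb2

/-!
# Module CM: the Chern-Milnor lemma in dimension four

Index the pairs P = 01, 02, 03, 12, 13, 23 by Fin 6. A_PQ = T_P,Q (6x6, symmetric by pair).
S = the star form: S_(01,23) = 1, S_(02,13) = -1, S_(03,12) = 1 and symmetric, 0 otherwise;
S^2 = 1, tr S = 0.
(a) If x.Sx = 2(x01 x23 - x02 x13 + x03 x12) = 0 then x = u wedge v for some u, v in R^4:
x = 0, or some coordinate is nonzero; e.g. x01 <> 0: u = (1, 0, -x12/x01, -x13/x01),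
v = (0, x01, x02, x03); the other five cases in the same way. Then
x.Ax = sum T_ijkl u_i v_j u_k v_l = tq T u v >= 0.
(b) slemma: M = A + tS is positive semidefinite (symmetric and x.Mx >= 0), M = B^T B.
(c) Bianchi: tr(AS) = 2(T0123 - T0213 + T0312) = 0.
(d) The double sum over permutations is 16 tr(SASA) (each ordered pair (P, complement) comes from
4 permutations with the same value).
(e) tr(SASA) = tr(SMSM) - 2t tr(SM) + 6t^2 = tr(SMSM) - 6t^2, as tr(SM) = 6t.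
(f) W = B S B^T is symmetric, tr(W^2) = sum W_ij^2 >= sum W_ii^2 >= (tr W)^2/6 = (6t)^2/6 = 6t^2,
tr(W^2) = tr(SMSM), tr W = tr(SM).
-/

open Matrix
open scoped MatrixOrder

noncomputable section
namespace Pool.H68.LV

/-! Signed sums over permutations of four letters. -/

private def dl4 (u v : Fin 4) : ℝ := if u = v then 1 else 0

private theorem perm_sum (K : Fin 4 → Fin 4 → Fin 4 → Fin 4 → ℝ)
    (h1 : ∀ p q r s, K q p r s = - K p q r s) (h2 : ∀ p q r s, K p q s r = - K p q r s) :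
    ∑ σ : Equiv.Perm (Fin 4), ((Equiv.Perm.sign σ : ℤ) : ℝ) * K (σ 0) (σ 1) (σ 2) (σ 3)
      = 4 * (K 0 1 2 3 - K 0 2 1 3 + K 0 3 1 2 + K 1 2 0 3 - K 1 3 0 2 + K 2 3 0 1) := by
  have h := det_sum' K 0 1 2 3 h1 h2
  rw [← h]
  have e : ∀ p q r s : Fin 4, K p q r s * (Matrix.of fun a b : Fin 4 =>
      if (![0, 1, 2, 3] : Fin 4 → Fin 4) a = (![p, q, r, s] : Fin 4 → Fin 4) b
        then (1 : ℝ) else 0).det
      = ∑ σ : Equiv.Perm (Fin 4), ((Equiv.Perm.sign σ : ℤ) : ℝ) * (K p q r s *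
        (dl4 (σ 0) p * dl4 (σ 1) q * dl4 (σ 2) r * dl4 (σ 3) s)) := by
    intro p q r s
    show K p q r s * (Matrix.of fun a b : Fin 4 =>
      dl4 ((![0, 1, 2, 3] : Fin 4 → Fin 4) a) ((![p, q, r, s] : Fin 4 → Fin 4) b)).det = _
    rw [Matrix.det_apply', Finset.mul_sum]
    refine Finset.sum_congr rfl fun σ _ => ?_
    have e1 : ∀ a : Fin 4, (![0, 1, 2, 3] : Fin 4 → Fin 4) a = a := by
      intro a
      fin_cases a <;> rfl
    simp only [Matrix.of_apply, e1, Fin.prod_univ_four, Matrix.cons_val]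
    ring
  simp only [e]
  have sw : ∀ f : Fin 4 → Fin 4 → Fin 4 → Fin 4 → Equiv.Perm (Fin 4) → ℝ,
      ∑ p, ∑ q, ∑ r, ∑ s, ∑ σ, f p q r s σ = ∑ σ, ∑ p, ∑ q, ∑ r, ∑ s, f p q r s σ := by
    intro f
    have h := Finset.sum_comm (s := (Finset.univ : Finset (Fin 4 × Fin 4 × Fin 4 × Fin 4)))
      (t := (Finset.univ : Finset (Equiv.Perm (Fin 4))))
      (f := fun u σ => f u.1 u.2.1 u.2.2.1 u.2.2.2 σ)
    simpa only [Fintype.sum_prod_type] using h
  rw [sw]
  refine Finset.sum_congr rfl fun σ _ => ?_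
  simp only [← Finset.mul_sum]
  congr 1
  simp [dl4]

private def pI : Fin 6 → Fin 4 := ![0, 0, 0, 1, 1, 2]
private def qI : Fin 6 → Fin 4 := ![1, 2, 3, 2, 3, 3]
private def sI : Fin 6 → ℝ := ![1, -1, 1, 1, -1, 1]

private theorem six (f : Fin 6 → ℝ) : ∑ i, f i = f 0 + f 1 + f 2 + f 3 + f 4 + f 5 := by
  simp only [Fin.sum_univ_succ]
  simp
  ring

private theorem perm_sum' (K : Fin 4 → Fin 4 → Fin 4 → Fin 4 → ℝ)
    (h1 : ∀ p q r s, K q p r s = - K p q r s) (h2 : ∀ p q r s, K p q s r = - K p q r s) :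
    ∑ σ : Equiv.Perm (Fin 4), ((Equiv.Perm.sign σ : ℤ) : ℝ) * K (σ 0) (σ 1) (σ 2) (σ 3)
      = 4 * ∑ i, sI i * K (pI i) (qI i) (pI i.rev) (qI i.rev) := by
  rw [perm_sum K h1 h2, six]
  simp only [sI, pI, qI, Matrix.cons_val, Fin.rev, Fin.isValue]
  show _ = 4 * (1 * K 0 1 2 3 + -1 * K 0 2 1 3 + 1 * K 0 3 1 2 + 1 * K 1 2 0 3 + -1 * K 1 3 0 2
    + 1 * K 2 3 0 1)
  ring

/-- The curvature matrix and the star form. -/
private def cA (T : Fin 4 → Fin 4 → Mat 4) : Mat 6 :=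
  Matrix.of fun i j => T (pI i) (qI i) (pI j) (qI j)

private def cS : Mat 6 := Matrix.of fun i j => if j = i.rev then sI i else 0

private theorem sI_rev (i : Fin 6) : sI i.rev = sI i := by
  fin_cases i <;> simp [sI, Fin.rev]

private theorem sI_sq (i : Fin 6) : sI i * sI i = 1 := by
  fin_cases i <;> simp [sI]

private theorem cS_T : cSᵀ = cS := by
  ext i j
  rw [transpose_apply, cS, Matrix.of_apply, Matrix.of_apply]
  by_cases h : j = i.rev
  · subst h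
    rw [Fin.rev_rev, if_pos rfl, if_pos rfl, sI_rev]
  · rw [if_neg h, if_neg]
    rintro rfl
    exact h (Fin.rev_rev j).symm

private theorem cS_sq : cS * cS = 1 := by
  ext i j
  rw [Matrix.mul_apply, Finset.sum_eq_single i.rev]
  · rw [cS, Matrix.of_apply, Matrix.of_apply, if_pos rfl, Fin.rev_rev, Matrix.one_apply]
    by_cases h : i = j
    · rw [if_pos h.symm, if_pos h, sI_rev, sI_sq]
    · rw [if_neg (Ne.symm h), if_neg h, mul_zero]
  · intro k _ hk
    rw [cS, Matrix.of_apply, if_neg hk, zero_mul]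
  · intro h; exact absurd (Finset.mem_univ _) h

private theorem cA_T (T : Fin 4 → Fin 4 → Mat 4) (hT : Curv T) : (cA T)ᵀ = cA T := by
  ext i j
  exact hT.pair _ _ _ _

/-- (S A)_ij. -/
private theorem cS_mul (A : Mat 6) (i j : Fin 6) : (cS * A) i j = sI i * A i.rev j := by
  rw [Matrix.mul_apply, Finset.sum_eq_single i.rev]
  · rw [cS, Matrix.of_apply, if_pos rfl]
  · intro k _ hk
    rw [cS, Matrix.of_apply, if_neg hk, zero_mul]
  · intro h; exact absurd (Finset.mem_univ _) h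

private theorem bianchi_tr (T : Fin 4 → Fin 4 → Mat 4) (hT : Curv T) :
    (cS * cA T).trace = 0 := by
  rw [Matrix.trace, six]
  simp only [Matrix.diag_apply, cS_mul]
  show 1 * T 2 3 0 1 + -1 * T 1 3 0 2 + 1 * T 1 2 0 3 + 1 * T 0 3 1 2 + -1 * T 0 2 1 3
    + 1 * T 0 1 2 3 = 0
  have b1 := hT.bian 0 1 2 3
  have p1 := hT.pair 2 3 0 1
  have p2 := hT.pair 1 3 0 2
  have p3 := hT.pair 0 3 1 2
  have a1 := hT.a12 0 2 1 3
  linarith

/-- The double signed sum is 16 tr(SASA). -/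
private theorem double_sum (T : Fin 4 → Fin 4 → Mat 4) (hT : Curv T) :
    ∑ σ : Equiv.Perm (Fin 4), ∑ τ : Equiv.Perm (Fin 4),
      ((Equiv.Perm.sign σ : ℤ) : ℝ) * ((Equiv.Perm.sign τ : ℤ) : ℝ) *
        (T (σ 0) (σ 1) (τ 0) (τ 1) * T (σ 2) (σ 3) (τ 2) (τ 3))
      = 16 * (cS * cA T * (cS * cA T)).trace := by
  have h1 : ∀ σ : Equiv.Perm (Fin 4), ∑ τ : Equiv.Perm (Fin 4),
      ((Equiv.Perm.sign σ : ℤ) : ℝ) * ((Equiv.Perm.sign τ : ℤ) : ℝ) *
        (T (σ 0) (σ 1) (τ 0) (τ 1) * T (σ 2) (σ 3) (τ 2) (τ 3))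
      = ((Equiv.Perm.sign σ : ℤ) : ℝ) * (4 * ∑ j, sI j * (T (σ 0) (σ 1) (pI j) (qI j) *
        T (σ 2) (σ 3) (pI j.rev) (qI j.rev))) := by
    intro σ
    rw [← perm_sum' (fun p q r s => T (σ 0) (σ 1) p q * T (σ 2) (σ 3) r s)
      (fun p q r s => by rw [hT.a34 (σ 0) (σ 1) q p, neg_mul])
      (fun p q r s => by rw [hT.a34 (σ 2) (σ 3) s r, mul_neg]), Finset.mul_sum]
    refine Finset.sum_congr rfl fun τ _ => ?_
    ring
  simp only [h1]
  rw [perm_sum' (fun a b c d => 4 * ∑ j, sI j * (T a b (pI j) (qI j) *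
        T c d (pI j.rev) (qI j.rev)))
      (fun p q r s => by
        rw [← mul_neg, ← Finset.sum_neg_distrib]
        congr 1
        refine Finset.sum_congr rfl fun j _ => ?_
        rw [hT.a12 q p]
        ring)
      (fun p q r s => by
        rw [← mul_neg, ← Finset.sum_neg_distrib]
        congr 1
        refine Finset.sum_congr rfl fun j _ => ?_
        rw [hT.a12 s r]
        ring)]
  have h2 : (cS * cA T * (cS * cA T)).trace
      = ∑ i, ∑ j, (sI i * cA T i.rev j) * (sI j * cA T j.rev i) := by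
    rw [Matrix.trace]
    refine Finset.sum_congr rfl fun i _ => ?_
    rw [Matrix.diag_apply, Matrix.mul_apply]
    refine Finset.sum_congr rfl fun j _ => ?_
    rw [cS_mul, cS_mul]
  have h2' := (Equiv.sum_comp Fin.revPerm (fun i : Fin 6 => ∑ j, (sI i * cA T i.rev j) *
    (sI j * cA T j.rev i))).symm
  rw [h2, h2']
  have h3 : (16 : ℝ) * ∑ i : Fin 6, ∑ j, (sI (Fin.revPerm i) * cA T (Fin.revPerm i).rev j) *
      (sI j * cA T j.rev (Fin.revPerm i))
      = 4 * ∑ i, 4 * ∑ j, (sI (Fin.revPerm i) * cA T (Fin.revPerm i).rev j) *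
      (sI j * cA T j.rev (Fin.revPerm i)) := by
    rw [← Finset.mul_sum]
    ring
  rw [h3]
  congr 1
  refine Finset.sum_congr rfl fun i _ => ?_
  rw [mul_left_comm]
  congr 1
  rw [Finset.mul_sum]
  refine Finset.sum_congr rfl fun j _ => ?_
  rw [Fin.revPerm_apply, Fin.rev_rev, sI_rev]
  show sI i * (sI j * (T (pI i) (qI i) (pI j) (qI j) * T (pI i.rev) (qI i.rev) (pI j.rev) (qI j.rev)))
    = sI i * T (pI i) (qI i) (pI j) (qI j) *
      (sI j * T (pI j.rev) (qI j.rev) (pI i.rev) (qI i.rev))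
  rw [hT.pair (pI j.rev)]
  ring

/-! Decomposable vectors. -/

private theorem wedge_sum (K : Fin 4 → Fin 4 → ℝ) (hK : ∀ i j, K i j = - K j i)
    (u v : Fin 4 → ℝ) :
    ∑ i, ∑ j, K i j * (u i * v j)
      = ∑ s, K (pI s) (qI s) * (u (pI s) * v (qI s) - u (qI s) * v (pI s)) := by
  rw [six]
  simp only [Fin.sum_univ_four]
  show _ = K 0 1 * (u 0 * v 1 - u 1 * v 0) + K 0 2 * (u 0 * v 2 - u 2 * v 0)
    + K 0 3 * (u 0 * v 3 - u 3 * v 0) + K 1 2 * (u 1 * v 2 - u 2 * v 1)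
    + K 1 3 * (u 1 * v 3 - u 3 * v 1) + K 2 3 * (u 2 * v 3 - u 3 * v 2)
  have z : ∀ i, K i i = 0 := by
    intro i
    have := hK i i
    linarith
  rw [z 0, z 1, z 2, z 3, hK 1 0, hK 2 0, hK 3 0, hK 2 1, hK 3 1, hK 3 2]
  ring

private def wd (u v : Fin 4 → ℝ) : Fin 6 → ℝ :=
  fun s => u (pI s) * v (qI s) - u (qI s) * v (pI s)

private theorem tq_wd (T : Fin 4 → Fin 4 → Mat 4) (hT : Curv T) (u v : EuclideanSpace ℝ (Fin 4)) :
    wd u.ofLp v.ofLp ⬝ᵥ (cA T *ᵥ wd u.ofLp v.ofLp) = tq T u v := by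
  have h1 : tq T u v = ∑ i, ∑ j, (∑ k, ∑ l, T i j k l * (u k * v l)) * (u i * v j) := by
    rw [tq]
    refine Finset.sum_congr rfl fun i _ => Finset.sum_congr rfl fun j _ => ?_
    rw [Finset.sum_mul]
    refine Finset.sum_congr rfl fun k _ => ?_
    rw [Finset.sum_mul]
    refine Finset.sum_congr rfl fun l _ => ?_
    ring
  have h2 : ∀ i j, ∑ k, ∑ l, T i j k l * (u k * v l)
      = ∑ s, T i j (pI s) (qI s) * wd u.ofLp v.ofLp s := by
    intro i j
    exact wedge_sum (fun k l => T i j k l) (fun k l => hT.a34 i j k l) u.ofLp v.ofLp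
  rw [h1]
  simp only [h2]
  rw [wedge_sum (fun i j => ∑ s, T i j (pI s) (qI s) * wd u.ofLp v.ofLp s) ?_ u.ofLp v.ofLp]
  · rw [dotProduct]
    refine Finset.sum_congr rfl fun s _ => ?_
    rw [mul_comm]
    rfl
  · intro i j
    rw [← Finset.sum_neg_distrib]
    refine Finset.sum_congr rfl fun s _ => ?_
    rw [hT.a12 i j, neg_mul]

private theorem decomp (T : Fin 4 → Fin 4 → Mat 4) (hT : Curv T) (hp : ∀ u v, 0 ≤ tq T u v)
    (x : Fin 6 → ℝ) (u v : Fin 4 → ℝ) (c : ℝ) (hc : c ≠ 0) (h : wd u v = c • x) :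
    0 ≤ x ⬝ᵥ (cA T *ᵥ x) := by
  have h1 := hp (WithLp.toLp 2 u) (WithLp.toLp 2 v)
  rw [← tq_wd T hT] at h1
  have h2 : wd u v ⬝ᵥ (cA T *ᵥ wd u v) = (c * c) * (x ⬝ᵥ (cA T *ᵥ x)) := by
    rw [h, Matrix.mulVec_smul, smul_dotProduct, dotProduct_smul, smul_eq_mul, smul_eq_mul,
      mul_assoc]
  have h3 : 0 ≤ (c * c) * (x ⬝ᵥ (cA T *ᵥ x)) := by
    rw [← h2]
    exact h1
  have h4 : 0 < c * c := mul_self_pos.mpr hc
  exact nonneg_of_mul_nonneg_right h3 h4

private theorem wd_eq (u v : Fin 4 → ℝ) (c : ℝ) (x : Fin 6 → ℝ)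
    (h0 : u 0 * v 1 - u 1 * v 0 = c * x 0) (h1 : u 0 * v 2 - u 2 * v 0 = c * x 1)
    (h2 : u 0 * v 3 - u 3 * v 0 = c * x 2) (h3 : u 1 * v 2 - u 2 * v 1 = c * x 3)
    (h4 : u 1 * v 3 - u 3 * v 1 = c * x 4) (h5 : u 2 * v 3 - u 3 * v 2 = c * x 5) :
    wd u v = c • x := by
  funext s
  fin_cases s
  · exact h0
  · exact h1
  · exact h2
  · exact h3
  · exact h4
  · exact h5

private theorem star_form (x : Fin 6 → ℝ) :
    x ⬝ᵥ (cS *ᵥ x) = 2 * (x 0 * x 5 - x 1 * x 4 + x 2 * x 3) := by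
  have h : ∀ i, (cS *ᵥ x) i = sI i * x i.rev := by
    intro i
    rw [Matrix.mulVec, dotProduct, Finset.sum_eq_single i.rev]
    · rw [cS, Matrix.of_apply, if_pos rfl]
    · intro k _ hk
      rw [cS, Matrix.of_apply, if_neg hk, zero_mul]
    · intro h; exact absurd (Finset.mem_univ _) h
  rw [dotProduct, six]
  simp only [h]
  show x 0 * (1 * x 5) + x 1 * (-1 * x 4) + x 2 * (1 * x 3) + x 3 * (1 * x 2) + x 4 * (-1 * x 1)
    + x 5 * (1 * x 0) = _
  ring


private theorem nonneg_cone (T : Fin 4 → Fin 4 → Mat 4) (hT : Curv T) (hp : ∀ u v, 0 ≤ tq T u v)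
    (x : Fin 6 → ℝ) (hx0 : x ⬝ᵥ (cS *ᵥ x) = 0) : 0 ≤ x ⬝ᵥ (cA T *ᵥ x) := by
  rw [star_form] at hx0
  have hx : x 0 * x 5 - x 1 * x 4 + x 2 * x 3 = 0 := by linarith
  by_cases c0 : x 0 = 0
  swap
  · refine decomp T hT hp x ![0, x 0, x 1, x 2] ![-x 0, 0, x 3, x 4] (x 0) c0 (wd_eq _ _ _ _ ?_ ?_ ?_ ?_ ?_ ?_)
    · show 0 * 0 - x 0 * (-x 0) = x 0 * x 0
      linear_combination (0 : ℝ) * hx
    · show 0 * x 3 - x 1 * (-x 0) = x 0 * x 1
      linear_combination (0 : ℝ) * hx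
    · show 0 * x 4 - x 2 * (-x 0) = x 0 * x 2
      linear_combination (0 : ℝ) * hx
    · show x 0 * x 3 - x 1 * 0 = x 0 * x 3
      linear_combination (0 : ℝ) * hx
    · show x 0 * x 4 - x 2 * 0 = x 0 * x 4
      linear_combination (0 : ℝ) * hx
    · show x 1 * x 4 - x 2 * x 3 = x 0 * x 5
      linear_combination (-1 : ℝ) * hx
  by_cases c1 : x 1 = 0
  swap
  · refine decomp T hT hp x ![0, x 0, x 1, x 2] ![-x 1, -x 3, 0, x 5] (x 1) c1 (wd_eq _ _ _ _ ?_ ?_ ?_ ?_ ?_ ?_)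
    · show 0 * (-x 3) - x 0 * (-x 1) = x 1 * x 0
      linear_combination (0 : ℝ) * hx
    · show 0 * 0 - x 1 * (-x 1) = x 1 * x 1
      linear_combination (0 : ℝ) * hx
    · show 0 * x 5 - x 2 * (-x 1) = x 1 * x 2
      linear_combination (0 : ℝ) * hx
    · show x 0 * 0 - x 1 * (-x 3) = x 1 * x 3
      linear_combination (0 : ℝ) * hx
    · show x 0 * x 5 - x 2 * (-x 3) = x 1 * x 4
      linear_combination (1 : ℝ) * hx
    · show x 1 * x 5 - x 2 * 0 = x 1 * x 5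
      linear_combination (0 : ℝ) * hx
  by_cases c2 : x 2 = 0
  swap
  · refine decomp T hT hp x ![0, x 0, x 1, x 2] ![-x 2, -x 4, -x 5, 0] (x 2) c2 (wd_eq _ _ _ _ ?_ ?_ ?_ ?_ ?_ ?_)
    · show 0 * (-x 4) - x 0 * (-x 2) = x 2 * x 0
      linear_combination (0 : ℝ) * hx
    · show 0 * (-x 5) - x 1 * (-x 2) = x 2 * x 1
      linear_combination (0 : ℝ) * hx
    · show 0 * 0 - x 2 * (-x 2) = x 2 * x 2
      linear_combination (0 : ℝ) * hx
    · show x 0 * (-x 5) - x 1 * (-x 4) = x 2 * x 3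
      linear_combination (-1 : ℝ) * hx
    · show x 0 * 0 - x 2 * (-x 4) = x 2 * x 4
      linear_combination (0 : ℝ) * hx
    · show x 1 * 0 - x 2 * (-x 5) = x 2 * x 5
      linear_combination (0 : ℝ) * hx
  by_cases c3 : x 3 = 0
  swap
  · refine decomp T hT hp x ![-x 0, 0, x 3, x 4] ![-x 1, -x 3, 0, x 5] (x 3) c3 (wd_eq _ _ _ _ ?_ ?_ ?_ ?_ ?_ ?_)
    · show (-x 0) * (-x 3) - 0 * (-x 1) = x 3 * x 0
      linear_combination (0 : ℝ) * hx
    · show (-x 0) * 0 - x 3 * (-x 1) = x 3 * x 1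
      linear_combination (0 : ℝ) * hx
    · show (-x 0) * x 5 - x 4 * (-x 1) = x 3 * x 2
      linear_combination (-1 : ℝ) * hx
    · show 0 * 0 - x 3 * (-x 3) = x 3 * x 3
      linear_combination (0 : ℝ) * hx
    · show 0 * x 5 - x 4 * (-x 3) = x 3 * x 4
      linear_combination (0 : ℝ) * hx
    · show x 3 * x 5 - x 4 * 0 = x 3 * x 5
      linear_combination (0 : ℝ) * hx
  by_cases c4 : x 4 = 0
  swap
  · refine decomp T hT hp x ![-x 0, 0, x 3, x 4] ![-x 2, -x 4, -x 5, 0] (x 4) c4 (wd_eq _ _ _ _ ?_ ?_ ?_ ?_ ?_ ?_)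
    · show (-x 0) * (-x 4) - 0 * (-x 2) = x 4 * x 0
      linear_combination (0 : ℝ) * hx
    · show (-x 0) * (-x 5) - x 3 * (-x 2) = x 4 * x 1
      linear_combination (1 : ℝ) * hx
    · show (-x 0) * 0 - x 4 * (-x 2) = x 4 * x 2
      linear_combination (0 : ℝ) * hx
    · show 0 * (-x 5) - x 3 * (-x 4) = x 4 * x 3
      linear_combination (0 : ℝ) * hx
    · show 0 * 0 - x 4 * (-x 4) = x 4 * x 4
      linear_combination (0 : ℝ) * hx
    · show x 3 * 0 - x 4 * (-x 5) = x 4 * x 5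
      linear_combination (0 : ℝ) * hx
  by_cases c5 : x 5 = 0
  swap
  · refine decomp T hT hp x ![-x 1, -x 3, 0, x 5] ![-x 2, -x 4, -x 5, 0] (x 5) c5 (wd_eq _ _ _ _ ?_ ?_ ?_ ?_ ?_ ?_)
    · show (-x 1) * (-x 4) - (-x 3) * (-x 2) = x 5 * x 0
      linear_combination (-1 : ℝ) * hx
    · show (-x 1) * (-x 5) - 0 * (-x 2) = x 5 * x 1
      linear_combination (0 : ℝ) * hx
    · show (-x 1) * 0 - x 5 * (-x 2) = x 5 * x 2
      linear_combination (0 : ℝ) * hx
    · show (-x 3) * (-x 5) - 0 * (-x 4) = x 5 * x 3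
      linear_combination (0 : ℝ) * hx
    · show (-x 3) * 0 - x 5 * (-x 4) = x 5 * x 4
      linear_combination (0 : ℝ) * hx
    · show 0 * 0 - x 5 * (-x 5) = x 5 * x 5
      linear_combination (0 : ℝ) * hx
  have : x = 0 := by
    funext s
    fin_cases s
    · exact c0
    · exact c1
    · exact c2
    · exact c3
    · exact c4
    · exact c5
  rw [this]
  simp

private theorem tr_sq (W : Mat 6) (hW : Wᵀ = W) : (W.trace) ^ 2 ≤ 6 * (W * W).trace := by
  have h1 : (W * W).trace = ∑ i, ∑ j, W i j ^ 2 := by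
    rw [Matrix.trace]
    refine Finset.sum_congr rfl fun i _ => ?_
    rw [Matrix.diag_apply, Matrix.mul_apply]
    refine Finset.sum_congr rfl fun j _ => ?_
    rw [pow_two]
    congr 1
    exact congrFun (congrFun hW i) j
  have h2 : ∑ i, W i i ^ 2 ≤ (W * W).trace := by
    rw [h1]
    refine Finset.sum_le_sum fun i _ => ?_
    exact Finset.single_le_sum (f := fun j => W i j ^ 2) (fun j _ => sq_nonneg _)
      (Finset.mem_univ i)
  have h3 : (∑ i, W i i) ^ 2 ≤ 6 * ∑ i, W i i ^ 2 := by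
    have := sq_sum_le_card_mul_sum_sq (s := (Finset.univ : Finset (Fin 6))) (f := fun i => W i i)
    simpa using this
  have h4 : W.trace = ∑ i, W i i := rfl
  rw [h4]
  linarith

theorem chern_milnor (T : Fin 4 → Fin 4 → Mat 4) (hT : Curv T) (hp : ∀ u v, 0 ≤ tq T u v) :
    0 ≤ ∑ σ : Equiv.Perm (Fin 4), ∑ τ : Equiv.Perm (Fin 4),
      ((Equiv.Perm.sign σ : ℤ) : ℝ) * ((Equiv.Perm.sign τ : ℤ) : ℝ) *
        (T (σ 0) (σ 1) (τ 0) (τ 1) * T (σ 2) (σ 3) (τ 2) (τ 3)) := by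
  rw [double_sum T hT]
  obtain ⟨t, ht⟩ := slemma (cA T) cS (cA_T T hT) cS_T (nonneg_cone T hT hp)
    ⟨![1, 0, 0, 0, 0, 1], by rw [star_form]; simp⟩
    ⟨![1, 0, 0, 0, 0, -1], by rw [star_form]; simp⟩
  set M : Mat 6 := cA T + t • cS with hM
  have hMT : Mᵀ = M := by
    rw [hM, Matrix.transpose_add, Matrix.transpose_smul, cA_T T hT, cS_T]
  have hMp : M.PosSemidef := by
    refine Matrix.PosSemidef.of_dotProduct_mulVec_nonneg ?_ ?_
    · rw [Matrix.IsHermitian, Matrix.conjTranspose_eq_transpose_of_trivial, hMT]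
    · intro x
      have := ht x
      rw [star_trivial, hM, Matrix.add_mulVec, Matrix.smul_mulVec, dotProduct_add,
        dotProduct_smul, smul_eq_mul]
      exact this
  obtain ⟨B, hB⟩ := CStarAlgebra.nonneg_iff_eq_star_mul_self.mp hMp.nonneg
  rw [star_eq_conjTranspose, Matrix.conjTranspose_eq_transpose_of_trivial] at hB
  set W : Mat 6 := B * cS * Bᵀ with hW
  have hWT : Wᵀ = W := by
    rw [hW, Matrix.transpose_mul, Matrix.transpose_mul, transpose_transpose, cS_T, mul_assoc]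
  have h1 : W.trace = (cS * M).trace := by
    rw [hW, hB, Matrix.trace_mul_comm, ← mul_assoc, Matrix.trace_mul_comm]
  have h2 : (W * W).trace = (cS * M * (cS * M)).trace := by
    have e : W * W = B * (cS * (Bᵀ * B) * (cS * Bᵀ)) := by
      rw [hW]
      simp only [mul_assoc]
    rw [e, Matrix.trace_mul_comm, hB]
    congr 1
    simp only [mul_assoc]
  have h3 : (cS * M).trace = 6 * t := by
    rw [hM, mul_add, mul_smul_comm, cS_sq, Matrix.trace_add, bianchi_tr T hT, Matrix.trace_smul,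
      Matrix.trace_one]
    simp
    ring
  have h4 : (cS * cA T * (cS * cA T)).trace = (cS * M * (cS * M)).trace - 6 * t ^ 2 := by
    have e : cS * M = cS * cA T + t • (1 : Mat 6) := by
      rw [hM, mul_add, mul_smul_comm, cS_sq]
    have e2 : cS * M * (cS * M) = cS * cA T * (cS * cA T) + (2 * t) • (cS * cA T)
        + (t ^ 2) • (1 : Mat 6) := by
      rw [e, add_mul, mul_add, mul_add, mul_smul_comm, smul_mul_assoc, smul_mul_assoc, mul_one,
        one_mul, one_mul, smul_smul, ← pow_two t, mul_smul, two_smul]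
      abel
    rw [e2, Matrix.trace_add, Matrix.trace_add, Matrix.trace_smul, Matrix.trace_smul,
      bianchi_tr T hT, Matrix.trace_one]
    simp
    ring
  have h5 := tr_sq W hWT
  rw [h1, h2, h3] at h5
  rw [h4]
  nlinarith

end Pool.H68.LV
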