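import Pool.Agent.H68.LV.Tns

/-!
# Module DIF: a smooth map with bounded second derivatives and invertible differential is a
diffeomorphism on a small ball whose size depends only on the bounds

A = fderiv Φ 0. |A v| >= |v|/(sqrt 2 Λ), so A is invertible and |A^(-1)| <= sqrt 2 Λ. For x in
ball 0 ρ2: |fderiv Φ x - A| <= n^2 C1 |x| * (constant) <= c' := 1/(4 Λ) if ρ2 is small
(mean value inequality for the entries of the differential, fderiv of a component applied to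
ee j is pd j). Hence ApproximatesLinearOn Φ A (ball 0 ρ2) c' (Convex.norm_image_sub_le_of_norm_...):
injective, and surjective onto balls: ApproximatesLinearOn.surjOn_closedBall_of_nonlinearRightInverse
applied on closedBall 0 (ρ2/2): contains closedBall (Φ 0) ((|A^(-1)|^(-1) - c') ρ2/2).
-/

open Matrix MeasureTheory Metric
open scoped ContDiff

noncomputable section
namespace Pool.H68.LV

variable {n : ℕ}

private theorem fder_le {f : E n → ℝ} {x : E n} {B : ℝ} (hB : 0 ≤ B) (h : ∀ i, |pd i f x| ≤ B) :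
    ‖fderiv ℝ f x‖ ≤ n * B := by
  refine (fderiv ℝ f x).opNorm_le_bound (by positivity) fun v => ?_
  have hv : v = ∑ i, v i • (ee i : E n) := by
    ext l
    simp [ee, Finset.sum_apply, Pi.single_apply]
  calc ‖fderiv ℝ f x v‖ = ‖∑ i, v i • fderiv ℝ f x (ee i)‖ := by
        conv_lhs => rw [hv, map_sum]
        congr 1
        exact Finset.sum_congr rfl fun i _ => map_smul _ _ _
    _ ≤ ∑ i, ‖v i • fderiv ℝ f x (ee i)‖ := norm_sum_le _ _
    _ ≤ ∑ _i : Fin n, ‖v‖ * B := by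
      refine Finset.sum_le_sum fun i _ => ?_
      rw [norm_smul]
      exact mul_le_mul (PiLp.norm_apply_le v i) (h i) (norm_nonneg _) (norm_nonneg _)
    _ = n * B * ‖v‖ := by
      rw [Finset.sum_const, Finset.card_univ, Fintype.card_fin, nsmul_eq_mul]
      ring

private theorem der_close {Φ : E n → E n} (hΦ : ContDiff ℝ ∞ Φ) {ρ C1 : ℝ} (hρ : 0 < ρ)
    (hC1 : 0 ≤ C1)
    (h2 : ∀ x ∈ ball (0 : E n) ρ, ∀ a i j, |pd i (pd j (fun y => Φ y a)) x| ≤ C1) {x : E n}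
    (hx : x ∈ ball (0 : E n) ρ) : ‖fderiv ℝ Φ x - fderiv ℝ Φ 0‖ ≤ n ^ 2 * (n * C1 * ‖x‖) := by
  have hd : ∀ y, DifferentiableAt ℝ Φ y := fun y => (hΦ.differentiable (by simp)) y
  refine opNorm_le_sum _ (by positivity) fun i a => ?_
  have e : ((fderiv ℝ Φ x - fderiv ℝ Φ 0) (ee i)) a
      = pd i (fun y => Φ y a) x - pd i (fun y => Φ y a) 0 := by
    rw [pd_comp (hd x), pd_comp (hd 0)]
    rfl
  rw [e]
  have ha : ContDiff ℝ ∞ (fun y => Φ y a) := contDiff_euclidean.mp hΦ a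
  have hi : ContDiff ℝ ∞ (pd i (fun y => Φ y a)) :=
    contDiffOn_univ.mp (pd_contDiffOn isOpen_univ ha.contDiffOn i)
  have h3 := (convex_ball (0 : E n) ρ).norm_image_sub_le_of_norm_fderiv_le (𝕜 := ℝ)
    (f := pd i (fun y => Φ y a)) (C := n * C1) (fun y _ => (hi.differentiable (by simp)) y)
    (fun y hy => fder_le hC1 (fun j => h2 y hy a j i)) (mem_ball_self hρ) hx
  rw [sub_zero, Real.norm_eq_abs] at h3
  exact h3

theorem diffeo_small (n : ℕ) (Λ C1 ρ : ℝ) (hΛ : 1 ≤ Λ) (hC1 : 0 ≤ C1) (hρ : 0 < ρ) :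
    ∃ ρ2 : ℝ, 0 < ρ2 ∧ ρ2 ≤ ρ ∧ ∃ c : ℝ, 0 < c ∧ ∀ Φ : E n → E n, ContDiff ℝ ∞ Φ →
      (∀ x ∈ ball (0 : E n) ρ, ∀ a i j, |pd i (pd j (fun y => Φ y a)) x| ≤ C1) →
      (∀ x ∈ ball (0 : E n) ρ, ∀ v, (2 * Λ ^ 2)⁻¹ * ‖v‖ ^ 2 ≤ ‖fderiv ℝ Φ x v‖ ^ 2) →
      Set.InjOn Φ (ball 0 ρ2) ∧ ball (Φ 0) (c * ρ2) ⊆ Φ '' ball 0 ρ2 ∧
        ∀ x ∈ ball (0 : E n) ρ2, (jac Φ x).det ≠ 0 := by
  have hΛ0 : 0 < Λ := by linarith
  have hn0 : (0 : ℝ) ≤ n := Nat.cast_nonneg n
  set c' : ℝ := 1 / (4 * Λ) with hc'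
  have hc'0 : 0 < c' := by positivity
  set Q : ℝ := (n : ℝ) ^ 2 * (n * C1) with hQ
  have hQ0 : 0 ≤ Q := by positivity
  set ρ2 : ℝ := min ρ (c' / (Q + 1)) with hρ2
  have hρ20 : 0 < ρ2 := lt_min hρ (by positivity)
  refine ⟨ρ2, hρ20, min_le_left _ _, 1 / (8 * Λ), by positivity, fun Φ hΦ h2 hlo => ?_⟩
  have hsub : ball (0 : E n) ρ2 ⊆ ball (0 : E n) ρ := ball_subset_ball (min_le_left _ _)
  have hd : ∀ y, DifferentiableAt ℝ Φ y := fun y => (hΦ.differentiable (by simp)) y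
  set A := fderiv ℝ Φ 0 with hA
  have hclose : ∀ x ∈ ball (0 : E n) ρ2, ‖fderiv ℝ Φ x - A‖ ≤ c' := by
    intro x hx
    refine (der_close hΦ hρ hC1 h2 (hsub hx)).trans ?_
    rw [mem_ball, dist_zero_right] at hx
    have h3 : ‖x‖ ≤ c' / (Q + 1) := hx.le.trans (min_le_right _ _)
    have h4 : (Q + 1) * ‖x‖ ≤ c' := by
      have := mul_le_mul_of_nonneg_left h3 (by positivity : 0 ≤ Q + 1)
      rwa [mul_div_cancel₀ _ (by positivity : Q + 1 ≠ 0)] at this
    have h5 : (n : ℝ) ^ 2 * (n * C1 * ‖x‖) = Q * ‖x‖ := by rw [hQ]; ring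
    rw [h5]
    nlinarith [norm_nonneg x]
  have hAlo : ∀ v, ‖v‖ ≤ 2 * Λ * ‖A v‖ := by
    intro v
    have h3 := hlo 0 (mem_ball_self hρ) v
    have h4 : ‖v‖ ^ 2 ≤ 2 * Λ ^ 2 * ‖A v‖ ^ 2 := by
      have := mul_le_mul_of_nonneg_left h3 (by positivity : 0 ≤ 2 * Λ ^ 2)
      rwa [← mul_assoc, mul_inv_cancel₀ (by positivity : 2 * Λ ^ 2 ≠ 0), one_mul] at this
    have h5 : ‖v‖ ^ 2 ≤ (2 * Λ * ‖A v‖) ^ 2 := by
      have : 0 ≤ Λ ^ 2 * ‖A v‖ ^ 2 := by positivity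
      nlinarith
    exact (pow_le_pow_iff_left₀ (norm_nonneg _) (by positivity) two_ne_zero).mp h5
  have happ : ApproximatesLinearOn Φ A (ball (0 : E n) ρ2) ⟨c', hc'0.le⟩ := by
    intro x hx y hy
    have h3 := (convex_ball (0 : E n) ρ2).norm_image_sub_le_of_norm_hasFDerivWithin_le
      (f := fun z => Φ z - A z) (f' := fun z => fderiv ℝ Φ z - A) (C := c')
      (fun z _ => ((hd z).hasFDerivAt.sub A.hasFDerivAt).hasFDerivWithinAt) hclose hy hx
    have e : Φ x - Φ y - A (x - y) = (Φ x - A x) - (Φ y - A y) := by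
      rw [map_sub]
      abel
    rw [e]
    exact h3
  have hinj : Function.Injective A := by
    rw [injective_iff_map_eq_zero]
    intro v hv
    have h3 := hAlo v
    rw [hv, norm_zero, mul_zero] at h3
    exact norm_le_zero_iff.mp h3
  have hsurj : Function.Surjective A :=
    (LinearMap.injective_iff_surjective (f := ((A : E n →L[ℝ] E n) : E n →ₗ[ℝ] E n))).mp hinj
  choose gi hgi using hsurj
  let S : A.NonlinearRightInverse :=
    { toFun := gi
      nnnorm := ⟨2 * Λ, by positivity⟩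
      bound' := fun y => by
        have := hAlo (gi y)
        rw [hgi] at this
        exact this
      right_inv' := hgi }
  refine ⟨?_, ?_, ?_⟩
  · intro x hx y hy hxy
    have h3 := happ x hx y hy
    rw [hxy, sub_self, zero_sub, norm_neg] at h3
    have h4 := hAlo (x - y)
    have h5 : ‖x - y‖ ≤ 2 * Λ * (c' * ‖x - y‖) := h4.trans (mul_le_mul_of_nonneg_left h3 (by positivity))
    have h6 : 2 * Λ * (c' * ‖x - y‖) = 1 / 2 * ‖x - y‖ := by
      rw [hc']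
      field_simp
      ring
    rw [h6] at h5
    have h7 : ‖x - y‖ ≤ 0 := by linarith [norm_nonneg (x - y)]
    exact sub_eq_zero.mp (norm_le_zero_iff.mp h7)
  · have h3 := happ.surjOn_closedBall_of_nonlinearRightInverse S (ε := ρ2 / 2) (b := 0)
      (by positivity) (closedBall_subset_ball (by linarith))
    intro y hy
    have h4 : y ∈ closedBall (Φ 0) (((S.nnnorm : ℝ)⁻¹ - (⟨c', hc'0.le⟩ : NNReal)) * (ρ2 / 2)) := by
      have e : ((S.nnnorm : ℝ)⁻¹ - ((⟨c', hc'0.le⟩ : NNReal) : ℝ)) * (ρ2 / 2) = 1 / (8 * Λ) * ρ2 := by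
        show ((2 * Λ)⁻¹ - c') * (ρ2 / 2) = _
        rw [hc']
        field_simp
        ring
      rw [e]
      exact ball_subset_closedBall hy
    obtain ⟨x, hx, rfl⟩ := h3 h4
    exact ⟨x, closedBall_subset_ball (by linarith) hx, rfl⟩
  · intro x hx h0
    obtain ⟨v, hv, hJv⟩ := Matrix.exists_mulVec_eq_zero_iff.mpr h0
    have h3 := jac_apply (hd x) (WithLp.toLp 2 v)
    have h4 : fderiv ℝ Φ x (WithLp.toLp 2 v) = 0 := by
      have h5 : (fderiv ℝ Φ x (WithLp.toLp 2 v)).ofLp = 0 := by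
        rw [h3]
        exact hJv
      exact (WithLp.ofLp_injective 2) h5
    have h6 := hlo x (hsub hx) (WithLp.toLp 2 v)
    rw [h4, norm_zero, zero_pow two_ne_zero] at h6
    have h7 : 0 < ‖(WithLp.toLp 2 v : E n)‖ := by
      rw [norm_pos_iff]
      intro h8
      exact hv (congrArg WithLp.ofLp h8)
    have h9 : 0 < (2 * Λ ^ 2)⁻¹ * ‖(WithLp.toLp 2 v : E n)‖ ^ 2 := by positivity
    linarith

end Pool.H68.LV
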