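import Pool.Agent.H68.LV.Ctn

/-!
# Module LPT: continuity for Lipschitz test functions

Let a1 = (a + b)/2, τ = sqrt(D) * min 1 ((b - a)/4) <= 1, ψ from mollify_lip for φ and τ: ψ = 0
outside closedBall z (a + τ), inside closedBall z a1. |int (φ - ψ) dn 2 g| <= C L τ (dn_mass with
the radii a1 < b, for g and g'), cont_smooth with the radii a1 < b and
A = 1 + L + C L/τ: the difference is <= C (1 + L/τ) D <= C' (1 + L) sqrt D.
-/

open Matrix MeasureTheory Metric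
open scoped ContDiff NNReal

noncomputable section
namespace Pool.H68.LV

private theorem int_cut {n : ℕ} {Λ K a b : ℝ} {z : E n} (hΛ : 1 ≤ Λ) (hab : a < b)
    {g : E n → Mat n} (h : NLc Λ K (ball z b) g) {φ : E n → ℝ} (hc : Continuous φ) {A : ℝ}
    (h1 : ∀ x, |φ x| ≤ A) (h0 : ∀ x ∉ closedBall z a, φ x = 0) :
    IntegrableOn (fun x => φ x * dn 2 g x) (ball z b) := by
  have h2 : IntegrableOn (fun x => φ x * dn 2 g x) (ball z ((a + b) / 2)) := by
    have h3 := dn_integrableOn n Λ K ((a + b) / 2) b hΛ (by linarith) z g h 2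
    exact Integrable.bdd_mul h3 hc.aestronglyMeasurable (c := A)
      (Filter.Eventually.of_forall fun x => by rw [Real.norm_eq_abs]; exact h1 x)
  refine h2.of_forall_sdiff_eq_zero measurableSet_ball ?_
  intro x hx
  rw [h0 x, zero_mul]
  intro hx'
  exact hx.2 (closedBall_subset_ball (by linarith) hx')

private theorem arith {C3 C4 Cm L S τ m D I J K : ℝ} (hC3 : 0 ≤ C3) (hC4 : 0 ≤ C4) (hCm : 0 ≤ Cm)
    (hL : 0 ≤ L) (hm : 0 < m) (hS : 0 < S) (hm1 : m ≤ 1) (hτ : τ = S * m) (hD : D = S ^ 2)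
    (hS1 : S ≤ 1) (h1 : |I| ≤ C3 * (L * τ)) (h2 : |J| ≤ C4 * (1 + L + Cm * L / τ) * D)
    (h3 : |K| ≤ C3 * (L * τ)) :
    |I + J - K| ≤ (2 * C3 + C4 + C4 * Cm / m) * (1 + L) * S := by
  have e1 : C3 * (L * τ) ≤ C3 * ((1 + L) * S) := by
    apply mul_le_mul_of_nonneg_left _ hC3
    rw [hτ]
    have : S * m ≤ S := mul_le_of_le_one_right hS.le hm1
    have h5 : L * (S * m) ≤ L * S := mul_le_mul_of_nonneg_left this hL
    nlinarith
  have e2 : C4 * (1 + L + Cm * L / τ) * D = C4 * (1 + L) * S ^ 2 + C4 * Cm / m * L * S := by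
    rw [hτ, hD]
    field_simp
  have e3 : S ^ 2 ≤ S := by nlinarith
  have e4 : C4 * (1 + L) * S ^ 2 ≤ C4 * (1 + L) * S :=
    mul_le_mul_of_nonneg_left e3 (by positivity)
  have e5 : C4 * Cm / m * L * S ≤ C4 * Cm / m * (1 + L) * S := by
    apply mul_le_mul_of_nonneg_right _ hS.le
    apply mul_le_mul_of_nonneg_left _ (by positivity)
    linarith
  rw [e2] at h2
  have e6 : |I + J - K| ≤ |I| + |J| + |K| := by
    have := abs_sub (I + J) K
    have := abs_add_le I J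
    linarith
  have e7 : (2 * C3 + C4 + C4 * Cm / m) * (1 + L) * S
      = 2 * (C3 * ((1 + L) * S)) + C4 * (1 + L) * S + C4 * Cm / m * (1 + L) * S := by ring
  rw [e7]
  linarith


theorem cont_lip (n : ℕ) (Λ K a b : ℝ) (hn : 4 ≤ n) (hΛ : 1 ≤ Λ) (hK : 0 ≤ K) (ha : 0 < a)
    (hab : a < b) : ∃ C : ℝ, 0 ≤ C ∧ ∀ (z : E n) (g g' : E n → Mat n),
      NLc Λ K (ball z b) g → NLc Λ K (ball z b) g' → ∀ D : ℝ, 0 < D → D ≤ 1 →
      (∀ x ∈ ball z b, ∀ i j, |g' x i j - g x i j| ≤ D) →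
      ∀ (L : ℝ≥0) (φ : E n → ℝ), LipschitzWith L φ → (∀ x, |φ x| ≤ 1) →
      (∀ x ∉ closedBall z a, φ x = 0) →
      |(∫ x in ball z b, φ x * dn 2 g' x) - ∫ x in ball z b, φ x * dn 2 g x|
        ≤ C * (1 + L) * Real.sqrt D := by
  obtain ⟨Cm, hCm, Hm⟩ := mollify_lip n
  have haa : a < (a + b) / 2 := by linarith
  have hab' : (a + b) / 2 < b := by linarith
  obtain ⟨C4, hC4, H4⟩ := cont_smooth n Λ K ((a + b) / 2) b hn hΛ hK (by linarith) hab'
  obtain ⟨C3, hC3, H3⟩ := dn_mass n Λ K ((a + b) / 2) b hn hΛ hK (by linarith) hab'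
  have hm : 0 < min 1 ((b - a) / 4) := lt_min one_pos (by linarith)
  set m : ℝ := min 1 ((b - a) / 4) with hmdef
  have hm1 : m ≤ 1 := min_le_left _ _
  have hm2 : m ≤ (b - a) / 4 := min_le_right _ _
  refine ⟨2 * C3 + C4 + C4 * Cm / m, by positivity, ?_⟩
  intro z g g' hg hg' D hD hD1 hDD L φ hφ hφ1 hφ0
  set S : ℝ := Real.sqrt D with hSdef
  have hS : 0 < S := Real.sqrt_pos.mpr hD
  have hS2 : D = S ^ 2 := (Real.sq_sqrt hD.le).symm
  have hS1 : S ≤ 1 := by
    rw [hSdef]; exact Real.sqrt_le_one.mpr hD1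
  have hτ0 : 0 < S * m := by positivity
  have hτm : S * m ≤ m := mul_le_of_le_one_left hm.le hS1
  obtain ⟨ψ, hψ, hψd, hψ1, hψp, hψpp, hψ0⟩ := Hm L φ hφ hφ1 (S * m) hτ0 (hτm.trans hm1)
  have hL0 : (0 : ℝ) ≤ L := L.2
  have hφ0' : ∀ x ∉ closedBall z ((a + b) / 2), φ x = 0 := fun x hx =>
    hφ0 x fun h => hx (closedBall_subset_closedBall haa.le h)
  have hψ0' : ∀ x ∉ closedBall z ((a + b) / 2), ψ x = 0 := by
    intro x hx
    apply hψ0
    intro y hy
    apply hφ0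
    intro h
    apply hx
    rw [mem_closedBall] at h hy ⊢
    have := dist_triangle x y z
    rw [dist_comm x y] at this
    linarith
  have hd0 : ∀ x ∉ closedBall z ((a + b) / 2), φ x - ψ x = 0 := fun x hx => by
    rw [hφ0' x hx, hψ0' x hx, sub_zero]
  have hdb : ∀ x, |φ x - ψ x| ≤ L * (S * m) := fun x => by
    rw [abs_sub_comm]; exact hψd x
  have hdc : Continuous (fun x => φ x - ψ x) := hφ.continuous.sub hψ.continuous
  have e1 := H3 z g hg (fun x => φ x - ψ x) hdc hd0 _ hdb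
  have e1' := H3 z g' hg' (fun x => φ x - ψ x) hdc hd0 _ hdb
  have hA0 : 0 ≤ Cm * L / (S * m) := by positivity
  have e2 := H4 z g g' hg hg' D hDD ψ hψ hψ0' (1 + L + Cm * L / (S * m))
    (fun x => (hψ1 x).trans (by linarith)) (fun x i => (hψp x i).trans (by linarith))
    (fun x i j => (hψpp x i j).trans (by linarith))
  have i1 := int_cut hΛ hab' hg hφ.continuous hφ1 hφ0'
  have i2 := int_cut hΛ hab' hg hψ.continuous hψ1 hψ0'
  have i1' := int_cut hΛ hab' hg' hφ.continuous hφ1 hφ0'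
  have i2' := int_cut hΛ hab' hg' hψ.continuous hψ1 hψ0'
  have s1 : ∫ x in ball z b, (φ x - ψ x) * dn 2 g x
      = (∫ x in ball z b, φ x * dn 2 g x) - ∫ x in ball z b, ψ x * dn 2 g x := by
    rw [← integral_sub i1 i2]
    refine setIntegral_congr_fun measurableSet_ball fun x _ => ?_
    ring
  have s1' : ∫ x in ball z b, (φ x - ψ x) * dn 2 g' x
      = (∫ x in ball z b, φ x * dn 2 g' x) - ∫ x in ball z b, ψ x * dn 2 g' x := by
    rw [← integral_sub i1' i2']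
    refine setIntegral_congr_fun measurableSet_ball fun x _ => ?_
    ring
  have e4 := arith hC3 hC4 hCm hL0 hm hS hm1 rfl hS2 hS1 e1' e2 e1
  rw [s1, s1'] at e4
  have e5 : (∫ x in ball z b, φ x * dn 2 g' x) - ∫ x in ball z b, φ x * dn 2 g x
      = (∫ x in ball z b, φ x * dn 2 g' x) - (∫ x in ball z b, ψ x * dn 2 g' x)
        + ((∫ x in ball z b, ψ x * dn 2 g' x) - ∫ x in ball z b, ψ x * dn 2 g x)
        - ((∫ x in ball z b, φ x * dn 2 g x) - ∫ x in ball z b, ψ x * dn 2 g x) := by ring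
  rw [e5]
  exact e4

end Pool.H68.LV
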