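import Pool.Agent.H68.LV.Wd

/-!
# Module COV: covariance under linear substitutions

Let L'_a = sum_k J_ak Lc k, R'_a = sum_k J_ak Rc k. If X' is obtained from a polynomial X in the
Lc a, Rc a by replacing Lc a, Rc a by L'_a, R'_a then bt X' = det(J)^2 bt X.
Proof: let S be the subalgebra of DD x DD generated by the pairs (L'_a, Lc a), (R'_a, Rc a).
The pairs (wL' w * wR' w', wL w * wR w') span S (the span contains 1 and is stable under left
multiplication by the generators because Lc and Rc (and L', R') commute with each other: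
Algebra.adjoin_induction, or Subalgebra = Submodule span of the submonoid closure,
Algebra.adjoin_eq_span). For such a pair: if the lengths are not n, both sides vanish
(bt_word_ne; expand the primed word by multilinearity into words of the same length). If both
lengths are n, the primed word is a product of columns: by bt_cols
bt = det(J^T restricted to the word) = det(J^T * P_w) det(J^T * P_w') = det(J)^2 bt(unprimed).
bt_pull: h4 (pull J T) = (1/4) sum T_abcd L'_a L'_b R'_c R'_d and
h2 (J^T g J) = sum g_ab L'_a R'_b.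
-/

open Matrix

noncomputable section
namespace Pool.H68.LV

variable {n : ℕ}

private def LP (J : Mat n) (a : Fin n) : DD n := ∑ k, J a k • Lc k
private def RP (J : Mat n) (a : Fin n) : DD n := ∑ k, J a k • Rc k

private theorem LP_RP (J : Mat n) (a b : Fin n) : LP J a * RP J b = RP J b * LP J a := by
  rw [LP, RP]
  refine (Commute.sum_left _ _ _ fun i _ => Commute.sum_right _ _ _ fun j _ => ?_).eq
  exact ((show Commute (Lc i : DD n) (Rc j) from Lc_mul_Rc i j).smul_left _).smul_right _

private theorem RP_list (J : Mat n) (b : Fin n) (w : List (Fin n)) :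
    RP J b * (w.map (LP J)).prod = (w.map (LP J)).prod * RP J b := by
  induction w with
  | nil => simp
  | cons a w ih =>
    rw [List.map_cons, List.prod_cons, ← mul_assoc, ← LP_RP, mul_assoc, ih, mul_assoc]

private theorem Rc_list (b : Fin n) (w : List (Fin n)) :
    (Rc b : DD n) * wL w = wL w * Rc b := by
  induction w with
  | nil => simp [wL]
  | cons a w ih =>
    rw [wL, List.map_cons, List.prod_cons]
    rw [show (List.map Lc w).prod = (wL w : DD n) from rfl]
    rw [← mul_assoc, ← Lc_mul_Rc, mul_assoc, ih, mul_assoc]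

private theorem closure_sub (J : Mat n) (X : DD n × DD n)
    (hX : X ∈ Submonoid.closure
      (Set.range (fun a : Fin n => ((∑ k, J a k • Lc k : DD n), (Lc a : DD n))) ∪
       Set.range (fun a : Fin n => ((∑ k, J a k • Rc k : DD n), (Rc a : DD n))))) :
    ∃ w w' : List (Fin n), X = ((w.map (LP J)).prod * (w'.map (RP J)).prod, wL w * wR w') := by
  induction hX using Submonoid.closure_induction_left with
  | one => exact ⟨[], [], by simp [wL, wR]; rfl⟩
  | mul_left x hx y _ ih =>
    obtain ⟨w, w', rfl⟩ := ih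
    rcases hx with ⟨a, rfl⟩ | ⟨a, rfl⟩
    · refine ⟨a :: w, w', ?_⟩
      simp only [Prod.mk_mul_mk, List.map_cons, List.prod_cons, wL, mul_assoc]
      rfl
    · refine ⟨w, a :: w', ?_⟩
      simp only [Prod.mk_mul_mk]
      refine Prod.ext ?_ ?_
      · show RP J a * ((w.map (LP J)).prod * (w'.map (RP J)).prod) = _
        rw [← mul_assoc, RP_list, mul_assoc, List.map_cons, List.prod_cons]
      · show Rc a * (wL w * wR w') = wL w * wR (a :: w')
        rw [← mul_assoc, Rc_list, mul_assoc]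
        rw [show wR (a :: w') = (Rc a : DD n) * wR w' by rw [wR, List.map_cons, List.prod_cons]; rfl]

private theorem bt_pair (J : Mat n) (w w' : List (Fin n)) :
    bt ((w.map (LP J)).prod * (w'.map (RP J)).prod) = J.det ^ 2 * bt (wL w * wR w') := by
  by_cases h : w.length ≠ n ∨ w'.length ≠ n
  · rw [bt_word_ne w w' h, mul_zero]
    have h1 := bt_vec_ne (w.map fun a => J a) (w'.map fun a => J a) (by simpa using h)
    rw [List.map_map, List.map_map] at h1
    exact h1
  · push Not at h
    obtain ⟨h1, h2⟩ := h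
    obtain ⟨f, rfl⟩ : ∃ f : Fin n → Fin n, w = List.ofFn f := by
      refine ⟨fun a => w.get (a.cast h1.symm), ?_⟩
      apply List.ext_getElem
      · simp [h1]
      · intro i h3 h4
        simp
    obtain ⟨f', rfl⟩ : ∃ f : Fin n → Fin n, w' = List.ofFn f := by
      refine ⟨fun a => w'.get (a.cast h2.symm), ?_⟩
      apply List.ext_getElem
      · simp [h2]
      · intro i h3 h4
        simp
    rw [bt_word, List.map_ofFn, List.map_ofFn]
    have h3 := bt_cols (Matrix.of fun i a => J (f a) i) (Matrix.of fun i a => J (f' a) i)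
    have e : ∀ g : Fin n → Fin n, (Matrix.of fun i a => J (g a) i : Mat n)
        = Jᵀ * (Matrix.of fun i a => if i = g a then (1 : ℝ) else 0) := by
      intro g
      ext i a
      rw [Matrix.mul_apply]
      simp [transpose_apply]
    rw [e f, e f', Matrix.det_mul, Matrix.det_mul, det_transpose, ← e f, ← e f'] at h3
    have h4 : bt ((List.ofFn (LP J ∘ f)).prod * (List.ofFn (RP J ∘ f')).prod)
        = J.det * (Matrix.of fun i a => if i = f a then (1 : ℝ) else 0).det *
          (J.det * (Matrix.of fun i a => if i = f' a then (1 : ℝ) else 0).det) := h3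
    rw [h4]
    ring

theorem bt_subst (J : Mat n) (X X' : DD n)
    (h : (X', X) ∈ Algebra.adjoin ℝ
      (Set.range (fun a : Fin n => ((∑ k, J a k • Lc k : DD n), (Lc a : DD n))) ∪
       Set.range (fun a : Fin n => ((∑ k, J a k • Rc k : DD n), (Rc a : DD n))))) :
    bt X' = J.det ^ 2 * bt X := by
  have h1 : (X', X) ∈ Submodule.span ℝ ((Submonoid.closure
      (Set.range (fun a : Fin n => ((∑ k, J a k • Lc k : DD n), (Lc a : DD n))) ∪
       Set.range (fun a : Fin n => ((∑ k, J a k • Rc k : DD n), (Rc a : DD n)))) :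
       Set (DD n × DD n))) := by
    rw [← Algebra.adjoin_eq_span]
    exact h
  have h2 : ∀ Z : DD n × DD n, Z ∈ Submodule.span ℝ ((Submonoid.closure
      (Set.range (fun a : Fin n => ((∑ k, J a k • Lc k : DD n), (Lc a : DD n))) ∪
       Set.range (fun a : Fin n => ((∑ k, J a k • Rc k : DD n), (Rc a : DD n)))) :
       Set (DD n × DD n))) → bt Z.1 = J.det ^ 2 * bt Z.2 := by
    intro Z hZ
    induction hZ using Submodule.span_induction with
    | mem Z hZ =>
      obtain ⟨w, w', rfl⟩ := closure_sub J Z hZ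
      exact bt_pair J w w'
    | zero => simp [bt]
    | add Z W _ _ h1 h2 =>
      rw [Prod.fst_add, Prod.snd_add, bt_add, bt_add, h1, h2, mul_add]
    | smul c Z _ h1 =>
      rw [Prod.smul_fst, Prod.smul_snd, bt_smul, bt_smul, h1]
      ring
  exact h2 _ h1

private theorem sum44_comm (f : Fin n → Fin n → Fin n → Fin n → Fin n → Fin n → Fin n → Fin n →
    DD n) :
    ∑ i, ∑ j, ∑ k, ∑ l, ∑ a, ∑ b, ∑ c, ∑ d, f i j k l a b c d
      = ∑ a, ∑ b, ∑ c, ∑ d, ∑ i, ∑ j, ∑ k, ∑ l, f i j k l a b c d := by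
  have h := Finset.sum_comm (s := (Finset.univ : Finset (Fin n × Fin n × Fin n × Fin n)))
    (t := (Finset.univ : Finset (Fin n × Fin n × Fin n × Fin n)))
    (f := fun p q => f p.1 p.2.1 p.2.2.1 p.2.2.2 q.1 q.2.1 q.2.2.1 q.2.2.2)
  simpa only [Fintype.sum_prod_type] using h

private theorem prod_exp (p q r s : Fin n → ℝ) :
    (∑ i, p i • Lc i : DD n) * (∑ i, q i • Lc i : DD n) *
        (∑ i, r i • Rc i : DD n) * (∑ i, s i • Rc i : DD n)
      = ∑ i, ∑ j, ∑ k, ∑ l, (p i * q j * r k * s l) • (Lc i * Lc j * Rc k * Rc l : DD n) := by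
  rw [Finset.sum_mul_sum, Finset.sum_mul, Finset.sum_mul]
  refine Finset.sum_congr rfl fun i _ => ?_
  rw [Finset.sum_mul_sum, Finset.sum_mul]
  refine Finset.sum_congr rfl fun j _ => ?_
  rw [Finset.sum_mul_sum]
  refine Finset.sum_congr rfl fun k _ => Finset.sum_congr rfl fun l _ => ?_
  rw [smul_mul_smul_comm, smul_mul_smul_comm, smul_mul_smul_comm]

theorem h4_pull (J : Mat n) (T : Fin n → Fin n → Mat n) :
    h4 (pull J T) = (1 / 4 : ℝ) • ∑ a, ∑ b, ∑ c, ∑ d, T a b c d •
      ((∑ i, J a i • Lc i : DD n) * (∑ i, J b i • Lc i : DD n) *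
        (∑ i, J c i • Rc i : DD n) * (∑ i, J d i • Rc i : DD n)) := by
  rw [h4]
  congr 1
  have h1 : ∀ i j k l : Fin n, pull J T i j k l • (Lc i * Lc j * Rc k * Rc l : DD n)
      = ∑ a, ∑ b, ∑ c, ∑ d, T a b c d •
        ((J a i * J b j * J c k * J d l) • (Lc i * Lc j * Rc k * Rc l : DD n)) := by
    intro i j k l
    simp only [pull, Matrix.of_apply, Finset.sum_smul, smul_smul]
    refine Finset.sum_congr rfl fun a _ => Finset.sum_congr rfl fun b _ =>
      Finset.sum_congr rfl fun c _ => Finset.sum_congr rfl fun d _ => ?_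
    congr 1
    ring
  simp only [h1]
  rw [sum44_comm]
  refine Finset.sum_congr rfl fun a _ => Finset.sum_congr rfl fun b _ =>
    Finset.sum_congr rfl fun c _ => Finset.sum_congr rfl fun d _ => ?_
  rw [prod_exp]
  simp only [Finset.smul_sum]

theorem h2_pull (J g : Mat n) :
    h2 (Jᵀ * g * J) = ∑ a, ∑ b, g a b •
      ((∑ i, J a i • Lc i : DD n) * (∑ i, J b i • Rc i : DD n)) := by
  have h1 : ∀ a b : Fin n, g a b • ((∑ i, J a i • Lc i : DD n) * (∑ i, J b i • Rc i : DD n))
      = ∑ i, ∑ j, (J a i * g a b * J b j) • (Lc i * Rc j : DD n) := by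
    intro a b
    rw [Finset.sum_mul, Finset.smul_sum]
    refine Finset.sum_congr rfl fun i _ => ?_
    rw [Finset.mul_sum, Finset.smul_sum]
    refine Finset.sum_congr rfl fun j _ => ?_
    rw [smul_mul_smul_comm, smul_smul]
    congr 1
    ring
  simp only [h1]
  have h2 : ∀ f : Fin n → Fin n → Fin n → Fin n → DD n, ∑ a, ∑ b, ∑ i, ∑ j, f a b i j
      = ∑ i, ∑ j, ∑ a, ∑ b, f a b i j := by
    intro f
    have h := Finset.sum_comm (s := (Finset.univ : Finset (Fin n × Fin n)))
      (t := (Finset.univ : Finset (Fin n × Fin n))) (f := fun p q => f p.1 p.2 q.1 q.2)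
    simpa only [Fintype.sum_prod_type] using h
  rw [h2, Pool.H68.LV.h2]
  refine Finset.sum_congr rfl fun i _ => Finset.sum_congr rfl fun j _ => ?_
  rw [Matrix.mul_apply]
  simp only [Matrix.mul_apply, transpose_apply, Finset.sum_mul, Finset.sum_smul]
  rw [Finset.sum_comm]

private theorem h2_mem (J g : Mat n) (S : Subalgebra ℝ (DD n × DD n))
    (hL : ∀ a, ((∑ k, J a k • Lc k : DD n), (Lc a : DD n)) ∈ S)
    (hR : ∀ a, ((∑ k, J a k • Rc k : DD n), (Rc a : DD n)) ∈ S) :
    (h2 (Jᵀ * g * J), h2 g) ∈ S := by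
  have h1 : ((h2 (Jᵀ * g * J), h2 g) : DD n × DD n) = ∑ a, ∑ b, g a b •
      (((∑ k, J a k • Lc k : DD n), (Lc a : DD n)) * ((∑ k, J b k • Rc k : DD n), (Rc b : DD n))) := by
    rw [h2_pull]
    refine Prod.ext ?_ ?_
    · simp only [Prod.fst_sum, Prod.smul_fst, Prod.fst_mul]
    · simp only [Prod.snd_sum, Prod.smul_snd, Prod.snd_mul, h2]
  rw [h1]
  exact sum_mem fun a _ => sum_mem fun b _ => S.smul_mem (mul_mem (hL a) (hR b)) _

private theorem h4_mem (J : Mat n) (T : Fin n → Fin n → Mat n) (S : Subalgebra ℝ (DD n × DD n))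
    (hL : ∀ a, ((∑ k, J a k • Lc k : DD n), (Lc a : DD n)) ∈ S)
    (hR : ∀ a, ((∑ k, J a k • Rc k : DD n), (Rc a : DD n)) ∈ S) :
    (h4 (pull J T), h4 T) ∈ S := by
  have h1 : ((h4 (pull J T), h4 T) : DD n × DD n) = (1 / 4 : ℝ) • ∑ a, ∑ b, ∑ c, ∑ d, T a b c d •
      (((∑ k, J a k • Lc k : DD n), (Lc a : DD n)) * ((∑ k, J b k • Lc k : DD n), (Lc b : DD n)) *
        ((∑ k, J c k • Rc k : DD n), (Rc c : DD n)) *
        ((∑ k, J d k • Rc k : DD n), (Rc d : DD n))) := by
    rw [h4_pull]
    refine Prod.ext ?_ ?_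
    · simp only [Prod.fst_sum, Prod.smul_fst, Prod.fst_mul]
    · simp only [Prod.snd_sum, Prod.smul_snd, Prod.snd_mul, h4]
  rw [h1]
  exact S.smul_mem (sum_mem fun a _ => sum_mem fun b _ => sum_mem fun c _ => sum_mem fun d _ =>
    S.smul_mem (mul_mem (mul_mem (mul_mem (hL a) (hL b)) (hR c)) (hR d)) _) _

theorem bt_pull (J g : Mat n) (T : Fin n → Fin n → Mat n) (j m : ℕ) :
    bt (h4 (pull J T) ^ j * h2 (Jᵀ * g * J) ^ m) = J.det ^ 2 * bt (h4 T ^ j * h2 g ^ m) := by
  apply bt_subst
  have hL : ∀ a : Fin n, ((∑ k, J a k • Lc k : DD n), (Lc a : DD n)) ∈ Algebra.adjoin ℝ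
      (Set.range (fun a : Fin n => ((∑ k, J a k • Lc k : DD n), (Lc a : DD n))) ∪
       Set.range (fun a : Fin n => ((∑ k, J a k • Rc k : DD n), (Rc a : DD n)))) := fun a =>
    Algebra.subset_adjoin (Or.inl ⟨a, rfl⟩)
  have hR : ∀ a : Fin n, ((∑ k, J a k • Rc k : DD n), (Rc a : DD n)) ∈ Algebra.adjoin ℝ
      (Set.range (fun a : Fin n => ((∑ k, J a k • Lc k : DD n), (Lc a : DD n))) ∪
       Set.range (fun a : Fin n => ((∑ k, J a k • Rc k : DD n), (Rc a : DD n)))) := fun a =>
    Algebra.subset_adjoin (Or.inr ⟨a, rfl⟩)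
  exact mul_mem (pow_mem (h4_mem J T _ hL hR) j) (pow_mem (h2_mem J g _ hL hR) m)

/-- The version with a list of rank one forms: the covectors are the rows of J. -/
theorem bt_pull_list (J : Mat n) (T : Fin n → Fin n → Mat n) (j : ℕ) (w : List (Fin n)) :
    bt (h4 (pull J T) ^ j *
        (w.map fun a => (∑ i, J a i • Lc i : DD n) * (∑ i, J a i • Rc i : DD n)).prod)
      = J.det ^ 2 * bt (h4 T ^ j * (w.map fun a => (Lc a * Rc a : DD n)).prod) := by
  apply bt_subst
  have hL : ∀ a : Fin n, ((∑ k, J a k • Lc k : DD n), (Lc a : DD n)) ∈ Algebra.adjoin ℝ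
      (Set.range (fun a : Fin n => ((∑ k, J a k • Lc k : DD n), (Lc a : DD n))) ∪
       Set.range (fun a : Fin n => ((∑ k, J a k • Rc k : DD n), (Rc a : DD n)))) := fun a =>
    Algebra.subset_adjoin (Or.inl ⟨a, rfl⟩)
  have hR : ∀ a : Fin n, ((∑ k, J a k • Rc k : DD n), (Rc a : DD n)) ∈ Algebra.adjoin ℝ
      (Set.range (fun a : Fin n => ((∑ k, J a k • Lc k : DD n), (Lc a : DD n))) ∪
       Set.range (fun a : Fin n => ((∑ k, J a k • Rc k : DD n), (Rc a : DD n)))) := fun a =>
    Algebra.subset_adjoin (Or.inr ⟨a, rfl⟩)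
  have hw : ((w.map fun a => (∑ i, J a i • Lc i : DD n) * (∑ i, J a i • Rc i : DD n)).prod,
      (w.map fun a => (Lc a * Rc a : DD n)).prod) ∈ Algebra.adjoin ℝ
      (Set.range (fun a : Fin n => ((∑ k, J a k • Lc k : DD n), (Lc a : DD n))) ∪
       Set.range (fun a : Fin n => ((∑ k, J a k • Rc k : DD n), (Rc a : DD n)))) := by
    induction w with
    | nil => exact one_mem _
    | cons a w ih =>
      rw [List.map_cons, List.map_cons, List.prod_cons, List.prod_cons]
      exact mul_mem (mul_mem (hL a) (hR a)) ih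
  exact mul_mem (pow_mem (h4_mem J T _ hL hR) j) hw

end Pool.H68.LV
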