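import Pool.Agent.H68.LV.Cal2

/-!
# Linearity of the Christoffel symbols of the first kind
-/

open Matrix
open scoped ContDiff

noncomputable section
namespace Pool.H68.LV

variable {n : ℕ} {U : Set (E n)} {g h : E n → Mat n}

theorem CC_line (hU : IsOpen U) (hg : Sm U g) (hh : Sm U h) {x : E n} (hx : x ∈ U) (t : ℝ)
    (j : Fin n) : CC (fun y => g y + t • h y) j x = CC g j x + t • CC h j x := by
  have h1 : ∀ i a b, pd i (fun y => (g y + t • h y) a b) x
      = pd i (fun y => g y a b) x + t * pd i (fun y => h y a b) x := by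
    intro i a b
    have e1 := (hg.da hU hx) a b
    have e2 := (hh.da hU hx) a b
    have e3 : (fun y => (g y + t • h y) a b) = fun y => g y a b + t * h y a b := rfl
    rw [e3, pd_add i e1 (e2.const_mul t), pd_const_mul i t e2]
  ext k l
  simp only [CC, Matrix.of_apply, Matrix.add_apply, Matrix.smul_apply, smul_eq_mul] at h1 ⊢
  rw [h1, h1, h1]
  ring

theorem mCC_line (hU : IsOpen U) (hg : Sm U g) (hh : Sm U h) {x : E n} (hx : x ∈ U)
    (t : ℝ) (i j : Fin n) : mpd i (CC (fun y => g y + t • h y) j) x
      = mpd i (CC g j) x + t • mpd i (CC h j) x := by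
  have h1 : mpd i (CC (fun y => g y + t • h y) j) x
      = mpd i (fun y => CC g j y + t • CC h j y) x := by
    ext a b
    simp only [mpd, Matrix.of_apply, pd]
    have : (fun y => CC (fun y => g y + t • h y) j y a b)
        =ᶠ[nhds x] fun y => (CC g j y + t • CC h j y) a b := by
      filter_upwards [hU.mem_nhds hx] with y hy
      rw [CC_line hU hg hh hy]
    rw [this.fderiv_eq]
  rw [h1, mpd_add i ((CC_sm hU hg j).da hU hx), mpd_const_smul i t ((CC_sm hU hh j).da hU hx)]
  intro a b
  exact ((CC_sm hU hh j).da hU hx a b).const_mul t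

theorem Rl_line (hU : IsOpen U) (hg : Sm U g) (hh : Sm U h) {x : E n} (hx : x ∈ U)
    (t : ℝ) (i j : Fin n) : Rl (fun y => g y + t • h y) x i j = Rl g x i j + t • Rl h x i j := by
  simp only [Rl, mCC_line hU hg hh hx]
  rw [smul_sub]
  abel

theorem CC_const (A : Mat n) (j : Fin n) (x : E n) : CC (fun _ => A) j x = 0 := by
  ext k l
  simp only [CC, Matrix.of_apply, pd_const]
  simp

theorem Rl_const (A : Mat n) (x : E n) (i j : Fin n) : Rl (fun _ => A) x i j = 0 := by
  have h1 : ∀ j, CC (fun _ : E n => A) j = fun _ => 0 := fun j => by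
    funext y; exact CC_const A j y
  simp only [Rl, h1]
  rw [mpd_const, mpd_const, sub_zero]

theorem RR_const (A : Mat n) (x : E n) (i j : Fin n) : RR (fun _ => A) x i j = 0 := by
  have h1 : ∀ j, CC (fun _ : E n => A) j = fun _ => 0 := fun j => by
    funext y; exact CC_const A j y
  simp only [RR, h1]
  rw [mpd_const, mpd_const]
  simp

end Pool.H68.LV
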