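import Pool.Agent.H68.LV.Df

/-!
# Quadratic and bilinear forms of matrices: elementary identities
-/

open Matrix

noncomputable section
namespace Pool.H68.LV

variable {n : ℕ}

theorem qf_dotp (G : Mat n) (v : E n) : qf G v = v.ofLp ⬝ᵥ (G *ᵥ v.ofLp) := by
  simp only [qf, dotProduct, mulVec, Finset.mul_sum]
  exact Finset.sum_congr rfl fun i _ => Finset.sum_congr rfl fun j _ => by ring

theorem bf_dotp (G : Mat n) (u v : E n) : bf G u v = u.ofLp ⬝ᵥ (G *ᵥ v.ofLp) := by
  simp only [bf, dotProduct, mulVec, Finset.mul_sum]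
  exact Finset.sum_congr rfl fun i _ => Finset.sum_congr rfl fun j _ => by ring

theorem bf_self (G : Mat n) (v : E n) : bf G v v = qf G v := rfl

theorem bf_comm {G : Mat n} (hG : Gᵀ = G) (u v : E n) : bf G u v = bf G v u := by
  rw [bf_dotp, bf_dotp, dotProduct_mulVec, dotProduct_comm, ← mulVec_transpose, hG]

theorem bf_add_left (G : Mat n) (u u' v : E n) : bf G (u + u') v = bf G u v + bf G u' v := by
  simp only [bf_dotp, WithLp.ofLp_add, add_dotProduct]

theorem bf_add_right (G : Mat n) (u v v' : E n) : bf G u (v + v') = bf G u v + bf G u v' := by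
  simp only [bf_dotp, WithLp.ofLp_add, mulVec_add, dotProduct_add]

theorem bf_smul_left (G : Mat n) (c : ℝ) (u v : E n) : bf G (c • u) v = c * bf G u v := by
  simp only [bf_dotp, WithLp.ofLp_smul, smul_dotProduct, smul_eq_mul]

theorem bf_smul_right (G : Mat n) (c : ℝ) (u v : E n) : bf G u (c • v) = c * bf G u v := by
  simp only [bf_dotp, WithLp.ofLp_smul, mulVec_smul, dotProduct_smul, smul_eq_mul]

theorem bf_sub_left (G : Mat n) (u u' v : E n) : bf G (u - u') v = bf G u v - bf G u' v := by
  simp only [bf_dotp, WithLp.ofLp_sub, sub_dotProduct]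

theorem bf_sub_right (G : Mat n) (u v v' : E n) : bf G u (v - v') = bf G u v - bf G u v' := by
  simp only [bf_dotp, WithLp.ofLp_sub, mulVec_sub, dotProduct_sub]

theorem bf_neg_left (G : Mat n) (u v : E n) : bf G (-u) v = -bf G u v := by
  simp only [bf_dotp, WithLp.ofLp_neg, neg_dotProduct]

theorem bf_sum_left (G : Mat n) {ι : Type} (s : Finset ι) (u : ι → E n) (v : E n) :
    bf G (∑ i ∈ s, u i) v = ∑ i ∈ s, bf G (u i) v := by
  classical
  induction s using Finset.induction_on with
  | empty => simp [bf]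
  | insert a s ha ih => rw [Finset.sum_insert ha, Finset.sum_insert ha, bf_add_left, ih]

theorem bf_sum_right (G : Mat n) {ι : Type} (s : Finset ι) (u : E n) (v : ι → E n) :
    bf G u (∑ i ∈ s, v i) = ∑ i ∈ s, bf G u (v i) := by
  classical
  induction s using Finset.induction_on with
  | empty => simp [bf]
  | insert a s ha ih => rw [Finset.sum_insert ha, Finset.sum_insert ha, bf_add_right, ih]

theorem qf_add {G : Mat n} (hG : Gᵀ = G) (u v : E n) :
    qf G (u + v) = qf G u + 2 * bf G u v + qf G v := by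
  rw [← bf_self, bf_add_left, bf_add_right, bf_add_right, bf_self, bf_self, bf_comm hG v u]
  ring

theorem qf_sub {G : Mat n} (hG : Gᵀ = G) (u v : E n) :
    qf G (u - v) = qf G u - 2 * bf G u v + qf G v := by
  rw [← bf_self, bf_sub_left, bf_sub_right, bf_sub_right, bf_self, bf_self, bf_comm hG v u]
  ring

theorem qf_smul (G : Mat n) (c : ℝ) (v : E n) : qf G (c • v) = c ^ 2 * qf G v := by
  rw [← bf_self, bf_smul_left, bf_smul_right, bf_self]
  ring

theorem qf_neg (G : Mat n) (v : E n) : qf G (-v) = qf G v := by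
  have : -v = (-1 : ℝ) • v := by simp
  rw [this, qf_smul]; ring

theorem qf_zero (G : Mat n) : qf G 0 = 0 := by simp [qf]

theorem qf_comb (G G' : Mat n) (s : ℝ) (v : E n) :
    qf (G + s • (G' - G)) v = qf G v + s * (qf G' v - qf G v) := by
  simp only [qf_dotp, add_mulVec, smul_mulVec, sub_mulVec, dotProduct_add, dotProduct_smul,
    dotProduct_sub, smul_eq_mul]

theorem qf_matadd (G G' : Mat n) (v : E n) : qf (G + G') v = qf G v + qf G' v := by
  simp only [qf_dotp, add_mulVec, dotProduct_add]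

theorem qf_matsub (G G' : Mat n) (v : E n) : qf (G - G') v = qf G v - qf G' v := by
  simp only [qf_dotp, sub_mulVec, dotProduct_sub]

theorem qf_matsmul (c : ℝ) (G : Mat n) (v : E n) : qf (c • G) v = c * qf G v := by
  simp only [qf_dotp, smul_mulVec, dotProduct_smul, smul_eq_mul]

theorem norm_ee (i : Fin n) : ‖(ee i : E n)‖ = 1 := by simp [ee]

theorem bf_ee (G : Mat n) (i j : Fin n) : bf G (ee i) (ee j) = G i j := by
  rw [bf_dotp]
  simp [ee]

theorem qf_ee (G : Mat n) (i : Fin n) : qf G (ee i) = G i i := by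
  rw [← bf_self, bf_ee]

theorem norm_ee_add {i j : Fin n} (hij : i ≠ j) : ‖(ee i + ee j : E n)‖ ^ 2 = 2 := by
  rw [norm_add_sq_real]
  simp [ee, EuclideanSpace.inner_single_left, hij, hij.symm]
  norm_num

theorem norm_ee_sub {i j : Fin n} (hij : i ≠ j) : ‖(ee i - ee j : E n)‖ ^ 2 = 2 := by
  rw [norm_sub_sq_real]
  simp [ee, EuclideanSpace.inner_single_left, hij, hij.symm]
  norm_num

theorem sum_ee (v : E n) : v = ∑ k, v k • (ee k : E n) := by
  ext l
  simp [ee, Finset.sum_apply, Pi.single_apply]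

theorem qf_one (v : E n) : qf (1 : Mat n) v = ‖v‖ ^ 2 := by
  rw [qf_dotp, one_mulVec, EuclideanSpace.norm_sq_eq]
  simp only [dotProduct, Real.norm_eq_abs, sq_abs]
  exact Finset.sum_congr rfl fun i _ => by ring

theorem abs_apply_le (v : E n) (i : Fin n) : |v i| ≤ ‖v‖ := by
  rw [← Real.norm_eq_abs]; exact PiLp.norm_apply_le v i

end Pool.H68.LV
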