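import Pool.Agent.H68.LV.Crv
import Pool.Agent.H68.LV.Qf
import Pool.Agent.H68.LV.Lnc

/-!
# Module CVX: the convex class

convex: all conditions are linear or convex in g (CC, Rl are linear in g; pd is linear on
differentiable functions). one: Rl 1 = 0, qf 1 v = |v|^2, Λ >= 1.
posDef: a symmetric matrix with qf g v >= |v|^2/Λ is positive definite, entries of g are bounded
by Λ, entries of g^(-1) by Λ (qf (g^(-1)) w <= Λ |w|^2: with v = g^(-1) w,
w.g^(-1)w = v.gv <= ... <= |w| |v| and |v|^2 <= Λ v.gv = Λ w.v), det g between Λ^(-n) and Λ^n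
(eigenvalues). For -ε < s < 1 + ε, ε = 1/(2Λ^2), the matrix (1-s) g + s g' still satisfies
v.(..)v >= |v|^2/(2Λ): for s < 0 it is >= (1/Λ - |s| Λ) |v|^2.
-/

open Matrix
open scoped ContDiff

noncomputable section
namespace Pool.H68.LV

variable {n : ℕ} {U : Set (E n)}

theorem NLc.convex {Λ K : ℝ} (hU : IsOpen U) {g g' : E n → Mat n} (h : NLc Λ K U g)
    (h' : NLc Λ K U g') {s : ℝ} (h0 : 0 ≤ s) (h1 : s ≤ 1) :
    NLc Λ K U (fun x => g x + s • (g' x - g x)) := by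
  have hΛ : ∀ a b Λ : ℝ, a ≤ Λ → b ≤ Λ → a + s * (b - a) ≤ Λ := fun a b Λ ha hb => by
    nlinarith
  have hd : Sm U (fun x => g' x - g x) := h'.sm.sub h.sm
  refine ⟨?_, ?_, ?_, ?_, ?_, ?_⟩
  · intro i j
    exact (h.sm i j).add (contDiffOn_const.mul (hd i j))
  · intro x hx
    rw [transpose_add, transpose_smul, transpose_sub, h.sym x hx, h'.sym x hx]
  · intro x hx v
    rw [qf_comb]
    have := hΛ (-qf (g x) v) (-qf (g' x) v) (-(Λ⁻¹ * ‖v‖ ^ 2)) (by linarith [h.lo x hx v])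
      (by linarith [h'.lo x hx v])
    nlinarith
  · intro x hx v
    rw [qf_comb]
    exact hΛ _ _ _ (h.up x hx v) (h'.up x hx v)
  · intro x hx k i j
    have e1 := (h.sm.da hU hx) i j
    have e2 := (hd.da hU hx) i j
    have e2' := (h'.sm.da hU hx) i j
    have e3 : (fun y => (g y + s • (g' y - g y)) i j)
        = fun y => g y i j + s * (g' y - g y) i j := rfl
    rw [e3, pd_add k e1 (e2.const_mul s), pd_const_mul k s e2]
    have e4 : pd k (fun y => (g' y - g y) i j) x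
        = pd k (fun y => g' y i j) x - pd k (fun y => g y i j) x := pd_sub k e2' e1
    rw [e4]
    have a1 := abs_le.mp (h.lip x hx k i j)
    have a2 := abs_le.mp (h'.lip x hx k i j)
    rw [abs_le]
    constructor
    · have := hΛ (-pd k (fun y => g y i j) x) (-pd k (fun y => g' y i j) x) Λ (by linarith)
        (by linarith)
      linarith
    · exact hΛ _ _ _ a1.2 a2.2
  · intro x hx u v hu hv huv
    have e1 : ∀ i j, Rl (fun x => g x + s • (g' x - g x)) x i j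
        = Rl g x i j + s • (Rl g' x i j - Rl g x i j) := by
      intro i j
      rw [Rl_line hU h.sm hd hx s i j]
      congr 2
      have e5 : (fun y => g' y - g y) = fun y => g' y + (-1 : ℝ) • g y := by
        funext y; simp [sub_eq_add_neg]
      rw [e5, Rl_line hU h'.sm h.sm hx (-1) i j]
      simp [sub_eq_add_neg]
    have e2 : tq (Rl (fun x => g x + s • (g' x - g x)) x) u v
        = tq (Rl g x) u v + s * (tq (Rl g' x) u v - tq (Rl g x) u v) := by
      simp only [tq, e1, Matrix.add_apply, Matrix.smul_apply, Matrix.sub_apply, smul_eq_mul]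
      rw [← Finset.sum_sub_distrib, Finset.mul_sum, ← Finset.sum_add_distrib]
      refine Finset.sum_congr rfl fun i _ => ?_
      rw [← Finset.sum_sub_distrib, Finset.mul_sum, ← Finset.sum_add_distrib]
      refine Finset.sum_congr rfl fun j _ => ?_
      rw [← Finset.sum_sub_distrib, Finset.mul_sum, ← Finset.sum_add_distrib]
      refine Finset.sum_congr rfl fun k _ => ?_
      rw [← Finset.sum_sub_distrib, Finset.mul_sum, ← Finset.sum_add_distrib]
      refine Finset.sum_congr rfl fun l _ => ?_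
      ring
    rw [e2]
    have := hΛ (-tq (Rl g x) u v) (-tq (Rl g' x) u v) K
      (by linarith [h.lin x hx u v hu hv huv]) (by linarith [h'.lin x hx u v hu hv huv])
    nlinarith

theorem NLc.one {Λ K : ℝ} (hΛ : 1 ≤ Λ) (hK : 0 ≤ K) : NLc Λ K U (fun _ => (1 : Mat n)) := by
  have hΛ0 : 0 < Λ := by linarith
  refine ⟨Sm.const 1, fun x _ => transpose_one, ?_, ?_, ?_, ?_⟩
  · intro x _ v
    rw [qf_one]
    have : Λ⁻¹ ≤ 1 := inv_le_one_of_one_le₀ hΛ
    exact mul_le_of_le_one_left (by positivity) this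
  · intro x _ v
    rw [qf_one]
    exact le_mul_of_one_le_left (by positivity) hΛ
  · intro x _ k i j
    rw [pd_const, abs_zero]; exact hΛ0.le
  · intro x _ u v _ _ _
    have : tq (Rl (fun _ : E n => (1 : Mat n)) x) u v = 0 := by
      simp [tq, Rl_const]
    rw [this]; linarith

theorem NLc.mono {Λ Λ' K K' : ℝ} {V : Set (E n)} {g : E n → Mat n} (h : NLc Λ K U g)
    (hΛ0 : 0 < Λ) (hΛ : Λ ≤ Λ') (hK : K ≤ K') (hV : V ⊆ U) : NLc Λ' K' V g := by
  have hΛ0' : 0 < Λ' := lt_of_lt_of_le hΛ0 hΛ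
  refine ⟨fun i j => (h.sm i j).mono hV, fun x hx => h.sym x (hV hx), ?_, ?_, ?_, ?_⟩
  · intro x hx v
    refine le_trans ?_ (h.lo x (hV hx) v)
    exact mul_le_mul_of_nonneg_right (inv_anti₀ hΛ0 hΛ) (by positivity)
  · intro x hx v
    refine (h.up x (hV hx) v).trans ?_
    exact mul_le_mul_of_nonneg_right hΛ (by positivity)
  · intro x hx k i j
    exact (h.lip x (hV hx) k i j).trans hΛ
  · intro x hx u v hu hv huv
    have := h.lin x (hV hx) u v hu hv huv
    linarith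

theorem entry_le {Λ : ℝ} {G : Mat n} (hs : Gᵀ = G) (hlo : ∀ v, 0 ≤ qf G v)
    (hup : ∀ v, qf G v ≤ Λ * ‖v‖ ^ 2) (i j : Fin n) : |G i j| ≤ Λ := by
  have hsym : G j i = G i j := by
    have := congrFun (congrFun hs i) j
    simpa using this
  have h1 := hlo (ee i)
  have h2 := hup (ee i)
  have h3 := hlo (ee j)
  have h4 := hup (ee j)
  rw [qf_ee] at h1 h2 h3 h4
  rw [norm_ee] at h2 h4
  by_cases hij : i = j
  · subst hij
    rw [abs_of_nonneg h1]
    linarith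
  · have h5 := hup (ee i + ee j)
    have h6 := hup (ee i - ee j)
    have h7 := hlo (ee i + ee j)
    have h8 := hlo (ee i - ee j)
    rw [qf_add hs, qf_ee, qf_ee, bf_ee] at h5 h7
    rw [qf_sub hs, qf_ee, qf_ee, bf_ee] at h6 h8
    rw [norm_ee_add hij] at h5
    rw [norm_ee_sub hij] at h6
    rw [abs_le]
    constructor <;> linarith

theorem posDef_of {Λ : ℝ} (hΛ : 0 < Λ) {G : Mat n} (hs : Gᵀ = G)
    (hlo : ∀ v, Λ⁻¹ * ‖v‖ ^ 2 ≤ qf G v) : G.PosDef := by
  refine Matrix.PosDef.of_dotProduct_mulVec_pos ?_ ?_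
  · rw [Matrix.IsHermitian, conjTranspose_eq_transpose_of_trivial]; exact hs
  · intro x hx
    have h1 := hlo (WithLp.toLp 2 x)
    rw [qf_dotp] at h1
    have h2 : 0 < ‖(WithLp.toLp 2 x : E n)‖ := by
      rw [norm_pos_iff]
      intro h
      apply hx
      have := congrArg (fun w : E n => w.ofLp) h
      simpa using this
    have h3 : 0 < Λ⁻¹ * ‖(WithLp.toLp 2 x : E n)‖ ^ 2 := by positivity
    rw [star_trivial]
    exact lt_of_lt_of_le h3 h1

theorem inv_entry_le {Λ : ℝ} (hΛ : 0 < Λ) {G : Mat n} (hs : Gᵀ = G)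
    (hlo : ∀ v, Λ⁻¹ * ‖v‖ ^ 2 ≤ qf G v) (i j : Fin n) : |G⁻¹ i j| ≤ Λ := by
  have hP := posDef_of hΛ hs hlo
  have hu : IsUnit G.det := (isUnit_iff_ne_zero.mpr hP.det_pos.ne')
  have hsi : (G⁻¹)ᵀ = G⁻¹ := by rw [transpose_nonsing_inv, hs]
  have key : ∀ w : E n, 0 ≤ qf G⁻¹ w ∧ qf G⁻¹ w ≤ Λ * ‖w‖ ^ 2 := by
    intro w
    set v : E n := WithLp.toLp 2 (G⁻¹ *ᵥ w.ofLp) with hv
    have e1 : G *ᵥ v.ofLp = w.ofLp := by
      rw [hv]
      simp only [mulVec_mulVec, mul_nonsing_inv G hu, one_mulVec]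
    have e2 : qf G⁻¹ w = inner ℝ v w := by
      rw [qf_dotp, EuclideanSpace.inner_eq_star_dotProduct, star_trivial]
    have e3 : qf G v = inner ℝ v w := by
      rw [qf_dotp, e1, EuclideanSpace.inner_eq_star_dotProduct, star_trivial,
        dotProduct_comm]
    have e4 := hlo v
    rw [e3] at e4
    have e5 := real_inner_le_norm v w
    have e0 : 0 ≤ Λ⁻¹ * ‖v‖ ^ 2 := by positivity
    rw [e2]
    refine ⟨e0.trans e4, e5.trans ?_⟩
    have e6 : ‖v‖ ≤ Λ * ‖w‖ := by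
      by_cases hv0 : ‖v‖ = 0
      · rw [hv0]; positivity
      · have hvp : 0 < ‖v‖ := lt_of_le_of_ne (norm_nonneg _) (Ne.symm hv0)
        have e7 : Λ⁻¹ * ‖v‖ ^ 2 ≤ ‖v‖ * ‖w‖ := e4.trans e5
        have e8 : Λ⁻¹ * ‖v‖ ≤ ‖w‖ := by
          have : ‖v‖ * (Λ⁻¹ * ‖v‖) ≤ ‖v‖ * ‖w‖ := by
            calc ‖v‖ * (Λ⁻¹ * ‖v‖) = Λ⁻¹ * ‖v‖ ^ 2 := by ring
              _ ≤ _ := e7
          exact le_of_mul_le_mul_left this hvp
        rwa [inv_mul_le_iff₀ hΛ] at e8
    calc ‖v‖ * ‖w‖ ≤ Λ * ‖w‖ * ‖w‖ := mul_le_mul_of_nonneg_right e6 (norm_nonneg _)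
      _ = _ := by ring
  exact entry_le hsi (fun v => (key v).1) (fun v => (key v).2) i j

theorem det_lo {Λ : ℝ} (hΛ : 0 < Λ) {G : Mat n} (hs : Gᵀ = G)
    (hlo : ∀ v, Λ⁻¹ * ‖v‖ ^ 2 ≤ qf G v) : Λ⁻¹ ^ n ≤ G.det := by
  have hH : G.IsHermitian := by
    rw [Matrix.IsHermitian, conjTranspose_eq_transpose_of_trivial]; exact hs
  have h1 : ∀ i, Λ⁻¹ ≤ hH.eigenvalues i := by
    intro i
    rw [hH.eigenvalues_eq i]
    have h2 := hlo (hH.eigenvectorBasis i)
    rw [hH.eigenvectorBasis.orthonormal.1 i, qf_dotp] at h2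
    simpa using h2
  rw [hH.det_eq_prod_eigenvalues]
  have h3 : ∏ _i : Fin n, Λ⁻¹ ≤ ∏ i, hH.eigenvalues i :=
    Finset.prod_le_prod (fun i _ => by positivity) fun i _ => h1 i
  rw [Finset.prod_const, Finset.card_univ, Fintype.card_fin] at h3
  exact h3

theorem det_up {Λ : ℝ} (hΛ : 0 < Λ) {G : Mat n} (hs : Gᵀ = G)
    (hlo : ∀ v, 0 ≤ qf G v) (hup : ∀ v, qf G v ≤ Λ * ‖v‖ ^ 2) : G.det ≤ Λ ^ n := by
  have hH : G.IsHermitian := by
    rw [Matrix.IsHermitian, conjTranspose_eq_transpose_of_trivial]; exact hs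
  have h1 : ∀ i, 0 ≤ hH.eigenvalues i ∧ hH.eigenvalues i ≤ Λ := by
    intro i
    rw [hH.eigenvalues_eq i]
    have h2 := hlo (hH.eigenvectorBasis i)
    have h3 := hup (hH.eigenvectorBasis i)
    rw [hH.eigenvectorBasis.orthonormal.1 i, qf_dotp] at h3
    rw [qf_dotp] at h2
    constructor
    · simpa using h2
    · simpa using h3
  rw [hH.det_eq_prod_eigenvalues]
  have h3 : ∏ i, hH.eigenvalues i ≤ ∏ _i : Fin n, Λ :=
    Finset.prod_le_prod (fun i _ => (h1 i).1) fun i _ => (h1 i).2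
  rw [Finset.prod_const, Finset.card_univ, Fintype.card_fin] at h3
  exact h3

theorem det_path_pos {Λ K : ℝ} (hΛ : 1 ≤ Λ) {g g' : E n → Mat n} (h : NLc Λ K U g)
    (h' : NLc Λ K U g') :
    ∃ a b : ℝ, a < 0 ∧ 1 < b ∧ ∀ s ∈ Set.Ioo a b, ∀ x ∈ U,
      0 < (g x + s • (g' x - g x)).det := by
  have hΛ0 : 0 < Λ := by linarith
  have hε : 0 < 1 / (2 * Λ ^ 2) := by positivity
  refine ⟨-(1 / (2 * Λ ^ 2)), 1 + 1 / (2 * Λ ^ 2), by linarith, by linarith, ?_⟩
  intro s hs x hx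
  have hsym : (g x + s • (g' x - g x))ᵀ = g x + s • (g' x - g x) := by
    rw [transpose_add, transpose_smul, transpose_sub, h.sym x hx, h'.sym x hx]
  have h2Λ : 0 < 2 * Λ := by linarith
  refine (posDef_of h2Λ hsym ?_).det_pos
  intro v
  rw [qf_comb]
  have a1 := h.lo x hx v
  have a2 := h.up x hx v
  have b1 := h'.lo x hx v
  have b2 := h'.up x hx v
  set N := ‖v‖ ^ 2 with hN
  have hN0 : 0 ≤ N := by positivity
  have e1 : (2 * Λ)⁻¹ * N = Λ⁻¹ * N / 2 := by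
    field_simp
  have e2 : 1 / (2 * Λ ^ 2) * (Λ * N) = Λ⁻¹ * N / 2 := by
    field_simp
  rw [e1]
  have hLN : 0 ≤ Λ⁻¹ * N := by positivity
  have qg : 0 ≤ qf (g x) v := hLN.trans a1
  have qg' : 0 ≤ qf (g' x) v := hLN.trans b1
  rcases lt_or_ge s 0 with hs0 | hs0
  · have f1 : -s * qf (g' x) v ≤ 1 / (2 * Λ ^ 2) * (Λ * N) :=
      mul_le_mul (by linarith [hs.1]) b2 qg' hε.le
    have f2 : 0 ≤ -s * qf (g x) v := mul_nonneg (by linarith) qg
    nlinarith
  · rcases le_or_gt s 1 with hs1 | hs1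
    · nlinarith
    · have f1 : (s - 1) * qf (g x) v ≤ 1 / (2 * Λ ^ 2) * (Λ * N) :=
        mul_le_mul (by linarith [hs.2]) a2 qg hε.le
      have f2 : 0 ≤ (s - 1) * qf (g' x) v := mul_nonneg (by linarith) qg'
      nlinarith

end Pool.H68.LV
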