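import Pool.Agent.H68.LV.Fk

/-!
# Module GB4: invariance of the Gauss-Bonnet scalar under linear changes of coordinates

(J^T g J)^(-1) = J^(-1) g^(-1) J^(-T). Index by index: ricT (J^T g J) (pull J T) = J^T (ricT g T) J,
scT is invariant, and the two quadratic sums are invariant.
Also Curv (pull J T) and tq (pull J T) u v = tq T (J u) (J v).
-/

open Matrix

noncomputable section
namespace Pool.H68.LV

variable {n : ℕ}

private theorem pull_apply (J : Mat n) (T : Fin n → Fin n → Mat n) (i j k l : Fin n) :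
    pull J T i j k l = ∑ a, ∑ b, ∑ c, ∑ d, T a b c d * J a i * J b j * J c k * J d l := rfl

/-- The index type of 4-tensors, the vector of a tensor and the fourth Kronecker power. -/
private abbrev I4 (n : ℕ) := Fin n × (Fin n × (Fin n × Fin n))

private def vt (T : Fin n → Fin n → Mat n) : I4 n → ℝ := fun p => T p.1 p.2.1 p.2.2.1 p.2.2.2

private def K4 (A : Mat n) : Matrix (I4 n) (I4 n) ℝ :=
  Matrix.kroneckerMap (fun a b => a * b) A (Matrix.kroneckerMap (fun a b => a * b) A
    (Matrix.kroneckerMap (fun a b => a * b) A A))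

private theorem K4_mul (A B : Mat n) : K4 (A * B) = K4 A * K4 B := by
  rw [K4, K4, K4]
  have h1 : (Matrix.kroneckerMap (fun a b => a * b) (A * B) (A * B) :
      Matrix (Fin n × Fin n) (Fin n × Fin n) ℝ)
      = Matrix.kroneckerMap (fun a b => a * b) A A * Matrix.kroneckerMap (fun a b => a * b) B B :=
    Matrix.mul_kronecker_mul A B A B
  have h2 : (Matrix.kroneckerMap (fun a b => a * b) (A * B)
      (Matrix.kroneckerMap (fun a b => a * b) (A * B) (A * B)) :
      Matrix (Fin n × (Fin n × Fin n)) (Fin n × (Fin n × Fin n)) ℝ)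
      = Matrix.kroneckerMap (fun a b => a * b) A (Matrix.kroneckerMap (fun a b => a * b) A A) *
        Matrix.kroneckerMap (fun a b => a * b) B (Matrix.kroneckerMap (fun a b => a * b) B B) := by
    rw [h1]
    exact Matrix.mul_kronecker_mul A B _ _
  rw [h2]
  exact Matrix.mul_kronecker_mul A B _ _

private theorem K4_one : K4 (1 : Mat n) = 1 := by
  rw [K4]
  have h1 : (Matrix.kroneckerMap (fun a b => a * b) (1 : Mat n) (1 : Mat n) :
      Matrix (Fin n × Fin n) (Fin n × Fin n) ℝ) = 1 := Matrix.one_kronecker_one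
  have h2 : (Matrix.kroneckerMap (fun a b => a * b) (1 : Mat n)
      (1 : Matrix (Fin n × Fin n) (Fin n × Fin n) ℝ) :
      Matrix (Fin n × (Fin n × Fin n)) (Fin n × (Fin n × Fin n)) ℝ) = 1 := Matrix.one_kronecker_one
  rw [h1, h2]
  exact Matrix.one_kronecker_one

private theorem K4_T (A : Mat n) : (K4 A)ᵀ = K4 Aᵀ := by
  ext p q
  rfl

private theorem vt_pull (J : Mat n) (T : Fin n → Fin n → Mat n) :
    vt (pull J T) = K4 Jᵀ *ᵥ vt T := by
  funext p
  obtain ⟨i, j, k, l⟩ := p
  rw [Matrix.mulVec, dotProduct]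
  simp only [Fintype.sum_prod_type]
  show pull J T i j k l = _
  rw [pull_apply]
  refine Finset.sum_congr rfl fun a _ => Finset.sum_congr rfl fun b _ =>
    Finset.sum_congr rfl fun c _ => Finset.sum_congr rfl fun d _ => ?_
  show T a b c d * J a i * J b j * J c k * J d l
    = (J a i * (J b j * (J c k * J d l))) * T a b c d
  ring

private theorem vt_inj (T T' : Fin n → Fin n → Mat n) (h : vt T = vt T') : T = T' := by
  funext i j
  ext k l
  exact congrFun h (i, j, k, l)

private theorem rm_sq (G : Mat n) (T : Fin n → Fin n → Mat n) :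
    ∑ i, ∑ j, ∑ k, ∑ l, ∑ a, ∑ b, ∑ c, ∑ d,
        G i a * G j b * G k c * G l d * T i j k l * T a b c d = vt T ⬝ᵥ (K4 G *ᵥ vt T) := by
  rw [dotProduct]
  simp only [Fintype.sum_prod_type, Matrix.mulVec, dotProduct, Finset.mul_sum]
  refine Finset.sum_congr rfl fun i _ => Finset.sum_congr rfl fun j _ =>
    Finset.sum_congr rfl fun k _ => Finset.sum_congr rfl fun l _ =>
    Finset.sum_congr rfl fun a _ => Finset.sum_congr rfl fun b _ =>
    Finset.sum_congr rfl fun c _ => Finset.sum_congr rfl fun d _ => ?_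
  show _ = T i j k l * ((G i a * (G j b * (G k c * G l d))) * T a b c d)
  ring

private def U4 (u v : Fin n → ℝ) : I4 n → ℝ := fun p => u p.1 * (v p.2.1 * (u p.2.2.1 * v p.2.2.2))

private theorem tq_eq (T : Fin n → Fin n → Mat n) (u v : EuclideanSpace ℝ (Fin n)) :
    tq T u v = vt T ⬝ᵥ U4 u.ofLp v.ofLp := by
  rw [dotProduct, tq]
  simp only [Fintype.sum_prod_type]
  refine Finset.sum_congr rfl fun i _ => Finset.sum_congr rfl fun j _ =>
    Finset.sum_congr rfl fun k _ => Finset.sum_congr rfl fun l _ => ?_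
  show T i j k l * u i * v j * u k * v l = T i j k l * (u i * (v j * (u k * v l)))
  ring

private theorem K4_U4 (J : Mat n) (u v : Fin n → ℝ) :
    K4 J *ᵥ U4 u v = U4 (J *ᵥ u) (J *ᵥ v) := by
  funext p
  obtain ⟨i, j, k, l⟩ := p
  rw [Matrix.mulVec, dotProduct]
  simp only [Fintype.sum_prod_type]
  show (∑ a, ∑ b, ∑ c, ∑ d, (J i a * (J j b * (J k c * J l d))) * (u a * (v b * (u c * v d))))
    = (∑ a, J i a * u a) * ((∑ b, J j b * v b) * ((∑ c, J k c * u c) * (∑ d, J l d * v d)))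
  rw [Finset.sum_mul]
  refine Finset.sum_congr rfl fun a _ => ?_
  rw [Finset.sum_mul, Finset.mul_sum]
  refine Finset.sum_congr rfl fun b _ => ?_
  rw [Finset.sum_mul, Finset.mul_sum, Finset.mul_sum]
  refine Finset.sum_congr rfl fun c _ => ?_
  rw [Finset.mul_sum, Finset.mul_sum, Finset.mul_sum]
  refine Finset.sum_congr rfl fun d _ => ?_
  ring

private theorem conj_inv (J g : Mat n) (hJ : IsUnit J.det) (hg : IsUnit g.det) :
    J * (Jᵀ * g * J)⁻¹ * Jᵀ = g⁻¹ := by
  have hJT : IsUnit (Jᵀ).det := by rwa [Matrix.det_transpose]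
  rw [Matrix.mul_inv_rev, Matrix.mul_inv_rev, ← mul_assoc, Matrix.mul_nonsing_inv J hJ, one_mul,
    mul_assoc, Matrix.nonsing_inv_mul _ hJT, mul_one]

private theorem ric_pull (J g : Mat n) (T : Fin n → Fin n → Mat n) (hJ : IsUnit J.det)
    (hg : IsUnit g.det) : ricT (Jᵀ * g * J) (pull J T) = Jᵀ * ricT g T * J := by
  ext i k
  set G := (Jᵀ * g * J)⁻¹ with hG
  have hc : J * G * Jᵀ = g⁻¹ := conj_inv J g hJ hg
  have hc' : ∀ b d, ∑ j, ∑ l, J b j * G j l * J d l = g⁻¹ b d := by
    intro b d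
    rw [← hc, Matrix.mul_apply]
    rw [Finset.sum_comm]
    refine Finset.sum_congr rfl fun l _ => ?_
    rw [Matrix.mul_apply, Finset.sum_mul]
    rfl
  have h1 : ricT (Jᵀ * g * J) (pull J T) i k
      = ∑ a, ∑ b, ∑ c, ∑ d, T a b c d * J a i * J c k * ∑ j, ∑ l, J b j * G j l * J d l := by
    show (∑ j, ∑ l, G j l * pull J T i j k l) = _
    have e : ∀ f : Fin n → Fin n → Fin n → Fin n → Fin n → Fin n → ℝ,
        ∑ j, ∑ l, ∑ a, ∑ b, ∑ c, ∑ d, f j l a b c d = ∑ a, ∑ b, ∑ c, ∑ d, ∑ j, ∑ l, f j l a b c d := by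
      intro f
      have h := Finset.sum_comm (s := (Finset.univ : Finset (Fin n × Fin n)))
        (t := (Finset.univ : Finset (Fin n × Fin n × Fin n × Fin n)))
        (f := fun u v => f u.1 u.2 v.1 v.2.1 v.2.2.1 v.2.2.2)
      simpa only [Fintype.sum_prod_type] using h
    simp only [pull_apply, Finset.mul_sum]
    rw [e]
    refine Finset.sum_congr rfl fun a _ => Finset.sum_congr rfl fun b _ =>
      Finset.sum_congr rfl fun c _ => Finset.sum_congr rfl fun d _ =>
      Finset.sum_congr rfl fun j _ => Finset.sum_congr rfl fun l _ => ?_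
    ring
  rw [h1, Matrix.mul_apply, Finset.sum_congr rfl fun a _ => Finset.sum_comm, Finset.sum_comm]
  refine Finset.sum_congr rfl fun c _ => ?_
  rw [Matrix.mul_apply, Finset.sum_mul]
  refine Finset.sum_congr rfl fun a _ => ?_
  show _ = J a i * (∑ b, ∑ d, g⁻¹ b d * T a b c d) * J c k
  rw [Finset.mul_sum, Finset.sum_mul]
  refine Finset.sum_congr rfl fun b _ => ?_
  rw [Finset.mul_sum, Finset.sum_mul]
  refine Finset.sum_congr rfl fun d _ => ?_
  rw [hc']
  ring

private theorem sc_trace (g : Mat n) (T : Fin n → Fin n → Mat n) :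
    scT g T = (g⁻¹ᵀ * ricT g T).trace := by
  rw [scT, Matrix.trace, Finset.sum_comm]
  refine Finset.sum_congr rfl fun k _ => ?_
  rw [Matrix.diag_apply, Matrix.mul_apply]
  rfl

private theorem quad_trace (G R : Mat n) :
    ∑ i, ∑ k, ∑ a, ∑ b, G i a * G k b * R i k * R a b = (Rᵀ * G * R * Gᵀ).trace := by
  rw [Matrix.trace, Finset.sum_comm]
  refine Finset.sum_congr rfl fun k _ => ?_
  rw [Matrix.diag_apply, Matrix.mul_apply]
  simp only [Matrix.mul_apply, Finset.sum_mul, transpose_apply]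
  have e : ∀ f : Fin n → Fin n → Fin n → ℝ, ∑ i, ∑ a, ∑ b, f i a b = ∑ b, ∑ a, ∑ i, f i a b := by
    intro f
    have h := Finset.sum_comm (s := (Finset.univ : Finset (Fin n)))
      (t := (Finset.univ : Finset (Fin n × Fin n))) (f := fun i v => f i v.1 v.2)
    simp only [Fintype.sum_prod_type] at h
    rw [h, Finset.sum_comm]
  rw [e]
  refine Finset.sum_congr rfl fun b _ => Finset.sum_congr rfl fun a _ =>
    Finset.sum_congr rfl fun i _ => ?_
  ring

theorem Curv.pull {T : Fin n → Fin n → Mat n} (hT : Curv T) (J : Mat n) : Curv (pull J T) := by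
  have sw12 : ∀ f : Fin n → Fin n → Fin n → Fin n → ℝ, ∑ a, ∑ b, ∑ c, ∑ d, f a b c d
      = ∑ a, ∑ b, ∑ c, ∑ d, f b a c d := fun f => Finset.sum_comm
  have sw34 : ∀ f : Fin n → Fin n → Fin n → Fin n → ℝ, ∑ a, ∑ b, ∑ c, ∑ d, f a b c d
      = ∑ a, ∑ b, ∑ c, ∑ d, f a b d c := fun f =>
    Finset.sum_congr rfl fun a _ => Finset.sum_congr rfl fun b _ => Finset.sum_comm
  have sw23 : ∀ f : Fin n → Fin n → Fin n → Fin n → ℝ, ∑ a, ∑ b, ∑ c, ∑ d, f a b c d
      = ∑ a, ∑ b, ∑ c, ∑ d, f a c b d := fun f =>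
    Finset.sum_congr rfl fun a _ => Finset.sum_comm
  have swp : ∀ f : Fin n → Fin n → Fin n → Fin n → ℝ, ∑ a, ∑ b, ∑ c, ∑ d, f a b c d
      = ∑ a, ∑ b, ∑ c, ∑ d, f c d a b := by
    intro f
    have h := Finset.sum_comm (s := (Finset.univ : Finset (Fin n × Fin n)))
      (t := (Finset.univ : Finset (Fin n × Fin n))) (f := fun u v => f u.1 u.2 v.1 v.2)
    simpa only [Fintype.sum_prod_type] using h
  refine ⟨?_, ?_, ?_, ?_⟩
  · intro i j k l
    rw [pull_apply, pull_apply, sw12 (fun a b c d => T a b c d * J a j * J b i * J c k * J d l)]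
    simp only [← Finset.sum_neg_distrib]
    refine Finset.sum_congr rfl fun a _ => Finset.sum_congr rfl fun b _ =>
      Finset.sum_congr rfl fun c _ => Finset.sum_congr rfl fun d _ => ?_
    rw [hT.a12 b a]
    ring
  · intro i j k l
    rw [pull_apply, pull_apply, sw34 (fun a b c d => T a b c d * J a i * J b j * J c l * J d k)]
    simp only [← Finset.sum_neg_distrib]
    refine Finset.sum_congr rfl fun a _ => Finset.sum_congr rfl fun b _ =>
      Finset.sum_congr rfl fun c _ => Finset.sum_congr rfl fun d _ => ?_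
    rw [hT.a34 a b d c]
    ring
  · intro i j k l
    rw [pull_apply, pull_apply, swp (fun a b c d => T a b c d * J a k * J b l * J c i * J d j)]
    refine Finset.sum_congr rfl fun a _ => Finset.sum_congr rfl fun b _ =>
      Finset.sum_congr rfl fun c _ => Finset.sum_congr rfl fun d _ => ?_
    rw [hT.pair c d a b]
    ring
  · intro i j k l
    have e1 : ∀ f : Fin n → Fin n → Fin n → Fin n → ℝ, ∑ a, ∑ b, ∑ c, ∑ d, f a b c d
        = ∑ a, ∑ b, ∑ c, ∑ d, f b c a d := by
      intro f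
      rw [sw23 f, sw12 (fun a b c d => f a c b d)]
    have e2 : ∀ f : Fin n → Fin n → Fin n → Fin n → ℝ, ∑ a, ∑ b, ∑ c, ∑ d, f a b c d
        = ∑ a, ∑ b, ∑ c, ∑ d, f c a b d := by
      intro f
      rw [e1 f, e1 (fun a b c d => f b c a d)]
    rw [pull_apply, pull_apply, pull_apply,
      e1 (fun a b c d => T a b c d * J a j * J b k * J c i * J d l),
      e2 (fun a b c d => T a b c d * J a k * J b i * J c j * J d l)]
    simp only [← Finset.sum_add_distrib]
    refine Finset.sum_eq_zero fun a _ => Finset.sum_eq_zero fun b _ =>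
      Finset.sum_eq_zero fun c _ => Finset.sum_eq_zero fun d _ => ?_
    have h := hT.bian a b c d
    linear_combination (J a i * J b j * J c k * J d l) * h

theorem tq_pull (T : Fin n → Fin n → Mat n) (J : Mat n) (u v : EuclideanSpace ℝ (Fin n)) :
    tq (pull J T) u v = tq T (WithLp.toLp 2 (J *ᵥ u.ofLp)) (WithLp.toLp 2 (J *ᵥ v.ofLp)) := by
  rw [tq_eq, tq_eq, vt_pull, ← K4_T, Matrix.mulVec_transpose, ← Matrix.dotProduct_mulVec, K4_U4]

theorem pull_pull (T : Fin n → Fin n → Mat n) (J J' : Mat n) :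
    pull J' (pull J T) = pull (J * J') T := by
  apply vt_inj
  rw [vt_pull, vt_pull, vt_pull, Matrix.mulVec_mulVec, ← K4_mul, ← Matrix.transpose_mul]

theorem pull_one (T : Fin n → Fin n → Mat n) : pull 1 T = T := by
  apply vt_inj
  rw [vt_pull, Matrix.transpose_one, K4_one, Matrix.one_mulVec]

theorem gbT_pull (J g : Mat n) (T : Fin n → Fin n → Mat n) (hJ : IsUnit J.det)
    (hg : IsUnit g.det) : gbT (Jᵀ * g * J) (pull J T) = gbT g T := by
  have hJT : IsUnit (Jᵀ).det := by rwa [Matrix.det_transpose]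
  set G := (Jᵀ * g * J)⁻¹ with hG
  have hc : J * G * Jᵀ = g⁻¹ := conj_inv J g hJ hg
  have hcT : J * Gᵀ * Jᵀ = g⁻¹ᵀ := by
    rw [← hc, Matrix.transpose_mul, Matrix.transpose_mul, transpose_transpose, mul_assoc]
  have hR := ric_pull J g T hJ hg
  set R := ricT g T with hRd
  rw [gbT, gbT]
  congr 1
  · congr 1
    · congr 1
      rw [sc_trace, sc_trace, hR, ← hRd, ← hG, ← hcT]
      rw [← mul_assoc, Matrix.trace_mul_comm, ← mul_assoc, ← mul_assoc]
    · congr 1
      rw [quad_trace, quad_trace, hR, ← hRd, ← hG]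
      have e1 : (Jᵀ * R * J)ᵀ * G * (Jᵀ * R * J) * Gᵀ = Jᵀ * (Rᵀ * (J * G * Jᵀ) * R * (J * Gᵀ)) := by
        rw [Matrix.transpose_mul, Matrix.transpose_mul, transpose_transpose]
        simp only [mul_assoc]
      have e2 : Rᵀ * g⁻¹ * R * g⁻¹ᵀ = (Rᵀ * (J * G * Jᵀ) * R * (J * Gᵀ)) * Jᵀ := by
        rw [← hcT, hc]
        simp only [mul_assoc]
      rw [e1, e2, Matrix.trace_mul_comm]
  · rw [← hG, rm_sq, rm_sq, vt_pull, ← hc, K4_mul, K4_mul, ← Matrix.mulVec_mulVec,
      ← Matrix.mulVec_mulVec, ← K4_T, Matrix.mulVec_transpose, ← Matrix.dotProduct_mulVec]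

end Pool.H68.LV
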