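import Pool.Agent.H68.LV.Tns
import Pool.Agent.H68.LV.Cov
import Pool.Agent.H68.LV.Gb4
import Pool.Agent.H68.LV.Cvx

/-!
# Module PBK: pull back of metric fields

pb_MS: symmetric: clear. Bounds: hypothesis (with Λ' >= 2Λ). lip: d_k (J^T g(Φ) J) by the product
rule: |entries of J| <= sqrt 2 * Λ (from |DΦ v|^2 <= Λ qf (g (Φ x)) (DΦ v) = Λ qf (pb) v <= 2Λ^2 |v|^2),
|entries of d_k J| <= C1, |entries of g| <= Λ (entry_le), |d_k (g o Φ)| <= n sqrt 2 Λ^2; so Λ' depends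
on n, Λ, C1 only. sec: RR_pb, tq_pull, jac_apply and qf (pb) u = qf g (J u), bf alike.
dn_pb: RR_pb, bt_pull, det (J^T g J) = det(J)^2 det g, sqrt(det(J)^2 det g) = |det J| sqrt(det g).
cov: MeasureTheory.integral_image_eq_integral_abs_det_fderiv_smul with f = Φ, s = V open, and
|det (fderiv Φ x)| = |det (jac Φ x)| (LinearMap.det via toMatrix in the standard basis).
-/

open Matrix MeasureTheory
open scoped ContDiff

noncomputable section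
namespace Pool.H68.LV

private theorem qf_pb {n : ℕ} (G J : Mat n) (v : E n) :
    qf (Jᵀ * G * J) v = qf G (WithLp.toLp 2 (J *ᵥ v.ofLp)) := by
  rw [qf_dotp, qf_dotp, mul_assoc, ← Matrix.mulVec_mulVec, ← Matrix.mulVec_mulVec,
    Matrix.mulVec_transpose, dotProduct_comm, ← Matrix.dotProduct_mulVec, dotProduct_comm]

private theorem bf_pb {n : ℕ} (G J : Mat n) (u v : E n) :
    bf (Jᵀ * G * J) u v
      = bf G (WithLp.toLp 2 (J *ᵥ u.ofLp)) (WithLp.toLp 2 (J *ᵥ v.ofLp)) := by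
  rw [bf_dotp, bf_dotp, mul_assoc, ← Matrix.mulVec_mulVec, ← Matrix.mulVec_mulVec,
    Matrix.mulVec_transpose, dotProduct_comm, ← Matrix.dotProduct_mulVec, dotProduct_comm]

private theorem ent3 {n : ℕ} (A B C : Mat n) {a b c : ℝ} (hA : ∀ i j, |A i j| ≤ a)
    (hB : ∀ i j, |B i j| ≤ b) (hC : ∀ i j, |C i j| ≤ c) (ha : 0 ≤ a) (hb : 0 ≤ b)
    (i j : Fin n) : |(A * B * C) i j| ≤ n ^ 2 * (a * b * c) := by
  have h1 : ∀ k, |(A * B) i k| ≤ n * (a * b) := by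
    intro k
    rw [Matrix.mul_apply]
    refine (Finset.abs_sum_le_sum_abs _ _).trans ((Finset.sum_le_sum fun l _ => ?_).trans
      (le_of_eq (by rw [Finset.sum_const, Finset.card_univ, Fintype.card_fin, nsmul_eq_mul])))
    rw [abs_mul]
    exact mul_le_mul (hA i l) (hB l k) (abs_nonneg _) ha
  rw [Matrix.mul_apply]
  refine (Finset.abs_sum_le_sum_abs _ _).trans ((Finset.sum_le_sum (g := fun _ => n * (a * b) * c)
    fun l _ => ?_).trans (le_of_eq ?_))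
  · rw [abs_mul]
    exact mul_le_mul (h1 l) (hC l j) (abs_nonneg _) (by positivity)
  · rw [Finset.sum_const, Finset.card_univ, Fintype.card_fin, nsmul_eq_mul]
    ring

private theorem jac_le {n : ℕ} {Λ : ℝ} (hΛ : 1 ≤ Λ) {G J : Mat n}
    (hlo : ∀ v, Λ⁻¹ * ‖v‖ ^ 2 ≤ qf G v) (hup : ∀ v, qf (Jᵀ * G * J) v ≤ 2 * Λ * ‖v‖ ^ 2)
    (a i : Fin n) : |J a i| ≤ 2 * Λ := by
  have hΛ0 : 0 < Λ := by linarith
  set w : E n := WithLp.toLp 2 (J *ᵥ (ee i : E n).ofLp) with hw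
  have h1 := hup (ee i)
  rw [qf_pb, norm_ee, one_pow, mul_one] at h1
  have h2 := (hlo w).trans h1
  have h3 : ‖w‖ ^ 2 ≤ 2 * Λ ^ 2 := by
    have := mul_le_mul_of_nonneg_left h2 hΛ0.le
    rw [← mul_assoc, mul_inv_cancel₀ hΛ0.ne', one_mul] at this
    linarith
  have h4 : w a = J a i := by
    show (J *ᵥ (ee i : E n).ofLp) a = J a i
    rw [Matrix.mulVec, dotProduct]
    simp [ee]
  have h5 := abs_apply_le w a
  rw [h4] at h5
  refine h5.trans ?_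
  by_contra hc
  push Not at hc
  nlinarith [norm_nonneg w]

theorem jac_det_ne {n : ℕ} {Λ : ℝ} (hΛ : 0 < Λ) {G J : Mat n}
    (h : ∀ v, Λ⁻¹ * ‖v‖ ^ 2 ≤ qf (Jᵀ * G * J) v) : J.det ≠ 0 := by
  intro h0
  obtain ⟨v, hv, hJv⟩ := Matrix.exists_mulVec_eq_zero_iff.mpr h0
  have h1 := h (WithLp.toLp 2 v)
  rw [qf_pb] at h1
  have e : (WithLp.toLp 2 (J *ᵥ (WithLp.toLp 2 v : E n).ofLp) : E n) = 0 := by
    show (WithLp.toLp 2 (J *ᵥ v) : E n) = 0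
    rw [hJv]
    rfl
  rw [e, qf_zero] at h1
  have h2 : 0 < ‖(WithLp.toLp 2 v : E n)‖ := by
    rw [norm_pos_iff]
    intro h3
    apply hv
    have := congrArg WithLp.ofLp h3
    exact this
  have h4 : 0 < Λ⁻¹ * ‖(WithLp.toLp 2 v : E n)‖ ^ 2 := by positivity
  linarith

theorem pb_MS (n : ℕ) (Λ κ C1 : ℝ) (hΛ : 1 ≤ Λ) (hκ : 0 ≤ κ) (hC1 : 0 ≤ C1) :
    ∃ Λ' : ℝ, 2 * Λ ≤ Λ' ∧ ∀ (U V : Set (E n)), IsOpen U → IsOpen V →
      ∀ g : E n → Mat n, MS Λ κ U g → ∀ Φ : E n → E n, ContDiffOn ℝ ∞ Φ V →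
      Set.MapsTo Φ V U →
      (∀ x ∈ V, ∀ v, (2 * Λ)⁻¹ * ‖v‖ ^ 2 ≤ qf (pb Φ g x) v) →
      (∀ x ∈ V, ∀ v, qf (pb Φ g x) v ≤ 2 * Λ * ‖v‖ ^ 2) →
      (∀ x ∈ V, ∀ a i j, |pd i (pd j (fun y => Φ y a)) x| ≤ C1) →
      MS Λ' κ V (pb Φ g) := by
  have hΛ0 : 0 < Λ := by linarith
  set Λ' : ℝ := 2 * Λ + 2 * (n ^ 2 * (2 * Λ * Λ * C1)) + n ^ 2 * (2 * Λ * (n * (2 * Λ * Λ)) * (2 * Λ))
    with hΛ'
  have h2Λ : 2 * Λ ≤ Λ' := by
    have h1 : 0 ≤ 2 * ((n : ℝ) ^ 2 * (2 * Λ * Λ * C1)) := by positivity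
    have h2 : 0 ≤ (n : ℝ) ^ 2 * (2 * Λ * (n * (2 * Λ * Λ)) * (2 * Λ)) := by positivity
    linarith
  have hΛ'0 : 0 < Λ' := by linarith
  refine ⟨Λ', h2Λ, fun U V hU hV g hg Φ hΦ hm hlo hup h2 => ?_⟩
  have hd : ∀ y ∈ U, (g y).det ≠ 0 := fun y hy =>
    (posDef_of hΛ0 (hg.sym y hy) (hg.lo y hy)).det_pos.ne'
  have hJ : ∀ x ∈ V, (jac Φ x).det ≠ 0 := fun x hx =>
    jac_det_ne (by positivity : (0 : ℝ) < 2 * Λ) (hlo x hx)
  refine ⟨pb_sm hV hΦ hm hg.sm, ?_, ?_, ?_, ?_, ?_⟩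
  · intro x hx
    rw [pb, Matrix.transpose_mul, Matrix.transpose_mul, transpose_transpose, hg.sym _ (hm hx),
      mul_assoc]
  · intro x hx v
    refine le_trans ?_ (hlo x hx v)
    exact mul_le_mul_of_nonneg_right (inv_anti₀ (by positivity) h2Λ) (sq_nonneg _)
  · intro x hx v
    exact (hup x hx v).trans (mul_le_mul_of_nonneg_right h2Λ (sq_nonneg _))
  · intro x hx k i j
    have hGe : ∀ a b, |g (Φ x) a b| ≤ Λ := entry_le (hg.sym _ (hm hx))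
      (fun v => (mul_nonneg (by positivity) (sq_nonneg _)).trans (hg.lo _ (hm hx) v))
      (hg.up _ (hm hx))
    have hJe : ∀ a b, |jac Φ x a b| ≤ 2 * Λ := jac_le hΛ (hg.lo _ (hm hx)) (hup x hx)
    have hJt : ∀ a b, |(jac Φ x)ᵀ a b| ≤ 2 * Λ := fun a b => hJe b a
    have hdJ : ∀ a b, |mpd k (jac Φ) x a b| ≤ C1 := fun a b => h2 x hx a k b
    have hdJt : ∀ a b, |(mpd k (jac Φ) x)ᵀ a b| ≤ C1 := fun a b => hdJ b a
    have hdG : ∀ a b, |mpd k (fun y => g (Φ y)) x a b| ≤ n * (2 * Λ * Λ) := by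
      intro a b
      rw [mpd_chain hU hV hΦ hm hg.sm hx, Matrix.sum_apply]
      refine (Finset.abs_sum_le_sum_abs _ _).trans ((Finset.sum_le_sum
        (g := fun _ => 2 * Λ * Λ) fun c _ => ?_).trans (le_of_eq ?_))
      · rw [Matrix.smul_apply, smul_eq_mul, abs_mul]
        exact mul_le_mul (hJe c k) (hg.lip _ (hm hx) c a b) (abs_nonneg _) (by positivity)
      · rw [Finset.sum_const, Finset.card_univ, Fintype.card_fin, nsmul_eq_mul]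
    have e : pd k (fun y => pb Φ g y i j) x = mpd k (pb Φ g) x i j := rfl
    rw [e, mpd_pb hV hΦ hm hg.sm hx, Matrix.add_apply, Matrix.add_apply]
    have t1 := ent3 _ _ _ hdJt hGe hJe hC1 hΛ0.le i j
    have t2 := ent3 _ _ _ hJt hdG hJe (by positivity) (by positivity) i j
    have t3 := ent3 _ _ _ hJt hGe hdJ (by positivity) hΛ0.le i j
    refine (abs_add_le _ _).trans ((add_le_add (abs_add_le _ _) le_rfl).trans ?_)
    have e1 : (n : ℝ) ^ 2 * (C1 * Λ * (2 * Λ)) = n ^ 2 * (2 * Λ * Λ * C1) := by ring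
    rw [e1] at t1
    linarith
  · intro x hx u v
    have hR := RR_pb hU hV hΦ hm hg.sm hg.sym hd hJ hx
    rw [hR, tq_pull, pb, qf_pb, qf_pb, bf_pb]
    exact hg.sec _ (hm hx) _ _

theorem dn_pb {n : ℕ} {U V : Set (E n)} (hU : IsOpen U) (hV : IsOpen V) {Φ : E n → E n}
    (hΦ : ContDiffOn ℝ ∞ Φ V) (hm : Set.MapsTo Φ V U) {g : E n → Mat n} (hg : Sm U g)
    (hs : ∀ x ∈ U, (g x)ᵀ = g x) (hd : ∀ x ∈ U, 0 < (g x).det)
    (hJ : ∀ x ∈ V, (jac Φ x).det ≠ 0) {x : E n} (hx : x ∈ V) :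
    dn 2 (pb Φ g) x = |(jac Φ x).det| * dn 2 g (Φ x) := by
  have hJx := hJ x hx
  have hdet : (pb Φ g x).det = (jac Φ x).det ^ 2 * (g (Φ x)).det := by
    rw [pb, Matrix.det_mul, Matrix.det_mul, Matrix.det_transpose]
    ring
  have hR := RR_pb hU hV hΦ hm hg hs (fun y hy => (hd y hy).ne') hJ hx
  have hsw : sw (pb Φ g) x = |(jac Φ x).det|⁻¹ * sw g (Φ x) := by
    rw [sw, sw, hdet, Real.sqrt_mul (sq_nonneg _), Real.sqrt_sq_eq_abs, mul_inv]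
  have habs : |(jac Φ x).det|⁻¹ * (jac Φ x).det ^ 2 = |(jac Φ x).det| := by
    rw [← sq_abs, pow_two, ← mul_assoc, inv_mul_cancel₀ (abs_ne_zero.mpr hJx), one_mul]
  rw [dn, dn, hR, hsw]
  have hb := bt_pull (jac Φ x) (g (Φ x)) (RR g (Φ x)) 2 (n - 2 * 2)
  have hpb : pb Φ g x = (jac Φ x)ᵀ * g (Φ x) * jac Φ x := rfl
  rw [hpb, hb]
  calc |(jac Φ x).det|⁻¹ * sw g (Φ x) * ((jac Φ x).det ^ 2 *
        bt (h4 (RR g (Φ x)) ^ 2 * h2 (g (Φ x)) ^ (n - 2 * 2)))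
      = (|(jac Φ x).det|⁻¹ * (jac Φ x).det ^ 2) * (sw g (Φ x) *
        bt (h4 (RR g (Φ x)) ^ 2 * h2 (g (Φ x)) ^ (n - 2 * 2))) := by ring
    _ = _ := by rw [habs]

theorem integral_pb {n : ℕ} {U V : Set (E n)} (hU : IsOpen U) (hV : IsOpen V) {Φ : E n → E n}
    (hΦ : ContDiffOn ℝ ∞ Φ V) (hm : Set.MapsTo Φ V U) (hi : Set.InjOn Φ V)
    {g : E n → Mat n} (hg : Sm U g) (hs : ∀ x ∈ U, (g x)ᵀ = g x)
    (hd : ∀ x ∈ U, 0 < (g x).det) (hJ : ∀ x ∈ V, (jac Φ x).det ≠ 0) (f : E n → ℝ) :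
    ∫ y in Φ '' V, f y * dn 2 g y = ∫ x in V, f (Φ x) * dn 2 (pb Φ g) x := by
  have hdΦ : ∀ x ∈ V, DifferentiableAt ℝ Φ x := fun x hx =>
    (hΦ.contDiffAt (hV.mem_nhds hx)).differentiableAt (by simp)
  have h1 := integral_image_eq_integral_abs_det_fderiv_smul (volume : Measure (E n))
    (f := Φ) (f' := fun x => fderiv ℝ Φ x) hV.measurableSet
    (fun x hx => (hdΦ x hx).hasFDerivAt.hasFDerivWithinAt) hi (fun y => f y * dn 2 g y)
  rw [h1]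
  apply setIntegral_congr_fun hV.measurableSet
  intro x hx
  have hdet : (fderiv ℝ Φ x).det = (jac Φ x).det := by
    rw [ContinuousLinearMap.det, ← LinearMap.det_toMatrix (EuclideanSpace.basisFun (Fin n) ℝ).toBasis]
    congr 1
    ext a i
    rw [LinearMap.toMatrix_apply]
    have : jac Φ x a i = (fderiv ℝ Φ x (ee i)) a := pd_comp (hdΦ x hx) i a
    rw [this]
    simp
  show |(fderiv ℝ Φ x).det| • (f (Φ x) * dn 2 g (Φ x)) = f (Φ x) * dn 2 (pb Φ g) x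
  rw [dn_pb hU hV hΦ hm hg hs hd hJ hx, hdet, smul_eq_mul]
  ring

end Pool.H68.LV
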