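import Pool.Agent.H68.LV.Smf
import Pool.Agent.H68.LV.Dif
import Pool.Agent.H68.LV.Pbk
import Pool.Agent.H68.LV.Lpt

/-!
# Module CMP: comparison of two charts

Put ε = sqrt η, ρ = r/(64 Λ^2), so that 2ε <= ρ for small η.
(1) hypothesis of SMF (with R = r/8, F x in ball 0 (r/16)): for x0 in ball 0 ρ and x, y in
closedBall x0 (2ε): |D'(Fx)(Fy)^2 - D(x)(y)^2| <= η (2 D x y + η) <= ε^2 (8 Λ ε + ε^2); Fx, Fy lie
in closedBall (F x0) h', h' = Λ(2Λε + η) <= 3Λ^2 ε <= h0, so by the expansion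
|D'(Fx)(Fy)^2 - qf (g'(F x0)) (Fx - Fy)| <= C0 h'^3; and |D(x)(y)^2 - qf (g x0)(x-y)| <= C0 (2ε)^3.
Lipschitz bound of g' on ball 0 R from MS.lip (mean value, Λ1 = n Λ).
(2) Φ from SMF; g* = pb Φ g' satisfies |qf g* v - qf g v| <= C1 ε |v|^2 (jac_apply), so for small ε
the bounds of pb_MS hold on ball 0 ρ, and |g*_ij - g_ij| <= C ε (polarisation). DIF: ρ2, c
(|DΦ v|^2 >= qf (g'(Φ x))(DΦ v)/Λ >= |v|^2/(2Λ^2)).
(3) choose ρ3 small: closedBall 0 ρ3 in ball (Φ 0) (c ρ2) (|Φ 0| = |Φ 0 - F 0| <= C1 ε^2), and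
for x in ball 0 ρ2 with |Φ x| <= ρ3: |F x| <= ρ3 + C1 ε^2, D' (F x) (F 0) <= Λ |F x|,
|x| <= Λ D x 0 <= Λ (Λ |F x| + η) <= ρ2/2.
(4) φ1 x = φ'(Φ x) on ball 0 ρ2, 0 outside: zero outside closedBall 0 (ρ2/2), Lipschitz with
constant 2Λ^2 L (|DΦ| <= 2Λ^2), |φ1| <= 1.
int_(ball 0 r) φ' dn g' = int_(Φ '' ball 0 ρ2) φ' dn g' = int_(ball 0 ρ2) φ1 dn g* (integral_pb).
|int φ1 dn g* - int φ1 dn g| <= C (1 + L) sqrt(C ε) (cont_lip, radii ρ2/2 < ρ2; classes NLc by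
MS.nlc, NLc.mono). |int (φ - φ1) dn g| <= C sup |φ - φ1| <= C (L η + L C1 ε^2) (dn_mass); all φ
supported in closedBall 0 (ρ2/2) if ρ3 <= ρ2/2. sqrt ε = η^(1/4), ε^2 = η <= η^(1/4).
-/

open Matrix MeasureTheory Metric
open scoped ContDiff NNReal

noncomputable section
namespace Pool.H68.LV

/-- Extension by zero of a Lipschitz function on a ball with support in a smaller ball. -/
private theorem ext_lip {n : ℕ} {R R' K : ℝ} (hR : R' < R) (hK : 0 ≤ K) (f : E n → ℝ)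
    (hf : ∀ x ∈ ball (0 : E n) R, ∀ y ∈ ball (0 : E n) R, |f x - f y| ≤ K * ‖x - y‖)
    (h1 : ∀ x ∈ ball (0 : E n) R, |f x| ≤ 1)
    (h0 : ∀ x ∈ ball (0 : E n) R, f x ≠ 0 → ‖x‖ ≤ R') (x y : E n) :
    |(ball (0 : E n) R).indicator f x - (ball (0 : E n) R).indicator f y|
      ≤ (K + 1 / (R - R')) * ‖x - y‖ := by
  have hd : 0 < R - R' := by linarith
  have hq : 0 ≤ 1 / (R - R') := by positivity
  have key : ∀ u ∈ ball (0 : E n) R, ∀ v ∉ ball (0 : E n) R,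
      |f u| ≤ (K + 1 / (R - R')) * ‖u - v‖ := by
    intro u hu v hv
    by_cases hz : f u = 0
    · rw [hz, abs_zero]; positivity
    · have hu' := h0 u hu hz
      have hv' : R ≤ ‖v‖ := by
        rw [mem_ball_zero_iff, not_lt] at hv; exact hv
      have h2 : R - R' ≤ ‖u - v‖ := by
        have := norm_sub_norm_le v u
        rw [norm_sub_rev] at this
        linarith
      have h3 : 1 ≤ 1 / (R - R') * ‖u - v‖ := by
        rw [one_div, inv_mul_eq_div, le_div_iff₀ hd]; linarith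
      have h4 : 0 ≤ K * ‖u - v‖ := by positivity
      have := h1 u hu
      nlinarith
  by_cases hx : x ∈ ball (0 : E n) R <;> by_cases hy : y ∈ ball (0 : E n) R
  · rw [Set.indicator_of_mem hx, Set.indicator_of_mem hy]
    refine (hf x hx y hy).trans ?_
    have : 0 ≤ 1 / (R - R') * ‖x - y‖ := by positivity
    nlinarith
  · rw [Set.indicator_of_mem hx, Set.indicator_of_notMem hy, sub_zero]
    exact key x hx y hy
  · rw [Set.indicator_of_notMem hx, Set.indicator_of_mem hy, zero_sub, abs_neg, norm_sub_rev]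
    exact key y hy x hx
  · rw [Set.indicator_of_notMem hx, Set.indicator_of_notMem hy, sub_zero, abs_zero]
    positivity

private theorem qf_dot {n : ℕ} (G : Mat n) (v : E n) : qf G v = v.ofLp ⬝ᵥ (G *ᵥ v.ofLp) := by
  simp only [qf, dotProduct, mulVec, Finset.mul_sum]
  exact Finset.sum_congr rfl fun i _ => Finset.sum_congr rfl fun j _ => by ring

private theorem qf_pull {n : ℕ} (G J : Mat n) (v w : E n) (h : w.ofLp = J *ᵥ v.ofLp) :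
    qf (Jᵀ * G * J) v = qf G w := by
  rw [qf_dot, qf_dot, h, ← mulVec_mulVec, ← mulVec_mulVec, dotProduct_mulVec, vecMul_transpose]

private theorem entry_diff {n : ℕ} {G G' : Mat n} (hs : Gᵀ = G) (hs' : G'ᵀ = G') {t : ℝ}
    (h : ∀ v : E n, |qf G' v - qf G v| ≤ t * ‖v‖ ^ 2) (i j : Fin n) :
    |G' i j - G i j| ≤ 2 * t := by
  have hD : ∀ k l, (G' - G) k l = (G' - G) l k := by
    intro k l
    have h1 := congrFun (congrFun hs k) l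
    have h2 := congrFun (congrFun hs' k) l
    simp only [transpose_apply] at h1 h2
    simp only [Matrix.sub_apply, h1, h2]
  have hq : ∀ v : E n, qf (G' - G) v = qf G' v - qf G v := by
    intro v
    rw [qf_dot, qf_dot, qf_dot, sub_mulVec, dotProduct_sub]
  have e1 : ∀ k, qf (G' - G) (ee k) = (G' - G) k k := by
    intro k
    rw [qf_dot]
    simp [ee]
  have ht : 0 ≤ t ∨ n = 0 := by
    by_cases hn : n = 0
    · right; exact hn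
    · left
      have := (abs_nonneg _).trans (h (ee i))
      simpa [ee] using this
  rcases ht with ht | hn
  swap
  · subst hn; exact i.elim0
  by_cases hij : i = j
  · subst hij
    have h1 := h (ee i)
    rw [← hq, e1] at h1
    have h2 : ‖(ee i : E n)‖ = 1 := by simp [ee]
    rw [h2] at h1
    have : |(G' - G) i i| ≤ t := by linarith
    simp only [Matrix.sub_apply] at this
    linarith
  · have e2 : qf (G' - G) (ee i + ee j) = (G' - G) i i + 2 * (G' - G) i j + (G' - G) j j := by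
      rw [qf_dot]
      simp only [WithLp.ofLp_add, mulVec_add, dotProduct_add, add_dotProduct]
      simp [ee]
      rw [show G' j i - G j i = G' i j - G i j from hD j i]
      ring
    have h1 := h (ee i + ee j)
    have h2 := h (ee i)
    have h3 := h (ee j)
    rw [← hq] at h1 h2 h3
    rw [e2] at h1
    rw [e1] at h2 h3
    have n1 : ‖(ee i : E n)‖ = 1 := by simp [ee]
    have n2 : ‖(ee j : E n)‖ = 1 := by simp [ee]
    have n3 : ‖(ee i + ee j : E n)‖ ^ 2 = 2 := by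
      rw [EuclideanSpace.norm_sq_eq]
      have : ∀ k, ‖(ee i + ee j : E n) k‖ ^ 2 = (if k = i then 1 else 0) + (if k = j then 1 else 0) := by
        intro k
        by_cases c1 : k = i
        · subst c1; simp [ee, hij]
        · by_cases c2 : k = j
          · subst c2; simp [ee, c1]
          · simp [ee, c1, c2]
      simp only [this, Finset.sum_add_distrib]
      simp
      norm_num
    rw [n1] at h2
    rw [n2] at h3
    rw [n3] at h1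
    rw [abs_le] at h1 h2 h3 ⊢
    simp only [Matrix.sub_apply] at h1 h2 h3
    constructor <;> linarith [h1.1, h1.2, h2.1, h2.2, h3.1, h3.2]

/-- Integrability of a cut off density. -/
private theorem int_cut {n : ℕ} {Λ K a b : ℝ} (hΛ : 1 ≤ Λ) (hab : a < b) {g : E n → Mat n}
    (h : NLc Λ K (ball (0 : E n) b) g) {φ : E n → ℝ} (hc : Continuous φ) {A : ℝ}
    (h1 : ∀ x, |φ x| ≤ A) (h0 : ∀ x ∉ closedBall (0 : E n) a, φ x = 0) :
    IntegrableOn (fun x => φ x * dn 2 g x) (ball (0 : E n) b) := by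
  have h2 : IntegrableOn (fun x => φ x * dn 2 g x) (ball (0 : E n) ((a + b) / 2)) := by
    have h3 := dn_integrableOn n Λ K ((a + b) / 2) b hΛ (by linarith) 0 g h 2
    exact Integrable.bdd_mul h3 hc.aestronglyMeasurable (c := A)
      (Filter.Eventually.of_forall fun x => by rw [Real.norm_eq_abs]; exact h1 x)
  refine h2.of_forall_sdiff_eq_zero measurableSet_ball ?_
  intro x hx
  rw [h0 x, zero_mul]
  intro hx'
  apply hx.2
  rw [mem_closedBall_zero_iff] at hx'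
  rw [mem_ball_zero_iff]
  linarith

private theorem sq_cmp {Λ ε a b : ℝ} (hΛ : 1 ≤ Λ) (hε : 0 < ε) (e1 : ε ≤ 1) (h0 : 0 ≤ b)
    (hu : b ≤ 4 * Λ * ε) (hd : |a - b| ≤ ε ^ 2) : |a ^ 2 - b ^ 2| ≤ (8 * Λ + 1) * ε ^ 3 := by
  have h7 : a ^ 2 - b ^ 2 = (a - b) * (2 * b + (a - b)) := by ring
  rw [h7, abs_mul]
  have h8 : |2 * b + (a - b)| ≤ 8 * Λ * ε + ε ^ 2 := by
    refine (abs_add_le _ _).trans ?_
    rw [abs_of_nonneg (by linarith : 0 ≤ 2 * b)]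
    linarith
  have hεε : ε ^ 2 ≤ ε := by nlinarith
  calc |a - b| * |2 * b + (a - b)|
      ≤ ε ^ 2 * (8 * Λ * ε + ε ^ 2) := mul_le_mul hd h8 (abs_nonneg _) (by positivity)
    _ ≤ ε ^ 2 * (8 * Λ * ε + ε) := by
        apply mul_le_mul_of_nonneg_left _ (by positivity)
        linarith
    _ = (8 * Λ + 1) * ε ^ 3 := by ring

private theorem smf_arith {Λ C0 ε q q' a b : ℝ} (hΛ : 1 ≤ Λ) (hC0 : 0 ≤ C0) (hε : 0 < ε)
    (h1 : |a ^ 2 - q'| ≤ C0 * (3 * Λ ^ 2 * ε) ^ 3) (h2 : |b ^ 2 - q| ≤ C0 * (2 * ε) ^ 3)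
    (h4 : |a ^ 2 - b ^ 2| ≤ (8 * Λ + 1) * ε ^ 3) :
    |q' - q| ≤ (8 * Λ + 1 + 27 * Λ ^ 6 * C0 + 8 * C0) * (2 * ε) ^ 3 := by
  have h9 : q' - q = -(a ^ 2 - q') + (a ^ 2 - b ^ 2) + (b ^ 2 - q) := by ring
  rw [h9]
  refine (abs_add_three _ _ _).trans ?_
  rw [abs_neg]
  have hε3 : 0 ≤ ε ^ 3 := by positivity
  have h10 : C0 * (3 * Λ ^ 2 * ε) ^ 3 + (8 * Λ + 1) * ε ^ 3 + C0 * (2 * ε) ^ 3
      = (8 * Λ + 1 + 27 * Λ ^ 6 * C0 + 8 * C0) * ε ^ 3 := by ring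
  have h11 : (8 * Λ + 1 + 27 * Λ ^ 6 * C0 + 8 * C0) * ε ^ 3
      ≤ (8 * Λ + 1 + 27 * Λ ^ 6 * C0 + 8 * C0) * (2 * ε) ^ 3 := by
    apply mul_le_mul_of_nonneg_left _ (by positivity)
    have : (2 * ε) ^ 3 = 8 * ε ^ 3 := by ring
    rw [this]; linarith
  linarith

private theorem smf_hyp {n : ℕ} {r Λ C0 h0 ρ ε : ℝ} (hr : 0 < r) (hΛ : 1 ≤ Λ) (hC0 : 0 ≤ C0)
    (hρ2 : r / (32 * Λ ^ 2) = 2 * ρ) (hρr : ρ ≤ r / 64) {g g' : E n → Mat n}
    {D D' : E n → E n → ℝ}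
    (hD : ∀ x ∈ ball (0 : E n) (r / 4), ∀ y ∈ ball (0 : E n) (r / 4),
        ‖x - y‖ ≤ Λ * D x y ∧ D x y ≤ Λ * ‖x - y‖)
    (hD' : ∀ x ∈ ball (0 : E n) (r / 4), ∀ y ∈ ball (0 : E n) (r / 4),
        ‖x - y‖ ≤ Λ * D' x y ∧ D' x y ≤ Λ * ‖x - y‖)
    (hDe : ∀ z ∈ ball (0 : E n) (r / 8), ∀ h, 0 < h → h ≤ h0 → ∀ x ∈ closedBall z h,
        ∀ y ∈ closedBall z h, |D x y ^ 2 - qf (g z) (x - y)| ≤ C0 * h ^ 3)
    (hDe' : ∀ z ∈ ball (0 : E n) (r / 8), ∀ h, 0 < h → h ≤ h0 → ∀ x ∈ closedBall z h,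
        ∀ y ∈ closedBall z h, |D' x y ^ 2 - qf (g' z) (x - y)| ≤ C0 * h ^ 3)
    {F : E n → E n}
    (hFr : ∀ x ∈ ball (0 : E n) (r / (32 * Λ ^ 2)), F x ∈ ball (0 : E n) (r / 16))
    (hFd : ∀ x ∈ ball (0 : E n) (r / (32 * Λ ^ 2)), ∀ y ∈ ball (0 : E n) (r / (32 * Λ ^ 2)),
        |D' (F x) (F y) - D x y| ≤ ε ^ 2)
    (hε : 0 < ε) (e1 : ε ≤ 1) (e3 : ε ≤ ρ / 2) (e4 : ε * (3 * Λ ^ 2) ≤ h0) :
    ∀ x0 ∈ ball (0 : E n) ρ, ∀ x ∈ closedBall x0 (2 * ε), ∀ y ∈ closedBall x0 (2 * ε),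
      |qf (g' (F x0)) (F x - F y) - qf (g x0) (x - y)|
        ≤ (8 * Λ + 1 + 27 * Λ ^ 6 * C0 + 8 * C0) * (2 * ε) ^ 3 := by
  intro x0 hx0 x hx y hy
  have hΛ0 : 0 < Λ := by linarith
  have hΛ2 : 1 ≤ Λ ^ 2 := one_le_pow₀ hΛ
  have inball : ∀ z ∈ closedBall x0 (2 * ε), z ∈ ball (0 : E n) (r / (32 * Λ ^ 2)) := by
    intro z hz
    rw [hρ2, mem_ball_zero_iff]
    rw [mem_ball_zero_iff] at hx0
    rw [mem_closedBall, dist_eq_norm] at hz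
    have := norm_add_le (z - x0) x0
    rw [sub_add_cancel] at this
    linarith
  have b328 : ball (0 : E n) (r / (32 * Λ ^ 2)) ⊆ ball (0 : E n) (r / 8) := by
    rw [hρ2]; exact ball_subset_ball (by linarith)
  have b84 : ball (0 : E n) (r / 8) ⊆ ball (0 : E n) (r / 4) := ball_subset_ball (by linarith)
  have hx0' : x0 ∈ closedBall x0 (2 * ε) := mem_closedBall_self (by positivity)
  have hb := inball x hx
  have hb' := inball y hy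
  have hb0 := inball x0 hx0'
  have hFin : ∀ z ∈ closedBall x0 (2 * ε), F z ∈ ball (0 : E n) (r / 4) := fun z hz =>
    ball_subset_ball (by linarith) (hFr z (inball z hz))
  have hFc : ∀ z ∈ closedBall x0 (2 * ε), F z ∈ closedBall (F x0) (3 * Λ ^ 2 * ε) := by
    intro z hz
    rw [mem_closedBall, dist_eq_norm]
    have h1 := (hD' (F z) (hFin z hz) (F x0) (hFin x0 hx0')).1
    have h2 := (abs_le.mp (hFd z (inball z hz) x0 hb0)).2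
    have h3 := (hD z (b84 (b328 (inball z hz))) x0 (b84 (b328 hb0))).2
    rw [mem_closedBall, dist_eq_norm] at hz
    have h4 : D z x0 ≤ Λ * (2 * ε) := h3.trans (mul_le_mul_of_nonneg_left hz hΛ0.le)
    have h6 : ε ^ 2 ≤ Λ * ε := by nlinarith
    have h5 : D' (F z) (F x0) ≤ 3 * Λ * ε := by linarith
    calc ‖F z - F x0‖ ≤ Λ * D' (F z) (F x0) := h1
      _ ≤ Λ * (3 * Λ * ε) := mul_le_mul_of_nonneg_left h5 hΛ0.le
      _ = 3 * Λ ^ 2 * ε := by ring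
  have hFx0 : F x0 ∈ ball (0 : E n) (r / 8) :=
    ball_subset_ball (by linarith) (hFr x0 hb0)
  have h1 := hDe' (F x0) hFx0 (3 * Λ ^ 2 * ε) (by positivity) (by linarith)
    (F x) (hFc x hx) (F y) (hFc y hy)
  have hle : 2 * ε ≤ h0 := by
    have : ε * (3 * 1) ≤ ε * (3 * Λ ^ 2) :=
      mul_le_mul_of_nonneg_left (mul_le_mul_of_nonneg_left hΛ2 (by norm_num)) hε.le
    linarith
  have h2 := hDe x0 (b328 hb0) (2 * ε) (by positivity) hle x hx y hy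
  have h3 := hFd x hb y hb'
  have hDn : 0 ≤ D x y := by
    have h5 := (hD x (b84 (b328 hb)) y (b84 (b328 hb'))).1
    exact nonneg_of_mul_nonneg_right ((norm_nonneg _).trans h5) hΛ0
  have hDu : D x y ≤ 4 * Λ * ε := by
    have h5 := (hD x (b84 (b328 hb)) y (b84 (b328 hb'))).2
    have h6 : ‖x - y‖ ≤ 4 * ε := by
      rw [mem_closedBall] at hx hy
      rw [← dist_eq_norm]
      have := dist_triangle x x0 y
      rw [dist_comm x0 y] at this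
      linarith
    calc D x y ≤ Λ * ‖x - y‖ := h5
      _ ≤ Λ * (4 * ε) := mul_le_mul_of_nonneg_left h6 hΛ0.le
      _ = 4 * Λ * ε := by ring
  exact smf_arith hΛ hC0 hε h1 h2 (sq_cmp hΛ hε e1 hDn hDu h3)

private theorem lip_entry {n : ℕ} {Λ κ r : ℝ} (hΛ : 0 ≤ Λ) {g : E n → Mat n}
    (hg : MS Λ κ (ball 0 r) g) : ∀ y ∈ ball (0 : E n) r, ∀ y' ∈ ball (0 : E n) r, ∀ i j,
      |g y i j - g y' i j| ≤ n * Λ * ‖y - y'‖ := by
  intro y hy y' hy' i j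
  have h1 := (convex_ball (0 : E n) r).norm_image_sub_le_of_norm_fderiv_le (𝕜 := ℝ)
    (f := fun z => g z i j) (C := n * Λ) ?_ ?_ hy' hy
  · rw [Real.norm_eq_abs] at h1; exact h1
  · intro x hx
    exact ((hg.sm i j).contDiffAt (isOpen_ball.mem_nhds hx)).differentiableAt (by simp)
  · intro x hx
    refine ContinuousLinearMap.opNorm_le_bound _ (by positivity) fun v => ?_
    have hv : v = ∑ k, v k • (ee k : E n) := by
      ext l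
      simp [ee, Finset.sum_apply, Pi.single_apply]
    have h2 : fderiv ℝ (fun z => g z i j) x v
        = ∑ k, v k * pd k (fun z => g z i j) x := by
      conv_lhs => rw [hv]
      rw [map_sum]
      exact Finset.sum_congr rfl fun k _ => by rw [map_smul, smul_eq_mul]; rfl
    rw [h2, Real.norm_eq_abs]
    refine (Finset.abs_sum_le_sum_abs _ _).trans ?_
    have h3 : ∀ k ∈ (Finset.univ : Finset (Fin n)),
        |v k * pd k (fun z => g z i j) x| ≤ ‖v‖ * Λ := by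
      intro k _
      rw [abs_mul]
      exact mul_le_mul (by rw [← Real.norm_eq_abs]; exact PiLp.norm_apply_le v k)
        (hg.lip x hx k i j) (abs_nonneg _) (norm_nonneg _)
    refine (Finset.sum_le_sum h3).trans (le_of_eq ?_)
    rw [Finset.sum_const, Finset.card_univ, Fintype.card_fin, nsmul_eq_mul]
    ring

private theorem dphi_up {n : ℕ} {Λ : ℝ} (hΛ0 : 0 < Λ) {G : Mat n} {w v : E n}
    (h2 : Λ⁻¹ * ‖w‖ ^ 2 ≤ qf G w) (h1 : qf G w ≤ 2 * Λ * ‖v‖ ^ 2) : ‖w‖ ≤ 2 * Λ * ‖v‖ := by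
  have h3 : ‖w‖ ^ 2 ≤ (2 * Λ * ‖v‖) ^ 2 := by
    have h4 : ‖w‖ ^ 2 = Λ * (Λ⁻¹ * ‖w‖ ^ 2) := by
      rw [← mul_assoc, mul_inv_cancel₀ hΛ0.ne', one_mul]
    rw [h4]
    calc Λ * (Λ⁻¹ * ‖w‖ ^ 2) ≤ Λ * (2 * Λ * ‖v‖ ^ 2) :=
          mul_le_mul_of_nonneg_left (h2.trans h1) hΛ0.le
      _ ≤ (2 * Λ * ‖v‖) ^ 2 := by nlinarith [sq_nonneg (Λ * ‖v‖)]
  exact (pow_le_pow_iff_left₀ (norm_nonneg _) (by positivity) two_ne_zero).mp h3

private theorem dphi_lo {n : ℕ} {Λ : ℝ} (hΛ0 : 0 < Λ) {G : Mat n} {w v : E n}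
    (h1 : (2 * Λ)⁻¹ * ‖v‖ ^ 2 ≤ qf G w) (h2 : qf G w ≤ Λ * ‖w‖ ^ 2) :
    (2 * Λ ^ 2)⁻¹ * ‖v‖ ^ 2 ≤ ‖w‖ ^ 2 := by
  have h3 : (2 * Λ ^ 2)⁻¹ * ‖v‖ ^ 2 = Λ⁻¹ * ((2 * Λ)⁻¹ * ‖v‖ ^ 2) := by
    field_simp
  rw [h3, inv_mul_le_iff₀ hΛ0]
  exact h1.trans h2

private theorem pb_lo {Λ t q q' N : ℝ} (hΛ0 : 0 < Λ) (hN : 0 ≤ N) (ht : t ≤ (2 * Λ)⁻¹)
    (h : |q' - q| ≤ t * N) (h2 : Λ⁻¹ * N ≤ q) : (2 * Λ)⁻¹ * N ≤ q' := by
  have h1 := (abs_le.mp h).1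
  have h3 : t * N ≤ (2 * Λ)⁻¹ * N := mul_le_mul_of_nonneg_right ht hN
  have hinv : (2 * Λ)⁻¹ = Λ⁻¹ - (2 * Λ)⁻¹ := by field_simp; ring
  have h4 : (2 * Λ)⁻¹ * N = Λ⁻¹ * N - (2 * Λ)⁻¹ * N := by
    rw [← sub_mul, ← hinv]
  linarith

private theorem pb_up {Λ t q q' N : ℝ} (hΛ : 1 ≤ Λ) (hN : 0 ≤ N) (ht : t ≤ (2 * Λ)⁻¹)
    (h : |q' - q| ≤ t * N) (h2 : q ≤ Λ * N) : q' ≤ 2 * Λ * N := by
  have h1 := (abs_le.mp h).2
  have hinvle : (2 * Λ)⁻¹ ≤ Λ := by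
    have : (2 * Λ)⁻¹ ≤ 1 := inv_le_one_of_one_le₀ (by linarith)
    linarith
  have h3 : t * N ≤ Λ * N := mul_le_mul_of_nonneg_right (ht.trans hinvle) hN
  linarith

private theorem back_arith {Λ ρ2 ρ3 C1 ε a b d : ℝ} (hΛ : 1 ≤ Λ) (hρ3b : Λ ^ 2 * ρ3 ≤ ρ2 / 4)
    (hC : Λ * (Λ * C1 + 1) * ε ^ 2 ≤ ρ2 / 4) (h2 : a ≤ ρ3 + C1 * ε ^ 2)
    (h4 : d ≤ Λ * a + ε ^ 2) (h5 : b ≤ Λ * d) : b ≤ ρ2 / 2 := by
  have hΛ0 : 0 < Λ := by linarith
  have h6 : d ≤ Λ * (ρ3 + C1 * ε ^ 2) + ε ^ 2 := by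
    have := mul_le_mul_of_nonneg_left h2 hΛ0.le
    linarith
  have h7 := mul_le_mul_of_nonneg_left h6 hΛ0.le
  have h8 : Λ * (Λ * (ρ3 + C1 * ε ^ 2) + ε ^ 2)
      = Λ ^ 2 * ρ3 + Λ * (Λ * C1 + 1) * ε ^ 2 := by ring
  linarith

private theorem fin_arith {Λ C1 C2 C3 L ρ2 η t S A1 I J : ℝ} (hΛ : 1 ≤ Λ) (hC1 : 0 ≤ C1)
    (hC2 : 0 ≤ C2) (hC3 : 0 ≤ C3) (hL : 0 ≤ L) (hρ2 : 0 < ρ2) (ht : 0 ≤ t) (hS : 0 ≤ S)
    (hη : 0 ≤ η) (hηt : η ≤ t)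
    (h1 : |A1 - I| ≤ C2 * (1 + (L * (2 * Λ) + 2 / ρ2)) * (S * t))
    (h2 : |J - I| ≤ C3 * (L * (1 + C1) * η)) :
    |J - A1| ≤ (C3 * (1 + C1) + C2 * (1 + 2 * Λ + 2 / ρ2) * S) * (1 + L) * t := by
  have f1 : C2 * (1 + (L * (2 * Λ) + 2 / ρ2)) * (S * t)
      ≤ C2 * ((1 + 2 * Λ + 2 / ρ2) * (1 + L)) * (S * t) := by
    apply mul_le_mul_of_nonneg_right _ (by positivity)
    apply mul_le_mul_of_nonneg_left _ hC2
    have h3 : 0 ≤ 2 / ρ2 * L := by positivity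
    have h4 : (1 + 2 * Λ + 2 / ρ2) * (1 + L)
        = 1 + (L * (2 * Λ) + 2 / ρ2) + (L + 2 * Λ + 2 / ρ2 * L) := by ring
    rw [h4]
    linarith
  have f2 : C3 * (L * (1 + C1) * η) ≤ C3 * ((1 + C1) * (1 + L) * t) := by
    apply mul_le_mul_of_nonneg_left _ hC3
    have h3 : L * (1 + C1) ≤ (1 + C1) * (1 + L) := by
      have : (1 + C1) * (1 + L) = L * (1 + C1) + (1 + C1) := by ring
      rw [this]; linarith
    exact mul_le_mul h3 hηt hη (by positivity)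
  have f3 : (C3 * (1 + C1) + C2 * (1 + 2 * Λ + 2 / ρ2) * S) * (1 + L) * t
      = C3 * ((1 + C1) * (1 + L) * t) + C2 * ((1 + 2 * Λ + 2 / ρ2) * (1 + L)) * (S * t) := by
    ring
  rw [f3]
  have g1 := h1.trans f1
  have g2 := h2.trans f2
  rw [abs_le] at g1 g2 ⊢
  constructor <;> linarith [g1.1, g1.2, g2.1, g2.2]

private theorem sup_arith {L C1 η a b c : ℝ} (hL : 0 ≤ L) (h2 : |a - b| ≤ L * η)
    (h3 : |b - c| ≤ L * (C1 * η)) : |a - c| ≤ L * (1 + C1) * η := by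
  have h4 : a - c = (a - b) + (b - c) := by ring
  rw [h4]
  refine (abs_add_le _ _).trans ?_
  linarith

theorem loc_compare (n : ℕ) (κ r Λ C0 h0 : ℝ) (hn : 4 ≤ n) (hκ : 0 ≤ κ) (hr : 0 < r)
    (hΛ : 1 ≤ Λ) (hC0 : 0 ≤ C0) (hh0 : 0 < h0) :
    ∃ ρ3 : ℝ, 0 < ρ3 ∧ ∃ η0 : ℝ, 0 < η0 ∧ ∃ C : ℝ, 0 ≤ C ∧ ∀ (g g' : E n → Mat n),
      MS Λ κ (ball 0 r) g → MS Λ κ (ball 0 r) g' → ∀ (D D' : E n → E n → ℝ),
      (∀ x ∈ ball (0 : E n) (r / 4), ∀ y ∈ ball (0 : E n) (r / 4),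
        ‖x - y‖ ≤ Λ * D x y ∧ D x y ≤ Λ * ‖x - y‖) →
      (∀ x ∈ ball (0 : E n) (r / 4), ∀ y ∈ ball (0 : E n) (r / 4),
        ‖x - y‖ ≤ Λ * D' x y ∧ D' x y ≤ Λ * ‖x - y‖) →
      (∀ z ∈ ball (0 : E n) (r / 8), ∀ h, 0 < h → h ≤ h0 → ∀ x ∈ closedBall z h,
        ∀ y ∈ closedBall z h, |D x y ^ 2 - qf (g z) (x - y)| ≤ C0 * h ^ 3) →
      (∀ z ∈ ball (0 : E n) (r / 8), ∀ h, 0 < h → h ≤ h0 → ∀ x ∈ closedBall z h,
        ∀ y ∈ closedBall z h, |D' x y ^ 2 - qf (g' z) (x - y)| ≤ C0 * h ^ 3) →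
      ∀ (F : E n → E n) (B η : ℝ), Measurable F → (∀ x, ‖F x‖ ≤ B) → 0 < η → η ≤ η0 →
      F 0 = 0 → (∀ x ∈ ball (0 : E n) (r / (32 * Λ ^ 2)), F x ∈ ball (0 : E n) (r / 16)) →
      (∀ x ∈ ball (0 : E n) (r / (32 * Λ ^ 2)), ∀ y ∈ ball (0 : E n) (r / (32 * Λ ^ 2)),
        |D' (F x) (F y) - D x y| ≤ η) →
      ∀ (L : ℝ≥0) (φ φ' : E n → ℝ), LipschitzWith L φ → LipschitzWith L φ' →
      (∀ x, |φ x| ≤ 1) → (∀ x, |φ' x| ≤ 1) →
      (∀ x ∉ closedBall (0 : E n) ρ3, φ x = 0) → (∀ x ∉ closedBall (0 : E n) ρ3, φ' x = 0) →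
      (∀ x ∈ ball (0 : E n) (r / (32 * Λ ^ 2)), |φ x - φ' (F x)| ≤ L * η) →
      |(∫ x in ball (0 : E n) r, φ x * dn 2 g x) - ∫ x in ball (0 : E n) r, φ' x * dn 2 g' x|
        ≤ C * (1 + L) * η ^ (1 / 4 : ℝ) := by
  have hΛ0 : 0 < Λ := by linarith
  -- constants
  set ρ : ℝ := r / (64 * Λ ^ 2) with hρdef
  have hρ : 0 < ρ := by positivity
  have hρr : ρ ≤ r / 64 := by
    rw [hρdef]
    apply div_le_div_of_nonneg_left hr.le (by norm_num)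
    nlinarith
  have hρ2 : r / (32 * Λ ^ 2) = 2 * ρ := by rw [hρdef]; field_simp; ring
  have hC0'0 : 0 ≤ 8 * Λ + 1 + 27 * Λ ^ 6 * C0 + 8 * C0 := by positivity
  obtain ⟨C1, hC1, ε1, hε1, Hsm⟩ := smooth_approx n Λ (n * Λ)
    (8 * Λ + 1 + 27 * Λ ^ 6 * C0 + 8 * C0) ρ (r / 8) hΛ (by positivity) hC0'0 hρ (by positivity)
  obtain ⟨Λ', hΛΛ', Hpb⟩ := pb_MS n Λ κ C1 hΛ hκ hC1
  obtain ⟨ρ2, hρ20, hρ2ρ, c, hc, Hdf⟩ := diffeo_small n Λ C1 ρ hΛ hC1 hρ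
  have hΛ' : 1 ≤ Λ' := by linarith
  have hK : 0 ≤ K1 n Λ' κ := by unfold K1; positivity
  obtain ⟨C2, hC2, Hcl⟩ := cont_lip n Λ' (K1 n Λ' κ) (ρ2 / 2) ρ2 hn hΛ' hK (by positivity)
    (by linarith)
  obtain ⟨C3, hC3, Hdm⟩ := dn_mass n Λ' (K1 n Λ' κ) (ρ2 / 2) ρ2 hn hΛ' hK (by positivity)
    (by linarith)
  set ρ3 : ℝ := min (c * ρ2 / 4) (ρ2 / (4 * Λ ^ 2)) with hρ3def
  have hρ3 : 0 < ρ3 := lt_min (by positivity) (by positivity)
  have hρ3a : ρ3 ≤ c * ρ2 / 4 := min_le_left _ _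
  have hρ3b : Λ ^ 2 * ρ3 ≤ ρ2 / 4 := by
    have : ρ3 ≤ ρ2 / (4 * Λ ^ 2) := min_le_right _ _
    rw [le_div_iff₀ (by positivity)] at this
    linarith
  have hρ3c : ρ3 ≤ ρ2 / 4 := by
    have : 1 * ρ3 ≤ Λ ^ 2 * ρ3 := mul_le_mul_of_nonneg_right (one_le_pow₀ hΛ) hρ3.le
    linarith
  -- the bound for epsilon
  obtain ⟨ε0, hε0, hε0a⟩ : ∃ ε0 : ℝ, 0 < ε0 ∧ (ε0 ≤ 1 ∧ ε0 ≤ ε1 ∧ ε0 ≤ ρ / 2 ∧
      ε0 ≤ h0 / (3 * Λ ^ 2) ∧ ε0 ≤ 1 / (2 * Λ * (C1 + 1)) ∧ ε0 ≤ 1 / (2 * C1 + 1) ∧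
      ε0 ≤ c * ρ2 / (4 * (C1 + 1)) ∧ ε0 ≤ ρ2 / (4 * Λ * (Λ * C1 + 1))) := by
    refine ⟨min 1 (min ε1 (min (ρ / 2) (min (h0 / (3 * Λ ^ 2)) (min (1 / (2 * Λ * (C1 + 1)))
      (min (1 / (2 * C1 + 1)) (min (c * ρ2 / (4 * (C1 + 1)))
        (ρ2 / (4 * Λ * (Λ * C1 + 1))))))))), ?_, ?_⟩
    · refine lt_min one_pos (lt_min hε1 (lt_min (by positivity) (lt_min (by positivity)
        (lt_min (by positivity) (lt_min (by positivity) (lt_min (by positivity)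
          (by positivity)))))))
    · simp only [min_le_iff, le_refl, true_or, or_true, and_self]
  obtain ⟨d1, d2, d3, d4, d5, d6, d7, d8⟩ := hε0a
  refine ⟨ρ3, hρ3, ε0 ^ 2, by positivity,
    C3 * (1 + C1) + C2 * (1 + 2 * Λ + 2 / ρ2) * Real.sqrt (2 * C1 + 1), by positivity, ?_⟩
  intro g g' hg hg' D D' hD hD' hDe hDe' F B η hF hFB hη hηle hF0 hFr hFd L φ φ' hφL hφL'
    hφ1 hφ1' hφ0 hφ0' hφφ'
  -- epsilon
  obtain ⟨ε, hεdef⟩ : ∃ ε, ε = Real.sqrt η := ⟨_, rfl⟩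
  have hε : 0 < ε := by rw [hεdef]; exact Real.sqrt_pos.mpr hη
  have hεη : ε ^ 2 = η := by rw [hεdef]; exact Real.sq_sqrt hη.le
  have hεle : ε ≤ ε0 := by
    rw [hεdef]
    exact Real.sqrt_le_iff.mpr ⟨hε0.le, hηle⟩
  have e1 : ε ≤ 1 := hεle.trans d1
  have e2 : ε ≤ ε1 := hεle.trans d2
  have e3 : ε ≤ ρ / 2 := hεle.trans d3
  have e4 := (le_div_iff₀ (by positivity)).mp (hεle.trans d4)
  have e5 := (le_div_iff₀ (by positivity)).mp (hεle.trans d5)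
  have e6 := (le_div_iff₀ (by positivity)).mp (hεle.trans d6)
  have e7 := (le_div_iff₀ (by positivity)).mp (hεle.trans d7)
  have e8 := (le_div_iff₀ (by positivity)).mp (hεle.trans d8)
  clear d1 d2 d3 d4 d5 d6 d7 d8 hηle hεle
  have hεε : ε ^ 2 ≤ ε := by
    rw [sq]; exact mul_le_of_le_one_left hε.le e1
  have hη1 : η ≤ 1 := by rw [← hεη]; exact hεε.trans e1
  have e5' : C1 * ε ≤ (2 * Λ)⁻¹ := by
    rw [← one_div, le_div_iff₀ (by positivity)]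
    have : C1 * ε * (2 * Λ) + ε * (2 * Λ) = ε * (2 * Λ * (C1 + 1)) := by ring
    have h2 : 0 < ε * (2 * Λ) := by positivity
    linarith
  -- balls
  have b8 : ball (0 : E n) (r / 8) ⊆ ball 0 r := ball_subset_ball (by linarith)
  have bρ2 : ball (0 : E n) ρ ⊆ ball (0 : E n) (r / (32 * Λ ^ 2)) := by
    rw [hρ2]; exact ball_subset_ball (by linarith)
  have b32 : ball (0 : E n) (r / (32 * Λ ^ 2)) ⊆ ball (0 : E n) (r / 8) := by
    rw [hρ2]; exact ball_subset_ball (by linarith)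
  have b84 : ball (0 : E n) (r / 8) ⊆ ball (0 : E n) (r / 4) := ball_subset_ball (by linarith)
  have bρr : ball (0 : E n) ρ ⊆ ball (0 : E n) r := fun x hx => b8 (b32 (bρ2 hx))
  have bρ22 : ball (0 : E n) ρ2 ⊆ ball 0 ρ := ball_subset_ball hρ2ρ
  obtain ⟨Φ, hΦ, hΦp⟩ := Hsm g g'
    (fun x hx => ⟨hg.sym x (bρr hx), fun v => ⟨hg.lo x (bρr hx) v, hg.up x (bρr hx) v⟩⟩)
    (fun y hy => ⟨hg'.sym y (b8 hy), fun v => ⟨hg'.lo y (b8 hy) v, hg'.up y (b8 hy) v⟩⟩)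
    (fun y hy y' hy' => lip_entry hΛ0.le hg' y (b8 hy) y' (b8 hy')) F B hF hFB
    (fun x hx => by
      have := hFr x (bρ2 hx)
      rwa [show r / 8 / 2 = r / 16 by ring])
    ε hε e2 (smf_hyp hr hΛ hC0 hρ2 hρr hD hD' hDe hDe' hFr
      (fun x hx y hy => by rw [hεη]; exact hFd x hx y hy) hε e1 e3 e4)
  clear Hsm
  -- consequences
  have hΦd : ∀ x, DifferentiableAt ℝ Φ x := fun x => hΦ.differentiable (by simp) x
  have hqf : ∀ x v, qf (pb Φ g' x) v = qf (g' (Φ x)) (fderiv ℝ Φ x v) := fun x v =>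
    qf_pull _ _ _ _ (jac_apply (hΦd x) v)
  have hqd : ∀ x ∈ ball (0 : E n) ρ, ∀ v, |qf (pb Φ g' x) v - qf (g x) v| ≤ C1 * ε * ‖v‖ ^ 2 := by
    intro x hx v
    rw [hqf]
    exact (hΦp x hx).2.2.2 v
  have hpblo : ∀ x ∈ ball (0 : E n) ρ, ∀ v, (2 * Λ)⁻¹ * ‖v‖ ^ 2 ≤ qf (pb Φ g' x) v :=
    fun x hx v => pb_lo hΛ0 (by positivity) e5' (hqd x hx v) (hg.lo x (bρr hx) v)
  have hpbup : ∀ x ∈ ball (0 : E n) ρ, ∀ v, qf (pb Φ g' x) v ≤ 2 * Λ * ‖v‖ ^ 2 :=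
    fun x hx v => pb_up hΛ (by positivity) e5' (hqd x hx v) (hg.up x (bρr hx) v)
  have hDΦup : ∀ x ∈ ball (0 : E n) ρ, ∀ v, ‖fderiv ℝ Φ x v‖ ≤ 2 * Λ * ‖v‖ := by
    intro x hx v
    have h1 := hpbup x hx v
    rw [hqf] at h1
    exact dphi_up hΛ0 (hg'.lo (Φ x) (b8 (hΦp x hx).2.1) (fderiv ℝ Φ x v)) h1
  have hDΦlo : ∀ x ∈ ball (0 : E n) ρ, ∀ v,
      (2 * Λ ^ 2)⁻¹ * ‖v‖ ^ 2 ≤ ‖fderiv ℝ Φ x v‖ ^ 2 := by
    intro x hx v
    have h1 := hpblo x hx v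
    rw [hqf] at h1
    exact dphi_lo hΛ0 h1 (hg'.up (Φ x) (b8 (hΦp x hx).2.1) (fderiv ℝ Φ x v))
  have hMSpb : MS Λ' κ (ball (0 : E n) ρ) (pb Φ g') :=
    Hpb (ball 0 r) (ball 0 ρ) isOpen_ball isOpen_ball g' hg' Φ hΦ.contDiffOn
      (fun x hx => b8 (hΦp x hx).2.1) hpblo hpbup (fun x hx => (hΦp x hx).2.2.1)
  obtain ⟨hinj, hsurj, hjac⟩ := Hdf Φ hΦ (fun x hx => (hΦp x hx).2.2.1) hDΦlo
  clear Hpb Hdf
  have hΦF : ∀ x ∈ ball (0 : E n) ρ, ‖Φ x - F x‖ ≤ C1 * ε ^ 2 := fun x hx => (hΦp x hx).1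
  have zρ : (0 : E n) ∈ ball (0 : E n) ρ := by rw [mem_ball_zero_iff, norm_zero]; exact hρ
  have hC1ε : C1 * ε ^ 2 ≤ c * ρ2 / 4 := by
    have h1 : C1 * ε ^ 2 ≤ C1 * ε := mul_le_mul_of_nonneg_left hεε hC1
    have h2 : ε * (4 * (C1 + 1)) = 4 * (C1 * ε) + 4 * ε := by ring
    linarith
  have hC1ε' : Λ * (Λ * C1 + 1) * ε ^ 2 ≤ ρ2 / 4 := by
    have h0 : 0 ≤ Λ * (Λ * C1 + 1) := by positivity
    have h1 : Λ * (Λ * C1 + 1) * ε ^ 2 ≤ Λ * (Λ * C1 + 1) * ε := mul_le_mul_of_nonneg_left hεε h0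
    linarith
  have hsub : closedBall (0 : E n) ρ3 ⊆ Φ '' ball 0 ρ2 := by
    intro y hy
    apply hsurj
    rw [mem_closedBall_zero_iff] at hy
    rw [mem_ball, dist_eq_norm]
    have h1 := hΦF 0 zρ
    rw [hF0, sub_zero] at h1
    have h2 := norm_sub_le y (Φ 0)
    have h3 : 0 < c * ρ2 := by positivity
    linarith
  have hback : ∀ x ∈ ball (0 : E n) ρ2, ‖Φ x‖ ≤ ρ3 → ‖x‖ ≤ ρ2 / 2 := by
    intro x hx hle
    have hxρ := bρ22 hx
    have h1 := hΦF x hxρ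
    have h2 : ‖F x‖ ≤ ρ3 + C1 * ε ^ 2 := by
      have := norm_sub_norm_le (F x) (Φ x)
      rw [norm_sub_rev] at this
      linarith
    have hx32 := bρ2 hxρ
    have h032 := bρ2 zρ
    have h3 := (abs_le.mp (hFd x hx32 0 h032)).1
    have hFx4 : F x ∈ ball (0 : E n) (r / 4) := ball_subset_ball (by linarith) (hFr x hx32)
    have hF04 : F 0 ∈ ball (0 : E n) (r / 4) := ball_subset_ball (by linarith) (hFr 0 h032)
    have h4 := (hD' (F x) hFx4 (F 0) hF04).2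
    have h5 := (hD x (b84 (b32 hx32)) 0 (b84 (b32 h032))).1
    rw [hF0, sub_zero] at h4
    rw [sub_zero] at h5
    rw [hF0] at h3
    exact back_arith hΛ hρ3b hC1ε' h2 (by rw [hεη]; linarith) h5
  -- the pulled back test function
  set φ1 : E n → ℝ := (ball (0 : E n) ρ2).indicator (fun x => φ' (Φ x)) with hφ1def
  have hLip' : ∀ x y, |φ' x - φ' y| ≤ L * ‖x - y‖ := by
    intro x y
    have := hφL'.dist_le_mul x y
    rwa [Real.dist_eq, dist_eq_norm] at this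
  have hmv : ∀ x ∈ ball (0 : E n) ρ2, ∀ y ∈ ball (0 : E n) ρ2, ‖Φ x - Φ y‖ ≤ 2 * Λ * ‖x - y‖ := by
    intro x hx y hy
    exact (convex_ball (0 : E n) ρ2).norm_image_sub_le_of_norm_fderiv_le (𝕜 := ℝ)
      (fun z _ => hΦd z)
      (fun z hz => ContinuousLinearMap.opNorm_le_bound _ (by positivity) (hDΦup z (bρ22 hz)))
      hy hx
  have hφ1ne : ∀ x ∈ ball (0 : E n) ρ2, φ' (Φ x) ≠ 0 → ‖x‖ ≤ ρ2 / 2 := by
    intro x hx hne
    apply hback x hx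
    by_contra hgt
    apply hne
    apply hφ0'
    rw [mem_closedBall_zero_iff]
    exact hgt
  have hLn : (0 : ℝ) ≤ L := L.2
  have hL1n : 0 ≤ (L : ℝ) * (2 * Λ) + 2 / ρ2 := by positivity
  have hφ1L : LipschitzWith ⟨(L : ℝ) * (2 * Λ) + 2 / ρ2, hL1n⟩ φ1 := by
    refine LipschitzWith.of_dist_le_mul fun x y => ?_
    rw [Real.dist_eq, dist_eq_norm]
    have h1 := ext_lip (n := n) (R := ρ2) (R' := ρ2 / 2) (K := (L : ℝ) * (2 * Λ)) (by linarith)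
      (by positivity) (fun x => φ' (Φ x)) ?_ (fun x _ => hφ1' _) hφ1ne x y
    · have h2 : (1 : ℝ) / (ρ2 - ρ2 / 2) = 2 / ρ2 := by field_simp; ring
      rw [h2] at h1
      exact h1
    · intro x hx y hy
      refine (hLip' _ _).trans ?_
      rw [mul_assoc]
      exact mul_le_mul_of_nonneg_left (hmv x hx y hy) hLn
  have hφ1b : ∀ x, |φ1 x| ≤ 1 := by
    intro x
    by_cases hx : x ∈ ball (0 : E n) ρ2
    · simp only [hφ1def, Set.indicator_of_mem hx]; exact hφ1' _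
    · simp only [hφ1def, Set.indicator_of_notMem hx, abs_zero]; norm_num
  have hφ10 : ∀ x ∉ closedBall (0 : E n) (ρ2 / 2), φ1 x = 0 := by
    intro x hx
    by_cases hx2 : x ∈ ball (0 : E n) ρ2
    · simp only [hφ1def, Set.indicator_of_mem hx2]
      by_contra hne
      apply hx
      rw [mem_closedBall_zero_iff]
      exact hφ1ne x hx2 hne
    · simp only [hφ1def, Set.indicator_of_notMem hx2]
  have hφ0h : ∀ x ∉ closedBall (0 : E n) (ρ2 / 2), φ x = 0 := by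
    intro x hx
    apply hφ0
    intro hx'
    exact hx (closedBall_subset_closedBall (by linarith) hx')
  -- classes
  have nlg : NLc Λ' (K1 n Λ' κ) (ball (0 : E n) ρ2) g := by
    have h1 := hg.nlc hΛ hκ isOpen_ball
    refine h1.mono hΛ0 (by linarith) ?_ (fun x hx => bρr (bρ22 hx))
    unfold K1
    have hle : Λ ≤ Λ' := by linarith
    have h2 : Λ ^ 2 ≤ Λ' ^ 2 := pow_le_pow_left₀ hΛ0.le hle 2
    have h3 : Λ ^ 3 ≤ Λ' ^ 3 := pow_le_pow_left₀ hΛ0.le hle 3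
    have h4 : κ * Λ ^ 2 ≤ κ * Λ' ^ 2 := mul_le_mul_of_nonneg_left h2 hκ
    have h5 : 5 * (n : ℝ) ^ 6 * Λ ^ 3 ≤ 5 * (n : ℝ) ^ 6 * Λ' ^ 3 :=
      mul_le_mul_of_nonneg_left h3 (by positivity)
    linarith
  have nlp : NLc Λ' (K1 n Λ' κ) (ball (0 : E n) ρ2) (pb Φ g') :=
    (hMSpb.nlc hΛ' hκ isOpen_ball).mono (by linarith) le_rfl le_rfl bρ22
  -- integrals
  have I1 : ∫ x in ball (0 : E n) r, φ' x * dn 2 g' x
      = ∫ x in ball (0 : E n) ρ2, φ1 x * dn 2 (pb Φ g') x := by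
    have hss : Φ '' ball 0 ρ2 ⊆ ball (0 : E n) r := by
      rintro _ ⟨x, hx, rfl⟩
      exact b8 (hΦp x (bρ22 hx)).2.1
    rw [setIntegral_eq_of_subset_of_forall_sdiff_eq_zero measurableSet_ball hss]
    · rw [integral_pb (U := ball 0 r) (V := ball 0 ρ2) isOpen_ball isOpen_ball hΦ.contDiffOn
        (fun x hx => b8 (hΦp x (bρ22 hx)).2.1) hinj hg'.sm hg'.sym
        (fun x hx => (posDef_of hΛ0 (hg'.sym x hx) (hg'.lo x hx)).det_pos) hjac φ']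
      refine setIntegral_congr_fun measurableSet_ball fun x hx => ?_
      simp only [hφ1def, Set.indicator_of_mem hx]
    · intro x hx
      rw [hφ0' x (fun h => hx.2 (hsub h)), zero_mul]
  have I2 : ∫ x in ball (0 : E n) r, φ x * dn 2 g x
      = ∫ x in ball (0 : E n) ρ2, φ x * dn 2 g x := by
    refine setIntegral_eq_of_subset_of_forall_sdiff_eq_zero measurableSet_ball
      (fun x hx => bρr (bρ22 hx)) ?_
    intro x hx
    rw [hφ0h x, zero_mul]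
    intro h
    apply hx.2
    rw [mem_closedBall_zero_iff] at h
    rw [mem_ball_zero_iff]
    linarith
  -- first estimate
  have hD1 : (0 : ℝ) < (2 * C1 + 1) * ε := by positivity
  have est1 := Hcl 0 g (pb Φ g') nlg nlp ((2 * C1 + 1) * ε) hD1 (by linarith)
    (fun x hx i j => by
      refine (entry_diff (hg.sym x (bρr (bρ22 hx))) (hMSpb.sym x (bρ22 hx))
        (hqd x (bρ22 hx)) i j).trans ?_
      have : (2 * C1 + 1) * ε = 2 * (C1 * ε) + ε := by ring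
      linarith)
    ⟨(L : ℝ) * (2 * Λ) + 2 / ρ2, hL1n⟩ φ1 hφ1L hφ1b hφ10
  have hsqrt : Real.sqrt ((2 * C1 + 1) * ε) = Real.sqrt (2 * C1 + 1) * η ^ (1 / 4 : ℝ) := by
    rw [Real.sqrt_mul (by positivity)]
    congr 1
    rw [hεdef, Real.sqrt_eq_rpow, Real.sqrt_eq_rpow, ← Real.rpow_mul hη.le]
    norm_num
  -- second estimate
  have est2 := Hdm 0 g nlg (fun x => φ x - φ1 x) (hφL.continuous.sub hφ1L.continuous)
    (fun x hx => by rw [hφ0h x hx, hφ10 x hx, sub_zero]) ((L : ℝ) * (1 + C1) * η)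
    (fun x => by
      by_cases hx : x ∈ ball (0 : E n) ρ2
      · have h1 : φ1 x = φ' (Φ x) := by simp only [hφ1def, Set.indicator_of_mem hx]
        have h2 := hφφ' x (bρ2 (bρ22 hx))
        have h6 := hΦF x (bρ22 hx)
        rw [norm_sub_rev, hεη] at h6
        have h3 := (hLip' (F x) (Φ x)).trans (mul_le_mul_of_nonneg_left h6 hLn)
        rw [h1]
        exact sup_arith hLn h2 h3
      · have h1 : φ1 x = 0 := by simp only [hφ1def, Set.indicator_of_notMem hx]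
        have h2 : φ x = 0 := by
          apply hφ0h
          intro h
          apply hx
          rw [mem_closedBall_zero_iff] at h
          rw [mem_ball_zero_iff]
          linarith
        rw [h1, h2, sub_zero, abs_zero]
        positivity)
  have hint1 := int_cut hΛ' (by linarith : ρ2 / 2 < ρ2) nlg hφL.continuous hφ1 hφ0h
  have hint2 := int_cut hΛ' (by linarith : ρ2 / 2 < ρ2) nlg hφ1L.continuous hφ1b hφ10
  have hsplit : ∫ x in ball (0 : E n) ρ2, (φ x - φ1 x) * dn 2 g x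
      = (∫ x in ball (0 : E n) ρ2, φ x * dn 2 g x) - ∫ x in ball (0 : E n) ρ2, φ1 x * dn 2 g x := by
    rw [← integral_sub hint1 hint2]
    refine setIntegral_congr_fun measurableSet_ball fun x _ => ?_
    ring
  rw [hsplit] at est2
  rw [I1, I2]
  rw [hsqrt] at est1
  have hη4 : η ≤ η ^ (1 / 4 : ℝ) := by
    conv_lhs => rw [← Real.rpow_one η]
    exact Real.rpow_le_rpow_of_exponent_ge hη hη1 (by norm_num)
  exact fin_arith hΛ hC1 hC2 hC3 hLn hρ20 (by positivity) (Real.sqrt_nonneg _) hη.le hη4 est1 est2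

end Pool.H68.LV
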