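import Pool.Agent.H68.LV.Cal2

/-!
# Module CRV: Christoffel symbols and curvature of a smooth symmetric metric field

Write C_j = CC g j, Γ_j = GG g j = g^(-1) C_j, all at points of the open set U.
(1) mpd i g = C_i + C_i^T: (C_i)_kl + (C_i)_lk = d_i g_kl by symmetry of g.
(2) (C_j)_kl = (C_l)_kj, so (Γ_j)_pl = (Γ_l)_pj.
(3) g d_iΓ_j = d_i C_j - (d_i g) Γ_j (differentiate C_j = g Γ_j), hence
g (d_iΓ_j - d_jΓ_i + Γ_iΓ_j - Γ_jΓ_i) = d_iC_j - d_jC_i - (C_i + C_i^T)Γ_j + (C_j + C_j^T)Γ_i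
+ C_iΓ_j - C_jΓ_i = RR g i j.
(4) entries: (d_iC_j - d_jC_i)_kl = 1/2 (d_i d_l g_jk - d_i d_k g_jl - d_j d_l g_ik + d_j d_k g_il)
(pd_comm) and (C_i^T g^(-1) C_j)_kl = sum_pq g^pq Γ_(p,ik) Γ_(q,jl). From this all symmetries of
Curv can be read off (linear_combination after expanding; the quadratic part is
Q_ijkl = - B_(ik),(jl) + B_(jk),(il) with B_(ik),(jl) symmetric in i <-> k, in j <-> l and
under the exchange of the two pairs).
-/

open Matrix
open scoped ContDiff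

noncomputable section
namespace Pool.H68.LV

variable {n : ℕ} {U : Set (E n)} {g : E n → Mat n}

theorem pd_congr_on (hU : IsOpen U) {f f' : E n → ℝ} (h : ∀ y ∈ U, f y = f' y) {x : E n}
    (hx : x ∈ U) (i : Fin n) : pd i f x = pd i f' x := by
  have h1 : f =ᶠ[nhds x] f' := by
    filter_upwards [hU.mem_nhds hx] with y hy
    exact h y hy
  simp only [pd, h1.fderiv_eq]

theorem mpd_congr_on {α β : Type} (hU : IsOpen U) {X Y : E n → Matrix α β ℝ}
    (h : ∀ y ∈ U, X y = Y y) {x : E n} (hx : x ∈ U) (i : Fin n) : mpd i X x = mpd i Y x := by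
  ext a b
  exact pd_congr_on hU (fun y hy => by rw [h y hy]) hx i

private theorem pd_sy (hU : IsOpen U) (hs : ∀ x ∈ U, (g x)ᵀ = g x)
    {x : E n} (hx : x ∈ U) (i k l : Fin n) :
    pd i (fun y => g y k l) x = pd i (fun y => g y l k) x :=
  pd_congr_on hU (fun y hy => by
    have := congrFun (congrFun (hs y hy) l) k
    exact this) hx i

private theorem inv_sy (hs : ∀ x ∈ U, (g x)ᵀ = g x) {x : E n} (hx : x ∈ U) :
    ((g x)⁻¹)ᵀ = (g x)⁻¹ := by
  rw [Matrix.transpose_nonsing_inv, hs x hx]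

theorem mpd_metric (hU : IsOpen U) (hg : Sm U g) (hs : ∀ x ∈ U, (g x)ᵀ = g x)
    {x : E n} (hx : x ∈ U) (i : Fin n) : mpd i g x = CC g i x + (CC g i x)ᵀ := by
  ext k l
  show pd i (fun y => g y k l) x = 1 / 2 * (pd i (fun y => g y k l) x + pd l (fun y => g y k i) x
    - pd k (fun y => g y i l) x) + 1 / 2 * (pd i (fun y => g y l k) x + pd k (fun y => g y l i) x
    - pd l (fun y => g y i k) x)
  rw [pd_sy hU hs hx i l k, pd_sy hU hs hx k l i, pd_sy hU hs hx l k i]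
  ring

theorem CC_symm (hU : IsOpen U) (hg : Sm U g) (hs : ∀ x ∈ U, (g x)ᵀ = g x)
    {x : E n} (hx : x ∈ U) (j k l : Fin n) : CC g j x k l = CC g l x k j := by
  show 1 / 2 * (pd j (fun y => g y k l) x + pd l (fun y => g y k j) x
    - pd k (fun y => g y j l) x) = 1 / 2 * (pd l (fun y => g y k j) x + pd j (fun y => g y k l) x
    - pd k (fun y => g y l j) x)
  rw [pd_sy hU hs hx k j l]
  ring

theorem GG_symm (hU : IsOpen U) (hg : Sm U g) (hs : ∀ x ∈ U, (g x)ᵀ = g x)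
    {x : E n} (hx : x ∈ U) (j p l : Fin n) : GG g j x p l = GG g l x p j := by
  rw [GG, GG, Matrix.mul_apply, Matrix.mul_apply]
  refine Finset.sum_congr rfl fun k _ => ?_
  rw [CC_symm hU hg hs hx j k l]

theorem GG_trace (hU : IsOpen U) (hg : Sm U g) (hs : ∀ x ∈ U, (g x)ᵀ = g x)
    (hd : ∀ x ∈ U, (g x).det ≠ 0) {x : E n} (hx : x ∈ U) (i : Fin n) :
    (GG g i x).trace = 1 / 2 * ((g x)⁻¹ * mpd i g x).trace := by
  rw [mpd_metric hU hg hs hx i, mul_add, Matrix.trace_add]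
  have h : ((g x)⁻¹ * (CC g i x)ᵀ).trace = ((g x)⁻¹ * CC g i x).trace := by
    rw [← Matrix.trace_transpose, Matrix.transpose_mul, transpose_transpose, inv_sy hs hx,
      Matrix.trace_mul_comm]
  rw [h, GG]
  ring

/-- F_ij = d_i Gamma_j - d_j Gamma_i + [Gamma_i, Gamma_j]. -/
private def FF (g : E n → Mat n) (i j : Fin n) (x : E n) : Mat n :=
  mpd i (GG g j) x - mpd j (GG g i) x + GG g i x * GG g j x - GG g j x * GG g i x

private theorem g_GG (hd : ∀ x ∈ U, (g x).det ≠ 0) {x : E n} (hx : x ∈ U) (j : Fin n) :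
    g x * GG g j x = CC g j x := by
  rw [GG, ← mul_assoc, Matrix.mul_nonsing_inv _ (isUnit_iff_ne_zero.mpr (hd x hx)), one_mul]

private theorem abs_RR {R : Type*} [Ring R] {g di dj Gi Gj Ci Cj Cit Cjt Dij Dji : R}
    (h1 : g * di = Dij - (Ci + Cit) * Gj) (h2 : g * dj = Dji - (Cj + Cjt) * Gi)
    (h3 : g * Gi = Ci) (h4 : g * Gj = Cj) :
    g * (di - dj + Gi * Gj - Gj * Gi) = Dij - Dji - Cit * Gj + Cjt * Gi := by
  have e : g * (di - dj + Gi * Gj - Gj * Gi) = g * di - g * dj + (g * Gi) * Gj - (g * Gj) * Gi := by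
    noncomm_ring
  rw [e, h1, h2, h3, h4]
  noncomm_ring

theorem RR_eq (hU : IsOpen U) (hg : Sm U g) (hs : ∀ x ∈ U, (g x)ᵀ = g x)
    (hd : ∀ x ∈ U, (g x).det ≠ 0) {x : E n} (hx : x ∈ U) (i j : Fin n) :
    RR g x i j = g x * (mpd i (GG g j) x - mpd j (GG g i) x
      + GG g i x * GG g j x - GG g j x * GG g i x) := by
  have key : ∀ i j : Fin n, g x * mpd i (GG g j) x
      = mpd i (CC g j) x - (CC g i x + (CC g i x)ᵀ) * GG g j x := by
    intro i j
    have h1 : mpd i (CC g j) x = mpd i g x * GG g j x + g x * mpd i (GG g j) x := by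
      rw [← mpd_mul i (hg.da hU hx) ((GG_sm hU hg hd j).da hU hx)]
      exact mpd_congr_on hU (fun y hy => (g_GG hd hy j).symm) hx i
    rw [h1, ← mpd_metric hU hg hs hx i]
    abel
  rw [abs_RR (key i j) (key j i) (g_GG hd hx i) (g_GG hd hx j)]
  rw [RR, GG, GG, mul_assoc, mul_assoc]

/-- Second derivatives of the metric. -/
private def S4 (g : E n → Mat n) (x : E n) (i j k l : Fin n) : ℝ :=
  pd i (pd j (fun y => g y k l)) x

/-- The quadratic terms. -/
private def B4 (g : E n → Mat n) (x : E n) (i k j l : Fin n) : ℝ :=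
  ((CC g i x)ᵀ * (g x)⁻¹ * CC g j x) k l

private theorem S4_12 (hU : IsOpen U) (hg : Sm U g) {x : E n} (hx : x ∈ U) (i j k l : Fin n) :
    S4 g x i j k l = S4 g x j i k l := pd_comm hU (hg k l) hx i j

private theorem S4_34 (hU : IsOpen U) (hs : ∀ x ∈ U, (g x)ᵀ = g x) {x : E n} (hx : x ∈ U)
    (i j k l : Fin n) : S4 g x i j k l = S4 g x i j l k :=
  pd_congr_on hU (fun y hy => pd_sy hU hs hy j k l) hx i

private theorem B4_apply (g : E n → Mat n) (x : E n) (i k j l : Fin n) :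
    B4 g x i k j l = ∑ q, (∑ p, CC g i x p k * (g x)⁻¹ p q) * CC g j x q l := by
  rw [B4, Matrix.mul_apply]
  refine Finset.sum_congr rfl fun q _ => ?_
  rw [Matrix.mul_apply]
  rfl

private theorem B4_12 (hU : IsOpen U) (hg : Sm U g) (hs : ∀ x ∈ U, (g x)ᵀ = g x) {x : E n}
    (hx : x ∈ U) (i k j l : Fin n) : B4 g x i k j l = B4 g x k i j l := by
  rw [B4_apply, B4_apply]
  refine Finset.sum_congr rfl fun q _ => ?_
  congr 1
  refine Finset.sum_congr rfl fun p _ => ?_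
  rw [CC_symm hU hg hs hx i p k]

private theorem B4_34 (hU : IsOpen U) (hg : Sm U g) (hs : ∀ x ∈ U, (g x)ᵀ = g x) {x : E n}
    (hx : x ∈ U) (i k j l : Fin n) : B4 g x i k j l = B4 g x i k l j := by
  rw [B4_apply, B4_apply]
  refine Finset.sum_congr rfl fun q _ => ?_
  rw [CC_symm hU hg hs hx j q l]

private theorem B4_pair (hs : ∀ x ∈ U, (g x)ᵀ = g x) {x : E n}
    (hx : x ∈ U) (i k j l : Fin n) : B4 g x i k j l = B4 g x j l i k := by
  have h : ((CC g i x)ᵀ * (g x)⁻¹ * CC g j x)ᵀ = (CC g j x)ᵀ * (g x)⁻¹ * CC g i x := by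
    rw [Matrix.transpose_mul, Matrix.transpose_mul, transpose_transpose, inv_sy hs hx, mul_assoc]
  rw [B4, B4, ← h]
  rfl

private theorem mCC (hU : IsOpen U) (hg : Sm U g) {x : E n} (hx : x ∈ U) (i j k l : Fin n) :
    mpd i (CC g j) x k l = 1 / 2 * (S4 g x i j k l + S4 g x i l k j - S4 g x i k j l) := by
  have hd : ∀ a b c, DifferentiableAt ℝ (pd a fun y => g y b c) x := fun a b c =>
    ((pd_contDiffOn hU (hg b c) a).contDiffAt (hU.mem_nhds hx)).differentiableAt (by simp)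
  show pd i (fun y => 1 / 2 * (pd j (fun y => g y k l) y + pd l (fun y => g y k j) y
    - pd k (fun y => g y j l) y)) x = _
  refine (pd_const_mul i _ (f := fun y => pd j (fun y => g y k l) y + pd l (fun y => g y k j) y
    - pd k (fun y => g y j l) y) (((hd j k l).add (hd l k j)).sub (hd k j l))).trans ?_
  congr 1
  refine (pd_sub i (f := fun y => pd j (fun y => g y k l) y + pd l (fun y => g y k j) y)
    (g := fun y => pd k (fun y => g y j l) y) ((hd j k l).add (hd l k j)) (hd k j l)).trans ?_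
  congr 1
  exact pd_add i (hd j k l) (hd l k j)

private theorem RR_ent (hU : IsOpen U) (hg : Sm U g) {x : E n} (hx : x ∈ U) (i j k l : Fin n) :
    RR g x i j k l = 1 / 2 * (S4 g x i j k l + S4 g x i l k j - S4 g x i k j l)
      - 1 / 2 * (S4 g x j i k l + S4 g x j l k i - S4 g x j k i l)
      - B4 g x i k j l + B4 g x j k i l := by
  rw [← mCC hU hg hx, ← mCC hU hg hx]
  rfl

theorem RR_curv (hU : IsOpen U) (hg : Sm U g) (hs : ∀ x ∈ U, (g x)ᵀ = g x)
    (hd : ∀ x ∈ U, (g x).det ≠ 0) {x : E n} (hx : x ∈ U) : Curv (RR g x) := by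
  have s12 := S4_12 hU hg hx
  have s34 := S4_34 hU hs hx
  have b12 := B4_12 hU hg hs hx
  have b34 := B4_34 hU hg hs hx
  have bp := B4_pair hs hx
  refine ⟨fun i j k l => ?_, fun i j k l => ?_, fun i j k l => ?_, fun i j k l => ?_⟩
  · rw [RR_ent hU hg hx, RR_ent hU hg hx]
    ring
  · rw [RR_ent hU hg hx, RR_ent hU hg hx]
    linarith [s12 i j l k, s12 i j k l, s34 i k l j, s34 i l j k, s34 j k l i, s34 j l i k,
      bp i l j k, bp j l i k]
  · rw [RR_ent hU hg hx, RR_ent hU hg hx]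
    linarith [s12 k l i j, s12 i j k l, s12 k j i l, s12 k i l j, s34 i k l j, s12 l j i k,
      s34 j l i k, s12 l i k j, b12 k i l j, b34 i k l j, b12 l i k j, b34 i l k j, bp i l j k]
  · rw [RR_ent hU hg hx, RR_ent hU hg hx, RR_ent hU hg hx]
    linarith [s12 j i k l, s12 k j i l, s12 k i j l, s34 i l k j, s34 j l i k, s34 k l j i,
      b12 i j k l, b12 k i j l, b12 k j i l]

private theorem FF_sm (hU : IsOpen U) (hg : Sm U g) (hd : ∀ x ∈ U, (g x).det ≠ 0) (i j : Fin n) :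
    Sm U (FF g i j) :=
  ((((GG_sm hU hg hd j).mpd hU i).sub ((GG_sm hU hg hd i).mpd hU j)).add
    ((GG_sm hU hg hd i).mul (GG_sm hU hg hd j))).sub
    ((GG_sm hU hg hd j).mul (GG_sm hU hg hd i))

private theorem mFF (hU : IsOpen U) (hg : Sm U g) (hd : ∀ x ∈ U, (g x).det ≠ 0) {x : E n}
    (hx : x ∈ U) (m i j : Fin n) :
    mpd m (FF g i j) x = mpd m (mpd i (GG g j)) x - mpd m (mpd j (GG g i)) x
      + (mpd m (GG g i) x * GG g j x + GG g i x * mpd m (GG g j) x)
      - (mpd m (GG g j) x * GG g i x + GG g j x * mpd m (GG g i) x) := by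
  have s1 := (GG_sm hU hg hd j).mpd hU i
  have s2 := (GG_sm hU hg hd i).mpd hU j
  have si := GG_sm hU hg hd i
  have sj := GG_sm hU hg hd j
  have e1 := mpd_sub m (((s1.sub s2).add (si.mul sj)).da hU hx) ((sj.mul si).da hU hx)
  have e2 := mpd_add m ((s1.sub s2).da hU hx) ((si.mul sj).da hU hx)
  have e3 := mpd_sub m (s1.da hU hx) (s2.da hU hx)
  have e4 := mpd_mul m (si.da hU hx) (sj.da hU hx)
  have e5 := mpd_mul m (sj.da hU hx) (si.da hU hx)
  rw [e2, e3, e4, e5] at e1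
  exact e1

private theorem abs_B {R : Type*} [Ring R] {g Gm Gt F D : R} :
    ((g * Gm + Gt * g) * F + g * D) - Gt * (g * F) - (g * F) * Gm
      = g * (D + Gm * F - F * Gm) := by
  noncomm_ring

private theorem abs_B2 {R : Type*} [Ring R] {A B C Amb Amc Abm Abc Acm Acb X1 X2 X3 : R} :
    ((X1 - X2 + (Amb * C + B * Amc) - (Amc * B + C * Amb))
      + A * (Abc - Acb + B * C - C * B) - (Abc - Acb + B * C - C * B) * A)
    + ((X3 - X1 + (Abc * A + C * Abm) - (Abm * C + A * Abc))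
      + B * (Acm - Amc + C * A - A * C) - (Acm - Amc + C * A - A * C) * B)
    + ((X2 - X3 + (Acm * B + A * Acb) - (Acb * A + B * Acm))
      + C * (Amb - Abm + A * B - B * A) - (Amb - Abm + A * B - B * A) * C) = 0 := by
  noncomm_ring

private theorem DR (hU : IsOpen U) (hg : Sm U g) (hs : ∀ x ∈ U, (g x)ᵀ = g x)
    (hd : ∀ x ∈ U, (g x).det ≠ 0) {x : E n} (hx : x ∈ U) (m i j : Fin n) :
    mpd m (fun y => RR g y i j) x - (GG g m x)ᵀ * RR g x i j - RR g x i j * GG g m x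
      = g x * (mpd m (FF g i j) x + GG g m x * FF g i j x - FF g i j x * GG g m x) := by
  have e1 : mpd m (fun y => RR g y i j) x = mpd m g x * FF g i j x + g x * mpd m (FF g i j) x := by
    rw [mpd_congr_on hU (fun y hy => RR_eq hU hg hs hd hy i j) hx m]
    exact mpd_mul m (hg.da hU hx) ((FF_sm hU hg hd i j).da hU hx)
  have e2 : mpd m g x = g x * GG g m x + (GG g m x)ᵀ * g x := by
    rw [mpd_metric hU hg hs hx m, g_GG hd hx]
    congr 1
    rw [← g_GG hd hx m, Matrix.transpose_mul, hs x hx]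
  have e3 : RR g x i j = g x * FF g i j x := RR_eq hU hg hs hd hx i j
  rw [e1, e2, e3, abs_B]

/-- The second Bianchi identity. With F_ij = d_iΓ_j - d_jΓ_i + [Γ_i, Γ_j] one has RR = g F,
d_m g = g Γ_m + Γ_m^T g, so the left side is g times the cyclic sum of d_m F_ij + [Γ_m, F_ij],
which vanishes identically (d_m d_i Γ_j = d_i d_m Γ_j by mpd_comm; then noncomm_ring). -/
theorem RR_bianchi (hU : IsOpen U) (hg : Sm U g) (hs : ∀ x ∈ U, (g x)ᵀ = g x)
    (hd : ∀ x ∈ U, (g x).det ≠ 0) {x : E n} (hx : x ∈ U) (m i j : Fin n) :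
    (mpd m (fun y => RR g y i j) x - (GG g m x)ᵀ * RR g x i j - RR g x i j * GG g m x)
    + (mpd i (fun y => RR g y j m) x - (GG g i x)ᵀ * RR g x j m - RR g x j m * GG g i x)
    + (mpd j (fun y => RR g y m i) x - (GG g j x)ᵀ * RR g x m i - RR g x m i * GG g j x)
    = 0 := by
  rw [DR hU hg hs hd hx m i j, DR hU hg hs hd hx i j m, DR hU hg hs hd hx j m i, ← mul_add,
    ← mul_add]
  rw [mFF hU hg hd hx m i j, mFF hU hg hd hx i j m, mFF hU hg hd hx j m i,
    mpd_comm hU (GG_sm hU hg hd j) hx i m, mpd_comm hU (GG_sm hU hg hd i) hx j m,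
    mpd_comm hU (GG_sm hU hg hd m) hx j i]
  simp only [FF]
  rw [abs_B2, mul_zero]

end Pool.H68.LV
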