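import Pool.Agent.H68.LV.Mas

/-!
# Module CTN: continuity of the localised functional for smooth test functions

Path g_s = g + s (g' - g) in NLc Λ K (ball z b) (NLc.convex), h = g' - g, |entries| <= D.
f(s) = int φ dn 2 g_s; by variation (k = 2; the interval from det_path_pos), dh_bound (if 4 < n;
for n = 4 the coefficient vanishes), dHh_bound, and mass with the radii a'' = (a+b)/2 < b:
|f'(s)| <= C A D sum_(i <= 2) int_(ball z a'') dnh i g_s <= C' A D. Mean value inequality.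
Second statement: |int φ dn 2 g| <= A int_(ball z a) |dn 2 g| <= C A (dn_bound, mass).
-/

open Matrix MeasureTheory Metric
open scoped ContDiff

noncomputable section
namespace Pool.H68.LV

private theorem dHh_zero {n : ℕ} (k : ℕ) (g h : E n → Mat n) (χ : E n → ℝ) (x : E n)
    (hx : x ∉ tsupport χ) : dHh k g χ h x = 0 := by
  have h0 : χ =ᶠ[nhds x] fun _ => 0 := notMem_tsupport_iff_eventuallyEq.mp hx
  have h1 : ∀ p, pd p χ =ᶠ[nhds x] fun _ => 0 := by
    intro p
    filter_upwards [h0.eventuallyEq_nhds] with y hy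
    rw [pd, hy.fderiv_eq]
    simp
  have h2 : ∀ i p, pd i (pd p χ) x = 0 := by
    intro i p
    rw [pd, (h1 p).fderiv_eq]
    simp
  have h3 : Hs g χ x = 0 := by
    ext i j
    simp [Hs, h2, (h1 _).eq_of_nhds]
  have h4 : Pool.H68.LV.h2 (0 : Mat n) = 0 := by simp [Pool.H68.LV.h2]
  rw [dHh, h3, h4]
  simp [bt]

/-- Sums of masses. -/
private theorem sum_mass {n : ℕ} {Λ K a'' b M : ℝ} (hΛ : 1 ≤ Λ) (hK : 0 ≤ K) (hab : a'' < b)
    {z : E n} (hM : ∀ (z : E n) (g : E n → Mat n), NLc Λ K (ball z b) g → ∀ j : ℕ, j ≤ 2 →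
      ∫ x in ball z a'', dnh (K2 n Λ K) j g x ≤ M)
    {g : E n → Mat n} (hg : NLc Λ K (ball z b) g) (m : ℕ) (hm : m ≤ 3) (f : E n → ℝ) (c : ℝ)
    (hc : 0 ≤ c) (hM0 : 0 ≤ M) (h0 : ∀ x ∈ ball z b, x ∉ ball z a'' → f x = 0)
    (hf : ∀ x ∈ ball z b, |f x| ≤ c * ∑ a ∈ Finset.range m, dnh (K2 n Λ K) a g x) :
    |∫ x in ball z b, f x| ≤ c * (3 * M) := by
  have hsub : ball z a'' ⊆ ball z b := ball_subset_ball hab.le
  have h3 : ∫ x in ball z b, f x = ∫ x in ball z a'', f x :=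
    setIntegral_eq_of_subset_of_forall_sdiff_eq_zero measurableSet_ball hsub
      fun x hx => h0 x hx.1 hx.2
  have inta : ∀ a ∈ Finset.range m, IntegrableOn (dnh (K2 n Λ K) a g) (ball z a'') :=
    fun a _ => dnh_integrableOn n Λ K a'' b hΛ hK hab z g hg a
  have hint : Integrable (fun x => c * ∑ a ∈ Finset.range m,
      dnh (K2 n Λ K) a g x) (volume.restrict (ball z a'')) :=
    (integrable_finsetSum _ inta).const_mul _
  have h4 : ‖∫ x in ball z a'', f x‖
      ≤ ∫ x in ball z a'', c * ∑ a ∈ Finset.range m, dnh (K2 n Λ K) a g x := by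
    refine norm_integral_le_of_norm_le hint ?_
    filter_upwards [ae_restrict_mem measurableSet_ball] with x hx
    rw [Real.norm_eq_abs]
    exact hf x (hsub hx)
  rw [integral_const_mul, integral_finsetSum _ inta, Real.norm_eq_abs] at h4
  rw [h3]
  refine h4.trans (mul_le_mul_of_nonneg_left ?_ hc)
  have h5 : ∑ a ∈ Finset.range m, ∫ x in ball z a'', dnh (K2 n Λ K) a g x
      ≤ ∑ _a ∈ Finset.range m, M :=
    Finset.sum_le_sum fun a ha => hM z g hg a (by have := Finset.mem_range.mp ha; omega)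
  refine h5.trans ?_
  rw [Finset.sum_const, Finset.card_range, nsmul_eq_mul]
  have : (m : ℝ) ≤ 3 := by exact_mod_cast hm
  exact mul_le_mul_of_nonneg_right this hM0


theorem cont_smooth (n : ℕ) (Λ K a b : ℝ) (hn : 4 ≤ n) (hΛ : 1 ≤ Λ) (hK : 0 ≤ K) (ha : 0 < a)
    (hab : a < b) : ∃ C : ℝ, 0 ≤ C ∧ ∀ (z : E n) (g g' : E n → Mat n),
      NLc Λ K (ball z b) g → NLc Λ K (ball z b) g' → ∀ D : ℝ,
      (∀ x ∈ ball z b, ∀ i j, |g' x i j - g x i j| ≤ D) →
      ∀ φ : E n → ℝ, ContDiff ℝ ∞ φ → (∀ x ∉ closedBall z a, φ x = 0) → ∀ A : ℝ,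
      (∀ x, |φ x| ≤ A) → (∀ x i, |pd i φ x| ≤ A) → (∀ x i j, |pd i (pd j φ) x| ≤ A) →
      |(∫ x in ball z b, φ x * dn 2 g' x) - ∫ x in ball z b, φ x * dn 2 g x| ≤ C * A * D := by
  obtain ⟨Cd, hCd, Hd⟩ := dh_bound n Λ K hΛ hK
  obtain ⟨Ch, hCh, Hh⟩ := dHh_bound n Λ K hΛ hK
  have haa : a < (a + b) / 2 := by linarith
  have hab' : (a + b) / 2 < b := by linarith
  obtain ⟨M, hM0, hM⟩ := mass n Λ K ((a + b) / 2) b hn hΛ hK (by linarith) hab'
  refine ⟨n * (Cd * (3 * M)) + Ch * (3 * M), by positivity, ?_⟩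
  intro z g g' hg hg' D hD φ hφ hφ0 A hA hA1 hA2
  have hU : IsOpen (ball z b) := isOpen_ball
  have hsub : ball z ((a + b) / 2) ⊆ ball z b := ball_subset_ball hab'.le
  have hzb : z ∈ ball z b := mem_ball_self (by linarith)
  have hD0 : 0 ≤ D := (abs_nonneg _).trans (hD z hzb ⟨0, by omega⟩ ⟨0, by omega⟩)
  have hA0 : 0 ≤ A := (abs_nonneg _).trans (hA z)
  have hts : tsupport φ ⊆ closedBall z a := by
    refine closure_minimal ?_ isClosed_closedBall
    intro x hx
    by_contra hx'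
    exact hx (hφ0 x hx')
  have hcs : HasCompactSupport φ :=
    (isCompact_closedBall z a).of_isClosed_subset (isClosed_tsupport φ) hts
  have hcU : tsupport φ ⊆ ball z b := hts.trans (closedBall_subset_ball hab)
  have hts' : tsupport φ ⊆ ball z ((a + b) / 2) := hts.trans (closedBall_subset_ball haa)
  obtain ⟨α, β, hα, hβ, hdet⟩ := det_path_pos hΛ hg hg'
  set gs : ℝ → E n → Mat n := fun s x => g x + s • (g' x - g x) with hgs
  set h : E n → Mat n := fun x => g' x - g x with hh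
  have hcl : ∀ s ∈ Set.Icc (0 : ℝ) 1, NLc Λ K (ball z b) (gs s) := fun s hs =>
    NLc.convex hU hg hg' hs.1 hs.2
  have hhsm : Sm (ball z b) h := hg'.sm.sub hg.sm
  have hhs : ∀ x ∈ ball z b, (h x)ᵀ = h x := fun x hx => by
    simp only [hh, transpose_sub, hg.sym x hx, hg'.sym x hx]
  have hhH : ∀ x ∈ ball z b, ∀ i j, |h x i j| ≤ D := hD
  set f : ℝ → ℝ := fun s => ∫ x in ball z b, φ x * dn 2 (gs s) x with hf
  set f' : ℝ → ℝ := fun s => ((n : ℝ) - 2 * (2 : ℕ)) / 2 *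
      (∫ x in ball z b, φ x * dh 2 (gs s) h x)
        - ((2 : ℕ) : ℝ) / 2 * ∫ x in ball z b, dHh 2 (gs s) φ h x with hf'
  have hder : ∀ s ∈ Set.Icc (0 : ℝ) 1, HasDerivAt f (f' s) s := fun s hs =>
    variation hU hg.sm hg.sym hhsm hhs hdet φ hφ hcs hcU 2 (by omega)
      ⟨by linarith [hs.1], by linarith [hs.2]⟩
  have hbd : ∀ s ∈ Set.Ico (0 : ℝ) 1, ‖f' s‖ ≤ (n * (Cd * (3 * M)) + Ch * (3 * M)) * A * D := by
    intro s hs
    have hs' : s ∈ Set.Icc (0 : ℝ) 1 := ⟨hs.1, hs.2.le⟩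
    have hc := hcl s hs'
    have dn0 : ∀ m : ℕ, m ≤ 3 → ∀ x ∈ ball z b,
        0 ≤ ∑ a ∈ Finset.range m, dnh (K2 n Λ K) a (gs s) x := fun m hm x hx =>
      Finset.sum_nonneg fun a ha => dnh_nonneg hΛ hK hU hc hx a
        (by have := Finset.mem_range.mp ha; omega)
    have t1 : |((n : ℝ) - 2 * (2 : ℕ)) / 2 * (∫ x in ball z b, φ x * dh 2 (gs s) h x)|
        ≤ n * (Cd * (3 * M)) * A * D := by
      by_cases h4 : 2 * 2 < n
      · have hb := Hd (ball z b) (gs s) hU hc h hhs D hhH 2 le_rfl h4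
        have e1 := sum_mass hΛ hK hab' hM hc 3 le_rfl (fun x => φ x * dh 2 (gs s) h x)
          (A * (Cd * D)) (by positivity) hM0
          (fun x _ hx => by
            rw [image_eq_zero_of_notMem_tsupport (fun h => hx (hts' h)), zero_mul])
          (fun x hx => by
            rw [abs_mul, mul_assoc]
            exact mul_le_mul (hA x) (hb x hx) (abs_nonneg _) hA0)
        rw [abs_mul]
        have h5 : |((n : ℝ) - 2 * (2 : ℕ)) / 2| ≤ n := by
          have : (4 : ℝ) < n := by exact_mod_cast h4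
          push_cast
          rw [abs_of_nonneg (by linarith)]
          linarith
        calc _ ≤ (n : ℝ) * (A * (Cd * D) * (3 * M)) :=
              mul_le_mul h5 e1 (abs_nonneg _) (Nat.cast_nonneg n)
          _ = _ := by ring
      · have h6 : (n : ℝ) - 2 * (2 : ℕ) = 0 := by
          have : n = 4 := by omega
          rw [this]; push_cast; ring
        rw [h6, zero_div, zero_mul, abs_zero]
        positivity
    have t2 : |((2 : ℕ) : ℝ) / 2 * ∫ x in ball z b, dHh 2 (gs s) φ h x|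
        ≤ Ch * (3 * M) * A * D := by
      have hb := Hh (ball z b) (gs s) hU hc h hhs D hhH φ hφ A (fun x _ => hA1 x)
        (fun x _ => hA2 x) 2 (by norm_num) le_rfl (by omega)
      have e1 := sum_mass hΛ hK hab' hM hc 2 (by norm_num) (fun x => dHh 2 (gs s) φ h x)
        (Ch * A * D) (by positivity) hM0
        (fun x _ hx => dHh_zero 2 (gs s) h φ x (fun h => hx (hts' h))) hb
      have e2 : ((2 : ℕ) : ℝ) / 2 = 1 := by norm_num
      rw [e2, one_mul]
      calc _ ≤ Ch * A * D * (3 * M) := e1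
        _ = _ := by ring
    rw [Real.norm_eq_abs]
    calc |f' s| ≤ n * (Cd * (3 * M)) * A * D + Ch * (3 * M) * A * D :=
          (abs_sub _ _).trans (add_le_add t1 t2)
      _ = _ := by ring
  have hmv := norm_image_sub_le_of_norm_deriv_le_segment_01' (f := f) (f' := f')
    (fun s hs => (hder s hs).hasDerivWithinAt) hbd
  have g0 : gs 0 = g := by
    funext x; simp only [hgs, zero_smul, add_zero]
  have g1 : gs 1 = g' := by
    funext x; simp only [hgs, one_smul, add_sub_cancel]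
  simp only [hf, g0, g1] at hmv
  rw [Real.norm_eq_abs] at hmv
  exact hmv

theorem dn_mass (n : ℕ) (Λ K a b : ℝ) (hn : 4 ≤ n) (hΛ : 1 ≤ Λ) (hK : 0 ≤ K) (ha : 0 < a)
    (hab : a < b) : ∃ C : ℝ, 0 ≤ C ∧ ∀ (z : E n) (g : E n → Mat n), NLc Λ K (ball z b) g →
      ∀ φ : E n → ℝ, Continuous φ → (∀ x ∉ closedBall z a, φ x = 0) → ∀ A : ℝ,
      (∀ x, |φ x| ≤ A) → |∫ x in ball z b, φ x * dn 2 g x| ≤ C * A := by
  obtain ⟨Cn, hCn, Hn⟩ := dn_bound n Λ K hΛ hK
  have haa : a < (a + b) / 2 := by linarith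
  have hab' : (a + b) / 2 < b := by linarith
  obtain ⟨M, hM0, hM⟩ := mass n Λ K ((a + b) / 2) b hn hΛ hK (by linarith) hab'
  refine ⟨Cn * (3 * M), by positivity, ?_⟩
  intro z g hg φ hφ hφ0 A hA
  have hU : IsOpen (ball z b) := isOpen_ball
  have hA0 : 0 ≤ A := (abs_nonneg _).trans (hA z)
  have hb := Hn (ball z b) g hU hg 2 le_rfl (by omega)
  have e1 := sum_mass hΛ hK hab' hM hg 3 le_rfl (fun x => φ x * dn 2 g x)
    (A * Cn) (by positivity) hM0
    (fun x _ hx => by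
      rw [hφ0 x (fun h => hx (closedBall_subset_ball haa h)), zero_mul])
    (fun x hx => by
      rw [abs_mul, mul_assoc]
      exact mul_le_mul (hA x) (hb x hx) (abs_nonneg _) hA0)
  calc _ ≤ A * Cn * (3 * M) := e1
    _ = _ := by ring

end Pool.H68.LV
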