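import Pool.Agent.H68.LV.Mlf

/-!
# Module CUT: cutoff functions and mollification of Lipschitz functions

cutoff: translate one ContDiffBump (centre 0, radii a' < b' with a < a' < b' < b); its first two
derivatives are bounded (continuous, compact support) and pd commutes with translations.
mollify_lip: rho a fixed ContDiffBump at 0 with radii 1/2, 1, normalised (ContDiffBump.normed),
rho_τ(y) = τ^(-n) rho(y/τ), ψ = φ * rho_τ (convolution). |ψ - φ| <= L τ, |ψ| <= 1, ψ is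
L-Lipschitz so |pd ψ| <= L; pd_i pd_j ψ = pd_j φ-type difference: write
pd_i ψ(x) = int (pd_i rho_τ)(y) (φ(x - y) - φ(x)) dy, or: ψ's gradient is a convolution and
|pd_i(pd_j ψ)(x)| <= int |pd_i pd_j rho_τ|(y) |φ(x-y) - φ(x)| dy <= L τ * C τ^(-2)
(the integral of pd_i pd_j rho_τ is 0).
-/

open MeasureTheory Metric
open scoped ContDiff NNReal

noncomputable section
namespace Pool.H68.LV

variable {n : ℕ}

private theorem pd_shift (f : E n → ℝ) (z : E n) (i : Fin n) (x : E n) :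
    pd i (fun y => f (y - z)) x = pd i f (x - z) := by
  rw [pd, fderiv_comp_sub]
  rfl

private theorem bdd_all {f : E n → ℝ} (hf : ContDiff ℝ ∞ f) (hc : HasCompactSupport f) :
    ∃ A : ℝ, 0 ≤ A ∧ (∀ x i, |pd i f x| ≤ A) ∧ ∀ x i j, |pd i (pd j f) x| ≤ A := by
  have h1 : ∀ i, ∃ C, ∀ x, ‖pd i f x‖ ≤ C := by
    intro i
    apply Continuous.bounded_above_of_compact_support
    · exact (hf.continuous_fderiv (by simp)).clm_apply continuous_const
    · exact hc.fderiv_apply (𝕜 := ℝ) (ee i)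
  have h2 : ∀ i j, ∃ C, ∀ x, ‖pd i (pd j f) x‖ ≤ C := by
    intro i j
    have hj : ContDiff ℝ ∞ (pd j f) :=
      contDiffOn_univ.mp (pd_contDiffOn isOpen_univ hf.contDiffOn j)
    have hcj : HasCompactSupport (pd j f) := hc.fderiv_apply (𝕜 := ℝ) (ee j)
    apply Continuous.bounded_above_of_compact_support
    · exact (hj.continuous_fderiv (by simp)).clm_apply continuous_const
    · exact hcj.fderiv_apply (𝕜 := ℝ) (ee i)
  choose C1 hC1 using h1
  choose C2 hC2 using h2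
  have n1 : 0 ≤ ∑ i, |C1 i| := Finset.sum_nonneg fun i _ => abs_nonneg _
  have n2 : 0 ≤ ∑ i, ∑ j, |C2 i j| :=
    Finset.sum_nonneg fun i _ => Finset.sum_nonneg fun j _ => abs_nonneg _
  refine ⟨(∑ i, |C1 i|) + (∑ i, ∑ j, |C2 i j|), by linarith, fun x i => ?_, fun x i j => ?_⟩
  · have e1 := Finset.single_le_sum (f := fun i => |C1 i|) (fun i _ => abs_nonneg _)
      (Finset.mem_univ i)
    have e2 := hC1 i x
    rw [Real.norm_eq_abs] at e2
    have e3 := le_abs_self (C1 i)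
    linarith
  · have e1 := Finset.single_le_sum (f := fun i => ∑ j, |C2 i j|)
      (fun i _ => Finset.sum_nonneg fun j _ => abs_nonneg _) (Finset.mem_univ i)
    have e2 := Finset.single_le_sum (f := fun j => |C2 i j|) (fun j _ => abs_nonneg _)
      (Finset.mem_univ j)
    have e3 := hC2 i j x
    rw [Real.norm_eq_abs] at e3
    have e4 := le_abs_self (C2 i j)
    linarith

private theorem pd_le_of_lip {f : E n → ℝ} {C : ℝ} (hC : 0 ≤ C)
    (h : ∀ x y, |f x - f y| ≤ C * ‖x - y‖) (x : E n) (i : Fin n) : |pd i f x| ≤ C := by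
  have hl : LipschitzWith ⟨C, hC⟩ f := LipschitzWith.of_dist_le_mul fun x y => by
    rw [Real.dist_eq, dist_eq_norm]
    exact h x y
  have h1 : ‖fderiv ℝ f x‖ ≤ C := norm_fderiv_le_of_lipschitz ℝ hl
  have h2 := (fderiv ℝ f x).le_opNorm (ee i : E n)
  have h3 : ‖(ee i : E n)‖ = 1 := by simp [ee]
  rw [h3, mul_one, Real.norm_eq_abs] at h2
  exact h2.trans h1

theorem cutoff (n : ℕ) (a b : ℝ) (ha : 0 < a) (hab : a < b) : ∃ A : ℝ, 0 ≤ A ∧
    ∀ z : E n, ∃ χ : E n → ℝ, ContDiff ℝ ∞ χ ∧ HasCompactSupport χ ∧ (∀ x, 0 ≤ χ x) ∧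
      (∀ x, χ x ≤ 1) ∧ (∀ x ∈ closedBall z a, χ x = 1) ∧ tsupport χ ⊆ ball z b ∧
      (∀ x i, |pd i χ x| ≤ A) ∧ (∀ x i j, |pd i (pd j χ) x| ≤ A) := by
  let f : ContDiffBump (0 : E n) := ⟨a, (a + b) / 2, ha, by linarith⟩
  have hf : ContDiff ℝ ∞ f := f.contDiff
  obtain ⟨A, hA, h1, h2⟩ := bdd_all hf f.hasCompactSupport
  refine ⟨A, hA, fun z => ⟨fun x => f (x - z), ?_, ?_, fun x => f.nonneg, fun x => f.le_one, ?_,
    ?_, ?_, ?_⟩⟩
  · exact hf.comp (contDiff_id.sub contDiff_const)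
  · exact f.hasCompactSupport.comp_homeomorph (Homeomorph.subRight z)
  · intro x hx
    apply f.one_of_mem_closedBall
    rw [mem_closedBall, dist_zero_right]
    rwa [mem_closedBall, dist_eq_norm] at hx
  · have hsub : Function.support (fun x => f (x - z)) ⊆ closedBall z ((a + b) / 2) := by
      intro x hx
      have hx' : x - z ∈ Function.support f := hx
      rw [f.support_eq, mem_ball, dist_zero_right] at hx'
      rw [mem_closedBall, dist_eq_norm]
      exact hx'.le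
    have h3 : tsupport (fun x => f (x - z)) ⊆ closedBall z ((a + b) / 2) :=
      closure_minimal hsub isClosed_closedBall
    exact h3.trans (closedBall_subset_ball (by linarith))
  · intro x i
    rw [pd_shift]
    exact h1 _ _
  · intro x i j
    have e : pd j (fun x => f (x - z)) = fun y => pd j f (y - z) := by
      funext y
      exact pd_shift f z j y
    rw [e, pd_shift]
    exact h2 _ _ _

theorem mollify_lip (n : ℕ) : ∃ C : ℝ, 0 ≤ C ∧ ∀ (L : ℝ≥0) (φ : E n → ℝ), LipschitzWith L φ →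
    (∀ x, |φ x| ≤ 1) → ∀ τ : ℝ, 0 < τ → τ ≤ 1 → ∃ ψ : E n → ℝ, ContDiff ℝ ∞ ψ ∧
      (∀ x, |ψ x - φ x| ≤ L * τ) ∧ (∀ x, |ψ x| ≤ 1) ∧ (∀ x i, |pd i ψ x| ≤ L) ∧
      (∀ x i j, |pd i (pd j ψ) x| ≤ C * L / τ) ∧
      (∀ x, (∀ y ∈ closedBall x τ, φ y = 0) → ψ x = 0) := by
  obtain ⟨C, hC, hC1, -⟩ := ker_const n
  refine ⟨C, by linarith, fun L φ hφ hb τ hτ _ => ?_⟩
  have hk := rho_ker n
  -- the scaled function
  set f : E n → ℝ := fun z => φ (τ • z) with hf
  have hfl : LipschitzWith (L * ⟨τ, hτ.le⟩) f := by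
    refine LipschitzWith.of_dist_le_mul fun x y => ?_
    have h1 := hφ.dist_le_mul (τ • x) (τ • y)
    have h2 : dist (τ • x) (τ • y) = τ * dist x y := by
      rw [dist_smul₀, Real.norm_of_nonneg hτ.le]
    rw [h2] at h1
    calc dist (f x) (f y) ≤ L * (τ * dist x y) := h1
      _ = ((L * ⟨τ, hτ.le⟩ : ℝ≥0) : ℝ) * dist x y := by
        push_cast
        show (L : ℝ) * (τ * dist x y) = L * τ * dist x y
        ring
  have hcoe : ((L * ⟨τ, hτ.le⟩ : ℝ≥0) : ℝ) = L * τ := by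
    push_cast
    rfl
  have hli : LocallyIntegrable f := hfl.continuous.locallyIntegrable
  set Ψ : E n → ℝ := cv f (rho n) with hΨ
  have sΨ : ContDiff ℝ ∞ Ψ := cv_sm hli hk
  have hL0 : (0 : ℝ) ≤ L * τ := mul_nonneg L.2 hτ.le
  have hfb : ∀ x, |f x| ≤ 1 := fun x => hb _
  have k1 : ∀ x, |Ψ x - f x| ≤ L * τ := by
    intro x
    have e : Ψ x - f x = cv (fun y => f y - f x) (rho n) x := by
      rw [cv_sub hli (continuous_const.locallyIntegrable) hk, cv_const, rho_int, mul_one]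
    rw [e]
    have := cv_bound (f := fun y => f y - f x) hk (x := x) (B := L * τ) (fun y hy => by
      have h1 := hfl.dist_le_mul y x
      rw [Real.dist_eq, hcoe] at h1
      rw [mem_closedBall] at hy
      exact h1.trans (mul_le_of_le_one_right hL0 hy))
    rwa [rho_abs, mul_one] at this
  have k2 : ∀ x, |Ψ x| ≤ 1 := by
    intro x
    have := cv_bound (f := f) hk (x := x) (B := 1) (fun y _ => hfb y)
    rwa [rho_abs, mul_one] at this
  have k3 : ∀ x i, |pd i Ψ x| ≤ L * τ := by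
    refine fun x i => pd_le_of_lip hL0 (fun x y => ?_) x i
    have := cv_lip hk hfl x y
    rwa [rho_abs, mul_one, hcoe] at this
  have k4 : ∀ x i j, |pd i (pd j Ψ) x| ≤ L * τ * C := by
    intro x i j
    refine pd_le_of_lip (mul_nonneg hL0 (by linarith)) (fun x y => ?_) x i
    rw [pd_cv hli hk, pd_cv hli hk]
    have h1 := cv_lip (hk.pd j) hfl x y
    rw [hcoe] at h1
    refine h1.trans (mul_le_mul_of_nonneg_right ?_ (norm_nonneg _))
    exact mul_le_mul_of_nonneg_left (hC1 j) hL0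
  have hτi : τ * τ⁻¹ = 1 := mul_inv_cancel₀ hτ.ne'
  have hfx : ∀ x, f (τ⁻¹ • x) = φ x := by
    intro x
    rw [hf]
    show φ (τ • τ⁻¹ • x) = φ x
    rw [smul_smul, hτi, one_smul]
  refine ⟨fun x => Ψ (τ⁻¹ • x), sΨ.comp (contDiff_const_smul _), fun x => ?_, fun x => k2 _,
    fun x i => ?_, fun x i j => ?_, fun x hx => ?_⟩
  · have := k1 (τ⁻¹ • x)
    rwa [hfx] at this
  · rw [pd_scale sΨ, abs_mul, abs_of_pos (inv_pos.mpr hτ)]
    calc τ⁻¹ * |pd i Ψ (τ⁻¹ • x)| ≤ τ⁻¹ * (L * τ) :=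
          mul_le_mul_of_nonneg_left (k3 _ _) (inv_nonneg.mpr hτ.le)
      _ = L := by field_simp
  · rw [pd_pd_scale sΨ, abs_mul, abs_of_nonneg (sq_nonneg τ⁻¹)]
    calc τ⁻¹ ^ 2 * |pd i (pd j Ψ) (τ⁻¹ • x)| ≤ τ⁻¹ ^ 2 * (L * τ * C) :=
          mul_le_mul_of_nonneg_left (k4 _ _ _) (sq_nonneg _)
      _ = C * L / τ := by field_simp
  · apply cv_zero hk
    intro y hy
    apply hx
    rw [mem_closedBall, dist_eq_norm] at hy ⊢
    have e : τ • y - x = τ • (y - τ⁻¹ • x) := by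
      rw [smul_sub, smul_smul, hτi, one_smul]
    rw [e, norm_smul, Real.norm_of_nonneg hτ.le]
    exact mul_le_of_le_one_right hτ.le hy

end Pool.H68.LV
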