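import Pool.Agent.H68.LV.Dlo
import Pool.Agent.H68.LV.Cvx
import Pool.Agent.H68.LV.Qf

/-!
# Module DEX: distances in a uniformly Lipschitz chart

Write d for the distance of M, ψ = e.symm, |.| Euclidean.
cov: dist_lower with z = 0, R = r/2, G = 1, c = Λ^(-1/2), x = 0, m = R: r/(4Λ) < c R. The point y has
|y| <= Λ^(1/2) d <= Λ d, and e q = y.
bil: upper: dist_le_segment, qf <= Λ |v|^2. Lower: z = 0, R = 3r/4, G = 1, c = Λ^(-1/2),
m = R - |x| >= r/2: if d < c m then (injectivity on the target) c |y - x| <= d; otherwise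
d >= c r/2 >= c |x - y|.
exp: G = gT e z. Mean value (lip): |entries of gT e y - G| <= sqrt(n) Λ |y - z| on the ball 0 r (convex),
so |qf (gT e y) v - qf G v| <= n^2 Λ |y - z| |v|^2 <= C |y - z| qf G v with C = n^2 Λ^2. R = (4Λ + 1) h
(<= r/2 for h <= h0), c^2 = 1 - C R >= 1/2 for h <= h0. Upper: d <= sqrt((1 + C h) qf G (y - x)).
For |y' - z| = R: sqrt (qf G (y' - x)) >= Λ^(-1/2) (R - h) = 4 Λ^(1/2) h =: m, c m >= 2.8 Λ^(1/2) h,
and d <= Λ^(1/2) |x - y| <= 2 Λ^(1/2) h < c m. So dist_lower gives d^2 >= (1 - C R) qf G (y - x).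
Both errors are <= C' h * 4 Λ h^2.
-/

open MeasureTheory Manifold Bundle Set Metric
open scoped ContDiff

noncomputable section
namespace Pool.H68.LV

/-- A chart with uniform bounds. -/
structure GoodCh {n : ℕ} {M : Type} [MetricSpace M] [ChartedSpace (E n) M]
    [IsManifold 𝓘(ℝ, E n) ∞ M]
    [RiemannianBundle (fun x : M => TangentSpace 𝓘(ℝ, E n) x)]
    (r Λ : ℝ) (e : OpenPartialHomeomorph M (E n)) : Prop where
  atlas : e ∈ IsManifold.maximalAtlas 𝓘(ℝ, E n) ∞ M
  target : ball (0 : E n) r ⊆ e.target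
  lo : ∀ y ∈ ball (0 : E n) r, ∀ v : E n, Λ⁻¹ * ‖v‖ ^ 2 ≤ qf (gT e y) v
  up : ∀ y ∈ ball (0 : E n) r, ∀ v : E n, qf (gT e y) v ≤ Λ * ‖v‖ ^ 2
  lip : ∀ y ∈ ball (0 : E n) r, ∀ k i j, |pd k (fun z => gT e z i j) y| ≤ Λ

private theorem seg_bound {n : ℕ} {M : Type} [MetricSpace M]
    [ChartedSpace (E n) M] [IsManifold 𝓘(ℝ, E n) ∞ M]
    [RiemannianBundle (fun x : M => TangentSpace 𝓘(ℝ, E n) x)]
    [IsContMDiffRiemannianBundle 𝓘(ℝ, E n) ∞ (E n) (fun x : M => TangentSpace 𝓘(ℝ, E n) x)]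
    [IsRiemannianManifold 𝓘(ℝ, E n) M] {e : OpenPartialHomeomorph M (E n)}
    (he : e ∈ IsManifold.maximalAtlas 𝓘(ℝ, E n) ∞ M) {x y : E n}
    (h : segment ℝ x y ⊆ e.target) {K : ℝ} (hK : 0 ≤ K)
    (hb : ∀ w ∈ segment ℝ x y, qf (gT e w) (y - x) ≤ K ^ 2) :
    dist (e.symm x) (e.symm y) ≤ K := by
  refine (dist_le_segment he h).trans ?_
  have h1 : ‖∫ t in (0 : ℝ)..1, Real.sqrt (qf (gT e (x + t • (y - x))) (y - x))‖
      ≤ K * |1 - 0| := by
    refine intervalIntegral.norm_integral_le_of_norm_le_const (fun t ht => ?_)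
    rw [Set.uIoc_of_le zero_le_one] at ht
    rw [Real.norm_eq_abs, abs_of_nonneg (Real.sqrt_nonneg _)]
    refine Real.sqrt_le_iff.2 ⟨hK, hb _ ?_⟩
    rw [segment_eq_image']
    exact ⟨t, ⟨ht.1.le, ht.2⟩, rfl⟩
  rw [sub_zero, abs_one, mul_one] at h1
  exact (le_abs_self _).trans h1

theorem qf_gT_diff {n : ℕ} {M : Type} [MetricSpace M]
    [ChartedSpace (E n) M] [IsManifold 𝓘(ℝ, E n) ∞ M]
    [RiemannianBundle (fun x : M => TangentSpace 𝓘(ℝ, E n) x)]
    [IsContMDiffRiemannianBundle 𝓘(ℝ, E n) ∞ (E n) (fun x : M => TangentSpace 𝓘(ℝ, E n) x)]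
    {e : OpenPartialHomeomorph M (E n)} {r Λ : ℝ} (he : GoodCh r Λ e) {w z : E n}
    (hw : w ∈ ball (0 : E n) r) (hz : z ∈ ball (0 : E n) r) (v : E n) :
    |qf (gT e w) v - qf (gT e z) v| ≤ (n : ℝ) ^ 3 * Λ * ‖w - z‖ * ‖v‖ ^ 2 := by
  have hΛ0 : 0 ≤ Λ ∨ n = 0 := by
    rcases Nat.eq_zero_or_pos n with h | h
    · exact Or.inr h
    · exact Or.inl ((abs_nonneg _).trans (he.lip w hw ⟨0, h⟩ ⟨0, h⟩ ⟨0, h⟩))
  have hent : ∀ i j, |gT e w i j - gT e z i j| ≤ n * Λ * ‖w - z‖ := by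
    intro i j
    have hΛ0 : 0 ≤ Λ := (abs_nonneg _).trans (he.lip w hw i i i)
    have hd : ∀ y ∈ ball (0 : E n) r, DifferentiableAt ℝ (fun y => gT e y i j) y := fun y hy =>
      ((gT_sm he.atlas i j).contDiffAt (e.open_target.mem_nhds (he.target hy))).differentiableAt
        (by simp)
    have hb : ∀ y ∈ ball (0 : E n) r, ‖fderiv ℝ (fun y => gT e y i j) y‖ ≤ n * Λ := by
      intro y hy
      refine ContinuousLinearMap.opNorm_le_bound _ (by positivity) (fun u => ?_)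
      conv_lhs => rw [sum_ee u]
      rw [map_sum]
      refine (norm_sum_le _ _).trans ((Finset.sum_le_sum (g := fun _ => Λ * ‖u‖) fun k _ => ?_).trans
        (le_of_eq ?_))
      · rw [map_smul, smul_eq_mul, norm_mul, mul_comm]
        exact mul_le_mul (he.lip y hy k i j) (abs_apply_le u k) (norm_nonneg _) hΛ0
      · rw [Finset.sum_const, Finset.card_univ, Fintype.card_fin, nsmul_eq_mul]
        ring
    exact (convex_ball (0 : E n) r).norm_image_sub_le_of_norm_fderiv_le hd hb hz hw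
  rcases hΛ0 with hΛ0 | hn
  · rw [qf, qf, ← Finset.sum_sub_distrib]
    refine (Finset.abs_sum_le_sum_abs _ _).trans ((Finset.sum_le_sum
      (g := fun _ => (n : ℝ) * (n * Λ * ‖w - z‖ * ‖v‖ ^ 2)) fun i _ => ?_).trans (le_of_eq ?_))
    · rw [← Finset.sum_sub_distrib]
      refine (Finset.abs_sum_le_sum_abs _ _).trans ((Finset.sum_le_sum
        (g := fun _ => n * Λ * ‖w - z‖ * ‖v‖ ^ 2) fun j _ => ?_).trans (le_of_eq ?_))
      · rw [← sub_mul, ← sub_mul, abs_mul, abs_mul, mul_assoc, sq]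
        refine mul_le_mul (hent i j) ?_ (by positivity) (by positivity)
        exact mul_le_mul (abs_apply_le v i) (abs_apply_le v j) (abs_nonneg _) (norm_nonneg _)
      · rw [Finset.sum_const, Finset.card_univ, Fintype.card_fin, nsmul_eq_mul]
    · rw [Finset.sum_const, Finset.card_univ, Fintype.card_fin, nsmul_eq_mul]
      ring
  · subst hn
    simp [qf]

theorem chart_cov (n : ℕ) (r Λ : ℝ) (hr : 0 < r) (hΛ : 1 ≤ Λ) (M : Type) [MetricSpace M]
    [ChartedSpace (E n) M] [IsManifold 𝓘(ℝ, E n) ∞ M]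
    [RiemannianBundle (fun x : M => TangentSpace 𝓘(ℝ, E n) x)]
    [IsContMDiffRiemannianBundle 𝓘(ℝ, E n) ∞ (E n) (fun x : M => TangentSpace 𝓘(ℝ, E n) x)]
    [IsRiemannianManifold 𝓘(ℝ, E n) M]
    (e : OpenPartialHomeomorph M (E n)) (he : GoodCh r Λ e) (q : M)
    (hq : dist (e.symm 0) q < r / (4 * Λ)) :
    q ∈ e.source ∧ ‖e q‖ ≤ Λ * dist (e.symm 0) q := by
  have hΛ0 : 0 < Λ := by linarith
  set s := Real.sqrt Λ with hs
  have hs0 : 0 < s := Real.sqrt_pos.2 hΛ0
  have hs2 : s ^ 2 = Λ := Real.sq_sqrt hΛ0.le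
  have hs1 : 1 ≤ s := by
    by_contra h
    push Not at h
    nlinarith
  have hsΛ : s ≤ Λ := by nlinarith
  have hR : closedBall (0 : E n) (r / 2) ⊆ e.target :=
    (closedBall_subset_ball (by linarith)).trans he.target
  obtain ⟨y, hy, hyq, h1⟩ := dist_lower he.atlas hR 1 Matrix.PosDef.one (c := s⁻¹) (by positivity)
    (by
      intro y hy v
      rw [qf_one, inv_pow, hs2]
      exact he.lo y (closedBall_subset_ball (by linarith) hy) v) (x := 0)
    (mem_ball_self (by positivity)) (m := r / 2)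
    (by
      intro y hy
      rw [qf_one, Real.sqrt_sq (norm_nonneg _), hy]) (q := q)
    (by
      refine hq.trans_le ?_
      rw [div_le_iff₀ (by positivity)]
      have : s⁻¹ * (r / 2) * (4 * Λ) = 2 * r * s := by
        rw [← hs2]; field_simp; ring
      rw [this]
      nlinarith)
  rw [qf_one, Real.sqrt_sq (norm_nonneg _), sub_zero, inv_mul_le_iff₀ hs0] at h1
  have hyt : y ∈ e.target := hR (ball_subset_closedBall hy)
  rw [← hyq]
  rw [← hyq] at h1
  refine ⟨e.map_target hyt, ?_⟩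
  rw [e.right_inv hyt]
  exact h1.trans (mul_le_mul_of_nonneg_right hsΛ dist_nonneg)

theorem chart_bil (n : ℕ) (r Λ : ℝ) (hr : 0 < r) (hΛ : 1 ≤ Λ) (M : Type) [MetricSpace M]
    [ChartedSpace (E n) M] [IsManifold 𝓘(ℝ, E n) ∞ M]
    [RiemannianBundle (fun x : M => TangentSpace 𝓘(ℝ, E n) x)]
    [IsContMDiffRiemannianBundle 𝓘(ℝ, E n) ∞ (E n) (fun x : M => TangentSpace 𝓘(ℝ, E n) x)]
    [IsRiemannianManifold 𝓘(ℝ, E n) M]
    (e : OpenPartialHomeomorph M (E n)) (he : GoodCh r Λ e) :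
    ∀ x ∈ ball (0 : E n) (r / 4), ∀ y ∈ ball (0 : E n) (r / 4),
      ‖x - y‖ ≤ Λ * dist (e.symm x) (e.symm y) ∧ dist (e.symm x) (e.symm y) ≤ Λ * ‖x - y‖ := by
  have hΛ0 : 0 < Λ := by linarith
  set s := Real.sqrt Λ with hs
  have hs0 : 0 < s := Real.sqrt_pos.2 hΛ0
  have hs2 : s ^ 2 = Λ := Real.sq_sqrt hΛ0.le
  have hs1 : 1 ≤ s := by
    by_contra h
    push Not at h
    nlinarith
  have hsΛ : s ≤ Λ := by nlinarith
  intro x hx y hy
  have hx' : ‖x‖ < r / 4 := by simpa using hx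
  have hy' : ‖y‖ < r / 4 := by simpa using hy
  constructor
  · have hR : closedBall (0 : E n) (3 * r / 4) ⊆ e.target :=
      (closedBall_subset_ball (by linarith)).trans he.target
    rcases lt_or_ge (dist (e.symm x) (e.symm y)) (s⁻¹ * (3 * r / 4 - ‖x‖)) with h | h
    · obtain ⟨y', hy1, hyq, h1⟩ := dist_lower he.atlas hR 1 Matrix.PosDef.one (c := s⁻¹)
        (by positivity)
        (by
          intro y hy v
          rw [qf_one, inv_pow, hs2]
          exact he.lo y (closedBall_subset_ball (by linarith) hy) v) (x := x)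
        (by rw [mem_ball_zero_iff]; linarith) (m := 3 * r / 4 - ‖x‖)
        (by
          intro y hy
          rw [qf_one, Real.sqrt_sq (norm_nonneg _)]
          rw [sub_zero] at hy
          have := norm_sub_norm_le y x
          linarith) (q := e.symm y) h
      have hyt : y ∈ e.target := he.target (by rw [mem_ball_zero_iff]; linarith)
      have hyt' : y' ∈ e.target := hR (ball_subset_closedBall hy1)
      have hyy : y' = y := by rw [← e.right_inv hyt', hyq, e.right_inv hyt]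
      rw [hyy, qf_one, Real.sqrt_sq (norm_nonneg _), inv_mul_le_iff₀ hs0, norm_sub_rev] at h1
      exact h1.trans (mul_le_mul_of_nonneg_right hsΛ dist_nonneg)
    · have h1 : ‖x - y‖ ≤ r / 2 := (norm_sub_le x y).trans (by linarith)
      have h2 : s⁻¹ * (r / 2) ≤ dist (e.symm x) (e.symm y) :=
        (mul_le_mul_of_nonneg_left (by linarith) (by positivity)).trans h
      rw [inv_mul_le_iff₀ hs0] at h2
      exact h1.trans (h2.trans (mul_le_mul_of_nonneg_right hsΛ dist_nonneg))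
  · have hseg : segment ℝ x y ⊆ ball 0 r :=
      ((convex_ball (0 : E n) (r / 4)).segment_subset hx hy).trans (ball_subset_ball (by linarith))
    have h1 := seg_bound he.atlas (hseg.trans he.target) (K := s * ‖y - x‖) (by positivity) (by
      intro w hw
      rw [mul_pow, hs2]
      exact he.up w (hseg hw) _)
    rw [norm_sub_rev] at h1
    exact h1.trans (mul_le_mul_of_nonneg_right hsΛ (norm_nonneg _))

theorem chart_exp (n : ℕ) (r Λ : ℝ) (hr : 0 < r) (hΛ : 1 ≤ Λ) :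
    ∃ C0 : ℝ, 0 ≤ C0 ∧ ∃ h0 : ℝ, 0 < h0 ∧ ∀ (M : Type) [MetricSpace M]
      [ChartedSpace (E n) M] [IsManifold 𝓘(ℝ, E n) ∞ M]
      [RiemannianBundle (fun x : M => TangentSpace 𝓘(ℝ, E n) x)]
      [IsContMDiffRiemannianBundle 𝓘(ℝ, E n) ∞ (E n) (fun x : M => TangentSpace 𝓘(ℝ, E n) x)]
      [IsRiemannianManifold 𝓘(ℝ, E n) M]
      (e : OpenPartialHomeomorph M (E n)), GoodCh r Λ e →
      ∀ z ∈ ball (0 : E n) (r / 8), ∀ h, 0 < h → h ≤ h0 → ∀ x ∈ closedBall z h,
        ∀ y ∈ closedBall z h,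
        |dist (e.symm x) (e.symm y) ^ 2 - qf (gT e z) (x - y)| ≤ C0 * h ^ 3 := by
  have hΛ0 : 0 < Λ := by linarith
  set s := Real.sqrt Λ with hs
  have hs0 : 0 < s := Real.sqrt_pos.2 hΛ0
  have hs2 : s ^ 2 = Λ := Real.sq_sqrt hΛ0.le
  obtain ⟨C, hC⟩ : ∃ C : ℝ, C = (n : ℝ) ^ 3 * Λ * Λ := ⟨_, rfl⟩
  have hC0 : 0 ≤ C := by rw [hC]; positivity
  refine ⟨C * (4 * Λ + 1) * Λ * 4, by positivity,
    min (r / (4 * (4 * Λ + 1))) (1 / (2 * (C + 1) * (4 * Λ + 1))), lt_min (by positivity) (by positivity),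
    ?_⟩
  intro M _ _ _ _ _ _ e he z hz h hh hh0 x hx y hy
  have hz' : ‖z‖ < r / 8 := by simpa using hz
  have hzr : z ∈ ball (0 : E n) r := by rw [mem_ball_zero_iff]; linarith
  have hzt : z ∈ e.target := he.target hzr
  have hG : (gT e z).PosDef := gT_pos he.atlas hzt
  set G := gT e z with hGd
  obtain ⟨R, hRd⟩ : ∃ R : ℝ, R = (4 * Λ + 1) * h := ⟨_, rfl⟩
  have hR1 : R ≤ r / 4 := by
    have h1 := hh0.trans (min_le_left _ _)
    rw [le_div_iff₀ (by positivity)] at h1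
    rw [hRd]; linarith
  have hR2 : C * R ≤ 1 / 2 := by
    have h1 := hh0.trans (min_le_right _ _)
    rw [le_div_iff₀ (by positivity)] at h1
    rw [hRd]
    have h2 : 0 ≤ (4 * Λ + 1) * h := by positivity
    nlinarith
  have hhR : h < R := by rw [hRd]; nlinarith
  have hxz : ‖x - z‖ ≤ h := by rw [← dist_eq_norm]; exact hx
  have hyz : ‖y - z‖ ≤ h := by rw [← dist_eq_norm]; exact hy
  have hyx : ‖y - x‖ ≤ 2 * h := by
    have : y - x = (y - z) - (x - z) := by abel
    rw [this]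
    exact (norm_sub_le _ _).trans (by linarith)
  have hcb : closedBall z R ⊆ ball (0 : E n) r := by
    intro w hw
    rw [mem_closedBall, dist_eq_norm] at hw
    rw [mem_ball_zero_iff]
    have : w = (w - z) + z := by abel
    rw [this]
    exact (norm_add_le _ _).trans_lt (by linarith)
  have hqG0 : ∀ v, 0 ≤ qf G v := fun v => (by positivity : (0 : ℝ) ≤ Λ⁻¹ * ‖v‖ ^ 2).trans (he.lo z hzr v)
  have hdiff : ∀ w ∈ closedBall z R, ∀ v, |qf (gT e w) v - qf G v| ≤ C * ‖w - z‖ * qf G v := by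
    intro w hw v
    refine (qf_gT_diff he (hcb hw) hzr v).trans ?_
    have h1 := he.lo z hzr v
    rw [inv_mul_le_iff₀ hΛ0] at h1
    calc (n : ℝ) ^ 3 * Λ * ‖w - z‖ * ‖v‖ ^ 2 ≤ (n : ℝ) ^ 3 * Λ * ‖w - z‖ * (Λ * qf (gT e z) v) :=
          mul_le_mul_of_nonneg_left h1 (by positivity)
      _ = C * ‖w - z‖ * qf G v := by rw [hC, hGd]; ring
  have hqu : qf G (y - x) ≤ Λ * (4 * h ^ 2) := by
    refine (he.up z hzr _).trans (mul_le_mul_of_nonneg_left ?_ hΛ0.le)
    calc ‖y - x‖ ^ 2 ≤ (2 * h) ^ 2 := pow_le_pow_left₀ (norm_nonneg _) hyx 2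
      _ = 4 * h ^ 2 := by ring
  have hsegc : segment ℝ x y ⊆ closedBall z h := (convex_closedBall z h).segment_subset hx hy
  have hsegR : segment ℝ x y ⊆ closedBall z R := hsegc.trans (closedBall_subset_closedBall hhR.le)
  have hup : dist (e.symm x) (e.symm y) ^ 2 ≤ (1 + C * h) * qf G (y - x) := by
    have h1 := seg_bound he.atlas (hsegR.trans (hcb.trans he.target))
      (K := Real.sqrt ((1 + C * h) * qf G (y - x))) (Real.sqrt_nonneg _) (by
        intro w hw
        rw [Real.sq_sqrt (mul_nonneg (by positivity) (hqG0 _))]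
        have h2 := (abs_le.1 (hdiff w (hsegR hw) (y - x))).2
        have h3 : ‖w - z‖ ≤ h := by rw [← dist_eq_norm]; exact hsegc hw
        have h4 : C * ‖w - z‖ * qf G (y - x) ≤ C * h * qf G (y - x) :=
          mul_le_mul_of_nonneg_right (mul_le_mul_of_nonneg_left h3 hC0) (hqG0 _)
        linarith)
    have h2 := pow_le_pow_left₀ dist_nonneg h1 2
    rwa [Real.sq_sqrt (mul_nonneg (by positivity) (hqG0 _))] at h2
  have hup2 : dist (e.symm x) (e.symm y) ≤ s * (2 * h) := by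
    have h1 := seg_bound he.atlas (hsegR.trans (hcb.trans he.target)) (K := s * (2 * h)) (by positivity) (by
        intro w hw
        rw [mul_pow, hs2]
        refine (he.up w (hcb (hsegR hw)) _).trans (mul_le_mul_of_nonneg_left ?_ hΛ0.le)
        exact pow_le_pow_left₀ (norm_nonneg _) hyx 2)
    exact h1
  have hc2 : 0 < 1 - C * R := by linarith
  have hlow : (1 - C * R) * qf G (y - x) ≤ dist (e.symm x) (e.symm y) ^ 2 := by
    obtain ⟨y', hy1, hyq, h1⟩ := dist_lower he.atlas (hcb.trans he.target) G hG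
      (c := Real.sqrt (1 - C * R)) (Real.sqrt_pos.2 hc2)
      (by
        intro w hw v
        rw [Real.sq_sqrt hc2.le]
        have h2 := (abs_le.1 (hdiff w hw v)).1
        have h3 : ‖w - z‖ ≤ R := by rw [← dist_eq_norm]; exact hw
        have h4 : C * ‖w - z‖ * qf G v ≤ C * R * qf G v :=
          mul_le_mul_of_nonneg_right (mul_le_mul_of_nonneg_left h3 hC0) (hqG0 _)
        linarith) (x := x)
      (by rw [mem_ball, dist_eq_norm]; linarith) (m := 4 * s * h)
      (by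
        intro w hw
        have h2 : 4 * Λ * h ≤ ‖w - x‖ := by
          have h3 : w - z = (w - x) + (x - z) := by abel
          have h4 := norm_add_le (w - x) (x - z)
          rw [← h3, hw, hRd] at h4
          linarith
        refine Real.le_sqrt_of_sq_le ?_
        refine le_trans ?_ (he.lo z hzr (w - x))
        rw [inv_mul_eq_div, le_div_iff₀ hΛ0]
        calc (4 * s * h) ^ 2 * Λ = (4 * Λ * h) ^ 2 := by rw [← hs2]; ring
          _ ≤ ‖w - x‖ ^ 2 := pow_le_pow_left₀ (by positivity) h2 2) (q := e.symm y)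
      (by
        refine hup2.trans_lt ?_
        have h2 : 1 / 2 < Real.sqrt (1 - C * R) := by
          rw [Real.lt_sqrt (by norm_num)]
          nlinarith
        have h3 : 0 < s * h := by positivity
        nlinarith)
    have hyt : y ∈ e.target :=
      he.target (hcb (hsegR (right_mem_segment ℝ x y)))
    have hyt' : y' ∈ e.target := he.target (hcb (ball_subset_closedBall hy1))
    have hyy : y' = y := by rw [← e.right_inv hyt', hyq, e.right_inv hyt]
    rw [hyy] at h1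
    have h2 := pow_le_pow_left₀ (mul_nonneg (Real.sqrt_nonneg _) (Real.sqrt_nonneg _)) h1 2
    rwa [mul_pow, Real.sq_sqrt hc2.le, Real.sq_sqrt (hqG0 _)] at h2
  have hneg : qf G (x - y) = qf G (y - x) := by rw [← qf_neg, neg_sub]
  rw [hneg, abs_le]
  have e1 : C * h * qf G (y - x) ≤ C * (4 * Λ + 1) * Λ * 4 * h ^ 3 := by
    calc C * h * qf G (y - x) ≤ C * h * (Λ * (4 * h ^ 2)) :=
          mul_le_mul_of_nonneg_left hqu (by positivity)
      _ = C * Λ * 4 * h ^ 3 * 1 := by ring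
      _ ≤ C * Λ * 4 * h ^ 3 * (4 * Λ + 1) := mul_le_mul_of_nonneg_left (by linarith) (by positivity)
      _ = _ := by ring
  have e2 : C * R * qf G (y - x) ≤ C * (4 * Λ + 1) * Λ * 4 * h ^ 3 := by
    calc C * R * qf G (y - x) ≤ C * R * (Λ * (4 * h ^ 2)) :=
          mul_le_mul_of_nonneg_left hqu (mul_nonneg hC0 (hh.le.trans hhR.le))
      _ = _ := by rw [hRd]; ring
  constructor
  · linarith
  · linarith

end Pool.H68.LV
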