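import Pool.Agent.H68.LV.Fk

/-!
# Calculus of metric fields in coordinates (definitions)
-/

open MeasureTheory Matrix
open scoped ContDiff

noncomputable section
namespace Pool.H68.LV

/-- Smooth fields of matrices. -/
def Sm {n : ℕ} {α β : Type} (U : Set (E n)) (X : E n → Matrix α β ℝ) : Prop :=
  ∀ a b, ContDiffOn ℝ ∞ (fun y => X y a b) U

/-- Christoffel symbols of the second kind: GG g j x p l = Gamma^p_(jl). -/
def GG {n : ℕ} (g : E n → Mat n) (j : Fin n) (x : E n) : Mat n := (g x)⁻¹ * CC g j x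

/-- The density factor (det g)^(-1/2). -/
def sw {n : ℕ} (g : E n → Mat n) (x : E n) : ℝ := (Real.sqrt (g x).det)⁻¹

/-- The density (det g)^(-1/2) [R^k g^(n-2k)]. -/
def dn {n : ℕ} (k : ℕ) (g : E n → Mat n) (x : E n) : ℝ :=
  sw g x * bt (h4 (RR g x) ^ k * h2 (g x) ^ (n - 2 * k))

/-- The density (det g)^(-1/2) [R^k g^(n-2k-1) h]. -/
def dh {n : ℕ} (k : ℕ) (g h : E n → Mat n) (x : E n) : ℝ :=
  sw g x * bt (h4 (RR g x) ^ k * h2 (g x) ^ (n - 2 * k - 1) * h2 (h x))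

/-- The Hessian d_i d_j phi - Gamma^p_(ij) d_p phi. -/
def Hs {n : ℕ} (g : E n → Mat n) (φ : E n → ℝ) (x : E n) : Mat n :=
  Matrix.of fun i j => pd i (pd j φ) x - ∑ p, GG g i x p j * pd p φ x

/-- The density (det g)^(-1/2) [Hess phi . h . R^(k-1) g^(n-2k)]. -/
def dHh {n : ℕ} (k : ℕ) (g : E n → Mat n) (φ : E n → ℝ) (h : E n → Mat n) (x : E n) : ℝ :=
  sw g x * bt (h2 (Hs g φ x) * h2 (h x) * h4 (RR g x) ^ (k - 1) * h2 (g x) ^ (n - 2 * k))

/-- Covariant derivatives acting on the right (left) indices of a field of double forms. -/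
def covR {n : ℕ} (G : Fin n → E n → Mat n) (X : E n → DD n) (m : Fin n) (x : E n) : DD n :=
  mpd m X x - (NR (G m x)ᵀ * X x - X x * NR (G m x)ᵀ)

def covL {n : ℕ} (G : Fin n → E n → Mat n) (X : E n → DD n) (m : Fin n) (x : E n) : DD n :=
  mpd m X x - (NL (G m x)ᵀ * X x - X x * NL (G m x)ᵀ)

/-- Exterior covariant derivatives in the left (right) form degree. -/
def dL {n : ℕ} (G : Fin n → E n → Mat n) (X : E n → DD n) (x : E n) : DD n :=
  ∑ m, Lc m * covR G X m x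

def dR {n : ℕ} (G : Fin n → E n → Mat n) (X : E n → DD n) (x : E n) : DD n :=
  ∑ m, Rc m * covL G X m x

/-- The linear part of the curvature. -/
def Rl {n : ℕ} (g : E n → Mat n) (x : E n) (i j : Fin n) : Mat n :=
  mpd i (CC g j) x - mpd j (CC g i) x

/-- The convex class: uniformly Lipschitz metric fields whose linearised sectional curvature is
bounded below. -/
structure NLc {n : ℕ} (Λ K : ℝ) (U : Set (E n)) (g : E n → Mat n) : Prop where
  sm : Sm U g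
  sym : ∀ x ∈ U, (g x)ᵀ = g x
  lo : ∀ x ∈ U, ∀ v : E n, Λ⁻¹ * ‖v‖ ^ 2 ≤ qf (g x) v
  up : ∀ x ∈ U, ∀ v : E n, qf (g x) v ≤ Λ * ‖v‖ ^ 2
  lip : ∀ x ∈ U, ∀ k i j, |pd k (fun y => g y i j) x| ≤ Λ
  lin : ∀ x ∈ U, ∀ u v : E n, ‖u‖ = 1 → ‖v‖ = 1 → inner ℝ u v = 0 → -K ≤ tq (Rl g x) u v

/-- Metric fields with sectional curvature at least -K. -/
structure MS {n : ℕ} (Λ K : ℝ) (U : Set (E n)) (g : E n → Mat n) : Prop where
  sm : Sm U g
  sym : ∀ x ∈ U, (g x)ᵀ = g x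
  lo : ∀ x ∈ U, ∀ v : E n, Λ⁻¹ * ‖v‖ ^ 2 ≤ qf (g x) v
  up : ∀ x ∈ U, ∀ v : E n, qf (g x) v ≤ Λ * ‖v‖ ^ 2
  lip : ∀ x ∈ U, ∀ k i j, |pd k (fun y => g y i j) x| ≤ Λ
  sec : ∀ x ∈ U, ∀ u v : E n,
    -K * (qf (g x) u * qf (g x) v - bf (g x) u v ^ 2) ≤ tq (RR g x) u v

/-- The pull back of a metric field. -/
def jac {n : ℕ} (Φ : E n → E n) (x : E n) : Mat n := Matrix.of fun a i => pd i (fun y => Φ y a) x

def pb {n : ℕ} (Φ : E n → E n) (g : E n → Mat n) (x : E n) : Mat n :=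
  (jac Φ x)ᵀ * g (Φ x) * jac Φ x

end Pool.H68.LV
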