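import Pool.Agent.H68.LV.Fla

/-!
# Module DIV: the divergence identity and Stokes' theorem

w = sw g. w bt(dL X) = sum_m w bt(Lc m d_m X) - w bt(Lc m [NR Γ_m^T, X]). Since NR commutes with
Lc m and bt(NR A Y) = tr(A) bt Y, bt(Y NR A) = 0, the second term is
w tr(Γ_m) bt(Lc m X) and d_m w = - tr(Γ_m) w (pd_sw, GG_trace). So
w bt(dL X) = sum_m d_m (w bt(Lc m X)).
Stokes: if the field X is smooth on U and vanishes outside a compact subset of U then
y |-> w bt(Lc m X) (extended by 0) is C^1 with compact support and its partial derivatives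
integrate to 0 (integral_fderiv_... / integral of a derivative of a compactly supported function:
integral_mul_fderiv_eq_neg_fderiv_mul_of_integrable with the constant function, or
integrate in the direction e_m by Fubini).
-/

open Matrix MeasureTheory
open scoped ContDiff

noncomputable section
namespace Pool.H68.LV

variable {n : ℕ} {U : Set (E n)} {g : E n → Mat n}

private theorem mpd_Lc (X : E n → DD n) {x : E n} (hX : DA X x) (m i : Fin n) :
    mpd m (fun y => Lc i * X y) x = Lc i * mpd m X x := by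
  rw [mpd_mul m (X := fun _ => (Lc i : DD n)) (fun _ _ => differentiableAt_const _) hX, mpd_const,
    zero_mul, zero_add]

private theorem bt_cov (G : Mat n) (D X : DD n) (m : Fin n) :
    bt (Lc m * (D - (NR Gᵀ * X - X * NR Gᵀ))) = bt (Lc m * D) - G.trace * bt (Lc m * X) := by
  have e : (Lc m : DD n) * (D - (NR Gᵀ * X - X * NR Gᵀ))
      = Lc m * D + (-1 : ℝ) • (NR Gᵀ * (Lc m * X)) + Lc m * X * NR Gᵀ := by
    rw [← mul_assoc (NR Gᵀ), NR_Lc, neg_one_smul]
    noncomm_ring
  rw [e, bt_add, bt_add, bt_smul, bt_NR, bt_mul_NR, Matrix.trace_transpose]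
  ring

private theorem bt_sum' {ι : Type*} (s : Finset ι) (f : ι → DD n) :
    bt (∑ i ∈ s, f i) = ∑ i ∈ s, bt (f i) := by
  rw [bt, Matrix.sum_apply]
  rfl

private theorem int_pd_zero {F : E n → ℝ} (hF : ContDiff ℝ ∞ F) (hc : HasCompactSupport F)
    (m : Fin n) : ∫ x, pd m F x = 0 := by
  have hd : Differentiable ℝ F := hF.differentiable (by simp)
  have hcf : Continuous (fderiv ℝ F) := hF.continuous_fderiv (by simp)
  have h1 : Integrable F := hF.continuous.integrable_of_hasCompactSupport hc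
  have h2 : Integrable (fun x => fderiv ℝ F x (ee m)) := by
    apply Continuous.integrable_of_hasCompactSupport
    · exact hcf.clm_apply continuous_const
    · exact (hc.fderiv_apply (𝕜 := ℝ) (ee m))
  have h := integral_mul_fderiv_eq_neg_fderiv_mul_of_integrable (μ := (volume : Measure (E n)))
    (f := fun _ : E n => (1 : ℝ)) (g := F) (v := ee m) (by simp) (by simpa using h2)
    (by simpa using h1) (fun _ _ => differentiableAt_const _) (fun x _ => hd x)
  simp only [one_mul, fderiv_fun_const, Pi.zero_apply, _root_.zero_apply, zero_mul,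
    integral_zero, neg_zero] at h
  exact h

private theorem glob {f : E n → ℝ} (hU : IsOpen U) (hf : ContDiffOn ℝ ∞ f U) {K : Set (E n)}
    (hK : IsCompact K) (hKU : K ⊆ U) (h0 : ∀ x ∉ K, f x = 0) : ContDiff ℝ ∞ f := by
  rw [contDiff_iff_contDiffAt]
  intro x
  by_cases hx : x ∈ K
  · exact hf.contDiffAt (hU.mem_nhds (hKU hx))
  · have : f =ᶠ[nhds x] fun _ => 0 := by
      filter_upwards [hK.isClosed.isOpen_compl.mem_nhds hx] with y hy
      exact h0 y hy
    exact contDiffAt_const.congr_of_eventuallyEq this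

theorem div_L (hU : IsOpen U) (hg : Sm U g) (hs : ∀ x ∈ U, (g x)ᵀ = g x)
    (hd : ∀ x ∈ U, 0 < (g x).det) {X : E n → DD n} {x : E n} (hx : x ∈ U) (hX : DA X x) :
    ∑ m, pd m (fun y => sw g y * bt (Lc m * X y)) x = sw g x * bt (dL (GG g) X x) := by
  have hd' : ∀ x ∈ U, (g x).det ≠ 0 := fun y hy => (hd y hy).ne'
  have hsw : DifferentiableAt ℝ (sw g) x :=
    ((sw_contDiffOn hg hd).contDiffAt (hU.mem_nhds hx)).differentiableAt (by simp)
  have hLX : ∀ m : Fin n, DA (fun y => Lc m * X y) x := fun m =>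
    DA.mul (X := fun _ => (Lc m : DD n)) (fun _ _ => differentiableAt_const _) hX
  rw [dL, bt_sum', Finset.mul_sum]
  refine Finset.sum_congr rfl fun m _ => ?_
  have h1 : pd m (fun y => sw g y * bt (Lc m * X y)) x
      = pd m (sw g) x * bt (Lc m * X x) + sw g x * bt (Lc m * mpd m X x) := by
    have hb : DifferentiableAt ℝ (fun y => bt (Lc m * X y)) x :=
      hLX m (Finset.univ, Finset.univ) (∅, ∅)
    rw [pd_mul m hsw hb, pd_bt, mpd_Lc X hX]
  rw [h1, pd_sw m (hg.da hU hx) (hd x hx), covR, bt_cov,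
    GG_trace hU hg hs hd' hx m]
  ring

theorem div_R (hU : IsOpen U) (hg : Sm U g) (hs : ∀ x ∈ U, (g x)ᵀ = g x)
    (hd : ∀ x ∈ U, 0 < (g x).det) {X : E n → DD n} {x : E n} (hx : x ∈ U) (hX : DA X x) :
    ∑ m, pd m (fun y => sw g y * bt (Rc m * X y)) x = sw g x * bt (dR (GG g) X x) := by
  have h := div_L hU hg hs hd (X := fun y => swp (X y)) hx (fun a b => hX _ _)
  rw [dR_swp, bt_swp, ← h]
  refine Finset.sum_congr rfl fun m _ => ?_
  have e : ∀ y, bt (Rc m * X y) = bt (Lc m * swp (X y)) := by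
    intro y
    rw [← bt_swp (Rc m * X y), swp_mul, swp_Rc]
  simp only [e]

/-- The integrands of Stokes' theorem are integrable. -/
theorem int_L (hU : IsOpen U) (hg : Sm U g) (hs : ∀ x ∈ U, (g x)ᵀ = g x)
    (hd : ∀ x ∈ U, 0 < (g x).det) {X : E n → DD n} (hX : Sm U X)
    {K : Set (E n)} (hK : IsCompact K) (hKU : K ⊆ U) (h0 : ∀ x ∉ K, X x = 0) :
    IntegrableOn (fun x => sw g x * bt (dL (GG g) X x)) U := by
  have hF : ∀ m : Fin n, ContDiffOn ℝ ∞ (fun y => sw g y * bt (Lc m * X y)) U := by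
    intro m
    refine (sw_contDiffOn hg hd).mul ?_
    exact (Sm.mul (Sm.const (Lc m : DD n)) hX) _ _
  have hF0 : ∀ m : Fin n, ∀ x ∉ K, sw g x * bt (Lc m * X x) = 0 := by
    intro m x hx
    rw [h0 x hx, mul_zero]
    show sw g x * 0 = 0
    rw [mul_zero]
  have hG : ∀ m : Fin n, ContDiff ℝ ∞ (fun y => sw g y * bt (Lc m * X y)) := fun m =>
    glob hU (hF m) hK hKU (hF0 m)
  have hc : ∀ m : Fin n, HasCompactSupport (fun y => sw g y * bt (Lc m * X y)) := fun m =>
    HasCompactSupport.intro hK (hF0 m)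
  have hint : ∀ m : Fin n, Integrable (pd m (fun y => sw g y * bt (Lc m * X y))) := by
    intro m
    apply Continuous.integrable_of_hasCompactSupport
    · exact ((hG m).continuous_fderiv (by simp)).clm_apply continuous_const
    · exact (hc m).fderiv_apply (𝕜 := ℝ) (ee m)
  have h1 : IntegrableOn (fun x => ∑ m, pd m (fun y => sw g y * bt (Lc m * X y)) x) U :=
    integrable_finsetSum _ (fun m _ => (hint m).integrableOn)
  refine h1.congr_fun ?_ hU.measurableSet
  intro x hx
  exact div_L hU hg hs hd hx (hX.da hU hx)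

theorem int_R (hU : IsOpen U) (hg : Sm U g) (hs : ∀ x ∈ U, (g x)ᵀ = g x)
    (hd : ∀ x ∈ U, 0 < (g x).det) {X : E n → DD n} (hX : Sm U X)
    {K : Set (E n)} (hK : IsCompact K) (hKU : K ⊆ U) (h0 : ∀ x ∉ K, X x = 0) :
    IntegrableOn (fun x => sw g x * bt (dR (GG g) X x)) U := by
  have h := int_L hU hg hs hd (X := fun y => swp (X y)) (fun a b => hX _ _) hK hKU
    (fun x hx => by rw [h0 x hx]; rfl)
  refine h.congr_fun ?_ hU.measurableSet
  intro x hx
  show sw g x * bt (dL (GG g) (fun y => swp (X y)) x) = sw g x * bt (dR (GG g) X x)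
  rw [dR_swp, bt_swp]

/-- Smooth functions with compact support in U. -/
theorem int_on (hU : IsOpen U) {f : E n → ℝ} (hf : ContDiffOn ℝ ∞ f U) {K : Set (E n)}
    (hK : IsCompact K) (hKU : K ⊆ U) (h0 : ∀ x ∉ K, f x = 0) : IntegrableOn f U :=
  ((glob hU hf hK hKU h0).continuous.integrable_of_hasCompactSupport
    (HasCompactSupport.intro hK h0)).integrableOn

theorem stokes_L (hU : IsOpen U) (hg : Sm U g) (hs : ∀ x ∈ U, (g x)ᵀ = g x)
    (hd : ∀ x ∈ U, 0 < (g x).det) {X : E n → DD n} (hX : Sm U X)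
    {K : Set (E n)} (hK : IsCompact K) (hKU : K ⊆ U) (h0 : ∀ x ∉ K, X x = 0) :
    ∫ x in U, sw g x * bt (dL (GG g) X x) = 0 := by
  have hF : ∀ m : Fin n, ContDiffOn ℝ ∞ (fun y => sw g y * bt (Lc m * X y)) U := by
    intro m
    refine (sw_contDiffOn hg hd).mul ?_
    exact (Sm.mul (Sm.const (Lc m : DD n)) hX) _ _
  have hF0 : ∀ m : Fin n, ∀ x ∉ K, sw g x * bt (Lc m * X x) = 0 := by
    intro m x hx
    rw [h0 x hx, mul_zero]
    show sw g x * 0 = 0
    rw [mul_zero]
  have hG : ∀ m : Fin n, ContDiff ℝ ∞ (fun y => sw g y * bt (Lc m * X y)) := fun m =>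
    glob hU (hF m) hK hKU (hF0 m)
  have hc : ∀ m : Fin n, HasCompactSupport (fun y => sw g y * bt (Lc m * X y)) := fun m =>
    HasCompactSupport.intro hK (hF0 m)
  have hpd0 : ∀ m : Fin n, ∀ x ∉ K, pd m (fun y => sw g y * bt (Lc m * X y)) x = 0 := by
    intro m x hx
    have : (fun y => sw g y * bt (Lc m * X y)) =ᶠ[nhds x] fun _ => 0 := by
      filter_upwards [hK.isClosed.isOpen_compl.mem_nhds hx] with y hy
      exact hF0 m y hy
    rw [pd, this.fderiv_eq]
    simp
  have hint : ∀ m : Fin n, Integrable (pd m (fun y => sw g y * bt (Lc m * X y))) := by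
    intro m
    apply Continuous.integrable_of_hasCompactSupport
    · exact ((hG m).continuous_fderiv (by simp)).clm_apply continuous_const
    · exact (hc m).fderiv_apply (𝕜 := ℝ) (ee m)
  have h1 : ∫ x in U, sw g x * bt (dL (GG g) X x)
      = ∫ x in U, ∑ m, pd m (fun y => sw g y * bt (Lc m * X y)) x := by
    apply setIntegral_congr_fun hU.measurableSet
    intro x hx
    exact (div_L hU hg hs hd hx (hX.da hU hx)).symm
  rw [h1, integral_finsetSum _ (fun m _ => (hint m).integrableOn)]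
  apply Finset.sum_eq_zero
  intro m _
  rw [setIntegral_eq_integral_of_forall_compl_eq_zero (fun x hx => hpd0 m x (fun hk => hx (hKU hk)))]
  exact int_pd_zero (hG m) (hc m) m

theorem stokes_R (hU : IsOpen U) (hg : Sm U g) (hs : ∀ x ∈ U, (g x)ᵀ = g x)
    (hd : ∀ x ∈ U, 0 < (g x).det) {X : E n → DD n} (hX : Sm U X)
    {K : Set (E n)} (hK : IsCompact K) (hKU : K ⊆ U) (h0 : ∀ x ∉ K, X x = 0) :
    ∫ x in U, sw g x * bt (dR (GG g) X x) = 0 := by
  have h := stokes_L hU hg hs hd (X := fun y => swp (X y)) (fun a b => hX _ _) hK hKU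
    (fun x hx => by rw [h0 x hx]; rfl)
  rw [← h]
  congr 1
  funext x
  rw [dR_swp, bt_swp]

end Pool.H68.LV
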