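import Pool.Agent.H68.LV.Pth

/-!
# Module DLO: lower bound for distances

N(w) = sqrt (qf G w) is a norm (G positive definite; linear image of the Euclidean norm). Let
δ > 0 with dist (e.symm x) q < δ < c m (or the infimum argument): by IsRiemannianManifold.out and
exists_lt_of_riemannianEDist_lt there is a C^1 path γ on [0,1] from e.symm x to q with length
< c m, as close to the distance as we want.
Claim: γ stays in e.symm (ball z R). Let T be the supremum of the t such that γ maps [0,t] into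
e.symm '' (ball z R) (open in M, contains γ 0). For t < T, c(s) = e(γ s), s in [0,t], is a C^1
path in ball z R, of G-length <= length(γ)/c, so N(c(t) - x) <= (length of γ on [0,t])/c < m.
If γ left the set, then γ T would be in the closure, not in the open set; the limit of c(t) as
t -> T is a point of closedBall z R (the sets e.symm '' (closedBall z R) is compact, hence closed)
with norm exactly R from z and N(c(T) - x) <= length/c < m, a contradiction to hm.
(IsClosed.Icc_subset_of_forall_mem_nhdsGT_of_mem is convenient, as in Mathlib's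
setOfPred_riemannianEDist_lt_subset_nhds.) So q = e.symm y, y = c(1) in ball z R, and
c N(y - x) <= length(γ) for all such γ, hence <= dist (e.symm x) q (y is the same for all γ
because y = e q).
The bound N(c(t) - x) <= integral of N(c'): norm of an integral (or a supporting functional
w -> bf G w v / N v, Cauchy-Schwarz).
-/

open MeasureTheory Manifold Bundle Set Metric
open scoped ContDiff Matrix MatrixOrder

noncomputable section
namespace Pool.H68.LV

private theorem exists_lin {n : ℕ} (G : Mat n) (hG : G.PosDef) :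
    ∃ L : E n →L[ℝ] E n, ∀ v, ‖L v‖ = Real.sqrt (qf G v) := by
  obtain ⟨P, hP⟩ := CStarAlgebra.nonneg_iff_eq_star_mul_self.mp hG.posSemidef.nonneg
  refine ⟨LinearMap.toContinuousLinearMap (Matrix.toEuclideanLin P), fun v => ?_⟩
  have h1 : qf G v = ‖(Matrix.toEuclideanLin P) v‖ ^ 2 := by
    rw [EuclideanSpace.norm_sq_eq, qf_dotp, hP, Matrix.star_eq_conjTranspose,
      Matrix.conjTranspose_eq_transpose_of_trivial, ← Matrix.mulVec_mulVec,
      Matrix.mulVec_transpose, dotProduct_comm, ← Matrix.dotProduct_mulVec, dotProduct_comm]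
    simp only [dotProduct, Real.norm_eq_abs, sq_abs]
    refine Finset.sum_congr rfl fun i _ => ?_
    rw [sq]
    rfl
  rw [h1, Real.sqrt_sq (norm_nonneg _)]
  rfl

variable {n : ℕ} {M : Type} [MetricSpace M] [ChartedSpace (E n) M]
  [IsManifold 𝓘(ℝ, E n) ∞ M]
  [RiemannianBundle (fun x : M => TangentSpace 𝓘(ℝ, E n) x)]
  [IsContMDiffRiemannianBundle 𝓘(ℝ, E n) ∞ (E n) (fun x : M => TangentSpace 𝓘(ℝ, E n) x)]
  [IsRiemannianManifold 𝓘(ℝ, E n) M]

theorem dist_lower {e : OpenPartialHomeomorph M (E n)}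
    (he : e ∈ IsManifold.maximalAtlas 𝓘(ℝ, E n) ∞ M) {z : E n} {R : ℝ}
    (hR : closedBall z R ⊆ e.target) (G : Mat n) (hG : G.PosDef) {c : ℝ} (hc : 0 < c)
    (hcG : ∀ y ∈ closedBall z R, ∀ v, c ^ 2 * qf G v ≤ qf (gT e y) v)
    {x : E n} (hx : x ∈ ball z R) {m : ℝ}
    (hm : ∀ y : E n, ‖y - z‖ = R → m ≤ Real.sqrt (qf G (y - x)))
    {q : M} (hq : dist (e.symm x) q < c * m) :
    ∃ y ∈ ball z R, e.symm y = q ∧ c * Real.sqrt (qf G (y - x)) ≤ dist (e.symm x) q := by
  obtain ⟨L, hL⟩ := exists_lin G hG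
  have hzR : ∀ y ∈ closedBall z R, y ∈ e.target := fun y hy => hR hy
  have hKs : e.symm '' closedBall z R ⊆ e.source := by
    rintro p ⟨y, hy, rfl⟩
    exact e.map_target (hR hy)
  have hKc : IsClosed (e.symm '' closedBall z R) :=
    ((isCompact_closedBall z R).image_of_continuousOn (e.continuousOn_symm.mono hR)).isClosed
  have hVo : IsOpen (e.symm '' ball z R) :=
    e.isOpen_image_symm_of_subset_target isOpen_ball (ball_subset_closedBall.trans hR)
  have hVK : e.symm '' ball z R ⊆ e.symm '' closedBall z R := Set.image_mono ball_subset_closedBall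
  have hxt : x ∈ e.target := hR (ball_subset_closedBall hx)
  -- the basic claim
  have key : ∀ δ : ℝ, δ < c * m → dist (e.symm x) q < δ →
      ∃ y ∈ ball z R, e.symm y = q ∧ c * Real.sqrt (qf G (y - x)) ≤ δ := by
    intro δ hδm hδ
    have hδ0 : 0 < δ := lt_of_le_of_lt dist_nonneg hδ
    have h1 : riemannianEDist 𝓘(ℝ, E n) (e.symm x) q < ENNReal.ofReal δ := by
      rw [← IsRiemannianManifold.out (I := 𝓘(ℝ, E n)) (e.symm x) q, edist_dist]
      exact (ENNReal.ofReal_lt_ofReal_iff hδ0).2 hδ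
    obtain ⟨γ, hγ0, hγ1, hγs, hγ, -, -⟩ :=
      exists_lt_locally_constant_of_riemannianEDist_lt h1 zero_lt_one
    -- bound while the path stays in the compact set
    have hb : ∀ t₁ ∈ Icc (0 : ℝ) 1, Icc 0 t₁ ⊆ γ ⁻¹' (e.symm '' closedBall z R) →
        c * Real.sqrt (qf G (e (γ t₁) - x)) ≤ δ := by
      intro t₁ ht₁ hst
      have hes : ∀ t ∈ Icc (0 : ℝ) t₁, γ t ∈ e.source := fun t ht => hKs (hst ht)
      have hec : ∀ t ∈ Icc (0 : ℝ) t₁, e (γ t) ∈ closedBall z R := by
        intro t ht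
        obtain ⟨y, hy, hy'⟩ := hst ht
        rw [← hy', e.right_inv (hR hy)]
        exact hy
      have hcd : ContDiffOn ℝ 1 (fun t => L (e (γ t))) (Icc 0 t₁) := by
        have h2 : ContMDiffOn 𝓘(ℝ, ℝ) 𝓘(ℝ, E n) 1 (e ∘ γ) (Icc 0 t₁) :=
          ((contMDiffOn_of_mem_maximalAtlas he).of_le (by simp)).comp hγs.contMDiffOn hes
        exact L.contDiff.comp_contDiffOn (contMDiffOn_iff_contDiffOn.1 h2)
      have hce : ContDiffOn ℝ 1 (fun t => e (γ t)) (Icc 0 t₁) := by
        have h2 : ContMDiffOn 𝓘(ℝ, ℝ) 𝓘(ℝ, E n) 1 (e ∘ γ) (Icc 0 t₁) :=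
          ((contMDiffOn_of_mem_maximalAtlas he).of_le (by simp)).comp hγs.contMDiffOn hes
        exact contMDiffOn_iff_contDiffOn.1 h2
      have h3 := enorm_sub_le_lintegral_deriv_of_contDiffOn_Icc hcd ht₁.1
      have h4 : ENNReal.ofReal c * ∫⁻ t in Icc (0 : ℝ) t₁, ‖deriv (fun t => L (e (γ t))) t‖ₑ
          ≤ pathELength 𝓘(ℝ, E n) γ 0 t₁ := by
        rw [pathELength_chart he γ hγs.contMDiffOn hes,
          ← lintegral_const_mul' _ _ ENNReal.ofReal_ne_top, ← restrict_Ioo_eq_restrict_Icc]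
        refine setLIntegral_mono' measurableSet_Ioo (fun t ht => ?_)
        have htI : t ∈ Icc (0 : ℝ) t₁ := Ioo_subset_Icc_self ht
        have hd : DifferentiableAt ℝ (fun t => e (γ t)) t :=
          ((hce.differentiableOn one_ne_zero) t htI).differentiableAt (Icc_mem_nhds ht.1 ht.2)
        have h5 : deriv (fun t => L (e (γ t))) t = L (deriv (fun t => e (γ t)) t) :=
          (L.hasFDerivAt.comp_hasDerivAt t hd.hasDerivAt).deriv
        rw [h5, ← ofReal_norm, ← ENNReal.ofReal_mul hc.le, hL]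
        refine ENNReal.ofReal_le_ofReal ?_
        have h6 := hcG _ (hec t htI) (deriv (fun t => e (γ t)) t)
        have h7 : c * Real.sqrt (qf G (deriv (fun t => e (γ t)) t))
            = Real.sqrt (c ^ 2 * qf G (deriv (fun t => e (γ t)) t)) := by
          rw [Real.sqrt_mul (by positivity), Real.sqrt_sq hc.le]
        rw [h7]
        exact Real.sqrt_le_sqrt h6
      have h8 : pathELength 𝓘(ℝ, E n) γ 0 t₁ ≤ pathELength 𝓘(ℝ, E n) γ 0 1 :=
        pathELength_mono le_rfl ht₁.2
      have h9 : ENNReal.ofReal c * ‖L (e (γ t₁)) - L (e (γ 0))‖ₑ ≤ ENNReal.ofReal δ :=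
        ((mul_le_mul_right h3 _).trans (h4.trans h8)).trans hγ.le
      rw [← ofReal_norm, ← ENNReal.ofReal_mul hc.le, ← map_sub, hL, hγ0, e.right_inv hxt,
        ENNReal.ofReal_le_ofReal_iff hδ0.le] at h9
      exact h9
    have hin : ∀ t₁ ∈ Icc (0 : ℝ) 1, Icc 0 t₁ ⊆ γ ⁻¹' (e.symm '' closedBall z R) →
        e (γ t₁) ∈ ball z R ∧ e.symm (e (γ t₁)) = γ t₁ := by
      intro t₁ ht₁ hst
      have h2 := hb t₁ ht₁ hst
      obtain ⟨y, hy, hy'⟩ := hst (right_mem_Icc.2 ht₁.1)
      have hyy : e (γ t₁) = y := by rw [← hy', e.right_inv (hR hy)]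
      refine ⟨?_, e.left_inv (hKs (hst (right_mem_Icc.2 ht₁.1)))⟩
      rw [hyy] at h2 ⊢
      rw [mem_ball, dist_eq_norm]
      rw [mem_closedBall, dist_eq_norm] at hy
      refine lt_of_le_of_ne hy (fun h0 => ?_)
      have h3 := hm y h0
      have h4 := mul_le_mul_of_nonneg_left h3 hc.le
      linarith
    have hall : Icc (0 : ℝ) 1 ⊆ γ ⁻¹' (e.symm '' closedBall z R) := by
      have hcl : IsClosed (γ ⁻¹' (e.symm '' closedBall z R) ∩ Icc 0 1) :=
        (hKc.preimage hγs.continuous).inter isClosed_Icc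
      have h0 : (0 : ℝ) ∈ γ ⁻¹' (e.symm '' closedBall z R) := by
        rw [Set.mem_preimage, hγ0]
        exact ⟨x, ball_subset_closedBall hx, rfl⟩
      refine hcl.Icc_subset_of_forall_mem_nhdsGT_of_Icc_subset h0 ?_
      rintro t₁ ⟨ht₁0, ht₁1⟩ hst
      obtain ⟨h2, h3⟩ := hin t₁ ⟨ht₁0, ht₁1.le⟩ hst
      have h4 : γ t₁ ∈ e.symm '' ball z R := ⟨_, h2, h3⟩
      exact hγs.continuous.continuousWithinAt
        (Filter.mem_of_superset (hVo.mem_nhds h4) hVK)
    obtain ⟨h2, h3⟩ := hin 1 ⟨zero_le_one, le_rfl⟩ hall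
    have h4 := hb 1 ⟨zero_le_one, le_rfl⟩ hall
    rw [hγ1] at h2 h3 h4
    exact ⟨e q, h2, h3, h4⟩
  have hinj : ∀ y ∈ ball z R, e.symm y = q → y = e q := by
    intro y hy h
    rw [← h, e.right_inv (hR (ball_subset_closedBall hy))]
  obtain ⟨δ, hδ1, hδ2⟩ := exists_between hq
  obtain ⟨y, hy, hyq, -⟩ := key δ hδ2 hδ1
  refine ⟨y, hy, hyq, ?_⟩
  refine le_of_forall_gt_imp_ge_of_dense ?_
  intro δ' hδ'
  rcases lt_or_ge δ' (c * m) with h | h
  · obtain ⟨y', hy', hyq', h2⟩ := key δ' h hδ'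
    rw [hinj y hy hyq, ← hinj y' hy' hyq']
    exact h2
  · obtain ⟨y', hy', hyq', h2⟩ := key δ hδ2 hδ1
    rw [hinj y hy hyq, ← hinj y' hy' hyq']
    linarith

end Pool.H68.LV
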