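import Pool.Agent.H68.LV.Pos2

/-!
# Module PSD: positivity on positive semidefinite forms, and the pointwise bounds

pos_psd: every positive semidefinite h is a sum of n matrices vecMulVec v v
(Matrix.posSemidef_iff_eq_conjTranspose_mul_self: h = B^H B, rows of B). Expand one factor after
the other (induction on the list hs with a list of rank one factors already expanded at the end
or at the front; h2 is linear, the product is multilinear; factors commute by h2_comm) and use
pos_list.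
bound1: put c = n * H * Λ. For symmetric h with |h_ij| <= H: |v.hv| <= H (sum |v_i|)^2 <= n H |v|^2
<= c * v.gv. So c g - h and c g + h are positive semidefinite. Apply pos_psd to the lists
(g, ..., g, c g -+ h).
bound2: with a = n A0 Λ, c = n H Λ:
(a g + A)(c g + h) + (a g - A)(c g - h) = 2 a c g^2 + 2 A h,
(a g + A)(c g - h) + (a g - A)(c g + h) = 2 a c g^2 - 2 A h (as double forms; they commute).
-/

open Matrix
open scoped MatrixOrder

noncomputable section
namespace Pool.H68.LV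

variable {n : ℕ}

private theorem comm_prod (g : Mat n) (hs : List (Mat n)) :
    Commute (h2 g : DD n) (hs.map h2).prod := by
  induction hs with
  | nil => exact Commute.one_right _
  | cons h hs ih =>
    rw [List.map_cons, List.prod_cons]
    exact (show Commute (h2 g : DD n) (h2 h) from h2_comm g h).mul_right ih

private theorem psd_sum (h : Mat n) (hh : h.PosSemidef) :
    ∃ v : Fin n → Fin n → ℝ, h2 h = (∑ a, h2 (Matrix.vecMulVec (v a) (v a)) : DD n) := by
  obtain ⟨B, hB⟩ := CStarAlgebra.nonneg_iff_eq_star_mul_self.mp hh.nonneg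
  rw [star_eq_conjTranspose, Matrix.conjTranspose_eq_transpose_of_trivial] at hB
  refine ⟨fun a => B a, ?_⟩
  symm
  simp only [h2]
  rw [Finset.sum_comm]
  refine Finset.sum_congr rfl fun i _ => ?_
  rw [Finset.sum_comm]
  refine Finset.sum_congr rfl fun j _ => ?_
  rw [← Finset.sum_smul, hB, Matrix.mul_apply]
  rfl

private theorem pos_mix (T : Fin n → Fin n → Mat n) (hT : Curv T) (hp : ∀ u v, 0 ≤ tq T u v)
    (j : ℕ) (hj : j ≤ 2) (hs : List (Mat n)) (hh : ∀ h ∈ hs, h.PosSemidef)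
    (ξ : List (Fin n → ℝ)) :
    0 ≤ bt (h4 T ^ j * ((hs.map h2).prod * (ξ.map fun v => h2 (Matrix.vecMulVec v v)).prod)) := by
  induction hs generalizing ξ with
  | nil =>
    rw [List.map_nil, List.prod_nil, one_mul]
    exact pos_list T hT hp j hj ξ
  | cons h hs ih =>
    obtain ⟨v, hv⟩ := psd_sum h (hh h List.mem_cons_self)
    have e : h4 T ^ j * (((h :: hs).map h2).prod *
        (ξ.map fun v => h2 (Matrix.vecMulVec v v)).prod)
        = ∑ a, h4 T ^ j * ((hs.map h2).prod *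
          ((v a :: ξ).map fun v => h2 (Matrix.vecMulVec v v)).prod) := by
      rw [List.map_cons, List.prod_cons, (comm_prod h hs).eq, hv, Finset.mul_sum, Finset.sum_mul,
        Finset.mul_sum]
      refine Finset.sum_congr rfl fun a _ => ?_
      rw [List.map_cons, List.prod_cons, mul_assoc]
    rw [e, bt_sum]
    exact Finset.sum_nonneg fun a _ => ih (fun h' hh' => hh h' (List.mem_cons_of_mem _ hh')) _

private theorem sum_abs_sq (v : EuclideanSpace ℝ (Fin n)) :
    (∑ i, |v i|) ^ 2 ≤ n * ‖v‖ ^ 2 := by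
  have h := sq_sum_le_card_mul_sum_sq (s := (Finset.univ : Finset (Fin n))) (f := fun i => |v i|)
  rw [Finset.card_univ, Fintype.card_fin] at h
  rw [EuclideanSpace.norm_sq_eq]
  simpa only [Real.norm_eq_abs] using h

private theorem qf_le (h : Mat n) (H : ℝ) (hH : ∀ i j, |h i j| ≤ H)
    (v : EuclideanSpace ℝ (Fin n)) : |qf h v| ≤ n * H * ‖v‖ ^ 2 := by
  rcases Nat.eq_zero_or_pos n with h0 | h0
  · subst h0
    simp [qf]
  · have hH0 : 0 ≤ H := (abs_nonneg _).trans (hH ⟨0, h0⟩ ⟨0, h0⟩)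
    have h1 : |qf h v| ≤ H * (∑ i, |v i|) ^ 2 := by
      rw [qf, pow_two, Finset.sum_mul_sum, Finset.mul_sum]
      refine (Finset.abs_sum_le_sum_abs _ _).trans (Finset.sum_le_sum fun i _ => ?_)
      rw [Finset.mul_sum]
      refine (Finset.abs_sum_le_sum_abs _ _).trans (Finset.sum_le_sum fun j _ => ?_)
      rw [abs_mul, abs_mul, mul_assoc]
      exact mul_le_mul_of_nonneg_right (hH i j) (mul_nonneg (abs_nonneg _) (abs_nonneg _))
    calc |qf h v| ≤ H * (∑ i, |v i|) ^ 2 := h1
      _ ≤ H * (n * ‖v‖ ^ 2) := mul_le_mul_of_nonneg_left (sum_abs_sq v) hH0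
      _ = n * H * ‖v‖ ^ 2 := by ring

private theorem qf_dot (G : Mat n) (x : Fin n → ℝ) :
    x ⬝ᵥ (G *ᵥ x) = qf G (WithLp.toLp 2 x) := by
  simp only [qf, dotProduct, mulVec, Finset.mul_sum]
  exact Finset.sum_congr rfl fun i _ => Finset.sum_congr rfl fun j _ => by ring

private theorem psd_of (M : Mat n) (hM : Mᵀ = M) (h : ∀ v, 0 ≤ qf M v) : M.PosSemidef := by
  refine Matrix.PosSemidef.of_dotProduct_mulVec_nonneg ?_ ?_
  · rw [Matrix.IsHermitian, Matrix.conjTranspose_eq_transpose_of_trivial, hM]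
  · intro x
    rw [star_trivial, qf_dot]
    exact h _

private theorem psd_comb (Λ : ℝ) (hΛ : 1 ≤ Λ) (g : Mat n) (hg : gᵀ = g)
    (hlo : ∀ v, Λ⁻¹ * ‖v‖ ^ 2 ≤ qf g v) (h : Mat n) (hh : hᵀ = h) (H : ℝ)
    (hH : ∀ i j, |h i j| ≤ H) (s : ℝ) (hs : |s| = 1) :
    ((n * Λ * H) • g + s • h).PosSemidef := by
  apply psd_of
  · rw [Matrix.transpose_add, Matrix.transpose_smul, Matrix.transpose_smul, hg, hh]
  · intro v
    have e : qf ((n * Λ * H) • g + s • h) v = n * Λ * H * qf g v + s * qf h v := by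
      have := qf_dot ((n * Λ * H) • g + s • h) v.ofLp
      rw [show (WithLp.toLp 2 v.ofLp : EuclideanSpace ℝ (Fin n)) = v from rfl] at this
      rw [← this, Matrix.add_mulVec, Matrix.smul_mulVec, Matrix.smul_mulVec, dotProduct_add,
        dotProduct_smul, dotProduct_smul, qf_dot, qf_dot]
      rfl
    rw [e]
    have h1 := qf_le h H hH v
    have h2 : |s * qf h v| ≤ n * H * ‖v‖ ^ 2 := by
      rw [abs_mul, hs, one_mul]
      exact h1
    have h3 := (abs_le.mp h2).1
    have hc : 0 ≤ n * Λ * H := by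
      rcases Nat.eq_zero_or_pos n with h0 | h0
      · subst h0
        simp
      · have hH0 : 0 ≤ H := (abs_nonneg _).trans (hH ⟨0, h0⟩ ⟨0, h0⟩)
        positivity
    have h4 := mul_le_mul_of_nonneg_left (hlo v) hc
    have h5 : n * Λ * H * (Λ⁻¹ * ‖v‖ ^ 2) = n * H * ‖v‖ ^ 2 := by
      field_simp
    linarith

private theorem h4_h2_list (T : Fin n → Fin n → Mat n) (j m : ℕ) (g : Mat n) (l : List (Mat n)) :
    h4 T ^ j * ((List.replicate m g ++ l).map h2).prod
      = h4 T ^ j * h2 g ^ m * (l.map h2).prod := by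
  rw [List.map_append, List.prod_append, List.map_replicate, List.prod_replicate, mul_assoc]

private theorem h2_lin (c s : ℝ) (g h : Mat n) : (h2 (c • g + s • h) : DD n) = c • h2 g + s • h2 h := by
  rw [h2_add, h2_smul, h2_smul]

theorem pos_psd (T : Fin n → Fin n → Mat n) (hT : Curv T) (hp : ∀ u v, 0 ≤ tq T u v)
    (j : ℕ) (hj : j ≤ 2) (hs : List (Mat n)) (hh : ∀ h ∈ hs, h.PosSemidef) :
    0 ≤ bt (h4 T ^ j * (hs.map h2).prod) := by
  have h := pos_mix T hT hp j hj hs hh []
  rwa [List.map_nil, List.prod_nil, mul_one] at h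

theorem pw_nonneg (T : Fin n → Fin n → Mat n) (hT : Curv T) (hp : ∀ u v, 0 ≤ tq T u v)
    (g : Mat n) (hg : g.PosSemidef) (j : ℕ) (hj : j ≤ 2) (m : ℕ) :
    0 ≤ bt (h4 T ^ j * h2 g ^ m) := by
  have h := pos_psd T hT hp j hj (List.replicate m g) (fun h hh => by
    rw [List.eq_of_mem_replicate hh]
    exact hg)
  rwa [List.map_replicate, List.prod_replicate] at h

theorem pw_bound1 (Λ : ℝ) (hΛ : 1 ≤ Λ) (g : Mat n) (hg : gᵀ = g)
    (hlo : ∀ v, Λ⁻¹ * ‖v‖ ^ 2 ≤ qf g v)
    (T : Fin n → Fin n → Mat n) (hT : Curv T) (hp : ∀ u v, 0 ≤ tq T u v)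
    (h : Mat n) (hh : hᵀ = h) (H : ℝ) (hH : ∀ i j, |h i j| ≤ H) (j : ℕ) (hj : j ≤ 2) (m : ℕ) :
    |bt (h4 T ^ j * h2 g ^ m * h2 h)| ≤ n * Λ * H * bt (h4 T ^ j * h2 g ^ (m + 1)) := by
  have hgp : g.PosSemidef := by
    apply psd_of g hg
    intro v
    exact (mul_nonneg (by positivity) (sq_nonneg _)).trans (hlo v)
  have key : ∀ s : ℝ, |s| = 1 → 0 ≤ n * Λ * H * bt (h4 T ^ j * h2 g ^ (m + 1))
      + s * bt (h4 T ^ j * h2 g ^ m * h2 h) := by
    intro s hs
    have h1 := pos_psd T hT hp j hj (List.replicate m g ++ [(n * Λ * H) • g + s • h]) (by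
      intro h' hh'
      rcases List.mem_append.mp hh' with h2 | h2
      · rw [List.eq_of_mem_replicate h2]
        exact hgp
      · rw [List.mem_singleton.mp h2]
        exact psd_comb Λ hΛ g hg hlo h hh H hH s hs)
    rw [h4_h2_list, List.map_singleton, List.prod_singleton, h2_lin, mul_add, mul_smul_comm,
      mul_smul_comm, bt_add, bt_smul, bt_smul, mul_assoc (h4 T ^ j), ← pow_succ] at h1
    exact h1
  have k1 := key 1 (by norm_num)
  have k2 := key (-1) (by norm_num)
  rw [abs_le]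
  constructor <;> linarith

theorem pw_bound2 (Λ : ℝ) (hΛ : 1 ≤ Λ) (g : Mat n) (hg : gᵀ = g)
    (hlo : ∀ v, Λ⁻¹ * ‖v‖ ^ 2 ≤ qf g v)
    (T : Fin n → Fin n → Mat n) (hT : Curv T) (hp : ∀ u v, 0 ≤ tq T u v)
    (A h : Mat n) (hA : Aᵀ = A) (hh : hᵀ = h) (A0 H : ℝ) (hA0 : ∀ i j, |A i j| ≤ A0)
    (hH : ∀ i j, |h i j| ≤ H) (j : ℕ) (hj : j ≤ 2) (m : ℕ) :
    |bt (h2 A * h2 h * h4 T ^ j * h2 g ^ m)|
      ≤ (n * Λ * A0) * (n * Λ * H) * bt (h4 T ^ j * h2 g ^ (m + 2)) := by
  have hgp : g.PosSemidef := by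
    apply psd_of g hg
    intro v
    exact (mul_nonneg (by positivity) (sq_nonneg _)).trans (hlo v)
  have cA : ∀ X : Mat n, Commute (h2 X : DD n) (h4 T ^ j * h2 g ^ m) := fun X =>
    ((show Commute (h2 X : DD n) (h4 T) from h2_h4_comm X T).pow_right j).mul_right
      ((show Commute (h2 X : DD n) (h2 g) from h2_comm X g).pow_right m)
  have e0 : h2 A * h2 h * h4 T ^ j * h2 g ^ m = h4 T ^ j * h2 g ^ m * (h2 A * h2 h) := by
    rw [mul_assoc (h2 A * h2 h), ((cA A).mul_left (cA h)).eq]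
  rw [e0]
  have key : ∀ s t : ℝ, |s| = 1 → |t| = 1 →
      0 ≤ bt (h4 T ^ j * h2 g ^ m * (((n * Λ * A0) • h2 g + s • h2 A) *
        ((n * Λ * H) • h2 g + t • h2 h))) := by
    intro s t hs ht
    have h1 := pos_psd T hT hp j hj (List.replicate m g ++ [(n * Λ * A0) • g + s • A,
      (n * Λ * H) • g + t • h]) (by
      intro h' hh'
      rcases List.mem_append.mp hh' with h2 | h2
      · rw [List.eq_of_mem_replicate h2]
        exact hgp
      · rcases List.mem_pair.mp h2 with h3 | h3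
        · rw [h3]
          exact psd_comb Λ hΛ g hg hlo A hA A0 hA0 s hs
        · rw [h3]
          exact psd_comb Λ hΛ g hg hlo h hh H hH t ht)
    rw [h4_h2_list, List.map_cons, List.map_singleton, List.prod_cons, List.prod_singleton,
      h2_lin, h2_lin] at h1
    exact h1
  set a := n * Λ * A0 with ha
  set c := n * Λ * H with hc
  have ex : ∀ s t : ℝ, bt (h4 T ^ j * h2 g ^ m * ((a • h2 g + s • h2 A) *
        (c • h2 g + t • h2 h))) = a * c * bt (h4 T ^ j * h2 g ^ (m + 2))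
        + a * t * bt (h4 T ^ j * h2 g ^ m * (h2 g * h2 h))
        + s * c * bt (h4 T ^ j * h2 g ^ m * (h2 A * h2 g))
        + s * t * bt (h4 T ^ j * h2 g ^ m * (h2 A * h2 h)) := by
    intro s t
    have e1 : (a • h2 g + s • h2 A) * (c • h2 g + t • h2 h)
        = (a * c) • (h2 g * h2 g) + (a * t) • (h2 g * h2 h) + (s * c) • (h2 A * h2 g)
          + (s * t) • (h2 A * h2 h : DD n) := by
      rw [add_mul, mul_add, mul_add, smul_mul_smul_comm, smul_mul_smul_comm, smul_mul_smul_comm,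
        smul_mul_smul_comm]
      abel
    rw [e1, mul_add, mul_add, mul_add, bt_add, bt_add, bt_add, mul_smul_comm, mul_smul_comm,
      mul_smul_comm, mul_smul_comm, bt_smul, bt_smul, bt_smul, bt_smul]
    congr 4
    rw [mul_assoc, ← pow_two, ← pow_add]
  have k1 := key 1 1 (by norm_num) (by norm_num)
  have k2 := key (-1) (-1) (by norm_num) (by norm_num)
  have k3 := key 1 (-1) (by norm_num) (by norm_num)
  have k4 := key (-1) 1 (by norm_num) (by norm_num)
  rw [ex] at k1 k2 k3 k4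
  rw [abs_le]
  constructor <;> linarith

end Pool.H68.LV
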