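import Pool.Agent.H68.LV.Nng
import Pool.Agent.H68.LV.Psd

/-!
# Module DNB: the nonnegative densities and the pointwise bounds

dnh c j = w bt((h4 Th)^j (h2 g)^(n-2j)). h4 (Th c) = h4 RR + (c/2) (h2 g)^2 (h4_add, h4_smul,
h4_kul), everything commutes, so dnh c j is a combination of dn i, i <= j:
dnh 1 = dn 1 + (c/2) dn 0, dnh 2 = dn 2 + c dn 1 + (c^2/4) dn 0 (4 <= n).
nonneg: pw_nonneg with Th_curv, Th_nonneg, sw >= 0.
bounds: write h4 RR = h4 Th - (c/2) (h2 g)^2, expand (k <= 2) and apply pw_bound1 (m = n-2k-1 and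
larger m), pw_bound2 to every term; note the exponents: h4 Th^a (h2 g)^(2(k-a) + n-2k-1) h2 h
has the bound dnh a. All constants depend on n, Λ, K only; c = K2 n Λ K.
For k = 0: dh 0 is bounded by the dnh 0 term only. If n - 2k - 1 is a truncated subtraction
(n = 2k) the bound for dh is not claimed: hypothesis 2k < n.
-/

open Matrix
open scoped ContDiff

noncomputable section
namespace Pool.H68.LV

variable {n : ℕ} {U : Set (E n)}

def dnh (c : ℝ) (j : ℕ) (g : E n → Mat n) (x : E n) : ℝ :=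
  sw g x * bt (h4 (Th c g x) ^ j * h2 (g x) ^ (n - 2 * j))

private theorem h4_Th (c : ℝ) (g : E n → Mat n) (x : E n) :
    h4 (Th c g x) = h4 (RR g x) + (c / 2) • (h2 (g x) ^ 2) := by
  have h1 : Th c g x = fun i j => RR g x i j + (fun i j => c • kul (g x) i j) i j := rfl
  rw [h1, h4_add, h4_smul, h4_kul, smul_smul, sq]
  congr 2
  ring

private theorem comm_TG (T : Fin n → Fin n → Mat n) (G : Mat n) : Commute (h4 T) (h2 G) :=
  (h2_h4_comm G T).symm

private theorem sq_sub {A : Type} [Ring A] [Algebra ℝ A] (T G : A) (s : ℝ) (h : Commute T G) :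
    (T - s • G ^ 2) ^ 2 = T ^ 2 - (2 * s) • (T * G ^ 2) + (s ^ 2) • G ^ 4 := by
  have h1 : G ^ 2 * T = T * G ^ 2 := (h.pow_right 2).eq.symm
  rw [sq (T - s • G ^ 2), sub_mul, mul_sub, mul_sub, smul_mul_assoc, mul_smul_comm,
    smul_mul_smul_comm, h1, ← pow_add, ← sq, two_mul, add_smul, ← sq]
  abel

private theorem bt_sub' (X Y : DD n) : bt (X - Y) = bt X - bt Y := rfl

private theorem bt_smul' (c : ℝ) (X : DD n) : bt (c • X) = c * bt X := rfl

private theorem bt_add' (X Y : DD n) : bt (X + Y) = bt X + bt Y := rfl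

theorem dnh_zero (c : ℝ) (g : E n → Mat n) (x : E n) : dnh c 0 g x = dn 0 g x := by
  simp only [dnh, dn, pow_zero]

theorem dnh_one (hn : 2 ≤ n) (c : ℝ) (g : E n → Mat n) (x : E n) :
    dnh c 1 g x = dn 1 g x + c / 2 * dn 0 g x := by
  simp only [dnh, dn, pow_zero, pow_one, mul_zero, one_mul, h4_Th, mul_one]
  rw [add_mul, smul_mul_assoc, ← pow_add, bt_add', bt_smul']
  have : 2 + (n - 2) = n - 0 := by omega
  rw [this]
  ring

theorem dnh_two (hn : 4 ≤ n) (c : ℝ) (g : E n → Mat n) (x : E n) :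
    dnh c 2 g x = dn 2 g x + c * dn 1 g x + c ^ 2 / 4 * dn 0 g x := by
  simp only [dnh, dn, pow_zero, pow_one, mul_zero, one_mul, h4_Th, mul_one]
  have h1 : h4 (RR g x) + (c / 2) • h2 (g x) ^ 2
      = h4 (RR g x) - (-(c / 2)) • h2 (g x) ^ 2 := by rw [neg_smul, sub_neg_eq_add]
  rw [h1, sq_sub _ _ _ (comm_TG _ _), add_mul, sub_mul, smul_mul_assoc, smul_mul_assoc,
    mul_assoc, ← pow_add, ← pow_add, bt_add', bt_sub', bt_smul', bt_smul']
  have e1 : 2 + (n - 2 * 2) = n - 2 := by omega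
  have e2 : 4 + (n - 2 * 2) = n - 0 := by omega
  rw [e1, e2]
  ring

private theorem sw_nonneg (g : E n → Mat n) (x : E n) : 0 ≤ sw g x :=
  inv_nonneg.mpr (Real.sqrt_nonneg _)

theorem dnh_nonneg {Λ K : ℝ} (hΛ : 1 ≤ Λ) (hK : 0 ≤ K) (hU : IsOpen U) {g : E n → Mat n}
    (h : NLc Λ K U g) {x : E n} (hx : x ∈ U) (j : ℕ) (hj : j ≤ 2) :
    0 ≤ dnh (K2 n Λ K) j g x := by
  have hΛ0 : 0 < Λ := by linarith
  refine mul_nonneg (sw_nonneg g x) ?_
  exact pw_nonneg _ (Th_curv hΛ hU h _ hx) (Th_nonneg hΛ hK hU h hx) (g x)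
    (posDef_of hΛ0 (h.sym x hx) (h.lo x hx)).posSemidef j hj _

/-- The densities of the flat metric are constant. -/
theorem dnh_flat (c : ℝ) (j : ℕ) (x : E n) :
    dnh c j (fun _ => (1 : Mat n)) x = dnh c j (fun _ => (1 : Mat n)) 0 := by
  have h1 : ∀ y : E n, Th c (fun _ => (1 : Mat n)) y = fun i j => c • kul (1 : Mat n) i j := by
    intro y
    funext i j
    simp only [Th, RR_const, zero_add]
  simp only [dnh, sw, h1]

private theorem abs_aux {w a b : ℝ} (hw : 0 ≤ w) (h : |a| ≤ b) : |w * a| ≤ w * b := by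
  rw [abs_mul, abs_of_nonneg hw]
  exact mul_le_mul_of_nonneg_left h hw

theorem dh_bound (n : ℕ) (Λ K : ℝ) (hΛ : 1 ≤ Λ) (hK : 0 ≤ K) : ∃ C : ℝ, 0 ≤ C ∧
    ∀ (U : Set (E n)) (g : E n → Mat n), IsOpen U → NLc Λ K U g → ∀ h : E n → Mat n,
      (∀ x ∈ U, (h x)ᵀ = h x) → ∀ H : ℝ, (∀ x ∈ U, ∀ i j, |h x i j| ≤ H) →
      ∀ k : ℕ, k ≤ 2 → 2 * k < n → ∀ x ∈ U,
        |dh k g h x| ≤ C * H * ∑ a ∈ Finset.range (k + 1), dnh (K2 n Λ K) a g x := by
  have hΛ0 : 0 < Λ := by linarith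
  have hc0 : 0 ≤ K2 n Λ K := by unfold K2; positivity
  refine ⟨n * Λ * (1 + K2 n Λ K + K2 n Λ K ^ 2 / 4), by positivity, ?_⟩
  intro U g hU hg h hh H hH k hk hkn x hx
  set c := K2 n Λ K with hc
  have hT := Th_curv hΛ hU hg c hx
  have hp := Th_nonneg hΛ hK hU hg hx
  rw [← hc] at hp
  have hH0 : 0 ≤ H := (abs_nonneg _).trans (hH x hx ⟨0, by omega⟩ ⟨0, by omega⟩)
  have hw := sw_nonneg g x
  have hR : h4 (RR g x) = h4 (Th c g x) - (c / 2) • h2 (g x) ^ 2 := by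
    rw [h4_Th]; abel
  have hd : ∀ a ≤ 2, 0 ≤ dnh c a g x := fun a ha => dnh_nonneg hΛ hK hU hg hx a ha
  -- the bound for one monomial
  have mono : ∀ a m : ℕ, a ≤ 2 → m + 1 = n - 2 * a →
      |sw g x * bt (h4 (Th c g x) ^ a * h2 (g x) ^ m * h2 (h x))|
        ≤ n * Λ * H * dnh c a g x := by
    intro a m ha hm
    have h1 := pw_bound1 Λ hΛ (g x) (hg.sym x hx) (hg.lo x hx) _ hT hp (h x) (hh x hx) H
      (hH x hx) a ha m
    refine (abs_aux hw h1).trans (le_of_eq ?_)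
    rw [dnh, ← hm]
    ring
  have hn0 : (0 : ℝ) ≤ n := Nat.cast_nonneg n
  have hL0 : 0 ≤ (n : ℝ) * Λ * H := by positivity
  interval_cases k
  · have m0 := mono 0 (n - 1) (by norm_num) (by omega)
    simp only [pow_zero, one_mul] at m0
    simp only [dh, pow_zero, one_mul, mul_zero, zero_add, Finset.range_one,
      Finset.sum_singleton, Nat.sub_zero]
    refine m0.trans ?_
    have := hd 0 (by norm_num)
    have e : (n : ℝ) * Λ * (1 + c + c ^ 2 / 4) * H * dnh c 0 g x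
        = n * Λ * H * dnh c 0 g x + n * Λ * H * (c + c ^ 2 / 4) * dnh c 0 g x := by ring
    rw [e]
    have : 0 ≤ (n : ℝ) * Λ * H * (c + c ^ 2 / 4) * dnh c 0 g x := by positivity
    linarith
  · have m0 := mono 0 (n - 1) (by norm_num) (by omega)
    have m1 := mono 1 (n - 3) (by norm_num) (by omega)
    simp only [pow_zero, one_mul, pow_one] at m0 m1
    have e1 : dh 1 g h x = sw g x * bt (h4 (Th c g x) * h2 (g x) ^ (n - 3) * h2 (h x))
        - c / 2 * (sw g x * bt (h2 (g x) ^ (n - 1) * h2 (h x))) := by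
      simp only [dh, pow_one]
      rw [hR, sub_mul, sub_mul, smul_mul_assoc, smul_mul_assoc, ← pow_add, bt_sub', bt_smul']
      have e2 : 2 + (n - 2 * 1 - 1) = n - 1 := by omega
      have e3 : n - 2 * 1 - 1 = n - 3 := by omega
      rw [e2, e3]
      ring
    rw [e1]
    simp only [Finset.sum_range_succ, Finset.range_zero, Finset.sum_empty, zero_add]
    have d0 := hd 0 (by norm_num)
    have d1 := hd 1 (by norm_num)
    refine (abs_sub _ _).trans ?_
    rw [abs_mul (c / 2), abs_of_nonneg (by positivity : 0 ≤ c / 2)]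
    have f1 : c / 2 * |sw g x * bt (h2 (g x) ^ (n - 1) * h2 (h x))|
        ≤ c / 2 * (n * Λ * H * dnh c 0 g x) := mul_le_mul_of_nonneg_left m0 (by positivity)
    have e : (n : ℝ) * Λ * (1 + c + c ^ 2 / 4) * H * (dnh c 0 g x + dnh c 1 g x)
        = n * Λ * H * dnh c 1 g x + c / 2 * (n * Λ * H * dnh c 0 g x)
          + (n * Λ * H * (c + c ^ 2 / 4) * dnh c 1 g x
            + n * Λ * H * (1 + c / 2 + c ^ 2 / 4) * dnh c 0 g x) := by ring
    rw [e]
    have : 0 ≤ (n : ℝ) * Λ * H * (c + c ^ 2 / 4) * dnh c 1 g x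
            + n * Λ * H * (1 + c / 2 + c ^ 2 / 4) * dnh c 0 g x := by positivity
    linarith
  · have m0 := mono 0 (n - 1) (by norm_num) (by omega)
    have m1 := mono 1 (n - 3) (by norm_num) (by omega)
    have m2 := mono 2 (n - 5) (by norm_num) (by omega)
    simp only [pow_zero, one_mul, pow_one] at m0 m1
    have e1 : dh 2 g h x = sw g x * bt (h4 (Th c g x) ^ 2 * h2 (g x) ^ (n - 5) * h2 (h x))
        - c * (sw g x * bt (h4 (Th c g x) * h2 (g x) ^ (n - 3) * h2 (h x)))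
        + c ^ 2 / 4 * (sw g x * bt (h2 (g x) ^ (n - 1) * h2 (h x))) := by
      simp only [dh]
      rw [hR, sq_sub _ _ _ (comm_TG _ _), add_mul, add_mul, sub_mul, sub_mul, smul_mul_assoc,
        smul_mul_assoc, smul_mul_assoc, smul_mul_assoc, mul_assoc (h4 (Th c g x)), ← pow_add,
        ← pow_add, bt_add', bt_sub', bt_smul', bt_smul']
      have e2 : 2 + (n - 2 * 2 - 1) = n - 3 := by omega
      have e3 : 4 + (n - 2 * 2 - 1) = n - 1 := by omega
      have e4 : n - 2 * 2 - 1 = n - 5 := by omega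
      rw [e2, e3, e4]
      ring
    rw [e1]
    simp only [Finset.sum_range_succ, Finset.range_zero, Finset.sum_empty, zero_add]
    have d0 := hd 0 (by norm_num)
    have d1 := hd 1 (by norm_num)
    have d2 := hd 2 (by norm_num)
    have tri : ∀ a b d : ℝ, |a - b + d| ≤ |a| + |b| + |d| := fun a b d => by
      have := abs_add_le (a - b) d
      have := abs_sub a b
      linarith
    refine (tri _ _ _).trans ?_
    rw [abs_mul c, abs_of_nonneg hc0, abs_mul (c ^ 2 / 4),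
      abs_of_nonneg (by positivity : 0 ≤ c ^ 2 / 4)]
    have f1 := mul_le_mul_of_nonneg_left m1 hc0
    have f0 := mul_le_mul_of_nonneg_left m0 (by positivity : 0 ≤ c ^ 2 / 4)
    have e : (n : ℝ) * Λ * (1 + c + c ^ 2 / 4) * H * (dnh c 0 g x + dnh c 1 g x + dnh c 2 g x)
        = n * Λ * H * dnh c 2 g x + c * (n * Λ * H * dnh c 1 g x)
          + c ^ 2 / 4 * (n * Λ * H * dnh c 0 g x)
          + (n * Λ * H * (c + c ^ 2 / 4) * dnh c 2 g x
            + n * Λ * H * (1 + c ^ 2 / 4) * dnh c 1 g x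
            + n * Λ * H * (1 + c) * dnh c 0 g x) := by ring
    rw [e]
    have : 0 ≤ (n : ℝ) * Λ * H * (c + c ^ 2 / 4) * dnh c 2 g x
            + n * Λ * H * (1 + c ^ 2 / 4) * dnh c 1 g x
            + n * Λ * H * (1 + c) * dnh c 0 g x := by positivity
    linarith

/-- The Hessian is symmetric and bounded. -/
private theorem Hs_symm {Λ K : ℝ} (hΛ : 1 ≤ Λ) (hU : IsOpen U) {g : E n → Mat n}
    (hg : NLc Λ K U g) {φ : E n → ℝ} (hφ : ContDiff ℝ ∞ φ) {x : E n} (hx : x ∈ U) :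
    (Hs g φ x)ᵀ = Hs g φ x := by
  ext i j
  simp only [transpose_apply, Hs, Matrix.of_apply]
  rw [pd_comm isOpen_univ hφ.contDiffOn (Set.mem_univ x) j i]
  congr 1
  refine Finset.sum_congr rfl fun p _ => ?_
  rw [GG_symm hU hg.sm hg.sym hx j p i]

private theorem Hs_bound {Λ K A : ℝ} (hΛ : 1 ≤ Λ) {g : E n → Mat n}
    (hg : NLc Λ K U g) {φ : E n → ℝ} {x : E n} (hx : x ∈ U)
    (h1 : ∀ i, |pd i φ x| ≤ A) (h2 : ∀ i j, |pd i (pd j φ) x| ≤ A) (i j : Fin n) :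
    |Hs g φ x i j| ≤ (1 + 3 / 2 * (n : ℝ) ^ 2 * Λ ^ 2) * A := by
  have hΛ0 : 0 < Λ := by linarith
  have hA0 : 0 ≤ A := (abs_nonneg _).trans (h1 i)
  have hC : ∀ j k l, |CC g j x k l| ≤ 3 / 2 * Λ := by
    intro j k l
    simp only [CC, Matrix.of_apply]
    rw [abs_mul, abs_of_pos (by norm_num : (0 : ℝ) < 1 / 2)]
    have h1 := abs_sub (pd j (fun y => g y k l) x + pd l (fun y => g y k j) x)
      (pd k (fun y => g y j l) x)
    have h2 := abs_add_le (pd j (fun y => g y k l) x) (pd l (fun y => g y k j) x)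
    have h3 := hg.lip x hx j k l
    have h4 := hg.lip x hx l k j
    have h5 := hg.lip x hx k j l
    linarith
  have hI := inv_entry_le hΛ0 (hg.sym x hx) (hg.lo x hx)
  have hG : ∀ p, |GG g i x p j| ≤ (n : ℝ) * (Λ * (3 / 2 * Λ)) := by
    intro p
    rw [GG, Matrix.mul_apply]
    have h3 : ∀ q ∈ (Finset.univ : Finset (Fin n)),
        |(g x)⁻¹ p q * CC g i x q j| ≤ Λ * (3 / 2 * Λ) := by
      intro q _
      rw [abs_mul]
      exact mul_le_mul (hI p q) (hC i q j) (abs_nonneg _) hΛ0.le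
    refine (Finset.abs_sum_le_sum_abs _ _).trans ((Finset.sum_le_sum h3).trans (le_of_eq ?_))
    simp [Finset.sum_const, nsmul_eq_mul]
  simp only [Hs, Matrix.of_apply]
  have h4 : |∑ p, GG g i x p j * pd p φ x| ≤ (n : ℝ) * ((n : ℝ) * (Λ * (3 / 2 * Λ)) * A) := by
    have h5 : ∀ p ∈ (Finset.univ : Finset (Fin n)),
        |GG g i x p j * pd p φ x| ≤ (n : ℝ) * (Λ * (3 / 2 * Λ)) * A := by
      intro p _
      rw [abs_mul]
      exact mul_le_mul (hG p) (h1 p) (abs_nonneg _) (by positivity)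
    refine (Finset.abs_sum_le_sum_abs _ _).trans ((Finset.sum_le_sum h5).trans (le_of_eq ?_))
    simp [Finset.sum_const, nsmul_eq_mul]
  have h6 := abs_sub (pd i (pd j φ) x) (∑ p, GG g i x p j * pd p φ x)
  have h7 := h2 i j
  calc _ ≤ _ := h6
    _ ≤ A + (n : ℝ) * ((n : ℝ) * (Λ * (3 / 2 * Λ)) * A) := add_le_add h7 h4
    _ = _ := by ring

theorem dHh_bound (n : ℕ) (Λ K : ℝ) (hΛ : 1 ≤ Λ) (hK : 0 ≤ K) : ∃ C : ℝ, 0 ≤ C ∧
    ∀ (U : Set (E n)) (g : E n → Mat n), IsOpen U → NLc Λ K U g → ∀ h : E n → Mat n,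
      (∀ x ∈ U, (h x)ᵀ = h x) → ∀ H : ℝ, (∀ x ∈ U, ∀ i j, |h x i j| ≤ H) →
      ∀ φ : E n → ℝ, ContDiff ℝ ∞ φ → ∀ A : ℝ, (∀ x ∈ U, ∀ i, |pd i φ x| ≤ A) →
      (∀ x ∈ U, ∀ i j, |pd i (pd j φ) x| ≤ A) →
      ∀ k : ℕ, 1 ≤ k → k ≤ 2 → 2 * k ≤ n → ∀ x ∈ U,
        |dHh k g φ h x| ≤ C * A * H * ∑ a ∈ Finset.range k, dnh (K2 n Λ K) a g x := by
  have hΛ0 : 0 < Λ := by linarith
  have hc0 : 0 ≤ K2 n Λ K := by unfold K2; positivity
  refine ⟨(n * Λ) ^ 2 * (1 + 3 / 2 * (n : ℝ) ^ 2 * Λ ^ 2) * (1 + K2 n Λ K), by positivity, ?_⟩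
  intro U g hU hg h hh H hH φ hφ A hA1 hA2 k hk1 hk hkn x hx
  set c := K2 n Λ K with hc
  have hT := Th_curv hΛ hU hg c hx
  have hp := Th_nonneg hΛ hK hU hg hx
  rw [← hc] at hp
  have hH0 : 0 ≤ H := (abs_nonneg _).trans (hH x hx ⟨0, by omega⟩ ⟨0, by omega⟩)
  have hA0 : 0 ≤ A := (abs_nonneg _).trans (hA1 x hx ⟨0, by omega⟩)
  have hw := sw_nonneg g x
  have hR : h4 (RR g x) = h4 (Th c g x) - (c / 2) • h2 (g x) ^ 2 := by
    rw [h4_Th]; abel
  have hd : ∀ a ≤ 2, 0 ≤ dnh c a g x := fun a ha => dnh_nonneg hΛ hK hU hg hx a ha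
  set B : ℝ := (1 + 3 / 2 * (n : ℝ) ^ 2 * Λ ^ 2) * A with hB
  have hB0 : 0 ≤ B := by positivity
  have mono : ∀ a m : ℕ, a ≤ 2 → m + 2 = n - 2 * a →
      |sw g x * bt (h2 (Hs g φ x) * h2 (h x) * h4 (Th c g x) ^ a * h2 (g x) ^ m)|
        ≤ (n * Λ * B) * (n * Λ * H) * dnh c a g x := by
    intro a m ha hm
    have h1 := pw_bound2 Λ hΛ (g x) (hg.sym x hx) (hg.lo x hx) _ hT hp (Hs g φ x) (h x)
      (Hs_symm hΛ hU hg hφ hx) (hh x hx) B H
      (Hs_bound hΛ hg hx (hA1 x hx) (hA2 x hx)) (hH x hx) a ha m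
    refine (abs_aux hw h1).trans (le_of_eq ?_)
    rw [dnh, ← hm]
    ring
  interval_cases k
  · have m0 := mono 0 (n - 2) (by norm_num) (by omega)
    simp only [pow_zero, mul_one] at m0
    simp only [dHh, Nat.sub_self, pow_zero, mul_one, Finset.range_one, Finset.sum_singleton]
    refine m0.trans ?_
    have := hd 0 (by norm_num)
    have e : (n * Λ) ^ 2 * (1 + 3 / 2 * (n : ℝ) ^ 2 * Λ ^ 2) * (1 + c) * A * H * dnh c 0 g x
        = n * Λ * B * (n * Λ * H) * dnh c 0 g x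
          + c * (n * Λ * B * (n * Λ * H) * dnh c 0 g x) := by rw [hB]; ring
    rw [e]
    have : 0 ≤ c * (n * Λ * B * (n * Λ * H) * dnh c 0 g x) := by positivity
    linarith
  · have m0 := mono 0 (n - 2) (by norm_num) (by omega)
    have m1 := mono 1 (n - 4) (by norm_num) (by omega)
    simp only [pow_zero, mul_one, pow_one] at m0 m1
    have e1 : dHh 2 g φ h x
        = sw g x * bt (h2 (Hs g φ x) * h2 (h x) * h4 (Th c g x) * h2 (g x) ^ (n - 4))
        - c / 2 * (sw g x * bt (h2 (Hs g φ x) * h2 (h x) * h2 (g x) ^ (n - 2))) := by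
      simp only [dHh, Nat.reduceSub, pow_one]
      rw [hR, mul_sub, sub_mul, mul_smul_comm, smul_mul_assoc,
        mul_assoc (h2 (Hs g φ x) * h2 (h x)) (h2 (g x) ^ 2), ← pow_add, bt_sub', bt_smul']
      have e2 : 2 + (n - 2 * 2) = n - 2 := by omega
      have e3 : n - 2 * 2 = n - 4 := by omega
      rw [e2, e3]
      ring
    rw [e1]
    simp only [Finset.sum_range_succ, Finset.range_zero, Finset.sum_empty, zero_add]
    have d0 := hd 0 (by norm_num)
    have d1 := hd 1 (by norm_num)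
    refine (abs_sub _ _).trans ?_
    rw [abs_mul (c / 2), abs_of_nonneg (by positivity : 0 ≤ c / 2)]
    have f1 := mul_le_mul_of_nonneg_left m0 (by positivity : 0 ≤ c / 2)
    have e : (n * Λ) ^ 2 * (1 + 3 / 2 * (n : ℝ) ^ 2 * Λ ^ 2) * (1 + c) * A * H
          * (dnh c 0 g x + dnh c 1 g x)
        = n * Λ * B * (n * Λ * H) * dnh c 1 g x
          + c / 2 * (n * Λ * B * (n * Λ * H) * dnh c 0 g x)
          + (c * (n * Λ * B * (n * Λ * H) * dnh c 1 g x)
            + (1 + c / 2) * (n * Λ * B * (n * Λ * H) * dnh c 0 g x)) := by rw [hB]; ring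
    rw [e]
    have : 0 ≤ c * (n * Λ * B * (n * Λ * H) * dnh c 1 g x)
            + (1 + c / 2) * (n * Λ * B * (n * Λ * H) * dnh c 0 g x) := by positivity
    linarith

private theorem tri3 (a b d : ℝ) : |a - b + d| ≤ |a| + |b| + |d| := by
  have h1 := abs_add_le (a - b) d
  have h2 := abs_sub a b
  linarith

private theorem ar1 {c a b d : ℝ} (hc : 0 ≤ c) (ha : 0 ≤ a) (hb : 0 ≤ b) (hd : 0 ≤ d) :
    |a - c * b + c ^ 2 / 4 * d| ≤ (1 + c + c ^ 2 / 4) * (d + b + a) := by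
  refine (tri3 _ _ _).trans ?_
  rw [abs_of_nonneg ha, abs_of_nonneg (mul_nonneg hc hb),
    abs_of_nonneg (mul_nonneg (by positivity) hd)]
  have : 0 ≤ (c + c ^ 2 / 4) * a + (1 + c ^ 2 / 4) * b + (1 + c) * d := by positivity
  nlinarith

private theorem ar2 {c b d : ℝ} (hc : 0 ≤ c) (hb : 0 ≤ b) (hd : 0 ≤ d) :
    |b - c / 2 * d| ≤ (1 + c + c ^ 2 / 4) * (d + b) := by
  refine (abs_sub _ _).trans ?_
  rw [abs_of_nonneg hb, abs_of_nonneg (mul_nonneg (by positivity) hd)]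
  have : 0 ≤ (c + c ^ 2 / 4) * b + (1 + c / 2 + c ^ 2 / 4) * d := by positivity
  nlinarith

private theorem dn_bound_aux {n : ℕ} (c : ℝ) (hc : 0 ≤ c) (g : E n → Mat n) (x : E n)
    (hd : ∀ a ≤ 2, 0 ≤ dnh c a g x) (k : ℕ) (hk : k ≤ 2) (hkn : 2 * k ≤ n) :
    |dn k g x| ≤ (1 + c + c ^ 2 / 4) * ∑ a ∈ Finset.range (k + 1), dnh c a g x := by
  have d0 := hd 0 (by norm_num)
  have d1 := hd 1 (by norm_num)
  have d2 := hd 2 (by norm_num)
  have k3 : k = 0 ∨ k = 1 ∨ k = 2 := by omega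
  rcases k3 with rfl | rfl | rfl
  · rw [Finset.sum_range_succ, Finset.sum_range_zero, zero_add, ← dnh_zero c, abs_of_nonneg d0]
    have : 0 ≤ (c + c ^ 2 / 4) * dnh c 0 g x := by positivity
    linarith
  · rw [Finset.sum_range_succ, Finset.sum_range_succ, Finset.sum_range_zero, zero_add]
    have h1 := dnh_one (n := n) (by omega) c g x
    have h0 := dnh_zero c g x
    have e1 : dn 1 g x = dnh c 1 g x - c / 2 * dnh c 0 g x := by
      rw [h1, h0]; ring
    rw [e1]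
    exact ar2 hc d1 d0
  · rw [Finset.sum_range_succ, Finset.sum_range_succ, Finset.sum_range_succ,
      Finset.sum_range_zero, zero_add]
    have h2 := dnh_two (n := n) (by omega) c g x
    have h1 := dnh_one (n := n) (by omega) c g x
    have h0 := dnh_zero c g x
    have e1 : dn 2 g x = dnh c 2 g x - c * dnh c 1 g x + c ^ 2 / 4 * dnh c 0 g x := by
      rw [h2, h1, h0]; ring
    rw [e1]
    exact ar1 hc d2 d1 d0

theorem dn_bound (n : ℕ) (Λ K : ℝ) (hΛ : 1 ≤ Λ) (hK : 0 ≤ K) : ∃ C : ℝ, 0 ≤ C ∧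
    ∀ (U : Set (E n)) (g : E n → Mat n), IsOpen U → NLc Λ K U g →
      ∀ k : ℕ, k ≤ 2 → 2 * k ≤ n → ∀ x ∈ U,
        |dn k g x| ≤ C * ∑ a ∈ Finset.range (k + 1), dnh (K2 n Λ K) a g x := by
  have hΛ0 : 0 < Λ := by linarith
  have hc0 : 0 ≤ K2 n Λ K := by unfold K2; positivity
  refine ⟨1 + K2 n Λ K + K2 n Λ K ^ 2 / 4, by positivity, ?_⟩
  intro U g hU hg k hk hkn x hx
  have hd : ∀ a ≤ 2, 0 ≤ dnh (K2 n Λ K) a g x := fun a ha => dnh_nonneg hΛ hK hU hg hx a ha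
  exact dn_bound_aux (K2 n Λ K) hc0 g x hd k hk hkn

end Pool.H68.LV
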