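import Mathlib

/-!
# Module GHM: Gromov-Hausdorff closeness, measurable near isometries and nets

GromovHausdorff.ghDist_eq_hausdorffDist: isometric embeddings Φ, Ψ of M and X into a common space
with hausdorffDist (range Φ) (range Ψ) = ghDist M X < η. For every x there is y with
dist (Φ x) (Ψ y) < η and conversely (Metric.exists_dist_lt_of_hausdorffDist_lt, compactness gives
finiteness of the Hausdorff edistance).
gh_map: finite cover of M by balls of radius η, centres p_0, .., p_k; F x = y(p_i) with the least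
i such that dist x p_i < η: measurable, finite range. Distortion <= 2η + 2η, density <= 3η.
gh_net: points y_j, an s/4-net of X; x_j in M with dist (Φ x_j) (Ψ y_j) < η, η = s/8.
gh_triangle: ghDist is the distance of GHSpace.
-/

open Metric GromovHausdorff

namespace Pool.H68.LV

private theorem gh_emb (M X : Type) [MetricSpace M] [CompactSpace M] [Nonempty M]
    [MetricSpace X] [CompactSpace X] [Nonempty X] (η : ℝ) (h : ghDist M X < η) :
    ∃ (Φ : M → lp (fun _ : ℕ => ℝ) ⊤) (Ψ : X → lp (fun _ : ℕ => ℝ) ⊤),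
      Isometry Φ ∧ Isometry Ψ ∧ (∀ x, ∃ y, dist (Φ x) (Ψ y) < η) ∧
        ∀ y, ∃ x, dist (Φ x) (Ψ y) < η := by
  obtain ⟨Φ, Ψ, hΦ, hΨ, he⟩ := ghDist_eq_hausdorffDist M X
  have hfin : Metric.hausdorffEDist (Set.range Φ) (Set.range Ψ) ≠ ⊤ :=
    Metric.hausdorffEDist_ne_top_of_nonempty_of_bounded (Set.range_nonempty Φ) (Set.range_nonempty Ψ)
      (isCompact_range hΦ.continuous).isBounded (isCompact_range hΨ.continuous).isBounded
  rw [he] at h
  refine ⟨Φ, Ψ, hΦ, hΨ, ?_, ?_⟩
  · intro x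
    obtain ⟨z, ⟨y, rfl⟩, hy⟩ := Metric.exists_dist_lt_of_hausdorffDist_lt (Set.mem_range_self x) h hfin
    exact ⟨y, hy⟩
  · intro y
    obtain ⟨z, ⟨x, rfl⟩, hx⟩ := Metric.exists_dist_lt_of_hausdorffDist_lt' (Set.mem_range_self y) h hfin
    exact ⟨x, hx⟩

theorem gh_map (M X : Type) [MetricSpace M] [CompactSpace M] [Nonempty M] [MeasurableSpace M]
    [BorelSpace M] [MetricSpace X] [CompactSpace X] [Nonempty X] [MeasurableSpace X]
    (η : ℝ) (h : ghDist M X < η) :
    ∃ F : M → X, Measurable F ∧ (∀ x y, |dist (F x) (F y) - dist x y| ≤ 4 * η) ∧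
      ∀ x', ∃ x, dist (F x) x' ≤ 4 * η := by
  obtain ⟨Φ, Ψ, hΦ, hΨ, H1, H2⟩ := gh_emb M X η h
  have hη : 0 < η := by
    obtain ⟨y, hy⟩ := H1 (Classical.arbitrary M)
    exact lt_of_le_of_lt dist_nonneg hy
  choose yy hyy using H1
  classical
  have hp : ∀ x : M, ∃ k : ℕ, dist x (TopologicalSpace.denseSeq M k) < η := by
    intro x
    exact (TopologicalSpace.denseRange_denseSeq M).exists_dist_lt x hη
  have hk : ∀ x, dist x (TopologicalSpace.denseSeq M (Nat.find (hp x))) < η := fun x => Nat.find_spec (hp x)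
  refine ⟨fun x => yy (TopologicalSpace.denseSeq M (Nat.find (hp x))), ?_, ?_, ?_⟩
  · have hf : Measurable (fun x : M => Nat.find (hp x)) := by
      refine measurable_find hp ?_
      intro k
      exact (isOpen_lt (continuous_id.dist continuous_const) continuous_const).measurableSet
    exact (measurable_from_top (f := fun k : ℕ => yy (TopologicalSpace.denseSeq M k))).comp hf
  · intro x y
    have e1 : ∀ x : M, dist (Φ x) (Ψ (yy (TopologicalSpace.denseSeq M (Nat.find (hp x))))) ≤ 2 * η := by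
      intro x
      have h1 := dist_triangle (Φ x) (Φ (TopologicalSpace.denseSeq M (Nat.find (hp x))))
        (Ψ (yy (TopologicalSpace.denseSeq M (Nat.find (hp x)))))
      have h2 := hyy (TopologicalSpace.denseSeq M (Nat.find (hp x)))
      rw [hΦ.dist_eq] at h1
      have h3 := hk x
      linarith
    have h1 := e1 x
    have h2 := e1 y
    rw [← hΨ.dist_eq, ← hΦ.dist_eq x y]
    have h3 := dist_dist_dist_le (Ψ (yy (TopologicalSpace.denseSeq M (Nat.find (hp x)))))
      (Ψ (yy (TopologicalSpace.denseSeq M (Nat.find (hp y))))) (Φ x) (Φ y)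
    rw [Real.dist_eq] at h3
    refine h3.trans ?_
    rw [dist_comm (Ψ (yy (TopologicalSpace.denseSeq M (Nat.find (hp x))))),
      dist_comm (Ψ (yy (TopologicalSpace.denseSeq M (Nat.find (hp y)))))]
    linarith
  · intro x'
    obtain ⟨x, hx⟩ := H2 x'
    refine ⟨x, ?_⟩
    rw [← hΨ.dist_eq]
    have h1 := dist_triangle (Φ x) (Φ (TopologicalSpace.denseSeq M (Nat.find (hp x))))
      (Ψ (yy (TopologicalSpace.denseSeq M (Nat.find (hp x)))))
    have h2 := hyy (TopologicalSpace.denseSeq M (Nat.find (hp x)))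
    rw [hΦ.dist_eq] at h1
    have h3 := hk x
    have h4 := dist_triangle_left (Ψ (yy (TopologicalSpace.denseSeq M (Nat.find (hp x))))) (Ψ x') (Φ x)
    linarith

theorem gh_net (X : Type) [MetricSpace X] [CompactSpace X] [Nonempty X] (s : ℝ) (hs : 0 < s) :
    ∃ N : ℕ, ∃ η : ℝ, 0 < η ∧ ∀ (M : Type) [MetricSpace M] [CompactSpace M] [Nonempty M],
      ghDist M X < η → ∃ p : Fin N → M, ∀ x, ∃ a, dist (p a) x < s := by
  obtain ⟨t, -, htf, htc⟩ := (isCompact_univ (X := X)).finite_cover_balls (e := s / 4) (by positivity)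
  haveI := htf.fintype
  let eq := (Fintype.equivFin t)
  refine ⟨Fintype.card t, s / 8, by positivity, ?_⟩
  intro M _ _ _ h
  obtain ⟨Φ, Ψ, hΦ, hΨ, H1, H2⟩ := gh_emb M X (s / 8) h
  choose xx hxx using H2
  refine ⟨fun a => xx (eq.symm a).1, ?_⟩
  intro x
  obtain ⟨y, hy⟩ := H1 x
  have hyc := htc (Set.mem_univ y)
  simp only [Set.mem_iUnion] at hyc
  obtain ⟨z, hz, hyz⟩ := hyc
  refine ⟨eq ⟨z, hz⟩, ?_⟩
  simp only [Equiv.symm_apply_apply]
  have h1 := hxx z
  rw [Metric.mem_ball] at hyz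
  rw [← hΦ.dist_eq]
  have h2 := dist_triangle (Φ (xx z)) (Ψ z) (Φ x)
  have h3 := dist_triangle (Ψ z) (Ψ y) (Φ x)
  rw [hΨ.dist_eq, dist_comm z y, dist_comm (Ψ y)] at h3
  linarith

theorem gh_triangle (M M' X : Type) [MetricSpace M] [CompactSpace M] [Nonempty M]
    [MetricSpace M'] [CompactSpace M'] [Nonempty M'] [MetricSpace X] [CompactSpace X]
    [Nonempty X] : ghDist M M' ≤ ghDist M X + ghDist M' X := by
  have h1 : ghDist M X = dist (toGHSpace M) (toGHSpace X) := rfl
  have h2 : ghDist M' X = dist (toGHSpace M') (toGHSpace X) := rfl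
  have h3 : ghDist M M' = dist (toGHSpace M) (toGHSpace M') := rfl
  rw [h1, h2, h3]
  exact dist_triangle_right _ _ _

end Pool.H68.LV
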