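import Pool.Agent.H68.LV.Pkm
import Pool.Agent.H68.LV.Ghm
import Pool.Agent.H68.LV.Qf

/-!
# Module FIN: the final theorem

Monotonicity: SecGeM n M κ -> SecGeM n M κ' for κ <= κ' (the Gram determinant is >= 0:
Cauchy-Schwarz for the positive semidefinite matrix gT; gT_pos), LipCh n M r Λ -> LipCh n M r' Λ'
for r' <= r, Λ <= Λ' (0 < Λ). So for the proof one may assume 1 <= Λ, 0 <= κ.
two (M and M' of one class near X): gh_net (with s of glob) gives N; glob with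
η = 4 * (ghDist M X + ghDist M' X) + (a little, so that it is positive; or treat
ghDist M M' = 0 by letting η -> 0), gh_triangle, gh_map, ell_add, pk_manifold:
|V4 M - V4 M'| <= C (ghDist M X + ghDist M' X)^(1/4) if both distances are < η0, because
V4 M = (32 pi^2)^(-1) (4/(n-4)!) ell n M 1.
result: call (κ, r, Λ) good if for every δ > 0 there is a manifold of the class with
ghDist M X < δ. If no triple is good take v = 0 (for every triple choose η = the δ without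
manifolds). Otherwise choose for one good triple a sequence M_l with ghDist -> 0; V4 M_l is
Cauchy by two; v = its limit. For any other triple (κ', r', Λ'): if it is not good choose η so that
there are no manifolds; if it is good, apply two in the class with the constants
(max, min, max) of both triples to M and M_l and let l -> infinity:
|V4 M - v| <= C (ghDist M X)^(1/4).
-/

open MeasureTheory Manifold Bundle Set Metric
open scoped ContDiff

noncomputable section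
namespace Pool.H68.LV


/-- Monotonicity of the curvature bound. -/
private theorem sec_mono {n : ℕ} {M : Type} [MetricSpace M] [ChartedSpace (E n) M]
    [IsManifold 𝓘(ℝ, E n) ∞ M]
    [RiemannianBundle (fun x : M => TangentSpace 𝓘(ℝ, E n) x)]
    [IsContMDiffRiemannianBundle 𝓘(ℝ, E n) ∞ (E n) (fun x : M => TangentSpace 𝓘(ℝ, E n) x)]
    {κ κ' : ℝ} (h : SecGeM n M κ) (hκ : κ ≤ κ') : SecGeM n M κ' := by
  intro x u v
  refine le_trans ?_ (h x u v)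
  set G := gT (chartAt (E n) x) (chartAt (E n) x x) with hG
  have hP : G.PosDef := gT_pos (IsManifold.chart_mem_maximalAtlas x) (mem_chart_target (E n) x)
  have hs : G.transpose = G := gT_symm _ _
  have hq : ∀ w, 0 ≤ qf G w := fun w => by
    rw [qf_dotp]
    have := hP.posSemidef.dotProduct_mulVec_nonneg w.ofLp
    rwa [star_trivial] at this
  have hgram : 0 ≤ qf G u * qf G v - bf G u v ^ 2 := by
    have h1 : ∀ t : ℝ, 0 ≤ qf G u * (t * t) + 2 * bf G u v * t + qf G v := by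
      intro t
      have h2 := hq (v + t • u)
      rw [qf_add hs, bf_smul_right, qf_smul, bf_comm hs v u] at h2
      nlinarith
    have h3 := discrim_le_zero h1
    rw [discrim] at h3
    nlinarith
  nlinarith

private theorem lip_mono {n : ℕ} {M : Type} [MetricSpace M] [ChartedSpace (E n) M]
    [IsManifold 𝓘(ℝ, E n) ∞ M]
    [RiemannianBundle (fun x : M => TangentSpace 𝓘(ℝ, E n) x)]
    {r r' Λ Λ' : ℝ} (h : LipCh n M r Λ) (hr : r' ≤ r) (hΛ0 : 0 < Λ) (hΛ : Λ ≤ Λ') :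
    LipCh n M r' Λ' := by
  intro p
  obtain ⟨e, he, hp, hp0, ht, hb⟩ := h p
  refine ⟨e, he, hp, hp0, (ball_subset_ball hr).trans ht, fun y hy => ?_⟩
  obtain ⟨h1, h2⟩ := hb y (ball_subset_ball hr hy)
  refine ⟨fun v => ⟨le_trans ?_ (h1 v).1, (h1 v).2.trans ?_⟩, fun k i j => (h2 k i j).trans hΛ⟩
  · exact mul_le_mul_of_nonneg_right (inv_anti₀ hΛ0 hΛ) (by positivity)
  · exact mul_le_mul_of_nonneg_right hΛ (by positivity)

/-- V4 in terms of ell. -/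
private theorem V4_ell (n : ℕ) (M : Type) [MetricSpace M] [ChartedSpace (E n) M]
    [RiemannianBundle (fun x : M => TangentSpace 𝓘(ℝ, E n) x)] [MeasurableSpace M]
    [BorelSpace M] :
    V4 n M = (32 * Real.pi ^ 2)⁻¹ * (4 / (n - 4).factorial) * ell n M (fun _ => 1) := by
  have hf : ((n - 4).factorial : ℝ) ≠ 0 := by exact_mod_cast (Nat.factorial_pos _).ne'
  simp only [V4, ell, one_mul]
  field_simp

theorem two (n : ℕ) (hn : 5 ≤ n) (X : Type) [MetricSpace X] [CompactSpace X] [Nonempty X]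
    (κ r Λ : ℝ) (hκ : 0 ≤ κ) (hr : 0 < r) (hΛ : 1 ≤ Λ) :
    ∃ C : ℝ, 0 ≤ C ∧ ∃ η : ℝ, 0 < η ∧ ∀ (M M' : Type)
      [MetricSpace M] [CompactSpace M] [Nonempty M] [MeasurableSpace M] [BorelSpace M]
      [ChartedSpace (E n) M] [IsManifold 𝓘(ℝ, E n) ∞ M]
      [RiemannianBundle (fun x : M => TangentSpace 𝓘(ℝ, E n) x)]
      [IsContMDiffRiemannianBundle 𝓘(ℝ, E n) ∞ (E n) (fun x : M => TangentSpace 𝓘(ℝ, E n) x)]
      [IsRiemannianManifold 𝓘(ℝ, E n) M]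
      [MetricSpace M'] [CompactSpace M'] [Nonempty M'] [MeasurableSpace M'] [BorelSpace M']
      [ChartedSpace (E n) M'] [IsManifold 𝓘(ℝ, E n) ∞ M']
      [RiemannianBundle (fun x : M' => TangentSpace 𝓘(ℝ, E n) x)]
      [IsContMDiffRiemannianBundle 𝓘(ℝ, E n) ∞ (E n) (fun x : M' => TangentSpace 𝓘(ℝ, E n) x)]
      [IsRiemannianManifold 𝓘(ℝ, E n) M'],
      SecGeM n M κ → LipCh n M r Λ → SecGeM n M' κ → LipCh n M' r Λ →
      GromovHausdorff.ghDist M X < η → GromovHausdorff.ghDist M' X < η →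
      |V4 n M - V4 n M'| ≤
        C * (GromovHausdorff.ghDist M X + GromovHausdorff.ghDist M' X) ^ (1 / 4 : ℝ) := by
  obtain ⟨C0, hC0, h0, hh0, Hpk⟩ := pk_manifold n κ r Λ (by omega) hr hΛ
  obtain ⟨s, hs, Hs⟩ := glob n κ r Λ C0 h0 (by omega) hκ hr hΛ hC0 hh0
  obtain ⟨N, η1, hη1, Hnet⟩ := gh_net X s hs
  obtain ⟨C, hC, η0, hη0, Hg⟩ := Hs N
  have hfac : (0 : ℝ) < (n - 4).factorial := by exact_mod_cast Nat.factorial_pos _
  have hA0 : (0 : ℝ) ≤ (32 * Real.pi ^ 2)⁻¹ * (4 / (n - 4).factorial) := by positivity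
  refine ⟨(32 * Real.pi ^ 2)⁻¹ * (4 / (n - 4).factorial) * (C * 4 ^ (1 / 4 : ℝ)), by positivity,
    min η1 (η0 / 16), lt_min hη1 (by positivity), ?_⟩
  intro M M' _ _ _ _ _ _ _ _ _ _ _ _ _ _ _ _ _ _ _ _ hS hL hS' hL' hd hd'
  set A : ℝ := (32 * Real.pi ^ 2)⁻¹ * (4 / (n - 4).factorial) with hA
  have hd1 : GromovHausdorff.ghDist M X < η1 := hd.trans_le (min_le_left _ _)
  have hd2 : GromovHausdorff.ghDist M X < η0 / 16 := hd.trans_le (min_le_right _ _)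
  have hd2' : GromovHausdorff.ghDist M' X < η0 / 16 := hd'.trans_le (min_le_right _ _)
  have hgn : ∀ (Y Z : Type) [MetricSpace Y] [CompactSpace Y] [Nonempty Y] [MetricSpace Z]
      [CompactSpace Z] [Nonempty Z], 0 ≤ GromovHausdorff.ghDist Y Z := by
    intro Y Z _ _ _ _ _ _
    rw [GromovHausdorff.ghDist]; exact dist_nonneg
  set δ : ℝ := GromovHausdorff.ghDist M X + GromovHausdorff.ghDist M' X with hδ
  have hδ0 : 0 ≤ δ := add_nonneg (hgn M X) (hgn M' X)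
  have hMM : GromovHausdorff.ghDist M M' ≤ δ := gh_triangle M M' X
  have hnet := Hnet M hd1
  have key : ∀ δ' : ℝ, δ < δ' → δ' ≤ η0 / 4 →
      |ell n M (fun _ => 1) - ell n M' (fun _ => 1)| ≤ C * (4 * δ') ^ (1 / 4 : ℝ) := by
    intro δ' h1 h2
    obtain ⟨F, hF, hF1, hF2⟩ := gh_map M M' δ' (hMM.trans_lt h1)
    exact Hg M M' (ell n M) (ell n M') (fun f hf => ell_add n r Λ hr hΛ M hL N f hf)
      (fun f hf => ell_add n r Λ hr hΛ M' hL' N f hf) (Hpk M hS hL) (Hpk M' hS' hL') F (4 * δ') hF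
      (by linarith) (by linarith) hF1 hF2 hnet
  have hlim : |ell n M (fun _ => 1) - ell n M' (fun _ => 1)| ≤ C * (4 * δ) ^ (1 / 4 : ℝ) := by
    have t1 : Filter.Tendsto (fun δ' : ℝ => C * (4 * δ') ^ (1 / 4 : ℝ)) (nhdsWithin δ (Set.Ioi δ))
        (nhds (C * (4 * δ) ^ (1 / 4 : ℝ))) := by
      have : Filter.Tendsto (fun δ' : ℝ => C * (4 * δ') ^ (1 / 4 : ℝ)) (nhds δ)
          (nhds (C * (4 * δ) ^ (1 / 4 : ℝ))) :=
        ((Filter.tendsto_id.const_mul 4).rpow_const (Or.inr (by norm_num))).const_mul C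
      exact this.mono_left nhdsWithin_le_nhds
    refine ge_of_tendsto t1 ?_
    have h3 : ∀ᶠ δ' in nhdsWithin δ (Set.Ioi δ), δ' < η0 / 4 :=
      nhdsWithin_le_nhds (Iio_mem_nhds (by linarith))
    filter_upwards [h3, self_mem_nhdsWithin] with δ' h4 h5
    exact key δ' h5 h4.le
  rw [V4_ell n M, V4_ell n M', ← mul_sub, abs_mul, abs_of_nonneg hA0]
  calc A * |ell n M (fun _ => 1) - ell n M' (fun _ => 1)| ≤ A * (C * (4 * δ) ^ (1 / 4 : ℝ)) :=
        mul_le_mul_of_nonneg_left hlim hA0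
    _ = _ := by
        rw [Real.mul_rpow (by norm_num) hδ0]; ring


/-- The abstract convergence argument. -/
private theorem abstract_conv (B : ℝ → ℝ → ℝ → Set (ℝ × ℝ))
    (hmono : ∀ κ r Λ κ' r' Λ', κ ≤ κ' → r' ≤ r → 0 < Λ → Λ ≤ Λ' → B κ r Λ ⊆ B κ' r' Λ')
    (hpos : ∀ κ r Λ, ∀ p ∈ B κ r Λ, 0 ≤ p.1)
    (htwo : ∀ κ r Λ, 0 ≤ κ → 0 < r → 1 ≤ Λ → ∃ C : ℝ, 0 ≤ C ∧ ∃ η : ℝ, 0 < η ∧
      ∀ p ∈ B κ r Λ, ∀ q ∈ B κ r Λ, p.1 < η → q.1 < η →
        |p.2 - q.2| ≤ C * (p.1 + q.1) ^ (1 / 4 : ℝ)) :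
    ∃ v : ℝ, ∀ κ r Λ : ℝ, 0 < r → 0 < Λ → ∃ C : ℝ, ∃ η : ℝ, 0 < η ∧
      ∀ p ∈ B κ r Λ, p.1 < η → |p.2 - v| ≤ C * p.1 ^ (1 / 4 : ℝ) := by
  by_cases hgood : ∃ κ r Λ, 0 ≤ κ ∧ 0 < r ∧ 1 ≤ Λ ∧ ∀ δ > 0, ∃ p ∈ B κ r Λ, p.1 < δ
  · obtain ⟨κ0, r0, Λ0, hκ0, hr0, hΛ0, hg⟩ := hgood
    obtain ⟨C, hC, η, hη, h2⟩ := htwo κ0 r0 Λ0 hκ0 hr0 hΛ0
    have hseq : ∀ l : ℕ, ∃ p ∈ B κ0 r0 Λ0, p.1 < min η (1 / ((l : ℝ) + 1)) := fun l =>
      hg _ (lt_min hη (by positivity))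
    choose p hp hpl using hseq
    have hpη : ∀ l, (p l).1 < η := fun l => (hpl l).trans_le (min_le_left _ _)
    have hp1 : ∀ l, (p l).1 < 1 / ((l : ℝ) + 1) := fun l => (hpl l).trans_le (min_le_right _ _)
    have hp0 : ∀ l, 0 ≤ (p l).1 := fun l => hpos _ _ _ _ (hp l)
    have hinv : Filter.Tendsto (fun l : ℕ => 1 / ((l : ℝ) + 1)) Filter.atTop (nhds 0) :=
      tendsto_one_div_add_atTop_nhds_zero_nat
    have hlim1 : Filter.Tendsto (fun l : ℕ => (p l).1) Filter.atTop (nhds 0) :=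
      squeeze_zero hp0 (fun l => (hp1 l).le) hinv
    have hcau : CauchySeq (fun l => (p l).2) := by
      refine cauchySeq_of_le_tendsto_0 (fun N : ℕ => C * (2 * (1 / ((N : ℝ) + 1))) ^ (1 / 4 : ℝ))
        ?_ ?_
      · intro a b N ha hb
        rw [Real.dist_eq]
        refine (h2 _ (hp a) _ (hp b) (hpη a) (hpη b)).trans ?_
        apply mul_le_mul_of_nonneg_left _ hC
        apply Real.rpow_le_rpow (add_nonneg (hp0 a) (hp0 b)) _ (by norm_num)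
        have e1 : 1 / ((a : ℝ) + 1) ≤ 1 / ((N : ℝ) + 1) := by
          apply one_div_le_one_div_of_le (by positivity)
          have : (N : ℝ) ≤ a := by exact_mod_cast ha
          linarith
        have e2 : 1 / ((b : ℝ) + 1) ≤ 1 / ((N : ℝ) + 1) := by
          apply one_div_le_one_div_of_le (by positivity)
          have : (N : ℝ) ≤ b := by exact_mod_cast hb
          linarith
        have e3 := hp1 a
        have e4 := hp1 b
        linarith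
      · have h3 : Filter.Tendsto (fun N : ℕ => C * (2 * (1 / ((N : ℝ) + 1))) ^ (1 / 4 : ℝ))
            Filter.atTop (nhds (C * (2 * 0) ^ (1 / 4 : ℝ))) :=
          ((hinv.const_mul 2).rpow_const (Or.inr (by norm_num))).const_mul C
        simpa using h3
    obtain ⟨v, hv⟩ := cauchySeq_tendsto_of_complete hcau
    refine ⟨v, fun κ r Λ hr hΛ => ?_⟩
    obtain ⟨C', hC', η', hη', h2'⟩ := htwo (max κ κ0) (min r r0) (max Λ Λ0)
      (le_max_of_le_right hκ0) (lt_min hr hr0) (le_max_of_le_right hΛ0)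
    refine ⟨C', η', hη', fun q hq hqη => ?_⟩
    have hq' := hmono _ _ _ _ _ _ (le_max_left κ κ0) (min_le_left r r0) hΛ (le_max_left Λ Λ0) hq
    have hp' : ∀ l, p l ∈ B (max κ κ0) (min r r0) (max Λ Λ0) := fun l =>
      hmono _ _ _ _ _ _ (le_max_right κ κ0) (min_le_right r r0) (by linarith)
        (le_max_right Λ Λ0) (hp l)
    have hev : ∀ᶠ l in Filter.atTop, (p l).1 < η' := hlim1.eventually_lt_const hη'
    have hle : ∀ᶠ l in Filter.atTop, |q.2 - (p l).2| ≤ C' * (q.1 + (p l).1) ^ (1 / 4 : ℝ) := by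
      filter_upwards [hev] with l hl
      exact h2' q hq' _ (hp' l) hqη hl
    have t1 : Filter.Tendsto (fun l => |q.2 - (p l).2|) Filter.atTop (nhds |q.2 - v|) :=
      (hv.const_sub q.2).abs
    have t2 : Filter.Tendsto (fun l => C' * (q.1 + (p l).1) ^ (1 / 4 : ℝ)) Filter.atTop
        (nhds (C' * (q.1 + 0) ^ (1 / 4 : ℝ))) :=
      ((hlim1.const_add q.1).rpow_const (Or.inr (by norm_num))).const_mul C'
    rw [add_zero] at t2
    exact le_of_tendsto_of_tendsto t1 t2 hle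
  · refine ⟨0, fun κ r Λ hr hΛ => ?_⟩
    have h1 : ¬ ∀ δ > 0, ∃ p ∈ B (max κ 0) r (max Λ 1), p.1 < δ := fun h =>
      hgood ⟨max κ 0, r, max Λ 1, le_max_right _ _, hr, le_max_right _ _, h⟩
    push Not at h1
    obtain ⟨δ, hδ, h2⟩ := h1
    refine ⟨0, δ, hδ, fun p hp hpδ => ?_⟩
    have hp' := hmono _ _ _ _ _ _ (le_max_left κ 0) le_rfl hΛ (le_max_left Λ 1) hp
    exact absurd hpδ (not_lt.mpr (h2 p hp'))

/-- The pairs (distance to X, V4). -/
private def BS (n : ℕ) (X : Type) [MetricSpace X] [CompactSpace X] [Nonempty X]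
    (κ r Λ : ℝ) : Set (ℝ × ℝ) :=
  {p | ∃ (M : Type) (_ : MetricSpace M) (_ : CompactSpace M) (_ : Nonempty M)
    (_ : MeasurableSpace M) (_ : BorelSpace M) (_ : ChartedSpace (E n) M)
    (_ : IsManifold 𝓘(ℝ, E n) ∞ M)
    (_ : RiemannianBundle (fun x : M => TangentSpace 𝓘(ℝ, E n) x))
    (_ : IsContMDiffRiemannianBundle 𝓘(ℝ, E n) ∞ (E n) (fun x : M => TangentSpace 𝓘(ℝ, E n) x))
    (_ : IsRiemannianManifold 𝓘(ℝ, E n) M),
    SecGeM n M κ ∧ LipCh n M r Λ ∧ GromovHausdorff.ghDist M X = p.1 ∧ V4 n M = p.2}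

theorem final (n : ℕ) (hn : 5 ≤ n) (X : Type) [MetricSpace X] [CompactSpace X] [Nonempty X] :
    ∃ v : ℝ, ∀ κ r Λ : ℝ, 0 < r → 0 < Λ → ∃ C : ℝ, ∃ η : ℝ, 0 < η ∧ ∀ (M : Type)
      [MetricSpace M] [CompactSpace M] [Nonempty M] [MeasurableSpace M] [BorelSpace M]
      [ChartedSpace (E n) M] [IsManifold 𝓘(ℝ, E n) ∞ M]
      [RiemannianBundle (fun x : M => TangentSpace 𝓘(ℝ, E n) x)]
      [IsContMDiffRiemannianBundle 𝓘(ℝ, E n) ∞ (E n) (fun x : M => TangentSpace 𝓘(ℝ, E n) x)]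
      [IsRiemannianManifold 𝓘(ℝ, E n) M],
      SecGeM n M κ → LipCh n M r Λ → GromovHausdorff.ghDist M X < η →
      |V4 n M - v| ≤ C * GromovHausdorff.ghDist M X ^ (1 / 4 : ℝ) := by
  have hgn : ∀ (Y Z : Type) [MetricSpace Y] [CompactSpace Y] [Nonempty Y] [MetricSpace Z]
      [CompactSpace Z] [Nonempty Z], 0 ≤ GromovHausdorff.ghDist Y Z := by
    intro Y Z _ _ _ _ _ _
    rw [GromovHausdorff.ghDist]; exact dist_nonneg
  have hB1 : ∀ κ r Λ κ' r' Λ' : ℝ, κ ≤ κ' → r' ≤ r → 0 < Λ → Λ ≤ Λ' →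
      BS n X κ r Λ ⊆ BS n X κ' r' Λ' := by
    rintro κ r Λ κ' r' Λ' hκ hr hΛ0 hΛ p
      ⟨M, i1, i2, i3, i4, i5, i6, i7, i8, i9, i10, hS, hL, h1, h2⟩
    exact ⟨M, i1, i2, i3, i4, i5, i6, i7, i8, i9, i10, sec_mono hS hκ,
      lip_mono hL hr hΛ0 hΛ, h1, h2⟩
  have hB2 : ∀ κ r Λ : ℝ, ∀ p ∈ BS n X κ r Λ, 0 ≤ p.1 := by
    rintro κ r Λ p ⟨M, i1, i2, i3, i4, i5, i6, i7, i8, i9, i10, hS, hL, h1, h2⟩
    rw [← h1]
    exact hgn M X
  have hB3 : ∀ κ r Λ : ℝ, 0 ≤ κ → 0 < r → 1 ≤ Λ → ∃ C : ℝ, 0 ≤ C ∧ ∃ η : ℝ, 0 < η ∧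
      ∀ p ∈ BS n X κ r Λ, ∀ q ∈ BS n X κ r Λ, p.1 < η → q.1 < η →
        |p.2 - q.2| ≤ C * (p.1 + q.1) ^ (1 / 4 : ℝ) := by
    intro κ r Λ hκ hr hΛ
    obtain ⟨C, hC, η, hη, H⟩ := two n hn X κ r Λ hκ hr hΛ
    refine ⟨C, hC, η, hη, ?_⟩
    rintro p ⟨M, i1, i2, i3, i4, i5, i6, i7, i8, i9, i10, hS, hL, h1, h2⟩ q
      ⟨M', j1, j2, j3, j4, j5, j6, j7, j8, j9, j10, hS', hL', h1', h2'⟩ hp hq
    have := H M M' hS hL hS' hL' (by rw [h1]; exact hp) (by rw [h1']; exact hq)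
    rw [h1, h1', h2, h2'] at this
    exact this
  obtain ⟨v, hv⟩ := abstract_conv (BS n X) hB1 hB2 hB3
  refine ⟨v, fun κ r Λ hr hΛ => ?_⟩
  obtain ⟨C, η, hη, H⟩ := hv κ r Λ hr hΛ
  refine ⟨C, η, hη, ?_⟩
  intro M i1 i2 i3 i4 i5 i6 i7 i8 i9 i10 hS hL hd
  exact H (GromovHausdorff.ghDist M X, V4 n M)
    ⟨M, i1, i2, i3, i4, i5, i6, i7, i8, i9, i10, hS, hL, rfl, rfl⟩ hd

end Pool.H68.LV
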