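import Pool.Agent.H68.LV.Sd

/-!
# Double forms as operators (definitions)

Fix n. A double form is represented by an operator on the space of functions on pairs (S, T) of
subsets of Fin n: Lc i (resp. Rc i) is left multiplication by the i-th covector in the first
(resp. second) exterior factor, La i and Ra i are the adjoints. The functional bt X is the
coefficient of the top element in X(vacuum). A (1,1)-form h is h2 h = sum h_ij L_i R_j, a
(2,2)-form T is h4 T = (1/4) sum T_ijkl L_i L_j R_k R_l.
-/

open Matrix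

noncomputable section
namespace Pool.H68.LV

abbrev FI (n : ℕ) := Finset (Fin n)

/-- The creation matrix: e_i wedge e_S. -/
def cr {n : ℕ} (i : Fin n) : Matrix (FI n) (FI n) ℝ :=
  Matrix.of fun S S' =>
    if i ∉ S' ∧ S = insert i S' then (-1 : ℝ) ^ (S'.filter (fun j => j < i)).card else 0

/-- Operators on the tensor product of two copies of the exterior algebra. -/
abbrev DD (n : ℕ) := Matrix (FI n × FI n) (FI n × FI n) ℝ

def Lc {n : ℕ} (i : Fin n) : DD n :=
  Matrix.kroneckerMap (fun a b => a * b) (cr i) (1 : Matrix (FI n) (FI n) ℝ)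

def Rc {n : ℕ} (i : Fin n) : DD n :=
  Matrix.kroneckerMap (fun a b => a * b) (1 : Matrix (FI n) (FI n) ℝ) (cr i)

def La {n : ℕ} (i : Fin n) : DD n :=
  Matrix.kroneckerMap (fun a b => a * b) (cr i)ᵀ (1 : Matrix (FI n) (FI n) ℝ)

def Ra {n : ℕ} (i : Fin n) : DD n :=
  Matrix.kroneckerMap (fun a b => a * b) (1 : Matrix (FI n) (FI n) ℝ) (cr i)ᵀ

/-- The coefficient of the top element in the image of the vacuum. -/
def bt {n : ℕ} (X : DD n) : ℝ := X (Finset.univ, Finset.univ) (∅, ∅)

/-- The (1,1)-form of a matrix. -/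
def h2 {n : ℕ} (h : Mat n) : DD n := ∑ i, ∑ j, h i j • (Lc i * Rc j)

/-- The (2,2)-form of a 4-tensor. -/
def h4 {n : ℕ} (T : Fin n → Fin n → Mat n) : DD n :=
  (1 / 4 : ℝ) • ∑ i, ∑ j, ∑ k, ∑ l, T i j k l • (Lc i * Lc j * Rc k * Rc l)

/-- Second quantisation of a matrix on the right and on the left factor. -/
def NR {n : ℕ} (A : Mat n) : DD n := ∑ p, ∑ q, A p q • (Rc p * Ra q)
def NL {n : ℕ} (A : Mat n) : DD n := ∑ p, ∑ q, A p q • (Lc p * La q)

/-- The pull back of a 4-tensor by a matrix. -/
def pull {n : ℕ} (J : Mat n) (T : Fin n → Fin n → Mat n) : Fin n → Fin n → Mat n :=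
  fun i j => Matrix.of fun k l =>
    ∑ a, ∑ b, ∑ c, ∑ d, T a b c d * J a i * J b j * J c k * J d l

/-- The curvature tensor of constant curvature one. -/
def kul {n : ℕ} (g : Mat n) : Fin n → Fin n → Mat n :=
  fun i j => Matrix.of fun k l => g i k * g j l - g i l * g j k

/-- Algebraic curvature tensors. -/
structure Curv {n : ℕ} (T : Fin n → Fin n → Mat n) : Prop where
  a12 : ∀ i j k l, T i j k l = - T j i k l
  a34 : ∀ i j k l, T i j k l = - T i j l k
  pair : ∀ i j k l, T i j k l = T k l i j
  bian : ∀ i j k l, T i j k l + T j k i l + T k i j l = 0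

end Pool.H68.LV
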