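import Pool.Agent.H68.LV.Car

/-!
# Module REL: relations between the operators, derivations and the functional bt

All from CAR and Matrix.mul_kronecker_mul (kroneckerMap of (a * b) is the Kronecker product:
(A (x) B) * (C (x) D) = (A * C) (x) (B * D)).
NR_Rc: Rc p * Ra q * Rc r - Rc r * Rc p * Ra q = Rc p * (Ra q * Rc r + Rc r * Ra q) = delta_qr Rc p.
bt_NR: bt (NR A * X) = sum_(S,T) (NR A)(top, (S,T)) X((S,T), vac), and the top row of
Rc p * Ra q is delta_pq times the top row of 1 (cr_an_top). bt_mul_NR: the vacuum column of Ra q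
is 0. The (p,p)-forms h2, h4 commute because L's anticommute, R's anticommute and L_i R_j = R_j L_i:
(L_i R_j)(L_k R_l) = L_i L_k R_j R_l = L_k L_i R_l R_j = (L_k R_l)(L_i R_j).
-/

open Matrix

noncomputable section
namespace Pool.H68.LV

variable {n : ℕ}

private theorem kmul (A B A' B' : Matrix (FI n) (FI n) ℝ) :
    (Matrix.kroneckerMap (fun a b => a * b) A B : DD n) * Matrix.kroneckerMap (fun a b => a * b) A' B'
      = Matrix.kroneckerMap (fun a b => a * b) (A * A') (B * B') :=
  (Matrix.mul_kronecker_mul A A' B B').symm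

private theorem kneg_l (A B : Matrix (FI n) (FI n) ℝ) :
    (Matrix.kroneckerMap (fun a b => a * b) (-A) B : DD n)
      = - Matrix.kroneckerMap (fun a b => a * b) A B := by
  ext p q
  simp [Matrix.kroneckerMap_apply]

private theorem kneg_r (A B : Matrix (FI n) (FI n) ℝ) :
    (Matrix.kroneckerMap (fun a b => a * b) A (-B) : DD n)
      = - Matrix.kroneckerMap (fun a b => a * b) A B := by
  ext p q
  simp [Matrix.kroneckerMap_apply]

private theorem kadd_l (A A' B : Matrix (FI n) (FI n) ℝ) :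
    (Matrix.kroneckerMap (fun a b => a * b) (A + A') B : DD n)
      = Matrix.kroneckerMap (fun a b => a * b) A B + Matrix.kroneckerMap (fun a b => a * b) A' B := by
  ext p q
  simp [Matrix.kroneckerMap_apply, add_mul]

private theorem kadd_r (A B B' : Matrix (FI n) (FI n) ℝ) :
    (Matrix.kroneckerMap (fun a b => a * b) A (B + B') : DD n)
      = Matrix.kroneckerMap (fun a b => a * b) A B + Matrix.kroneckerMap (fun a b => a * b) A B' := by
  ext p q
  simp [Matrix.kroneckerMap_apply, mul_add]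

private theorem k_one : (Matrix.kroneckerMap (fun a b => a * b) (1 : Matrix (FI n) (FI n) ℝ)
    (1 : Matrix (FI n) (FI n) ℝ) : DD n) = 1 := Matrix.one_kronecker_one

private theorem k_zero_l (B : Matrix (FI n) (FI n) ℝ) :
    (Matrix.kroneckerMap (fun a b => a * b) (0 : Matrix (FI n) (FI n) ℝ) B : DD n) = 0 := by
  ext p q
  simp [Matrix.kroneckerMap_apply]

private theorem k_zero_r (B : Matrix (FI n) (FI n) ℝ) :
    (Matrix.kroneckerMap (fun a b => a * b) B (0 : Matrix (FI n) (FI n) ℝ) : DD n) = 0 := by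
  ext p q
  simp [Matrix.kroneckerMap_apply]

private theorem Ra_Rc (q r : Fin n) :
    (Ra q : DD n) * Rc r + Rc r * Ra q = if q = r then 1 else 0 := by
  rw [Ra, Rc, kmul, kmul, ← kadd_r, an_mul_cr, one_mul]
  split_ifs
  · exact k_one
  · exact k_zero_r _

private theorem La_Lc (q r : Fin n) :
    (La q : DD n) * Lc r + Lc r * La q = if q = r then 1 else 0 := by
  rw [La, Lc, kmul, kmul, ← kadd_l, an_mul_cr, one_mul]
  split_ifs
  · exact k_one
  · exact k_zero_l _

private theorem Ra_Lc (q r : Fin n) : (Ra q : DD n) * Lc r = Lc r * Ra q := by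
  rw [Ra, Lc, kmul, kmul, one_mul, mul_one, one_mul, mul_one]

private theorem La_Rc (q r : Fin n) : (La q : DD n) * Rc r = Rc r * La q := by
  rw [La, Rc, kmul, kmul, one_mul, mul_one, one_mul, mul_one]


theorem Lc_mul_Lc (i j : Fin n) : (Lc i : DD n) * Lc j = -(Lc j * Lc i) := by
  rw [Lc, Lc, kmul, kmul, cr_mul_cr, kneg_l]

theorem Rc_mul_Rc (i j : Fin n) : (Rc i : DD n) * Rc j = -(Rc j * Rc i) := by
  rw [Rc, Rc, kmul, kmul, cr_mul_cr, kneg_r]

theorem Lc_mul_Rc (i j : Fin n) : (Lc i : DD n) * Rc j = Rc j * Lc i := by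
  rw [Lc, Rc, kmul, kmul, one_mul, mul_one, one_mul, mul_one]

private theorem uv_comm (i j k l : Fin n) : Commute (Lc i * Rc j : DD n) (Lc k * Rc l) := by
  have e1 : (Lc i * Rc j : DD n) * (Lc k * Rc l) = (Lc i * Lc k) * (Rc j * Rc l) := by
    rw [mul_assoc, ← mul_assoc (Rc j), ← Lc_mul_Rc]
    noncomm_ring
  have e2 : (Lc k * Rc l : DD n) * (Lc i * Rc j) = (Lc k * Lc i) * (Rc l * Rc j) := by
    rw [mul_assoc, ← mul_assoc (Rc l), ← Lc_mul_Rc]
    noncomm_ring
  show (Lc i * Rc j : DD n) * (Lc k * Rc l) = (Lc k * Rc l) * (Lc i * Rc j)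
  rw [e1, e2, Lc_mul_Lc i k, Rc_mul_Rc j l, neg_mul_neg]

private theorem quad_eq (i j k l : Fin n) :
    (Lc i * Lc j * Rc k * Rc l : DD n) = (Lc i * Rc k) * (Lc j * Rc l) := by
  rw [mul_assoc (Lc i) (Rc k), ← mul_assoc (Rc k), ← Lc_mul_Rc]
  noncomm_ring

private theorem comm_h2 (X : DD n) (hX : ∀ i j : Fin n, Commute X (Lc i * Rc j)) (h : Mat n) :
    Commute X (h2 h) := by
  rw [h2]
  exact Commute.sum_right _ _ _ fun i _ => Commute.sum_right _ _ _ fun j _ =>
    (hX i j).smul_right (h i j)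

private theorem comm_h4 (X : DD n) (hX : ∀ i j : Fin n, Commute X (Lc i * Rc j))
    (T : Fin n → Fin n → Mat n) : Commute X (h4 T) := by
  rw [h4]
  refine Commute.smul_right ?_ _
  refine Commute.sum_right _ _ _ fun i _ => Commute.sum_right _ _ _ fun j _ =>
    Commute.sum_right _ _ _ fun k _ => Commute.sum_right _ _ _ fun l _ => ?_
  rw [quad_eq]
  exact ((hX i k).mul_right (hX j l)).smul_right _

private theorem sum3_rot (f : Fin n → Fin n → Fin n → DD n) :
    ∑ k, ∑ l, ∑ p, f k l p = ∑ p, ∑ l, ∑ k, f k l p := by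
  rw [Finset.sum_comm]
  have h : ∀ l, ∑ k, ∑ p, f k l p = ∑ p, ∑ k, f k l p := fun l => Finset.sum_comm
  simp only [h]
  exact Finset.sum_comm

private theorem abs_comm {R : Type*} [Ring R] {N a b c d : R} (h1 : N * a = a * N)
    (h2 : N * b = b * N) :
    N * (a * b * c * d) - a * b * c * d * N
      = a * b * ((N * c - c * N) * d + c * (N * d - d * N)) := by
  have e : N * (a * b * c * d) = a * b * (N * (c * d)) := by
    rw [mul_assoc (a * b), ← mul_assoc N, ← mul_assoc N a, h1, mul_assoc a N, h2]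
    noncomm_ring
  rw [e]
  noncomm_ring

theorem NR_Rc (A : Mat n) (q : Fin n) :
    NR A * Rc q - Rc q * NR A = ∑ p, A p q • (Rc p : DD n) := by
  have h1 : ∀ p q' : Fin n, (Rc p * Ra q' : DD n) * Rc q - Rc q * (Rc p * Ra q')
      = if q' = q then Rc p else 0 := by
    intro p q'
    have e1 := Ra_Rc q' q
    have e2 : (Rc q : DD n) * Rc p = -(Rc p * Rc q) := Rc_mul_Rc q p
    have e3 : (Rc p * Ra q' : DD n) * Rc q - Rc q * (Rc p * Ra q')
        = Rc p * (Ra q' * Rc q + Rc q * Ra q') := by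
      rw [← mul_assoc (Rc q), e2]
      noncomm_ring
    rw [e3, e1]
    split_ifs
    · rw [mul_one]
    · rw [mul_zero]
  have h2 : NR A * Rc q - Rc q * NR A
      = ∑ p, ∑ q', A p q' • ((Rc p * Ra q' : DD n) * Rc q - Rc q * (Rc p * Ra q')) := by
    simp only [NR, Finset.sum_mul, Finset.mul_sum, ← Finset.sum_sub_distrib, smul_mul_assoc,
      mul_smul_comm, smul_sub]
  rw [h2]
  refine Finset.sum_congr rfl fun p _ => ?_
  simp only [h1, smul_ite, smul_zero, Finset.sum_ite_eq', Finset.mem_univ, if_true]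

theorem NR_Lc (A : Mat n) (i : Fin n) : NR A * Lc i = Lc i * NR A := by
  simp only [NR, Finset.sum_mul, Finset.mul_sum]
  refine Finset.sum_congr rfl fun p _ => Finset.sum_congr rfl fun q _ => ?_
  rw [smul_mul_assoc, mul_smul_comm, mul_assoc, Ra_Lc, ← mul_assoc, ← mul_assoc, Lc_mul_Rc]

theorem NL_Lc (A : Mat n) (q : Fin n) :
    NL A * Lc q - Lc q * NL A = ∑ p, A p q • (Lc p : DD n) := by
  have h1 : ∀ p q' : Fin n, (Lc p * La q' : DD n) * Lc q - Lc q * (Lc p * La q')
      = if q' = q then Lc p else 0 := by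
    intro p q'
    have e1 := La_Lc q' q
    have e2 : (Lc q : DD n) * Lc p = -(Lc p * Lc q) := Lc_mul_Lc q p
    have e3 : (Lc p * La q' : DD n) * Lc q - Lc q * (Lc p * La q')
        = Lc p * (La q' * Lc q + Lc q * La q') := by
      rw [← mul_assoc (Lc q), e2]
      noncomm_ring
    rw [e3, e1]
    split_ifs
    · rw [mul_one]
    · rw [mul_zero]
  have h2 : NL A * Lc q - Lc q * NL A
      = ∑ p, ∑ q', A p q' • ((Lc p * La q' : DD n) * Lc q - Lc q * (Lc p * La q')) := by
    simp only [NL, Finset.sum_mul, Finset.mul_sum, ← Finset.sum_sub_distrib, smul_mul_assoc,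
      mul_smul_comm, smul_sub]
  rw [h2]
  refine Finset.sum_congr rfl fun p _ => ?_
  simp only [h1, smul_ite, smul_zero, Finset.sum_ite_eq', Finset.mem_univ, if_true]

theorem NL_Rc (A : Mat n) (i : Fin n) : NL A * Rc i = Rc i * NL A := by
  simp only [NL, Finset.sum_mul, Finset.mul_sum]
  refine Finset.sum_congr rfl fun p _ => Finset.sum_congr rfl fun q _ => ?_
  rw [smul_mul_assoc, mul_smul_comm, mul_assoc, La_Rc, ← mul_assoc, ← mul_assoc, ← Lc_mul_Rc]

theorem bt_NR (A : Mat n) (X : DD n) : bt (NR A * X) = A.trace * bt X := by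
  have h0 : ∀ p q : Fin n, bt ((Rc p * Ra q : DD n) * X) = if p = q then bt X else 0 := by
    intro p q
    rw [bt, Matrix.mul_apply, Fintype.sum_prod_type]
    have e1 : ∀ S T : FI n, (Rc p * Ra q : DD n) (Finset.univ, Finset.univ) (S, T)
        = (1 : Matrix (FI n) (FI n) ℝ) Finset.univ S *
          (if p = q then (1 : Matrix (FI n) (FI n) ℝ) Finset.univ T else 0) := by
      intro S T
      rw [Rc, Ra, kmul, Matrix.kroneckerMap_apply, one_mul, cr_an_top]
    simp only [e1]
    split_ifs with hpq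
    · simp only [Matrix.one_apply, ite_mul, one_mul, zero_mul, Finset.sum_ite_eq,
        Finset.mem_univ, if_true, mul_ite, mul_one, mul_zero]
      rfl
    · simp
  have h1 : bt (NR A * X) = ∑ p, ∑ q, A p q * bt ((Rc p * Ra q : DD n) * X) := by
    simp only [NR, Finset.sum_mul, smul_mul_assoc]
    rw [bt, Matrix.sum_apply]
    refine Finset.sum_congr rfl fun p _ => ?_
    rw [Matrix.sum_apply]
    rfl
  rw [h1, Matrix.trace, Finset.sum_mul]
  refine Finset.sum_congr rfl fun p _ => ?_
  simp only [h0, mul_ite, mul_zero, Finset.sum_ite_eq, Finset.mem_univ, if_true, Matrix.diag_apply]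

theorem bt_mul_NR (A : Mat n) (X : DD n) : bt (X * NR A) = 0 := by
  have h0 : ∀ (p q : Fin n) (P : FI n × FI n), (Rc p * Ra q : DD n) P (∅, ∅) = 0 := by
    intro p q P
    rw [Matrix.mul_apply]
    refine Finset.sum_eq_zero fun Q _ => ?_
    have : (Ra q : DD n) Q (∅, ∅) = 0 := by
      obtain ⟨S, T⟩ := Q
      rw [Ra, Matrix.kroneckerMap_apply, an_vac, mul_zero]
    rw [this, mul_zero]
  rw [bt, Matrix.mul_apply]
  refine Finset.sum_eq_zero fun P _ => ?_
  have : (NR A : DD n) P (∅, ∅) = 0 := by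
    rw [NR, Matrix.sum_apply]
    refine Finset.sum_eq_zero fun p _ => ?_
    rw [Matrix.sum_apply]
    refine Finset.sum_eq_zero fun q _ => ?_
    rw [Matrix.smul_apply, h0, smul_zero]
  rw [this, mul_zero]

theorem bt_NL (A : Mat n) (X : DD n) : bt (NL A * X) = A.trace * bt X := by
  have h0 : ∀ p q : Fin n, bt ((Lc p * La q : DD n) * X) = if p = q then bt X else 0 := by
    intro p q
    rw [bt, Matrix.mul_apply, Fintype.sum_prod_type]
    have e1 : ∀ S T : FI n, (Lc p * La q : DD n) (Finset.univ, Finset.univ) (S, T)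
        = (if p = q then (1 : Matrix (FI n) (FI n) ℝ) Finset.univ S else 0) *
          (1 : Matrix (FI n) (FI n) ℝ) Finset.univ T := by
      intro S T
      rw [Lc, La, kmul, Matrix.kroneckerMap_apply, one_mul, cr_an_top]
    simp only [e1]
    split_ifs with hpq
    · simp only [Matrix.one_apply, ite_mul, one_mul, zero_mul, Finset.sum_ite_eq,
        Finset.mem_univ, if_true, mul_ite, mul_one, mul_zero]
      rfl
    · simp
  have h1 : bt (NL A * X) = ∑ p, ∑ q, A p q * bt ((Lc p * La q : DD n) * X) := by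
    simp only [NL, Finset.sum_mul, smul_mul_assoc]
    rw [bt, Matrix.sum_apply]
    refine Finset.sum_congr rfl fun p _ => ?_
    rw [Matrix.sum_apply]
    rfl
  rw [h1, Matrix.trace, Finset.sum_mul]
  refine Finset.sum_congr rfl fun p _ => ?_
  simp only [h0, mul_ite, mul_zero, Finset.sum_ite_eq, Finset.mem_univ, if_true, Matrix.diag_apply]

theorem bt_mul_NL (A : Mat n) (X : DD n) : bt (X * NL A) = 0 := by
  have h0 : ∀ (p q : Fin n) (P : FI n × FI n), (Lc p * La q : DD n) P (∅, ∅) = 0 := by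
    intro p q P
    rw [Matrix.mul_apply]
    refine Finset.sum_eq_zero fun Q _ => ?_
    have : (La q : DD n) Q (∅, ∅) = 0 := by
      obtain ⟨S, T⟩ := Q
      rw [La, Matrix.kroneckerMap_apply, an_vac, zero_mul]
    rw [this, mul_zero]
  rw [bt, Matrix.mul_apply]
  refine Finset.sum_eq_zero fun P _ => ?_
  have : (NL A : DD n) P (∅, ∅) = 0 := by
    rw [NL, Matrix.sum_apply]
    refine Finset.sum_eq_zero fun p _ => ?_
    rw [Matrix.sum_apply]
    refine Finset.sum_eq_zero fun q _ => ?_
    rw [Matrix.smul_apply, h0, smul_zero]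
  rw [this, mul_zero]

theorem h2_comm (g h : Mat n) : h2 g * h2 h = h2 h * h2 g := by
  exact (comm_h2 _ (fun i j => (comm_h2 _ (fun k l => uv_comm i j k l) g).symm) h).eq

theorem h2_h4_comm (h : Mat n) (T : Fin n → Fin n → Mat n) : h2 h * h4 T = h4 T * h2 h := by
  exact (comm_h4 _ (fun i j => (comm_h2 _ (fun k l => uv_comm i j k l) h).symm) T).eq

theorem h4_comm (T T' : Fin n → Fin n → Mat n) : h4 T * h4 T' = h4 T' * h4 T := by
  exact (comm_h4 _ (fun i j => (comm_h4 _ (fun k l => uv_comm i j k l) T).symm) T').eq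

/-- Linearity. -/
theorem bt_add (X Y : DD n) : bt (X + Y) = bt X + bt Y := by
  rfl

theorem bt_smul (c : ℝ) (X : DD n) : bt (c • X) = c * bt X := by
  rfl

theorem h2_add (g h : Mat n) : h2 (g + h) = h2 g + h2 h := by
  simp only [h2, Matrix.add_apply, add_smul, Finset.sum_add_distrib]

theorem h2_smul (c : ℝ) (g : Mat n) : h2 (c • g) = c • h2 g := by
  simp only [h2, Matrix.smul_apply, smul_assoc, Finset.smul_sum]

theorem h4_add (T T' : Fin n → Fin n → Mat n) :
    h4 (fun i j => T i j + T' i j) = h4 T + h4 T' := by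
  simp only [h4, Matrix.add_apply, add_smul, Finset.sum_add_distrib, smul_add]

theorem h4_smul (c : ℝ) (T : Fin n → Fin n → Mat n) : h4 (fun i j => c • T i j) = c • h4 T := by
  simp only [h4, Matrix.smul_apply, smul_assoc, Finset.smul_sum]
  refine Finset.sum_congr rfl fun i _ => Finset.sum_congr rfl fun j _ =>
    Finset.sum_congr rfl fun k _ => Finset.sum_congr rfl fun l _ => ?_
  rw [smul_comm]

/-- The commutator with NR A is the derivation induced by A on the right indices. -/
theorem NR_h2 (A g : Mat n) : NR A * h2 g - h2 g * NR A = h2 (g * Aᵀ) := by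
  have h1 : NR A * h2 g - h2 g * NR A
      = ∑ i, ∑ j, g i j • (Lc i * (NR A * Rc j - Rc j * NR A) : DD n) := by
    simp only [h2, Finset.sum_mul, Finset.mul_sum, ← Finset.sum_sub_distrib]
    refine Finset.sum_congr rfl fun i _ => Finset.sum_congr rfl fun j _ => ?_
    rw [mul_smul_comm, smul_mul_assoc, ← smul_sub, mul_sub, ← mul_assoc, NR_Lc, mul_assoc,
      mul_assoc]
  rw [h1]
  simp only [NR_Rc, Finset.mul_sum, mul_smul_comm, Finset.smul_sum, smul_smul]
  simp only [h2, Matrix.mul_apply, Finset.sum_smul, transpose_apply]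
  refine Finset.sum_congr rfl fun i _ => ?_
  rw [Finset.sum_comm]

theorem NR_h4 (A : Mat n) (T : Fin n → Fin n → Mat n) :
    NR A * h4 T - h4 T * NR A = h4 (fun i j => A * T i j + T i j * Aᵀ) := by
  have h1 : NR A * h4 T - h4 T * NR A
      = (1 / 4 : ℝ) • ∑ i, ∑ j, ∑ k, ∑ l, T i j k l •
        (Lc i * Lc j * ((NR A * Rc k - Rc k * NR A) * Rc l
          + Rc k * (NR A * Rc l - Rc l * NR A)) : DD n) := by
    rw [h4, mul_smul_comm, smul_mul_assoc, ← smul_sub]
    congr 1
    rw [Finset.sum_mul, Finset.mul_sum, ← Finset.sum_sub_distrib]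
    refine Finset.sum_congr rfl fun i _ => ?_
    rw [Finset.sum_mul, Finset.mul_sum, ← Finset.sum_sub_distrib]
    refine Finset.sum_congr rfl fun j _ => ?_
    rw [Finset.sum_mul, Finset.mul_sum, ← Finset.sum_sub_distrib]
    refine Finset.sum_congr rfl fun k _ => ?_
    rw [Finset.sum_mul, Finset.mul_sum, ← Finset.sum_sub_distrib]
    refine Finset.sum_congr rfl fun l _ => ?_
    rw [mul_smul_comm, smul_mul_assoc, ← smul_sub, abs_comm (NR_Lc A i) (NR_Lc A j)]
  have h2 : ∀ i j k l : Fin n, (Lc i * Lc j * ((NR A * Rc k - Rc k * NR A) * Rc l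
          + Rc k * (NR A * Rc l - Rc l * NR A)) : DD n)
      = (∑ p, A p k • (Lc i * Lc j * Rc p * Rc l)) + ∑ p, A p l • (Lc i * Lc j * Rc k * Rc p) := by
    intro i j k l
    rw [NR_Rc, NR_Rc, mul_add, Finset.sum_mul, Finset.mul_sum, Finset.mul_sum, Finset.mul_sum]
    congr 1
    · refine Finset.sum_congr rfl fun p _ => ?_
      rw [smul_mul_assoc, mul_smul_comm, ← mul_assoc]
    · refine Finset.sum_congr rfl fun p _ => ?_
      rw [mul_smul_comm, mul_smul_comm, ← mul_assoc]
  rw [h1, h4_add]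
  simp only [h2, smul_add, Finset.sum_add_distrib]
  congr 1
  · rw [h4]
    congr 1
    refine Finset.sum_congr rfl fun i _ => Finset.sum_congr rfl fun j _ => ?_
    simp only [Finset.smul_sum, smul_smul]
    rw [sum3_rot]
    refine Finset.sum_congr rfl fun p _ => Finset.sum_congr rfl fun l _ => ?_
    rw [Matrix.mul_apply, Finset.sum_smul]
    refine Finset.sum_congr rfl fun k _ => ?_
    rw [mul_comm]
  · rw [h4]
    congr 1
    refine Finset.sum_congr rfl fun i _ => Finset.sum_congr rfl fun j _ =>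
      Finset.sum_congr rfl fun k _ => ?_
    simp only [Finset.smul_sum, smul_smul]
    rw [Finset.sum_comm]
    refine Finset.sum_congr rfl fun p _ => ?_
    rw [Matrix.mul_apply, Finset.sum_smul]
    refine Finset.sum_congr rfl fun l _ => ?_
    rw [transpose_apply]

/-- The (2,2)-form of the curvature tensor of constant curvature one is half the square. -/
theorem h4_kul (g : Mat n) : h4 (kul g) = (1 / 2 : ℝ) • (h2 g * h2 g) := by
  have e1 : ∀ i j k l : Fin n, (Lc i * Lc j * Rc k * Rc l : DD n)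
      = (Lc i * Rc k) * (Lc j * Rc l) := by
    intro i j k l
    rw [mul_assoc (Lc i) (Rc k), ← mul_assoc (Rc k), ← Lc_mul_Rc]
    noncomm_ring
  have e2 : ∀ i j k l : Fin n, (Lc i * Lc j * Rc k * Rc l : DD n)
      = -(Lc i * Lc j * Rc l * Rc k) := by
    intro i j k l
    rw [mul_assoc (Lc i * Lc j) (Rc k), Rc_mul_Rc k l]
    noncomm_ring
  have h1 : ∑ i, ∑ j, ∑ k, ∑ l, (g i k * g j l) • (Lc i * Lc j * Rc k * Rc l : DD n)
      = h2 g * h2 g := by
    rw [h2, Finset.sum_mul]
    refine Finset.sum_congr rfl fun i _ => ?_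
    rw [Finset.sum_comm, Finset.sum_mul]
    refine Finset.sum_congr rfl fun k _ => ?_
    rw [Finset.mul_sum]
    refine Finset.sum_congr rfl fun j _ => ?_
    rw [Finset.mul_sum]
    refine Finset.sum_congr rfl fun l _ => ?_
    rw [e1, smul_mul_smul_comm]
  have h3 : ∑ i, ∑ j, ∑ k, ∑ l, (g i l * g j k) • (Lc i * Lc j * Rc k * Rc l : DD n)
      = -(h2 g * h2 g) := by
    rw [← h1]
    simp only [← Finset.sum_neg_distrib]
    refine Finset.sum_congr rfl fun i _ => Finset.sum_congr rfl fun j _ => ?_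
    rw [Finset.sum_comm]
    refine Finset.sum_congr rfl fun k _ => Finset.sum_congr rfl fun l _ => ?_
    rw [e2, smul_neg]
  have h4' : h4 (kul g) = (1 / 4 : ℝ) • (h2 g * h2 g - -(h2 g * h2 g)) := by
    rw [← h3, ← h1]
    simp only [h4, kul, Matrix.of_apply, sub_smul, Finset.sum_sub_distrib]
  rw [h4', sub_neg_eq_add, ← two_smul ℝ (h2 g * h2 g), smul_smul]
  norm_num

end Pool.H68.LV
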