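import Pool.Agent.H68.LV.Cal2
import Pool.Agent.H68.LV.Rel

/-!
# Module LFT: Leibniz rules for the exterior covariant derivatives

covR_mul: mpd is a derivation (mpd_mul) and X |-> NR X - X NR is a derivation.
dL_mul_even: sum_m Lc m (covR X m * Y + X * covR Y m), and Lc m commutes with X x.
dL_mul_odd: Lc m X = - X Lc m. The same on the right. Note that only the value X x at the point
has to commute / anticommute with the Lc m.
-/

open Matrix
open scoped ContDiff

noncomputable section
namespace Pool.H68.LV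

variable {n : ℕ} (G : Fin n → E n → Mat n)

theorem DA.mul {α β γ : Type} [Fintype β] {X : E n → Matrix α β ℝ}
    {Y : E n → Matrix β γ ℝ} {x : E n} (hX : DA X x) (hY : DA Y x) :
    DA (fun y => X y * Y y) x := by
  intro a c
  have h1 : (fun y => (X y * Y y) a c) = fun y => ∑ b, X y a b * Y y b c := by
    funext y
    rw [Matrix.mul_apply]
  rw [h1]
  exact DifferentiableAt.fun_sum fun b _ => (hX a b).mul (hY b c)

theorem DA.pow {α : Type} [Fintype α] [DecidableEq α] {X : E n → Matrix α α ℝ} {x : E n}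
    (hX : DA X x) (k : ℕ) : DA (fun y => X y ^ k) x := by
  induction k with
  | zero =>
    intro a b
    simp only [pow_zero]
    exact differentiableAt_const _
  | succ k ih =>
    simp only [pow_succ']
    exact hX.mul ih

private theorem abs1 {R : Type*} [Ring R] {dX dY X Y N : R} :
    (dX * Y + X * dY) - (N * (X * Y) - X * Y * N)
      = (dX - (N * X - X * N)) * Y + X * (dY - (N * Y - Y * N)) := by
  noncomm_ring

private theorem covR_one (m : Fin n) (x : E n) : covR G (fun _ => 1) m x = 0 := by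
  rw [covR, mpd_const, mul_one, one_mul, sub_self, sub_self]

private theorem covL_one (m : Fin n) (x : E n) : covL G (fun _ => 1) m x = 0 := by
  rw [covL, mpd_const, mul_one, one_mul, sub_self, sub_self]

private theorem quad_R (i : Fin n) (a b c d : DD n) (h1 : Rc i * a = a * Rc i)
    (h2 : Rc i * b = b * Rc i) (h3 : Rc i * c = -(c * Rc i)) (h4 : Rc i * d = -(d * Rc i)) :
    Rc i * (a * b * c * d) = a * b * c * d * Rc i := by
  calc Rc i * (a * b * c * d) = (Rc i * a) * b * c * d := by simp only [mul_assoc]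
    _ = a * (Rc i * b) * c * d := by rw [h1]; simp only [mul_assoc]
    _ = a * b * (Rc i * c) * d := by rw [h2]; simp only [mul_assoc]
    _ = -(a * b * c * (Rc i * d)) := by rw [h3]; simp only [mul_assoc, neg_mul, mul_neg]
    _ = _ := by rw [h4]; simp only [mul_assoc, neg_mul, mul_neg, neg_neg]

private theorem quad_L (i : Fin n) (a b c d : DD n) (h1 : Lc i * a = -(a * Lc i))
    (h2 : Lc i * b = -(b * Lc i)) (h3 : Lc i * c = c * Lc i) (h4 : Lc i * d = d * Lc i) :
    Lc i * (a * b * c * d) = a * b * c * d * Lc i := by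
  calc Lc i * (a * b * c * d) = (Lc i * a) * b * c * d := by simp only [mul_assoc]
    _ = -(a * (Lc i * b) * c * d) := by rw [h1]; simp only [mul_assoc, neg_mul, mul_neg]
    _ = a * b * (Lc i * c) * d := by
      rw [h2]; simp only [mul_assoc, neg_mul, mul_neg, neg_neg]
    _ = a * b * c * (Lc i * d) := by rw [h3]; simp only [mul_assoc]
    _ = _ := by rw [h4]; simp only [mul_assoc]

theorem covR_mul {X Y : E n → DD n} {x : E n} (hX : DA X x) (hY : DA Y x) (m : Fin n) :
    covR G (fun y => X y * Y y) m x = covR G X m x * Y x + X x * covR G Y m x := by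
  rw [covR, covR, covR, mpd_mul m hX hY]
  exact abs1

theorem covL_mul {X Y : E n → DD n} {x : E n} (hX : DA X x) (hY : DA Y x) (m : Fin n) :
    covL G (fun y => X y * Y y) m x = covL G X m x * Y x + X x * covL G Y m x := by
  rw [covL, covL, covL, mpd_mul m hX hY]
  exact abs1

theorem dL_mul_even {X Y : E n → DD n} {x : E n} (hX : DA X x) (hY : DA Y x)
    (h : ∀ i, Lc i * X x = X x * Lc i) :
    dL G (fun y => X y * Y y) x = dL G X x * Y x + X x * dL G Y x := by
  rw [dL, dL, dL, Finset.sum_mul, Finset.mul_sum, ← Finset.sum_add_distrib]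
  refine Finset.sum_congr rfl fun m _ => ?_
  rw [covR_mul G hX hY, mul_add, ← mul_assoc, ← mul_assoc, h, mul_assoc (X x)]

theorem dL_mul_odd {X Y : E n → DD n} {x : E n} (hX : DA X x) (hY : DA Y x)
    (h : ∀ i, Lc i * X x = -(X x * Lc i)) :
    dL G (fun y => X y * Y y) x = dL G X x * Y x - X x * dL G Y x := by
  rw [dL, dL, dL, Finset.sum_mul, Finset.mul_sum, ← Finset.sum_sub_distrib]
  refine Finset.sum_congr rfl fun m _ => ?_
  rw [covR_mul G hX hY, mul_add, ← mul_assoc, ← mul_assoc, h, neg_mul, mul_assoc (X x),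
    ← sub_eq_add_neg]

theorem dR_mul_even {X Y : E n → DD n} {x : E n} (hX : DA X x) (hY : DA Y x)
    (h : ∀ i, Rc i * X x = X x * Rc i) :
    dR G (fun y => X y * Y y) x = dR G X x * Y x + X x * dR G Y x := by
  rw [dR, dR, dR, Finset.sum_mul, Finset.mul_sum, ← Finset.sum_add_distrib]
  refine Finset.sum_congr rfl fun m _ => ?_
  rw [covL_mul G hX hY, mul_add, ← mul_assoc, ← mul_assoc, h, mul_assoc (X x)]

theorem dR_mul_odd {X Y : E n → DD n} {x : E n} (hX : DA X x) (hY : DA Y x)
    (h : ∀ i, Rc i * X x = -(X x * Rc i)) :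
    dR G (fun y => X y * Y y) x = dR G X x * Y x - X x * dR G Y x := by
  rw [dR, dR, dR, Finset.sum_mul, Finset.mul_sum, ← Finset.sum_sub_distrib]
  refine Finset.sum_congr rfl fun m _ => ?_
  rw [covL_mul G hX hY, mul_add, ← mul_assoc, ← mul_assoc, h, neg_mul, mul_assoc (X x),
    ← sub_eq_add_neg]

theorem dL_smul {f : E n → ℝ} {X : E n → DD n} {x : E n} (hf : DifferentiableAt ℝ f x)
    (hX : DA X x) : dL G (fun y => f y • X y) x
      = (∑ m, pd m f x • Lc m) * X x + f x • dL G X x := by
  have h1 : ∀ m, covR G (fun y => f y • X y) m x = pd m f x • X x + f x • covR G X m x := by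
    intro m
    rw [covR, covR, mpd_smul m hf hX, mul_smul_comm, smul_mul_assoc, ← smul_sub, add_sub_assoc,
      ← smul_sub]
  rw [dL, dL, Finset.sum_mul, Finset.smul_sum, ← Finset.sum_add_distrib]
  refine Finset.sum_congr rfl fun m _ => ?_
  rw [h1, mul_add, mul_smul_comm, mul_smul_comm, smul_mul_assoc]

/-- Parity of h2 and h4. -/
theorem Lc_h2 (h : Mat n) (i : Fin n) : Lc i * h2 h = -(h2 h * Lc i) := by
  rw [h2, Finset.mul_sum, Finset.sum_mul, ← Finset.sum_neg_distrib]
  refine Finset.sum_congr rfl fun j _ => ?_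
  rw [Finset.mul_sum, Finset.sum_mul, ← Finset.sum_neg_distrib]
  refine Finset.sum_congr rfl fun k _ => ?_
  rw [mul_smul_comm, smul_mul_assoc, ← smul_neg, ← mul_assoc, Lc_mul_Lc i j, neg_mul, mul_assoc,
    Lc_mul_Rc i k, mul_assoc]

theorem Rc_h2 (h : Mat n) (i : Fin n) : Rc i * h2 h = -(h2 h * Rc i) := by
  rw [h2, Finset.mul_sum, Finset.sum_mul, ← Finset.sum_neg_distrib]
  refine Finset.sum_congr rfl fun j _ => ?_
  rw [Finset.mul_sum, Finset.sum_mul, ← Finset.sum_neg_distrib]
  refine Finset.sum_congr rfl fun k _ => ?_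
  rw [mul_smul_comm, smul_mul_assoc, ← smul_neg, ← mul_assoc, ← Lc_mul_Rc j i, mul_assoc,
    Rc_mul_Rc i k, mul_neg, mul_assoc]

theorem Lc_h4 (T : Fin n → Fin n → Mat n) (i : Fin n) : Lc i * h4 T = h4 T * Lc i := by
  rw [h4, mul_smul_comm, smul_mul_assoc]
  congr 1
  rw [Finset.mul_sum, Finset.sum_mul]
  refine Finset.sum_congr rfl fun a _ => ?_
  rw [Finset.mul_sum, Finset.sum_mul]
  refine Finset.sum_congr rfl fun b _ => ?_
  rw [Finset.mul_sum, Finset.sum_mul]
  refine Finset.sum_congr rfl fun c _ => ?_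
  rw [Finset.mul_sum, Finset.sum_mul]
  refine Finset.sum_congr rfl fun d _ => ?_
  rw [mul_smul_comm, smul_mul_assoc, quad_L i _ _ _ _ (Lc_mul_Lc i a) (Lc_mul_Lc i b)
    (Lc_mul_Rc i c) (Lc_mul_Rc i d)]

theorem Rc_h4 (T : Fin n → Fin n → Mat n) (i : Fin n) : Rc i * h4 T = h4 T * Rc i := by
  rw [h4, mul_smul_comm, smul_mul_assoc]
  congr 1
  rw [Finset.mul_sum, Finset.sum_mul]
  refine Finset.sum_congr rfl fun a _ => ?_
  rw [Finset.mul_sum, Finset.sum_mul]
  refine Finset.sum_congr rfl fun b _ => ?_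
  rw [Finset.mul_sum, Finset.sum_mul]
  refine Finset.sum_congr rfl fun c _ => ?_
  rw [Finset.mul_sum, Finset.sum_mul]
  refine Finset.sum_congr rfl fun d _ => ?_
  rw [mul_smul_comm, smul_mul_assoc, quad_R i _ _ _ _ (Lc_mul_Rc a i).symm (Lc_mul_Rc b i).symm
    (Rc_mul_Rc i c) (Rc_mul_Rc i d)]

/-- If X and Y are closed and X is even or odd at the point, then X Y is closed; powers. -/
theorem dL_pow_even {X : E n → DD n} {x : E n} (hX : DA X x)
    (h : ∀ i, Lc i * X x = X x * Lc i) (h0 : dL G X x = 0) (k : ℕ) :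
    dL G (fun y => X y ^ k) x = 0 := by
  induction k with
  | zero =>
    simp only [pow_zero]
    rw [dL]
    exact Finset.sum_eq_zero fun m _ => by rw [covR_one, mul_zero]
  | succ k ih =>
    simp only [pow_succ']
    rw [dL_mul_even G hX (hX.pow k) h, h0, ih, zero_mul, mul_zero, add_zero]

theorem dL_pow_odd {X : E n → DD n} {x : E n} (hX : DA X x)
    (h : ∀ i, Lc i * X x = -(X x * Lc i)) (h0 : dL G X x = 0) (k : ℕ) :
    dL G (fun y => X y ^ k) x = 0 := by
  induction k with
  | zero =>
    simp only [pow_zero]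
    rw [dL]
    exact Finset.sum_eq_zero fun m _ => by rw [covR_one, mul_zero]
  | succ k ih =>
    simp only [pow_succ']
    rw [dL_mul_odd G hX (hX.pow k) h, h0, ih, zero_mul, mul_zero, sub_zero]

theorem dR_pow_even {X : E n → DD n} {x : E n} (hX : DA X x)
    (h : ∀ i, Rc i * X x = X x * Rc i) (h0 : dR G X x = 0) (k : ℕ) :
    dR G (fun y => X y ^ k) x = 0 := by
  induction k with
  | zero =>
    simp only [pow_zero]
    rw [dR]
    exact Finset.sum_eq_zero fun m _ => by rw [covL_one, mul_zero]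
  | succ k ih =>
    simp only [pow_succ']
    rw [dR_mul_even G hX (hX.pow k) h, h0, ih, zero_mul, mul_zero, add_zero]

theorem dR_pow_odd {X : E n → DD n} {x : E n} (hX : DA X x)
    (h : ∀ i, Rc i * X x = -(X x * Rc i)) (h0 : dR G X x = 0) (k : ℕ) :
    dR G (fun y => X y ^ k) x = 0 := by
  induction k with
  | zero =>
    simp only [pow_zero]
    rw [dR]
    exact Finset.sum_eq_zero fun m _ => by rw [covL_one, mul_zero]
  | succ k ih =>
    simp only [pow_succ']
    rw [dR_mul_odd G hX (hX.pow k) h, h0, ih, zero_mul, mul_zero, sub_zero]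

end Pool.H68.LV
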