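import Pool.Agent.H68.LV.Crv
import Pool.Agent.H68.LV.Lft

/-!
# Module FLA: the metric and the curvature are closed double forms

dL_h2: sum_m Lc m (h2 (d_m g) - [NR Γ_m^T, h2 g]) = sum_(m,i,k) (d_m g - g Γ_m)_ik Lc m Lc i Rc k
(NR_h2: [NR A, h2 g] = h2 (g A^T)), and d_m g - g Γ_m = Γ_m^T g, whose entry (i,k) is
sum_p Γ^p_(mi) g_pk, symmetric in m, i: it is killed by the antisymmetry of Lc m Lc i.
dL_h4: sum_m Lc m h4(N_m) with N_m i j = d_m R_ij - Γ_m^T R_ij - R_ij Γ_m (NR_h4 with A = Γ_m^T),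
a sum over m, i, j of N_m ij contracted with Lc m Lc i Lc j: antisymmetrise over the cyclic
permutations and use RR_bianchi.
dR_h2, dR_h4: exchange the two factors: h2 g is symmetric, RR is symmetric under exchange of
pairs (RR_curv.pair), so the computation is the mirror image: [NL A, h2 g] = h2 (A g),
[NL A, h4 T] = (1/4) sum T_ijkl (A acting on i, j).
closed: from the Leibniz rules; h4 is even, h2 is odd.
-/

open Matrix
open scoped ContDiff

noncomputable section
namespace Pool.H68.LV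

variable {n : ℕ} {U : Set (E n)} {g : E n → Mat n}

/-! Exchange of the two factors. -/

def swp (X : DD n) : DD n := X.submatrix Prod.swap Prod.swap

theorem swp_swp (X : DD n) : swp (swp X) = X := rfl

theorem swp_add (X Y : DD n) : swp (X + Y) = swp X + swp Y := rfl

theorem swp_sub (X Y : DD n) : swp (X - Y) = swp X - swp Y := rfl

theorem swp_zero : swp (0 : DD n) = 0 := rfl

theorem swp_smul (c : ℝ) (X : DD n) : swp (c • X) = c • swp X := rfl

theorem swp_mul (X Y : DD n) : swp (X * Y) = swp X * swp Y :=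
  (Matrix.submatrix_mul_equiv X Y Prod.swap (Equiv.prodComm (FI n) (FI n)) Prod.swap).symm

theorem swp_sum {ι : Type} (s : Finset ι) (f : ι → DD n) :
    swp (∑ i ∈ s, f i) = ∑ i ∈ s, swp (f i) := by
  classical
  induction s using Finset.induction_on with
  | empty => simp [swp_zero]
  | insert a s ha ih => rw [Finset.sum_insert ha, Finset.sum_insert ha, swp_add, ih]

theorem swp_Lc (i : Fin n) : swp (Lc i) = Rc i := by
  ext ⟨S, T⟩ ⟨S', T'⟩
  show cr i T T' * (1 : Matrix (FI n) (FI n) ℝ) S S' = (1 : Matrix (FI n) (FI n) ℝ) S S' * cr i T T'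
  rw [mul_comm]

theorem swp_Rc (i : Fin n) : swp (Rc i) = Lc i := by
  rw [← swp_Lc, swp_swp]

theorem swp_La (i : Fin n) : swp (La i) = Ra i := by
  ext ⟨S, T⟩ ⟨S', T'⟩
  show (cr i)ᵀ T T' * (1 : Matrix (FI n) (FI n) ℝ) S S'
    = (1 : Matrix (FI n) (FI n) ℝ) S S' * (cr i)ᵀ T T'
  rw [mul_comm]

theorem swp_NL (A : Mat n) : swp (NL A) = NR A := by
  rw [NL, NR, swp_sum]
  refine Finset.sum_congr rfl fun p _ => ?_
  rw [swp_sum]
  refine Finset.sum_congr rfl fun q _ => ?_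
  rw [swp_smul, swp_mul, swp_Lc, swp_La]

theorem swp_NR (A : Mat n) : swp (NR A) = NL A := by
  rw [← swp_NL, swp_swp]

theorem swp_h2 (h : Mat n) : swp (h2 h) = h2 hᵀ := by
  rw [h2, h2, swp_sum, Finset.sum_congr rfl fun i _ => swp_sum _ _, Finset.sum_comm]
  refine Finset.sum_congr rfl fun j _ => Finset.sum_congr rfl fun i _ => ?_
  rw [swp_smul, swp_mul, swp_Lc, swp_Rc, ← Lc_mul_Rc, transpose_apply]

theorem swp_h4 (T : Fin n → Fin n → Mat n) (hT : ∀ i j k l, T i j k l = T k l i j) :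
    swp (h4 T) = h4 T := by
  rw [h4, swp_smul]
  congr 1
  rw [swp_sum, Finset.sum_congr rfl fun i _ => swp_sum _ _,
    Finset.sum_congr rfl fun i _ => Finset.sum_congr rfl fun j _ => swp_sum _ _,
    Finset.sum_congr rfl fun i _ => Finset.sum_congr rfl fun j _ =>
      Finset.sum_congr rfl fun k _ => swp_sum _ _]
  have e : ∀ f : Fin n → Fin n → Fin n → Fin n → DD n, ∑ a, ∑ b, ∑ c, ∑ d, f a b c d
      = ∑ a, ∑ b, ∑ c, ∑ d, f c d a b := by
    intro f
    have h := Finset.sum_comm (s := (Finset.univ : Finset (Fin n × Fin n)))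
      (t := (Finset.univ : Finset (Fin n × Fin n))) (f := fun u v => f u.1 u.2 v.1 v.2)
    simpa only [Fintype.sum_prod_type] using h
  rw [e]
  refine Finset.sum_congr rfl fun i _ => Finset.sum_congr rfl fun j _ =>
    Finset.sum_congr rfl fun k _ => Finset.sum_congr rfl fun l _ => ?_
  rw [swp_smul, swp_mul, swp_mul, swp_mul, swp_Lc, swp_Lc, swp_Rc, swp_Rc, ← hT i j k l]
  congr 1
  have c1 : Commute (Lc i * Lc j : DD n) (Rc k * Rc l) :=
    ((show Commute (Lc i : DD n) (Rc k) from Lc_mul_Rc i k).mul_right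
      (show Commute (Lc i : DD n) (Rc l) from Lc_mul_Rc i l)).mul_left
    ((show Commute (Lc j : DD n) (Rc k) from Lc_mul_Rc j k).mul_right
      (show Commute (Lc j : DD n) (Rc l) from Lc_mul_Rc j l))
  rw [mul_assoc, ← c1.eq, mul_assoc (Lc i * Lc j)]

theorem bt_swp (X : DD n) : bt (swp X) = bt X := rfl

theorem covL_swp (G : Fin n → E n → Mat n) (X : E n → DD n) (m : Fin n) (x : E n) :
    covL G X m x = swp (covR G (fun y => swp (X y)) m x) := by
  rw [covL, covR, swp_sub, swp_sub, swp_mul, swp_mul, swp_NR, swp_swp]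
  rfl

theorem dR_swp (G : Fin n → E n → Mat n) (X : E n → DD n) (x : E n) :
    dR G X x = swp (dL G (fun y => swp (X y)) x) := by
  rw [dR, dL, swp_sum]
  refine Finset.sum_congr rfl fun m _ => ?_
  rw [swp_mul, swp_Lc, covL_swp]

theorem dL_congr_on (G : Fin n → E n → Mat n) (hU : IsOpen U) {X Y : E n → DD n}
    (h : ∀ y ∈ U, X y = Y y) {x : E n} (hx : x ∈ U) : dL G X x = dL G Y x := by
  rw [dL, dL]
  refine Finset.sum_congr rfl fun m _ => ?_
  rw [covR, covR, mpd_congr_on hU h hx, h x hx]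

/-! Sums against antisymmetric words. -/

private theorem anti2 (c : Fin n → Fin n → DD n) (hc : ∀ m i, c m i = c i m) :
    ∑ m, ∑ i, Lc m * Lc i * c m i = 0 := by
  have h1 : ∑ m, ∑ i, Lc m * Lc i * c m i = - ∑ m, ∑ i, Lc m * Lc i * c m i := by
    conv_lhs => rw [Finset.sum_comm]
    rw [← Finset.sum_neg_distrib]
    refine Finset.sum_congr rfl fun i _ => ?_
    rw [← Finset.sum_neg_distrib]
    refine Finset.sum_congr rfl fun m _ => ?_
    rw [Lc_mul_Lc m i, neg_mul, hc m i]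
  have h2 : (2 : ℝ) • ∑ m, ∑ i, Lc m * Lc i * c m i = 0 := by
    rw [two_smul]
    nth_rewrite 1 [h1]
    exact neg_add_cancel _
  exact (smul_eq_zero.mp h2).resolve_left two_ne_zero

private theorem cyc3 (c : Fin n → Fin n → Fin n → DD n)
    (hc : ∀ m i j, c m i j + c i j m + c j m i = 0) :
    ∑ m, ∑ i, ∑ j, Lc m * Lc i * Lc j * c m i j = 0 := by
  have W : ∀ m i j : Fin n, (Lc m * Lc i * Lc j : DD n) = Lc i * Lc j * Lc m := by
    intro m i j
    rw [Lc_mul_Lc m i, neg_mul, mul_assoc, Lc_mul_Lc m j, mul_neg, neg_neg, mul_assoc]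
  have rot : ∀ f : Fin n → Fin n → Fin n → DD n,
      ∑ m, ∑ i, ∑ j, f m i j = ∑ m, ∑ i, ∑ j, f i j m := by
    intro f
    have h := Finset.sum_comm (s := (Finset.univ : Finset (Fin n × Fin n)))
      (t := (Finset.univ : Finset (Fin n))) (f := fun u v => f u.1 u.2 v)
    simpa only [Fintype.sum_prod_type] using h
  have h1 : ∑ m, ∑ i, ∑ j, Lc m * Lc i * Lc j * c m i j
      = ∑ m, ∑ i, ∑ j, Lc m * Lc i * Lc j * c i j m := by
    rw [rot]
    refine Finset.sum_congr rfl fun m _ => Finset.sum_congr rfl fun i _ =>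
      Finset.sum_congr rfl fun j _ => ?_
    rw [W m i j]
  have h2 : ∑ m, ∑ i, ∑ j, Lc m * Lc i * Lc j * c m i j
      = ∑ m, ∑ i, ∑ j, Lc m * Lc i * Lc j * c j m i := by
    rw [h1, rot]
    refine Finset.sum_congr rfl fun m _ => Finset.sum_congr rfl fun i _ =>
      Finset.sum_congr rfl fun j _ => ?_
    rw [W m i j]
  have h3 : (3 : ℝ) • ∑ m, ∑ i, ∑ j, Lc m * Lc i * Lc j * c m i j = 0 := by
    have e : (3 : ℝ) • ∑ m, ∑ i, ∑ j, Lc m * Lc i * Lc j * c m i j
        = ∑ m, ∑ i, ∑ j, Lc m * Lc i * Lc j * c m i j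
          + ∑ m, ∑ i, ∑ j, Lc m * Lc i * Lc j * c i j m
          + ∑ m, ∑ i, ∑ j, Lc m * Lc i * Lc j * c j m i := by
      rw [← h1, ← h2]
      module
    rw [e]
    simp only [← Finset.sum_add_distrib]
    refine Finset.sum_eq_zero fun m _ => Finset.sum_eq_zero fun i _ =>
      Finset.sum_eq_zero fun j _ => ?_
    rw [← mul_add, ← mul_add, hc, mul_zero]
  exact (smul_eq_zero.mp h3).resolve_left three_ne_zero


private theorem mpd_metric' (hU : IsOpen U) (hg : Sm U g) (hs : ∀ x ∈ U, (g x)ᵀ = g x)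
    (hd : ∀ x ∈ U, (g x).det ≠ 0) {x : E n} (hx : x ∈ U) (m : Fin n) :
    mpd m g x = g x * GG g m x + (GG g m x)ᵀ * g x := by
  have hG : g x * GG g m x = CC g m x := by
    rw [GG, ← mul_assoc, Matrix.mul_nonsing_inv _ (isUnit_iff_ne_zero.mpr (hd x hx)), one_mul]
  rw [mpd_metric hU hg hs hx m, hG]
  congr 1
  rw [← hG, Matrix.transpose_mul, hs x hx]

theorem dL_h2 (hU : IsOpen U) (hg : Sm U g) (hs : ∀ x ∈ U, (g x)ᵀ = g x)
    (hd : ∀ x ∈ U, (g x).det ≠ 0) {x : E n} (hx : x ∈ U) :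
    dL (GG g) (fun y => h2 (g y)) x = 0 := by
  have h1 : ∀ m, covR (GG g) (fun y => h2 (g y)) m x = h2 ((GG g m x)ᵀ * g x) := by
    intro m
    rw [covR, mpd_h2 m (hg.da hU hx), NR_h2, transpose_transpose]
    have e : mpd m g x = g x * GG g m x + (GG g m x)ᵀ * g x := mpd_metric' hU hg hs hd hx m
    rw [e, h2_add]
    abel
  rw [dL]
  simp only [h1]
  have h3 : ∀ m, Lc m * h2 ((GG g m x)ᵀ * g x)
      = ∑ i, Lc m * Lc i * (∑ k, (((GG g m x)ᵀ * g x) i k) • Rc k : DD n) := by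
    intro m
    rw [h2, Finset.mul_sum]
    refine Finset.sum_congr rfl fun i _ => ?_
    rw [Finset.mul_sum, Finset.mul_sum]
    refine Finset.sum_congr rfl fun k _ => ?_
    rw [mul_smul_comm, mul_smul_comm, mul_assoc]
  simp only [h3]
  apply anti2
  intro m i
  refine Finset.sum_congr rfl fun k _ => ?_
  congr 1
  rw [Matrix.mul_apply, Matrix.mul_apply]
  refine Finset.sum_congr rfl fun p _ => ?_
  rw [transpose_apply, transpose_apply, GG_symm hU hg hs hx m p i]

theorem dR_h2 (hU : IsOpen U) (hg : Sm U g) (hs : ∀ x ∈ U, (g x)ᵀ = g x)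
    (hd : ∀ x ∈ U, (g x).det ≠ 0) {x : E n} (hx : x ∈ U) :
    dR (GG g) (fun y => h2 (g y)) x = 0 := by
  rw [dR_swp, dL_congr_on (GG g) hU (Y := fun y => h2 (g y)) (fun y hy => by
    rw [swp_h2, hs y hy]) hx, dL_h2 hU hg hs hd hx, swp_zero]

theorem dL_h4 (hU : IsOpen U) (hg : Sm U g) (hs : ∀ x ∈ U, (g x)ᵀ = g x)
    (hd : ∀ x ∈ U, (g x).det ≠ 0) {x : E n} (hx : x ∈ U) :
    dL (GG g) (fun y => h4 (RR g y)) x = 0 := by
  set N : Fin n → Fin n → Fin n → Mat n := fun m i j =>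
    mpd m (fun y => RR g y i j) x - (GG g m x)ᵀ * RR g x i j - RR g x i j * GG g m x with hN
  have hcyc : ∀ m i j, N m i j + N i j m + N j m i = 0 := fun m i j =>
    RR_bianchi hU hg hs hd hx m i j
  have h1 : ∀ m, covR (GG g) (fun y => h4 (RR g y)) m x = h4 (N m) := by
    intro m
    rw [covR, mpd_h4 m (fun a b => (RR_sm hU hg hd a b).da hU hx), NR_h4, transpose_transpose]
    have e : ∀ T T' : Fin n → Fin n → Mat n, h4 T - h4 T' = h4 (fun i j => T i j - T' i j) := by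
      intro T T'
      have := h4_add (fun i j => T i j - T' i j) T'
      simp only [sub_add_cancel] at this
      rw [this]
      abel
    rw [e]
    congr 1
    funext i j
    rw [hN]
    show _ = mpd m (fun y => RR g y i j) x - (GG g m x)ᵀ * RR g x i j - RR g x i j * GG g m x
    abel
  rw [dL]
  simp only [h1]
  have h3 : ∀ m, Lc m * h4 (N m) = (1 / 4 : ℝ) • ∑ i, ∑ j, Lc m * Lc i * Lc j *
      (∑ k, ∑ l, (N m i j k l) • (Rc k * Rc l) : DD n) := by
    intro m
    rw [h4, mul_smul_comm]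
    congr 1
    rw [Finset.mul_sum]
    refine Finset.sum_congr rfl fun i _ => ?_
    rw [Finset.mul_sum]
    refine Finset.sum_congr rfl fun j _ => ?_
    rw [Finset.mul_sum, Finset.mul_sum]
    refine Finset.sum_congr rfl fun k _ => ?_
    rw [Finset.mul_sum, Finset.mul_sum]
    refine Finset.sum_congr rfl fun l _ => ?_
    rw [mul_smul_comm, mul_smul_comm]
    simp only [mul_assoc]
  simp only [h3]
  rw [← Finset.smul_sum, cyc3, smul_zero]
  intro m i j
  simp only [← Finset.sum_add_distrib, ← add_smul]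
  refine Finset.sum_eq_zero fun k _ => Finset.sum_eq_zero fun l _ => ?_
  have := congrFun (congrFun (hcyc m i j) k) l
  rw [Matrix.add_apply, Matrix.add_apply] at this
  rw [this]
  exact zero_smul ℝ _

theorem dR_h4 (hU : IsOpen U) (hg : Sm U g) (hs : ∀ x ∈ U, (g x)ᵀ = g x)
    (hd : ∀ x ∈ U, (g x).det ≠ 0) {x : E n} (hx : x ∈ U) :
    dR (GG g) (fun y => h4 (RR g y)) x = 0 := by
  rw [dR_swp, dL_congr_on (GG g) hU (Y := fun y => h4 (RR g y)) (fun y hy => by
    rw [swp_h4 _ (RR_curv hU hg hs hd hy).pair]) hx, dL_h4 hU hg hs hd hx, swp_zero]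

theorem dL_closed (hU : IsOpen U) (hg : Sm U g) (hs : ∀ x ∈ U, (g x)ᵀ = g x)
    (hd : ∀ x ∈ U, (g x).det ≠ 0) {x : E n} (hx : x ∈ U) (k m : ℕ) :
    dL (GG g) (fun y => h4 (RR g y) ^ k * h2 (g y) ^ m) x = 0 := by
  have e4 : DA (fun y => h4 (RR g y)) x := (Sm.h4 fun i j => RR_sm hU hg hd i j).da hU hx
  have e2 : DA (fun y => h2 (g y)) x := (Sm.h2 hg).da hU hx
  have c4 : ∀ i, Lc i * h4 (RR g x) = h4 (RR g x) * Lc i := fun i => Lc_h4 _ i
  rw [dL_mul_even (GG g) (e4.pow k) (e2.pow m) (fun i =>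
    (show Commute (Lc i) (h4 (RR g x)) from c4 i).pow_right k),
    dL_pow_even (GG g) e4 c4 (dL_h4 hU hg hs hd hx) k,
    dL_pow_odd (GG g) e2 (fun i => Lc_h2 _ i) (dL_h2 hU hg hs hd hx) m, zero_mul, mul_zero,
    add_zero]

theorem dR_closed (hU : IsOpen U) (hg : Sm U g) (hs : ∀ x ∈ U, (g x)ᵀ = g x)
    (hd : ∀ x ∈ U, (g x).det ≠ 0) {x : E n} (hx : x ∈ U) (k m : ℕ) :
    dR (GG g) (fun y => h4 (RR g y) ^ k * h2 (g y) ^ m) x = 0 := by
  have e4 : DA (fun y => h4 (RR g y)) x := (Sm.h4 fun i j => RR_sm hU hg hd i j).da hU hx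
  have e2 : DA (fun y => h2 (g y)) x := (Sm.h2 hg).da hU hx
  have c4 : ∀ i, Rc i * h4 (RR g x) = h4 (RR g x) * Rc i := fun i => Rc_h4 _ i
  rw [dR_mul_even (GG g) (e4.pow k) (e2.pow m) (fun i =>
    (show Commute (Rc i) (h4 (RR g x)) from c4 i).pow_right k),
    dR_pow_even (GG g) e4 c4 (dR_h4 hU hg hs hd hx) k,
    dR_pow_odd (GG g) e2 (fun i => Rc_h2 _ i) (dR_h2 hU hg hs hd hx) m, zero_mul, mul_zero,
    add_zero]

end Pool.H68.LV
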