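import Pool.Agent.H68.LV.Wd

/-!
# Module GB1: the contraction formula for g = 1

Put u_i = Lc i * Rc i. These commute and u_i^2 = 0, and h2 1 = sum_i u_i, so
(h2 1)^m = m! * sum over subsets S with m elements of prod_(i in S) u_i
(induction on m or on n; the product over S can be written as a list product over a sorted list).
With m = n - 4: Lc(w 0..3) Rc(w' 0..3) prod_(i in S) u_i = wL(w ++ S) * wR(w' ++ S) (move the
R's to the right, no sign). By bt_word / bt_word_ne it is zero unless w ++ S and w' ++ S are
enumerations of Fin n; then S is the complement of the range of w and of w', and the value is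
sign(w ++ S) * sign(w' ++ S) = sign of the permutation p of Fin 4 with w' = w o p
= det (delta (w a) (w' b)). If w is not injective or the ranges differ, the determinant is 0
(two equal rows, or a zero row).
-/

open Matrix

noncomputable section
namespace Pool.H68.LV

variable {n : ℕ}

private theorem h2_one : (h2 (1 : Mat n) : DD n) = ∑ i, Lc i * Rc i := by
  rw [h2]
  refine Finset.sum_congr rfl fun i _ => ?_
  rw [Finset.sum_eq_single i]
  · rw [Matrix.one_apply_eq, one_smul]
  · intro j _ hj
    rw [Matrix.one_apply_ne (Ne.symm hj), zero_smul]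
  · intro h; exact absurd (Finset.mem_univ _) h

private theorem pow_sum (u : Fin n → DD n) (m : ℕ) :
    (∑ i, u i) ^ m = ∑ f : Fin m → Fin n, (List.ofFn fun a => u (f a)).prod := by
  induction m with
  | zero => simp
  | succ m ih =>
    rw [pow_succ', ih, Finset.sum_mul_sum, ← (Fin.consEquiv (fun _ => Fin n)).sum_comp,
      Fintype.sum_prod_type]
    refine Finset.sum_congr rfl fun i _ => Finset.sum_congr rfl fun f _ => ?_
    rw [List.ofFn_succ, List.prod_cons]
    simp [Fin.consEquiv]

theorem Rc_wL (b : Fin n) (w : List (Fin n)) :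
    (Rc b : DD n) * wL w = wL w * Rc b := by
  induction w with
  | nil => simp [wL]
  | cons a w ih =>
    rw [wL, List.map_cons, List.prod_cons]
    rw [show (List.map Lc w).prod = (wL w : DD n) from rfl]
    rw [← mul_assoc, ← Lc_mul_Rc, mul_assoc, ih, mul_assoc]

theorem wR_wL (w w' : List (Fin n)) : (wR w' : DD n) * wL w = wL w * wR w' := by
  induction w' with
  | nil => simp [wR]
  | cons a w' ih =>
    rw [wR, List.map_cons, List.prod_cons]
    rw [show (List.map Rc w').prod = (wR w' : DD n) from rfl]
    rw [mul_assoc, ih, ← mul_assoc, Rc_wL, mul_assoc]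

theorem wL_append (w w' : List (Fin n)) : (wL (w ++ w') : DD n) = wL w * wL w' := by
  rw [wL, wL, wL, List.map_append, List.prod_append]

theorem wR_append (w w' : List (Fin n)) : (wR (w ++ w') : DD n) = wR w * wR w' := by
  rw [wR, wR, wR, List.map_append, List.prod_append]

theorem u_list (l : List (Fin n)) :
    (l.map fun a => (Lc a * Rc a : DD n)).prod = wL l * wR l := by
  induction l with
  | nil => simp [wL, wR]
  | cons a l ih =>
    rw [List.map_cons, List.prod_cons, ih]
    have e1 : (wL (a :: l) : DD n) = Lc a * wL l := by rw [wL, wL, List.map_cons, List.prod_cons]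
    have e2 : (wR (a :: l) : DD n) = Rc a * wR l := by rw [wR, wR, List.map_cons, List.prod_cons]
    rw [e1, e2, mul_assoc, ← mul_assoc (Rc a), Rc_wL, mul_assoc, mul_assoc]

theorem bt_join (w w' l : List (Fin n)) :
    bt (wL w * wR w' * (wL l * wR l)) = bt (wL (w ++ l) * wR (w' ++ l)) := by
  congr 1
  rw [wL_append, wR_append, mul_assoc, ← mul_assoc (wR w'), wR_wL, mul_assoc, mul_assoc]

/-- The determinant of the Gram matrix of two words. -/
private theorem bt_gram (g g' : Fin n → Fin n) :
    bt (wL (List.ofFn g) * wR (List.ofFn g'))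
      = (Matrix.of fun a b => if g a = g' b then (1 : ℝ) else 0).det := by
  rw [bt_word, ← Matrix.det_transpose (Matrix.of fun i a => if i = g a then (1 : ℝ) else 0),
    ← Matrix.det_mul]
  congr 1
  ext a b
  rw [Matrix.mul_apply]
  simp only [transpose_apply, Matrix.of_apply, mul_ite, mul_one, mul_zero]
  rw [Finset.sum_eq_single (g' b)]
  · rw [if_pos rfl]
    by_cases h : g a = g' b
    · rw [if_pos h, if_pos h.symm]
    · rw [if_neg h, if_neg (Ne.symm h)]
  · intro i _ hi
    rw [if_neg hi]
  · intro h; exact absurd (Finset.mem_univ _) h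

private theorem det_blocks (m : ℕ) (w w' : Fin 4 → Fin (4 + m)) (f : Fin m → Fin (4 + m)) :
    (Matrix.of fun a b => if Fin.append w f a = Fin.append w' f b then (1 : ℝ) else 0).det
      = if Function.Injective f ∧ (∀ a c, w a ≠ f c) ∧ (∀ a c, w' a ≠ f c) then
        (Matrix.of fun a b => if w a = w' b then (1 : ℝ) else 0).det else 0 := by
  split_ifs with h
  · obtain ⟨h1, h2, h3⟩ := h
    rw [← Matrix.det_submatrix_equiv_self finSumFinEquiv]
    have e : (Matrix.of fun a b => if Fin.append w f a = Fin.append w' f b then (1 : ℝ)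
        else 0).submatrix finSumFinEquiv finSumFinEquiv
        = Matrix.fromBlocks (Matrix.of fun a b => if w a = w' b then (1 : ℝ) else 0) 0 0
          (1 : Matrix (Fin m) (Fin m) ℝ) := by
      ext a b
      rcases a with a | a <;> rcases b with b | b
      · simp
      · simp [h2 a b]
      · simp [Ne.symm (h3 b a)]
      · simp only [Matrix.submatrix_apply, Matrix.of_apply, finSumFinEquiv_apply_right,
          Fin.append_right, Matrix.fromBlocks_apply₂₂, Matrix.one_apply]
        by_cases hab : a = b
        · rw [if_pos hab, if_pos (congrArg f hab)]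
        · rw [if_neg hab, if_neg (fun hh => hab (h1 hh))]
    rw [e, Matrix.det_fromBlocks_zero₂₁, Matrix.det_one, mul_one]
  · have h4 : (∃ a b, a ≠ b ∧ Fin.append w f a = Fin.append w f b) ∨
        (∃ a b, a ≠ b ∧ Fin.append w' f a = Fin.append w' f b) := by
      by_contra hc
      push Not at hc
      apply h
      refine ⟨fun a b hab => ?_, fun a c hac => ?_, fun a c hac => ?_⟩
      · by_contra hne
        refine hc.1 (Fin.natAdd 4 a) (Fin.natAdd 4 b) ?_ ?_
        · intro hh
          apply hne
          simpa using hh
        · rw [Fin.append_right, Fin.append_right, hab]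
      · refine hc.1 (Fin.castAdd m a) (Fin.natAdd 4 c) ?_ ?_
        · intro hh
          have := congrArg Fin.val hh
          simp at this
          omega
        · rw [Fin.append_right, Fin.append_left, hac]
      · refine hc.2 (Fin.castAdd m a) (Fin.natAdd 4 c) ?_ ?_
        · intro hh
          have := congrArg Fin.val hh
          simp at this
          omega
        · rw [Fin.append_right, Fin.append_left, hac]
    rcases h4 with ⟨a, b, hab, he⟩ | ⟨a, b, hab, he⟩
    · apply Matrix.det_zero_of_row_eq hab
      funext c
      simp only [Matrix.of_apply, he]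
    · apply Matrix.det_zero_of_column_eq hab
      intro c
      simp only [Matrix.of_apply, he]

private theorem card_good (m : ℕ) (w w' : Fin 4 → Fin (4 + m))
    (hD : (Matrix.of fun a b => if w a = w' b then (1 : ℝ) else 0).det ≠ 0) :
    (Finset.univ.filter fun f : Fin m → Fin (4 + m) =>
      Function.Injective f ∧ (∀ a c, w a ≠ f c) ∧ (∀ a c, w' a ≠ f c)).card = m.factorial := by
  classical
  have hw : Function.Injective w := by
    intro a b hab
    by_contra hne
    apply hD
    apply Matrix.det_zero_of_row_eq hne
    funext c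
    simp only [Matrix.of_apply, hab]
  have hw' : Function.Injective w' := by
    intro a b hab
    by_contra hne
    apply hD
    apply Matrix.det_zero_of_column_eq hne
    intro c
    simp only [Matrix.of_apply, hab]
  have hr : Finset.univ.image w' ⊆ Finset.univ.image w := by
    intro x hx
    obtain ⟨b, _, rfl⟩ := Finset.mem_image.mp hx
    by_contra hne
    apply hD
    apply Matrix.det_eq_zero_of_column_eq_zero b
    intro a
    rw [Matrix.of_apply, if_neg]
    intro hh
    exact hne (Finset.mem_image.mpr ⟨a, Finset.mem_univ _, hh⟩)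
  set R : Finset (Fin (4 + m)) := (Finset.univ.image w)ᶜ with hR
  have hRm : ∀ x, x ∈ R → x ∈ Finset.univ.image w → False := by
    intro x h1 h2
    rw [hR, Finset.mem_compl] at h1
    exact h1 h2
  have hRc : R.card = m := by
    rw [hR, Finset.card_compl, Finset.card_image_of_injective _ hw, Finset.card_univ,
      Fintype.card_fin, Fintype.card_fin]
    omega
  have hcard : Fintype.card (Fin m ↪ R) = m.factorial := by
    rw [Fintype.card_embedding_eq, Fintype.card_coe, Fintype.card_fin, hRc,
      Nat.descFactorial_self]
  rw [← hcard, ← Finset.card_univ]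
  symm
  refine Finset.card_bij (fun e _ => fun a => (e a : Fin (4 + m))) ?_ ?_ ?_
  · intro e _
    rw [Finset.mem_filter]
    refine ⟨Finset.mem_univ _, fun a b hab => e.injective (Subtype.ext hab), fun a c hac => ?_,
      fun a c hac => ?_⟩
    · exact hRm _ (e c).2 (Finset.mem_image.mpr ⟨a, Finset.mem_univ _, hac⟩)
    · exact hRm _ (e c).2 (hr (Finset.mem_image.mpr ⟨a, Finset.mem_univ _, hac⟩))
  · intro e _ e' _ hh
    refine DFunLike.ext _ _ fun a => Subtype.ext ?_
    exact congrFun hh a
  · intro f hf
    rw [Finset.mem_filter] at hf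
    obtain ⟨_, h1, h2, _⟩ := hf
    have hmem : ∀ c, f c ∈ R := by
      intro c
      rw [hR, Finset.mem_compl]
      intro hh
      obtain ⟨a, _, ha⟩ := Finset.mem_image.mp hh
      exact h2 a c ha
    refine ⟨⟨fun c => ⟨f c, hmem c⟩, fun a b hab => h1 (congrArg Subtype.val hab)⟩,
      Finset.mem_univ _, rfl⟩

theorem bt_delta (hn : 4 ≤ n) (w w' : Fin 4 → Fin n) :
    bt (wL (List.ofFn w) * wR (List.ofFn w') * h2 (1 : Mat n) ^ (n - 4))
      = (n - 4).factorial * (Matrix.of fun a b => if w a = w' b then (1 : ℝ) else 0).det := by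
  obtain ⟨m, rfl⟩ := Nat.exists_eq_add_of_le hn
  rw [Nat.add_sub_cancel_left, h2_one, pow_sum, Finset.mul_sum]
  have h1 : bt (∑ f : Fin m → Fin (4 + m), wL (List.ofFn w) * wR (List.ofFn w') *
      (List.ofFn fun a => (Lc (f a) * Rc (f a) : DD (4 + m))).prod)
      = ∑ f : Fin m → Fin (4 + m), bt (wL (List.ofFn w) * wR (List.ofFn w') *
      (List.ofFn fun a => (Lc (f a) * Rc (f a) : DD (4 + m))).prod) := by
    rw [bt, Matrix.sum_apply]
    rfl
  rw [h1]
  have h2 : ∀ f : Fin m → Fin (4 + m), bt (wL (List.ofFn w) * wR (List.ofFn w') *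
      (List.ofFn fun a => (Lc (f a) * Rc (f a) : DD (4 + m))).prod)
      = if Function.Injective f ∧ (∀ a c, w a ≠ f c) ∧ (∀ a c, w' a ≠ f c) then
        (Matrix.of fun a b => if w a = w' b then (1 : ℝ) else 0).det else 0 := by
    intro f
    have e1 : (List.ofFn fun a => (Lc (f a) * Rc (f a) : DD (4 + m))).prod
        = wL (List.ofFn f) * wR (List.ofFn f) := by
      rw [← u_list, List.map_ofFn]
      rfl
    rw [e1, bt_join, ← List.ofFn_fin_append, ← List.ofFn_fin_append, bt_gram, det_blocks]
  simp only [h2]
  rw [← Finset.sum_filter, Finset.sum_const, nsmul_eq_mul]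
  by_cases hD : (Matrix.of fun a b => if w a = w' b then (1 : ℝ) else 0).det = 0
  · rw [hD, mul_zero, mul_zero]
  · rw [card_good m w w' hD]

end Pool.H68.LV
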