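import Pool.Agent.H68.LV.Gb2
import Pool.Agent.H68.LV.Gb4
import Pool.Agent.H68.LV.Cov

/-!
# Module GB3: Gauss-Bonnet scalar and double forms

Since g is positive definite there is an invertible J with g = J^T J (e.g.
Matrix.posSemidef_iff_eq_conjTranspose_mul_self, det g > 0, or the square root).
Put T' = pull J^(-1) T, so T = pull J T' (pull_pull, pull_one). By bt_pull with g = 1
bt(h4 T^2 h2 g^(n-4)) = det(J)^2 bt(h4 T'^2 h2 1^(n-4)), det(J)^2 = det g, and
gbT g T = gbT (J^T 1 J) (pull J T') = gbT 1 T' by gbT_pull.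
-/

open Matrix
open scoped MatrixOrder

noncomputable section
namespace Pool.H68.LV

variable {n : ℕ}

theorem bt_gb (hn : 4 ≤ n) (g : Mat n) (hg : g.PosDef) (T : Fin n → Fin n → Mat n)
    (hT : Curv T) :
    bt (h4 T ^ 2 * h2 g ^ (n - 4)) = ((n - 4).factorial / 4) * g.det * gbT g T := by
  obtain ⟨J, hJ⟩ := CStarAlgebra.nonneg_iff_eq_star_mul_self.mp hg.posSemidef.nonneg
  rw [star_eq_conjTranspose, Matrix.conjTranspose_eq_transpose_of_trivial] at hJ
  have hdet : g.det = J.det ^ 2 := by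
    rw [hJ, Matrix.det_mul, Matrix.det_transpose, pow_two]
  have hgd : 0 < g.det := hg.det_pos
  have hJd : J.det ≠ 0 := by
    intro h
    rw [hdet, h] at hgd
    norm_num at hgd
  have hJu : IsUnit J.det := isUnit_iff_ne_zero.mpr hJd
  have hg1 : g = Jᵀ * 1 * J := by rw [mul_one]; exact hJ
  set T' := pull J⁻¹ T with hT'
  have hTp : T = pull J T' := by
    rw [hT', pull_pull, Matrix.nonsing_inv_mul _ hJu, pull_one]
  have hcT : Curv T' := hT.pull _
  have h1 : bt (h4 T ^ 2 * h2 g ^ (n - 4)) = J.det ^ 2 * bt (h4 T' ^ 2 * h2 (1 : Mat n) ^ (n - 4)) := by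
    rw [← bt_pull J 1 T' 2 (n - 4), ← hTp, ← hg1]
  have h2 : gbT g T = gbT 1 T' := by
    conv_lhs => rw [hg1, hTp]
    exact gbT_pull J 1 T' hJu (by rw [Matrix.det_one]; exact isUnit_one)
  rw [h1, bt_gb_one hn T' hcT, h2, hdet]
  ring

end Pool.H68.LV
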