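import Pool.Agent.H68.LV.Gts
import Pool.Agent.H68.LV.Gb4
import Pool.Agent.H68.LV.Crv

/-!
# Module GBI: chart independence of the curvature quantities

For x in e.source let e' = chartAt x, Φ = e' o e.symm, defined on the open set
V = (e.symm.trans e').source, e x in V, Φ(e x) = e' x. On V: gT e = pb Φ (gT e') (gT_trans), so
RR (gT e) (e x) = RR (pb Φ (gT e')) (e x) (RR depends only on the germ) = pull J (RR (gT e') (e' x))
(RR_pb), J = jac Φ (e x) invertible (jac_trans_ne). gb: gbT_pull. sec: tq_pull and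
qf (J^T g J) u = qf g (J u).
continuity of gbM: near x use the fixed chart e = chartAt x: gbM = gb (gT e) o e on e.source, and
gb (gT e) is continuous on e.target (RR_sm, Sm.inv: smooth entries).
-/

open MeasureTheory Manifold Bundle Set
open scoped ContDiff Matrix

noncomputable section
namespace Pool.H68.LV

variable {n : ℕ} {M : Type} [MetricSpace M] [ChartedSpace (E n) M]
  [IsManifold 𝓘(ℝ, E n) ∞ M]
  [RiemannianBundle (fun x : M => TangentSpace 𝓘(ℝ, E n) x)]
  [IsContMDiffRiemannianBundle 𝓘(ℝ, E n) ∞ (E n) (fun x : M => TangentSpace 𝓘(ℝ, E n) x)]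

theorem RR_congr_on {U : Set (E n)} (hU : IsOpen U) {g g' : E n → Mat n}
    (h : ∀ y ∈ U, g y = g' y) {x : E n} (hx : x ∈ U) : RR g x = RR g' x := by
  have hC : ∀ j, ∀ y ∈ U, CC g j y = CC g' j y := by
    intro j y hy
    ext k l
    simp only [CC, Matrix.of_apply]
    rw [pd_congr_on hU (fun z hz => by rw [h z hz]) hy j,
      pd_congr_on hU (fun z hz => by rw [h z hz]) hy l,
      pd_congr_on hU (fun z hz => by rw [h z hz]) hy k]
  funext i j
  rw [RR, RR, mpd_congr_on hU (hC j) hx, mpd_congr_on hU (hC i) hx, hC i x hx, hC j x hx, h x hx]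

private theorem qf_pb' (G J : Mat n) (v : E n) :
    qf (Jᵀ * G * J) v = qf G (WithLp.toLp 2 (J *ᵥ v.ofLp)) := by
  rw [qf_dotp, qf_dotp, mul_assoc, ← Matrix.mulVec_mulVec, ← Matrix.mulVec_mulVec,
    Matrix.mulVec_transpose, dotProduct_comm, ← Matrix.dotProduct_mulVec, dotProduct_comm]

private theorem bf_pb' (G J : Mat n) (u v : E n) :
    bf (Jᵀ * G * J) u v
      = bf G (WithLp.toLp 2 (J *ᵥ u.ofLp)) (WithLp.toLp 2 (J *ᵥ v.ofLp)) := by
  rw [bf_dotp, bf_dotp, mul_assoc, ← Matrix.mulVec_mulVec, ← Matrix.mulVec_mulVec,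
    Matrix.mulVec_transpose, dotProduct_comm, ← Matrix.dotProduct_mulVec, dotProduct_comm]

omit [RiemannianBundle (fun x : M => TangentSpace 𝓘(ℝ, E n) x)]
  [IsContMDiffRiemannianBundle 𝓘(ℝ, E n) ∞ (E n) (fun x : M => TangentSpace 𝓘(ℝ, E n) x)] in
private theorem chart_mem (x : M) :
    chartAt (E n) x ∈ IsManifold.maximalAtlas 𝓘(ℝ, E n) ∞ M :=
  IsManifold.chart_mem_maximalAtlas x

private theorem chart_pull {e e' : OpenPartialHomeomorph M (E n)}
    (he : e ∈ IsManifold.maximalAtlas 𝓘(ℝ, E n) ∞ M)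
    (he' : e' ∈ IsManifold.maximalAtlas 𝓘(ℝ, E n) ∞ M) {x : M} (hx : x ∈ e.source)
    (hx' : x ∈ e'.source) :
    ∃ J : Mat n, J.det ≠ 0 ∧ gT e (e x) = Jᵀ * gT e' (e' x) * J ∧
      RR (gT e) (e x) = pull J (RR (gT e') (e' x)) := by
  have hV : IsOpen (e.symm.trans e').source := (e.symm.trans e').open_source
  have hmem : e x ∈ (e.symm.trans e').source := by
    simp only [mfld_simps, hx, hx']
  have hΦ : (e' ∘ e.symm) (e x) = e' x := by
    simp only [Function.comp, e.left_inv hx]
  have hm : Set.MapsTo (e' ∘ e.symm) (e.symm.trans e').source e'.target := by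
    intro y hy
    simp only [mfld_simps] at hy
    exact e'.map_source hy.2
  have h1 := gT_trans he he' hmem
  rw [pb, hΦ] at h1
  refine ⟨jac (e' ∘ e.symm) (e x), jac_trans_ne he he' hmem, h1, ?_⟩
  rw [RR_congr_on hV (fun y hy => gT_trans he he' hy) hmem,
    RR_pb e'.open_target hV (trans_contDiffOn he he') hm (gT_sm he')
      (fun y _ => gT_symm e' y) (fun y hy => (gT_pos he' hy).det_pos.ne')
      (fun y hy => jac_trans_ne he he' hy) hmem, hΦ]

private theorem gbT_contOn {U : Set (E n)} {g : E n → Mat n} {T : E n → Fin n → Fin n → Mat n}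
    (h1 : ∀ i j, ContinuousOn (fun y => (g y)⁻¹ i j) U)
    (h2 : ∀ i j k l, ContinuousOn (fun y => T y i j k l) U) :
    ContinuousOn (fun y => gbT (g y) (T y)) U := by
  have hr : ∀ i k, ContinuousOn (fun y => ricT (g y) (T y) i k) U := by
    intro i k
    simp only [ricT, Matrix.of_apply]
    exact continuousOn_finset_sum _ fun j _ => continuousOn_finset_sum _ fun l _ =>
      (h1 j l).mul (h2 i j k l)
  have hs : ContinuousOn (fun y => scT (g y) (T y)) U := by
    simp only [scT]
    exact continuousOn_finset_sum _ fun j _ => continuousOn_finset_sum _ fun l _ =>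
      (h1 j l).mul (hr j l)
  simp only [gbT]
  refine ((hs.pow 2).sub (continuousOn_const.mul ?_)).add ?_
  · exact continuousOn_finset_sum _ fun i _ => continuousOn_finset_sum _ fun k _ =>
      continuousOn_finset_sum _ fun a _ => continuousOn_finset_sum _ fun b _ =>
      (((h1 i a).mul (h1 k b)).mul (hr i k)).mul (hr a b)
  · exact continuousOn_finset_sum _ fun i _ => continuousOn_finset_sum _ fun j _ =>
      continuousOn_finset_sum _ fun k _ => continuousOn_finset_sum _ fun l _ =>
      continuousOn_finset_sum _ fun a _ => continuousOn_finset_sum _ fun b _ =>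
      continuousOn_finset_sum _ fun c _ => continuousOn_finset_sum _ fun d _ =>
      (((((h1 i a).mul (h1 j b)).mul (h1 k c)).mul (h1 l d)).mul (h2 i j k l)).mul (h2 a b c d)

theorem gb_gT {e : OpenPartialHomeomorph M (E n)}
    (he : e ∈ IsManifold.maximalAtlas 𝓘(ℝ, E n) ∞ M) {x : M} (hx : x ∈ e.source) :
    gb (gT e) (e x) = gbM n M x := by
  obtain ⟨J, hJ, h1, h2⟩ := chart_pull he (chart_mem x) hx (mem_chart_source (E n) x)
  rw [gb, gbM, gb, h1, h2]
  refine gbT_pull J _ _ (isUnit_iff_ne_zero.2 hJ) (isUnit_iff_ne_zero.2 ?_)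
  exact (gT_pos (chart_mem x) ((chartAt (E n) x).map_source (mem_chart_source (E n) x))).det_pos.ne'

theorem sec_gT {κ : ℝ} (h : SecGeM n M κ) {e : OpenPartialHomeomorph M (E n)}
    (he : e ∈ IsManifold.maximalAtlas 𝓘(ℝ, E n) ∞ M) {y : E n} (hy : y ∈ e.target) (u v : E n) :
    -κ * (qf (gT e y) u * qf (gT e y) v - bf (gT e y) u v ^ 2) ≤ tq (RR (gT e) y) u v := by
  have hx : e.symm y ∈ e.source := e.map_target hy
  obtain ⟨J, hJ, h1, h2⟩ := chart_pull he (chart_mem (e.symm y)) hx
    (mem_chart_source (E n) (e.symm y))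
  rw [e.right_inv hy] at h1 h2
  have h3 := h (e.symm y) (WithLp.toLp 2 (J *ᵥ u.ofLp)) (WithLp.toLp 2 (J *ᵥ v.ofLp))
  rw [h1, h2, tq_pull, qf_pb', qf_pb', bf_pb']
  exact h3

theorem gbM_continuous : Continuous (gbM n M) := by
  rw [continuous_iff_continuousAt]
  intro x
  set e := chartAt (E n) x with he
  have hm : e ∈ IsManifold.maximalAtlas 𝓘(ℝ, E n) ∞ M := chart_mem x
  have h1 : ContinuousOn (fun y => gb (gT e) y) e.target := by
    refine gbT_contOn ?_ ?_
    · intro i j
      exact (Sm.inv (gT_sm hm) (fun y hy => (gT_pos hm hy).det_pos.ne') i j).continuousOn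
    · intro i j k l
      exact (RR_sm e.open_target (gT_sm hm) (fun y hy => (gT_pos hm hy).det_pos.ne') i j k l).continuousOn
  have h2 : ContinuousOn (fun z => gb (gT e) (e z)) e.source :=
    h1.comp e.continuousOn (fun z hz => e.map_source hz)
  have h3 : ContinuousOn (gbM n M) e.source :=
    h2.congr (fun z hz => (gb_gT hm hz).symm)
  exact h3.continuousAt (e.open_source.mem_nhds (mem_chart_source (E n) x))

end Pool.H68.LV
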