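import Pool.Agent.H68.LV.Cmp

/-!
# Module GLB: the global comparison

Constants: ρ3, η1, C1 from loc_compare; s = min (ρ3/(2Λ)) (r/(64 Λ)). Let p be the s-net of M,
p' a = F (p a). θ_a q = max 0 (2s - dist (p a) q), on M' the same with p'. On M: sum θ_b >= s; on M'
(η <= s/4): for q' choose q with dist (F q) q' <= η and a with dist (p a) q < s, then
dist (p' a) q' <= s + 2η <= 3s/2, so sum θ'_b >= s/2. Put χ_a = θ_a / sum θ_b: continuous,
0 <= χ_a <= 1, sum χ_a = 1, Lipschitz with a constant depending on N, s; zero if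
dist (p a) q >= 2s. So ℓ 1 = sum ℓ(χ_a), and ℓ(χ_a) = int_(ball 0 r) χ_a(ψ_a x) dn 2 g_a
(Pk.int, 2s < r/(8Λ)).
φ_a x = χ_a (ψ_a x) on ball 0 (r/4), 0 outside; it vanishes outside closedBall 0 (2Λs), which is
contained in closedBall 0 ρ3 and in ball 0 (r/8) (by Pk.left and Pk.cov applied
to q = ψ x: |x| = |χ (ψ x)| <= Λ dist (p a) (ψ x); also for x in ball 0 r outside ball 0 (r/4) the function
x -> χ_a (ψ_a x) vanishes by the same argument). φ_a is Lipschitz (Pk.bil on ball 0 (r/4)).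
F_a x = χ'(F (ψ_a x)) for x in ball 0 (r/(32 Λ^2)), 0 outside (χ' the inverse chart at p' a):
measurable, bounded by r/16, F_a 0 = 0; Pk.cov for M' gives ψ'(F_a x) = F (ψ_a x) and
|F_a x| <= Λ (Λ |x| + η) < r/16 (dist p' (F ψ x) <= dist p (ψ x) + η).
D x y = dist (ψ x) (ψ y), D' alike. |φ_a x - φ'_a (F_a x)| = |χ_a(q) - χ'_a(F q)| <= L η with q = ψ_a x
(each |θ_b q - θ'_b (F q)| <= η, denominators >= s/2). Apply loc_compare to every a and sum.
-/

open Matrix MeasureTheory Metric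
open scoped ContDiff NNReal

noncomputable section
namespace Pool.H68.LV

/-- Chart data around a point of a metric space with a functional ℓ (integration against the
curvature density). -/
structure Pk (n : ℕ) (κ r Λ C0 h0 : ℝ) {M : Type} [MetricSpace M] [MeasurableSpace M]
    (ℓ : (M → ℝ) → ℝ) (p : M) (ψ : E n → M) (χ : M → E n) (g : E n → Mat n) : Prop where
  base : ψ 0 = p
  ms : MS Λ κ (ball 0 r) g
  left : ∀ x ∈ ball (0 : E n) r, χ (ψ x) = x
  meas : Measurable χ
  cont : ContinuousOn ψ (ball 0 r)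
  cov : ∀ q, dist p q < r / (4 * Λ) → ψ (χ q) = q ∧ ‖χ q‖ ≤ Λ * dist p q
  bil : ∀ x ∈ ball (0 : E n) (r / 4), ∀ y ∈ ball (0 : E n) (r / 4),
    ‖x - y‖ ≤ Λ * dist (ψ x) (ψ y) ∧ dist (ψ x) (ψ y) ≤ Λ * ‖x - y‖
  exp : ∀ z ∈ ball (0 : E n) (r / 8), ∀ h, 0 < h → h ≤ h0 → ∀ x ∈ closedBall z h,
    ∀ y ∈ closedBall z h, |dist (ψ x) (ψ y) ^ 2 - qf (g z) (x - y)| ≤ C0 * h ^ 3
  int : ∀ f : M → ℝ, Continuous f → (∀ q, f q ≠ 0 → dist p q < r / (8 * Λ)) →
    ℓ f = ∫ x in ball (0 : E n) r, f (ψ x) * dn 2 g x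

/-- Extension by zero of a Lipschitz function on a ball with support in a smaller ball. -/
private theorem ext_lip {n : ℕ} {R R' K : ℝ} (hR : R' < R) (hK : 0 ≤ K) (f : E n → ℝ)
    (hf : ∀ x ∈ ball (0 : E n) R, ∀ y ∈ ball (0 : E n) R, |f x - f y| ≤ K * ‖x - y‖)
    (h1 : ∀ x ∈ ball (0 : E n) R, |f x| ≤ 1)
    (h0 : ∀ x ∈ ball (0 : E n) R, f x ≠ 0 → ‖x‖ ≤ R') (x y : E n) :
    |(ball (0 : E n) R).indicator f x - (ball (0 : E n) R).indicator f y|
      ≤ (K + 1 / (R - R')) * ‖x - y‖ := by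
  have hd : 0 < R - R' := by linarith
  have hq : 0 ≤ 1 / (R - R') := by positivity
  have key : ∀ u ∈ ball (0 : E n) R, ∀ v ∉ ball (0 : E n) R,
      |f u| ≤ (K + 1 / (R - R')) * ‖u - v‖ := by
    intro u hu v hv
    by_cases hz : f u = 0
    · rw [hz, abs_zero]; positivity
    · have hu' := h0 u hu hz
      have hv' : R ≤ ‖v‖ := by
        rw [mem_ball_zero_iff, not_lt] at hv; exact hv
      have h2 : R - R' ≤ ‖u - v‖ := by
        have := norm_sub_norm_le v u
        rw [norm_sub_rev] at this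
        linarith
      have h3 : 1 ≤ 1 / (R - R') * ‖u - v‖ := by
        rw [one_div, inv_mul_eq_div, le_div_iff₀ hd]; linarith
      have h4 : 0 ≤ K * ‖u - v‖ := by positivity
      have := h1 u hu
      nlinarith
  by_cases hx : x ∈ ball (0 : E n) R <;> by_cases hy : y ∈ ball (0 : E n) R
  · rw [Set.indicator_of_mem hx, Set.indicator_of_mem hy]
    refine (hf x hx y hy).trans ?_
    have : 0 ≤ 1 / (R - R') * ‖x - y‖ := by positivity
    nlinarith
  · rw [Set.indicator_of_mem hx, Set.indicator_of_notMem hy, sub_zero]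
    exact key x hx y hy
  · rw [Set.indicator_of_notMem hx, Set.indicator_of_mem hy, zero_sub, abs_neg, norm_sub_rev]
    exact key y hy x hx
  · rw [Set.indicator_of_notMem hx, Set.indicator_of_notMem hy, sub_zero, abs_zero]
    positivity

/-- Comparison of the functionals on one test function supported near one point. -/
private theorem piece (n : ℕ) (κ r Λ C0 h0 : ℝ) (hn : 4 ≤ n) (hκ : 0 ≤ κ) (hr : 0 < r)
    (hΛ : 1 ≤ Λ) (hC0 : 0 ≤ C0) (hh0 : 0 < h0) :
    ∃ s : ℝ, 0 < s ∧ 64 * Λ * s ≤ r ∧ ∃ C1 : ℝ, 0 ≤ C1 ∧ ∃ η1 : ℝ, 0 < η1 ∧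
      ∀ (M M' : Type) [MetricSpace M] [MetricSpace M'] [MeasurableSpace M] [MeasurableSpace M']
        [BorelSpace M] [BorelSpace M'] (ℓ : (M → ℝ) → ℝ) (ℓ' : (M' → ℝ) → ℝ)
        (F : M → M') (p : M) (ψ : E n → M) (χ : M → E n) (g : E n → Mat n)
        (ψ' : E n → M') (χ' : M' → E n) (g' : E n → Mat n) (η K0 : ℝ) (f : M → ℝ) (f' : M' → ℝ),
        Pk n κ r Λ C0 h0 ℓ p ψ χ g → Pk n κ r Λ C0 h0 ℓ' (F p) ψ' χ' g' →
        Measurable F → 0 < η → η ≤ η1 → (∀ x y, |dist (F x) (F y) - dist x y| ≤ η) →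
        0 ≤ K0 → Continuous f → Continuous f' → (∀ q, |f q| ≤ 1) → (∀ q, |f' q| ≤ 1) →
        (∀ q, f q ≠ 0 → dist p q < 2 * s) → (∀ q, f' q ≠ 0 → dist (F p) q < 2 * s) →
        (∀ q q', |f q - f q'| ≤ K0 * dist q q') → (∀ q q', |f' q - f' q'| ≤ K0 * dist q q') →
        (∀ q, |f q - f' (F q)| ≤ K0 * η) →
        |ℓ f - ℓ' f'| ≤ C1 * (1 + (K0 * Λ + 8 / r)) * η ^ (1 / 4 : ℝ) := by
  obtain ⟨ρ3, hρ3, η2, hη2, C1, hC1, H⟩ := loc_compare n κ r Λ C0 h0 hn hκ hr hΛ hC0 hh0
  have hΛ0 : 0 < Λ := by linarith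
  have hs0 : 0 < min (ρ3 / (2 * Λ)) (r / (64 * Λ)) := lt_min (by positivity) (by positivity)
  set s : ℝ := min (ρ3 / (2 * Λ)) (r / (64 * Λ)) with hsdef
  have hs1 : 2 * Λ * s ≤ ρ3 := by
    have : s ≤ ρ3 / (2 * Λ) := min_le_left _ _
    rw [le_div_iff₀ (by positivity)] at this; linarith
  have hs2 : 64 * Λ * s ≤ r := by
    have : s ≤ r / (64 * Λ) := min_le_right _ _
    rw [le_div_iff₀ (by positivity)] at this; linarith
  refine ⟨s, hs0, hs2, C1, hC1, min η2 (r / (64 * Λ)), lt_min hη2 (by positivity), ?_⟩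
  intro M M' _ _ _ _ _ _ ℓ ℓ' F p ψ χ g ψ' χ' g' η K0 f f' hP hP' hF hη hη' hd hK0 hfc hfc'
    hf1 hf1' hfs hfs' hfl hfl' hff
  have hηa : η ≤ η2 := hη'.trans (min_le_left _ _)
  have hηb : 64 * Λ * η ≤ r := by
    have : η ≤ r / (64 * Λ) := hη'.trans (min_le_right _ _)
    rw [le_div_iff₀ (by positivity)] at this; linarith
  -- general facts on supports
  have h2s : 2 * s < r / (8 * Λ) := by
    rw [lt_div_iff₀ (by positivity)]; nlinarith
  have h2s' : 2 * s < r / (4 * Λ) := by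
    rw [lt_div_iff₀ (by positivity)]; nlinarith
  have hr2 : 0 < r / (32 * Λ ^ 2) := by positivity
  have hr2' : r / (32 * Λ ^ 2) ≤ r / 32 := by
    apply div_le_div_of_nonneg_left hr.le (by norm_num)
    nlinarith
  have sup : ∀ x ∈ ball (0 : E n) r, f (ψ x) ≠ 0 → ‖x‖ ≤ 2 * Λ * s := by
    intro x hx hne
    have h1 := hfs _ hne
    have h2 := (hP.cov (ψ x) (h1.trans h2s')).2
    rw [hP.left x hx] at h2
    nlinarith
  have sup' : ∀ x ∈ ball (0 : E n) r, f' (ψ' x) ≠ 0 → ‖x‖ ≤ 2 * Λ * s := by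
    intro x hx hne
    have h1 := hfs' _ hne
    have h2 := (hP'.cov (ψ' x) (h1.trans h2s')).2
    rw [hP'.left x hx] at h2
    nlinarith
  have b4 : ball (0 : E n) (r / 4) ⊆ ball 0 r := ball_subset_ball (by linarith)
  -- the functions in the charts
  set φ : E n → ℝ := (ball (0 : E n) (r / 4)).indicator (fun x => f (ψ x)) with hφ
  set φ' : E n → ℝ := (ball (0 : E n) (r / 4)).indicator (fun x => f' (ψ' x)) with hφ'
  have hLnn : 0 ≤ K0 * Λ + 8 / r := by positivity
  set L : ℝ≥0 := ⟨K0 * Λ + 8 / r, hLnn⟩ with hL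
  have hR' : 2 * Λ * s ≤ r / 8 := by linarith
  have hLip : ∀ x y, |φ x - φ y| ≤ (K0 * Λ + 8 / r) * ‖x - y‖ := by
    intro x y
    have h1 := ext_lip (n := n) (R := r / 4) (R' := r / 8) (K := K0 * Λ) (by linarith)
      (by positivity) (fun x => f (ψ x)) ?_ (fun x _ => hf1 _)
      (fun x hx hne => (sup x (b4 hx) hne).trans hR') x y
    · have : (1 : ℝ) / (r / 4 - r / 8) = 8 / r := by field_simp; ring
      rw [this] at h1
      exact h1
    · intro x hx y hy
      refine (hfl _ _).trans ?_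
      rw [mul_assoc]
      exact mul_le_mul_of_nonneg_left (hP.bil x hx y hy).2 hK0
  have hLip' : ∀ x y, |φ' x - φ' y| ≤ (K0 * Λ + 8 / r) * ‖x - y‖ := by
    intro x y
    have h1 := ext_lip (n := n) (R := r / 4) (R' := r / 8) (K := K0 * Λ) (by linarith)
      (by positivity) (fun x => f' (ψ' x)) ?_ (fun x _ => hf1' _)
      (fun x hx hne => (sup' x (b4 hx) hne).trans hR') x y
    · have : (1 : ℝ) / (r / 4 - r / 8) = 8 / r := by field_simp; ring
      rw [this] at h1
      exact h1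
    · intro x hx y hy
      refine (hfl' _ _).trans ?_
      rw [mul_assoc]
      exact mul_le_mul_of_nonneg_left (hP'.bil x hx y hy).2 hK0
  have lipOf : ∀ θ : E n → ℝ, (∀ x y, |θ x - θ y| ≤ (K0 * Λ + 8 / r) * ‖x - y‖) →
      LipschitzWith L θ := by
    intro θ hθ
    refine LipschitzWith.of_dist_le_mul fun x y => ?_
    rw [Real.dist_eq, dist_eq_norm]
    exact hθ x y
  have int1 : ℓ f = ∫ x in ball (0 : E n) r, φ x * dn 2 g x := by
    rw [hP.int f hfc (fun q hq => (hfs q hq).trans h2s)]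
    refine setIntegral_congr_fun measurableSet_ball fun x hx => ?_
    by_cases hx4 : x ∈ ball (0 : E n) (r / 4)
    · simp only [hφ, Set.indicator_of_mem hx4]
    · have : f (ψ x) = 0 := by
        by_contra hne
        have := sup x hx hne
        rw [mem_ball_zero_iff, not_lt] at hx4
        linarith
      simp only [hφ, Set.indicator_of_notMem hx4, this]
  have int2 : ℓ' f' = ∫ x in ball (0 : E n) r, φ' x * dn 2 g' x := by
    rw [hP'.int f' hfc' (fun q hq => (hfs' q hq).trans h2s)]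
    refine setIntegral_congr_fun measurableSet_ball fun x hx => ?_
    by_cases hx4 : x ∈ ball (0 : E n) (r / 4)
    · simp only [hφ', Set.indicator_of_mem hx4]
    · have : f' (ψ' x) = 0 := by
        by_contra hne
        have := sup' x hx hne
        rw [mem_ball_zero_iff, not_lt] at hx4
        linarith
      simp only [hφ', Set.indicator_of_notMem hx4, this]
  -- the near isometry in the charts
  set B : Set (E n) := ball (0 : E n) (r / (32 * Λ ^ 2)) with hB
  set Fa : E n → E n := B.indicator (fun x => χ' (F (ψ x))) with hFa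
  have hB4 : ∀ x ∈ B, x ∈ ball (0 : E n) (r / 4) := by
    intro x hx
    rw [hB, mem_ball_zero_iff] at hx
    rw [mem_ball_zero_iff]; linarith
  have zero4 : (0 : E n) ∈ ball (0 : E n) (r / 4) := by
    rw [mem_ball_zero_iff, norm_zero]; positivity
  have hdB : ∀ x ∈ B, dist (F p) (F (ψ x)) < r / (4 * Λ) ∧
      Λ * dist (F p) (F (ψ x)) < r / 16 := by
    intro x hx
    have h1 := hd p (ψ x)
    have h2 := (hP.bil 0 zero4 x (hB4 x hx)).2
    rw [hP.base, zero_sub, norm_neg] at h2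
    rw [hB, mem_ball_zero_iff] at hx
    have h3 : Λ * ‖x‖ < r / (32 * Λ) := by
      have : Λ * ‖x‖ < Λ * (r / (32 * Λ ^ 2)) := mul_lt_mul_of_pos_left hx hΛ0
      have h4 : Λ * (r / (32 * Λ ^ 2)) = r / (32 * Λ) := by field_simp
      linarith
    have h5 : dist (F p) (F (ψ x)) < r / (32 * Λ) + η := by
      have := (abs_le.mp h1).2
      linarith
    have h6 : r / (32 * Λ) + η ≤ 3 * r / (64 * Λ) := by
      have : η ≤ r / (64 * Λ) := by rw [le_div_iff₀ (by positivity)]; linarith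
      have h7 : 3 * r / (64 * Λ) = r / (32 * Λ) + r / (64 * Λ) := by field_simp; ring
      linarith
    have h8 : dist (F p) (F (ψ x)) < 3 * r / (64 * Λ) := by linarith
    rw [lt_div_iff₀ (by positivity)] at h8
    constructor
    · rw [lt_div_iff₀ (by positivity)]; nlinarith
    · nlinarith
  have hFa1 : ∀ x ∈ B, ψ' (Fa x) = F (ψ x) ∧ ‖Fa x‖ < r / 16 := by
    intro x hx
    have h1 := hP'.cov (F (ψ x)) (hdB x hx).1
    simp only [hFa, Set.indicator_of_mem hx]
    exact ⟨h1.1, h1.2.trans_lt (hdB x hx).2⟩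
  have hFab : ∀ x, ‖Fa x‖ ≤ r / 16 := by
    intro x
    by_cases hx : x ∈ B
    · exact (hFa1 x hx).2.le
    · simp only [hFa, Set.indicator_of_notMem hx, norm_zero]; positivity
  have h0B : (0 : E n) ∈ B := by
    rw [hB, mem_ball_zero_iff, norm_zero]; exact hr2
  have hFa0 : Fa 0 = 0 := by
    simp only [hFa, Set.indicator_of_mem h0B, hP.base]
    have := hP'.left 0 (by rw [mem_ball_zero_iff, norm_zero]; exact hr)
    rw [hP'.base] at this
    exact this
  have hFam : Measurable Fa := by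
    have hBm : MeasurableSet B := measurableSet_ball
    have hc : ContinuousOn ψ B := hP.cont.mono fun x hx => b4 (hB4 x hx)
    refine measurable_of_restrict_of_restrict_compl hBm ?_ ?_
    · have h1 : B.domRestrict Fa = (fun x : B => χ' (F (B.domRestrict ψ x))) := by
        funext x
        exact Set.indicator_of_mem x.2 (fun x => χ' (F (ψ x)))
      rw [h1]
      exact hP'.meas.comp (hF.comp hc.domRestrict.measurable)
    · have h1 : Bᶜ.domRestrict Fa = fun _ => 0 := by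
        funext x
        exact Set.indicator_of_notMem x.2 (fun x => χ' (F (ψ x)))
      rw [h1]
      exact measurable_const
  have hmain := H g g' hP.ms hP'.ms (fun x y => dist (ψ x) (ψ y)) (fun x y => dist (ψ' x) (ψ' y))
    hP.bil hP'.bil hP.exp hP'.exp Fa (r / 16) η hFam hFab hη hηa hFa0
    (fun x hx => by rw [mem_ball_zero_iff]; exact (hFa1 x hx).2)
    (fun x hx y hy => by rw [(hFa1 x hx).1, (hFa1 y hy).1]; exact hd _ _)
    L φ φ' (lipOf φ hLip) (lipOf φ' hLip')
    (fun x => by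
      by_cases hx : x ∈ ball (0 : E n) (r / 4)
      · simp only [hφ, Set.indicator_of_mem hx]; exact hf1 _
      · simp only [hφ, Set.indicator_of_notMem hx, abs_zero]; norm_num)
    (fun x => by
      by_cases hx : x ∈ ball (0 : E n) (r / 4)
      · simp only [hφ', Set.indicator_of_mem hx]; exact hf1' _
      · simp only [hφ', Set.indicator_of_notMem hx, abs_zero]; norm_num)
    (fun x hx => by
      by_cases hx4 : x ∈ ball (0 : E n) (r / 4)
      · simp only [hφ, Set.indicator_of_mem hx4]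
        by_contra hne
        apply hx
        rw [mem_closedBall_zero_iff]
        exact (sup x (b4 hx4) hne).trans hs1
      · simp only [hφ, Set.indicator_of_notMem hx4])
    (fun x hx => by
      by_cases hx4 : x ∈ ball (0 : E n) (r / 4)
      · simp only [hφ', Set.indicator_of_mem hx4]
        by_contra hne
        apply hx
        rw [mem_closedBall_zero_iff]
        exact (sup' x (b4 hx4) hne).trans hs1
      · simp only [hφ', Set.indicator_of_notMem hx4])
    (fun x hx => by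
      have h1 : φ x = f (ψ x) := by simp only [hφ, Set.indicator_of_mem (hB4 x hx)]
      have h2 : Fa x ∈ ball (0 : E n) (r / 4) := by
        rw [mem_ball_zero_iff]; have := (hFa1 x hx).2; linarith
      have h3 : φ' (Fa x) = f' (F (ψ x)) := by
        simp only [hφ', Set.indicator_of_mem h2, (hFa1 x hx).1]
      rw [h1, h3]
      refine (hff _).trans ?_
      have : K0 ≤ K0 * Λ + 8 / r := by
        have : K0 * 1 ≤ K0 * Λ := mul_le_mul_of_nonneg_left hΛ hK0
        have h8 : 0 ≤ 8 / r := by positivity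
        linarith
      exact mul_le_mul_of_nonneg_right this hη.le)
  rw [int1, int2]
  exact hmain

/-- The partition of unity. -/
private theorem quot_bound {N : ℕ} {s δ : ℝ} (hs : 0 < s) (t t' : Fin N → ℝ)
    (h0' : ∀ b, 0 ≤ t' b) (hd : ∀ b, |t b - t' b| ≤ δ)
    (hS : s / 2 ≤ ∑ b, t b) (hS' : s / 2 ≤ ∑ b, t' b) (a : Fin N) :
    |t a / (∑ b, t b) - t' a / (∑ b, t' b)| ≤ 2 * (1 + N) / s * δ := by
  set T := ∑ b, t b
  set T' := ∑ b, t' b
  have hT : 0 < T := by linarith
  have hT' : 0 < T' := by linarith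
  have hδ : 0 ≤ δ := (abs_nonneg _).trans (hd a)
  have h1 : |T' - T| ≤ N * δ := by
    have : T' - T = ∑ b, (t' b - t b) := by rw [Finset.sum_sub_distrib]
    rw [this]
    refine (Finset.abs_sum_le_sum_abs _ _).trans ?_
    have : ∑ b : Fin N, |t' b - t b| ≤ ∑ _b : Fin N, δ :=
      Finset.sum_le_sum fun b _ => by rw [abs_sub_comm]; exact hd b
    refine this.trans ?_
    rw [Finset.sum_const, Finset.card_univ, Fintype.card_fin, nsmul_eq_mul]
  have h2 : t' a ≤ T' := Finset.single_le_sum (fun b _ => h0' b) (Finset.mem_univ a)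
  have h3 : t a / T - t' a / T' = (t a - t' a) / T + (t' a / T') * ((T' - T) / T) := by
    field_simp; ring
  rw [h3]
  have h4 : |(t a - t' a) / T| ≤ δ * (2 / s) := by
    rw [abs_div, abs_of_pos hT, div_le_iff₀ hT]
    have : 1 ≤ 2 / s * T := by
      rw [div_mul_eq_mul_div, le_div_iff₀ hs]; linarith
    calc |t a - t' a| ≤ δ := hd a
      _ = δ * 1 := (mul_one _).symm
      _ ≤ δ * (2 / s * T) := mul_le_mul_of_nonneg_left this hδ
      _ = δ * (2 / s) * T := by ring
  have h5 : |t' a / T'| ≤ 1 := by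
    rw [abs_div, abs_of_pos hT', abs_of_nonneg (h0' a), div_le_one hT']; exact h2
  have h6 : |(T' - T) / T| ≤ N * δ * (2 / s) := by
    rw [abs_div, abs_of_pos hT, div_le_iff₀ hT]
    have : 1 ≤ 2 / s * T := by
      rw [div_mul_eq_mul_div, le_div_iff₀ hs]; linarith
    calc |T' - T| ≤ N * δ := h1
      _ = N * δ * 1 := (mul_one _).symm
      _ ≤ N * δ * (2 / s * T) := mul_le_mul_of_nonneg_left this (by positivity)
      _ = N * δ * (2 / s) * T := by ring
  calc |(t a - t' a) / T + (t' a / T') * ((T' - T) / T)|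
      ≤ |(t a - t' a) / T| + |(t' a / T') * ((T' - T) / T)| := abs_add_le _ _
    _ ≤ δ * (2 / s) + 1 * (N * δ * (2 / s)) := by
        rw [abs_mul]
        exact add_le_add h4 (mul_le_mul h5 h6 (abs_nonneg _) (by norm_num))
    _ = 2 * (1 + N) / s * δ := by ring

private def tf {N : ℕ} {M : Type} [MetricSpace M] (s : ℝ) (p : Fin N → M) (a : Fin N) (q : M) :
    ℝ := max 0 (2 * s - dist (p a) q)

private def pf {N : ℕ} {M : Type} [MetricSpace M] (s : ℝ) (p : Fin N → M) (a : Fin N) (q : M) :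
    ℝ := tf s p a q / ∑ b, tf s p b q

private theorem max_sub_le {a b : ℝ} (δ : ℝ) (h : |a - b| ≤ δ) : |max 0 a - max 0 b| ≤ δ := by
  rcases le_total 0 a with ha | ha <;> rcases le_total 0 b with hb | hb
  · rwa [max_eq_right ha, max_eq_right hb]
  · rw [max_eq_right ha, max_eq_left hb, sub_zero, abs_of_nonneg ha]
    have := (abs_le.mp h).2; linarith
  · rw [max_eq_left ha, max_eq_right hb, zero_sub, abs_neg, abs_of_nonneg hb]
    have := (abs_le.mp h).1; linarith
  · rw [max_eq_left ha, max_eq_left hb, sub_zero, abs_zero]; exact (abs_nonneg _).trans h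

private theorem tf_nonneg {N : ℕ} {M : Type} [MetricSpace M] (s : ℝ) (p : Fin N → M)
    (a : Fin N) (q : M) : 0 ≤ tf s p a q := le_max_left _ _

private theorem tf_lip {N : ℕ} {M : Type} [MetricSpace M] (s : ℝ) (p : Fin N → M)
    (a : Fin N) (q q' : M) : |tf s p a q - tf s p a q'| ≤ dist q q' := by
  refine max_sub_le _ ?_
  have h1 := dist_triangle (p a) q q'
  have h2 := dist_triangle (p a) q' q
  rw [dist_comm q' q] at h2
  rw [abs_le]
  constructor <;> linarith

theorem glob (n : ℕ) (κ r Λ C0 h0 : ℝ) (hn : 4 ≤ n) (hκ : 0 ≤ κ) (hr : 0 < r)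
    (hΛ : 1 ≤ Λ) (hC0 : 0 ≤ C0) (hh0 : 0 < h0) :
    ∃ s : ℝ, 0 < s ∧ ∀ N : ℕ, ∃ C : ℝ, 0 ≤ C ∧ ∃ η0 : ℝ, 0 < η0 ∧
      ∀ (M M' : Type) [MetricSpace M] [MetricSpace M'] [MeasurableSpace M] [MeasurableSpace M']
        [BorelSpace M] [BorelSpace M'] (ℓ : (M → ℝ) → ℝ) (ℓ' : (M' → ℝ) → ℝ),
      (∀ f : Fin N → M → ℝ, (∀ a, Continuous (f a)) → ℓ (fun x => ∑ a, f a x) = ∑ a, ℓ (f a)) →
      (∀ f : Fin N → M' → ℝ, (∀ a, Continuous (f a)) →
        ℓ' (fun x => ∑ a, f a x) = ∑ a, ℓ' (f a)) →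
      (∀ p : M, ∃ ψ χ g, Pk n κ r Λ C0 h0 ℓ p ψ χ g) →
      (∀ p : M', ∃ ψ χ g, Pk n κ r Λ C0 h0 ℓ' p ψ χ g) →
      ∀ (F : M → M') (η : ℝ), Measurable F → 0 < η → η ≤ η0 →
      (∀ x y, |dist (F x) (F y) - dist x y| ≤ η) → (∀ x', ∃ x, dist (F x) x' ≤ η) →
      (∃ p : Fin N → M, ∀ x, ∃ a, dist (p a) x < s) →
      |ℓ (fun _ => 1) - ℓ' (fun _ => 1)| ≤ C * η ^ (1 / 4 : ℝ) := by
  obtain ⟨s, hs, hsr, C1, hC1, η1, hη1, H⟩ := piece n κ r Λ C0 h0 hn hκ hr hΛ hC0 hh0
  have hΛ0 : 0 < Λ := by linarith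
  refine ⟨s, hs, fun N => ⟨N * (C1 * (1 + (2 * (1 + N) / s * Λ + 8 / r))), by positivity,
    min η1 (s / 4), lt_min hη1 (by positivity), ?_⟩⟩
  intro M M' _ _ _ _ _ _ ℓ ℓ' hadd hadd' hM hM' F η hF hη hη' hd hdense hnet
  obtain ⟨p, hp⟩ := hnet
  have hηa : η ≤ η1 := hη'.trans (min_le_left _ _)
  have hηb : η ≤ s / 4 := hη'.trans (min_le_right _ _)
  set p' : Fin N → M' := fun a => F (p a) with hp'
  have hS : ∀ q, s / 2 ≤ ∑ b, tf s p b q := by
    intro q
    obtain ⟨a, ha⟩ := hp q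
    have h1 : tf s p a q ≤ ∑ b, tf s p b q :=
      Finset.single_le_sum (fun b _ => tf_nonneg s p b q) (Finset.mem_univ a)
    have h2 : 2 * s - dist (p a) q ≤ tf s p a q := le_max_right _ _
    linarith
  have hS' : ∀ q, s / 2 ≤ ∑ b, tf s p' b q := by
    intro q'
    obtain ⟨q, hq⟩ := hdense q'
    obtain ⟨a, ha⟩ := hp q
    have h1 : tf s p' a q' ≤ ∑ b, tf s p' b q' :=
      Finset.single_le_sum (fun b _ => tf_nonneg s p' b q') (Finset.mem_univ a)
    have h2 : 2 * s - dist (p' a) q' ≤ tf s p' a q' := le_max_right _ _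
    have h3 : dist (p' a) q' ≤ dist (F (p a)) (F q) + dist (F q) q' := dist_triangle _ _ _
    have h4 := (abs_le.mp (hd (p a) q)).2
    linarith
  have hSp : ∀ q, 0 < ∑ b, tf s p b q := fun q => by have := hS q; linarith
  have hSp' : ∀ q, 0 < ∑ b, tf s p' b q := fun q => by have := hS' q; linarith
  have one1 : (fun _ : M => (1 : ℝ)) = fun q => ∑ a, pf s p a q := by
    funext q
    simp only [pf]
    rw [← Finset.sum_div, div_self (hSp q).ne']
  have one2 : (fun _ : M' => (1 : ℝ)) = fun q => ∑ a, pf s p' a q := by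
    funext q
    simp only [pf]
    rw [← Finset.sum_div, div_self (hSp' q).ne']
  have lip1 : ∀ a q q', |pf s p a q - pf s p a q'| ≤ 2 * (1 + N) / s * dist q q' := fun a q q' =>
    quot_bound hs (fun b => tf s p b q) (fun b => tf s p b q')
      (fun b => tf_nonneg _ _ _ _) (fun b => tf_lip _ _ _ _ _) (hS q) (hS q') a
  have lip2 : ∀ a q q', |pf s p' a q - pf s p' a q'| ≤ 2 * (1 + N) / s * dist q q' :=
    fun a q q' =>
    quot_bound hs (fun b => tf s p' b q) (fun b => tf s p' b q')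
      (fun b => tf_nonneg _ _ _ _) (fun b => tf_lip _ _ _ _ _) (hS' q) (hS' q') a
  have contOf : ∀ (Y : Type) [MetricSpace Y] (f : Y → ℝ) (K : ℝ), 0 ≤ K →
      (∀ q q', |f q - f q'| ≤ K * dist q q') → Continuous f := by
    intro Y _ f K hK hf
    have : LipschitzWith ⟨K, hK⟩ f := LipschitzWith.of_dist_le_mul fun x y => by
      rw [Real.dist_eq]; exact hf x y
    exact this.continuous
  have hK0 : (0 : ℝ) ≤ 2 * (1 + N) / s := by positivity
  have c1 : ∀ a, Continuous (pf s p a) := fun a => contOf M _ _ hK0 (lip1 a)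
  have c2 : ∀ a, Continuous (pf s p' a) := fun a => contOf M' _ _ hK0 (lip2 a)
  rw [one1, one2, hadd _ c1, hadd' _ c2, ← Finset.sum_sub_distrib]
  refine (Finset.abs_sum_le_sum_abs _ _).trans ?_
  have hterm : ∀ a ∈ (Finset.univ : Finset (Fin N)), |ℓ (pf s p a) - ℓ' (pf s p' a)|
      ≤ C1 * (1 + (2 * (1 + N) / s * Λ + 8 / r)) * η ^ (1 / 4 : ℝ) := by
    intro a _
    obtain ⟨ψ, χ, g, hP⟩ := hM (p a)
    obtain ⟨ψ', χ', g', hP'⟩ := hM' (F (p a))
    refine H M M' ℓ ℓ' F (p a) ψ χ g ψ' χ' g' η (2 * (1 + N) / s) (pf s p a) (pf s p' a) hP hP'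
      hF hη hηa hd hK0 (c1 a) (c2 a) ?_ ?_ ?_ ?_ (lip1 a) (lip2 a) ?_
    · intro q
      have h2 : tf s p a q ≤ ∑ b, tf s p b q :=
        Finset.single_le_sum (fun b _ => tf_nonneg s p b q) (Finset.mem_univ a)
      rw [pf, abs_div, abs_of_pos (hSp q), abs_of_nonneg (tf_nonneg _ _ _ _), div_le_one (hSp q)]
      exact h2
    · intro q
      have h2 : tf s p' a q ≤ ∑ b, tf s p' b q :=
        Finset.single_le_sum (fun b _ => tf_nonneg s p' b q) (Finset.mem_univ a)
      rw [pf, abs_div, abs_of_pos (hSp' q), abs_of_nonneg (tf_nonneg _ _ _ _),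
        div_le_one (hSp' q)]
      exact h2
    · intro q hq
      by_contra hge
      apply hq
      have : tf s p a q = 0 := max_eq_left (by linarith [not_lt.mp hge])
      rw [pf, this, zero_div]
    · intro q hq
      by_contra hge
      apply hq
      have h9 : 2 * s ≤ dist (p' a) q := not_lt.mp hge
      have : tf s p' a q = 0 := max_eq_left (by linarith)
      rw [pf, this, zero_div]
    · intro q
      refine quot_bound hs (fun b => tf s p b q) (fun b => tf s p' b (F q))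
        (fun b => tf_nonneg _ _ _ _) (fun b => ?_) (hS q)
        (hS' (F q)) a
      refine max_sub_le _ ?_
      have : 2 * s - dist (p b) q - (2 * s - dist (p' b) (F q))
          = dist (F (p b)) (F q) - dist (p b) q := by simp only [hp']; ring
      rw [this]
      exact hd _ _
  refine (Finset.sum_le_sum hterm).trans ?_
  rw [Finset.sum_const, Finset.card_univ, Fintype.card_fin, nsmul_eq_mul]
  exact le_of_eq (by ring)

end Pool.H68.LV
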