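import Pool.Agent.H68.LV.Df

/-!
# Smooth matrix valued maps on normed spaces (generic version of Sm)
-/

open Matrix
open scoped ContDiff

noncomputable section
namespace Pool.H68.LV

variable {V : Type} [NormedAddCommGroup V] [NormedSpace ℝ V]

/-- Smooth fields of matrices on a set of a normed space. -/
def SmV {α β : Type} (U : Set V) (X : V → Matrix α β ℝ) : Prop :=
  ∀ a b, ContDiffOn ℝ ∞ (fun y => X y a b) U

variable {U : Set V} {α β γ : Type}

theorem SmV.add {X Y : V → Matrix α β ℝ} (hX : SmV U X) (hY : SmV U Y) :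
    SmV U (fun y => X y + Y y) := fun a b => (hX a b).add (hY a b)

theorem SmV.sub {X Y : V → Matrix α β ℝ} (hX : SmV U X) (hY : SmV U Y) :
    SmV U (fun y => X y - Y y) := fun a b => (hX a b).sub (hY a b)

theorem SmV.neg {X : V → Matrix α β ℝ} (hX : SmV U X) : SmV U (fun y => - X y) :=
  fun a b => (hX a b).neg

theorem SmV.smul {f : V → ℝ} {X : V → Matrix α β ℝ} (hf : ContDiffOn ℝ ∞ f U)
    (hX : SmV U X) : SmV U (fun y => f y • X y) := fun a b => hf.mul (hX a b)

theorem SmV.transpose {X : V → Matrix α β ℝ} (hX : SmV U X) : SmV U (fun y => (X y)ᵀ) :=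
  fun a b => hX b a

theorem SmV.const (A : Matrix α β ℝ) : SmV U (fun _ => A) := fun _ _ => contDiffOn_const

theorem SmV.mul [Fintype β] {X : V → Matrix α β ℝ} {Y : V → Matrix β γ ℝ} (hX : SmV U X)
    (hY : SmV U Y) : SmV U (fun y => X y * Y y) := by
  intro a c
  have : (fun y => (X y * Y y) a c) = fun y => ∑ b, X y a b * Y y b c := by
    funext y; rw [Matrix.mul_apply]
  rw [this]
  exact ContDiffOn.sum fun b _ => (hX a b).mul (hY b c)

theorem SmV.pow [Fintype α] [DecidableEq α] {X : V → Matrix α α ℝ} (hX : SmV U X) (k : ℕ) :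
    SmV U (fun y => X y ^ k) := by
  induction k with
  | zero => simp only [pow_zero]; exact SmV.const 1
  | succ k ih => simp only [pow_succ]; exact ih.mul hX

theorem SmV.sum {ι : Type} (s : Finset ι) {X : ι → V → Matrix α β ℝ}
    (hX : ∀ i ∈ s, SmV U (X i)) : SmV U (fun y => ∑ i ∈ s, X i y) := by
  intro a b
  have : (fun y => (∑ i ∈ s, X i y) a b) = fun y => ∑ i ∈ s, X i y a b := by
    funext y; rw [Matrix.sum_apply]
  rw [this]
  exact ContDiffOn.sum fun i hi => hX i hi a b

theorem SmV.det [Fintype α] [DecidableEq α] {X : V → Matrix α α ℝ} (hX : SmV U X) :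
    ContDiffOn ℝ ∞ (fun y => (X y).det) U := by
  have : (fun y => (X y).det)
      = fun y => ∑ σ : Equiv.Perm α, ((Equiv.Perm.sign σ : ℤ) : ℝ) * ∏ i, X y (σ i) i := by
    funext y
    rw [Matrix.det_apply']
  rw [this]
  exact ContDiffOn.sum fun σ _ => contDiffOn_const.mul (contDiffOn_prod fun i _ => hX _ _)

theorem SmV.inv [Fintype α] [DecidableEq α] {X : V → Matrix α α ℝ} (hX : SmV U X)
    (hd : ∀ x ∈ U, (X x).det ≠ 0) : SmV U (fun y => (X y)⁻¹) := by
  intro a b
  have : (fun y => (X y)⁻¹ a b)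
      = fun y => ((X y).det)⁻¹ * ((X y).updateRow b (Pi.single a 1)).det := by
    funext y
    rw [Matrix.inv_def, Ring.inverse_eq_inv', Matrix.smul_apply, Matrix.adjugate_apply,
      smul_eq_mul]
  rw [this]
  refine (hX.det.inv hd).mul (SmV.det ?_)
  intro c d
  by_cases hc : c = b
  · subst hc
    simp only [Matrix.updateRow_self]
    exact contDiffOn_const
  · simp only [Matrix.updateRow_ne hc]
    exact hX c d

theorem SmV.h2 {n : ℕ} {h : V → Mat n} (hh : SmV U h) :
    SmV U (fun y => Pool.H68.LV.h2 (h y)) :=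
  SmV.sum _ fun i _ => SmV.sum _ fun j _ => SmV.smul (hh i j) (SmV.const _)

theorem SmV.h4 {n : ℕ} {T : V → Fin n → Fin n → Mat n}
    (hT : ∀ i j, SmV U (fun y => T y i j)) : SmV U (fun y => Pool.H68.LV.h4 (T y)) :=
  SmV.smul contDiffOn_const (SmV.sum _ fun i _ => SmV.sum _ fun j _ => SmV.sum _ fun k _ =>
    SmV.sum _ fun l _ => SmV.smul (hT i j k l) (SmV.const _))

end Pool.H68.LV
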