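import Pool.Agent.H68.LV.Cal

/-!
# Mollification at scale one

cv f K is the convolution of f with the kernel K. For a smooth kernel with support in the unit
ball the derivatives fall on the kernel.
-/

open MeasureTheory Metric
open scoped ContDiff NNReal

noncomputable section
namespace Pool.H68.LV

variable {n : ℕ}

/-- The convolution. -/
def cv (f K : E n → ℝ) (x : E n) : ℝ := ∫ y, f y * K (x - y)

theorem cv_eq (f K : E n → ℝ) :
    cv f K = MeasureTheory.convolution f K (ContinuousLinearMap.mul ℝ ℝ) volume := by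
  funext x
  rfl

/-- Admissible kernels. -/
structure Ker (K : E n → ℝ) : Prop where
  sm : ContDiff ℝ ∞ K
  su : ∀ x, 1 < ‖x‖ → K x = 0

theorem Ker.cs {K : E n → ℝ} (hK : Ker K) : HasCompactSupport K := by
  refine HasCompactSupport.intro (isCompact_closedBall (0 : E n) 1) fun x hx => hK.su x ?_
  rw [mem_closedBall, dist_zero_right, not_le] at hx
  exact hx

theorem Ker.pd {K : E n → ℝ} (hK : Ker K) (i : Fin n) : Ker (Pool.H68.LV.pd i K) := by
  refine ⟨?_, fun x hx => ?_⟩
  · exact contDiffOn_univ.mp (pd_contDiffOn isOpen_univ hK.sm.contDiffOn i)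
  · have h : K =ᶠ[nhds x] fun _ => 0 := by
      have ho : IsOpen {y : E n | 1 < ‖y‖} := isOpen_lt continuous_const continuous_norm
      filter_upwards [ho.mem_nhds hx] with y hy
      exact hK.su y hy
    rw [Pool.H68.LV.pd, h.fderiv_eq]
    simp

theorem cv_int {f K : E n → ℝ} (hf : LocallyIntegrable f) (hK : Ker K) (x : E n) :
    Integrable (fun y => f y * K (x - y)) :=
  hK.cs.convolutionExists_right (ContinuousLinearMap.mul ℝ ℝ) hf hK.sm.continuous x

theorem cv_sm {f K : E n → ℝ} (hf : LocallyIntegrable f) (hK : Ker K) :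
    ContDiff ℝ ∞ (cv f K) := by
  rw [cv_eq]
  exact hK.cs.contDiff_convolution_right _ hf hK.sm

theorem pd_cv {f K : E n → ℝ} (hf : LocallyIntegrable f) (hK : Ker K) (i : Fin n) (x : E n) :
    pd i (cv f K) x = cv f (pd i K) x := by
  have h := hK.cs.hasFDerivAt_convolution_right (ContinuousLinearMap.mul ℝ ℝ) hf
    (hK.sm.of_le (by simp)) x
  have h2 := convolution_precompR_apply (ContinuousLinearMap.mul ℝ ℝ) (μ := volume)
    (g := fderiv ℝ K) hf
    (hK.cs.fderiv (𝕜 := ℝ)) (hK.sm.continuous_fderiv (by simp)) x (ee i : E n)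
  rw [pd, cv_eq, h.fderiv, h2]
  rfl

theorem pd_pd_cv {f K : E n → ℝ} (hf : LocallyIntegrable f) (hK : Ker K) (i j : Fin n) (x : E n) :
    pd i (pd j (cv f K)) x = cv f (pd i (pd j K)) x := by
  have : pd j (cv f K) = cv f (pd j K) := by
    funext y
    exact pd_cv hf hK j y
  rw [this, pd_cv hf (hK.pd j)]

theorem cv_sub {f g K : E n → ℝ} (hf : LocallyIntegrable f) (hg : LocallyIntegrable g)
    (hK : Ker K) (x : E n) : cv (fun y => f y - g y) K x = cv f K x - cv g K x := by
  rw [cv, cv, cv, ← integral_sub (cv_int hf hK x) (cv_int hg hK x)]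
  congr 1
  funext y
  ring

theorem cv_swap (f K : E n → ℝ) (x : E n) : cv f K x = ∫ u, f (x - u) * K u := by
  rw [cv, ← integral_sub_left_eq_self (fun y => f y * K (x - y)) volume x]
  simp

theorem cv_const (c : ℝ) (K : E n → ℝ) (x : E n) : cv (fun _ => c) K x = c * ∫ u, K u := by
  rw [cv_swap, integral_const_mul]

/-- The local bound. -/
theorem cv_bound {f K : E n → ℝ} (hK : Ker K) {x : E n} {B : ℝ}
    (hB : ∀ y ∈ closedBall x 1, |f y| ≤ B) : |cv f K x| ≤ B * ∫ u, |K u| := by
  have hint : Integrable (fun u => |K u|) :=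
    (hK.sm.continuous.integrable_of_hasCompactSupport hK.cs).abs
  rw [cv_swap, ← integral_const_mul, ← Real.norm_eq_abs]
  refine norm_integral_le_of_norm_le (hint.const_mul B) (Filter.Eventually.of_forall fun u => ?_)
  rw [Real.norm_eq_abs, abs_mul]
  by_cases hu : 1 < ‖u‖
  · rw [hK.su u hu, abs_zero, mul_zero, mul_zero]
  · refine mul_le_mul_of_nonneg_right (hB _ ?_) (abs_nonneg _)
    rw [mem_closedBall, dist_eq_norm, sub_sub_cancel_left, norm_neg]
    exact not_lt.mp hu

theorem cv_zero {f K : E n → ℝ} (hK : Ker K) {x : E n} (h : ∀ y ∈ closedBall x 1, f y = 0) :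
    cv f K x = 0 := by
  have := cv_bound (f := f) hK (B := 0) (x := x) (fun y hy => by rw [h y hy, abs_zero])
  rw [zero_mul] at this
  exact abs_nonpos_iff.mp this

/-- Lipschitz functions. -/
theorem cv_lip {f K : E n → ℝ} (hK : Ker K) {L : ℝ≥0} (hf : LipschitzWith L f) (x x' : E n) :
    |cv f K x - cv f K x'| ≤ L * (∫ u, |K u|) * ‖x - x'‖ := by
  have hint : Integrable (fun u => |K u|) :=
    (hK.sm.continuous.integrable_of_hasCompactSupport hK.cs).abs
  have hi : ∀ z : E n, Integrable (fun u => f (z - u) * K u) := by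
    intro z
    apply Continuous.integrable_of_hasCompactSupport
    · exact (hf.continuous.comp (continuous_const.sub continuous_id)).mul hK.sm.continuous
    · exact hK.cs.mul_left
  rw [cv_swap, cv_swap, ← integral_sub (hi x) (hi x'), ← Real.norm_eq_abs]
  have h1 : ∀ u, ‖f (x - u) * K u - f (x' - u) * K u‖ ≤ L * ‖x - x'‖ * |K u| := by
    intro u
    rw [← sub_mul, norm_mul, Real.norm_eq_abs (K u)]
    refine mul_le_mul_of_nonneg_right ?_ (abs_nonneg _)
    have := hf.dist_le_mul (x - u) (x' - u)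
    rw [dist_eq_norm, dist_eq_norm, sub_sub_sub_cancel_right] at this
    exact this
  refine (norm_integral_le_of_norm_le (hint.const_mul _)
    (Filter.Eventually.of_forall h1)).trans (le_of_eq ?_)
  rw [integral_const_mul]
  ring

/-! The standard kernel. -/

def rb (n : ℕ) : ContDiffBump (0 : E n) where
  rIn := 1 / 2
  rOut := 1
  rIn_pos := by norm_num
  rIn_lt_rOut := by norm_num

def rho (n : ℕ) : E n → ℝ := (rb n).normed volume

theorem rho_ker (n : ℕ) : Ker (rho n) := by
  refine ⟨(rb n).contDiff_normed, fun x hx => ?_⟩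
  have h : x ∉ Function.support (rho n) := by
    rw [rho, (rb n).support_normed_eq, mem_ball, dist_zero_right, not_lt]
    exact hx.le
  rwa [Function.mem_support, not_not] at h

theorem rho_int (n : ℕ) : ∫ x, rho n x = 1 := (rb n).integral_normed

theorem rho_abs (n : ℕ) : ∫ x, |rho n x| = 1 := by
  rw [← rho_int n]
  congr 1
  funext x
  exact abs_of_nonneg ((rb n).nonneg_normed x)

theorem rho_neg (x : E n) : rho n (-x) = rho n x := (rb n).normed_neg x

theorem cv_affine (c : ℝ) (ℓ : E n →L[ℝ] ℝ) (x : E n) :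
    cv (fun y => c + ℓ y) (rho n) x = c + ℓ x := by
  have hk := rho_ker n
  have hi : Integrable (fun u => ℓ u * rho n u) := by
    apply Continuous.integrable_of_hasCompactSupport
    · exact ℓ.continuous.mul hk.sm.continuous
    · exact hk.cs.mul_left
  have hr : Integrable (rho n) := hk.sm.continuous.integrable_of_hasCompactSupport hk.cs
  have hodd : ∫ u, ℓ u * rho n u = 0 := by
    have h := integral_neg_eq_self (fun u => ℓ u * rho n u) (volume : Measure (E n))
    simp only [map_neg, rho_neg, neg_mul, integral_neg] at h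
    linarith
  rw [cv_swap]
  have e : (fun u => (c + ℓ (x - u)) * rho n u)
      = fun u => (c + ℓ x) * rho n u - ℓ u * rho n u := by
    funext u
    rw [map_sub]
    ring
  rw [e, integral_sub (hr.const_mul _) hi, integral_const_mul, rho_int, hodd]
  ring

/-- A common bound for the kernels. -/
theorem ker_const (n : ℕ) : ∃ C : ℝ, 1 ≤ C ∧ (∀ i, ∫ u, |pd i (rho n) u| ≤ C) ∧
    ∀ i j, ∫ u, |pd i (pd j (rho n)) u| ≤ C := by
  have h1 : ∀ i, 0 ≤ ∫ u, |pd i (rho n) u| := fun i => integral_nonneg fun _ => abs_nonneg _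
  have h2 : ∀ i j, 0 ≤ ∫ u, |pd i (pd j (rho n)) u| := fun i j =>
    integral_nonneg fun _ => abs_nonneg _
  have h3 : 0 ≤ ∑ i, ∫ u, |pd i (rho n) u| := Finset.sum_nonneg fun i _ => h1 i
  have h4 : 0 ≤ ∑ i, ∑ j, ∫ u, |pd i (pd j (rho n)) u| :=
    Finset.sum_nonneg fun i _ => Finset.sum_nonneg fun j _ => h2 i j
  refine ⟨1 + (∑ i, ∫ u, |pd i (rho n) u|) + (∑ i, ∑ j, ∫ u, |pd i (pd j (rho n)) u|),
    by linarith, fun i => ?_, fun i j => ?_⟩
  · have := Finset.single_le_sum (fun i _ => h1 i) (Finset.mem_univ i)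
    linarith
  · have e1 := Finset.single_le_sum (f := fun i => ∑ j, ∫ u, |pd i (pd j (rho n)) u|)
      (fun i _ => Finset.sum_nonneg fun j _ => h2 i j) (Finset.mem_univ i)
    have e2 := Finset.single_le_sum (f := fun j => ∫ u, |pd i (pd j (rho n)) u|)
      (fun j _ => h2 i j) (Finset.mem_univ j)
    linarith

/-! Scaling. -/

theorem pd_scale {f : E n → ℝ} (hf : ContDiff ℝ ∞ f) (c : ℝ) (i : Fin n) (x : E n) :
    pd i (fun y => f (c • y)) x = c * pd i f (c • x) := by
  have hd : DifferentiableAt ℝ f (c • x) := (hf.differentiable (by simp)) _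
  have h1 : HasFDerivAt (fun y : E n => c • y) (c • ContinuousLinearMap.id ℝ (E n)) x :=
    (hasFDerivAt_id x).const_smul c
  have h2 := hd.hasFDerivAt.comp x h1
  rw [pd, show (fun y => f (c • y)) = f ∘ (fun y : E n => c • y) from rfl, h2.fderiv]
  show fderiv ℝ f (c • x) (c • ee i) = _
  rw [map_smul]
  rfl

theorem pd_pd_scale {f : E n → ℝ} (hf : ContDiff ℝ ∞ f) (c : ℝ) (i j : Fin n) (x : E n) :
    pd i (pd j (fun y => f (c • y))) x = c ^ 2 * pd i (pd j f) (c • x) := by
  have h1 : pd j (fun y => f (c • y)) = fun y => c * pd j f (c • y) := by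
    funext y
    exact pd_scale hf c j y
  have hj : ContDiff ℝ ∞ (pd j f) :=
    contDiffOn_univ.mp (pd_contDiffOn isOpen_univ hf.contDiffOn j)
  have hs : ContDiff ℝ ∞ (fun y : E n => pd j f (c • y)) :=
    hj.comp (contDiff_const_smul c)
  rw [h1, pd_const_mul i c ((hs.differentiable (by simp)) x), pd_scale hj c i x]
  ring

/-! Components. -/

theorem pd_comp {Φ : E n → E n} {x : E n} (h : DifferentiableAt ℝ Φ x) (i a : Fin n) :
    pd i (fun y => Φ y a) x = (fderiv ℝ Φ x (ee i)) a := by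
  have h1 := ((EuclideanSpace.proj a : E n →L[ℝ] ℝ).hasFDerivAt (x := Φ x)).comp x h.hasFDerivAt
  have h2 : (fun y => Φ y a) = (EuclideanSpace.proj a : E n →L[ℝ] ℝ) ∘ Φ := rfl
  rw [pd, h2, h1.fderiv]
  rfl

theorem norm_le_sum (v : E n) : ‖v‖ ≤ ∑ a, |v a| := by
  have h : v = ∑ a, v a • (ee a : E n) := by
    ext l
    simp [ee, Finset.sum_apply, Pi.single_apply]
  calc ‖v‖ = ‖∑ a, v a • (ee a : E n)‖ := by rw [← h]
    _ ≤ ∑ a, ‖v a • (ee a : E n)‖ := norm_sum_le _ _
    _ = ∑ a, |v a| := by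
      refine Finset.sum_congr rfl fun a _ => ?_
      rw [norm_smul, Real.norm_eq_abs]
      simp [ee]

theorem opNorm_le_sum (T : E n →L[ℝ] E n) {B : ℝ} (hB : 0 ≤ B)
    (h : ∀ i a, |(T (ee i)) a| ≤ B) : ‖T‖ ≤ n ^ 2 * B := by
  refine T.opNorm_le_bound (by positivity) fun v => ?_
  have hv : v = ∑ i, v i • (ee i : E n) := by
    ext l
    simp [ee, Finset.sum_apply, Pi.single_apply]
  have h1 : ∀ i, ‖T (ee i)‖ ≤ n * B := by
    intro i
    refine (norm_le_sum _).trans ((Finset.sum_le_sum fun a _ => h i a).trans (le_of_eq ?_))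
    rw [Finset.sum_const, Finset.card_univ, Fintype.card_fin, nsmul_eq_mul]
  calc ‖T v‖ = ‖∑ i, v i • T (ee i)‖ := by
        conv_lhs => rw [hv, map_sum]
        congr 1
        exact Finset.sum_congr rfl fun i _ => map_smul _ _ _
    _ ≤ ∑ i, ‖v i • T (ee i)‖ := norm_sum_le _ _
    _ ≤ ∑ _i : Fin n, ‖v‖ * (n * B) := by
      refine Finset.sum_le_sum fun i _ => ?_
      rw [norm_smul]
      exact mul_le_mul (PiLp.norm_apply_le v i) (h1 i) (norm_nonneg _) (norm_nonneg _)
    _ = n ^ 2 * B * ‖v‖ := by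
      rw [Finset.sum_const, Finset.card_univ, Fintype.card_fin, nsmul_eq_mul]
      ring

end Pool.H68.LV
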