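import Pool.Agent.H68.LV.Crv
import Pool.Agent.H68.LV.Mlf

/-!
# Module TNS: tensoriality of the curvature

Φ smooth on the open set V, Φ(V) in U, J = jac Φ (J a i = d_i Φ_a), det J <> 0 on V; g smooth
symmetric, det g <> 0 on U. Put g* = pb Φ g = J^T g(Φ) J and A_i = sum_b J_bi Γ_b(Φ) (matrices).
(1) Chain rule: d_i (X o Φ) = sum_b J_bi (d_b X)(Φ).
(2) Γ*_i = J^(-1) (d_i J + A_i J). Proof: put this right side =: G_i. g* G_i =
J^T g(Φ) (d_i J + A_i J); its (k,l) entry is sum J_ak g_ab d_i d_l Φ_b + sum C_(c),ab J_.. with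
(g Γ_c)_ab = (CC g c)_ab, symmetric as in CC_symm; compare with the definition of CC (pb Φ g):
expand d_j (J^T g J)_kl by the product rule; the terms with second derivatives of Φ combine
(d_i J_al = d_l J_ai).
(3) F(G) with F_ij = d_iG_j - d_jG_i + [G_i, G_j]: F(Γ*) = J^(-1) F(A) J (gauge
transformation; d_i d_j J = d_j d_i J), and F(A)_ij = sum_ab J_ai J_bj F_ab(Φ)
(d_i A_j - d_j A_i: the terms with d_i J_bj - d_j J_bi = 0 cancel).
(4) RR g* i j = g* F(Γ*)_ij = J^T g(Φ) F(A)_ij J = pull J (RR g (Φ x)) i j (RR_eq twice).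
-/

open Matrix
open scoped ContDiff

noncomputable section
namespace Pool.H68.LV

variable {n : ℕ}

private theorem comp_sm {V : Set (E n)} {Φ : E n → E n} (hΦ : ContDiffOn ℝ ∞ Φ V) (a : Fin n) :
    ContDiffOn ℝ ∞ (fun y => Φ y a) V := by
  have := contDiffOn_euclidean.mp hΦ a
  exact this

theorem jac_sm {V : Set (E n)} (hV : IsOpen V) {Φ : E n → E n} (hΦ : ContDiffOn ℝ ∞ Φ V) :
    Sm V (jac Φ) := by
  intro a i
  exact pd_contDiffOn hV (comp_sm hΦ a) i

theorem pb_sm {U V : Set (E n)} (hV : IsOpen V) {Φ : E n → E n} (hΦ : ContDiffOn ℝ ∞ Φ V)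
    (hm : Set.MapsTo Φ V U) {g : E n → Mat n} (hg : Sm U g) : Sm V (pb Φ g) := by
  have hG : Sm V (fun y => g (Φ y)) := fun a b => (hg a b).comp hΦ hm
  exact ((jac_sm hV hΦ).transpose.mul hG).mul (jac_sm hV hΦ)

theorem jac_apply {Φ : E n → E n} {x : E n} (h : DifferentiableAt ℝ Φ x) (v : E n) :
    (fderiv ℝ Φ x v).ofLp = jac Φ x *ᵥ v.ofLp := by
  have hv : v = ∑ i, v i • (ee i : E n) := by
    ext l
    simp [ee, Finset.sum_apply, Pi.single_apply]
  funext a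
  rw [Matrix.mulVec, dotProduct]
  show (fderiv ℝ Φ x v) a = ∑ i, jac Φ x a i * v i
  conv_lhs => rw [hv, map_sum]
  have e : ∀ i, jac Φ x a i = (fderiv ℝ Φ x (ee i)) a := fun i => pd_comp h i a
  simp only [e]
  have : (∑ i, fderiv ℝ Φ x (v i • (ee i : E n))) a = ∑ i, (fderiv ℝ Φ x (v i • (ee i : E n))) a := by
    simp
  rw [this]
  refine Finset.sum_congr rfl fun i _ => ?_
  rw [map_smul]
  show v i * (fderiv ℝ Φ x (ee i)) a = _
  rw [mul_comm]

theorem sandw (J M : Mat n) (k l : Fin n) :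
    (Jᵀ * M * J) k l = ∑ a, ∑ b, J a k * M a b * J b l := by
  rw [Matrix.mul_apply, Finset.sum_comm]
  refine Finset.sum_congr rfl fun b _ => ?_
  rw [Matrix.mul_apply, Finset.sum_mul]
  rfl

private theorem pd_chain {U V : Set (E n)} (hU : IsOpen U) (hV : IsOpen V) {Φ : E n → E n}
    (hΦ : ContDiffOn ℝ ∞ Φ V) (hm : Set.MapsTo Φ V U) {f : E n → ℝ} (hf : ContDiffOn ℝ ∞ f U)
    {x : E n} (hx : x ∈ V) (i : Fin n) :
    pd i (fun y => f (Φ y)) x = ∑ b, jac Φ x b i * pd b f (Φ x) := by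
  have hfd : DifferentiableAt ℝ f (Φ x) :=
    (hf.contDiffAt (hU.mem_nhds (hm hx))).differentiableAt (by simp)
  have hΦd : DifferentiableAt ℝ Φ x :=
    (hΦ.contDiffAt (hV.mem_nhds hx)).differentiableAt (by simp)
  have h1 := hfd.hasFDerivAt.comp x hΦd.hasFDerivAt
  rw [pd, show (fun y => f (Φ y)) = f ∘ Φ from rfl, h1.fderiv]
  show fderiv ℝ f (Φ x) (fderiv ℝ Φ x (ee i)) = _
  have hv : fderiv ℝ Φ x (ee i) = ∑ b, jac Φ x b i • (ee b : E n) := by
    have e : ∀ b, jac Φ x b i = (fderiv ℝ Φ x (ee i)) b := fun b => pd_comp hΦd i b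
    ext l
    simp [e, ee, Finset.sum_apply, Pi.single_apply]
  rw [hv, map_sum]
  refine Finset.sum_congr rfl fun b _ => ?_
  rw [map_smul]
  rfl

theorem mpd_chain {U V : Set (E n)} (hU : IsOpen U) (hV : IsOpen V) {Φ : E n → E n}
    (hΦ : ContDiffOn ℝ ∞ Φ V) (hm : Set.MapsTo Φ V U) {X : E n → Mat n} (hX : Sm U X)
    {x : E n} (hx : x ∈ V) (i : Fin n) :
    mpd i (fun y => X (Φ y)) x = ∑ b, jac Φ x b i • mpd b X (Φ x) := by
  ext k l
  rw [Matrix.sum_apply]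
  exact pd_chain hU hV hΦ hm (hX k l) hx i

theorem comp_field {U V : Set (E n)} {Φ : E n → E n}
    (hΦ : ContDiffOn ℝ ∞ Φ V) (hm : Set.MapsTo Φ V U) {X : E n → Mat n} (hX : Sm U X) :
    Sm V (fun y => X (Φ y)) := fun a b => (hX a b).comp hΦ hm

private theorem mpd_sum' {x : E n} (i : Fin n) {Z : Fin n → E n → Mat n} (hZ : ∀ b, DA (Z b) x) :
    mpd i (fun y => ∑ b, Z b y) x = ∑ b, mpd i (Z b) x := by
  ext k l
  rw [Matrix.sum_apply]
  show pd i (fun y => (∑ b, Z b y) k l) x = ∑ b, pd i (fun y => Z b y k l) x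
  rw [← pd_sum _ _ (fun b _ => hZ b k l)]
  congr 1
  funext y
  rw [Matrix.sum_apply]

theorem mpd_pb {U V : Set (E n)} (hV : IsOpen V) {Φ : E n → E n}
    (hΦ : ContDiffOn ℝ ∞ Φ V) (hm : Set.MapsTo Φ V U) {g : E n → Mat n} (hg : Sm U g)
    {x : E n} (hx : x ∈ V) (i : Fin n) :
    mpd i (pb Φ g) x = (mpd i (jac Φ) x)ᵀ * g (Φ x) * jac Φ x
        + (jac Φ x)ᵀ * mpd i (fun y => g (Φ y)) x * jac Φ x
        + (jac Φ x)ᵀ * g (Φ x) * mpd i (jac Φ) x := by
  have sJ := jac_sm hV hΦ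
  have sG : Sm V (fun y => g (Φ y)) := comp_field hΦ hm hg
  have e2 := mpd_mul i (X := fun y => (jac Φ y)ᵀ * g (Φ y)) (Y := jac Φ)
    ((sJ.transpose.mul sG).da hV hx) (sJ.da hV hx)
  have e3 := mpd_mul i (X := fun y => (jac Φ y)ᵀ) (Y := fun y => g (Φ y))
    (sJ.transpose.da hV hx) (sG.da hV hx)
  rw [e3, mpd_transpose, add_mul] at e2
  exact e2

/-- The connection form A_i. -/
private def Af (Φ : E n → E n) (g : E n → Mat n) (i : Fin n) (y : E n) : Mat n :=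
  ∑ b, jac Φ y b i • GG g b (Φ y)

private theorem jac_mpd {V : Set (E n)} (hV : IsOpen V) {Φ : E n → E n}
    (hΦ : ContDiffOn ℝ ∞ Φ V) {x : E n} (hx : x ∈ V) (i l b : Fin n) :
    mpd i (jac Φ) x b l = mpd l (jac Φ) x b i :=
  pd_comm hV (comp_sm hΦ b) hx i l

private theorem CC_pb {U V : Set (E n)} (hU : IsOpen U) (hV : IsOpen V) {Φ : E n → E n}
    (hΦ : ContDiffOn ℝ ∞ Φ V) (hm : Set.MapsTo Φ V U) {g : E n → Mat n} (hg : Sm U g)
    (hs : ∀ x ∈ U, (g x)ᵀ = g x) (hd : ∀ x ∈ U, (g x).det ≠ 0) {x : E n} (hx : x ∈ V)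
    (i : Fin n) : CC (pb Φ g) i x
      = (jac Φ x)ᵀ * g (Φ x) * (mpd i (jac Φ) x + Af Φ g i x * jac Φ x) := by
  have sJ := jac_sm hV hΦ
  have sG : Sm V (fun y => g (Φ y)) := comp_field hΦ hm hg
  have hGs : (g (Φ x))ᵀ = g (Φ x) := hs _ (hm hx)
  set J := jac Φ x with hJ
  set G := g (Φ x) with hG
  set N : Fin n → Fin n → Fin n → ℝ := fun i k l => (Jᵀ * G * mpd i (jac Φ) x) k l with hN
  set D : Fin n → Fin n → Fin n → ℝ := fun i k l =>
    (Jᵀ * mpd i (fun y => g (Φ y)) x * J) k l with hD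
  have hpd : ∀ i k l, pd i (fun y => pb Φ g y k l) x = N i l k + N i k l + D i k l := by
    intro i k l
    have e1 : mpd i (pb Φ g) x = (mpd i (jac Φ) x)ᵀ * G * J
        + Jᵀ * mpd i (fun y => g (Φ y)) x * J + Jᵀ * G * mpd i (jac Φ) x := by
      have e2 := mpd_mul i (X := fun y => (jac Φ y)ᵀ * g (Φ y)) (Y := jac Φ)
        ((sJ.transpose.mul sG).da hV hx) (sJ.da hV hx)
      have e3 := mpd_mul i (X := fun y => (jac Φ y)ᵀ) (Y := fun y => g (Φ y))
        (sJ.transpose.da hV hx) (sG.da hV hx)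
      rw [e3, mpd_transpose, add_mul] at e2
      exact e2
    have e4 : ((mpd i (jac Φ) x)ᵀ * G * J) k l = N i l k := by
      have : ((mpd i (jac Φ) x)ᵀ * G * J) = (Jᵀ * G * mpd i (jac Φ) x)ᵀ := by
        rw [Matrix.transpose_mul, Matrix.transpose_mul, transpose_transpose, hGs, mul_assoc]
      rw [this]
      rfl
    show (mpd i (pb Φ g) x) k l = _
    rw [e1, Matrix.add_apply, Matrix.add_apply, e4]
    ring
  have hNs : ∀ i k l, N i k l = N l k i := by
    intro i k l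
    show (Jᵀ * G * mpd i (jac Φ) x) k l = (Jᵀ * G * mpd l (jac Φ) x) k i
    rw [Matrix.mul_apply, Matrix.mul_apply]
    refine Finset.sum_congr rfl fun b _ => ?_
    rw [jac_mpd hV hΦ hx i l b]
  set E3 : Fin n → Fin n → Fin n → ℝ := fun c a b => mpd c g (Φ x) a b with hE3
  have hDx : ∀ i k l, D i k l = ∑ a, ∑ b, ∑ c, J a k * J b l * J c i * E3 c a b := by
    intro i k l
    show (Jᵀ * mpd i (fun y => g (Φ y)) x * J) k l = _
    rw [sandw, mpd_chain hU hV hΦ hm hg hx]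
    refine Finset.sum_congr rfl fun a _ => Finset.sum_congr rfl fun b _ => ?_
    rw [Matrix.sum_apply, Finset.mul_sum, Finset.sum_mul]
    refine Finset.sum_congr rfl fun c _ => ?_
    show J a k * (J c i * E3 c a b) * J b l = _
    ring
  have hGA : G * Af Φ g i x = ∑ c, J c i • CC g c (Φ x) := by
    rw [Af, Finset.mul_sum]
    refine Finset.sum_congr rfl fun c _ => ?_
    rw [mul_smul_comm]
    congr 1
    rw [GG, ← mul_assoc, Matrix.mul_nonsing_inv _ (isUnit_iff_ne_zero.mpr (hd _ (hm hx))), one_mul]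
  ext k l
  have hR : (Jᵀ * G * (mpd i (jac Φ) x + Af Φ g i x * J)) k l
      = N i k l + 1 / 2 * (D i k l + D l k i - D k i l) := by
    rw [mul_add, Matrix.add_apply]
    congr 1
    have e1 : Jᵀ * G * (Af Φ g i x * J) = Jᵀ * (∑ c, J c i • CC g c (Φ x)) * J := by
      rw [← hGA]
      simp only [mul_assoc]
    have d2 : D l k i = ∑ a, ∑ b, ∑ c, J a k * J b l * J c i * E3 b a c := by
      rw [hDx]
      refine Finset.sum_congr rfl fun a _ => ?_
      rw [Finset.sum_comm]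
      refine Finset.sum_congr rfl fun b _ => Finset.sum_congr rfl fun c _ => ?_
      ring
    have d3 : D k i l = ∑ a, ∑ b, ∑ c, J a k * J b l * J c i * E3 a c b := by
      rw [hDx]
      have sw : ∀ f : Fin n → Fin n → Fin n → ℝ, ∑ a, ∑ b, ∑ c, f a b c
          = ∑ a, ∑ b, ∑ c, f c b a := by
        intro f
        rw [Finset.sum_comm]
        have : ∀ b, ∑ a, ∑ c, f a b c = ∑ c, ∑ a, f a b c := fun b => Finset.sum_comm
        simp only [this]
        exact Finset.sum_comm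
      rw [sw]
      refine Finset.sum_congr rfl fun a _ => Finset.sum_congr rfl fun b _ =>
        Finset.sum_congr rfl fun c _ => ?_
      ring
    rw [e1, sandw, hDx i k l, d2, d3]
    simp only [← Finset.sum_add_distrib, ← Finset.sum_sub_distrib, Finset.mul_sum]
    refine Finset.sum_congr rfl fun a _ => Finset.sum_congr rfl fun b _ => ?_
    rw [Matrix.sum_apply, Finset.mul_sum, Finset.sum_mul]
    refine Finset.sum_congr rfl fun c _ => ?_
    show J a k * (J c i * (1 / 2 * (E3 c a b + E3 b a c - E3 a c b))) * J b l = _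
    ring
  rw [hR]
  show 1 / 2 * (pd i (fun y => pb Φ g y k l) x + pd l (fun y => pb Φ g y k i) x
    - pd k (fun y => pb Φ g y i l) x) = _
  rw [hpd, hpd, hpd]
  linarith [hNs i l k, hNs l i k, hNs l k i]

private theorem abs_gauge {R : Type*} [Ring R] {J Gi Gj dGi dGj Ji Jj Jij Ai Aj dAij dAji : R}
    (h1 : Ji * Gj + J * dGj = Jij + (dAij * J + Aj * Ji))
    (h2 : Jj * Gi + J * dGi = Jij + (dAji * J + Ai * Jj))
    (h3 : J * Gi = Ji + Ai * J) (h4 : J * Gj = Jj + Aj * J) :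
    J * (dGj - dGi + Gi * Gj - Gj * Gi) = (dAij - dAji + Ai * Aj - Aj * Ai) * J := by
  have e : J * (dGj - dGi + Gi * Gj - Gj * Gi)
      = (Ji * Gj + J * dGj) - (Jj * Gi + J * dGi) - Ji * Gj + Jj * Gi
        + (J * Gi) * Gj - (J * Gj) * Gi := by
    noncomm_ring
  have e5 : Ai * J * Gj = Ai * (Jj + Aj * J) := by rw [mul_assoc, h4]
  have e6 : Aj * J * Gi = Aj * (Ji + Ai * J) := by rw [mul_assoc, h3]
  rw [e, h1, h2, h3, h4, add_mul, add_mul, e5, e6]
  noncomm_ring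

theorem RR_pb {U V : Set (E n)} (hU : IsOpen U) (hV : IsOpen V) {Φ : E n → E n}
    (hΦ : ContDiffOn ℝ ∞ Φ V) (hm : Set.MapsTo Φ V U) {g : E n → Mat n} (hg : Sm U g)
    (hs : ∀ x ∈ U, (g x)ᵀ = g x) (hd : ∀ x ∈ U, (g x).det ≠ 0)
    (hJ : ∀ x ∈ V, (jac Φ x).det ≠ 0) {x : E n} (hx : x ∈ V) :
    RR (pb Φ g) x = pull (jac Φ x) (RR g (Φ x)) := by
  have sJ := jac_sm hV hΦ
  have sP : Sm V (pb Φ g) := pb_sm hV hΦ hm hg
  have hPs : ∀ y ∈ V, (pb Φ g y)ᵀ = pb Φ g y := by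
    intro y hy
    rw [pb, Matrix.transpose_mul, Matrix.transpose_mul, transpose_transpose, hs _ (hm hy),
      mul_assoc]
  have hPd : ∀ y ∈ V, (pb Φ g y).det ≠ 0 := by
    intro y hy
    rw [pb, Matrix.det_mul, Matrix.det_mul, Matrix.det_transpose]
    exact mul_ne_zero (mul_ne_zero (hJ y hy) (hd _ (hm hy))) (hJ y hy)
  have sGG : ∀ b, Sm V (fun y => GG g b (Φ y)) := fun b => comp_field hΦ hm (GG_sm hU hg hd b)
  have sA : ∀ i, Sm V (Af Φ g i) := fun i => SmV.sum _ fun b _ => SmV.smul (sJ b i) (sGG b)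
  have sGP : ∀ i, Sm V (GG (pb Φ g) i) := fun i => GG_sm hV sP hPd i
  -- J Gamma*_i = d_i J + A_i J
  have hJG : ∀ y ∈ V, ∀ i, jac Φ y * GG (pb Φ g) i y = mpd i (jac Φ) y + Af Φ g i y * jac Φ y := by
    intro y hy i
    have hu : IsUnit (jac Φ y).det := isUnit_iff_ne_zero.mpr (hJ y hy)
    have huT : IsUnit ((jac Φ y)ᵀ).det := by rwa [Matrix.det_transpose]
    have hug : IsUnit (g (Φ y)).det := isUnit_iff_ne_zero.mpr (hd _ (hm hy))
    rw [GG, CC_pb hU hV hΦ hm hg hs hd hy i, pb, Matrix.mul_inv_rev, Matrix.mul_inv_rev]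
    have e1 : jac Φ y * ((jac Φ y)⁻¹ * ((g (Φ y))⁻¹ * ((jac Φ y)ᵀ)⁻¹) *
        ((jac Φ y)ᵀ * g (Φ y) * (mpd i (jac Φ) y + Af Φ g i y * jac Φ y)))
        = (jac Φ y * (jac Φ y)⁻¹) * ((g (Φ y))⁻¹ * ((((jac Φ y)ᵀ)⁻¹ * (jac Φ y)ᵀ) * g (Φ y)))
          * (mpd i (jac Φ) y + Af Φ g i y * jac Φ y) := by
      simp only [mul_assoc]
    rw [e1, Matrix.mul_nonsing_inv _ hu, Matrix.nonsing_inv_mul _ huT, one_mul, one_mul,
      Matrix.nonsing_inv_mul _ hug, one_mul]
  -- differentiate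
  have hdJG : ∀ i j, mpd i (jac Φ) x * GG (pb Φ g) j x + jac Φ x * mpd i (GG (pb Φ g) j) x
      = mpd i (mpd j (jac Φ)) x
        + (mpd i (Af Φ g j) x * jac Φ x + Af Φ g j x * mpd i (jac Φ) x) := by
    intro i j
    rw [← mpd_mul i (sJ.da hV hx) ((sGP j).da hV hx), ← mpd_mul i ((sA j).da hV hx) (sJ.da hV hx),
      mpd_congr_on hV (fun y hy => hJG y hy j) hx i]
    exact mpd_add i ((sJ.mpd hV j).da hV hx) (((sA j).mul sJ).da hV hx)
  -- the curvature of A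
  have hFA : ∀ i j, mpd i (Af Φ g j) x - mpd j (Af Φ g i) x
      + Af Φ g i x * Af Φ g j x - Af Φ g j x * Af Φ g i x
      = ∑ a, ∑ b, (jac Φ x a i * jac Φ x b j) • (mpd a (GG g b) (Φ x) - mpd b (GG g a) (Φ x)
        + GG g a (Φ x) * GG g b (Φ x) - GG g b (Φ x) * GG g a (Φ x)) := by
    intro i j
    have e1 : ∀ i j, mpd i (Af Φ g j) x = (∑ b, mpd i (jac Φ) x b j • GG g b (Φ x))
        + ∑ a, ∑ b, (jac Φ x a i * jac Φ x b j) • mpd a (GG g b) (Φ x) := by
      intro i j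
      have e2 : mpd i (Af Φ g j) x = ∑ b, mpd i (fun y => jac Φ y b j • GG g b (Φ y)) x :=
        mpd_sum' i fun b => (Sm.smul (sJ b j) (sGG b)).da hV hx
      have e3 : ∀ b, mpd i (fun y => jac Φ y b j • GG g b (Φ y)) x
          = mpd i (jac Φ) x b j • GG g b (Φ x)
            + ∑ a, (jac Φ x a i * jac Φ x b j) • mpd a (GG g b) (Φ x) := by
        intro b
        have hd1 : DifferentiableAt ℝ (fun y => jac Φ y b j) x := sJ.da hV hx b j
        rw [mpd_smul i hd1 ((sGG b).da hV hx), mpd_chain hU hV hΦ hm (GG_sm hU hg hd b) hx,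
          Finset.smul_sum]
        congr 1
        refine Finset.sum_congr rfl fun a _ => ?_
        rw [smul_smul, mul_comm]
      rw [e2]
      simp only [e3, Finset.sum_add_distrib]
      congr 1
      exact Finset.sum_comm
    have e4 : ∀ i j, Af Φ g i x * Af Φ g j x
        = ∑ a, ∑ b, (jac Φ x a i * jac Φ x b j) • (GG g a (Φ x) * GG g b (Φ x)) := by
      intro i j
      rw [Af, Af, Finset.sum_mul_sum]
      refine Finset.sum_congr rfl fun a _ => Finset.sum_congr rfl fun b _ => ?_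
      rw [smul_mul_smul_comm]
    have e5 : (∑ b, mpd i (jac Φ) x b j • GG g b (Φ x))
        = ∑ b, mpd j (jac Φ) x b i • GG g b (Φ x) := by
      refine Finset.sum_congr rfl fun b _ => ?_
      rw [jac_mpd hV hΦ hx i j b]
    have e6 : (∑ a, ∑ b, (jac Φ x a j * jac Φ x b i) • mpd a (GG g b) (Φ x))
        = ∑ a, ∑ b, (jac Φ x a i * jac Φ x b j) • mpd b (GG g a) (Φ x) := by
      rw [Finset.sum_comm]
      refine Finset.sum_congr rfl fun a _ => Finset.sum_congr rfl fun b _ => ?_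
      rw [mul_comm]
    have e7 : Af Φ g j x * Af Φ g i x
        = ∑ a, ∑ b, (jac Φ x a i * jac Φ x b j) • (GG g b (Φ x) * GG g a (Φ x)) := by
      rw [e4 j i, Finset.sum_comm]
      refine Finset.sum_congr rfl fun a _ => Finset.sum_congr rfl fun b _ => ?_
      rw [mul_comm (jac Φ x b j)]
    rw [e1 i j, e1 j i, e5, e6, e4 i j, e7]
    simp only [smul_sub, smul_add, Finset.sum_sub_distrib, Finset.sum_add_distrib]
    abel
  have hFab : ∀ a b, g (Φ x) * (mpd a (GG g b) (Φ x) - mpd b (GG g a) (Φ x)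
        + GG g a (Φ x) * GG g b (Φ x) - GG g b (Φ x) * GG g a (Φ x)) = RR g (Φ x) a b := fun a b =>
    (RR_eq hU hg hs hd (hm hx) a b).symm
  funext i j
  rw [RR_eq hV sP hPs hPd hx i j]
  have hga := abs_gauge (hdJG i j) (by
      have := hdJG j i
      rwa [mpd_comm hV sJ hx j i] at this) (hJG x hx i) (hJG x hx j)
  rw [pb, mul_assoc ((jac Φ x)ᵀ * g (Φ x)), hga, hFA, Finset.sum_mul, Finset.mul_sum]
  ext k l
  rw [Matrix.sum_apply]
  show _ = ∑ a, ∑ b, ∑ c, ∑ d, RR g (Φ x) a b c d * jac Φ x a i * jac Φ x b j * jac Φ x c k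
    * jac Φ x d l
  refine Finset.sum_congr rfl fun a _ => ?_
  rw [Finset.sum_mul, Finset.mul_sum, Matrix.sum_apply]
  refine Finset.sum_congr rfl fun b _ => ?_
  rw [smul_mul_assoc, mul_smul_comm, mul_assoc (jac Φ x)ᵀ, ← mul_assoc (g (Φ x)), hFab,
    ← mul_assoc, Matrix.smul_apply, sandw, smul_eq_mul, Finset.mul_sum]
  refine Finset.sum_congr rfl fun c _ => ?_
  rw [Finset.mul_sum]
  refine Finset.sum_congr rfl fun d _ => ?_
  ring

end Pool.H68.LV
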