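import Pool.Agent.H68.LV.Mf
import Pool.Agent.H68.LV.Tns
import Pool.Agent.H68.LV.Qf

/-!
# Module GTS: the metric tensor in a chart

qf_gT: inner product is bilinear; mfderiv is linear; v = sum v_i ee i.
gT_sm: the section y -> mfderiv e.symm y (ee i) of the tangent bundle along e.symm is smooth on
e.target (contMDiffOn_symm_of_mem_maximalAtlas, ContMDiffOn.contMDiffOn_tangentMapWithin on the
open set e.target, mfderivWithin = mfderiv on open sets), then ContMDiffOn.inner_bundle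
(Mathlib/Geometry/Manifold/VectorBundle/Riemannian.lean) and contMDiffOn_iff_contDiffOn.
gT_pos: e.symm has injective differential on e.target (chain rule for e o e.symm = id).
transition: e' o e.symm is smooth on (e.symm.trans e').source (both in the maximal atlas); the
chain rule mfderiv e.symm y = mfderiv e'.symm (Φ y) o fderiv Φ y with Φ = e' o e.symm (on the
source e.symm = e'.symm o Φ near y); jac_apply; expand the inner products. The Jacobian is
invertible because e o e'.symm is the inverse.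
-/

open MeasureTheory Manifold Bundle Set
open scoped ContDiff Matrix

noncomputable section
namespace Pool.H68.LV

variable {n : ℕ} {M : Type} [MetricSpace M] [ChartedSpace (E n) M]
  [IsManifold 𝓘(ℝ, E n) ∞ M]
  [RiemannianBundle (fun x : M => TangentSpace 𝓘(ℝ, E n) x)]
  [IsContMDiffRiemannianBundle 𝓘(ℝ, E n) ∞ (E n) (fun x : M => TangentSpace 𝓘(ℝ, E n) x)]

omit [IsManifold 𝓘(ℝ, E n) ∞ M]
  [RiemannianBundle (fun x : M => TangentSpace 𝓘(ℝ, E n) x)]
  [IsContMDiffRiemannianBundle 𝓘(ℝ, E n) ∞ (E n) (fun x : M => TangentSpace 𝓘(ℝ, E n) x)] in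
private theorem md {e : OpenPartialHomeomorph M (E n)}
    (he : e ∈ IsManifold.maximalAtlas 𝓘(ℝ, E n) ∞ M) :
    e.MDifferentiable 𝓘(ℝ, E n) 𝓘(ℝ, E n) :=
  ⟨(contMDiffOn_of_mem_maximalAtlas he).mdifferentiableOn (by simp),
    (contMDiffOn_symm_of_mem_maximalAtlas he).mdifferentiableOn (by simp)⟩

private theorem bf_abs {F : Type} [NormedAddCommGroup F] [InnerProductSpace ℝ F]
    (L : E n →ₗ[ℝ] F) (u v : E n) :
    bf (Matrix.of fun i j => inner ℝ (L (ee i)) (L (ee j))) u v = inner ℝ (L u) (L v) := by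
  conv_rhs => rw [sum_ee u, sum_ee v]
  rw [map_sum, map_sum, sum_inner]
  simp only [bf, Matrix.of_apply]
  refine Finset.sum_congr rfl fun i _ => ?_
  rw [inner_sum]
  refine Finset.sum_congr rfl fun j _ => ?_
  rw [map_smul, map_smul, inner_smul_left, inner_smul_right]
  simp only [conj_trivial]
  ring

omit [IsManifold 𝓘(ℝ, E n) ∞ M]
  [IsContMDiffRiemannianBundle 𝓘(ℝ, E n) ∞ (E n) (fun x : M => TangentSpace 𝓘(ℝ, E n) x)] in
theorem bf_gT (e : OpenPartialHomeomorph M (E n)) (y u v : E n) :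
    bf (gT e y) u v
      = inner ℝ (mfderiv 𝓘(ℝ, E n) 𝓘(ℝ, E n) e.symm y u : TangentSpace 𝓘(ℝ, E n) (e.symm y))
          (mfderiv 𝓘(ℝ, E n) 𝓘(ℝ, E n) e.symm y v : TangentSpace 𝓘(ℝ, E n) (e.symm y)) :=
  bf_abs (F := TangentSpace 𝓘(ℝ, E n) (e.symm y))
    (mfderiv 𝓘(ℝ, E n) 𝓘(ℝ, E n) e.symm y).toLinearMap u v

omit [IsManifold 𝓘(ℝ, E n) ∞ M]
  [IsContMDiffRiemannianBundle 𝓘(ℝ, E n) ∞ (E n) (fun x : M => TangentSpace 𝓘(ℝ, E n) x)] in
private theorem inner_base {p q : M} (h : p = q) (u v : E n) :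
    @inner ℝ (TangentSpace 𝓘(ℝ, E n) p) _ u v = @inner ℝ (TangentSpace 𝓘(ℝ, E n) q) _ u v := by
  subst h; rfl

theorem gT_symm (e : OpenPartialHomeomorph M (E n)) (y : E n) : (gT e y).transpose = gT e y := by
  ext i j
  simp only [Matrix.transpose_apply, gT, Matrix.of_apply]
  exact real_inner_comm _ _

theorem qf_gT (e : OpenPartialHomeomorph M (E n)) (y v : E n) :
    qf (gT e y) v
      = ‖(mfderiv 𝓘(ℝ, E n) 𝓘(ℝ, E n) e.symm y v : TangentSpace 𝓘(ℝ, E n) (e.symm y))‖ ^ 2 := by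
  rw [← bf_self, bf_gT]
  exact real_inner_self_eq_norm_sq _

theorem gT_sm {e : OpenPartialHomeomorph M (E n)}
    (he : e ∈ IsManifold.maximalAtlas 𝓘(ℝ, E n) ∞ M) : Sm e.target (gT e) := by
  intro i j
  have h1 : ∀ i : Fin n, ContMDiffOn 𝓘(ℝ, E n) (𝓘(ℝ, E n).prod 𝓘(ℝ, E n)) ∞
      (fun y => (⟨e.symm y, mfderiv 𝓘(ℝ, E n) 𝓘(ℝ, E n) e.symm y (ee i)⟩ :
        TangentBundle 𝓘(ℝ, E n) M)) e.target := by
    intro i
    have h2 := (contMDiffOn_symm_of_mem_maximalAtlas he).contMDiffOn_tangentMapWithin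
      (m := ∞) (by simp) e.open_target.uniqueMDiffOn
    have h3 : ContMDiffOn 𝓘(ℝ, E n) 𝓘(ℝ, E n).tangent ∞
        (fun y => (⟨y, ee i⟩ : TangentBundle 𝓘(ℝ, E n) (E n))) e.target :=
      contMDiffOn_vectorSpace_iff_contDiffOn.2 contDiffOn_const
    have h4 := h2.comp h3 (fun y hy => hy)
    refine h4.congr ?_
    intro y hy
    simp only [Function.comp, tangentMapWithin]
    rw [mfderivWithin_of_isOpen e.open_target hy]
  have h5 := ContMDiffOn.inner_bundle (h1 i) (h1 j)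
  exact contMDiffOn_iff_contDiffOn.1 h5

theorem gT_pos {e : OpenPartialHomeomorph M (E n)}
    (he : e ∈ IsManifold.maximalAtlas 𝓘(ℝ, E n) ∞ M) {y : E n} (hy : y ∈ e.target) :
    (gT e y).PosDef := by
  refine Matrix.PosDef.of_dotProduct_mulVec_pos ?_ ?_
  · rw [Matrix.IsHermitian, Matrix.conjTranspose_eq_transpose_of_trivial]
    exact gT_symm e y
  · intro v hv
    have h1 : qf (gT e y) (WithLp.toLp 2 v) = star v ⬝ᵥ (gT e y *ᵥ v) := by
      rw [qf_dotp]
      simp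
    rw [← h1, qf_gT]
    have h2 := (md he).symm.mfderiv_injective (x := y) hy
    have h3 : (mfderiv 𝓘(ℝ, E n) 𝓘(ℝ, E n) e.symm y (WithLp.toLp 2 v) :
        TangentSpace 𝓘(ℝ, E n) (e.symm y)) ≠ 0 := by
      intro h0
      apply hv
      have h4 := h2 (h0.trans (map_zero (mfderiv 𝓘(ℝ, E n) 𝓘(ℝ, E n) e.symm y)).symm)
      have h5 : v = (WithLp.toLp 2 v : E n).ofLp := rfl
      rw [h5]
      have h6 : (WithLp.toLp 2 v : E n) = 0 := h4
      rw [h6]
      rfl
    exact pow_pos (norm_pos_iff.2 h3) 2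

theorem trans_contDiffOn {e e' : OpenPartialHomeomorph M (E n)}
    (he : e ∈ IsManifold.maximalAtlas 𝓘(ℝ, E n) ∞ M)
    (he' : e' ∈ IsManifold.maximalAtlas 𝓘(ℝ, E n) ∞ M) :
    ContDiffOn ℝ ∞ (e' ∘ e.symm) (e.symm.trans e').source := by
  have h1 := (contMDiffOn_of_mem_maximalAtlas he').comp
    ((contMDiffOn_symm_of_mem_maximalAtlas he).mono
      (s := e.target) (t := (e.symm.trans e').source) (by
        intro y hy
        simp only [mfld_simps] at hy
        exact hy.1)) (by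
        intro y hy
        simp only [mfld_simps] at hy
        exact hy.2)
  exact contMDiffOn_iff_contDiffOn.1 h1

theorem gT_trans {e e' : OpenPartialHomeomorph M (E n)}
    (he : e ∈ IsManifold.maximalAtlas 𝓘(ℝ, E n) ∞ M)
    (he' : e' ∈ IsManifold.maximalAtlas 𝓘(ℝ, E n) ∞ M) {y : E n}
    (hy : y ∈ (e.symm.trans e').source) : gT e y = pb (e' ∘ e.symm) (gT e') y := by
  have hyt : y ∈ e.target := by simp only [mfld_simps] at hy; exact hy.1
  have hys : e.symm y ∈ e'.source := by simp only [mfld_simps] at hy; exact hy.2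
  have hopen : IsOpen (e.symm.trans e').source := (e.symm.trans e').open_source
  have hd : DifferentiableAt ℝ (e' ∘ e.symm) y :=
    ((trans_contDiffOn he he').contDiffAt (hopen.mem_nhds hy)).differentiableAt (by simp)
  have hbase : e'.symm ((e' ∘ e.symm) y) = e.symm y := e'.left_inv hys
  have hL : mfderiv 𝓘(ℝ, E n) 𝓘(ℝ, E n) e.symm y
      = (mfderiv 𝓘(ℝ, E n) 𝓘(ℝ, E n) e'.symm ((e' ∘ e.symm) y)).comp
        (mfderiv 𝓘(ℝ, E n) 𝓘(ℝ, E n) (e' ∘ e.symm) y) := by
    rw [← mfderiv_comp y ((md he').mdifferentiableAt_symm (e'.map_source hys)) hd.mdifferentiableAt]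
    apply Filter.EventuallyEq.mfderiv_eq
    filter_upwards [hopen.mem_nhds hy] with z hz
    simp only [mfld_simps] at hz
    exact (e'.left_inv hz.2).symm
  have hv : ∀ v : E n, (mfderiv 𝓘(ℝ, E n) 𝓘(ℝ, E n) e.symm y v : E n)
      = mfderiv 𝓘(ℝ, E n) 𝓘(ℝ, E n) e'.symm ((e' ∘ e.symm) y) (fderiv ℝ (e' ∘ e.symm) y v) := by
    intro v
    rw [hL, mfderiv_eq_fderiv]
    rfl
  ext i j
  have h1 : gT e y i j = bf (gT e' ((e' ∘ e.symm) y)) (fderiv ℝ (e' ∘ e.symm) y (ee i))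
      (fderiv ℝ (e' ∘ e.symm) y (ee j)) := by
    rw [bf_gT]
    simp only [gT, Matrix.of_apply, ip, dS]
    rw [show (mfderiv 𝓘(ℝ, E n) 𝓘(ℝ, E n) e.symm y (ee i) : TangentSpace 𝓘(ℝ, E n) (e.symm y)) = _ from hv (ee i),
      show (mfderiv 𝓘(ℝ, E n) 𝓘(ℝ, E n) e.symm y (ee j) : TangentSpace 𝓘(ℝ, E n) (e.symm y)) = _ from hv (ee j)]
    exact (inner_base (n := n) (M := M) hbase _ _).symm
  have h2 : ∀ i : Fin n, jac (e' ∘ e.symm) y *ᵥ (ee i : E n).ofLp
      = fun a => jac (e' ∘ e.symm) y a i := by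
    intro i
    have h3 : (ee i : E n).ofLp = Pi.single i 1 := by simp [ee]
    rw [h3, Matrix.mulVec_single_one]
    rfl
  rw [h1, bf_dotp, jac_apply hd, jac_apply hd, h2, h2, pb, sandw]
  simp only [dotProduct, Matrix.mulVec, Finset.mul_sum]
  refine Finset.sum_congr rfl fun a _ => Finset.sum_congr rfl fun b _ => ?_
  ring

theorem jac_trans_ne {e e' : OpenPartialHomeomorph M (E n)}
    (he : e ∈ IsManifold.maximalAtlas 𝓘(ℝ, E n) ∞ M)
    (he' : e' ∈ IsManifold.maximalAtlas 𝓘(ℝ, E n) ∞ M) {y : E n}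
    (hy : y ∈ (e.symm.trans e').source) : (jac (e' ∘ e.symm) y).det ≠ 0 := by
  intro h0
  have hyt : y ∈ e.target := by simp only [mfld_simps] at hy; exact hy.1
  have h1 := (gT_pos he hyt).det_pos
  rw [gT_trans he he' hy, pb, Matrix.det_mul, h0, mul_zero] at h1
  exact lt_irrefl _ h1

end Pool.H68.LV
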