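import Pool.Agent.H68.LV.Lin
import Pool.Agent.H68.LV.Div

/-!
# Module IBP: two integrations by parts

Put w = sw g, Y = h4 R^k h2 g^m (even or odd, commutes with h2 h), a = AL g h, dL Y = dR Y = 0
(dL_closed, dR_closed), p = sum_m (d_m phi) Lc m.
(1) dL(phi a Y) = p a Y + phi (dL a) Y (dL_smul, dL_mul_odd: a is odd, dL Y = 0). Stokes (stokes_L)
gives int phi w bt((dL a) Y) = - int w bt(p a Y) = (1/2) int w bt(p (dR h2 h) Y).
(2) dR(p h2h Y) = (dR p) h2h Y + p (dR h2h) Y - p h2h (dR Y) (p commutes with the Rc, h2h is odd;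
dR p: sum_j Rc j (d_j d_i phi Lc i - [NL Γ_j^T, p]) = sum_ij (Hs g phi)_ij Lc i Rc j = h2 (Hs),
since [NL A, Lc i] = sum_p A_pi Lc p, and Rc j Lc i = Lc i Rc j). Stokes (stokes_R) gives
int w bt(p (dR h2h) Y) = - int w bt(h2(Hs) h2h Y).
Total: int phi w bt((dL a) Y) = -(1/2) int w bt(h2 (Hs g phi) h2 (h) Y).
-/

open Matrix MeasureTheory
open scoped ContDiff

noncomputable section
namespace Pool.H68.LV

variable {n : ℕ} {U : Set (E n)} {g h : E n → Mat n}

/-- The left one-form d phi. -/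
private def pf (φ : E n → ℝ) (x : E n) : DD n := ∑ m, pd m φ x • Lc m

private theorem pf_sm (hU : IsOpen U) {φ : E n → ℝ} (hφ : ContDiff ℝ ∞ φ) : Sm U (pf φ) :=
  SmV.sum _ fun m _ => SmV.smul (pd_contDiffOn hU hφ.contDiffOn m) (SmV.const _)

private theorem Rc_pf (φ : E n → ℝ) (x : E n) (i : Fin n) : Rc i * pf φ x = pf φ x * Rc i := by
  rw [pf, Finset.mul_sum, Finset.sum_mul]
  refine Finset.sum_congr rfl fun m _ => ?_
  rw [mul_smul_comm, smul_mul_assoc, Lc_mul_Rc]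

private theorem Hs_symm (hU : IsOpen U) (hg : Sm U g) (hs : ∀ x ∈ U, (g x)ᵀ = g x)
    {φ : E n → ℝ} (hφ : ContDiff ℝ ∞ φ) {x : E n} (hx : x ∈ U) (i j : Fin n) :
    Hs g φ x i j = Hs g φ x j i := by
  show pd i (pd j φ) x - ∑ p, GG g i x p j * pd p φ x
    = pd j (pd i φ) x - ∑ p, GG g j x p i * pd p φ x
  rw [pd_comm hU hφ.contDiffOn hx i j]
  congr 1
  refine Finset.sum_congr rfl fun p _ => ?_
  rw [GG_symm hU hg hs hx i p j]

private theorem dR_pf (hU : IsOpen U) (hg : Sm U g) (hs : ∀ x ∈ U, (g x)ᵀ = g x)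
    {φ : E n → ℝ} (hφ : ContDiff ℝ ∞ φ) {x : E n} (hx : x ∈ U) :
    dR (GG g) (pf φ) x = h2 (Hs g φ x) := by
  have hdp : ∀ i, DifferentiableAt ℝ (pd i φ) x := fun i =>
    ((pd_contDiffOn hU hφ.contDiffOn i).contDiffAt (hU.mem_nhds hx)).differentiableAt (by simp)
  have h1 : ∀ j, mpd j (pf φ) x = ∑ i, pd j (pd i φ) x • (Lc i : DD n) := by
    intro j
    ext p q
    have e : ∀ y, pf φ y p q = ∑ i, pd i φ y * (Lc i : DD n) p q := by
      intro y
      simp only [pf, Matrix.sum_apply, Matrix.smul_apply, smul_eq_mul]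
    simp only [mpd, Matrix.of_apply, e, Matrix.sum_apply, Matrix.smul_apply, smul_eq_mul]
    rw [pd_sum _ _ (fun i _ => (hdp i).mul_const _)]
    refine Finset.sum_congr rfl fun i _ => ?_
    rw [pd_mul j (hdp i) (differentiableAt_const _), pd_const, mul_zero, add_zero]
  have h2' : ∀ j, covL (GG g) (pf φ) j x = ∑ i, Hs g φ x j i • (Lc i : DD n) := by
    intro j
    have e1 : NL (GG g j x)ᵀ * pf φ x - pf φ x * NL (GG g j x)ᵀ
        = ∑ i, (∑ q, GG g j x q i * pd q φ x) • (Lc i : DD n) := by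
      rw [pf, Finset.mul_sum, Finset.sum_mul, ← Finset.sum_sub_distrib]
      have e2 : ∀ q, NL (GG g j x)ᵀ * (pd q φ x • Lc q) - (pd q φ x • Lc q) * NL (GG g j x)ᵀ
          = ∑ i, (GG g j x q i * pd q φ x) • (Lc i : DD n) := by
        intro q
        rw [mul_smul_comm, smul_mul_assoc, ← smul_sub, NL_Lc, Finset.smul_sum]
        refine Finset.sum_congr rfl fun i _ => ?_
        rw [smul_smul, transpose_apply, mul_comm]
      simp only [e2]
      rw [Finset.sum_comm]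
      refine Finset.sum_congr rfl fun i _ => ?_
      rw [Finset.sum_smul]
    rw [covL, e1, h1, ← Finset.sum_sub_distrib]
    refine Finset.sum_congr rfl fun i _ => ?_
    rw [← sub_smul]
    rfl
  rw [dR, h2, Finset.sum_congr rfl fun j _ => by rw [h2' j, Finset.mul_sum], Finset.sum_comm]
  refine Finset.sum_congr rfl fun i _ => Finset.sum_congr rfl fun j _ => ?_
  rw [mul_smul_comm, ← Lc_mul_Rc, Hs_symm hU hg hs hφ hx j i]

private theorem Hs_sm (hU : IsOpen U) (hg : Sm U g) (hd : ∀ x ∈ U, (g x).det ≠ 0)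
    {φ : E n → ℝ} (hφ : ContDiff ℝ ∞ φ) : Sm U (Hs g φ) := by
  intro i j
  refine (pd_contDiffOn hU (pd_contDiffOn hU hφ.contDiffOn j) i).sub ?_
  exact ContDiffOn.sum fun p _ => ((GG_sm hU hg hd i) p j).mul (pd_contDiffOn hU hφ.contDiffOn p)

private theorem pd_zero {φ : E n → ℝ} {x : E n} (hx : x ∉ tsupport φ) (i : Fin n) :
    pd i φ x = 0 := by
  have h : φ =ᶠ[nhds x] fun _ => 0 := notMem_tsupport_iff_eventuallyEq.mp hx
  rw [pd, h.fderiv_eq]
  simp

private theorem pd_pd_zero {φ : E n → ℝ} {x : E n} (hx : x ∉ tsupport φ) (i j : Fin n) :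
    pd i (pd j φ) x = 0 := by
  have h : pd j φ =ᶠ[nhds x] fun _ => 0 := by
    filter_upwards [(isClosed_tsupport φ).isOpen_compl.mem_nhds hx] with y hy
    exact pd_zero hy j
  rw [pd, h.fderiv_eq]
  simp


private theorem int_lin {μ : Measure (E n)} {a b c : E n → ℝ} (ha : Integrable a μ)
    (hb : Integrable b μ) (hc : Integrable c μ) :
    ∫ x, (a x + 1 / 2 * b x - 1 / 2 * c x) ∂μ
      = ∫ x, a x ∂μ + 1 / 2 * ∫ x, b x ∂μ - 1 / 2 * ∫ x, c x ∂μ := by
  have h1 : ∫ x, (a x + 1 / 2 * b x - 1 / 2 * c x) ∂μ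
      = ∫ x, (a x + 1 / 2 * b x) ∂μ - ∫ x, 1 / 2 * c x ∂μ :=
    integral_sub (ha.add (hb.const_mul (1 / 2))) (hc.const_mul (1 / 2))
  have h2 : ∫ x, (a x + 1 / 2 * b x) ∂μ = ∫ x, a x ∂μ + ∫ x, 1 / 2 * b x ∂μ :=
    integral_add ha (hb.const_mul (1 / 2))
  rw [h1, h2, integral_const_mul, integral_const_mul]

theorem ibp (hU : IsOpen U) (hg : Sm U g) (hs : ∀ x ∈ U, (g x)ᵀ = g x)
    (hd : ∀ x ∈ U, 0 < (g x).det) (hh : Sm U h) (hhs : ∀ x ∈ U, (h x)ᵀ = h x)
    (φ : E n → ℝ) (hφ : ContDiff ℝ ∞ φ) (hc : HasCompactSupport φ) (hφU : tsupport φ ⊆ U)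
    (k m : ℕ) :
    ∫ x in U, φ x * (sw g x * bt (dL (GG g) (AL g h) x * (h4 (RR g x) ^ k * h2 (g x) ^ m)))
      = -(1 / 2) * ∫ x in U, sw g x *
          bt (h2 (Hs g φ x) * h2 (h x) * h4 (RR g x) ^ k * h2 (g x) ^ m) := by
  have hd' : ∀ x ∈ U, (g x).det ≠ 0 := fun x hx => (hd x hx).ne'
  set Y : E n → DD n := fun y => h4 (RR g y) ^ k * h2 (g y) ^ m with hY
  have sY : Sm U Y := ((Sm.h4 fun i j => RR_sm hU hg hd' i j).pow k).mul ((Sm.h2 hg).pow m)
  have sA : Sm U (AL g h) := AL_sm hU hg hh hd'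
  have sh : Sm U (fun y => h2 (h y)) := Sm.h2 hh
  have sp : Sm U (pf φ) := pf_sm hU hφ
  have hK : IsCompact (tsupport φ) := hc
  have hp0 : ∀ x ∉ tsupport φ, pf φ x = 0 := by
    intro x hx
    rw [pf]
    exact Finset.sum_eq_zero fun i _ => by rw [pd_zero hx, zero_smul]
  have hφ0 : ∀ x ∉ tsupport φ, φ x = 0 := fun x hx => image_eq_zero_of_notMem_tsupport hx
  have hH0 : ∀ x ∉ tsupport φ, Hs g φ x = 0 := by
    intro x hx
    ext i j
    show pd i (pd j φ) x - ∑ p, GG g i x p j * pd p φ x = 0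
    rw [pd_pd_zero hx, zero_sub, neg_eq_zero]
    exact Finset.sum_eq_zero fun p _ => by rw [pd_zero hx, mul_zero]
  set X1 : E n → DD n := fun y => φ y • (AL g h y * Y y) with hX1
  set X2 : E n → DD n := fun y => pf φ y * (h2 (h y) * Y y) with hX2
  have s1 : Sm U X1 := Sm.smul hφ.contDiffOn (sA.mul sY)
  have s2 : Sm U X2 := sp.mul (sh.mul sY)
  have z1 : ∀ x ∉ tsupport φ, X1 x = 0 := fun x hx => by
    rw [hX1]
    show φ x • (AL g h x * Y x) = 0
    rw [hφ0 x hx, zero_smul]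
  have z2 : ∀ x ∉ tsupport φ, X2 x = 0 := fun x hx => by
    rw [hX2]
    show pf φ x * (h2 (h x) * Y x) = 0
    rw [hp0 x hx, zero_mul]
  have st1 := stokes_L hU hg hs hd s1 hK hφU z1
  have st2 := stokes_R hU hg hs hd s2 hK hφU z2
  have i1 := int_L hU hg hs hd s1 hK hφU z1
  have i2 := int_R hU hg hs hd s2 hK hφU z2
  -- the pointwise identities
  have p1 : ∀ x ∈ U, dL (GG g) X1 x
      = pf φ x * (AL g h x * Y x) + φ x • (dL (GG g) (AL g h) x * Y x) := by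
    intro x hx
    rw [hX1, dL_smul (GG g) ((hφ.differentiable (by simp)) x) (DA.mul (sA.da hU hx) (sY.da hU hx)),
      dL_mul_odd (GG g) (sA.da hU hx) (sY.da hU hx) (fun i => Lc_AL hU hg hh hd' hx i),
      dL_closed hU hg hs hd' hx k m, mul_zero, sub_zero]
    rfl
  have p2 : ∀ x ∈ U, dR (GG g) X2 x
      = h2 (Hs g φ x) * (h2 (h x) * Y x) + pf φ x * (dR (GG g) (fun z => h2 (h z)) x * Y x) := by
    intro x hx
    rw [hX2, dR_mul_even (GG g) (sp.da hU hx) (DA.mul (sh.da hU hx) (sY.da hU hx))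
      (fun i => Rc_pf φ x i), dR_pf hU hg hs hφ hx,
      dR_mul_odd (GG g) (sh.da hU hx) (sY.da hU hx) (fun i => Rc_h2 _ i),
      dR_closed hU hg hs hd' hx k m, mul_zero, sub_zero]
  have key : ∀ x ∈ U, φ x * (sw g x * bt (dL (GG g) (AL g h) x * Y x))
      = sw g x * bt (dL (GG g) X1 x) + 1 / 2 * (sw g x * bt (dR (GG g) X2 x))
        - 1 / 2 * (sw g x * bt (h2 (Hs g φ x) * h2 (h x) * h4 (RR g x) ^ k * h2 (g x) ^ m)) := by
    intro x hx
    have e1 : bt (pf φ x * (AL g h x * Y x))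
        = -(1 / 2) * bt (pf φ x * (dR (GG g) (fun z => h2 (h z)) x * Y x)) := by
      rw [AL, smul_mul_assoc, mul_smul_comm, bt_smul]
    have e2 : h2 (Hs g φ x) * h2 (h x) * h4 (RR g x) ^ k * h2 (g x) ^ m
        = h2 (Hs g φ x) * (h2 (h x) * Y x) := by
      rw [hY]
      simp only [mul_assoc]
    rw [p1 x hx, p2 x hx, e2, bt_add, bt_add, bt_smul, e1]
    ring
  have iF : IntegrableOn (fun x => sw g x *
      bt (h2 (Hs g φ x) * h2 (h x) * h4 (RR g x) ^ k * h2 (g x) ^ m)) U := by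
    apply int_on hU _ hK hφU
    · intro x hx
      show sw g x * bt (h2 (Hs g φ x) * h2 (h x) * h4 (RR g x) ^ k * h2 (g x) ^ m) = 0
      have : (h2 (0 : Mat n) : DD n) = 0 := by simp [h2]
      rw [hH0 x hx, this, zero_mul, zero_mul, zero_mul]
      show sw g x * 0 = 0
      rw [mul_zero]
    · refine (sw_contDiffOn hg hd).mul ?_
      exact ((((Sm.h2 (Hs_sm hU hg hd' hφ)).mul sh).mul
        ((Sm.h4 fun i j => RR_sm hU hg hd' i j).pow k)).mul ((Sm.h2 hg).pow m)) _ _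
  rw [setIntegral_congr_fun hU.measurableSet key, int_lin i1 i2 iF, st1, st2]
  ring

end Pool.H68.LV
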