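import Pool.Agent.H68.LV.Fla
import Pool.Agent.H68.LV.Lnc

/-!
# Module LIN: linearisation of the curvature tensor

Let g, h be smooth symmetric on the open set U, det g <> 0 on U. For x in U put
K_j = CC h j - h Γ_j (this is g dΓ_j/ds), RD i j = derivative of RR (g + s h) x i j at s = 0:
RD i j = d_i CC(h)_j - d_j CC(h)_i
 - [CC(h)_i^T g^(-1) C_j + C_i^T g^(-1) CC(h)_j - C_i^T g^(-1) h g^(-1) C_j] + [i <-> j].
RD_eq (pure matrix algebra, noncomm_ring after inserting C_i^T g^(-1) = Γ_i^T, g^(-1) C_j = Γ_j,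
d_i h = CC(h)_i + CC(h)_i^T and K_j):
RD i j = h F_ij + (d_i K_j - Γ_i^T K_j - K_j Γ_i) - (d_j K_i - Γ_j^T K_i - K_i Γ_j),
F_ij = d_iΓ_j - d_jΓ_i + [Γ_i, Γ_j] = g^(-1) RR i j.
RD_h4: h4 of the first part: h4 (h F) = (1/2) (NR A h4 R - h4 R NR A), A = h g^(-1): NR_h4 gives
A R_ij + R_ij A^T = h F_ij + R_ij g^(-1) h and R_ij g^(-1) h = - F_ij^T h = -(h F_ij)^T because
R_ij is antisymmetric; the transposed part contributes the same as h F_ij after contraction with
the antisymmetric Rc k Rc l.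
The rest is dL of the field AL = (1/2) sum_j,k,l (K_j)_kl Lc j Rc k Rc l, and
AL = -(1/2) dR (h2 h): (K_j)_kl antisymmetrised in k, l is
(1/2)(d_l h_kj - d_k h_jl) - (1/2)(h_kp Γ^p_jl - h_lp Γ^p_jk) (use GG_symm).
(Checked numerically for n = 2, 3, 4.)
-/

open Matrix
open scoped ContDiff

noncomputable section
namespace Pool.H68.LV

variable {n : ℕ} {U : Set (E n)} {g h : E n → Mat n}

/-- The derivative of the curvature in the direction h. -/
def RD (g h : E n → Mat n) (x : E n) (i j : Fin n) : Mat n :=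
  mpd i (CC h j) x - mpd j (CC h i) x
    - ((CC h i x)ᵀ * (g x)⁻¹ * CC g j x + (CC g i x)ᵀ * (g x)⁻¹ * CC h j x
        - (CC g i x)ᵀ * (g x)⁻¹ * h x * (g x)⁻¹ * CC g j x)
    + ((CC h j x)ᵀ * (g x)⁻¹ * CC g i x + (CC g j x)ᵀ * (g x)⁻¹ * CC h i x
        - (CC g j x)ᵀ * (g x)⁻¹ * h x * (g x)⁻¹ * CC g i x)

/-! Derivatives of matrix valued functions of one variable. -/

def HDM {α β : Type} (A : ℝ → Matrix α β ℝ) (A' : Matrix α β ℝ) (s : ℝ) : Prop :=
  ∀ a b, HasDerivAt (fun t => A t a b) (A' a b) s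

theorem HDM.add {α β : Type} {A B : ℝ → Matrix α β ℝ} {A' B' : Matrix α β ℝ} {s : ℝ}
    (hA : HDM A A' s) (hB : HDM B B' s) : HDM (fun t => A t + B t) (A' + B') s :=
  fun a b => (hA a b).add (hB a b)

theorem HDM.sub {α β : Type} {A B : ℝ → Matrix α β ℝ} {A' B' : Matrix α β ℝ} {s : ℝ}
    (hA : HDM A A' s) (hB : HDM B B' s) : HDM (fun t => A t - B t) (A' - B') s :=
  fun a b => (hA a b).sub (hB a b)

theorem HDM.transpose {α β : Type} {A : ℝ → Matrix α β ℝ} {A' : Matrix α β ℝ} {s : ℝ}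
    (hA : HDM A A' s) : HDM (fun t => (A t)ᵀ) A'ᵀ s :=
  fun a b => hA b a

theorem HDM.mul {α β γ : Type} [Fintype β] {A : ℝ → Matrix α β ℝ} {B : ℝ → Matrix β γ ℝ}
    {A' : Matrix α β ℝ} {B' : Matrix β γ ℝ} {s : ℝ}
    (hA : HDM A A' s) (hB : HDM B B' s) : HDM (fun t => A t * B t) (A' * B s + A s * B') s := by
  intro a c
  have h1 : (fun t => (A t * B t) a c) = fun t => ∑ b, A t a b * B t b c := by
    funext t
    rw [Matrix.mul_apply]
  have h2 : (A' * B s + A s * B') a c = ∑ b, (A' a b * B s b c + A s a b * B' b c) := by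
    rw [Matrix.add_apply, Matrix.mul_apply, Matrix.mul_apply, Finset.sum_add_distrib]
  rw [h1, h2]
  exact HasDerivAt.fun_sum fun b _ => (hA a b).mul (hB b c)

theorem HDM.line {α β : Type} (A B : Matrix α β ℝ) (s : ℝ) : HDM (fun t => A + t • B) B s := by
  intro a b
  have h := ((hasDerivAt_id s).mul_const (B a b)).const_add (A a b)
  rw [one_mul] at h
  exact h

theorem HDM.inv {A : ℝ → Mat n} {A' : Mat n} {s : ℝ} (hA : HDM A A' s) (hd : (A s).det ≠ 0) :
    HDM (fun t => (A t)⁻¹) (-((A s)⁻¹ * A' * (A s)⁻¹)) s :=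
  fun a b => hasDerivAt_inv hA hd a b

private theorem abs_D {R : Type*} [Ring R] {D V h Hi Hit Hj Hjt Ci Cit Cj Cjt : R} :
    D - ((Hit * V + Cit * -(V * h * V)) * Cj + Cit * V * Hj)
        + ((Hjt * V + Cjt * -(V * h * V)) * Ci + Cjt * V * Hi)
      = D - (Hit * V * Cj + Cit * V * Hj - Cit * V * h * V * Cj)
        + (Hjt * V * Ci + Cjt * V * Hi - Cjt * V * h * V * Ci) := by
  noncomm_ring

/-! The left action. -/

theorem NL_h2 (A g : Mat n) : NL A * h2 g - h2 g * NL A = h2 (A * g) := by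
  have h := NR_h2 A gᵀ
  have h2' := congrArg swp h
  rw [swp_sub, swp_mul, swp_mul, swp_NR, swp_h2, transpose_transpose, swp_h2,
    Matrix.transpose_mul, transpose_transpose, transpose_transpose] at h2'
  exact h2'

theorem covL_h2 (G : Fin n → E n → Mat n) {h : E n → Mat n} {x : E n} (hh : DA h x) (m : Fin n) :
    covL G (fun y => h2 (h y)) m x = h2 (mpd m h x - (G m x)ᵀ * h x) := by
  rw [covL, mpd_h2 m hh, NL_h2]
  have e := h2_add (mpd m h x - (G m x)ᵀ * h x) ((G m x)ᵀ * h x)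
  rw [sub_add_cancel] at e
  rw [e]
  abel

/-- RD is the derivative of RR along the segment. -/
theorem hasDerivAt_RR (hU : IsOpen U) (hg : Sm U g) (hh : Sm U h) {x : E n} (hx : x ∈ U) {s : ℝ}
    (hd : (g x + s • h x).det ≠ 0) (i j k l : Fin n) :
    HasDerivAt (fun t : ℝ => RR (fun y => g y + t • h y) x i j k l)
      (RD (fun y => g y + s • h y) h x i j k l) s := by
  have e : ∀ t : ℝ, RR (fun y => g y + t • h y) x i j
      = (mpd i (CC g j) x + t • mpd i (CC h j) x) - (mpd j (CC g i) x + t • mpd j (CC h i) x)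
        - (CC g i x + t • CC h i x)ᵀ * (g x + t • h x)⁻¹ * (CC g j x + t • CC h j x)
        + (CC g j x + t • CC h j x)ᵀ * (g x + t • h x)⁻¹ * (CC g i x + t • CC h i x) := by
    intro t
    rw [RR, mCC_line hU hg hh hx, mCC_line hU hg hh hx, CC_line hU hg hh hx,
      CC_line hU hg hh hx]
  simp only [e]
  have hi := (HDM.line (g x) (h x) s).inv hd
  have hCi := HDM.line (CC g i x) (CC h i x) s
  have hCj := HDM.line (CC g j x) (CC h j x) s
  have h1 := ((HDM.line (mpd i (CC g j) x) (mpd i (CC h j) x) s).sub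
    (HDM.line (mpd j (CC g i) x) (mpd j (CC h i) x) s)).sub ((hCi.transpose.mul hi).mul hCj)
  have h2 := h1.add ((hCj.transpose.mul hi).mul hCi)
  have h3 := h2 k l
  refine h3.congr_deriv ?_
  rw [RD, CC_line hU hg hh hx, CC_line hU hg hh hx]
  refine congrFun (congrFun (?_ : (_ : Mat n) = _) k) l
  exact abs_D

/-- The field alpha. -/
def AL (g h : E n → Mat n) (y : E n) : DD n := -(1 / 2 : ℝ) • dR (GG g) (fun z => h2 (h z)) y

private theorem Sm.NL {A : E n → Mat n} (hA : Sm U A) : Sm U (fun y => Pool.H68.LV.NL (A y)) :=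
  SmV.sum _ fun p _ => SmV.sum _ fun q _ => SmV.smul (hA p q) (SmV.const _)

theorem AL_sm (hU : IsOpen U) (hg : Sm U g) (hh : Sm U h) (hd : ∀ x ∈ U, (g x).det ≠ 0) :
    Sm U (AL g h) := by
  refine SmV.smul contDiffOn_const (SmV.sum _ fun m _ => ?_)
  have h1 : Sm U (covL (GG g) (fun z => h2 (h z)) m) :=
    ((Sm.h2 hh).mpd hU m).sub (((Sm.NL ((GG_sm hU hg hd m).transpose)).mul (Sm.h2 hh)).sub
      ((Sm.h2 hh).mul (Sm.NL ((GG_sm hU hg hd m).transpose))))
  exact (Sm.const (Rc m : DD n)).mul h1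

/-! The trilinear forms with one left and two right indices. -/

def h3 (K : Fin n → Mat n) : DD n := (1 / 2 : ℝ) • ∑ j, ∑ k, ∑ l, K j k l • (Lc j * Rc k * Rc l)

theorem h3_add (K K' : Fin n → Mat n) : h3 (fun j => K j + K' j) = h3 K + h3 K' := by
  simp only [h3, Matrix.add_apply, add_smul, Finset.sum_add_distrib, smul_add]

theorem h3_smul (c : ℝ) (K : Fin n → Mat n) : h3 (fun j => c • K j) = c • h3 K := by
  simp only [h3, Matrix.smul_apply, smul_assoc, Finset.smul_sum]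
  refine Finset.sum_congr rfl fun i _ => Finset.sum_congr rfl fun j _ =>
    Finset.sum_congr rfl fun k _ => ?_
  rw [smul_comm]

theorem h3_sub (K K' : Fin n → Mat n) : h3 (fun j => K j - K' j) = h3 K - h3 K' := by
  have := h3_add (fun j => K j - K' j) K'
  simp only [sub_add_cancel] at this
  rw [this]
  abel

theorem h3_transpose (K : Fin n → Mat n) : h3 (fun j => (K j)ᵀ) = - h3 K := by
  rw [h3, h3, ← smul_neg]
  congr 1
  rw [← Finset.sum_neg_distrib]
  refine Finset.sum_congr rfl fun j _ => ?_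
  rw [Finset.sum_comm, ← Finset.sum_neg_distrib]
  refine Finset.sum_congr rfl fun k _ => ?_
  rw [← Finset.sum_neg_distrib]
  refine Finset.sum_congr rfl fun l _ => ?_
  rw [transpose_apply, mul_assoc, Rc_mul_Rc l k, mul_neg, smul_neg, mul_assoc]

theorem h3_anti (K K' : Fin n → Mat n) (h : ∀ j, K j - (K j)ᵀ = K' j - (K' j)ᵀ) :
    h3 K = h3 K' := by
  have h1 : h3 (fun j => K j - (K j)ᵀ) = h3 (fun j => K' j - (K' j)ᵀ) := by
    congr 1
    funext j
    exact h j
  rw [h3_sub K (fun j => (K j)ᵀ), h3_sub K' (fun j => (K' j)ᵀ), h3_transpose, h3_transpose,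
    sub_neg_eq_add, sub_neg_eq_add, ← two_smul ℝ, ← two_smul ℝ] at h1
  have h2 : (2 : ℝ) • (h3 K - h3 K') = 0 := by
    rw [smul_sub, h1, sub_self]
  exact sub_eq_zero.mp ((smul_eq_zero.mp h2).resolve_left two_ne_zero)

theorem mpd_h3 (i : Fin n) {K : E n → Fin n → Mat n} {x : E n} (hK : ∀ a, DA (fun y => K y a) x) :
    mpd i (fun y => h3 (K y)) x = h3 (fun a => mpd i (fun y => K y a) x) := by
  ext p q
  have h1 : ∀ M : Fin n → Mat n, h3 M p q = ∑ a, ∑ b, ∑ c,
      M a b c * (1 / 2 * (Lc a * Rc b * Rc c : DD n) p q) := by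
    intro M
    simp only [h3, Matrix.sum_apply, Matrix.smul_apply, smul_eq_mul, Finset.mul_sum]
    refine Finset.sum_congr rfl fun a _ => Finset.sum_congr rfl fun b _ =>
      Finset.sum_congr rfl fun c _ => by ring
  simp only [mpd, Matrix.of_apply, h1]
  rw [pd_sum _ _ (fun a _ => DifferentiableAt.fun_sum fun b _ => DifferentiableAt.fun_sum
    fun c _ => (hK a b c).mul_const _)]
  refine Finset.sum_congr rfl fun a _ => ?_
  rw [pd_sum _ _ (fun b _ => DifferentiableAt.fun_sum fun c _ => (hK a b c).mul_const _)]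
  refine Finset.sum_congr rfl fun b _ => ?_
  rw [pd_sum _ _ (fun c _ => (hK a b c).mul_const _)]
  refine Finset.sum_congr rfl fun c _ => ?_
  rw [pd_mul i (hK a b c) (differentiableAt_const _), pd_const, mul_zero, add_zero]

private theorem abs3 {R : Type*} [Ring R] {N a c d : R} (h1 : N * a = a * N) :
    N * (a * c * d) - a * c * d * N
      = a * ((N * c - c * N) * d + c * (N * d - d * N)) := by
  have e : N * (a * c * d) = a * (N * (c * d)) := by
    rw [mul_assoc a, ← mul_assoc N, h1, mul_assoc a N]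
  rw [e]
  noncomm_ring

theorem NR_h3 (A : Mat n) (K : Fin n → Mat n) :
    NR A * h3 K - h3 K * NR A = h3 (fun j => A * K j + K j * Aᵀ) := by
  have h1 : NR A * h3 K - h3 K * NR A
      = (1 / 2 : ℝ) • ∑ j, ∑ k, ∑ l, K j k l •
        (Lc j * ((NR A * Rc k - Rc k * NR A) * Rc l
          + Rc k * (NR A * Rc l - Rc l * NR A)) : DD n) := by
    rw [h3, mul_smul_comm, smul_mul_assoc, ← smul_sub]
    congr 1
    rw [Finset.sum_mul, Finset.mul_sum, ← Finset.sum_sub_distrib]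
    refine Finset.sum_congr rfl fun j _ => ?_
    rw [Finset.sum_mul, Finset.mul_sum, ← Finset.sum_sub_distrib]
    refine Finset.sum_congr rfl fun k _ => ?_
    rw [Finset.sum_mul, Finset.mul_sum, ← Finset.sum_sub_distrib]
    refine Finset.sum_congr rfl fun l _ => ?_
    rw [mul_smul_comm, smul_mul_assoc, ← smul_sub, abs3 (NR_Lc A j)]
  have h2 : ∀ j k l : Fin n, (Lc j * ((NR A * Rc k - Rc k * NR A) * Rc l
          + Rc k * (NR A * Rc l - Rc l * NR A)) : DD n)
      = (∑ p, A p k • (Lc j * Rc p * Rc l)) + ∑ p, A p l • (Lc j * Rc k * Rc p) := by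
    intro j k l
    rw [NR_Rc, NR_Rc, mul_add, Finset.sum_mul, Finset.mul_sum, Finset.mul_sum, Finset.mul_sum]
    congr 1
    · refine Finset.sum_congr rfl fun p _ => ?_
      rw [smul_mul_assoc, mul_smul_comm, ← mul_assoc]
    · refine Finset.sum_congr rfl fun p _ => ?_
      rw [mul_smul_comm, mul_smul_comm, ← mul_assoc]
  rw [h1, h3_add]
  simp only [h2, smul_add, Finset.sum_add_distrib]
  congr 1
  · rw [h3]
    congr 1
    refine Finset.sum_congr rfl fun j _ => ?_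
    simp only [Finset.smul_sum, smul_smul]
    have rot : ∀ f : Fin n → Fin n → Fin n → DD n,
        ∑ k, ∑ l, ∑ p, f k l p = ∑ p, ∑ l, ∑ k, f k l p := by
      intro f
      rw [Finset.sum_comm]
      have h : ∀ l, ∑ k, ∑ p, f k l p = ∑ p, ∑ k, f k l p := fun l => Finset.sum_comm
      simp only [h]
      exact Finset.sum_comm
    rw [rot]
    refine Finset.sum_congr rfl fun p _ => Finset.sum_congr rfl fun l _ => ?_
    rw [Matrix.mul_apply, Finset.sum_smul]
    refine Finset.sum_congr rfl fun k _ => ?_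
    rw [mul_comm]
  · rw [h3]
    congr 1
    refine Finset.sum_congr rfl fun j _ => Finset.sum_congr rfl fun k _ => ?_
    simp only [Finset.smul_sum, smul_smul]
    rw [Finset.sum_comm]
    refine Finset.sum_congr rfl fun p _ => ?_
    rw [Matrix.mul_apply, Finset.sum_smul]
    refine Finset.sum_congr rfl fun l _ => ?_
    rw [transpose_apply]

private theorem abs_K {R : Type*} [Ring R] {di dj Hi Hit Hj Hjt Gi Git Gj Gjt h Dij Dji : R} :
    (Dij - Dji) - (Hit * Gj + Git * Hj - Git * h * Gj) + (Hjt * Gi + Gjt * Hi - Gjt * h * Gi)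
      = h * (di - dj + Gi * Gj - Gj * Gi)
        + ((Dij - ((Hi + Hit) * Gj + h * di)) - Git * (Hj - h * Gj) - (Hj - h * Gj) * Gi)
        - ((Dji - ((Hj + Hjt) * Gi + h * dj)) - Gjt * (Hi - h * Gi) - (Hi - h * Gi) * Gj) := by
  noncomm_ring

/-- The field K_j. -/
private def KK (g h : E n → Mat n) (j : Fin n) (y : E n) : Mat n := CC h j y - h y * GG g j y

private def PP (g h : E n → Mat n) (x : E n) (i j : Fin n) : Mat n :=
  mpd i (KK g h j) x - (GG g i x)ᵀ * KK g h j x - KK g h j x * GG g i x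

private theorem RD_eq (hU : IsOpen U) (hg : Sm U g) (hs : ∀ x ∈ U, (g x)ᵀ = g x)
    (hh : Sm U h) (hhs : ∀ x ∈ U, (h x)ᵀ = h x)
    (hd : ∀ x ∈ U, (g x).det ≠ 0) {x : E n} (hx : x ∈ U) (i j : Fin n) :
    RD g h x i j = h x * ((g x)⁻¹ * RR g x i j) + PP g h x i j - PP g h x j i := by
  have hu : IsUnit (g x).det := isUnit_iff_ne_zero.mpr (hd x hx)
  have hF : (g x)⁻¹ * RR g x i j = mpd i (GG g j) x - mpd j (GG g i) x
      + GG g i x * GG g j x - GG g j x * GG g i x := by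
    rw [RR_eq hU hg hs hd hx, ← mul_assoc, Matrix.nonsing_inv_mul _ hu, one_mul]
  have hinv : ((g x)⁻¹)ᵀ = (g x)⁻¹ := by
    rw [Matrix.transpose_nonsing_inv, hs x hx]
  have hGt : ∀ a, (CC g a x)ᵀ * (g x)⁻¹ = (GG g a x)ᵀ := by
    intro a
    rw [GG, Matrix.transpose_mul, hinv]
  have hmK : ∀ a b, mpd a (KK g h b) x
      = mpd a (CC h b) x - ((CC h a x + (CC h a x)ᵀ) * GG g b x + h x * mpd a (GG g b) x) := by
    intro a b
    have s1 := (CC_sm hU hh b).da hU hx
    have s2 := hh.da hU hx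
    have s3 := (GG_sm hU hg hd b).da hU hx
    have e := mpd_sub a s1 (DA.mul s2 s3)
    rw [mpd_mul a s2 s3, mpd_metric hU hh hhs hx a] at e
    exact e
  have hG : ∀ a, (g x)⁻¹ * CC g a x = GG g a x := fun a => rfl
  rw [hF, PP, PP, hmK, hmK, RD]
  have r1 : (CC h i x)ᵀ * (g x)⁻¹ * CC g j x = (CC h i x)ᵀ * GG g j x := by rw [mul_assoc, hG]
  have r2 : (CC g i x)ᵀ * (g x)⁻¹ * CC h j x = (GG g i x)ᵀ * CC h j x := by rw [hGt]
  have r3 : (CC g i x)ᵀ * (g x)⁻¹ * h x * (g x)⁻¹ * CC g j x = (GG g i x)ᵀ * h x * GG g j x := by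
    rw [hGt, mul_assoc _ (g x)⁻¹, hG]
  have r4 : (CC h j x)ᵀ * (g x)⁻¹ * CC g i x = (CC h j x)ᵀ * GG g i x := by rw [mul_assoc, hG]
  have r5 : (CC g j x)ᵀ * (g x)⁻¹ * CC h i x = (GG g j x)ᵀ * CC h i x := by rw [hGt]
  have r6 : (CC g j x)ᵀ * (g x)⁻¹ * h x * (g x)⁻¹ * CC g i x = (GG g j x)ᵀ * h x * GG g i x := by
    rw [hGt, mul_assoc _ (g x)⁻¹, hG]
  rw [r1, r2, r3, r4, r5, r6]
  simp only [KK]
  exact abs_K

/-- h4 of the antisymmetrised form. -/
private theorem h4_PP (P : Fin n → Fin n → Mat n) :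
    h4 (fun i j => P i j - P j i) = ∑ i, Lc i * h3 (P i) := by
  have h1 : h4 (fun i j => P i j - P j i)
      = (1 / 4 : ℝ) • (∑ i, ∑ j, ∑ k, ∑ l, P i j k l • (Lc i * Lc j * Rc k * Rc l : DD n))
      - (1 / 4 : ℝ) • (∑ i, ∑ j, ∑ k, ∑ l, P j i k l • (Lc i * Lc j * Rc k * Rc l : DD n)) := by
    simp only [h4, Matrix.sub_apply, sub_smul, Finset.sum_sub_distrib, smul_sub]
  have h2 : (∑ i, ∑ j, ∑ k, ∑ l, P j i k l • (Lc i * Lc j * Rc k * Rc l : DD n))
      = - ∑ i, ∑ j, ∑ k, ∑ l, P i j k l • (Lc i * Lc j * Rc k * Rc l : DD n) := by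
    rw [Finset.sum_comm]
    simp only [← Finset.sum_neg_distrib]
    refine Finset.sum_congr rfl fun i _ => Finset.sum_congr rfl fun j _ =>
      Finset.sum_congr rfl fun k _ => Finset.sum_congr rfl fun l _ => ?_
    rw [Lc_mul_Lc j i, neg_mul, neg_mul, smul_neg]
  have h3' : ∑ i, Lc i * h3 (P i)
      = (1 / 2 : ℝ) • ∑ i, ∑ j, ∑ k, ∑ l, P i j k l • (Lc i * Lc j * Rc k * Rc l : DD n) := by
    rw [Finset.smul_sum]
    refine Finset.sum_congr rfl fun i _ => ?_
    rw [h3, mul_smul_comm]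
    congr 1
    rw [Finset.mul_sum]
    refine Finset.sum_congr rfl fun j _ => ?_
    rw [Finset.mul_sum]
    refine Finset.sum_congr rfl fun k _ => ?_
    rw [Finset.mul_sum]
    refine Finset.sum_congr rfl fun l _ => ?_
    rw [mul_smul_comm]
    simp only [mul_assoc]
  rw [h1, h2, h3']
  module

/-- h4 only sees the part antisymmetric in the last two indices. -/
private theorem h4_transpose (T : Fin n → Fin n → Mat n) :
    h4 (fun i j => (T i j)ᵀ) = - h4 T := by
  rw [h4, h4, ← smul_neg]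
  congr 1
  rw [← Finset.sum_neg_distrib]
  refine Finset.sum_congr rfl fun i _ => ?_
  rw [← Finset.sum_neg_distrib]
  refine Finset.sum_congr rfl fun j _ => ?_
  rw [Finset.sum_comm, ← Finset.sum_neg_distrib]
  refine Finset.sum_congr rfl fun k _ => ?_
  rw [← Finset.sum_neg_distrib]
  refine Finset.sum_congr rfl fun l _ => ?_
  rw [transpose_apply, mul_assoc (Lc i * Lc j), Rc_mul_Rc l k, mul_neg, smul_neg,
    mul_assoc (Lc i * Lc j)]

private theorem h4_sub (T T' : Fin n → Fin n → Mat n) :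
    h4 (fun i j => T i j - T' i j) = h4 T - h4 T' := by
  have := h4_add (fun i j => T i j - T' i j) T'
  simp only [sub_add_cancel] at this
  rw [this]
  abel

private theorem h4_hF (hU : IsOpen U) (hg : Sm U g) (hs : ∀ x ∈ U, (g x)ᵀ = g x)
    (hhs : ∀ x ∈ U, (h x)ᵀ = h x)
    (hd : ∀ x ∈ U, (g x).det ≠ 0) {x : E n} (hx : x ∈ U) :
    h4 (fun i j => h x * ((g x)⁻¹ * RR g x i j))
      = (1 / 2 : ℝ) • (NR (h x * (g x)⁻¹) * h4 (RR g x) - h4 (RR g x) * NR (h x * (g x)⁻¹)) := by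
  have hinv : ((g x)⁻¹)ᵀ = (g x)⁻¹ := by
    rw [Matrix.transpose_nonsing_inv, hs x hx]
  have hRt : ∀ i j, (RR g x i j)ᵀ = - RR g x i j := by
    intro i j
    ext k l
    rw [transpose_apply, Matrix.neg_apply]
    exact (RR_curv hU hg hs hd hx).a34 i j l k
  have e1 : (fun i j => h x * (g x)⁻¹ * RR g x i j + RR g x i j * (h x * (g x)⁻¹)ᵀ)
      = fun i j => h x * ((g x)⁻¹ * RR g x i j) - (h x * ((g x)⁻¹ * RR g x i j))ᵀ := by
    funext i j
    rw [Matrix.transpose_mul, Matrix.transpose_mul, Matrix.transpose_mul, hRt, hinv, hhs x hx,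
      mul_assoc, neg_mul, neg_mul, sub_neg_eq_add, mul_assoc]
  rw [NR_h4, e1, h4_sub _ (fun i j => (h x * ((g x)⁻¹ * RR g x i j))ᵀ), h4_transpose,
    sub_neg_eq_add, ← two_smul ℝ, smul_smul]
  norm_num

/-- The field alpha in terms of K. -/
private theorem AL_eq (hU : IsOpen U) (hg : Sm U g) (hs : ∀ x ∈ U, (g x)ᵀ = g x)
    (hh : Sm U h) (hhs : ∀ x ∈ U, (h x)ᵀ = h x) {x : E n} (hx : x ∈ U) :
    AL g h x = h3 (fun j => KK g h j x) := by
  have h1 : dR (GG g) (fun z => h2 (h z)) x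
      = (2 : ℝ) • h3 (fun i => Matrix.of fun m j => (mpd m h x - (GG g m x)ᵀ * h x) i j) := by
    rw [dR, h3, smul_smul]
    norm_num
    have e : ∀ m, Rc m * covL (GG g) (fun z => h2 (h z)) m x
        = ∑ i, ∑ j, (mpd m h x - (GG g m x)ᵀ * h x) i j • (Lc i * Rc m * Rc j : DD n) := by
      intro m
      rw [covL_h2 (GG g) (hh.da hU hx), h2, Finset.mul_sum]
      refine Finset.sum_congr rfl fun i _ => ?_
      rw [Finset.mul_sum]
      refine Finset.sum_congr rfl fun j _ => ?_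
      rw [mul_smul_comm, ← mul_assoc, ← Lc_mul_Rc]
    simp only [e]
    rw [Finset.sum_comm]
    rfl
  rw [AL, h1, smul_smul]
  norm_num
  rw [← neg_one_smul ℝ, ← h3_smul]
  apply h3_anti
  intro j
  ext k l
  simp only [Matrix.sub_apply, transpose_apply, Matrix.smul_apply, Matrix.of_apply, smul_eq_mul,
    KK]
  have sy : ∀ a b c, pd a (fun y => h y b c) x = pd a (fun y => h y c b) x := fun a b c =>
    pd_congr_on hU (fun y hy => congrFun (congrFun (hhs y hy) c) b) hx a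
  have c1 : ∀ a b c, mpd a h x b c = pd a (fun y => h y b c) x := fun a b c => rfl
  have c2 : ∀ a b c, CC h a x b c = 1 / 2 * (pd a (fun y => h y b c) x + pd c (fun y => h y b a) x
    - pd b (fun y => h y a c) x) := fun a b c => rfl
  have c3 : ∀ a b, (h x * GG g j x) a b = ((GG g b x)ᵀ * h x) j a := by
    intro a b
    rw [Matrix.mul_apply, Matrix.mul_apply]
    refine Finset.sum_congr rfl fun p _ => ?_
    rw [transpose_apply, GG_symm hU hg hs hx j p b, mul_comm]
    congr 1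
    exact (congrFun (congrFun (hhs x hx) a) p).symm
  rw [c1, c1, c2, c2, c3, c3]
  rw [sy j l k, sy l k j, sy k l j]
  ring

private theorem KK_sm (hU : IsOpen U) (hg : Sm U g) (hh : Sm U h) (hd : ∀ x ∈ U, (g x).det ≠ 0)
    (j : Fin n) : Sm U (KK g h j) :=
  (CC_sm hU hh j).sub (hh.mul (GG_sm hU hg hd j))

theorem RD_h4 (hU : IsOpen U) (hg : Sm U g) (hs : ∀ x ∈ U, (g x)ᵀ = g x)
    (hh : Sm U h) (hhs : ∀ x ∈ U, (h x)ᵀ = h x)
    (hd : ∀ x ∈ U, (g x).det ≠ 0) {x : E n} (hx : x ∈ U) :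
    h4 (RD g h x) = (1 / 2 : ℝ) • (NR (h x * (g x)⁻¹) * h4 (RR g x)
        - h4 (RR g x) * NR (h x * (g x)⁻¹)) + dL (GG g) (AL g h) x := by
  have h1 : h4 (RD g h x) = h4 (fun i j => h x * ((g x)⁻¹ * RR g x i j))
      + h4 (fun i j => PP g h x i j - PP g h x j i) := by
    rw [← h4_add]
    congr 1
    funext i j
    rw [RD_eq hU hg hs hh hhs hd hx]
    abel
  rw [h1, h4_hF hU hg hs hhs hd hx, h4_PP]
  congr 1
  rw [dL_congr_on (GG g) hU (Y := fun y => h3 (fun j => KK g h j y)) (fun y hy =>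
    AL_eq hU hg hs hh hhs hy) hx, dL]
  refine Finset.sum_congr rfl fun i _ => ?_
  congr 1
  rw [covR, mpd_h3 i (fun a => (KK_sm hU hg hh hd a).da hU hx), NR_h3, transpose_transpose,
    ← h3_sub]
  congr 1
  funext j
  show mpd i (KK g h j) x - (GG g i x)ᵀ * KK g h j x - KK g h j x * GG g i x = _
  rw [sub_sub]

/-- Parity of alpha and commutation with even forms. -/
theorem Lc_AL (hU : IsOpen U) (hg : Sm U g) (hh : Sm U h) (hd : ∀ x ∈ U, (g x).det ≠ 0)
    {x : E n} (hx : x ∈ U) (i : Fin n) : Lc i * AL g h x = -(AL g h x * Lc i) := by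
  rw [AL, mul_smul_comm, smul_mul_assoc, ← smul_neg]
  congr 1
  rw [dR, Finset.mul_sum, Finset.sum_mul, ← Finset.sum_neg_distrib]
  refine Finset.sum_congr rfl fun m _ => ?_
  rw [covL_h2 (GG g) (hh.da hU hx), ← mul_assoc, Lc_mul_Rc, mul_assoc, Lc_h2, mul_neg, mul_assoc]

end Pool.H68.LV
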