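import Pool.Agent.H68.LV.Lin

/-!
# Module PTD: the pointwise derivative of the density dn k along a segment of metrics

g_s = g + s h near x, N = NR (h g_s^(-1)), A = h g_s^(-1).
d/ds (w bt(R^k G^m)) (R = h4 RR, G = h2 g, m = n - 2k) =
 -(1/2) tr(A) w bt(R^k G^m) + w k bt(R' R^(k-1) G^m) + w m bt(R^k G^(m-1) h2 h)
(hasDerivAt_sw, tr(g^(-1) h) = tr(A); everything commutes: h2_comm, h4_comm, h2_h4_comm),
R' = h4 RD = (1/2)[N, R] + dL a (RD_h4). The derivation identity
[N, R^k G^m] = k [N, R] R^(k-1) G^m + m [N, G] R^k G^(m-1), [N, G] = h2 (g A^T) = h2 h (NR_h2),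
bt([N, X]) = tr(A) bt X (bt_NR, bt_mul_NR) gives
k bt([N,R] R^(k-1) G^m) = tr(A) bt(R^k G^m) - m bt(R^k G^(m-1) h2h). Insert:
derivative = (m/2) w bt(R^k G^(m-1) h2h) + k w bt((dL a) R^(k-1) G^m).
Here [N, R] need not commute with R, but [N, R] = h4 (..) by NR_h4, so it does.
-/

open Matrix MeasureTheory
open scoped ContDiff

noncomputable section
namespace Pool.H68.LV

variable {n : ℕ} {U : Set (E n)} {g h : E n → Mat n}

private theorem HDM.h4 {T : ℝ → Fin n → Fin n → Mat n} {T' : Fin n → Fin n → Mat n} {s : ℝ}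
    (hT : ∀ i j, HDM (fun t => T t i j) (T' i j) s) :
    HDM (fun t => Pool.H68.LV.h4 (T t)) (Pool.H68.LV.h4 T') s := by
  intro p q
  have h1 : ∀ M : Fin n → Fin n → Mat n, Pool.H68.LV.h4 M p q = ∑ a, ∑ b, ∑ c, ∑ d,
      M a b c d * (1 / 4 * (Lc a * Lc b * Rc c * Rc d : DD n) p q) := by
    intro M
    simp only [Pool.H68.LV.h4, Matrix.sum_apply, Matrix.smul_apply, smul_eq_mul, Finset.mul_sum]
    refine Finset.sum_congr rfl fun a _ => Finset.sum_congr rfl fun b _ =>
      Finset.sum_congr rfl fun c _ => Finset.sum_congr rfl fun d _ => by ring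
  simp only [h1]
  exact HasDerivAt.fun_sum fun a _ => HasDerivAt.fun_sum fun b _ => HasDerivAt.fun_sum fun c _ =>
    HasDerivAt.fun_sum fun d _ => (hT a b c d).mul_const _

private theorem HDM.pow {A : ℝ → DD n} {A' : DD n} {s : ℝ} (hA : HDM A A' s)
    (hc : Commute A' (A s)) (k : ℕ) :
    HDM (fun t => A t ^ k) ((k : ℝ) • (A' * A s ^ (k - 1))) s := by
  induction k with
  | zero =>
    intro a b
    simp only [pow_zero, Nat.cast_zero, zero_smul]
    exact hasDerivAt_const _ _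
  | succ k ih =>
    have h := hA.mul ih
    have e1 : (fun t => A t ^ (k + 1)) = fun t => A t * A t ^ k := by
      funext t
      rw [pow_succ']
    have e2 : A' * A s ^ k + A s * ((k : ℝ) • (A' * A s ^ (k - 1)))
        = ((k + 1 : ℕ) : ℝ) • (A' * A s ^ (k + 1 - 1)) := by
      rw [mul_smul_comm, ← mul_assoc, ← hc.eq, mul_assoc, Nat.add_sub_cancel]
      rcases Nat.eq_zero_or_pos k with h0 | h0
      · subst h0
        simp
      · have : A s * A s ^ (k - 1) = A s ^ k := by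
          rw [← pow_succ']
          congr 1
          omega
        rw [this]
        push_cast
        rw [add_smul, one_smul, add_comm]
    rw [e1, ← e2]
    exact h

private theorem comm_pow {N R : DD n} (hc : Commute (N * R - R * N) R) (k : ℕ) :
    N * R ^ k - R ^ k * N = (k : ℝ) • ((N * R - R * N) * R ^ (k - 1)) := by
  induction k with
  | zero => simp
  | succ k ih =>
    have e1 : N * R ^ (k + 1) - R ^ (k + 1) * N
        = (N * R - R * N) * R ^ k + R * (N * R ^ k - R ^ k * N) := by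
      rw [pow_succ']
      noncomm_ring
    rw [e1, ih, mul_smul_comm, ← mul_assoc R, ← hc.eq, mul_assoc _ R, Nat.add_sub_cancel]
    rcases Nat.eq_zero_or_pos k with h0 | h0
    · subst h0
      simp
    · have : R * R ^ (k - 1) = R ^ k := by
        rw [← pow_succ']
        congr 1
        omega
      rw [this]
      push_cast
      rw [add_smul, one_smul, add_comm]

private theorem abs_N {R : Type*} [Ring R] {N X Y : R} :
    N * (X * Y) - X * Y * N = (N * X - X * N) * Y + X * (N * Y - Y * N) := by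
  noncomm_ring

/-- The key identity. -/
private theorem key_bt (A gm hm : Mat n) (T : Fin n → Fin n → Mat n) (hA : gm * Aᵀ = hm)
    (k m : ℕ) :
    (k : ℝ) * bt ((NR A * h4 T - h4 T * NR A) * h4 T ^ (k - 1) * h2 gm ^ m)
      = A.trace * bt (h4 T ^ k * h2 gm ^ m)
        - m * bt (h4 T ^ k * (h2 hm * h2 gm ^ (m - 1))) := by
  have c4 : Commute (NR A * h4 T - h4 T * NR A) (h4 T) := by
    rw [NR_h4]
    exact h4_comm _ _
  have c2 : Commute (NR A * h2 gm - h2 gm * NR A) (h2 gm) := by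
    rw [NR_h2]
    exact h2_comm _ _
  have h1 : NR A * (h4 T ^ k * h2 gm ^ m) - h4 T ^ k * h2 gm ^ m * NR A
      = (k : ℝ) • ((NR A * h4 T - h4 T * NR A) * h4 T ^ (k - 1) * h2 gm ^ m)
        + (m : ℝ) • (h4 T ^ k * (h2 hm * h2 gm ^ (m - 1))) := by
    rw [abs_N, comm_pow c4, comm_pow c2, NR_h2 A gm, hA, smul_mul_assoc, mul_smul_comm]
  have h2' : bt (NR A * (h4 T ^ k * h2 gm ^ m) - h4 T ^ k * h2 gm ^ m * NR A)
      = A.trace * bt (h4 T ^ k * h2 gm ^ m) := by
    rw [sub_eq_add_neg, ← neg_one_smul ℝ (h4 T ^ k * h2 gm ^ m * NR A), bt_add, bt_smul, bt_NR,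
      bt_mul_NR]
    ring
  rw [h1, bt_add, bt_smul, bt_smul] at h2'
  linarith

theorem hasDerivAt_dn (hU : IsOpen U) (hg : Sm U g) (hs : ∀ x ∈ U, (g x)ᵀ = g x)
    (hh : Sm U h) (hhs : ∀ x ∈ U, (h x)ᵀ = h x) {s : ℝ}
    (hd : ∀ x ∈ U, 0 < (g x + s • h x).det) {x : E n} (hx : x ∈ U) (k : ℕ) (hk : 2 * k ≤ n) :
    HasDerivAt (fun t : ℝ => dn k (fun y => g y + t • h y) x)
      (((n : ℝ) - 2 * k) / 2 * dh k (fun y => g y + s • h y) h x
        + k * (sw (fun y => g y + s • h y) x *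
            bt (dL (GG fun y => g y + s • h y) (AL (fun y => g y + s • h y) h) x *
              (h4 (RR (fun y => g y + s • h y) x) ^ (k - 1)
                * h2 (g x + s • h x) ^ (n - 2 * k))))) s := by
  set gs : E n → Mat n := fun y => g y + s • h y with hgs
  have sgs : Sm U gs := hg.add (Sm.smul contDiffOn_const hh)
  have ssym : ∀ x ∈ U, (gs x)ᵀ = gs x := by
    intro y hy
    rw [hgs]
    show (g y + s • h y)ᵀ = g y + s • h y
    rw [Matrix.transpose_add, Matrix.transpose_smul, hs y hy, hhs y hy]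
  have sdet : ∀ x ∈ U, (gs x).det ≠ 0 := fun y hy => (hd y hy).ne'
  set m := n - 2 * k with hm
  set A : Mat n := h x * (gs x)⁻¹ with hA
  have hu : IsUnit (gs x).det := isUnit_iff_ne_zero.mpr (sdet x hx)
  have hinv : ((gs x)⁻¹)ᵀ = (gs x)⁻¹ := by
    rw [Matrix.transpose_nonsing_inv, ssym x hx]
  have hgA : gs x * Aᵀ = h x := by
    rw [hA, Matrix.transpose_mul, hinv, hhs x hx, ← mul_assoc, Matrix.mul_nonsing_inv _ hu, one_mul]
  -- the derivatives of the factors
  have dR : HDM (fun t : ℝ => h4 (RR (fun y => g y + t • h y) x)) (h4 (RD gs h x)) s :=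
    HDM.h4 fun i j => fun a b => hasDerivAt_RR hU hg hh hx (hd x hx).ne' i j a b
  have dG : HDM (fun t : ℝ => h2 (g x + t • h x)) (h2 (h x)) s := by
    have e : (fun t : ℝ => (h2 (g x + t • h x) : DD n)) = fun t => h2 (g x) + t • h2 (h x) := by
      funext t
      rw [h2_add, h2_smul]
    rw [e]
    exact HDM.line _ _ s
  have dRk := HDM.pow dR (h4_comm _ _) k
  have dGm := HDM.pow dG (h2_comm _ _) m
  have dX := dRk.mul dGm
  have dw : HasDerivAt (fun t : ℝ => sw (fun y => g y + t • h y) x)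
      (-(1 / 2) * ((gs x)⁻¹ * h x).trace * sw gs x) s :=
    hasDerivAt_sw (g := fun t => g x + t • h x) (HDM.line (g x) (h x) s) (hd x hx)
  have dbt := dX (Finset.univ, Finset.univ) (∅, ∅)
  have dF := dw.mul dbt
  refine dF.congr_deriv ?_
  have key := key_bt A (gs x) (h x) (RR gs x) hgA k m
  have hRD := RD_h4 hU sgs ssym hh hhs sdet hx
  set D : DD n := dL (GG gs) (AL gs h) x with hD
  set R : DD n := h4 (RR gs x) with hR
  set G : DD n := h2 (gs x) with hG
  have htr : ((gs x)⁻¹ * h x).trace = A.trace := by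
    rw [hA, Matrix.trace_mul_comm]
  have hmn : ((n : ℝ) - 2 * k) = m := by
    rw [hm, Nat.cast_sub hk]
    push_cast
    ring
  have cGh : h2 (h x) * G ^ (m - 1) = G ^ (m - 1) * h2 (h x) :=
    ((show Commute (h2 (h x)) G from h2_comm _ _).pow_right (m - 1)).eq
  have e1 : bt ((k : ℝ) • (h4 (RD gs h x) * R ^ (k - 1)) * G ^ m
        + R ^ k * ((m : ℝ) • (h2 (h x) * G ^ (m - 1))))
      = k * bt (h4 (RD gs h x) * R ^ (k - 1) * G ^ m)
        + m * bt (R ^ k * (h2 (h x) * G ^ (m - 1))) := by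
    rw [smul_mul_assoc, mul_smul_comm, bt_add, bt_smul, bt_smul]
  have e2 : bt (h4 (RD gs h x) * R ^ (k - 1) * G ^ m)
      = 1 / 2 * bt ((NR A * R - R * NR A) * R ^ (k - 1) * G ^ m)
        + bt (D * (R ^ (k - 1) * G ^ m)) := by
    rw [hRD, add_mul, add_mul, smul_mul_assoc, smul_mul_assoc, bt_add, bt_smul, mul_assoc D]
  have e3 : dh k gs h x = sw gs x * bt (R ^ k * (h2 (h x) * G ^ (m - 1))) := by
    rw [dh, cGh, ← mul_assoc]
  show -(1 / 2) * ((gs x)⁻¹ * h x).trace * sw gs x * bt (R ^ k * G ^ m)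
    + sw gs x * bt ((k : ℝ) • (h4 (RD gs h x) * R ^ (k - 1)) * G ^ m
        + R ^ k * ((m : ℝ) • (h2 (h x) * G ^ (m - 1)))) = _
  rw [e1, e2, e3, htr, hmn]
  linear_combination (sw gs x / 2) * key

end Pool.H68.LV
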