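import Pool.Agent.H68.LV.Ibp
import Pool.Agent.H68.LV.Ptd

/-!
# Module VAR: the first variation of the localised Lovelock functional

Differentiate under the integral sign (hasDerivAt_integral_of_dominated_loc_of_deriv_le): on the
compact set tsupport phi times a small closed interval around s the derivative of dn k (PTD) is
continuous in (t, x) (all entries are smooth functions of x and rational functions of t), hence
bounded; then use IBP for the second term (k >= 1; for k = 0 the coefficient is 0).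
For the joint continuity / boundedness it is convenient to note that RR (g + t h) x is a
polynomial in t with coefficients smooth in x, divided by powers of det (g + t h) (x), which is
positive on a neighbourhood of {s} x tsupport phi by compactness.
-/

open Matrix MeasureTheory Metric
open scoped ContDiff

noncomputable section
namespace Pool.H68.LV

variable {n : ℕ} {U : Set (E n)} {g h : E n → Mat n}

private theorem CC_lin (hU : IsOpen U) (hg : Sm U g) (hh : Sm U h) {x : E n} (hx : x ∈ U) (t : ℝ)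
    (j : Fin n) : CC (fun y => g y + t • h y) j x = CC g j x + t • CC h j x := by
  have h1 : ∀ i a b, pd i (fun y => (g y + t • h y) a b) x
      = pd i (fun y => g y a b) x + t * pd i (fun y => h y a b) x := by
    intro i a b
    have e1 := (hg.da hU hx) a b
    have e2 := (hh.da hU hx) a b
    have e3 : (fun y => (g y + t • h y) a b) = fun y => g y a b + t * h y a b := rfl
    rw [e3, pd_add i e1 (e2.const_mul t), pd_const_mul i t e2]
  ext k l
  simp only [CC, Matrix.of_apply, Matrix.add_apply, Matrix.smul_apply, smul_eq_mul] at h1 ⊢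
  rw [h1, h1, h1]
  ring

private theorem mCC_lin (hU : IsOpen U) (hg : Sm U g) (hh : Sm U h) {x : E n} (hx : x ∈ U)
    (t : ℝ) (i j : Fin n) : mpd i (CC (fun y => g y + t • h y) j) x
      = mpd i (CC g j) x + t • mpd i (CC h j) x := by
  have h1 : mpd i (CC (fun y => g y + t • h y) j) x
      = mpd i (fun y => CC g j y + t • CC h j y) x := by
    ext a b
    simp only [mpd, Matrix.of_apply, pd]
    have : (fun y => CC (fun y => g y + t • h y) j y a b)
        =ᶠ[nhds x] fun y => (CC g j y + t • CC h j y) a b := by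
      filter_upwards [hU.mem_nhds hx] with y hy
      rw [CC_lin hU hg hh hy]
    rw [this.fderiv_eq]
  rw [h1, mpd_add i ((CC_sm hU hg j).da hU hx), mpd_const_smul i t ((CC_sm hU hh j).da hU hx)]
  intro a b
  exact ((CC_sm hU hh j).da hU hx a b).const_mul t

/-- The curvature as a function of t and x. -/
private def RT (g h : E n → Mat n) (p : ℝ × E n) (i j : Fin n) : Mat n :=
  (mpd i (CC g j) p.2 + p.1 • mpd i (CC h j) p.2) - (mpd j (CC g i) p.2 + p.1 • mpd j (CC h i) p.2)
    - (CC g i p.2 + p.1 • CC h i p.2)ᵀ * (g p.2 + p.1 • h p.2)⁻¹ * (CC g j p.2 + p.1 • CC h j p.2)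
    + (CC g j p.2 + p.1 • CC h j p.2)ᵀ * (g p.2 + p.1 • h p.2)⁻¹ * (CC g i p.2 + p.1 • CC h i p.2)

private theorem RT_eq (hU : IsOpen U) (hg : Sm U g) (hh : Sm U h) {x : E n} (hx : x ∈ U) (t : ℝ)
    (i j : Fin n) : RR (fun y => g y + t • h y) x i j = RT g h (t, x) i j := by
  simp only [RR, RT, CC_lin hU hg hh hx, mCC_lin hU hg hh hx]

private def PS (k : ℕ) (g h : E n → Mat n) (p : ℝ × E n) : ℝ :=
  (Real.sqrt (g p.2 + p.1 • h p.2).det)⁻¹ *
    bt (h4 (RT g h p) ^ k * h2 (g p.2 + p.1 • h p.2) ^ (n - 2 * k))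

private theorem PS_eq (hU : IsOpen U) (hg : Sm U g) (hh : Sm U h) {x : E n} (hx : x ∈ U) (t : ℝ)
    (k : ℕ) : dn k (fun y => g y + t • h y) x = PS k g h (t, x) := by
  have h1 : RR (fun y => g y + t • h y) x = RT g h (t, x) := by
    funext i j; exact RT_eq hU hg hh hx t i j
  simp only [dn, PS, sw, h1]

private theorem SmV.comp_snd {α β : Type} {X : E n → Matrix α β ℝ} (hX : Sm U X) (I : Set ℝ) :
    SmV (I ×ˢ U) (fun p : ℝ × E n => X p.2) := fun a b =>
  (hX a b).comp contDiffOn_snd fun _ hp => hp.2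

private theorem SmV.tl {α β : Type} {X Y : E n → Matrix α β ℝ} (hX : Sm U X) (hY : Sm U Y)
    (I : Set ℝ) : SmV (I ×ˢ U) (fun p : ℝ × E n => X p.2 + p.1 • Y p.2) :=
  (SmV.comp_snd hX I).add (SmV.smul contDiffOn_fst (SmV.comp_snd hY I))

private theorem PS_sm (hU : IsOpen U) (hg : Sm U g) (hh : Sm U h) {I : Set ℝ}
    (hd : ∀ s ∈ I, ∀ x ∈ U, 0 < (g x + s • h x).det) (k : ℕ) :
    ContDiffOn ℝ ∞ (PS k g h) (I ×ˢ U) := by
  have hG : SmV (I ×ˢ U) (fun p : ℝ × E n => g p.2 + p.1 • h p.2) := SmV.tl hg hh I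
  have hdet : ∀ p ∈ I ×ˢ U, 0 < (g p.2 + p.1 • h p.2).det := fun p hp => hd p.1 hp.1 p.2 hp.2
  have hGi := hG.inv (fun p hp => (hdet p hp).ne')
  have hC : ∀ j, SmV (I ×ˢ U) (fun p : ℝ × E n => CC g j p.2 + p.1 • CC h j p.2) := fun j =>
    SmV.tl (CC_sm hU hg j) (CC_sm hU hh j) I
  have hM : ∀ i j, SmV (I ×ˢ U)
      (fun p : ℝ × E n => mpd i (CC g j) p.2 + p.1 • mpd i (CC h j) p.2) := fun i j =>
    SmV.tl ((CC_sm hU hg j).mpd hU i) ((CC_sm hU hh j).mpd hU i) I
  have hR : ∀ i j, SmV (I ×ˢ U) (fun p => RT g h p i j) := fun i j =>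
    ((((hM i j).sub (hM j i)).sub (((hC i).transpose.mul hGi).mul (hC j))).add
      (((hC j).transpose.mul hGi).mul (hC i)))
  have h1 : SmV (I ×ˢ U) (fun p : ℝ × E n => h4 (RT g h p) ^ k *
      h2 (g p.2 + p.1 • h p.2) ^ (n - 2 * k)) :=
    ((SmV.h4 hR).pow k).mul ((SmV.h2 hG).pow _)
  have h3 : ContDiffOn ℝ ∞ (fun p : ℝ × E n => (Real.sqrt (g p.2 + p.1 • h p.2).det)⁻¹)
      (I ×ˢ U) :=
    (hG.det.sqrt fun p hp => (hdet p hp).ne').inv
      fun p hp => (Real.sqrt_pos.mpr (hdet p hp)).ne'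
  exact h3.mul (h1 _ _)

/-- Integrability with compact support. -/
private theorem int_supp (hU : IsOpen U) {φ ψ : E n → ℝ} (hφ : Continuous φ)
    (hc : HasCompactSupport φ) (hφU : tsupport φ ⊆ U) (hψ : ContinuousOn ψ U) :
    IntegrableOn (fun x => φ x * ψ x) U := by
  have h1 : IntegrableOn (fun x => φ x * ψ x) (tsupport φ) :=
    (hφ.continuousOn.mul (hψ.mono hφU)).integrableOn_compact hc
  refine h1.of_forall_sdiff_eq_zero hU.measurableSet fun x hx => ?_
  rw [image_eq_zero_of_notMem_tsupport hx.2, zero_mul]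

theorem variation (hU : IsOpen U) (hg : Sm U g) (hs : ∀ x ∈ U, (g x)ᵀ = g x)
    (hh : Sm U h) (hhs : ∀ x ∈ U, (h x)ᵀ = h x) {a b : ℝ}
    (hd : ∀ s ∈ Set.Ioo a b, ∀ x ∈ U, 0 < (g x + s • h x).det)
    (φ : E n → ℝ) (hφ : ContDiff ℝ ∞ φ) (hc : HasCompactSupport φ) (hφU : tsupport φ ⊆ U)
    (k : ℕ) (hk : 2 * k ≤ n) {s : ℝ} (hsab : s ∈ Set.Ioo a b) :
    HasDerivAt (fun t : ℝ => ∫ x in U, φ x * dn k (fun y => g y + t • h y) x)
      (((n : ℝ) - 2 * k) / 2 * (∫ x in U, φ x * dh k (fun y => g y + s • h y) h x)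
        - (k : ℝ) / 2 * ∫ x in U, dHh k (fun y => g y + s • h y) φ h x) s := by
  set I : Set ℝ := Set.Ioo a b with hI
  set O : Set (ℝ × E n) := I ×ˢ U with hO
  have hOo : IsOpen O := isOpen_Ioo.prod hU
  have hΨ : ContDiffOn ℝ ∞ (PS k g h) O := PS_sm hU hg hh hd k
  -- the derivative in t
  set D : ℝ → E n → ℝ := fun t x => fderiv ℝ (PS k g h) (t, x) (1, 0) with hD
  have hDc : ContinuousOn (fun p : ℝ × E n => D p.1 p.2) O := by
    have h1 : ContDiffOn ℝ ∞ (fderiv ℝ (PS k g h)) O := hΨ.fderiv_of_isOpen hOo (by simp)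
    exact (h1.clm_apply contDiffOn_const).continuousOn
  have hDer : ∀ t ∈ I, ∀ x ∈ U, HasDerivAt (fun t => PS k g h (t, x)) (D t x) t := by
    intro t ht x hx
    have h1 : DifferentiableAt ℝ (PS k g h) (t, x) :=
      (hΨ.contDiffAt (hOo.mem_nhds ⟨ht, hx⟩)).differentiableAt (by simp)
    have h2 : HasDerivAt (fun t : ℝ => ((t, x) : ℝ × E n)) ((1 : ℝ), (0 : E n)) t :=
      (hasDerivAt_id t).prodMk (hasDerivAt_const t x)
    exact h1.hasFDerivAt.comp_hasDerivAt t h2
  -- a closed interval around s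
  obtain ⟨δ, hδ, hδI⟩ : ∃ δ : ℝ, 0 < δ ∧ closedBall s δ ⊆ I :=
    nhds_basis_closedBall.mem_iff.mp (isOpen_Ioo.mem_nhds hsab)
  have hKc : IsCompact (closedBall s δ ×ˢ tsupport φ) := (isCompact_closedBall s δ).prod hc
  have hKO : closedBall s δ ×ˢ tsupport φ ⊆ O := Set.prod_mono hδI hφU
  obtain ⟨B, hB⟩ := hKc.exists_bound_of_continuousOn (hDc.mono hKO)
  have hsI : s ∈ I := hsab
  have slice : ∀ t ∈ I, ContinuousOn (fun x => PS k g h (t, x)) U := fun t ht =>
    hΨ.continuousOn.comp (by fun_prop) fun x hx => ⟨ht, hx⟩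
  have sliceD : ∀ t ∈ I, ContinuousOn (fun x => D t x) U := fun t ht =>
    hDc.comp (f := fun x : E n => (t, x)) (by fun_prop) fun x hx => ⟨ht, hx⟩
  have key := hasDerivAt_integral_of_dominated_loc_of_deriv_le
    (F := fun t x => φ x * PS k g h (t, x)) (F' := fun t x => φ x * D t x) (x₀ := s)
    (μ := volume.restrict U) (bound := fun x => |φ x| * B) (ball_mem_nhds s hδ)
    (by
      filter_upwards [isOpen_Ioo.mem_nhds hsab] with t ht
      exact (hφ.continuous.continuousOn.mul (slice t ht)).aestronglyMeasurable hU.measurableSet)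
    (int_supp hU hφ.continuous hc hφU (slice s hsI))
    ((hφ.continuous.continuousOn.mul (sliceD s hsI)).aestronglyMeasurable hU.measurableSet)
    (by
      filter_upwards [ae_restrict_mem hU.measurableSet] with x hx
      intro t ht
      rw [Real.norm_eq_abs, abs_mul]
      by_cases hxK : x ∈ tsupport φ
      · have := hB (t, x) ⟨ball_subset_closedBall ht, hxK⟩
        exact mul_le_mul_of_nonneg_left this (abs_nonneg _)
      · rw [image_eq_zero_of_notMem_tsupport hxK, abs_zero, zero_mul, zero_mul])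
    (by
      have : Integrable (fun x => |φ x| * B) volume :=
        ((hφ.continuous.integrable_of_hasCompactSupport hc).abs).mul_const B
      exact this.integrableOn)
    (by
      filter_upwards [ae_restrict_mem hU.measurableSet] with x hx
      intro t ht
      exact (hDer t (hδI (ball_subset_closedBall ht)) x hx).const_mul _)
  have hder := key.2
  -- the metric at s
  have hgs : Sm U (fun y => g y + s • h y) := by
    intro i j
    exact (hg i j).add (contDiffOn_const.mul (hh i j))
  have hgss : ∀ x ∈ U, (g x + s • h x)ᵀ = g x + s • h x := by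
    intro x hx
    rw [transpose_add, transpose_smul, hs x hx, hhs x hx]
  have hds : ∀ x ∈ U, 0 < (g x + s • h x).det := hd s hsab
  have hds' : ∀ x ∈ U, (g x + s • h x).det ≠ 0 := fun x hx => (hds x hx).ne'
  -- identification of the derivative
  set A1 : E n → ℝ := fun x => dh k (fun y => g y + s • h y) h x with hA1
  set A2 : E n → ℝ := fun x => sw (fun y => g y + s • h y) x *
      bt (dL (GG fun y => g y + s • h y) (AL (fun y => g y + s • h y) h) x *
        (h4 (RR (fun y => g y + s • h y) x) ^ (k - 1)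
          * h2 (g x + s • h x) ^ (n - 2 * k))) with hA2
  have hDe : ∀ x ∈ U, D s x = ((n : ℝ) - 2 * k) / 2 * A1 x + k * A2 x := by
    intro x hx
    have h1 := hasDerivAt_dn hU hg hs hh hhs hds hx k hk
    have h2 : HasDerivAt (fun t => dn k (fun y => g y + t • h y) x) (D s x) s := by
      refine (hDer s hsab x hx).congr_of_eventuallyEq ?_
      exact Filter.Eventually.of_forall fun t => PS_eq hU hg hh hx t k
    exact h2.unique h1
  have hA1c : ContinuousOn A1 U := by
    have e1 := Sm.h4 (U := U) (T := RR (fun y => g y + s • h y)) (RR_sm hU hgs hds')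
    have e2 : Sm U (fun y => h4 (RR (fun y => g y + s • h y) y) ^ k *
        h2 (g y + s • h y) ^ (n - 2 * k - 1) * h2 (h y)) :=
      ((e1.pow k).mul ((Sm.h2 hgs).pow _)).mul (Sm.h2 hh)
    exact (sw_contDiffOn hgs hds).continuousOn.mul (e2 _ _).continuousOn
  have hI1 : IntegrableOn (fun x => φ x * A1 x) U := int_supp hU hφ.continuous hc hφU hA1c
  have hI0 : IntegrableOn (fun x => φ x * D s x) U :=
    int_supp hU hφ.continuous hc hφU (sliceD s hsI)
  have hI2 : IntegrableOn (fun x => (k : ℝ) * (φ x * A2 x)) U := by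
    have h1 : IntegrableOn (fun x => φ x * D s x - ((n : ℝ) - 2 * k) / 2 * (φ x * A1 x)) U :=
      hI0.sub (hI1.const_mul _)
    refine h1.congr_fun (fun x hx => ?_) hU.measurableSet
    simp only [hDe x hx]
    ring
  have hval : ∫ x in U, φ x * D s x
      = ((n : ℝ) - 2 * k) / 2 * (∫ x in U, φ x * A1 x)
        - (k : ℝ) / 2 * ∫ x in U, dHh k (fun y => g y + s • h y) φ h x := by
    have h1 : ∫ x in U, φ x * D s x
        = ∫ x in U, (((n : ℝ) - 2 * k) / 2 * (φ x * A1 x) + (k : ℝ) * (φ x * A2 x)) := by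
      refine setIntegral_congr_fun hU.measurableSet fun x hx => ?_
      simp only [hDe x hx]
      ring
    rw [h1, integral_add (hI1.const_mul _) hI2, integral_const_mul, integral_const_mul]
    by_cases hk0 : k = 0
    · subst hk0
      simp
    · have h2 := ibp hU hgs hgss hds hh hhs φ hφ hc hφU (k - 1) (n - 2 * k)
      have h3 : ∫ x in U, φ x * A2 x = -(1 / 2) * ∫ x in U,
          dHh k (fun y => g y + s • h y) φ h x := h2
      rw [h3]
      ring
  rw [← hval]
  refine hder.congr_of_eventuallyEq ?_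
  refine Filter.Eventually.of_forall fun t => ?_
  refine setIntegral_congr_fun hU.measurableSet fun x hx => ?_
  simp only [PS_eq hU hg hh hx]

end Pool.H68.LV
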