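import Pool.Agent.H68.LV.Dnb
import Pool.Agent.H68.LV.Var
import Pool.Agent.H68.LV.Cut

/-!
# Module MAS: mass bounds by Gronwall's inequality

Induction on j = 0, 1, 2 (for all radii a < b). c = K2 n Λ K, U = ball z b.
j = 0: dnh 0 = dn 0 <= n! Λ^n (dnh_zero, dn_zero_le) times the volume of the ball.
j - 1 -> j: a' = (a + b)/2, χ = cutoff with χ = 1 on closedBall z a, support in ball z a'.
g_s = 1 + s (g - 1), s in [0,1], in NLc Λ K U (NLc.one, NLc.convex), h = g - 1, |entries| <= 2Λ;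
det_path_pos gives the open interval needed in variation. f(s) = int_U χ dnh c j g_s is a
combination of int χ dn i g_s, i <= j (dnh_one, dnh_two), so by variation
|f'(s)| <= C sum_(i <= j) [ (n - 2i)/2 int χ |dh i g_s h| + i/2 int |dHh i g_s χ h| ].
dh_bound (if 2i < n; if 2i = n the coefficient vanishes), dHh_bound (dHh vanishes outside
tsupport χ, which lies in ball z a'):
|f'(s)| <= C1 f(s) + C2 sum_(i < j) int_(ball z a') dnh c i g_s <= C1 f(s) + C3 (induction for the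
radii a' < b). f(0) is bounded (dnh_flat). Gronwall (norm_le_gronwallBound_of_norm_deriv_right_le
or le_gronwallBound_of_liminf_deriv_right_le) gives f(1) <= C, and
int_(ball z a) dnh c j g <= f(1) as dnh >= 0, χ = 1 on the ball.
Integrability: all functions are continuous on U, tsupport χ and closedBall z a' are compact.
-/

open Matrix MeasureTheory Metric
open scoped ContDiff

noncomputable section
namespace Pool.H68.LV

private theorem det_pos' {n : ℕ} {Λ K : ℝ} (hΛ : 1 ≤ Λ) {U : Set (E n)} {g : E n → Mat n}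
    (h : NLc Λ K U g) : ∀ x ∈ U, 0 < (g x).det := fun x hx =>
  (posDef_of (by linarith) (h.sym x hx) (h.lo x hx)).det_pos

private theorem Th_sm {n : ℕ} {U : Set (E n)} (hU : IsOpen U) {g : E n → Mat n} (hg : Sm U g)
    (hd : ∀ x ∈ U, (g x).det ≠ 0) (c : ℝ) (i j : Fin n) : Sm U (fun y => Th c g y i j) := by
  intro k l
  have h1 := RR_sm hU hg hd i j k l
  have h2 : ContDiffOn ℝ ∞ (fun y => g y i k * g y j l - g y i l * g y j k) U :=
    ((hg i k).mul (hg j l)).sub ((hg i l).mul (hg j k))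
  exact h1.add (contDiffOn_const.mul h2)

private theorem dnh_contOn {n : ℕ} {Λ K : ℝ} (hΛ : 1 ≤ Λ) {U : Set (E n)} (hU : IsOpen U)
    {g : E n → Mat n} (h : NLc Λ K U g) (c : ℝ) (j : ℕ) : ContinuousOn (dnh c j g) U := by
  have hd := det_pos' hΛ h
  have h1 := Sm.h4 (U := U) (T := Th c g) (Th_sm hU h.sm (fun x hx => (hd x hx).ne') c)
  have h2 : Sm U (fun y => h4 (Th c g y) ^ j * h2 (g y) ^ (n - 2 * j)) :=
    (h1.pow j).mul ((Sm.h2 h.sm).pow _)
  exact (sw_contDiffOn h.sm hd).continuousOn.mul (h2 _ _).continuousOn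

private theorem dn_contOn {n : ℕ} {Λ K : ℝ} (hΛ : 1 ≤ Λ) {U : Set (E n)} (hU : IsOpen U)
    {g : E n → Mat n} (h : NLc Λ K U g) (k : ℕ) : ContinuousOn (dn k g) U := by
  have hd := det_pos' hΛ h
  have h1 := Sm.h4 (U := U) (T := RR g) (RR_sm hU h.sm (fun x hx => (hd x hx).ne'))
  have h2 : Sm U (fun y => h4 (RR g y) ^ k * h2 (g y) ^ (n - 2 * k)) :=
    (h1.pow k).mul ((Sm.h2 h.sm).pow _)
  exact (sw_contDiffOn h.sm hd).continuousOn.mul (h2 _ _).continuousOn

theorem dnh_integrableOn (n : ℕ) (Λ K a b : ℝ) (hΛ : 1 ≤ Λ) (hK : 0 ≤ K) (hab : a < b)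
    (z : E n) (g : E n → Mat n) (h : NLc Λ K (ball z b) g) (j : ℕ) :
    IntegrableOn (dnh (K2 n Λ K) j g) (ball z a) :=
  (((dnh_contOn hΛ isOpen_ball h _ j).mono (closedBall_subset_ball hab)).integrableOn_compact
    (isCompact_closedBall z a)).mono_set ball_subset_closedBall

theorem dn_integrableOn (n : ℕ) (Λ K a b : ℝ) (hΛ : 1 ≤ Λ) (hab : a < b)
    (z : E n) (g : E n → Mat n) (h : NLc Λ K (ball z b) g) (k : ℕ) :
    IntegrableOn (dn k g) (ball z a) :=
  (((dn_contOn hΛ isOpen_ball h k).mono (closedBall_subset_ball hab)).integrableOn_compact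
    (isCompact_closedBall z a)).mono_set ball_subset_closedBall

/-- Integrability with a cutoff. -/
private theorem int_cut {n : ℕ} {z : E n} {a b : ℝ} (hab : a < b) {χ ψ : E n → ℝ}
    (hχ : Continuous χ) (hs : tsupport χ ⊆ ball z a) (hψ : ContinuousOn ψ (ball z b)) :
    IntegrableOn (fun x => χ x * ψ x) (ball z b) := by
  have h1 : IntegrableOn (fun x => χ x * ψ x) (closedBall z a) :=
    (hχ.continuousOn.mul (hψ.mono (closedBall_subset_ball hab))).integrableOn_compact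
      (isCompact_closedBall z a)
  refine h1.of_forall_sdiff_eq_zero measurableSet_ball fun x hx => ?_
  rw [image_eq_zero_of_notMem_tsupport (fun h => hx.2 (ball_subset_closedBall (hs h))), zero_mul]

/-- The shifted densities are combinations of the densities. -/
private theorem dnh_comb {n : ℕ} (hn : 4 ≤ n) (c : ℝ) (j : ℕ) (hj : j ≤ 2) :
    ∃ w : ℕ → ℝ, ∀ (g : E n → Mat n) (x : E n),
      dnh c j g x = ∑ i ∈ Finset.range (j + 1), w i * dn i g x := by
  interval_cases j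
  · exact ⟨fun _ => 1, fun g x => by simp [dnh_zero]⟩
  · refine ⟨fun i => if i = 0 then c / 2 else 1, fun g x => ?_⟩
    rw [dnh_one (by omega)]
    simp [Finset.sum_range_succ]
    ring
  · refine ⟨fun i => if i = 0 then c ^ 2 / 4 else if i = 1 then c else 1, fun g x => ?_⟩
    rw [dnh_two hn]
    simp [Finset.sum_range_succ]
    ring

private theorem dHh_zero {n : ℕ} (k : ℕ) (g h : E n → Mat n) (χ : E n → ℝ) (x : E n)
    (hx : x ∉ tsupport χ) : dHh k g χ h x = 0 := by
  have h0 : χ =ᶠ[nhds x] fun _ => 0 := notMem_tsupport_iff_eventuallyEq.mp hx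
  have h1 : ∀ p, pd p χ =ᶠ[nhds x] fun _ => 0 := by
    intro p
    filter_upwards [h0.eventuallyEq_nhds] with y hy
    rw [pd, hy.fderiv_eq]
    simp
  have h2 : ∀ i p, pd i (pd p χ) x = 0 := by
    intro i p
    rw [pd, (h1 p).fderiv_eq]
    simp
  have h3 : Hs g χ x = 0 := by
    ext i j
    simp [Hs, h2, (h1 _).eq_of_nhds]
  have h4 : Pool.H68.LV.h2 (0 : Mat n) = 0 := by simp [Pool.H68.LV.h2]
  rw [dHh, h3, h4]
  simp [bt]

private theorem vol_center {n : ℕ} (z : E n) (a : ℝ) :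
    volume.real (ball z a) = volume.real (ball (0 : E n) a) := by
  rw [measureReal_def, measureReal_def, Measure.addHaar_ball_center]

/-- Bound for the derivative of one term. -/
private theorem term_bound {n : ℕ} {Λ K a' b A Cd Ch : ℝ} (hn : 4 ≤ n) (hΛ : 1 ≤ Λ) (hK : 0 ≤ K)
    (hab : a' < b) (hA : 0 ≤ A) (hCd : 0 ≤ Cd) (hCh : 0 ≤ Ch)
    (Hd : ∀ (U : Set (E n)) (g : E n → Mat n), IsOpen U → NLc Λ K U g → ∀ h : E n → Mat n,
      (∀ x ∈ U, (h x)ᵀ = h x) → ∀ H : ℝ, (∀ x ∈ U, ∀ i j, |h x i j| ≤ H) →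
      ∀ k : ℕ, k ≤ 2 → 2 * k < n → ∀ x ∈ U,
        |dh k g h x| ≤ Cd * H * ∑ a ∈ Finset.range (k + 1), dnh (K2 n Λ K) a g x)
    (Hh : ∀ (U : Set (E n)) (g : E n → Mat n), IsOpen U → NLc Λ K U g → ∀ h : E n → Mat n,
      (∀ x ∈ U, (h x)ᵀ = h x) → ∀ H : ℝ, (∀ x ∈ U, ∀ i j, |h x i j| ≤ H) →
      ∀ φ : E n → ℝ, ContDiff ℝ ∞ φ → ∀ A : ℝ, (∀ x ∈ U, ∀ i, |pd i φ x| ≤ A) →
      (∀ x ∈ U, ∀ i j, |pd i (pd j φ) x| ≤ A) →
      ∀ k : ℕ, 1 ≤ k → k ≤ 2 → 2 * k ≤ n → ∀ x ∈ U,
        |dHh k g φ h x| ≤ Ch * A * H * ∑ a ∈ Finset.range k, dnh (K2 n Λ K) a g x)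
    {z : E n} {χ : E n → ℝ} (hχ : ContDiff ℝ ∞ χ) (hχ0 : ∀ x, 0 ≤ χ x) (hχ1 : ∀ x, χ x ≤ 1)
    (hχs : tsupport χ ⊆ ball z a') (hχA : ∀ x i, |pd i χ x| ≤ A)
    (hχA' : ∀ x i j, |pd i (pd j χ) x| ≤ A)
    {g h : E n → Mat n} (hg : NLc Λ K (ball z b) g) (hh : ∀ x ∈ ball z b, (h x)ᵀ = h x)
    {H : ℝ} (hH0 : 0 ≤ H) (hH : ∀ x ∈ ball z b, ∀ i j, |h x i j| ≤ H)
    {j : ℕ} (hj : j ≤ 2) {S f : ℝ}
    (hS : ∑ i ∈ Finset.range j, ∫ x in ball z a', dnh (K2 n Λ K) i g x ≤ S)
    (hf : ∫ x in ball z b, χ x * dnh (K2 n Λ K) j g x ≤ f) (i : ℕ) (hi : i ≤ j) :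
    |((n : ℝ) - 2 * i) / 2 * (∫ x in ball z b, χ x * dh i g h x)
        - (i : ℝ) / 2 * ∫ x in ball z b, dHh i g χ h x|
      ≤ n * (Cd * H) * (S + f) + Ch * A * H * S := by
  have hU : IsOpen (ball z b) := isOpen_ball
  have hsub : ball z a' ⊆ ball z b := ball_subset_ball hab.le
  have dn0 : ∀ a : ℕ, a ≤ 2 → ∀ x ∈ ball z b, 0 ≤ dnh (K2 n Λ K) a g x := fun a ha x hx =>
    dnh_nonneg hΛ hK hU hg hx a ha
  have intc : ∀ a : ℕ, IntegrableOn (fun x => χ x * dnh (K2 n Λ K) a g x) (ball z b) := fun a =>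
    int_cut hab hχ.continuous hχs (dnh_contOn hΛ hU hg _ a)
  -- nonnegativity of the masses
  have m0 : ∀ a ∈ Finset.range j, 0 ≤ ∫ x in ball z a', dnh (K2 n Λ K) a g x := fun a ha =>
    setIntegral_nonneg measurableSet_ball fun x hx => dn0 a (by
      have := Finset.mem_range.mp ha; omega) x (hsub hx)
  have S0 : 0 ≤ S := (Finset.sum_nonneg m0).trans hS
  have f0 : 0 ≤ f := le_trans (setIntegral_nonneg measurableSet_ball fun x hx =>
    mul_nonneg (hχ0 x) (dn0 j hj x hx)) hf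
  -- the sum of the cut off masses
  have cutle : ∀ a : ℕ, a ≤ 2 → ∫ x in ball z b, χ x * dnh (K2 n Λ K) a g x
      ≤ ∫ x in ball z a', dnh (K2 n Λ K) a g x := by
    intro a ha
    rw [setIntegral_eq_of_subset_of_forall_sdiff_eq_zero measurableSet_ball hsub]
    · refine setIntegral_mono_on ((intc a).mono_set hsub)
        (dnh_integrableOn n Λ K a' b hΛ hK hab z g hg a) measurableSet_ball fun x hx => ?_
      have := dn0 a ha x (hsub hx)
      exact mul_le_of_le_one_left this (hχ1 x)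
    · intro x hx
      rw [image_eq_zero_of_notMem_tsupport (fun h => hx.2 (hχs h)), zero_mul]
  have sumle : ∑ a ∈ Finset.range (i + 1), ∫ x in ball z b, χ x * dnh (K2 n Λ K) a g x
      ≤ S + f := by
    have h1 : ∑ a ∈ Finset.range (i + 1), ∫ x in ball z b, χ x * dnh (K2 n Λ K) a g x
        ≤ ∑ a ∈ Finset.range (j + 1), ∫ x in ball z b, χ x * dnh (K2 n Λ K) a g x := by
      refine Finset.sum_le_sum_of_subset_of_nonneg
        (Finset.range_mono (by omega)) fun a ha _ => ?_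
      refine setIntegral_nonneg measurableSet_ball fun x hx => mul_nonneg (hχ0 x)
        (dn0 a (by have := Finset.mem_range.mp ha; omega) x hx)
    rw [Finset.sum_range_succ _ j] at h1
    have h2 : ∑ a ∈ Finset.range j, ∫ x in ball z b, χ x * dnh (K2 n Λ K) a g x ≤ S :=
      (Finset.sum_le_sum fun a ha => cutle a (by
        have := Finset.mem_range.mp ha; omega)).trans hS
    linarith
  -- first term
  have t1 : |((n : ℝ) - 2 * i) / 2 * (∫ x in ball z b, χ x * dh i g h x)|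
      ≤ n * (Cd * H) * (S + f) := by
    by_cases h2i : 2 * i < n
    · have hb := Hd (ball z b) g hU hg h hh H hH i (hi.trans hj) h2i
      have hint : Integrable (fun x => Cd * H * ∑ a ∈ Finset.range (i + 1),
          χ x * dnh (K2 n Λ K) a g x) (volume.restrict (ball z b)) :=
        (integrable_finset_sum _ fun a _ => intc a).const_mul _
      have h3 : ‖∫ x in ball z b, χ x * dh i g h x‖
          ≤ ∫ x in ball z b, Cd * H * ∑ a ∈ Finset.range (i + 1),
            χ x * dnh (K2 n Λ K) a g x := by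
        refine norm_integral_le_of_norm_le hint ?_
        filter_upwards [ae_restrict_mem measurableSet_ball] with x hx
        rw [Real.norm_eq_abs, abs_mul, abs_of_nonneg (hχ0 x), ← Finset.mul_sum]
        calc χ x * |dh i g h x| ≤ χ x * (Cd * H * ∑ a ∈ Finset.range (i + 1),
              dnh (K2 n Λ K) a g x) := mul_le_mul_of_nonneg_left (hb x hx) (hχ0 x)
          _ = _ := by ring
      rw [integral_const_mul, integral_finset_sum _ (fun a _ => intc a), Real.norm_eq_abs] at h3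
      have h4 : |∫ x in ball z b, χ x * dh i g h x| ≤ Cd * H * (S + f) :=
        h3.trans (mul_le_mul_of_nonneg_left sumle (by positivity))
      rw [abs_mul]
      have h5 : |((n : ℝ) - 2 * i) / 2| ≤ n := by
        have : (2 * i : ℝ) < n := by exact_mod_cast h2i
        rw [abs_of_nonneg (by linarith)]
        have : (0 : ℝ) ≤ i := Nat.cast_nonneg i
        linarith [(Nat.cast_nonneg n : (0 : ℝ) ≤ n)]
      calc |((n : ℝ) - 2 * i) / 2| * |∫ x in ball z b, χ x * dh i g h x|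
          ≤ n * (Cd * H * (S + f)) := mul_le_mul h5 h4 (abs_nonneg _) (Nat.cast_nonneg n)
        _ = _ := by ring
    · have h6 : (n : ℝ) - 2 * i = 0 := by
        have : n = 2 * i := by omega
        rw [this]; push_cast; ring
      rw [h6, zero_div, zero_mul, abs_zero]
      positivity
  -- second term
  have t2 : |(i : ℝ) / 2 * ∫ x in ball z b, dHh i g χ h x| ≤ Ch * A * H * S := by
    by_cases hi0 : i = 0
    · subst hi0
      simp only [Nat.cast_zero, zero_div, zero_mul, abs_zero]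
      positivity
    · have hb := Hh (ball z b) g hU hg h hh H hH χ hχ A (fun x _ => hχA x) (fun x _ => hχA' x) i
        (by omega) (hi.trans hj) (by omega)
      have h3 : ∫ x in ball z b, dHh i g χ h x = ∫ x in ball z a', dHh i g χ h x :=
        setIntegral_eq_of_subset_of_forall_sdiff_eq_zero measurableSet_ball hsub
          fun x hx => dHh_zero i g h χ x (fun h => hx.2 (hχs h))
      have inta : ∀ a ∈ Finset.range i, IntegrableOn (dnh (K2 n Λ K) a g) (ball z a') :=
        fun a _ => dnh_integrableOn n Λ K a' b hΛ hK hab z g hg a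
      have hint : Integrable (fun x => Ch * A * H * ∑ a ∈ Finset.range i,
          dnh (K2 n Λ K) a g x) (volume.restrict (ball z a')) :=
        (integrable_finset_sum _ inta).const_mul _
      have h4 : ‖∫ x in ball z a', dHh i g χ h x‖
          ≤ ∫ x in ball z a', Ch * A * H * ∑ a ∈ Finset.range i, dnh (K2 n Λ K) a g x := by
        refine norm_integral_le_of_norm_le hint ?_
        filter_upwards [ae_restrict_mem measurableSet_ball] with x hx
        rw [Real.norm_eq_abs]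
        exact hb x (hsub hx)
      rw [integral_const_mul, integral_finset_sum _ inta, Real.norm_eq_abs] at h4
      have h5 : ∑ a ∈ Finset.range i, ∫ x in ball z a', dnh (K2 n Λ K) a g x ≤ S :=
        (Finset.sum_le_sum_of_subset_of_nonneg (Finset.range_mono hi)
          fun a ha _ => m0 a ha).trans hS
      rw [h3, abs_mul]
      have h6 : |(i : ℝ) / 2| ≤ 1 := by
        have : (i : ℝ) ≤ 2 := by exact_mod_cast hi.trans hj
        rw [abs_of_nonneg (by positivity)]; linarith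
      calc |(i : ℝ) / 2| * |∫ x in ball z a', dHh i g χ h x|
          ≤ 1 * (Ch * A * H * S) := by
            refine mul_le_mul h6 (h4.trans ?_) (abs_nonneg _) zero_le_one
            exact mul_le_mul_of_nonneg_left h5 (by positivity)
        _ = _ := one_mul _
  exact (abs_sub _ _).trans (add_le_add t1 t2)

/-- One step of the induction. -/
private theorem mass_step (n : ℕ) (Λ K a b : ℝ) (hn : 4 ≤ n) (hΛ : 1 ≤ Λ) (hK : 0 ≤ K)
    (ha : 0 < a) (hab : a < b) (j : ℕ) (hj : j ≤ 2) (S : ℝ) (hS0 : 0 ≤ S)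
    (hS : ∀ (z : E n) (g : E n → Mat n), NLc Λ K (ball z b) g →
      ∑ i ∈ Finset.range j, ∫ x in ball z ((a + b) / 2), dnh (K2 n Λ K) i g x ≤ S) :
    ∃ C : ℝ, 0 ≤ C ∧ ∀ (z : E n) (g : E n → Mat n), NLc Λ K (ball z b) g →
      ∫ x in ball z a, dnh (K2 n Λ K) j g x ≤ C := by
  obtain ⟨Cd, hCd, Hd⟩ := dh_bound n Λ K hΛ hK
  obtain ⟨Ch, hCh, Hh⟩ := dHh_bound n Λ K hΛ hK
  have haa : a < (a + b) / 2 := by linarith
  have hab' : (a + b) / 2 < b := by linarith
  obtain ⟨A, hA, Hc⟩ := cutoff n a ((a + b) / 2) ha haa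
  obtain ⟨w, hw⟩ := dnh_comb hn (K2 n Λ K) j hj
  have hΛ0 : 0 < Λ := by linarith
  set W : ℝ := ∑ i ∈ Finset.range (j + 1), |w i| with hW
  have hW0 : 0 ≤ W := Finset.sum_nonneg fun i _ => abs_nonneg _
  set P : ℝ := W * (n * (Cd * (2 * Λ))) with hP
  set Q : ℝ := W * (n * (Cd * (2 * Λ)) * S + Ch * A * (2 * Λ) * S) with hQ
  set R : ℝ := |dnh (K2 n Λ K) j (fun _ => (1 : Mat n)) (0 : E n)|
    * volume.real (ball (0 : E n) ((a + b) / 2)) with hR
  refine ⟨|gronwallBound R P Q 1|, abs_nonneg _, ?_⟩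
  intro z g hg
  obtain ⟨χ, hχ, hχc, hχ0, hχ1, hχb, hχs, hχA, hχA'⟩ := Hc z
  have hU : IsOpen (ball z b) := isOpen_ball
  have hsub : ball z ((a + b) / 2) ⊆ ball z b := ball_subset_ball hab'.le
  -- the path
  have h1c : NLc Λ K (ball z b) (fun _ => (1 : Mat n)) := NLc.one hΛ hK
  obtain ⟨α, β, hα, hβ, hdet⟩ := det_path_pos hΛ h1c hg
  set gs : ℝ → E n → Mat n := fun s x => 1 + s • (g x - 1) with hgs
  set h : E n → Mat n := fun x => g x - 1 with hh
  have hcl : ∀ s ∈ Set.Icc (0 : ℝ) 1, NLc Λ K (ball z b) (gs s) := fun s hs =>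
    NLc.convex hU h1c hg hs.1 hs.2
  have hhsm : Sm (ball z b) h := hg.sm.sub (Sm.const 1)
  have hhs : ∀ x ∈ ball z b, (h x)ᵀ = h x := fun x hx => by
    rw [hh]; simp only [transpose_sub, transpose_one, hg.sym x hx]
  have hhH : ∀ x ∈ ball z b, ∀ i j, |h x i j| ≤ 2 * Λ := by
    intro x hx i j
    have e1 := entry_le (hg.sym x hx) (fun v => le_trans (by positivity) (hg.lo x hx v))
      (hg.up x hx) i j
    have e2 : |(1 : Mat n) i j| ≤ 1 := by
      rw [one_apply]; split_ifs <;> simp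
    have e3 : |h x i j| ≤ |g x i j| + |(1 : Mat n) i j| := by
      rw [hh]; exact abs_sub _ _
    linarith
  have hsv : tsupport χ ⊆ ball z b := hχs.trans hsub
  -- the function f and its derivative
  set f : ℝ → ℝ := fun s => ∑ i ∈ Finset.range (j + 1),
    w i * ∫ x in ball z b, χ x * dn i (gs s) x with hf
  set f' : ℝ → ℝ := fun s => ∑ i ∈ Finset.range (j + 1),
    w i * (((n : ℝ) - 2 * i) / 2 * (∫ x in ball z b, χ x * dh i (gs s) h x)
        - (i : ℝ) / 2 * ∫ x in ball z b, dHh i (gs s) χ h x) with hf'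
  have hder : ∀ s ∈ Set.Icc (0 : ℝ) 1, HasDerivAt f (f' s) s := by
    intro s hs
    refine HasDerivAt.fun_sum fun i hi => HasDerivAt.const_mul _ ?_
    have hi' : i ≤ 2 := by have := Finset.mem_range.mp hi; omega
    exact variation hU (Sm.const (1 : Mat n)) (fun x _ => transpose_one) hhsm hhs hdet χ hχ hχc hsv
      i (by omega) ⟨by linarith [hs.1], by linarith [hs.2]⟩
  have intn : ∀ s ∈ Set.Icc (0 : ℝ) 1, ∀ i, IntegrableOn (fun x => χ x * dn i (gs s) x)
      (ball z b) := fun s hs i =>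
    int_cut hab' hχ.continuous hχs (dn_contOn hΛ hU (hcl s hs) i)
  have inth : ∀ s ∈ Set.Icc (0 : ℝ) 1, IntegrableOn (fun x => χ x * dnh (K2 n Λ K) j (gs s) x)
      (ball z b) := fun s hs =>
    int_cut hab' hχ.continuous hχs (dnh_contOn hΛ hU (hcl s hs) _ j)
  have hfeq : ∀ s ∈ Set.Icc (0 : ℝ) 1,
      f s = ∫ x in ball z b, χ x * dnh (K2 n Λ K) j (gs s) x := by
    intro s hs
    have e1 : ∀ x, χ x * dnh (K2 n Λ K) j (gs s) x
        = ∑ i ∈ Finset.range (j + 1), w i * (χ x * dn i (gs s) x) := by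
      intro x
      rw [hw, Finset.mul_sum]
      exact Finset.sum_congr rfl fun i _ => by ring
    simp only [e1]
    rw [integral_finset_sum _ (fun i _ => (intn s hs i).const_mul _)]
    simp only [integral_const_mul, hf]
  have hf0 : ∀ s ∈ Set.Icc (0 : ℝ) 1, 0 ≤ f s := by
    intro s hs
    rw [hfeq s hs]
    exact setIntegral_nonneg measurableSet_ball fun x hx => mul_nonneg (hχ0 x)
      (dnh_nonneg hΛ hK hU (hcl s hs) hx j hj)
  have hbd : ∀ s ∈ Set.Ico (0 : ℝ) 1, ‖f' s‖ ≤ P * ‖f s‖ + Q := by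
    intro s hs
    have hs' : s ∈ Set.Icc (0 : ℝ) 1 := ⟨hs.1, hs.2.le⟩
    have e1 : ∀ i ∈ Finset.range (j + 1), |w i * (((n : ℝ) - 2 * i) / 2 *
        (∫ x in ball z b, χ x * dh i (gs s) h x)
        - (i : ℝ) / 2 * ∫ x in ball z b, dHh i (gs s) χ h x)|
        ≤ |w i| * (n * (Cd * (2 * Λ)) * (S + f s) + Ch * A * (2 * Λ) * S) := by
      intro i hi
      rw [abs_mul]
      refine mul_le_mul_of_nonneg_left ?_ (abs_nonneg _)
      exact term_bound hn hΛ hK hab' hA hCd hCh Hd Hh hχ hχ0 hχ1 hχs hχA hχA' (hcl s hs') hhs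
        (by positivity) hhH hj (hS z (gs s) (hcl s hs')) (hfeq s hs').ge i
        (by have := Finset.mem_range.mp hi; omega)
    have e2 : |f' s| ≤ W * (n * (Cd * (2 * Λ)) * (S + f s) + Ch * A * (2 * Λ) * S) := by
      rw [hW, Finset.sum_mul]
      exact (Finset.abs_sum_le_sum_abs _ _).trans (Finset.sum_le_sum e1)
    rw [Real.norm_eq_abs, Real.norm_eq_abs, abs_of_nonneg (hf0 s hs')]
    calc |f' s| ≤ W * (n * (Cd * (2 * Λ)) * (S + f s) + Ch * A * (2 * Λ) * S) := e2
      _ = P * f s + Q := by rw [hP, hQ]; ring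
  have hinit : ‖f 0‖ ≤ R := by
    have h0 : (0 : ℝ) ∈ Set.Icc (0 : ℝ) 1 := ⟨le_rfl, zero_le_one⟩
    rw [Real.norm_eq_abs, abs_of_nonneg (hf0 0 h0), hfeq 0 h0]
    have e0 : gs 0 = fun _ => (1 : Mat n) := by
      funext x; simp only [hgs, zero_smul, add_zero]
    have e1 : ∫ x in ball z b, χ x * dnh (K2 n Λ K) j (gs 0) x
        = ∫ x in ball z ((a + b) / 2), χ x * dnh (K2 n Λ K) j (gs 0) x := by
      refine setIntegral_eq_of_subset_of_forall_sdiff_eq_zero measurableSet_ball hsub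
        fun x hx => ?_
      rw [image_eq_zero_of_notMem_tsupport (fun h => hx.2 (hχs h)), zero_mul]
    rw [e1]
    have e2 : ∫ x in ball z ((a + b) / 2), χ x * dnh (K2 n Λ K) j (gs 0) x
        ≤ ∫ _x in ball z ((a + b) / 2), |dnh (K2 n Λ K) j (fun _ => (1 : Mat n)) (0 : E n)| := by
      refine setIntegral_mono_on ((inth 0 h0).mono_set hsub)
        (integrableOn_const (by rw [Measure.addHaar_ball_center]; exact measure_ball_lt_top.ne))
        measurableSet_ball fun x hx => ?_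
      have e3 := dnh_nonneg hΛ hK hU (hcl 0 h0) (hsub hx) j hj
      have e4 : dnh (K2 n Λ K) j (gs 0) x
          ≤ |dnh (K2 n Λ K) j (fun _ => (1 : Mat n)) (0 : E n)| := by
        rw [e0, dnh_flat]; exact le_abs_self _
      exact (mul_le_of_le_one_left e3 (hχ1 x)).trans e4
    refine e2.trans (le_of_eq ?_)
    rw [setIntegral_const, smul_eq_mul, vol_center, hR]
    ring
  have hG := norm_le_gronwallBound_of_norm_deriv_right_le (f := f) (f' := f') (δ := R) (K := P)
    (ε := Q) (a := 0) (b := 1)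
    (fun s hs => (hder s hs).continuousAt.continuousWithinAt)
    (fun s hs => (hder s ⟨hs.1, hs.2.le⟩).hasDerivWithinAt) hinit hbd 1 ⟨zero_le_one, le_rfl⟩
  rw [sub_zero] at hG
  have h1m : (1 : ℝ) ∈ Set.Icc (0 : ℝ) 1 := ⟨zero_le_one, le_rfl⟩
  have g1 : gs 1 = g := by
    funext x; simp only [hgs, one_smul, add_sub_cancel]
  have hfin : ∫ x in ball z a, dnh (K2 n Λ K) j g x ≤ f 1 := by
    rw [hfeq 1 h1m, g1]
    have e1 : ∫ x in ball z a, dnh (K2 n Λ K) j g x
        = ∫ x in ball z a, χ x * dnh (K2 n Λ K) j g x := by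
      refine setIntegral_congr_fun measurableSet_ball fun x hx => ?_
      simp only [hχb x (ball_subset_closedBall hx), one_mul]
    rw [e1]
    have e2 := inth 1 h1m
    rw [g1] at e2
    refine setIntegral_mono_set e2 ?_ (ball_subset_ball hab.le).eventuallyLE
    filter_upwards [ae_restrict_mem measurableSet_ball] with x hx
    exact mul_nonneg (hχ0 x) (dnh_nonneg hΛ hK hU hg hx j hj)
  calc ∫ x in ball z a, dnh (K2 n Λ K) j g x ≤ f 1 := hfin
    _ ≤ ‖f 1‖ := Real.le_norm_self _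
    _ ≤ gronwallBound R P Q 1 := hG
    _ ≤ |gronwallBound R P Q 1| := le_abs_self _

theorem mass (n : ℕ) (Λ K a b : ℝ) (hn : 4 ≤ n) (hΛ : 1 ≤ Λ) (hK : 0 ≤ K) (ha : 0 < a)
    (hab : a < b) : ∃ C : ℝ, 0 ≤ C ∧ ∀ (z : E n) (g : E n → Mat n), NLc Λ K (ball z b) g →
      ∀ j : ℕ, j ≤ 2 → ∫ x in ball z a, dnh (K2 n Λ K) j g x ≤ C := by
  have key : ∀ j : ℕ, j ≤ 2 → ∀ a : ℝ, 0 < a → a < b → ∃ C : ℝ, 0 ≤ C ∧
      ∀ (z : E n) (g : E n → Mat n), NLc Λ K (ball z b) g →
        ∑ i ∈ Finset.range (j + 1), ∫ x in ball z a, dnh (K2 n Λ K) i g x ≤ C := by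
    intro j
    induction j with
    | zero =>
      intro _ a ha hab
      obtain ⟨C, hC, H⟩ := mass_step n Λ K a b hn hΛ hK ha hab 0 (by norm_num) 0 le_rfl
        (fun z g _ => by simp)
      exact ⟨C, hC, fun z g hg => by simpa using H z g hg⟩
    | succ j ih =>
      intro hj a ha hab
      obtain ⟨S, hS0, hS⟩ := ih (by omega) ((a + b) / 2) (by linarith) (by linarith)
      obtain ⟨S', hS0', hS'⟩ := ih (by omega) a ha hab
      obtain ⟨C, hC, H⟩ := mass_step n Λ K a b hn hΛ hK ha hab (j + 1) hj S hS0 hS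
      refine ⟨S' + C, by linarith, fun z g hg => ?_⟩
      rw [Finset.sum_range_succ]
      exact add_le_add (hS' z g hg) (H z g hg)
  obtain ⟨C, hC, H⟩ := key 2 le_rfl a ha hab
  refine ⟨C, hC, fun z g hg j hj => ?_⟩
  refine le_trans ?_ (H z g hg)
  refine Finset.single_le_sum (f := fun i => ∫ x in ball z a, dnh (K2 n Λ K) i g x)
    (fun i hi => ?_) (Finset.mem_range.mpr (by omega))
  refine setIntegral_nonneg measurableSet_ball fun x hx => ?_
  exact dnh_nonneg hΛ hK isOpen_ball hg (ball_subset_ball hab.le hx) i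
    (by have := Finset.mem_range.mp hi; omega)

end Pool.H68.LV
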