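import Pool.Agent.H68.LV.Sd

/-!
# Riemannian manifolds: metric tensor in charts, Gauss-Bonnet curvature, V_(n-4)
-/

open MeasureTheory Manifold Bundle Set
open scoped ContDiff

noncomputable section
namespace Pool.H68.LV

section

variable (F : Type) [NormedAddCommGroup F] [NormedSpace ℝ F] (M : Type) [MetricSpace M]
  [ChartedSpace F M]

variable {F M} in
/-- The differential of the inverse of a chart e at the point y, applied to v. -/
def dS (e : OpenPartialHomeomorph M F) (y v : F) : F :=
  mfderiv 𝓘(ℝ, F) 𝓘(ℝ, F) e.symm y v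

variable [RiemannianBundle (fun x : M => TangentSpace 𝓘(ℝ, F) x)]

variable {F M} in
/-- The inner product of two tangent vectors at p. -/
def ip (p : M) (u v : F) : ℝ := @inner ℝ (TangentSpace 𝓘(ℝ, F) p) _ u v

/-- The Riemannian metric is smooth. -/
def SmoothMetric [IsManifold 𝓘(ℝ, F) ∞ M] : Prop :=
  IsContMDiffRiemannianBundle 𝓘(ℝ, F) ∞ F (fun x : M => TangentSpace 𝓘(ℝ, F) x)

/-- The distance of M is the Riemannian distance. -/
def RiemDist : Prop := IsRiemannianManifold 𝓘(ℝ, F) M

end

section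

variable (n : ℕ) (M : Type) [MetricSpace M] [ChartedSpace (E n) M]
  [RiemannianBundle (fun x : M => TangentSpace 𝓘(ℝ, E n) x)]

variable {n M}

/-- The metric tensor in a chart e: g_ij(y) is the inner product of the i-th and j-th coordinate
vector at the point of M with coordinates y. -/
def gT (e : OpenPartialHomeomorph M (E n)) (y : E n) : Mat n :=
  Matrix.of fun i j => ip (e.symm y) (dS e y (ee i)) (dS e y (ee j))

variable (n M)

/-- Sectional curvature at least -κ at every point. -/
def SecGeM (κ : ℝ) : Prop :=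
  ∀ x : M, ∀ u v : E n,
    -κ * (qf (gT (chartAt (E n) x) (chartAt (E n) x x)) u
        * qf (gT (chartAt (E n) x) (chartAt (E n) x x)) v
        - bf (gT (chartAt (E n) x) (chartAt (E n) x x)) u v ^ 2)
      ≤ tq (RR (gT (chartAt (E n) x)) (chartAt (E n) x x)) u v

/-- Every point is the centre of a chart of radius r in which the metric tensor is bounded by Λ
from both sides and has partial derivatives bounded by Λ. -/
def LipCh (r Λ : ℝ) : Prop :=
  ∀ p : M, ∃ e ∈ IsManifold.maximalAtlas 𝓘(ℝ, E n) ∞ M, p ∈ e.source ∧ e p = 0 ∧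
    Metric.ball (0 : E n) r ⊆ e.target ∧
    ∀ y ∈ Metric.ball (0 : E n) r,
      (∀ v : E n, Λ⁻¹ * ‖v‖ ^ 2 ≤ qf (gT e y) v ∧ qf (gT e y) v ≤ Λ * ‖v‖ ^ 2) ∧
      ∀ k i j, |pd k (fun z => gT e z i j) y| ≤ Λ

/-- The Gauss-Bonnet scalar Sc^2 - 4 |Ric|^2 + |Rm|^2 at a point of M. -/
def gbM (x : M) : ℝ := gb (gT (chartAt (E n) x)) (chartAt (E n) x x)

/-- The intrinsic volume V_(n-4)(M), by Weyl's formula the integral of the Gauss-Bonnet scalar
divided by 32 pi^2. -/
def V4 [MeasurableSpace M] [BorelSpace M] : ℝ :=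
  (32 * Real.pi ^ 2)⁻¹ * ∫ x : M, gbM n M x ∂(Measure.euclideanHausdorffMeasure n)

end

end Pool.H68.LV
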