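import Pool.Agent.H68.LV.Mlf

/-!
# Module MOL: mollification of a measurable map which is affine to second order

Fix rho: a normalised ContDiffBump at 0 with radii 1/2 < 1 (even: ContDiffBump.neg or sub),
rho_ε(z) = ε^(-n) rho(z/ε), molF ε F x = int rho_ε(x - y) • F(y) dy (F bounded measurable).
(1) molF ε F is smooth: derivatives fall on the kernel (HasCompactSupport.contDiff_convolution_left,
F locally integrable), pd_i pd_j of the a-th component = int (pd_i pd_j rho_ε)(x - y) F_a(y) dy.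
(2) The mollification of the affine map y -> b + A(y - x0) is itself (rho even, integral 1).
(3) for x in closedBall x0 ε the kernel y -> rho_ε(x - y) lives in closedBall x0 (2ε), where
F - (affine map) is bounded by M ε^2; so the value, first and second derivatives of
molF ε F - (affine map) at x are bounded by M ε^2, M ε^2 * C/ε, M ε^2 * C/ε^2.
-/

open MeasureTheory Metric
open scoped ContDiff

noncomputable section
namespace Pool.H68.LV

variable {n : ℕ}

private theorem loc_int {F : E n → E n} {B : ℝ} (hF : Measurable F) (hB : ∀ x, ‖F x‖ ≤ B)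
    (ε : ℝ) (a : Fin n) : LocallyIntegrable (fun z => F (ε • z) a) := by
  have hm : Measurable (fun z => F (ε • z) a) := by
    have h1 : Measurable (fun v : E n => v a) := (EuclideanSpace.proj a).continuous.measurable
    exact h1.comp (hF.comp (measurable_const_smul ε))
  have hb : ∀ z, ‖F (ε • z) a‖ ≤ B := fun z => (PiLp.norm_apply_le _ a).trans (hB _)
  have hc : LocallyIntegrable (fun _ : E n => B) := continuous_const.locallyIntegrable
  exact hc.mono hm.aestronglyMeasurable (Filter.Eventually.of_forall fun z =>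
    (hb z).trans (le_abs_self B))

private theorem pd_aff (c : ℝ) (ℓ : E n →L[ℝ] ℝ) (i : Fin n) (x : E n) :
    pd i (fun y => c + ℓ y) x = ℓ (ee i) := by
  rw [pd, fderiv_const_add, ℓ.fderiv]

private theorem aff_sm (c : ℝ) (ℓ : E n →L[ℝ] ℝ) : Continuous (fun y => c + ℓ y) :=
  continuous_const.add ℓ.continuous

private theorem cv_aff1 (c : ℝ) (ℓ : E n →L[ℝ] ℝ) (i : Fin n) (x : E n) :
    cv (fun y => c + ℓ y) (pd i (rho n)) x = ℓ (ee i) := by
  have h1 := pd_cv (aff_sm c ℓ).locallyIntegrable (rho_ker n) i x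
  rw [← h1]
  have : cv (fun y => c + ℓ y) (rho n) = fun y => c + ℓ y := by
    funext y
    exact cv_affine c ℓ y
  rw [this, pd_aff]

private theorem cv_aff2 (c : ℝ) (ℓ : E n →L[ℝ] ℝ) (i j : Fin n) (x : E n) :
    cv (fun y => c + ℓ y) (pd i (pd j (rho n))) x = 0 := by
  have h1 := pd_pd_cv (aff_sm c ℓ).locallyIntegrable (rho_ker n) i j x
  rw [← h1]
  have : cv (fun y => c + ℓ y) (rho n) = fun y => c + ℓ y := by
    funext y
    exact cv_affine c ℓ y
  rw [this]
  have h2 : pd j (fun y => c + ℓ y) = fun _ => ℓ (ee j) := by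
    funext y
    exact pd_aff c ℓ j y
  rw [h2, pd_const]

theorem mollify_map (n : ℕ) : ∃ C : ℝ, 0 ≤ C ∧ ∀ (F : E n → E n) (B : ℝ), Measurable F →
    (∀ x, ‖F x‖ ≤ B) → ∀ ε : ℝ, 0 < ε → ∃ Φ : E n → E n, ContDiff ℝ ∞ Φ ∧
      ∀ (x0 b : E n) (A : E n →L[ℝ] E n) (M : ℝ),
        (∀ y ∈ closedBall x0 (2 * ε), ‖F y - (b + A (y - x0))‖ ≤ M * ε ^ 2) →
        ∀ x ∈ closedBall x0 ε,
          ‖Φ x - (b + A (x - x0))‖ ≤ C * M * ε ^ 2 ∧
          ‖fderiv ℝ Φ x - A‖ ≤ C * M * ε ∧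
          ∀ a i j, |pd i (pd j (fun y => Φ y a)) x| ≤ C * M := by
  obtain ⟨C0, hC0, hC1, hC2⟩ := ker_const n
  refine ⟨(n + 1) ^ 2 * C0, by positivity, fun F B hF hB ε hε => ?_⟩
  have hk := rho_ker n
  set f : Fin n → E n → ℝ := fun a z => F (ε • z) a with hf
  have hli : ∀ a, LocallyIntegrable (f a) := fun a => loc_int hF hB ε a
  set Ψ : Fin n → E n → ℝ := fun a => cv (f a) (rho n) with hΨ
  have sΨ : ∀ a, ContDiff ℝ ∞ (Ψ a) := fun a => cv_sm (hli a) hk
  set Φ : E n → E n := fun x => WithLp.toLp 2 (fun a => Ψ a (ε⁻¹ • x)) with hΦ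
  have hΦa : ∀ a, (fun y => Φ y a) = fun y => Ψ a (ε⁻¹ • y) := fun a => rfl
  have sΦ : ContDiff ℝ ∞ Φ := by
    rw [contDiff_euclidean]
    intro a
    exact (sΨ a).comp (contDiff_const_smul _)
  refine ⟨Φ, sΦ, fun x0 b A M hM x hx => ?_⟩
  have hM0 : 0 ≤ M * ε ^ 2 :=
    (norm_nonneg _).trans (hM x0 (mem_closedBall_self (by linarith)))
  have hM1 : 0 ≤ M := by
    have : 0 < ε ^ 2 := by positivity
    exact nonneg_of_mul_nonneg_left hM0 this
  -- the affine map in the scaled coordinates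
  set c : Fin n → ℝ := fun a => (b - A x0) a with hc
  set ℓ : Fin n → E n →L[ℝ] ℝ := fun a => ε • ((EuclideanSpace.proj a : E n →L[ℝ] ℝ).comp A)
    with hℓ
  have haff : ∀ a w, c a + ℓ a w = (b + A (ε • w - x0)) a := by
    intro a w
    have e : b + A (ε • w - x0) = (b - A x0) + ε • A w := by
      rw [map_sub, map_smul]
      abel
    rw [e]
    rfl
  set z : E n := ε⁻¹ • x with hz
  have hclose : ∀ a, ∀ w ∈ closedBall z 1, |f a w - (c a + ℓ a w)| ≤ M * ε ^ 2 := by
    intro a w hw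
    rw [haff]
    have h1 : ε • w ∈ closedBall x0 (2 * ε) := by
      rw [mem_closedBall, dist_eq_norm] at hw hx ⊢
      have e : ε • w - x0 = ε • (w - z) + (x - x0) := by
        rw [hz, smul_sub, smul_smul, mul_inv_cancel₀ hε.ne', one_smul]
        abel
      rw [e]
      calc ‖ε • (w - z) + (x - x0)‖ ≤ ‖ε • (w - z)‖ + ‖x - x0‖ := norm_add_le _ _
        _ ≤ ε * 1 + ε := by
          rw [norm_smul, Real.norm_of_nonneg hε.le]
          exact add_le_add (mul_le_mul_of_nonneg_left hw hε.le) hx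
        _ = 2 * ε := by ring
    have h2 := hM _ h1
    have h3 := PiLp.norm_apply_le (F (ε • w) - (b + A (ε • w - x0))) a
    rw [Real.norm_eq_abs] at h3
    exact h3.trans h2
  have hlf : ∀ a, LocallyIntegrable (fun y => c a + ℓ a y) := fun a =>
    (aff_sm (c a) (ℓ a)).locallyIntegrable
  have hzx : ε • z = x := by
    rw [hz, smul_smul, mul_inv_cancel₀ hε.ne', one_smul]
  have k0 : ∀ a, |Ψ a z - (b + A (x - x0)) a| ≤ M * ε ^ 2 := by
    intro a
    have e : Ψ a z - (b + A (x - x0)) a = cv (fun y => f a y - (c a + ℓ a y)) (rho n) z := by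
      rw [cv_sub (hli a) (hlf a) hk, cv_affine, haff, hzx]
    rw [e]
    have := cv_bound (f := fun y => f a y - (c a + ℓ a y)) hk (hclose a)
    rwa [rho_abs, mul_one] at this
  have k1 : ∀ a i, |pd i (Ψ a) z - ε * (A (ee i)) a| ≤ M * ε ^ 2 * C0 := by
    intro a i
    have e : pd i (Ψ a) z - ε * (A (ee i)) a
        = cv (fun y => f a y - (c a + ℓ a y)) (pd i (rho n)) z := by
      rw [cv_sub (hli a) (hlf a) (hk.pd i), cv_aff1, ← pd_cv (hli a) hk]
      rfl
    rw [e]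
    exact (cv_bound (f := fun y => f a y - (c a + ℓ a y)) (hk.pd i) (hclose a)).trans
      (mul_le_mul_of_nonneg_left (hC1 i) hM0)
  have k2 : ∀ a i j, |pd i (pd j (Ψ a)) z| ≤ M * ε ^ 2 * C0 := by
    intro a i j
    have e : pd i (pd j (Ψ a)) z
        = cv (fun y => f a y - (c a + ℓ a y)) (pd i (pd j (rho n))) z := by
      rw [cv_sub (hli a) (hlf a) ((hk.pd j).pd i), cv_aff2, ← pd_pd_cv (hli a) hk, sub_zero]
    rw [e]
    exact (cv_bound (f := fun y => f a y - (c a + ℓ a y)) ((hk.pd j).pd i) (hclose a)).trans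
      (mul_le_mul_of_nonneg_left (hC2 i j) hM0)
  have hn : (n : ℝ) ≤ (n + 1) ^ 2 * C0 := by
    have h0 : (0 : ℝ) ≤ n := Nat.cast_nonneg n
    nlinarith
  refine ⟨?_, ?_, fun a i j => ?_⟩
  · refine (norm_le_sum _).trans ((Finset.sum_le_sum fun a _ => k0 a).trans ?_)
    rw [Finset.sum_const, Finset.card_univ, Fintype.card_fin, nsmul_eq_mul, mul_assoc _ M]
    exact mul_le_mul_of_nonneg_right hn hM0
  · have h1 : ‖fderiv ℝ Φ x - A‖ ≤ n ^ 2 * (C0 * M * ε) := by
      refine opNorm_le_sum _ (by positivity) fun i a => ?_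
      have e : ((fderiv ℝ Φ x - A) (ee i)) a = ε⁻¹ * (pd i (Ψ a) z - ε * (A (ee i)) a) := by
        have e1 : (fderiv ℝ Φ x (ee i)) a = ε⁻¹ * pd i (Ψ a) z := by
          rw [← pd_comp ((sΦ.differentiable (by simp)) x), hΦa, pd_scale (sΨ a)]
        have e2 : ((fderiv ℝ Φ x - A) (ee i)) a = (fderiv ℝ Φ x (ee i)) a - (A (ee i)) a := rfl
        rw [e2, e1]
        field_simp
      rw [e, abs_mul, abs_of_pos (inv_pos.mpr hε)]
      calc ε⁻¹ * |pd i (Ψ a) z - ε * (A (ee i)) a| ≤ ε⁻¹ * (M * ε ^ 2 * C0) :=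
            mul_le_mul_of_nonneg_left (k1 a i) (inv_nonneg.mpr hε.le)
        _ = C0 * M * ε := by field_simp
    refine h1.trans ?_
    have h0 : (0 : ℝ) ≤ n := Nat.cast_nonneg n
    have h2 : (n : ℝ) ^ 2 ≤ (n + 1) ^ 2 := by nlinarith
    calc (n : ℝ) ^ 2 * (C0 * M * ε) ≤ (n + 1) ^ 2 * (C0 * M * ε) :=
          mul_le_mul_of_nonneg_right h2 (by positivity)
      _ = (n + 1) ^ 2 * C0 * M * ε := by ring
  · rw [hΦa, pd_pd_scale (sΨ a), abs_mul, abs_of_nonneg (sq_nonneg ε⁻¹)]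
    have h0 : (0 : ℝ) ≤ n := Nat.cast_nonneg n
    have h2 : (1 : ℝ) ≤ (n + 1) ^ 2 := by nlinarith
    calc ε⁻¹ ^ 2 * |pd i (pd j (Ψ a)) z| ≤ ε⁻¹ ^ 2 * (M * ε ^ 2 * C0) :=
          mul_le_mul_of_nonneg_left (k2 a i j) (sq_nonneg _)
      _ = 1 * (C0 * M) := by field_simp
      _ ≤ (n + 1) ^ 2 * (C0 * M) := mul_le_mul_of_nonneg_right h2 (by positivity)
      _ = (n + 1) ^ 2 * C0 * M := by ring

end Pool.H68.LV
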