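import Pool.Agent.H68.LV.Cvx
import Pool.Agent.H68.LV.Gb4

/-!
# Module NNG: curvature bounds in the convex class

RR = Rl + Q, Q_ij = - C_i^T g^(-1) C_j + C_j^T g^(-1) C_i. |entries of C_i| <= (3/2) Λ,
|entries of g^(-1)| <= Λ (inv_entry_le). For |u| = |v| = 1:
|sum Q_ijkl u_i v_j u_k v_l| <= 2 * n^4 * n^2 * (3/2 Λ)^2 * Λ <= 5 n^6 Λ^3.
(1) MS -> NLc: for orthonormal u, v, tq RR >= -κ qf u qf v >= -κ Λ^2 (0 <= the Gram determinant
<= qf u qf v), so tq Rl >= -κ Λ^2 - 5 n^6 Λ^3 = -K1.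
(2) NLc -> T = RR + K2 kul g is nonnegative: for orthonormal u, v the Gram determinant
tq (kul g) u v = qf u qf v - bf u v ^2 >= Λ^(-2) (qf u * min_t qf (v - t u), |v - tu| >= 1),
tq RR >= -K - 5 n^6 Λ^3, and K2 Λ^(-2) = K + 5 n^6 Λ^3. For general u, v: tq T u v is unchanged
when v is replaced by v - t u, and tq T (a u) (b v) = a^2 b^2 tq T u v; so reduce to orthonormal
u, v (Gram-Schmidt); if u, v are dependent it is 0. T is Curv: RR_curv and kul.
-/

open Matrix
open scoped ContDiff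

noncomputable section
namespace Pool.H68.LV

variable {n : ℕ} {U : Set (E n)}

/-- The 4-linear form of a tensor. -/
private def tf (T : Fin n → Fin n → Mat n) (a b c d : E n) : ℝ :=
  ∑ i, ∑ j, ∑ k, ∑ l, T i j k l * a i * b j * c k * d l

private theorem tq_tf (T : Fin n → Fin n → Mat n) (u v : E n) : tq T u v = tf T u v u v := rfl

private theorem tf_b (T : Fin n → Fin n → Mat n) (a b b' c d : E n) (t : ℝ) :
    tf T a (b + t • b') c d = tf T a b c d + t * tf T a b' c d := by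
  simp only [tf, Finset.mul_sum, ← Finset.sum_add_distrib]
  refine Finset.sum_congr rfl fun i _ => Finset.sum_congr rfl fun j _ =>
    Finset.sum_congr rfl fun k _ => Finset.sum_congr rfl fun l _ => ?_
  simp only [PiLp.add_apply, PiLp.smul_apply, smul_eq_mul]
  ring

private theorem tf_d (T : Fin n → Fin n → Mat n) (a b c d d' : E n) (t : ℝ) :
    tf T a b c (d + t • d') = tf T a b c d + t * tf T a b c d' := by
  simp only [tf, Finset.mul_sum, ← Finset.sum_add_distrib]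
  refine Finset.sum_congr rfl fun i _ => Finset.sum_congr rfl fun j _ =>
    Finset.sum_congr rfl fun k _ => Finset.sum_congr rfl fun l _ => ?_
  simp only [PiLp.add_apply, PiLp.smul_apply, smul_eq_mul]
  ring

private theorem tf_uu {T : Fin n → Fin n → Mat n} (hT : Curv T) (u c d : E n) :
    tf T u u c d = 0 := by
  have h1 : tf T u u c d = -tf T u u c d := by
    conv_lhs => rw [tf, Finset.sum_comm]
    simp only [tf, ← Finset.sum_neg_distrib]
    refine Finset.sum_congr rfl fun i _ => Finset.sum_congr rfl fun j _ =>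
      Finset.sum_congr rfl fun k _ => Finset.sum_congr rfl fun l _ => ?_
    rw [hT.a12 j i k l]
    ring
  linarith

private theorem tf_vv {T : Fin n → Fin n → Mat n} (hT : Curv T) (a b u : E n) :
    tf T a b u u = 0 := by
  have h1 : tf T a b u u = -tf T a b u u := by
    simp only [tf, ← Finset.sum_neg_distrib]
    refine Finset.sum_congr rfl fun i _ => Finset.sum_congr rfl fun j _ => ?_
    conv_lhs => rw [Finset.sum_comm]
    refine Finset.sum_congr rfl fun k _ => Finset.sum_congr rfl fun l _ => ?_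
    rw [hT.a34 i j l k]
    ring
  linarith

private theorem tq_shift {T : Fin n → Fin n → Mat n} (hT : Curv T) (u v : E n) (t : ℝ) :
    tq T u (v + t • u) = tq T u v := by
  rw [tq_tf, tq_tf, tf_b, tf_d, tf_d, tf_uu hT, tf_vv hT, tf_vv hT]
  ring

private theorem tq_scale (T : Fin n → Fin n → Mat n) (u v : E n) (a b : ℝ) :
    tq T (a • u) (b • v) = a ^ 2 * b ^ 2 * tq T u v := by
  simp only [tq, Finset.mul_sum]
  refine Finset.sum_congr rfl fun i _ => Finset.sum_congr rfl fun j _ =>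
    Finset.sum_congr rfl fun k _ => Finset.sum_congr rfl fun l _ => ?_
  simp only [PiLp.smul_apply, smul_eq_mul]
  ring

private theorem tq_add (T T' : Fin n → Fin n → Mat n) (c : ℝ) (u v : E n) :
    tq (fun i j => T i j + c • T' i j) u v = tq T u v + c * tq T' u v := by
  simp only [tq, Finset.mul_sum, ← Finset.sum_add_distrib]
  refine Finset.sum_congr rfl fun i _ => Finset.sum_congr rfl fun j _ =>
    Finset.sum_congr rfl fun k _ => Finset.sum_congr rfl fun l _ => ?_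
  simp only [Matrix.add_apply, Matrix.smul_apply, smul_eq_mul]
  ring

private theorem tq_abs_le (T : Fin n → Fin n → Mat n) {B : ℝ}
    (hB : ∀ i j k l, |T i j k l| ≤ B) {u v : E n} (hu : ‖u‖ = 1) (hv : ‖v‖ = 1) :
    |tq T u v| ≤ (n : ℝ) ^ 4 * B := by
  have h1 : ∀ i j k l, |T i j k l * u i * v j * u k * v l| ≤ B := by
    intro i j k l
    have hB0 : 0 ≤ B := (abs_nonneg _).trans (hB i j k l)
    have a1 : |u i| ≤ 1 := (abs_apply_le u i).trans hu.le
    have a2 : |v j| ≤ 1 := (abs_apply_le v j).trans hv.le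
    have a3 : |u k| ≤ 1 := (abs_apply_le u k).trans hu.le
    have a4 : |v l| ≤ 1 := (abs_apply_le v l).trans hv.le
    rw [abs_mul, abs_mul, abs_mul, abs_mul]
    calc |T i j k l| * |u i| * |v j| * |u k| * |v l| ≤ B * 1 * 1 * 1 * 1 := by
          gcongr
          exact hB i j k l
      _ = B := by ring
  rw [tq]
  have h2 : ∀ i ∈ (Finset.univ : Finset (Fin n)),
      |∑ j, ∑ k, ∑ l, T i j k l * u i * v j * u k * v l| ≤ (n : ℝ) ^ 3 * B := by
    intro i _
    have h3 : ∀ j ∈ (Finset.univ : Finset (Fin n)),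
        |∑ k, ∑ l, T i j k l * u i * v j * u k * v l| ≤ (n : ℝ) ^ 2 * B := by
      intro j _
      have h4 : ∀ k ∈ (Finset.univ : Finset (Fin n)),
          |∑ l, T i j k l * u i * v j * u k * v l| ≤ (n : ℝ) * B := by
        intro k _
        refine (Finset.abs_sum_le_sum_abs _ _).trans
          ((Finset.sum_le_sum fun l _ => h1 i j k l).trans (le_of_eq ?_))
        simp [Finset.sum_const, nsmul_eq_mul]
      refine (Finset.abs_sum_le_sum_abs _ _).trans
        ((Finset.sum_le_sum h4).trans (le_of_eq ?_))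
      simp [Finset.sum_const, nsmul_eq_mul]
      ring
    refine (Finset.abs_sum_le_sum_abs _ _).trans
      ((Finset.sum_le_sum h3).trans (le_of_eq ?_))
    simp [Finset.sum_const, nsmul_eq_mul]
    ring
  refine (Finset.abs_sum_le_sum_abs _ _).trans
    ((Finset.sum_le_sum h2).trans (le_of_eq ?_))
  simp [Finset.sum_const, nsmul_eq_mul]
  ring

private theorem mul3_le {A B C : Mat n} {a b c : ℝ} (hA : ∀ i j, |A i j| ≤ a)
    (hB : ∀ i j, |B i j| ≤ b) (hC : ∀ i j, |C i j| ≤ c) (k l : Fin n) :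
    |(Aᵀ * B * C) k l| ≤ (n : ℝ) ^ 2 * (a * b * c) := by
  rw [Matrix.mul_apply]
  have h1 : ∀ q ∈ (Finset.univ : Finset (Fin n)), |(Aᵀ * B) k q * C q l|
      ≤ (n : ℝ) * (a * b * c) := by
    intro q _
    rw [Matrix.mul_apply, abs_mul]
    have h2 : |∑ p, Aᵀ k p * B p q| ≤ (n : ℝ) * (a * b) := by
      have h3 : ∀ p ∈ (Finset.univ : Finset (Fin n)), |Aᵀ k p * B p q| ≤ a * b := by
        intro p _
        rw [abs_mul, transpose_apply]
        exact mul_le_mul (hA p k) (hB p q) (abs_nonneg _) ((abs_nonneg _).trans (hA p k))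
      refine (Finset.abs_sum_le_sum_abs _ _).trans
        ((Finset.sum_le_sum h3).trans (le_of_eq ?_))
      simp [Finset.sum_const, nsmul_eq_mul]
    calc _ ≤ (n : ℝ) * (a * b) * c :=
          mul_le_mul h2 (hC q l) (abs_nonneg _) ((abs_nonneg _).trans h2)
      _ = _ := by ring
  refine (Finset.abs_sum_le_sum_abs _ _).trans
    ((Finset.sum_le_sum h1).trans (le_of_eq ?_))
  simp [Finset.sum_const, nsmul_eq_mul]
  ring

/-- The quadratic part of the curvature. -/
private theorem quad_bound {Λ : ℝ} (hΛ : 1 ≤ Λ) {g : E n → Mat n} {x : E n}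
    (hs : (g x)ᵀ = g x) (hlo : ∀ v : E n, Λ⁻¹ * ‖v‖ ^ 2 ≤ qf (g x) v)
    (hlip : ∀ k i j, |pd k (fun y => g y i j) x| ≤ Λ) {u v : E n} (hu : ‖u‖ = 1)
    (hv : ‖v‖ = 1) : |tq (RR g x) u v - tq (Rl g x) u v| ≤ 5 * (n : ℝ) ^ 6 * Λ ^ 3 := by
  have hΛ0 : 0 < Λ := by linarith
  have hC : ∀ j k l, |CC g j x k l| ≤ 3 / 2 * Λ := by
    intro j k l
    simp only [CC, Matrix.of_apply]
    rw [abs_mul, abs_of_pos (by norm_num : (0 : ℝ) < 1 / 2)]
    have h1 := abs_sub (pd j (fun y => g y k l) x + pd l (fun y => g y k j) x)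
      (pd k (fun y => g y j l) x)
    have h2 := abs_add_le (pd j (fun y => g y k l) x) (pd l (fun y => g y k j) x)
    have h3 := hlip j k l
    have h4 := hlip l k j
    have h5 := hlip k j l
    linarith
  have hI := inv_entry_le hΛ0 hs hlo
  have hQ : ∀ i j k l, |(RR g x i j + (-1 : ℝ) • Rl g x i j) k l|
      ≤ 9 / 2 * (n : ℝ) ^ 2 * Λ ^ 3 := by
    intro i j k l
    have e1 : RR g x i j + (-1 : ℝ) • Rl g x i j
        = (CC g j x)ᵀ * (g x)⁻¹ * CC g i x - (CC g i x)ᵀ * (g x)⁻¹ * CC g j x := by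
      simp only [RR, Rl, neg_smul, one_smul]
      abel
    rw [e1, Matrix.sub_apply]
    have h1 := mul3_le (hC j) hI (hC i) k l
    have h2 := mul3_le (hC i) hI (hC j) k l
    have h3 := abs_sub (((CC g j x)ᵀ * (g x)⁻¹ * CC g i x) k l)
      (((CC g i x)ᵀ * (g x)⁻¹ * CC g j x) k l)
    calc _ ≤ _ := h3
      _ ≤ (n : ℝ) ^ 2 * (3 / 2 * Λ * Λ * (3 / 2 * Λ))
          + (n : ℝ) ^ 2 * (3 / 2 * Λ * Λ * (3 / 2 * Λ)) := add_le_add h1 h2
      _ = _ := by ring
  have h1 := tq_abs_le _ hQ hu hv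
  rw [tq_add] at h1
  have e2 : tq (RR g x) u v + -1 * tq (Rl g x) u v = tq (RR g x) u v - tq (Rl g x) u v := by ring
  rw [e2] at h1
  refine h1.trans ?_
  have h2 : 0 ≤ (n : ℝ) ^ 6 * Λ ^ 3 := by positivity
  calc (n : ℝ) ^ 4 * (9 / 2 * (n : ℝ) ^ 2 * Λ ^ 3) = 9 / 2 * ((n : ℝ) ^ 6 * Λ ^ 3) := by ring
    _ ≤ _ := by linarith

/-- The Gram determinant. -/
private theorem gram_lo {Λ : ℝ} (hΛ : 0 < Λ) {G : Mat n} (hs : Gᵀ = G)
    (hlo : ∀ v : E n, Λ⁻¹ * ‖v‖ ^ 2 ≤ qf G v) {u v : E n} (hu : ‖u‖ = 1) (hv : ‖v‖ = 1)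
    (huv : inner ℝ u v = 0) : Λ⁻¹ ^ 2 ≤ qf G u * qf G v - bf G u v ^ 2 := by
  have hΛi : 0 < Λ⁻¹ := inv_pos.mpr hΛ
  have h1 : Λ⁻¹ ≤ qf G u := by
    have := hlo u
    rwa [hu, one_pow, mul_one] at this
  have hq : 0 < qf G u := lt_of_lt_of_le hΛi h1
  set t := bf G u v / qf G u with ht
  have h2 := hlo (v - t • u)
  have h3 : ‖v - t • u‖ ^ 2 = 1 + t ^ 2 := by
    rw [norm_sub_sq_real, norm_smul, hv, hu, inner_smul_right, real_inner_comm, huv,
      Real.norm_eq_abs, mul_one, sq_abs]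
    ring
  have h4 : qf G (v - t • u) = qf G v - bf G u v ^ 2 / qf G u := by
    rw [qf_sub hs, bf_smul_right, qf_smul, bf_comm hs v u, ht]
    field_simp
    ring
  rw [h3, h4] at h2
  have h5 : Λ⁻¹ ≤ qf G v - bf G u v ^ 2 / qf G u := by
    have : Λ⁻¹ * 1 ≤ Λ⁻¹ * (1 + t ^ 2) :=
      mul_le_mul_of_nonneg_left (by linarith [sq_nonneg t]) hΛi.le
    linarith
  have h6 : qf G u * qf G v - bf G u v ^ 2 = qf G u * (qf G v - bf G u v ^ 2 / qf G u) := by
    field_simp
  rw [h6, sq]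
  exact mul_le_mul h1 h5 hΛi.le hq.le


/-- Constants. -/
def K1 (n : ℕ) (Λ κ : ℝ) : ℝ := κ * Λ ^ 2 + 5 * (n : ℝ) ^ 6 * Λ ^ 3
def K2 (n : ℕ) (Λ K : ℝ) : ℝ := Λ ^ 2 * (K + 5 * (n : ℝ) ^ 6 * Λ ^ 3)

theorem MS.nlc {Λ κ : ℝ} (hΛ : 1 ≤ Λ) (hκ : 0 ≤ κ) (hU : IsOpen U) {g : E n → Mat n}
    (h : MS Λ κ U g) : NLc Λ (K1 n Λ κ) U g := by
  have hΛ0 : 0 < Λ := by linarith
  refine ⟨h.sm, h.sym, h.lo, h.up, h.lip, ?_⟩
  intro x hx u v hu hv huv
  have h1 := h.sec x hx u v
  have h2 := quad_bound hΛ (h.sym x hx) (h.lo x hx) (h.lip x hx) hu hv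
  have a1 := h.up x hx u
  have a2 := h.up x hx v
  have b1 := h.lo x hx u
  rw [hu, one_pow, mul_one] at a1 b1
  rw [hv, one_pow, mul_one] at a2
  have b1' : 0 ≤ qf (g x) u := (inv_pos.mpr hΛ0).le.trans b1
  have h3 : qf (g x) u * qf (g x) v ≤ Λ ^ 2 := by
    rw [sq]
    by_cases h0 : 0 ≤ qf (g x) v
    · exact mul_le_mul a1 a2 h0 hΛ0.le
    · have : qf (g x) u * qf (g x) v ≤ 0 := mul_nonpos_of_nonneg_of_nonpos b1' (by linarith)
      nlinarith
  have h4 : κ * (qf (g x) u * qf (g x) v - bf (g x) u v ^ 2) ≤ κ * Λ ^ 2 := by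
    apply mul_le_mul_of_nonneg_left _ hκ
    have := sq_nonneg (bf (g x) u v)
    linarith
  have h5 := (abs_le.mp h2).2
  unfold K1
  linarith

/-- The shifted curvature tensor. -/
def Th (c : ℝ) (g : E n → Mat n) (x : E n) : Fin n → Fin n → Mat n :=
  fun i j => RR g x i j + c • kul (g x) i j

theorem kul_curv (G : Mat n) (hG : Gᵀ = G) : Curv (kul G) := by
  have hs : ∀ i j, G i j = G j i := fun i j => by
    have := congrFun (congrFun hG j) i
    simpa using this
  refine ⟨?_, ?_, ?_, ?_⟩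
  · intro i j k l
    simp only [kul, Matrix.of_apply]; ring
  · intro i j k l
    simp only [kul, Matrix.of_apply]; ring
  · intro i j k l
    simp only [kul, Matrix.of_apply]
    rw [hs i k, hs j l, hs i l, hs j k]
    ring
  · intro i j k l
    simp only [kul, Matrix.of_apply]
    rw [hs i k, hs j i, hs k j]
    ring

theorem tq_kul (G : Mat n) (hG : Gᵀ = G) (u v : E n) :
    tq (kul G) u v = qf G u * qf G v - bf G u v ^ 2 := by
  have e1 : tq (kul G) u v = (∑ i, ∑ j, ∑ k, ∑ l, (G i k * u i * u k) * (G j l * v j * v l))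
      - ∑ i, ∑ j, ∑ k, ∑ l, (G i l * u i * v l) * (G j k * v j * u k) := by
    simp only [tq, kul, Matrix.of_apply, ← Finset.sum_sub_distrib]
    refine Finset.sum_congr rfl fun i _ => Finset.sum_congr rfl fun j _ =>
      Finset.sum_congr rfl fun k _ => Finset.sum_congr rfl fun l _ => ?_
    ring
  have e2 : ∑ i, ∑ j, ∑ k, ∑ l, (G i k * u i * u k) * (G j l * v j * v l)
      = qf G u * qf G v := by
    simp only [qf, Finset.sum_mul_sum]
  have e3 : ∑ i, ∑ j, ∑ k, ∑ l, (G i l * u i * v l) * (G j k * v j * u k)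
      = bf G u v * bf G v u := by
    simp only [bf, Finset.sum_mul_sum]
    refine Finset.sum_congr rfl fun i _ => Finset.sum_congr rfl fun j _ => ?_
    rw [Finset.sum_comm]
  rw [e1, e2, e3, bf_comm hG v u]
  ring

theorem Th_curv {Λ K : ℝ} (hΛ : 1 ≤ Λ) (hU : IsOpen U) {g : E n → Mat n}
    (h : NLc Λ K U g) (c : ℝ) {x : E n} (hx : x ∈ U) : Curv (Th c g x) := by
  have hΛ0 : 0 < Λ := by linarith
  have hd : ∀ x ∈ U, (g x).det ≠ 0 := fun x hx =>
    (posDef_of hΛ0 (h.sym x hx) (h.lo x hx)).det_pos.ne'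
  have h1 := RR_curv hU h.sm h.sym hd hx
  have h2 := kul_curv (g x) (h.sym x hx)
  refine ⟨?_, ?_, ?_, ?_⟩
  · intro i j k l
    simp only [Th, Matrix.add_apply, Matrix.smul_apply, smul_eq_mul]
    rw [h1.a12 i j k l, h2.a12 i j k l]; ring
  · intro i j k l
    simp only [Th, Matrix.add_apply, Matrix.smul_apply, smul_eq_mul]
    rw [h1.a34 i j k l, h2.a34 i j k l]; ring
  · intro i j k l
    simp only [Th, Matrix.add_apply, Matrix.smul_apply, smul_eq_mul]
    rw [h1.pair i j k l, h2.pair i j k l]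
  · intro i j k l
    simp only [Th, Matrix.add_apply, Matrix.smul_apply, smul_eq_mul]
    linear_combination h1.bian i j k l + c * h2.bian i j k l

theorem Th_nonneg {Λ K : ℝ} (hΛ : 1 ≤ Λ) (hK : 0 ≤ K) (hU : IsOpen U) {g : E n → Mat n}
    (h : NLc Λ K U g) {x : E n} (hx : x ∈ U) (u v : E n) : 0 ≤ tq (Th (K2 n Λ K) g x) u v := by
  have hΛ0 : 0 < Λ := by linarith
  have hT := Th_curv hΛ hU h (K2 n Λ K) hx
  have key : ∀ u v : E n, ‖u‖ = 1 → ‖v‖ = 1 → inner ℝ u v = 0 →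
      0 ≤ tq (Th (K2 n Λ K) g x) u v := by
    intro u v hu hv huv
    have e1 : tq (Th (K2 n Λ K) g x) u v
        = tq (RR g x) u v + K2 n Λ K * tq (kul (g x)) u v := tq_add _ _ _ u v
    rw [e1, tq_kul _ (h.sym x hx)]
    have h1 := gram_lo hΛ0 (h.sym x hx) (h.lo x hx) hu hv huv
    have h2 := (abs_le.mp (quad_bound hΛ (h.sym x hx) (h.lo x hx) (h.lip x hx) hu hv)).1
    have h3 := h.lin x hx u v hu hv huv
    have hK2 : 0 ≤ K2 n Λ K := by unfold K2; positivity
    have h4 := mul_le_mul_of_nonneg_left h1 hK2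
    have h5 : K2 n Λ K * Λ⁻¹ ^ 2 = K + 5 * (n : ℝ) ^ 6 * Λ ^ 3 := by
      unfold K2
      field_simp
    linarith
  by_cases hu : u = 0
  · subst hu
    simp [tq]
  · have hun : 0 < ‖u‖ := norm_pos_iff.mpr hu
    set e : E n := (‖u‖)⁻¹ • u with he
    have he1 : ‖e‖ = 1 := by
      rw [he, norm_smul, norm_inv, norm_norm, inv_mul_cancel₀ hun.ne']
    have hue : u = ‖u‖ • e := by
      rw [he, smul_smul, mul_inv_cancel₀ hun.ne', one_smul]
    set w : E n := v + (-(inner ℝ e v)) • e with hw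
    have hwe : inner ℝ e w = 0 := by
      rw [hw, inner_add_right, inner_smul_right, real_inner_self_eq_norm_sq, he1]
      ring
    have e2 : tq (Th (K2 n Λ K) g x) u v = ‖u‖ ^ 2 * tq (Th (K2 n Λ K) g x) e w := by
      have e3 := tq_scale (Th (K2 n Λ K) g x) e v ‖u‖ 1
      rw [one_smul, ← hue] at e3
      rw [e3, hw, tq_shift hT]
      ring
    rw [e2]
    apply mul_nonneg (by positivity)
    by_cases hw0 : w = 0
    · rw [hw0]
      simp [tq]
    · have hwn : 0 < ‖w‖ := norm_pos_iff.mpr hw0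
      set f : E n := (‖w‖)⁻¹ • w with hf
      have hf1 : ‖f‖ = 1 := by
        rw [hf, norm_smul, norm_inv, norm_norm, inv_mul_cancel₀ hwn.ne']
      have hwf : w = ‖w‖ • f := by
        rw [hf, smul_smul, mul_inv_cancel₀ hwn.ne', one_smul]
      have hef : inner ℝ e f = 0 := by
        rw [hf, inner_smul_right, hwe, mul_zero]
      have e4 := tq_scale (Th (K2 n Λ K) g x) e f 1 ‖w‖
      rw [one_smul, ← hwf] at e4
      rw [e4]
      have := key e f he1 hf1 hef
      positivity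

end Pool.H68.LV
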