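import Pool.Agent.H68.LV.Vol
import Pool.Agent.H68.LV.Gbi
import Pool.Agent.H68.LV.Gb3
import Pool.Agent.H68.LV.Glb

/-!
# Module PKM: a manifold of the class provides the data of GLB

ℓ f = ((n-4)!/4) int_M f gbM. Chart e at p from LipCh, ψ = e.symm, χ = e on e.source and 0 outside
(measurable: e is continuous on the open set e.source), g = gT e. ms: gT_sm, gT_symm, LipCh,
sec_gT. base: e.symm 0 = p since e p = 0, p in e.source. cov, bil, exp: DEX. int: int_chart for
the continuous function f gbM: ∫ f gbM = int_(ball 0 r) f(ψx) gb (gT e) x sqrt det, since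
gbM (ψ x) = gb (gT e) x (gb_gT), and dn 2 (gT e) x = sw bt(h4^2 h2^(n-4))
= det^(-1/2) ((n-4)!/4) det gb = ((n-4)!/4) sqrt(det) gb (bt_gb, RR_curv, gT_pos).
finite: M is compact, covered by finitely many balls of radius r/(8Λ) around points, each contained
in the image of ball 0 (r/8) (chart_cov) under the chart, of finite measure (vol_chart, det <= Λ^n).
add: integral_finset_sum, integrability of continuous functions for a finite measure on a compact
space.
-/

open MeasureTheory Manifold Bundle Set Metric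
open scoped ContDiff

noncomputable section
namespace Pool.H68.LV

/-- The functional. -/
def ell (n : ℕ) (M : Type) [MetricSpace M] [ChartedSpace (E n) M]
    [RiemannianBundle (fun x : M => TangentSpace 𝓘(ℝ, E n) x)] [MeasurableSpace M] [BorelSpace M]
    (f : M → ℝ) : ℝ :=
  ((n - 4).factorial / 4 : ℝ) * ∫ x : M, f x * gbM n M x ∂(Measure.euclideanHausdorffMeasure n)

theorem pk_manifold (n : ℕ) (κ r Λ : ℝ) (hn : 4 ≤ n) (hr : 0 < r) (hΛ : 1 ≤ Λ) :
    ∃ C0 : ℝ, 0 ≤ C0 ∧ ∃ h0 : ℝ, 0 < h0 ∧ ∀ (M : Type) [MetricSpace M]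
      [ChartedSpace (E n) M] [IsManifold 𝓘(ℝ, E n) ∞ M]
      [RiemannianBundle (fun x : M => TangentSpace 𝓘(ℝ, E n) x)]
      [IsContMDiffRiemannianBundle 𝓘(ℝ, E n) ∞ (E n) (fun x : M => TangentSpace 𝓘(ℝ, E n) x)]
      [IsRiemannianManifold 𝓘(ℝ, E n) M] [MeasurableSpace M] [BorelSpace M],
      SecGeM n M κ → LipCh n M r Λ → ∀ p : M, ∃ ψ χ g, Pk n κ r Λ C0 h0 (ell n M) p ψ χ g := by
  obtain ⟨C0, hC0, h0, hh0, Hexp⟩ := chart_exp n r Λ hr hΛ
  refine ⟨C0, hC0, h0, hh0, ?_⟩
  intro M _ _ _ _ _ _ _ _ hS hL p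
  obtain ⟨e, he, hp, hp0, htar, hb⟩ := hL p
  have hG : GoodCh r Λ e := ⟨he, htar, fun y hy v => ((hb y hy).1 v).1,
    fun y hy v => ((hb y hy).1 v).2, fun y hy => (hb y hy).2⟩
  have hbase : e.symm 0 = p := by rw [← hp0]; exact e.left_inv hp
  have hsrc : ∀ x ∈ ball (0 : E n) r, e.symm x ∈ e.source := fun x hx =>
    e.map_target (htar hx)
  have hΛ0 : 0 < Λ := by linarith
  have hms : MS Λ κ (ball 0 r) (gT e) := by
    refine ⟨fun i j => (gT_sm he i j).mono htar, fun x _ => gT_symm e x, hG.lo, hG.up, hG.lip, ?_⟩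
    intro x hx u v
    exact sec_gT hS he (htar hx) u v
  refine ⟨e.symm, e.source.indicator e, gT e, ?_⟩
  refine ⟨hbase, hms, ?_, ?_, ?_, ?_, chart_bil n r Λ hr hΛ M e hG, Hexp M e hG, ?_⟩
  · intro x hx
    rw [Set.indicator_of_mem (hsrc x hx)]
    exact e.right_inv (htar hx)
  · refine measurable_of_restrict_of_restrict_compl e.open_source.measurableSet ?_ ?_
    · have h1 : e.source.domRestrict (e.source.indicator e) = e.source.domRestrict e := by
        funext x
        exact Set.indicator_of_mem x.2 e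
      rw [h1]
      exact e.continuousOn.domRestrict.measurable
    · have h1 : (e.source)ᶜ.domRestrict (e.source.indicator e) = fun _ => 0 := by
        funext x
        exact Set.indicator_of_notMem x.2 e
      rw [h1]
      exact measurable_const
  · exact e.continuousOn_symm.mono htar
  · intro q hq
    have h1 := chart_cov n r Λ hr hΛ M e hG q (by rw [hbase]; exact hq)
    rw [hbase] at h1
    rw [Set.indicator_of_mem h1.1]
    exact ⟨e.left_inv h1.1, h1.2⟩
  · intro f hf hfs
    have h1 := int_chart n r Λ hr hΛ M e hG (fun q => f q * gbM n M q)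
      (hf.mul gbM_continuous) (fun q hq => by
        rw [hbase]
        exact hfs q (left_ne_zero_of_mul hq))
    rw [ell, h1, ← integral_const_mul]
    refine setIntegral_congr_fun measurableSet_ball fun x hx => ?_
    have hd := gT_pos he (htar hx)
    have h2 := gb_gT he (hsrc x hx)
    rw [e.right_inv (htar hx)] at h2
    have hcurv : Curv (RR (gT e) x) := RR_curv e.open_target (gT_sm he)
      (fun y _ => gT_symm e y) (fun y hy => (gT_pos he hy).det_pos.ne') (htar hx)
    have h3 := bt_gb hn (gT e x) hd (RR (gT e) x) hcurv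
    have h4 : dn 2 (gT e) x = ((n - 4).factorial / 4 : ℝ) * Real.sqrt (gT e x).det
        * gb (gT e) x := by
      have e1 : n - 2 * 2 = n - 4 := by omega
      rw [dn, sw, e1, h3, gb]
      have hs := Real.sqrt_pos.mpr hd.det_pos
      have h5 : (gT e x).det = Real.sqrt (gT e x).det * Real.sqrt (gT e x).det :=
        (Real.mul_self_sqrt hd.det_pos.le).symm
      calc (Real.sqrt (gT e x).det)⁻¹ * ((n - 4).factorial / 4 * (gT e x).det
            * gbT (gT e x) (RR (gT e) x))
          = (Real.sqrt (gT e x).det)⁻¹ * ((n - 4).factorial / 4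
            * (Real.sqrt (gT e x).det * Real.sqrt (gT e x).det)
            * gbT (gT e x) (RR (gT e) x)) := by rw [← h5]
        _ = _ := by field_simp
    simp only [h4, ← h2]
    ring

theorem finite_muHE (n : ℕ) (r Λ : ℝ) (hr : 0 < r) (hΛ : 1 ≤ Λ) (M : Type) [MetricSpace M]
    [CompactSpace M] [ChartedSpace (E n) M] [IsManifold 𝓘(ℝ, E n) ∞ M]
    [RiemannianBundle (fun x : M => TangentSpace 𝓘(ℝ, E n) x)]
    [IsContMDiffRiemannianBundle 𝓘(ℝ, E n) ∞ (E n) (fun x : M => TangentSpace 𝓘(ℝ, E n) x)]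
    [IsRiemannianManifold 𝓘(ℝ, E n) M] [MeasurableSpace M] [BorelSpace M]
    (h : LipCh n M r Λ) : (Measure.euclideanHausdorffMeasure n : Measure M) univ < ⊤ := by
  have hΛ0 : 0 < Λ := by linarith
  refine isCompact_univ.measure_lt_top_of_nhdsWithin fun p _ => ?_
  rw [nhdsWithin_univ]
  obtain ⟨e, he, hp, hp0, htar, hb⟩ := h p
  have hG : GoodCh r Λ e := ⟨he, htar, fun y hy v => ((hb y hy).1 v).1,
    fun y hy v => ((hb y hy).1 v).2, fun y hy => (hb y hy).2⟩
  have hbase : e.symm 0 = p := by rw [← hp0]; exact e.left_inv hp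
  refine ⟨ball p (r / (8 * Λ)), ball_mem_nhds p (by positivity), ?_⟩
  have hsub : ball p (r / (8 * Λ)) ⊆ e.symm '' ball 0 (r / 8) := by
    intro q hq
    rw [mem_ball, dist_comm] at hq
    have h1 : dist p q < r / (4 * Λ) := by
      refine hq.trans ?_
      apply div_lt_div_of_pos_left hr (by positivity)
      linarith
    have h2 := chart_cov n r Λ hr hΛ M e hG q (by rw [hbase]; exact h1)
    rw [hbase] at h2
    refine ⟨e q, ?_, e.left_inv h2.1⟩
    rw [mem_ball_zero_iff]
    refine h2.2.trans_lt ?_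
    rw [lt_div_iff₀ (by positivity)] at hq
    linarith
  refine (measure_mono hsub).trans_lt ?_
  rw [vol_chart n r Λ hr hΛ M e hG (ball 0 (r / 8)) measurableSet_ball subset_rfl]
  have hle : ∀ x ∈ ball (0 : E n) (r / 8),
      ENNReal.ofReal (Real.sqrt (gT e x).det) ≤ ENNReal.ofReal (Real.sqrt (Λ ^ n)) := by
    intro x hx
    have hx' : x ∈ ball (0 : E n) r := ball_subset_ball (by linarith) hx
    refine ENNReal.ofReal_le_ofReal (Real.sqrt_le_sqrt ?_)
    exact det_up hΛ0 (gT_symm e x) (fun v => le_trans (by positivity) (hG.lo x hx' v))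
      (hG.up x hx')
  calc ∫⁻ x in ball (0 : E n) (r / 8), ENNReal.ofReal (Real.sqrt (gT e x).det)
      ≤ ∫⁻ _x in ball (0 : E n) (r / 8), ENNReal.ofReal (Real.sqrt (Λ ^ n)) :=
        setLIntegral_mono measurable_const hle
    _ = ENNReal.ofReal (Real.sqrt (Λ ^ n)) * volume (ball (0 : E n) (r / 8)) := by
        rw [setLIntegral_const]
    _ < ⊤ := ENNReal.mul_lt_top ENNReal.ofReal_lt_top measure_ball_lt_top

theorem ell_add (n : ℕ) (r Λ : ℝ) (hr : 0 < r) (hΛ : 1 ≤ Λ) (M : Type) [MetricSpace M]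
    [CompactSpace M] [ChartedSpace (E n) M] [IsManifold 𝓘(ℝ, E n) ∞ M]
    [RiemannianBundle (fun x : M => TangentSpace 𝓘(ℝ, E n) x)]
    [IsContMDiffRiemannianBundle 𝓘(ℝ, E n) ∞ (E n) (fun x : M => TangentSpace 𝓘(ℝ, E n) x)]
    [IsRiemannianManifold 𝓘(ℝ, E n) M] [MeasurableSpace M] [BorelSpace M]
    (h : LipCh n M r Λ) (N : ℕ) (f : Fin N → M → ℝ) (hf : ∀ a, Continuous (f a)) :
    ell n M (fun x => ∑ a, f a x) = ∑ a, ell n M (f a) := by
  have hfin : IsFiniteMeasure (Measure.euclideanHausdorffMeasure n : Measure M) :=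
    ⟨finite_muHE n r Λ hr hΛ M h⟩
  have hint : ∀ a, Integrable (fun x => f a x * gbM n M x)
      (Measure.euclideanHausdorffMeasure n : Measure M) := fun a =>
    ((hf a).mul gbM_continuous).integrable_of_hasCompactSupport
      (HasCompactSupport.of_compactSpace _)
  simp only [ell, Finset.sum_mul]
  rw [integral_finsetSum _ (fun a _ => hint a), Finset.mul_sum]

end Pool.H68.LV
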