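import Pool.Agent.H68.LV.Wd
import Pool.Agent.H68.LV.Cm

/-!
# Module POS1: positivity for coordinate covectors

Let m = n - 2j, j = 0, 1, 2, and let w be the list of the indices a >= 2j. Put u_a = Lc a * Rc a.
bt(h4 T^j * prod_(a in w) u_a): expand h4 T^j into words; move R's to the right (L, R commute):
prod_(a in w) u_a = wL w * wR w (up to reordering L against R only). A term
T_(i1 i2 k1 k2) ... bt(wL (I ++ w) * wR (K ++ w)) is nonzero only if the index words I and K
(length 2j) consist of distinct indices below 2j (bt_word: determinants with two equal columns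
vanish).
j = 0: bt(wL w wR w) = 1 with w = all indices in order. j = 1: value T_0101 = tq T e_0 e_1
(4 terms with factor 1/4). j = 2: (1/16) sum over I, K permutations of (0,1,2,3) with signs
= (1/16) * the double sum of chern_milnor for the restriction of T to the first four indices,
which is Curv and nonnegative (extend u, v in R^4 by zero).
-/

open Matrix

noncomputable section
namespace Pool.H68.LV

variable {n : ℕ}

/-- The permutation matrix of a word. -/
private def pm (k : ℕ) (g : Fin k → Fin k) : Matrix (Fin k) (Fin k) ℝ :=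
  Matrix.of fun i a => if i = g a then (1 : ℝ) else 0

private theorem pm_det (k : ℕ) (g : Fin k → Fin k) :
    (pm k g).det = ∑ σ : Equiv.Perm (Fin k), ((Equiv.Perm.sign σ : ℤ) : ℝ) *
      (if g = σ then (1 : ℝ) else 0) := by
  rw [Matrix.det_apply']
  refine Finset.sum_congr rfl fun σ _ => ?_
  congr 1
  by_cases h : g = σ
  · rw [if_pos h]
    apply Finset.prod_eq_one
    intro i _
    rw [pm, Matrix.of_apply, if_pos]
    rw [h]
  · rw [if_neg h]
    obtain ⟨a, ha⟩ := Function.ne_iff.mp h
    apply Finset.prod_eq_zero (Finset.mem_univ a)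
    rw [pm, Matrix.of_apply, if_neg (Ne.symm ha)]

/-- The determinant of a word followed by the upper indices. -/
private theorem det_app (k m : ℕ) (w : Fin k → Fin (k + m)) :
    (pm (k + m) (Fin.append w (Fin.natAdd k))).det
      = ∑ σ : Equiv.Perm (Fin k), ((Equiv.Perm.sign σ : ℤ) : ℝ) *
      (if w = (fun a => Fin.castAdd m (σ a)) then (1 : ℝ) else 0) := by
  by_cases h : ∃ x : Fin k → Fin k, w = fun a => Fin.castAdd m (x a)
  · obtain ⟨x, rfl⟩ := h
    have e1 : (pm (k + m) (Fin.append (fun a => Fin.castAdd m (x a)) (Fin.natAdd k))).det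
        = (pm k x).det := by
      rw [← Matrix.det_submatrix_equiv_self finSumFinEquiv]
      have e : (pm (k + m) (Fin.append (fun a => Fin.castAdd m (x a)) (Fin.natAdd k))).submatrix
          finSumFinEquiv finSumFinEquiv
          = Matrix.fromBlocks (pm k x) 0 0 (1 : Matrix (Fin m) (Fin m) ℝ) := by
        ext a b
        rcases a with a | a <;> rcases b with b | b
        · simp [pm]
        · simp [pm, Fin.ext_iff]
          omega
        · simp [pm, Fin.ext_iff]
          have := (x b).2
          omega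
        · simp [pm, Matrix.one_apply]
      rw [e, Matrix.det_fromBlocks_zero₂₁, Matrix.det_one, mul_one]
    rw [e1, pm_det]
    refine Finset.sum_congr rfl fun σ _ => ?_
    congr 1
    by_cases hx : x = σ
    · rw [if_pos hx, if_pos]
      rw [hx]
    · rw [if_neg hx, if_neg]
      intro hh
      apply hx
      funext a
      have := congrFun hh a
      simpa using this
  · have h2 : ∃ a c, w a = Fin.natAdd k c := by
      by_contra hc
      push Not at hc
      apply h
      have : ∀ a, ∃ x : Fin k, w a = Fin.castAdd m x := by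
        intro a
        induction hw : w a using Fin.addCases with
        | left i => exact ⟨i, rfl⟩
        | right i => exact absurd hw (hc a i)
      choose x hx using this
      exact ⟨x, funext hx⟩
    obtain ⟨a, c, hac⟩ := h2
    have h3 : (pm (k + m) (Fin.append w (Fin.natAdd k))).det = 0 := by
      have hne : (Fin.castAdd m a) ≠ (Fin.natAdd k c) := by
        intro hh
        have := congrArg Fin.val hh
        simp at this
        omega
      apply Matrix.det_zero_of_column_eq hne
      intro i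
      rw [pm, Matrix.of_apply, Matrix.of_apply, Fin.append_left, Fin.append_right, hac]
    rw [h3]
    symm
    apply Finset.sum_eq_zero
    intro σ _
    rw [if_neg, mul_zero]
    intro hh
    exact h ⟨σ, hh⟩

private theorem sum_det (k m : ℕ) (G : (Fin k → Fin (k + m)) → ℝ) :
    ∑ w, G w * (pm (k + m) (Fin.append w (Fin.natAdd k))).det
      = ∑ σ : Equiv.Perm (Fin k), ((Equiv.Perm.sign σ : ℤ) : ℝ) *
        G (fun a => Fin.castAdd m (σ a)) := by
  simp only [det_app, Finset.mul_sum]
  rw [Finset.sum_comm]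
  refine Finset.sum_congr rfl fun σ _ => ?_
  rw [Finset.sum_eq_single (fun a => Fin.castAdd m (σ a))]
  · rw [if_pos rfl]
    ring
  · intro w _ hw
    rw [if_neg hw]
    ring
  · intro h; exact absurd (Finset.mem_univ _) h

private theorem main (k m : ℕ) (H : (Fin k → Fin (k + m)) → (Fin k → Fin (k + m)) → ℝ) :
    ∑ w, ∑ w', H w w' * bt (wL (List.ofFn w) * wR (List.ofFn w') *
      (wL (List.ofFn (Fin.natAdd k : Fin m → Fin (k + m))) *
        wR (List.ofFn (Fin.natAdd k : Fin m → Fin (k + m)))))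
      = ∑ σ : Equiv.Perm (Fin k), ∑ τ : Equiv.Perm (Fin k),
      ((Equiv.Perm.sign σ : ℤ) : ℝ) * ((Equiv.Perm.sign τ : ℤ) : ℝ) *
        H (fun a => Fin.castAdd m (σ a)) (fun a => Fin.castAdd m (τ a)) := by
  have e : ∀ w w' : Fin k → Fin (k + m), bt (wL (List.ofFn w) * wR (List.ofFn w') *
      (wL (List.ofFn (Fin.natAdd k : Fin m → Fin (k + m))) *
        wR (List.ofFn (Fin.natAdd k : Fin m → Fin (k + m)))))
      = (pm (k + m) (Fin.append w (Fin.natAdd k))).det *
        (pm (k + m) (Fin.append w' (Fin.natAdd k))).det := by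
    intro w w'
    rw [bt_join, ← List.ofFn_fin_append, ← List.ofFn_fin_append, bt_word]
    rfl
  have h1 : ∀ w, ∑ w', H w w' * bt (wL (List.ofFn w) * wR (List.ofFn w') *
      (wL (List.ofFn (Fin.natAdd k : Fin m → Fin (k + m))) *
        wR (List.ofFn (Fin.natAdd k : Fin m → Fin (k + m)))))
      = (∑ τ : Equiv.Perm (Fin k), ((Equiv.Perm.sign τ : ℤ) : ℝ) *
        H w (fun a => Fin.castAdd m (τ a))) *
        (pm (k + m) (Fin.append w (Fin.natAdd k))).det := by
    intro w
    rw [← sum_det k m (fun w' => H w w'), Finset.sum_mul]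
    refine Finset.sum_congr rfl fun w' _ => ?_
    rw [e]
    ring
  simp only [h1]
  rw [sum_det k m (fun w => ∑ τ : Equiv.Perm (Fin k), ((Equiv.Perm.sign τ : ℤ) : ℝ) *
        H w (fun a => Fin.castAdd m (τ a)))]
  refine Finset.sum_congr rfl fun σ _ => ?_
  rw [Finset.mul_sum]
  refine Finset.sum_congr rfl fun τ _ => ?_
  ring

theorem list_eq (k m : ℕ) : ((List.finRange (k + m)).filter fun a => k ≤ a.val)
    = List.ofFn (Fin.natAdd k : Fin m → Fin (k + m)) := by
  have h1 : List.finRange (k + m) = List.ofFn (Fin.castAdd m : Fin k → Fin (k + m))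
      ++ List.ofFn (Fin.natAdd k : Fin m → Fin (k + m)) := by
    rw [← List.ofFn_fin_append, ← List.ofFn_id]
    congr 1
    funext a
    induction a using Fin.addCases with
    | left i => rw [Fin.append_left]; rfl
    | right i => rw [Fin.append_right]; rfl
  rw [h1, List.filter_append]
  have h2 : (List.ofFn (Fin.castAdd m : Fin k → Fin (k + m))).filter (fun a => k ≤ a.val) = [] := by
    rw [List.filter_eq_nil_iff]
    intro a ha
    obtain ⟨i, rfl⟩ := (List.mem_ofFn' _ _).mp ha
    simp
  have h3 : (List.ofFn (Fin.natAdd k : Fin m → Fin (k + m))).filter (fun a => k ≤ a.val)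
      = List.ofFn (Fin.natAdd k : Fin m → Fin (k + m)) := by
    rw [List.filter_eq_self]
    intro a ha
    obtain ⟨i, rfl⟩ := (List.mem_ofFn' _ _).mp ha
    simp
  rw [h2, h3, List.nil_append]

private theorem sumfun (α : Type) [Fintype α] (k : ℕ) (F : (Fin (k + 1) → α) → ℝ) :
    ∑ w, F w = ∑ a, ∑ w : Fin k → α, F (Matrix.vecCons a w) := by
  rw [← (Fin.consEquiv (fun _ => α)).sum_comp, Fintype.sum_prod_type]
  rfl

private theorem sum2 (α : Type) [Fintype α] (F : (Fin 2 → α) → ℝ) :
    ∑ w, F w = ∑ a, ∑ b, F ![a, b] := by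
  rw [sumfun]
  refine Finset.sum_congr rfl fun a _ => ?_
  rw [sumfun]
  refine Finset.sum_congr rfl fun b _ => ?_
  rw [Fintype.sum_unique]
  congr 3

private theorem sum4 (α : Type) [Fintype α] (F : (Fin 4 → α) → ℝ) :
    ∑ w, F w = ∑ a, ∑ b, ∑ c, ∑ d, F ![a, b, c, d] := by
  rw [sumfun]
  refine Finset.sum_congr rfl fun a _ => ?_
  rw [sumfun]
  refine Finset.sum_congr rfl fun b _ => ?_
  rw [sumfun]
  refine Finset.sum_congr rfl fun c _ => ?_
  rw [sumfun]
  refine Finset.sum_congr rfl fun d _ => ?_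
  rw [Fintype.sum_unique]
  congr 5

private theorem case0 (m : ℕ) (Z : DD (0 + m)) (hZ : Z =
      (wL (List.ofFn (Fin.natAdd 0 : Fin m → Fin (0 + m))) *
        wR (List.ofFn (Fin.natAdd 0 : Fin m → Fin (0 + m))))) : 0 ≤ bt Z := by
  have h := main 0 m (fun _ _ => 1)
  have h2 : bt Z = 1 := by
    rw [Fintype.sum_unique, Fintype.sum_unique, Fintype.sum_unique, Fintype.sum_unique] at h
    simp only [one_mul, mul_one, List.ofFn_zero] at h
    have e1 : (wL [] : DD (0 + m)) = 1 := rfl
    have e2 : (wR [] : DD (0 + m)) = 1 := rfl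
    rw [e1, e2, one_mul, one_mul, ← hZ] at h
    rw [h]
    have : (default : Equiv.Perm (Fin 0)) = 1 := Subsingleton.elim _ _
    rw [this, Equiv.Perm.sign_one]
    norm_num
  rw [h2]
  exact zero_le_one

private theorem case1 (m : ℕ) (T : Fin (2 + m) → Fin (2 + m) → Mat (2 + m)) (hT : Curv T)
    (hp : ∀ u v, 0 ≤ tq T u v) :
    0 ≤ bt (h4 T * (wL (List.ofFn (Fin.natAdd 2 : Fin m → Fin (2 + m))) *
        wR (List.ofFn (Fin.natAdd 2 : Fin m → Fin (2 + m))))) := by
  set Z := (wL (List.ofFn (Fin.natAdd 2 : Fin m → Fin (2 + m))) *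
        wR (List.ofFn (Fin.natAdd 2 : Fin m → Fin (2 + m)))) with hZ
  have h1 : bt (h4 T * Z) = (1 / 4) * ∑ a, ∑ b, ∑ p, ∑ q, T a b p q *
      bt (wL (List.ofFn ![a, b]) * wR (List.ofFn ![p, q]) * Z) := by
    rw [h4, smul_mul_assoc, bt_smul]
    congr 1
    simp only [Finset.sum_mul, bt_sum, smul_mul_assoc, bt_smul]
    refine Finset.sum_congr rfl fun a _ => Finset.sum_congr rfl fun b _ =>
      Finset.sum_congr rfl fun p _ => Finset.sum_congr rfl fun q _ => ?_
    congr 3
    simp [wL, wR, mul_assoc]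
  have h2 := main 2 m (fun w w' => T (w 0) (w 1) (w' 0) (w' 1))
  rw [sum2] at h2
  simp only [sum2, Matrix.cons_val_zero, Matrix.cons_val_one] at h2
  rw [← hZ] at h2
  rw [h1, h2]
  have hu : (Finset.univ : Finset (Equiv.Perm (Fin 2))) = {1, Equiv.swap 0 1} := by decide
  have hne : (1 : Equiv.Perm (Fin 2)) ≠ Equiv.swap 0 1 := by decide
  rw [hu, Finset.sum_pair hne, Finset.sum_pair hne, Finset.sum_pair hne, Equiv.Perm.sign_one,
    Equiv.Perm.sign_swap (by decide)]
  simp only [Equiv.Perm.coe_one, id_eq, Equiv.swap_apply_left, Equiv.swap_apply_right]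
  set i := Fin.castAdd m (0 : Fin 2) with hi
  set j := Fin.castAdd m (1 : Fin 2) with hj
  have h3 : tq T (EuclideanSpace.single i 1) (EuclideanSpace.single j 1) = T i j i j := by
    rw [tq]
    rw [Finset.sum_eq_single i]
    · rw [Finset.sum_eq_single j]
      · rw [Finset.sum_eq_single i]
        · rw [Finset.sum_eq_single j]
          · simp
          · intro l _ hl
            simp [hl]
          · intro h; exact absurd (Finset.mem_univ _) h
        · intro k _ hk
          simp [hk]
        · intro h; exact absurd (Finset.mem_univ _) h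
      · intro l _ hl
        simp [hl]
      · intro h; exact absurd (Finset.mem_univ _) h
    · intro k _ hk
      simp [hk]
    · intro h; exact absurd (Finset.mem_univ _) h
  have h4 := hp (EuclideanSpace.single i 1) (EuclideanSpace.single j 1)
  rw [h3] at h4
  have a1 := hT.a34 i j j i
  have a2 := hT.a12 j i i j
  have a3 := hT.a12 j i j i
  have a4 := hT.a34 i j i j
  push_cast
  have e : (1 : ℝ) / 4 * (1 * 1 * T i j i j + 1 * -1 * T i j j i
    + (-1 * 1 * T j i i j + -1 * -1 * T j i j i)) = T i j i j := by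
    rw [a2, a3, a1]
    ring
  rw [e]
  exact h4

/-- Restriction to the first four indices. -/
private def res4 (m : ℕ) (T : Fin (4 + m) → Fin (4 + m) → Mat (4 + m)) : Fin 4 → Fin 4 → Mat 4 :=
  fun i j => Matrix.of fun k l => T (Fin.castAdd m i) (Fin.castAdd m j) (Fin.castAdd m k)
    (Fin.castAdd m l)

private theorem res4_curv (m : ℕ) (T : Fin (4 + m) → Fin (4 + m) → Mat (4 + m)) (hT : Curv T) :
    Curv (res4 m T) :=
  ⟨fun _ _ _ _ => hT.a12 _ _ _ _, fun _ _ _ _ => hT.a34 _ _ _ _, fun _ _ _ _ => hT.pair _ _ _ _,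
    fun _ _ _ _ => hT.bian _ _ _ _⟩

private theorem res4_tq (m : ℕ) (T : Fin (4 + m) → Fin (4 + m) → Mat (4 + m))
    (u v : EuclideanSpace ℝ (Fin 4)) :
    tq (res4 m T) u v = tq T (WithLp.toLp 2 (Fin.append u.ofLp 0))
      (WithLp.toLp 2 (Fin.append v.ofLp 0)) := by
  simp only [tq, Fin.sum_univ_add, Fin.append_left, Fin.append_right, Pi.zero_apply, mul_zero,
    zero_mul, Finset.sum_const_zero, add_zero]
  rfl

private theorem case2 (m : ℕ) (T : Fin (4 + m) → Fin (4 + m) → Mat (4 + m)) (hT : Curv T)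
    (hp : ∀ u v, 0 ≤ tq T u v) :
    0 ≤ bt (h4 T ^ 2 * (wL (List.ofFn (Fin.natAdd 4 : Fin m → Fin (4 + m))) *
        wR (List.ofFn (Fin.natAdd 4 : Fin m → Fin (4 + m))))) := by
  set Z := (wL (List.ofFn (Fin.natAdd 4 : Fin m → Fin (4 + m))) *
        wR (List.ofFn (Fin.natAdd 4 : Fin m → Fin (4 + m)))) with hZ
  have h1 : bt (h4 T ^ 2 * Z) = (1 / 16) * ∑ a, ∑ b, ∑ c, ∑ d, ∑ p, ∑ q, ∑ r, ∑ s,
      (T a b p q * T c d r s) *
      bt (wL (List.ofFn ![a, b, c, d]) * wR (List.ofFn ![p, q, r, s]) * Z) := by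
    rw [h4_sq, smul_mul_assoc, bt_smul]
    congr 1
    simp only [Finset.sum_mul, bt_sum, smul_mul_assoc, bt_smul]
    refine Finset.sum_congr rfl fun a _ => Finset.sum_congr rfl fun b _ => ?_
    have e : ∀ f : Fin (4 + m) → Fin (4 + m) → Fin (4 + m) → Fin (4 + m) → Fin (4 + m) →
        Fin (4 + m) → ℝ,
        ∑ p, ∑ q, ∑ c, ∑ d, ∑ r, ∑ s, f p q c d r s
          = ∑ c, ∑ d, ∑ p, ∑ q, ∑ r, ∑ s, f p q c d r s := by
      intro f
      have h := Finset.sum_comm (s := (Finset.univ : Finset (Fin (4 + m) × Fin (4 + m))))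
        (t := (Finset.univ : Finset (Fin (4 + m) × Fin (4 + m))))
        (f := fun u v => ∑ r, ∑ s, f u.1 u.2 v.1 v.2 r s)
      simpa only [Fintype.sum_prod_type] using h
    rw [e]
  have h2 := main 4 m (fun w w' => T (w 0) (w 1) (w' 0) (w' 1) * T (w 2) (w 3) (w' 2) (w' 3))
  rw [sum4] at h2
  simp only [sum4, Matrix.cons_val] at h2
  rw [← hZ] at h2
  rw [h1, h2]
  refine mul_nonneg (by norm_num) ?_
  exact chern_milnor (res4 m T) (res4_curv m T hT) (fun u v => by rw [res4_tq]; exact hp _ _)

theorem pos_coord (T : Fin n → Fin n → Mat n) (hT : Curv T) (hp : ∀ u v, 0 ≤ tq T u v)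
    (j : ℕ) (hj : j ≤ 2) (hn : 2 * j ≤ n) :
    0 ≤ bt (h4 T ^ j *
      (((List.finRange n).filter fun a => 2 * j ≤ a.val).map fun a => (Lc a * Rc a : DD n)).prod) := by
  obtain ⟨m, rfl⟩ := Nat.exists_eq_add_of_le hn
  rw [list_eq, u_list]
  interval_cases j
  · rw [pow_zero, one_mul]
    exact case0 m _ rfl
  · rw [pow_one]
    exact case1 m T hT hp
  · exact case2 m T hT hp

end Pool.H68.LV
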