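import Pool.Agent.H68.LV.Cov
import Pool.Agent.H68.LV.Pos1
import Pool.Agent.H68.LV.Gb4

/-!
# Module POS2: positivity for arbitrary covectors

h2 (vecMulVec v v) = v^L v^R with v^L = sum v_i Lc i, v^R = sum v_i Rc i.
If the length of the list is not n - 2j (in particular if n < 2j) the value is 0: expand into
words (bt_word_ne). If the covectors are linearly dependent the value is 0: the product equals
(prod v^L)(prod v^R) up to reordering, and prod v^L = 0 because products of the v^L are
alternating (exterior algebra as in WD; ExteriorAlgebra.lift). If they are independent, extend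
them to a basis: there is an invertible J whose row with index 2j + b is the b-th covector. With
T' = pull J^(-1) T we have T = pull J T' (pull_pull, pull_one, Gb4), T' is Curv and nonnegative
(Curv.pull, tq_pull), and bt_pull_list gives bt = det(J)^2 * (the value of pos_coord for T').
-/

open Matrix

noncomputable section
namespace Pool.H68.LV

variable {n : ℕ}

private def FL (v : Fin n → ℝ) : DD n := ∑ i, v i • Lc i
private def FR (v : Fin n → ℝ) : DD n := ∑ i, v i • Rc i

private theorem FL_FR (u v : Fin n → ℝ) : Commute (FL u : DD n) (FR v) :=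
  Commute.sum_left _ _ _ fun i _ => Commute.sum_right _ _ _ fun j _ =>
    ((show Commute (Lc i : DD n) (Rc j) from Lc_mul_Rc i j).smul_left _).smul_right _

private theorem Rc_FL (i : Fin n) (v : Fin n → ℝ) : Commute (Rc i : DD n) (FL v) :=
  Commute.sum_right _ _ _ fun j _ =>
    ((show Commute (Lc j : DD n) (Rc i) from Lc_mul_Rc j i).symm).smul_right _

private theorem h2_rank (v : Fin n → ℝ) : h2 (Matrix.vecMulVec v v) = (FL v * FR v : DD n) := by
  rw [h2, FL, FR, Finset.sum_mul_sum]
  refine Finset.sum_congr rfl fun i _ => Finset.sum_congr rfl fun j _ => ?_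
  rw [smul_mul_smul_comm]
  rfl

private theorem FR_FLs (v : Fin n → ℝ) (l : List (Fin n → ℝ)) :
    Commute (FR v : DD n) (l.map FL).prod := by
  induction l with
  | nil => exact Commute.one_right _
  | cons u l ih =>
    rw [List.map_cons, List.prod_cons]
    exact ((FL_FR u v).symm).mul_right ih

private theorem wR_FLs (w : List (Fin n)) (l : List (Fin n → ℝ)) :
    Commute (wR w : DD n) (l.map FL).prod := by
  induction w with
  | nil => exact Commute.one_left _
  | cons a w ih =>
    rw [wR, List.map_cons, List.prod_cons]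
    refine Commute.mul_left ?_ ih
    clear ih
    induction l with
    | nil => exact Commute.one_right _
    | cons u l ih =>
      rw [List.map_cons, List.prod_cons]
      exact (Rc_FL a u).mul_right ih

private theorem split (ξ : List (Fin n → ℝ)) :
    (ξ.map fun v => (h2 (Matrix.vecMulVec v v) : DD n)).prod = (ξ.map FL).prod * (ξ.map FR).prod := by
  induction ξ with
  | nil => simp
  | cons v ξ ih =>
    rw [List.map_cons, List.prod_cons, ih, h2_rank, List.map_cons, List.prod_cons, List.map_cons,
      List.prod_cons, mul_assoc, ← mul_assoc (FR v), (FR_FLs v ξ).eq, mul_assoc, mul_assoc]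

private theorem reorder (w w' : List (Fin n)) (ξ : List (Fin n → ℝ)) :
    wL w * wR w' * (ξ.map fun v => (h2 (Matrix.vecMulVec v v) : DD n)).prod
      = (wL w * (ξ.map FL).prod) * (wR w' * (ξ.map FR).prod) := by
  rw [split, mul_assoc, ← mul_assoc (wR w'), (wR_FLs w' ξ).eq, mul_assoc, mul_assoc]

/-- If all words give zero then the powers of h4 give zero. -/
private theorem words (T : Fin n → Fin n → Mat n) (j : ℕ) (hj : j ≤ 2) (Z : DD n)
    (h : ∀ w w' : List (Fin n), w.length = 2 * j → w'.length = 2 * j →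
      bt (wL w * wR w' * Z) = 0) : bt (h4 T ^ j * Z) = 0 := by
  interval_cases j
  · have := h [] [] rfl rfl
    rw [pow_zero]
    simpa [wL, wR] using this
  · have h1 : bt (h4 T * Z) = (1 / 4) * ∑ a, ∑ b, ∑ p, ∑ q, T a b p q *
        bt (wL [a, b] * wR [p, q] * Z) := by
      rw [h4, smul_mul_assoc, bt_smul]
      congr 1
      simp only [Finset.sum_mul, bt_sum, smul_mul_assoc, bt_smul]
      refine Finset.sum_congr rfl fun a _ => Finset.sum_congr rfl fun b _ =>
        Finset.sum_congr rfl fun p _ => Finset.sum_congr rfl fun q _ => ?_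
      congr 3
      simp [wL, wR, mul_assoc]
    rw [pow_one, h1]
    have h2 : ∀ a b p q : Fin n, bt (wL [a, b] * wR [p, q] * Z) = 0 := fun a b p q =>
      h _ _ rfl rfl
    simp [h2]
  · rw [h4_sq, smul_mul_assoc, bt_smul]
    simp only [Finset.sum_mul, bt_sum, smul_mul_assoc, bt_smul]
    have h2 : ∀ a b c d p q r s : Fin n, bt (wL (List.ofFn ![a, b, c, d]) *
        wR (List.ofFn ![p, q, r, s]) * Z) = 0 := by
      intro a b c d p q r s
      apply h
      · simp
      · simp
    simp only [h2, mul_zero, Finset.sum_const_zero]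

private theorem wL_vec (w : List (Fin n)) :
    (wL w : DD n) = ((w.map fun i => (Pi.single i 1 : Fin n → ℝ)).map FL).prod := by
  rw [wL, List.map_map]
  congr 2
  funext i
  show Lc i = ∑ k, (Pi.single i 1 : Fin n → ℝ) k • Lc k
  rw [Finset.sum_eq_single i]
  · rw [Pi.single_eq_same, one_smul]
  · intro b _ hb
    rw [Pi.single_eq_of_ne hb, zero_smul]
  · intro h; exact absurd (Finset.mem_univ _) h

private theorem wR_vec (w : List (Fin n)) :
    (wR w : DD n) = ((w.map fun i => (Pi.single i 1 : Fin n → ℝ)).map FR).prod := by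
  rw [wR, List.map_map]
  congr 2
  funext i
  show Rc i = ∑ k, (Pi.single i 1 : Fin n → ℝ) k • Rc k
  rw [Finset.sum_eq_single i]
  · rw [Pi.single_eq_same, one_smul]
  · intro b _ hb
    rw [Pi.single_eq_of_ne hb, zero_smul]
  · intro h; exact absurd (Finset.mem_univ _) h

private theorem zero_length (T : Fin n → Fin n → Mat n) (j : ℕ) (hj : j ≤ 2)
    (ξ : List (Fin n → ℝ)) (hl : 2 * j + ξ.length ≠ n) :
    bt (h4 T ^ j * (ξ.map fun v => h2 (Matrix.vecMulVec v v)).prod) = 0 := by
  apply words T j hj
  intro w w' hw hw'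
  rw [reorder, wL_vec, wR_vec, ← List.prod_append, ← List.prod_append, ← List.map_append,
    ← List.map_append]
  apply bt_vec_ne
  left
  rw [List.length_append, List.length_map, hw]
  exact hl

private theorem zero_dep (T : Fin n → Fin n → Mat n) (j : ℕ) (hj : j ≤ 2) {m : ℕ}
    (v : Fin m → Fin n → ℝ) (hv : ¬ LinearIndependent ℝ v) :
    bt (h4 T ^ j * ((List.ofFn v).map fun v => h2 (Matrix.vecMulVec v v)).prod) = 0 := by
  apply words T j hj
  intro w w' _ _
  rw [reorder]
  have : ((List.ofFn v).map FL).prod = (0 : DD n) := by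
    rw [List.map_ofFn]
    exact prod_dep v hv
  rw [this, mul_zero, zero_mul]
  rfl

private theorem ext_li {N m : ℕ} (v : Fin m → Fin N → ℝ) (hv : LinearIndependent ℝ v) (k : ℕ)
    (hk : k + m ≤ N) : ∃ w : Fin (k + m) → Fin N → ℝ, LinearIndependent ℝ w ∧
      ∀ b, w (Fin.natAdd k b) = v b := by
  induction k with
  | zero =>
    refine ⟨fun a => v (Fin.cast (by omega) a), ?_, fun b => ?_⟩
    · exact hv.comp _ (Fin.cast_injective _)
    · show v _ = v b
      congr 1
      apply Fin.ext
      simp
  | succ k ih =>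
    obtain ⟨w, hw, hwv⟩ := ih (by omega)
    have hlt : k + m < Module.finrank ℝ (Fin N → ℝ) := by
      rw [Module.finrank_fin_fun]
      omega
    obtain ⟨x, hx⟩ := exists_linearIndependent_cons_of_lt_finrank hw hlt
    have hc : k + 1 + m = k + m + 1 := by omega
    refine ⟨fun a => (Fin.cons x w : Fin (k + m + 1) → Fin N → ℝ) (Fin.cast hc a),
      hx.comp _ (Fin.cast_injective _), fun b => ?_⟩
    have e : (Fin.cast hc (Fin.natAdd (k + 1) b) : Fin (k + m + 1))
        = Fin.succ (Fin.natAdd k b) := by
      apply Fin.ext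
      simp
      omega
    show (Fin.cons x w : Fin (k + m + 1) → Fin N → ℝ) (Fin.cast hc
      (Fin.natAdd (k + 1) b)) = v b
    rw [e, Fin.cons_succ, hwv]

private theorem extend {k m : ℕ} (v : Fin m → Fin (k + m) → ℝ) (hv : LinearIndependent ℝ v) :
    ∃ J : Mat (k + m), IsUnit J.det ∧ ∀ b i, J (Fin.natAdd k b) i = v b i := by
  obtain ⟨w, hw, hwv⟩ := ext_li v hv k le_rfl
  refine ⟨Matrix.of w, ?_, fun b i => ?_⟩
  · rw [← Matrix.isUnit_iff_isUnit_det]
    exact Matrix.linearIndependent_rows_iff_isUnit.mp hw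
  · rw [Matrix.of_apply, hwv]

theorem pos_list (T : Fin n → Fin n → Mat n) (hT : Curv T) (hp : ∀ u v, 0 ≤ tq T u v)
    (j : ℕ) (hj : j ≤ 2) (ξ : List (Fin n → ℝ)) :
    0 ≤ bt (h4 T ^ j * (ξ.map fun v => h2 (Matrix.vecMulVec v v)).prod) := by
  by_cases hl : 2 * j + ξ.length = n
  swap
  · exact (zero_length T j hj ξ hl).ge
  obtain ⟨m, v, rfl⟩ : ∃ (m : ℕ) (v : Fin m → Fin n → ℝ), ξ = List.ofFn v :=
    ⟨ξ.length, ξ.get, (List.ofFn_get ξ).symm⟩
  rw [List.length_ofFn] at hl
  subst hl
  by_cases hv : LinearIndependent ℝ v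
  swap
  · exact (zero_dep T j hj v hv).ge
  obtain ⟨J, hJ, hJv⟩ := extend v hv
  set T' := pull J⁻¹ T with hT'
  have hTp : T = pull J T' := by
    rw [hT', pull_pull, Matrix.nonsing_inv_mul _ hJ, pull_one]
  have h1 := bt_pull_list J T' j
    (((List.finRange (2 * j + m)).filter fun a => 2 * j ≤ a.val))
  have h2 : (((List.finRange (2 * j + m)).filter fun a => 2 * j ≤ a.val)).map
      (fun a => (∑ i, J a i • Lc i : DD (2 * j + m)) * (∑ i, J a i • Rc i : DD (2 * j + m)))
      = (List.ofFn v).map fun v => (h2 (Matrix.vecMulVec v v) : DD (2 * j + m)) := by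
    rw [list_eq, List.map_ofFn, List.map_ofFn]
    congr 1
    funext b
    show _ = Pool.H68.LV.h2 (Matrix.vecMulVec (v b) (v b))
    rw [h2_rank]
    show (∑ i, J (Fin.natAdd (2 * j) b) i • Lc i : DD (2 * j + m)) *
      (∑ i, J (Fin.natAdd (2 * j) b) i • Rc i : DD (2 * j + m)) = _
    simp only [hJv]
    rfl
  rw [h2, ← hTp] at h1
  rw [h1]
  refine mul_nonneg (sq_nonneg _) ?_
  refine pos_coord T' (hT.pull _) (fun u v => ?_) j hj (by omega)
  rw [hT', tq_pull]
  exact hp _ _

end Pool.H68.LV
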