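import Pool.Agent.H68.LV.Gts

/-!
# Module PTH: lengths and distances in a chart

pathELength_chart: γ = e.symm o c on the interval, c = e o γ is C^1 on Icc a b
(ContMDiffOn.comp), chain rule mfderiv γ t 1 = mfderiv e.symm (c t) (c' t) in the open interval
(pathELength_eq_lintegral_mfderiv_Ioo), qf_gT: the norm is sqrt (qf (gT e (c t)) (c' t)).
dist_le_segment: riemannianEDist_le_pathELength for γ t = e.symm (x + t (y - x)) on [0,1],
IsRiemannianManifold.out; c' = y - x; convert the lintegral of a continuous function.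
-/

open MeasureTheory Manifold Bundle Set
open scoped ContDiff

noncomputable section
namespace Pool.H68.LV

variable {n : ℕ} {M : Type} [MetricSpace M] [ChartedSpace (E n) M]
  [IsManifold 𝓘(ℝ, E n) ∞ M]
  [RiemannianBundle (fun x : M => TangentSpace 𝓘(ℝ, E n) x)]
  [IsContMDiffRiemannianBundle 𝓘(ℝ, E n) ∞ (E n) (fun x : M => TangentSpace 𝓘(ℝ, E n) x)]
  [IsRiemannianManifold 𝓘(ℝ, E n) M]

omit [IsManifold 𝓘(ℝ, E n) ∞ M]
  [RiemannianBundle (fun x : M => TangentSpace 𝓘(ℝ, E n) x)]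
  [IsContMDiffRiemannianBundle 𝓘(ℝ, E n) ∞ (E n) (fun x : M => TangentSpace 𝓘(ℝ, E n) x)]
  [IsRiemannianManifold 𝓘(ℝ, E n) M] in
private theorem md' {e : OpenPartialHomeomorph M (E n)}
    (he : e ∈ IsManifold.maximalAtlas 𝓘(ℝ, E n) ∞ M) :
    e.MDifferentiable 𝓘(ℝ, E n) 𝓘(ℝ, E n) :=
  ⟨(contMDiffOn_of_mem_maximalAtlas he).mdifferentiableOn (by simp),
    (contMDiffOn_symm_of_mem_maximalAtlas he).mdifferentiableOn (by simp)⟩

omit [IsManifold 𝓘(ℝ, E n) ∞ M]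
  [IsContMDiffRiemannianBundle 𝓘(ℝ, E n) ∞ (E n) (fun x : M => TangentSpace 𝓘(ℝ, E n) x)]
  [IsRiemannianManifold 𝓘(ℝ, E n) M] in
private theorem enorm_base {p q : M} (h : p = q) (u : E n) :
    @enorm (TangentSpace 𝓘(ℝ, E n) p) _ u = @enorm (TangentSpace 𝓘(ℝ, E n) q) _ u := by
  subst h; rfl

omit [IsRiemannianManifold 𝓘(ℝ, E n) M] in
theorem pathELength_chart {e : OpenPartialHomeomorph M (E n)}
    (he : e ∈ IsManifold.maximalAtlas 𝓘(ℝ, E n) ∞ M) {a b : ℝ} (γ : ℝ → M)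
    (hγ : ContMDiffOn 𝓘(ℝ, ℝ) 𝓘(ℝ, E n) 1 γ (Icc a b)) (hs : ∀ t ∈ Icc a b, γ t ∈ e.source) :
    pathELength 𝓘(ℝ, E n) γ a b
      = ∫⁻ t in Icc a b, ENNReal.ofReal
          (Real.sqrt (qf (gT e (e (γ t))) (deriv (fun s => e (γ s)) t))) := by
  rw [pathELength_eq_lintegral_mfderiv_Ioo, ← restrict_Ioo_eq_restrict_Icc]
  refine setLIntegral_congr_fun measurableSet_Ioo (fun t ht => ?_)
  have htI : t ∈ Icc a b := Ioo_subset_Icc_self ht
  have hnhds : Icc a b ∈ nhds t := Icc_mem_nhds ht.1 ht.2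
  have hdγ : MDifferentiableAt 𝓘(ℝ, ℝ) 𝓘(ℝ, E n) γ t :=
    ((hγ t htI).mdifferentiableWithinAt one_ne_zero).mdifferentiableAt hnhds
  have hde : MDifferentiableAt 𝓘(ℝ, E n) 𝓘(ℝ, E n) e (γ t) := (md' he).mdifferentiableAt (hs t htI)
  have hdc : MDifferentiableAt 𝓘(ℝ, ℝ) 𝓘(ℝ, E n) (e ∘ γ) t := hde.comp t hdγ
  have hL : mfderiv 𝓘(ℝ, ℝ) 𝓘(ℝ, E n) γ t
      = (mfderiv 𝓘(ℝ, E n) 𝓘(ℝ, E n) e.symm ((e ∘ γ) t)).comp
        (mfderiv 𝓘(ℝ, ℝ) 𝓘(ℝ, E n) (e ∘ γ) t) := by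
    rw [← mfderiv_comp t ((md' he).mdifferentiableAt_symm (e.map_source (hs t htI))) hdc]
    apply Filter.EventuallyEq.mfderiv_eq
    filter_upwards [hnhds] with s hs'
    exact (e.left_inv (hs s hs')).symm
  have hd : (mfderiv 𝓘(ℝ, ℝ) 𝓘(ℝ, E n) (e ∘ γ) t (1 : ℝ) : E n) = deriv (fun s => e (γ s)) t := by
    rw [mfderiv_eq_fderiv]
    exact fderiv_apply_one_eq_deriv
  have hv : (mfderiv 𝓘(ℝ, ℝ) 𝓘(ℝ, E n) γ t (1 : ℝ) : E n)
      = mfderiv 𝓘(ℝ, E n) 𝓘(ℝ, E n) e.symm (e (γ t)) (deriv (fun s => e (γ s)) t) := by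
    rw [hL]
    exact congrArg (fun w : E n => (mfderiv 𝓘(ℝ, E n) 𝓘(ℝ, E n) e.symm (e (γ t)) w : E n)) hd
  have hn : Real.sqrt (qf (gT e (e (γ t))) (deriv (fun s => e (γ s)) t))
      = ‖(mfderiv 𝓘(ℝ, E n) 𝓘(ℝ, E n) e.symm (e (γ t)) (deriv (fun s => e (γ s)) t) :
        TangentSpace 𝓘(ℝ, E n) (e.symm (e (γ t))))‖ := by
    rw [qf_gT, Real.sqrt_sq (norm_nonneg _)]
    rfl
  show @enorm (TangentSpace 𝓘(ℝ, E n) (γ t)) _ (mfderiv 𝓘(ℝ, ℝ) 𝓘(ℝ, E n) γ t (1 : ℝ)) = _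
  rw [show (mfderiv 𝓘(ℝ, ℝ) 𝓘(ℝ, E n) γ t (1 : ℝ) : TangentSpace 𝓘(ℝ, E n) (γ t)) = _ from hv, hn,
    ofReal_norm]
  exact enorm_base (n := n) (M := M) (e.left_inv (hs t htI)).symm _

theorem dist_le_segment {e : OpenPartialHomeomorph M (E n)}
    (he : e ∈ IsManifold.maximalAtlas 𝓘(ℝ, E n) ∞ M) {x y : E n}
    (h : segment ℝ x y ⊆ e.target) :
    dist (e.symm x) (e.symm y)
      ≤ ∫ t in (0 : ℝ)..1, Real.sqrt (qf (gT e (x + t • (y - x))) (y - x)) := by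
  set c : ℝ → E n := fun t => x + t • (y - x) with hc
  have hcseg : ∀ t ∈ Icc (0 : ℝ) 1, c t ∈ e.target := by
    intro t ht
    refine h ?_
    rw [segment_eq_image']
    exact ⟨t, ht, rfl⟩
  have hcs : ContDiff ℝ ∞ c := contDiff_const.add (contDiff_id.smul contDiff_const)
  have hγ : ContMDiffOn 𝓘(ℝ, ℝ) 𝓘(ℝ, E n) 1 (e.symm ∘ c) (Icc 0 1) := by
    refine ((contMDiffOn_symm_of_mem_maximalAtlas he).of_le (by simp)).comp
      (contMDiffOn_iff_contDiffOn.2 (hcs.of_le (by simp)).contDiffOn) ?_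
    exact hcseg
  have hγs : ∀ t ∈ Icc (0 : ℝ) 1, (e.symm ∘ c) t ∈ e.source := fun t ht => e.map_target (hcseg t ht)
  have h1 : edist (e.symm x) (e.symm y) ≤ pathELength 𝓘(ℝ, E n) (e.symm ∘ c) 0 1 := by
    rw [IsRiemannianManifold.out (I := 𝓘(ℝ, E n)) (e.symm x) (e.symm y)]
    refine riemannianEDist_le_pathELength hγ ?_ ?_ zero_le_one
    · simp [hc]
    · simp [hc]
  rw [pathELength_chart he _ hγ hγs] at h1
  have h2 : ∫⁻ t in Icc (0 : ℝ) 1, ENNReal.ofReal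
          (Real.sqrt (qf (gT e (e ((e.symm ∘ c) t))) (deriv (fun s => e ((e.symm ∘ c) s)) t)))
      = ∫⁻ t in Icc (0 : ℝ) 1, ENNReal.ofReal (Real.sqrt (qf (gT e (c t)) (y - x))) := by
    rw [← restrict_Ioo_eq_restrict_Icc]
    refine setLIntegral_congr_fun measurableSet_Ioo (fun t ht => ?_)
    have htI : t ∈ Icc (0 : ℝ) 1 := Ioo_subset_Icc_self ht
    have h3 : e ((e.symm ∘ c) t) = c t := e.right_inv (hcseg t htI)
    have h4 : deriv (fun s => e ((e.symm ∘ c) s)) t = y - x := by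
      have h5 : (fun s => e ((e.symm ∘ c) s)) =ᶠ[nhds t] c := by
        filter_upwards [Icc_mem_nhds ht.1 ht.2] with s hs
        exact e.right_inv (hcseg s hs)
      rw [h5.deriv_eq]
      have h6 : HasDerivAt c ((1 : ℝ) • (y - x)) t :=
        ((hasDerivAt_id t).smul_const (y - x)).const_add x
      rw [h6.deriv, one_smul]
    simp only [h3, h4]
  have hcont : ContinuousOn (fun t => Real.sqrt (qf (gT e (c t)) (y - x))) (Icc 0 1) := by
    refine ContinuousOn.sqrt ?_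
    simp only [qf]
    refine continuousOn_finsetSum _ fun i _ => continuousOn_finsetSum _ fun j _ => ?_
    refine (ContinuousOn.mul ?_ continuousOn_const).mul continuousOn_const
    exact (gT_sm he i j).continuousOn.comp hcs.continuous.continuousOn hcseg
  have hint : IntegrableOn (fun t => Real.sqrt (qf (gT e (c t)) (y - x))) (Icc 0 1) :=
    hcont.integrableOn_Icc
  rw [h2, ← ofReal_integral_eq_lintegral_ofReal hint
    (Filter.Eventually.of_forall fun t => Real.sqrt_nonneg _),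
    integral_Icc_eq_integral_Ioc, ← intervalIntegral.integral_of_le zero_le_one] at h1
  refine (edist_le_ofReal ?_).1 h1
  exact intervalIntegral.integral_nonneg zero_le_one fun t _ => Real.sqrt_nonneg _

end Pool.H68.LV
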