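import Pool.Agent.H68.LV.Fin

/-!
# The statement of the hand-in
-/

open MeasureTheory Manifold Bundle Set Metric
open scoped ContDiff

namespace Pool.H68.LV

theorem res (n : ℕ) (hn : 5 ≤ n) (X : Type) [MetricSpace X] [CompactSpace X] [Nonempty X] :
    ∃ v : ℝ, ∀ κ r Λ : ℝ, 0 < r → 0 < Λ → ∃ C : ℝ, ∃ η : ℝ, 0 < η ∧ ∀ (M : Type)
      [MetricSpace M] [CompactSpace M] [Nonempty M] [MeasurableSpace M] [BorelSpace M]
      [ChartedSpace (E n) M] [IsManifold 𝓘(ℝ, E n) ∞ M]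
      [RiemannianBundle (fun x : M => TangentSpace 𝓘(ℝ, E n) x)],
      SmoothMetric (E n) M → RiemDist (E n) M → SecGeM n M κ → LipCh n M r Λ →
      GromovHausdorff.ghDist M X < η →
      |V4 n M - v| ≤ C * GromovHausdorff.ghDist M X ^ (1 / 4 : ℝ) := by
  obtain ⟨v, hv⟩ := final n hn X
  refine ⟨v, fun κ r Λ hr hΛ => ?_⟩
  obtain ⟨C, η, hη, h⟩ := hv κ r Λ hr hΛ
  refine ⟨C, η, hη, ?_⟩
  intro M _ _ _ _ _ _ _ _ hS hD
  have h1 : IsContMDiffRiemannianBundle 𝓘(ℝ, E n) ∞ (E n)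
    (fun x : M => TangentSpace 𝓘(ℝ, E n) x) := hS
  have h2 : IsRiemannianManifold 𝓘(ℝ, E n) M := hD
  exact h M

end Pool.H68.LV
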