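import Mathlib

/-!
# Metric fields on open subsets of R^n: Christoffel symbols, curvature, Gauss-Bonnet scalar
-/

open MeasureTheory Matrix
open scoped ContDiff

noncomputable section
namespace Pool.H68.LV

abbrev Mat (n : ℕ) := Matrix (Fin n) (Fin n) ℝ

/-- The value T(u,v,u,v). -/
def tq {n : ℕ} (T : Fin n → Fin n → Mat n) (u v : EuclideanSpace ℝ (Fin n)) : ℝ :=
  ∑ i, ∑ j, ∑ k, ∑ l, T i j k l * u i * v j * u k * v l

/-- The quadratic form of a matrix. -/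
def qf {n : ℕ} (G : Mat n) (v : EuclideanSpace ℝ (Fin n)) : ℝ := ∑ i, ∑ j, G i j * v i * v j

/-- The quadratic form of a matrix, polarised. -/
def bf {n : ℕ} (G : Mat n) (u v : EuclideanSpace ℝ (Fin n)) : ℝ := ∑ i, ∑ j, G i j * u i * v j

/-- The Ricci tensor of a curvature tensor T with respect to the metric tensor g. -/
def ricT {n : ℕ} (g : Mat n) (T : Fin n → Fin n → Mat n) : Mat n :=
  Matrix.of fun i k => ∑ j, ∑ l, g⁻¹ j l * T i j k l

/-- The scalar curvature. -/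
def scT {n : ℕ} (g : Mat n) (T : Fin n → Fin n → Mat n) : ℝ :=
  ∑ i, ∑ k, g⁻¹ i k * ricT g T i k

/-- The Gauss-Bonnet scalar Sc^2 - 4 |Ric|^2 + |Rm|^2. -/
def gbT {n : ℕ} (g : Mat n) (T : Fin n → Fin n → Mat n) : ℝ :=
  scT g T ^ 2
    - 4 * (∑ i, ∑ k, ∑ a, ∑ b, g⁻¹ i a * g⁻¹ k b * ricT g T i k * ricT g T a b)
    + ∑ i, ∑ j, ∑ k, ∑ l, ∑ a, ∑ b, ∑ c, ∑ d,
        g⁻¹ i a * g⁻¹ j b * g⁻¹ k c * g⁻¹ l d * T i j k l * T a b c d

abbrev E (n : ℕ) := EuclideanSpace ℝ (Fin n)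

/-- The i-th unit vector. -/
abbrev ee {n : ℕ} (i : Fin n) : E n := EuclideanSpace.single i (1 : ℝ)

/-- The i-th partial derivative. -/
def pd {n : ℕ} (i : Fin n) (f : E n → ℝ) (x : E n) : ℝ := fderiv ℝ f x (ee i)

/-- Entrywise partial derivative of a field of matrices. -/
def mpd {n : ℕ} {α β : Type} (i : Fin n) (X : E n → Matrix α β ℝ) (x : E n) : Matrix α β ℝ :=
  Matrix.of fun a b => pd i (fun y => X y a b) x

/-- Christoffel symbols of the first kind: CC g j x k l = Gamma_(k, jl). -/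
def CC {n : ℕ} (g : E n → Mat n) (j : Fin n) (x : E n) : Mat n :=
  Matrix.of fun k l =>
    1 / 2 * (pd j (fun y => g y k l) x + pd l (fun y => g y k j) x - pd k (fun y => g y j l) x)

/-- The curvature tensor R_ijkl = RR g x i j k l (positive R_ijij for the sphere), in the form
d_i C_j - d_j C_i - C_i^T g^(-1) C_j + C_j^T g^(-1) C_i. -/
def RR {n : ℕ} (g : E n → Mat n) (x : E n) (i j : Fin n) : Mat n :=
  mpd i (CC g j) x - mpd j (CC g i) x
    - (CC g i x)ᵀ * (g x)⁻¹ * CC g j x + (CC g j x)ᵀ * (g x)⁻¹ * CC g i x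

/-- The Gauss-Bonnet scalar of a metric field. -/
def gb {n : ℕ} (g : E n → Mat n) (x : E n) : ℝ := gbT (g x) (RR g x)

end Pool.H68.LV
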