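import Pool.Agent.H68.LV.Aff
import Pool.Agent.H68.LV.Mol
import Pool.Agent.H68.LV.Cvx

/-!
# Module SMF: smoothing a near isometry

For x0 in ball 0 ρ apply affine_approx with h = 2ε, G = g x0, G' = g' (F x0): the affine map
b + A(y - x0), b = F x0, satisfies the hypothesis of mollify_map with M = 4 C'. Take
x = x0: |Φ x0 - F x0| <= C M ε^2, |DΦ x0 - A| <= C M ε, second derivatives <= C M.
|A v| <= const |v| (qf G' (A v) <= (Λ + 1)|v|^2), and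
|qf (g' (Φ x0)) (DΦ v) - qf (g x0) v| <= |qf (g'(Φ x0)) (DΦ v) - qf (g'(F x0)) (DΦ v)|
+ |qf (g'(F x0)) (DΦ v) - qf (g'(F x0)) (A v)| + C' 2ε |v|^2 <= C1 ε |v|^2,
using |g' y i j - g' y' i j| <= Λ1 |y - y'| for y = Φ x0, y' = F x0, both in ball 0 R.
-/

open Matrix MeasureTheory Metric
open scoped ContDiff

noncomputable section
namespace Pool.H68.LV

variable {n : ℕ}

private theorem sum_abs_le' (v : E n) : ∑ i, |v i| ≤ n * ‖v‖ := by
  refine (Finset.sum_le_sum fun i _ => abs_apply_le v i).trans (le_of_eq ?_)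
  rw [Finset.sum_const, Finset.card_univ, Fintype.card_fin, nsmul_eq_mul]

private theorem bf_le (G : Mat n) (H : ℝ) (hH : ∀ i j, |G i j| ≤ H) (hH0 : 0 ≤ H) (u w : E n) :
    |bf G u w| ≤ n ^ 2 * H * (‖u‖ * ‖w‖) := by
  have h1 : |bf G u w| ≤ H * ((∑ i, |u i|) * ∑ j, |w j|) := by
    rw [bf, Finset.sum_mul_sum, Finset.mul_sum]
    refine (Finset.abs_sum_le_sum_abs _ _).trans (Finset.sum_le_sum fun i _ => ?_)
    rw [Finset.mul_sum]
    refine (Finset.abs_sum_le_sum_abs _ _).trans (Finset.sum_le_sum fun j _ => ?_)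
    rw [abs_mul, abs_mul, mul_assoc]
    exact mul_le_mul_of_nonneg_right (hH i j) (mul_nonneg (abs_nonneg _) (abs_nonneg _))
  have h2 : (∑ i, |u i|) * ∑ j, |w j| ≤ (n * ‖u‖) * (n * ‖w‖) :=
    mul_le_mul (sum_abs_le' u) (sum_abs_le' w) (Finset.sum_nonneg fun _ _ => abs_nonneg _)
      (by positivity)
  calc |bf G u w| ≤ H * ((∑ i, |u i|) * ∑ j, |w j|) := h1
    _ ≤ H * ((n * ‖u‖) * (n * ‖w‖)) := mul_le_mul_of_nonneg_left h2 hH0
    _ = n ^ 2 * H * (‖u‖ * ‖w‖) := by ring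

private theorem qf_diff {G : Mat n} (hG : Gᵀ = G) (u w : E n) :
    qf G u - qf G w = bf G (u - w) (u + w) := by
  rw [bf_sub_left, bf_add_right, bf_add_right, bf_self, bf_self, bf_comm hG w u]
  ring

theorem smooth_approx (n : ℕ) (Λ Λ1 C0 ρ R : ℝ) (hΛ : 1 ≤ Λ) (hΛ1 : 0 ≤ Λ1) (hC0 : 0 ≤ C0)
    (hρ : 0 < ρ) (hR : 0 < R) :
    ∃ C1 : ℝ, 0 ≤ C1 ∧ ∃ ε1 : ℝ, 0 < ε1 ∧ ∀ (g g' : E n → Mat n),
      (∀ x ∈ ball (0 : E n) ρ, (g x)ᵀ = g x ∧ ∀ v, Λ⁻¹ * ‖v‖ ^ 2 ≤ qf (g x) v ∧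
        qf (g x) v ≤ Λ * ‖v‖ ^ 2) →
      (∀ y ∈ ball (0 : E n) R, (g' y)ᵀ = g' y ∧ ∀ v, Λ⁻¹ * ‖v‖ ^ 2 ≤ qf (g' y) v ∧
        qf (g' y) v ≤ Λ * ‖v‖ ^ 2) →
      (∀ y ∈ ball (0 : E n) R, ∀ y' ∈ ball (0 : E n) R, ∀ i j,
        |g' y i j - g' y' i j| ≤ Λ1 * ‖y - y'‖) →
      ∀ (F : E n → E n) (B : ℝ), Measurable F → (∀ x, ‖F x‖ ≤ B) →
      (∀ x ∈ ball (0 : E n) ρ, F x ∈ ball (0 : E n) (R / 2)) →
      ∀ ε : ℝ, 0 < ε → ε ≤ ε1 →
      (∀ x0 ∈ ball (0 : E n) ρ, ∀ x ∈ closedBall x0 (2 * ε), ∀ y ∈ closedBall x0 (2 * ε),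
        |qf (g' (F x0)) (F x - F y) - qf (g x0) (x - y)| ≤ C0 * (2 * ε) ^ 3) →
      ∃ Φ : E n → E n, ContDiff ℝ ∞ Φ ∧ ∀ x ∈ ball (0 : E n) ρ,
        ‖Φ x - F x‖ ≤ C1 * ε ^ 2 ∧ Φ x ∈ ball (0 : E n) R ∧
        (∀ a i j, |pd i (pd j (fun y => Φ y a)) x| ≤ C1) ∧
        ∀ v, |qf (g' (Φ x)) (fderiv ℝ Φ x v) - qf (g x) v| ≤ C1 * ε * ‖v‖ ^ 2 := by
  have hΛ0 : 0 < Λ := by linarith
  have hn0 : (0 : ℝ) ≤ n := Nat.cast_nonneg n
  obtain ⟨C', hC', h1, hh1, haff⟩ := affine_approx n Λ C0 hΛ hC0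
  obtain ⟨Cm, hCm, hmol⟩ := mollify_map n
  set m : ℝ := Cm * (4 * C') with hm
  have hm0 : 0 ≤ m := by positivity
  set b0 : ℝ := Λ + 1 + m with hb0
  have hb00 : 0 ≤ b0 := by positivity
  set K1 : ℝ := n ^ 2 * (Λ1 * m) * b0 ^ 2 with hK1
  set K2 : ℝ := n ^ 2 * Λ * (m * (b0 + (Λ + 1))) with hK2
  have hK10 : 0 ≤ K1 := by positivity
  have hK20 : 0 ≤ K2 := by positivity
  refine ⟨m + K1 + K2 + 2 * C', by positivity,
    min (min 1 (h1 / 2)) (min (1 / (2 * (2 * C' + 1))) (R / (2 * (m + 1)))), ?_, ?_⟩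
  · refine lt_min (lt_min one_pos (by positivity)) (lt_min (by positivity) (by positivity))
  intro g g' hg hg' hgL F B hFm hFB hFR ε hε hε1 hF
  have he1 : ε ≤ 1 := hε1.trans ((min_le_left _ _).trans (min_le_left _ _))
  have he2 : 2 * ε ≤ h1 := by
    have := hε1.trans ((min_le_left _ _).trans (min_le_right _ _))
    linarith
  have he3 : 2 * C' * ε ≤ 1 := by
    have h2 := hε1.trans ((min_le_right _ _).trans (min_le_left _ _))
    have h3 := mul_le_mul_of_nonneg_left h2 (by positivity : 0 ≤ 2 * C' + 1)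
    have h4 : (2 * C' + 1) * (1 / (2 * (2 * C' + 1))) = 1 / 2 := by field_simp
    rw [h4] at h3
    nlinarith
  have he4 : m * ε ≤ R / 2 := by
    have h2 := hε1.trans ((min_le_right _ _).trans (min_le_right _ _))
    have h3 := mul_le_mul_of_nonneg_left h2 (by positivity : 0 ≤ m + 1)
    have h4 : (m + 1) * (R / (2 * (m + 1))) = R / 2 := by field_simp
    rw [h4] at h3
    nlinarith
  obtain ⟨Φ, sΦ, hΦ⟩ := hmol F B hFm hFB ε hε
  refine ⟨Φ, sΦ, fun x hx => ?_⟩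
  obtain ⟨hgs, hgb⟩ := hg x hx
  have hFx : F x ∈ ball (0 : E n) (R / 2) := hFR x hx
  have hFxR : F x ∈ ball (0 : E n) R := ball_subset_ball (by linarith) hFx
  obtain ⟨hgs', hgb'⟩ := hg' (F x) hFxR
  obtain ⟨A, hA1, hA2⟩ := haff (g x) (g' (F x)) hgs hgs' (fun v => (hgb v).1) (fun v => (hgb v).2)
    (fun v => (hgb' v).1) (fun v => (hgb' v).2) (2 * ε) (by linarith) he2 F x (hF x hx)
  have key := hΦ x (F x) A (4 * C') (fun y hy => by
    have h2 := hA1 y hy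
    have e : F y - (F x + A (y - x)) = F y - F x - A (y - x) := by abel
    rw [e]
    refine h2.trans (le_of_eq ?_)
    ring) x (mem_closedBall_self hε.le)
  obtain ⟨k0, k1, k2⟩ := key
  rw [sub_self, map_zero, add_zero] at k0
  have hxF : ‖Φ x - F x‖ ≤ m * ε ^ 2 := k0
  have hDA : ‖fderiv ℝ Φ x - A‖ ≤ m * ε := k1
  have hee : ε ^ 2 ≤ ε := by nlinarith
  have hxF' : ‖Φ x - F x‖ ≤ m * ε := hxF.trans (mul_le_mul_of_nonneg_left hee hm0)
  have hΦR : Φ x ∈ ball (0 : E n) R := by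
    rw [mem_ball, dist_zero_right] at hFx ⊢
    have e : Φ x = F x + (Φ x - F x) := by abel
    rw [e]
    have := norm_add_le (F x) (Φ x - F x)
    linarith
  refine ⟨?_, hΦR, fun a i j => ?_, fun v => ?_⟩
  · have h2 : 0 ≤ (K1 + K2 + 2 * C') * ε ^ 2 := by positivity
    nlinarith
  · have h2 : |pd i (pd j (fun y => Φ y a)) x| ≤ m := k2 a i j
    have h3 : 0 ≤ K1 + K2 + 2 * C' := by positivity
    linarith
  · set Av := A v with hAv
    set Bv := fderiv ℝ Φ x v with hBv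
    have hv0 := norm_nonneg v
    have hA3 : ‖Av‖ ≤ (Λ + 1) * ‖v‖ := by
      have e1 := (hgb' Av).1
      have e2 := (abs_le.mp (hA2 v)).2
      have e3 := (hgb v).2
      have e4 : C' * (2 * ε) * ‖v‖ ^ 2 ≤ 1 * ‖v‖ ^ 2 := by
        apply mul_le_mul_of_nonneg_right _ (sq_nonneg _)
        linarith
      have e5 : Λ⁻¹ * ‖Av‖ ^ 2 ≤ (Λ + 1) * ‖v‖ ^ 2 := by linarith
      have e6 : ‖Av‖ ^ 2 ≤ Λ * ((Λ + 1) * ‖v‖ ^ 2) := by
        have := mul_le_mul_of_nonneg_left e5 hΛ0.le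
        rwa [← mul_assoc, mul_inv_cancel₀ hΛ0.ne', one_mul] at this
      have e7 : ‖Av‖ ^ 2 ≤ ((Λ + 1) * ‖v‖) ^ 2 := by
        have : 0 ≤ (Λ + 1) * ‖v‖ ^ 2 := by positivity
        nlinarith
      exact (pow_le_pow_iff_left₀ (norm_nonneg _) (by positivity) two_ne_zero).mp e7
    have hBA : ‖Bv - Av‖ ≤ m * ε * ‖v‖ := by
      have e1 : Bv - Av = (fderiv ℝ Φ x - A) v := rfl
      rw [e1]
      exact ((fderiv ℝ Φ x - A).le_opNorm v).trans (mul_le_mul_of_nonneg_right hDA hv0)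
    have hB3 : ‖Bv‖ ≤ b0 * ‖v‖ := by
      have e1 : Bv = Av + (Bv - Av) := by abel
      have e2 := norm_add_le Av (Bv - Av)
      rw [← e1] at e2
      have e3 : m * ε * ‖v‖ ≤ m * ‖v‖ := by
        apply mul_le_mul_of_nonneg_right _ hv0
        nlinarith
      rw [hb0]
      nlinarith
    have hent : ∀ i j, |g' (F x) i j| ≤ Λ := entry_le hgs'
      (fun v => (mul_nonneg (by positivity) (sq_nonneg _)).trans (hgb' v).1) (fun v => (hgb' v).2)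
    have t1 : |qf (g' (Φ x)) Bv - qf (g' (F x)) Bv| ≤ K1 * ε * ‖v‖ ^ 2 := by
      rw [← qf_matsub, ← bf_self]
      have e1 := bf_le (g' (Φ x) - g' (F x)) (Λ1 * (m * ε)) (fun i j => by
        rw [Matrix.sub_apply]
        exact (hgL _ hΦR _ hFxR i j).trans (mul_le_mul_of_nonneg_left hxF' hΛ1))
        (by positivity) Bv Bv
      refine e1.trans ?_
      have e2 : ‖Bv‖ * ‖Bv‖ ≤ (b0 * ‖v‖) * (b0 * ‖v‖) :=
        mul_le_mul hB3 hB3 (norm_nonneg _) (by positivity)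
      refine (mul_le_mul_of_nonneg_left e2 (by positivity)).trans (le_of_eq ?_)
      rw [hK1]
      ring
    have t2 : |qf (g' (F x)) Bv - qf (g' (F x)) Av| ≤ K2 * ε * ‖v‖ ^ 2 := by
      rw [qf_diff hgs']
      refine (bf_le _ Λ hent hΛ0.le _ _).trans ?_
      have e2 : ‖Bv + Av‖ ≤ (b0 + (Λ + 1)) * ‖v‖ := by
        have := norm_add_le Bv Av
        linarith
      have e3 : ‖Bv - Av‖ * ‖Bv + Av‖ ≤ (m * ε * ‖v‖) * ((b0 + (Λ + 1)) * ‖v‖) :=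
        mul_le_mul hBA e2 (norm_nonneg _) (by positivity)
      refine (mul_le_mul_of_nonneg_left e3 (by positivity)).trans (le_of_eq ?_)
      rw [hK2]
      ring
    have t3 := hA2 v
    have e : qf (g' (Φ x)) Bv - qf (g x) v = (qf (g' (Φ x)) Bv - qf (g' (F x)) Bv)
        + (qf (g' (F x)) Bv - qf (g' (F x)) Av) + (qf (g' (F x)) Av - qf (g x) v) := by ring
    rw [e]
    refine (abs_add_le _ _).trans ((add_le_add (abs_add_le _ _) le_rfl).trans ?_)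
    have t4 : 0 ≤ m * ε * ‖v‖ ^ 2 := by positivity
    have t5 : (m + K1 + K2 + 2 * C') * ε * ‖v‖ ^ 2
        = m * ε * ‖v‖ ^ 2 + K1 * ε * ‖v‖ ^ 2 + K2 * ε * ‖v‖ ^ 2 + C' * (2 * ε) * ‖v‖ ^ 2 := by ring
    rw [t5]
    linarith

end Pool.H68.LV
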