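import Pool.Agent.H68.LV.Dex
import Pool.Agent.H68.LV.Qf
import Pool.Agent.H68.LV.Cal2

/-!
# Module VOL: the Hausdorff measure in a chart

Let w x = sqrt (det (gT e x)) on B = ball 0 (r/8), ψ = e.symm.
(1) Let z in B, G = gT e z, P = the positive square root of G (or any P with P^T P = G), so
qf G v = |P v|^2. By chart_exp applied with h = |x - y|... (z := x, h := |x - y|): for x, y in B near
z: |d(ψx,ψy)^2 - qf (gT e x) (x - y)| <= C0 |x-y|^3 and |qf (gT e x) - qf G| small: for every ε there is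
δ > 0 (uniform for z in the closed ball, but local is enough) such that for x, y in ball z δ:
(1-ε) |P(x - y)| <= d(ψx,ψy) <= (1+ε) |P(x - y)|.
(2) For A in ball z δ: μHE (ψ '' A) is between (1-ε)^n and (1+ε)^n times μHE (P '' A)
= volume (P '' A) = |det P| volume A (LipschitzOnWith.hausdorffMeasure_image_le both ways: the
maps ψ o P^(-1) and its inverse; MeasureTheory.Measure.addHaar_image_linearMap;
EuclideanSpace.euclideanHausdorffMeasure_eq_volume), and |det P| = w(z), which is within a factor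
1 + ε of w on ball z δ (continuity).
(3) General: two measures ν, λ on B (ν A = μHE (ψ '' A), λ A = int_A w) such that every point has a
neighbourhood on which ν <= (1+ε) λ and λ <= (1+ε) ν, for every ε, are equal: cover by countably
many such balls (Lindelof), make the pieces disjoint, sum, let ε -> 0.
ψ is injective on B, and images of Borel sets are Borel (e is a homeomorphism from its source).
-/

open MeasureTheory Manifold Bundle Set Metric
open scoped ContDiff Matrix MatrixOrder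

noncomputable section
namespace Pool.H68.LV

private theorem ball_target {n : ℕ} {M : Type} [MetricSpace M]
    [ChartedSpace (E n) M] [IsManifold 𝓘(ℝ, E n) ∞ M]
    [RiemannianBundle (fun x : M => TangentSpace 𝓘(ℝ, E n) x)]
    [IsContMDiffRiemannianBundle 𝓘(ℝ, E n) ∞ (E n) (fun x : M => TangentSpace 𝓘(ℝ, E n) x)]
    {e : OpenPartialHomeomorph M (E n)} {r Λ : ℝ} (hr : 0 < r) (he : GoodCh r Λ e) :
    ball (0 : E n) (r / 8) ⊆ e.target :=
  (ball_subset_ball (by linarith)).trans he.target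

private theorem w_cont {n : ℕ} {M : Type} [MetricSpace M]
    [ChartedSpace (E n) M] [IsManifold 𝓘(ℝ, E n) ∞ M]
    [RiemannianBundle (fun x : M => TangentSpace 𝓘(ℝ, E n) x)]
    [IsContMDiffRiemannianBundle 𝓘(ℝ, E n) ∞ (E n) (fun x : M => TangentSpace 𝓘(ℝ, E n) x)]
    {e : OpenPartialHomeomorph M (E n)} {r Λ : ℝ} (he : GoodCh r Λ e) {U : Set (E n)}
    (hU : U ⊆ e.target) : ContinuousOn (fun x => Real.sqrt (gT e x).det) U :=
  (((det_contDiffOn (gT_sm he.atlas)).continuousOn).mono hU).sqrt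

private theorem exists_linD {n : ℕ} (G : Mat n) (hG : G.PosDef) :
    ∃ P : Mat n, P.det ≠ 0 ∧ |P.det| = Real.sqrt G.det ∧
      ∀ v : E n, ‖Matrix.toEuclideanLin P v‖ = Real.sqrt (qf G v) := by
  obtain ⟨P, hP⟩ := CStarAlgebra.nonneg_iff_eq_star_mul_self.mp hG.posSemidef.nonneg
  have hdet : G.det = P.det ^ 2 := by
    rw [hP, Matrix.star_eq_conjTranspose, Matrix.conjTranspose_eq_transpose_of_trivial,
      Matrix.det_mul, Matrix.det_transpose, pow_two]
  refine ⟨P, ?_, ?_, fun v => ?_⟩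
  · intro h
    have h1 := hG.det_pos
    rw [hdet, h] at h1
    norm_num at h1
  · rw [hdet, Real.sqrt_sq_eq_abs]
  · have h1 : qf G v = ‖(Matrix.toEuclideanLin P) v‖ ^ 2 := by
      rw [EuclideanSpace.norm_sq_eq, qf_dotp, hP, Matrix.star_eq_conjTranspose,
        Matrix.conjTranspose_eq_transpose_of_trivial, ← Matrix.mulVec_mulVec,
        Matrix.mulVec_transpose, dotProduct_comm, ← Matrix.dotProduct_mulVec, dotProduct_comm]
      simp only [dotProduct, Real.norm_eq_abs, sq_abs]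
      refine Finset.sum_congr rfl fun i _ => ?_
      rw [sq]
      rfl
    rw [h1, Real.sqrt_sq (norm_nonneg _)]

private theorem det_lin {n : ℕ} (P : Mat n) : LinearMap.det (Matrix.toEuclideanLin P) = P.det := by
  rw [← LinearMap.det_toMatrix (EuclideanSpace.basisFun (Fin n) ℝ).toBasis]
  congr 1
  ext a i
  rw [LinearMap.toMatrix_apply]
  simp [Matrix.toEuclideanLin]

private theorem lin_inv {n : ℕ} (P : Mat n) (hP : P.det ≠ 0) (v : E n) :
    Matrix.toEuclideanLin P⁻¹ (Matrix.toEuclideanLin P v) = v := by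
  ext i
  show (P⁻¹ *ᵥ (P *ᵥ v.ofLp)) i = v.ofLp i
  rw [Matrix.mulVec_mulVec, Matrix.nonsing_inv_mul _ (isUnit_iff_ne_zero.2 hP), Matrix.one_mulVec]

private theorem local_lip (n : ℕ) (r Λ : ℝ) (hr : 0 < r) (hΛ : 1 ≤ Λ) (M : Type) [MetricSpace M]
    [ChartedSpace (E n) M] [IsManifold 𝓘(ℝ, E n) ∞ M]
    [RiemannianBundle (fun x : M => TangentSpace 𝓘(ℝ, E n) x)]
    [IsContMDiffRiemannianBundle 𝓘(ℝ, E n) ∞ (E n) (fun x : M => TangentSpace 𝓘(ℝ, E n) x)]
    [IsRiemannianManifold 𝓘(ℝ, E n) M]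
    (e : OpenPartialHomeomorph M (E n)) (he : GoodCh r Λ e) (z : E n)
    (hz : z ∈ ball (0 : E n) (r / 8)) (ε : ℝ) (hε : 0 < ε) (hε1 : ε ≤ 1) :
    ∃ δ : ℝ, 0 < δ ∧ ∀ x ∈ ball z δ ∩ ball (0 : E n) (r / 8), ∀ y ∈ ball z δ ∩ ball (0 : E n) (r / 8),
      dist (e.symm x) (e.symm y) ≤ (1 + ε) * Real.sqrt (qf (gT e z) (x - y)) ∧
      Real.sqrt (qf (gT e z) (x - y)) ≤ (1 + ε) * dist (e.symm x) (e.symm y) := by
  obtain ⟨C0, hC0, h0, hh0, hexp⟩ := chart_exp n r Λ hr hΛ
  have hΛ0 : 0 < Λ := by linarith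
  obtain ⟨D, hD⟩ : ∃ D : ℝ, D = Λ * (C0 * 2 + (n : ℝ) ^ 3 * Λ) + 1 := ⟨_, rfl⟩
  have hD0 : 0 < D := by rw [hD]; positivity
  refine ⟨min (h0 / 2) (ε / (2 * D)), lt_min (by positivity) (by positivity), ?_⟩
  intro x hx y hy
  obtain ⟨δ, hδd⟩ : ∃ δ : ℝ, δ = min (h0 / 2) (ε / (2 * D)) := ⟨_, rfl⟩
  rw [← hδd] at hx hy
  have hδ1 : δ ≤ h0 / 2 := by rw [hδd]; exact min_le_left _ _
  have hδ2 : δ * D ≤ ε / 2 := by
    have h1 : δ ≤ ε / (2 * D) := by rw [hδd]; exact min_le_right _ _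
    rw [le_div_iff₀ (by positivity)] at h1
    linarith
  have hδ0 : 0 < δ := by rw [hδd]; exact lt_min (by positivity) (by positivity)
  rcases eq_or_ne x y with hxy | hxy
  · rw [hxy, dist_self, sub_self, qf_zero, Real.sqrt_zero]
    simp
  have hzr : z ∈ ball (0 : E n) r := ball_subset_ball (by linarith) hz
  have hxr : x ∈ ball (0 : E n) r := ball_subset_ball (by linarith) hx.2
  have hv0 : 0 < ‖x - y‖ := norm_pos_iff.2 (sub_ne_zero.2 hxy)
  have hxz : ‖x - z‖ < δ := by rw [← dist_eq_norm]; exact hx.1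
  have hyz : ‖y - z‖ < δ := by rw [← dist_eq_norm]; exact hy.1
  have hv : ‖x - y‖ < 2 * δ := by
    have : x - y = (x - z) - (y - z) := by abel
    rw [this]
    exact (norm_sub_le _ _).trans_lt (by linarith)
  have h1 := hexp M e he x hx.2 ‖x - y‖ hv0 (by linarith) x (mem_closedBall_self hv0.le) y
    (by rw [mem_closedBall, dist_comm, dist_eq_norm])
  have h2 := qf_gT_diff he hxr hzr (x - y)
  obtain ⟨Q, hQ⟩ : ∃ Q : ℝ, Q = qf (gT e z) (x - y) := ⟨_, rfl⟩
  have h3 := he.lo z hzr (x - y)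
  rw [inv_mul_le_iff₀ hΛ0, ← hQ] at h3
  rw [← hQ] at h2 ⊢
  have hQ0 : 0 ≤ Q := by
    have : 0 ≤ Λ * Q := (by positivity : (0 : ℝ) ≤ ‖x - y‖ ^ 2).trans h3
    exact nonneg_of_mul_nonneg_right this hΛ0
  have h4 : |dist (e.symm x) (e.symm y) ^ 2 - Q| ≤ ε / 2 * Q := by
    have h5 : |dist (e.symm x) (e.symm y) ^ 2 - Q| ≤ C0 * ‖x - y‖ ^ 3
        + (n : ℝ) ^ 3 * Λ * ‖x - z‖ * ‖x - y‖ ^ 2 := by
      have h6 : dist (e.symm x) (e.symm y) ^ 2 - Q
          = (dist (e.symm x) (e.symm y) ^ 2 - qf (gT e x) (x - y))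
            + (qf (gT e x) (x - y) - Q) := by ring
      rw [h6]
      exact (abs_add_le _ _).trans (add_le_add h1 h2)
    have h7 : C0 * ‖x - y‖ ^ 3 ≤ C0 * (2 * δ) * ‖x - y‖ ^ 2 := by
      have : C0 * ‖x - y‖ ^ 3 = C0 * ‖x - y‖ * ‖x - y‖ ^ 2 := by ring
      rw [this]
      exact mul_le_mul_of_nonneg_right (mul_le_mul_of_nonneg_left hv.le hC0) (by positivity)
    have h8 : (n : ℝ) ^ 3 * Λ * ‖x - z‖ * ‖x - y‖ ^ 2 ≤ (n : ℝ) ^ 3 * Λ * δ * ‖x - y‖ ^ 2 :=
      mul_le_mul_of_nonneg_right (mul_le_mul_of_nonneg_left hxz.le (by positivity)) (by positivity)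
    calc |dist (e.symm x) (e.symm y) ^ 2 - Q| ≤ δ * (C0 * 2 + (n : ℝ) ^ 3 * Λ) * ‖x - y‖ ^ 2 := by
          refine h5.trans (le_of_le_of_eq (add_le_add h7 h8) ?_)
          ring
      _ ≤ δ * (C0 * 2 + (n : ℝ) ^ 3 * Λ) * (Λ * Q) :=
          mul_le_mul_of_nonneg_left h3 (by positivity)
      _ = δ * (D - 1) * Q := by rw [hD]; ring
      _ ≤ ε / 2 * Q := by
          refine mul_le_mul_of_nonneg_right ?_ hQ0
          nlinarith
  obtain ⟨h5, h6⟩ := abs_le.1 h4
  have hd0 : 0 ≤ dist (e.symm x) (e.symm y) := dist_nonneg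
  constructor
  · refine abs_le_of_sq_le_sq' (a := dist (e.symm x) (e.symm y)) ?_
      (mul_nonneg (by positivity) (Real.sqrt_nonneg _)) |>.2
    rw [mul_pow, Real.sq_sqrt hQ0]
    nlinarith
  · refine abs_le_of_sq_le_sq' (a := Real.sqrt Q) ?_ (mul_nonneg (by positivity) hd0) |>.2
    rw [mul_pow, Real.sq_sqrt hQ0]
    have h7 : (1 - ε / 2) * Q ≤ dist (e.symm x) (e.symm y) ^ 2 := by linarith
    have h8 : 1 ≤ (1 + ε) ^ 2 * (1 - ε / 2) := by
      have h9 : ε ^ 2 ≤ 1 := by nlinarith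
      have h10 : (1 + ε) ^ 2 * (1 - ε / 2) = 1 + ε / 2 * (3 - ε ^ 2) := by ring
      rw [h10]
      have h11 : 0 ≤ ε / 2 * (3 - ε ^ 2) := mul_nonneg (by positivity) (by linarith)
      linarith
    calc Q = 1 * Q := by ring
      _ ≤ (1 + ε) ^ 2 * (1 - ε / 2) * Q := mul_le_mul_of_nonneg_right h8 hQ0
      _ = (1 + ε) ^ 2 * ((1 - ε / 2) * Q) := by ring
      _ ≤ (1 + ε) ^ 2 * dist (e.symm x) (e.symm y) ^ 2 := mul_le_mul_of_nonneg_left h7 (by positivity)

private theorem muHE_lip {X Y : Type} [MetricSpace X] [MeasurableSpace X] [BorelSpace X]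
    [MetricSpace Y] [MeasurableSpace Y] [BorelSpace Y] (n : ℕ) {K : NNReal} {f : X → Y} {s : Set X}
    (h : LipschitzOnWith K f s) : (μHE[n] : Measure Y) (f '' s) ≤ (K : ENNReal) ^ n * (μHE[n] : Measure X) s := by
  have h1 := h.hausdorffMeasure_image_le (d := (n : ℝ)) (by positivity)
  rw [ENNReal.rpow_natCast] at h1
  rw [Measure.euclideanHausdorffMeasure_def, Measure.euclideanHausdorffMeasure_def,
    Measure.smul_apply, Measure.smul_apply, ENNReal.smul_def, ENNReal.smul_def, smul_eq_mul,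
    smul_eq_mul]
  calc _ ≤ _ := mul_le_mul_right h1 _
    _ = _ := by ring

private theorem local_cmp (n : ℕ) (r Λ : ℝ) (hr : 0 < r) (hΛ : 1 ≤ Λ) (M : Type) [MetricSpace M]
    [ChartedSpace (E n) M] [IsManifold 𝓘(ℝ, E n) ∞ M]
    [RiemannianBundle (fun x : M => TangentSpace 𝓘(ℝ, E n) x)]
    [IsContMDiffRiemannianBundle 𝓘(ℝ, E n) ∞ (E n) (fun x : M => TangentSpace 𝓘(ℝ, E n) x)]
    [IsRiemannianManifold 𝓘(ℝ, E n) M] [MeasurableSpace M] [BorelSpace M]
    (e : OpenPartialHomeomorph M (E n)) (he : GoodCh r Λ e) (K : NNReal) (hK : 1 < K) (z : E n)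
    (hz : z ∈ ball (0 : E n) (r / 8)) :
    ∃ δ : ℝ, 0 < δ ∧ ∀ A : Set (E n), MeasurableSet A → A ⊆ ball z δ ∩ ball (0 : E n) (r / 8) →
      (μHE[n] : Measure M) (e.symm '' A)
          ≤ K * ∫⁻ x in A, ENNReal.ofReal (Real.sqrt (gT e x).det) ∧
      ∫⁻ x in A, ENNReal.ofReal (Real.sqrt (gT e x).det)
          ≤ K * (μHE[n] : Measure M) (e.symm '' A) := by
  obtain ⟨ε, ⟨hε0, hε1⟩, hεK⟩ : ∃ ε : ℝ, (0 < ε ∧ ε ≤ 1) ∧ (1 + ε) ^ (n + 1) < (K : ℝ) := by
    have h1 : ContinuousWithinAt (fun ε : ℝ => (1 + ε) ^ (n + 1)) (Ioi 0) 0 :=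
      ((continuous_const.add continuous_id).pow _).continuousWithinAt
    have h2 : (1 + (0 : ℝ)) ^ (n + 1) < (K : ℝ) := by
      rw [add_zero, one_pow]; exact_mod_cast hK
    have h3 := h1.eventually (gt_mem_nhds h2)
    obtain ⟨ε, h4, h5⟩ := (h3.and (Ioc_mem_nhdsGT zero_lt_one)).exists
    exact ⟨ε, h5, h4⟩
  obtain ⟨δ1, hδ1, hlip⟩ := local_lip n r Λ hr hΛ M e he z hz ε hε0 hε1
  have hBt := ball_target hr he
  have hGz : (gT e z).PosDef := gT_pos he.atlas (hBt hz)
  have hwz : 0 < Real.sqrt (gT e z).det := Real.sqrt_pos.2 hGz.det_pos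
  have hwc : ContinuousAt (fun x => Real.sqrt (gT e x).det) z :=
    (w_cont he hBt).continuousAt (isOpen_ball.mem_nhds hz)
  obtain ⟨δ2, hδ2, hw⟩ : ∃ δ2 : ℝ, 0 < δ2 ∧ ∀ x ∈ ball z δ2,
      Real.sqrt (gT e x).det ≤ (1 + ε) * Real.sqrt (gT e z).det ∧
        Real.sqrt (gT e z).det ≤ (1 + ε) * Real.sqrt (gT e x).det := by
    have h1 : Real.sqrt (gT e z).det < (1 + ε) * Real.sqrt (gT e z).det := by nlinarith
    have h2 := hwc.eventually (gt_mem_nhds h1)
    have h3 := (hwc.const_mul (1 + ε)).eventually (lt_mem_nhds h1)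
    obtain ⟨δ2, hδ2, h4⟩ := Metric.eventually_nhds_iff_ball.1 (h2.and h3)
    exact ⟨δ2, hδ2, fun x hx => ⟨(h4 x hx).1.le, (h4 x hx).2.le⟩⟩
  obtain ⟨P, hP0, hPd, hPn⟩ := exists_linD (gT e z) hGz
  refine ⟨min δ1 δ2, lt_min hδ1 hδ2, ?_⟩
  intro A hA hAs
  have hA1 : A ⊆ ball z δ1 ∩ ball (0 : E n) (r / 8) := fun x hx =>
    ⟨ball_subset_ball (min_le_left _ _) (hAs hx).1, (hAs hx).2⟩
  have hA2 : ∀ x ∈ A, x ∈ ball z δ2 := fun x hx => ball_subset_ball (min_le_right _ _) (hAs hx).1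
  obtain ⟨κ, hκ⟩ : ∃ κ : NNReal, (κ : ℝ) = 1 + ε := ⟨⟨1 + ε, by positivity⟩, rfl⟩
  have hdL : ∀ x y : E n, dist (Matrix.toEuclideanLin P x) (Matrix.toEuclideanLin P y)
      = Real.sqrt (qf (gT e z) (x - y)) := by
    intro x y
    rw [dist_eq_norm, ← map_sub, hPn]
  have hL1 : LipschitzOnWith κ (fun v => e.symm (Matrix.toEuclideanLin P⁻¹ v))
      (Matrix.toEuclideanLin P '' A) := by
    refine LipschitzOnWith.of_dist_le_mul ?_
    rintro _ ⟨x, hx, rfl⟩ _ ⟨y, hy, rfl⟩
    simp only [lin_inv P hP0]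
    rw [hdL, hκ]
    exact (hlip x (hA1 hx) y (hA1 hy)).1
  have hL2 : LipschitzOnWith κ (fun q => Matrix.toEuclideanLin P (e q)) (e.symm '' A) := by
    refine LipschitzOnWith.of_dist_le_mul ?_
    rintro _ ⟨x, hx, rfl⟩ _ ⟨y, hy, rfl⟩
    simp only [e.right_inv (hBt (hA1 hx).2), e.right_inv (hBt (hA1 hy).2)]
    rw [hdL, hκ]
    exact (hlip x (hA1 hx) y (hA1 hy)).2
  have hi1 : (fun v => e.symm (Matrix.toEuclideanLin P⁻¹ v)) '' (Matrix.toEuclideanLin P '' A)
      = e.symm '' A := by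
    rw [Set.image_image]
    simp only [lin_inv P hP0]
  have hi2 : (fun q => Matrix.toEuclideanLin P (e q)) '' (e.symm '' A)
      = Matrix.toEuclideanLin P '' A := by
    rw [Set.image_image]
    refine Set.image_congr fun x hx => ?_
    rw [e.right_inv (hBt (hA1 hx).2)]
  have hm1 := muHE_lip n hL1
  have hm2 := muHE_lip n hL2
  rw [hi1] at hm1
  rw [hi2] at hm2
  have hvol : (μHE[n] : Measure (E n)) (Matrix.toEuclideanLin P '' A)
      = ENNReal.ofReal (Real.sqrt (gT e z).det) * volume A := by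
    rw [EuclideanSpace.euclideanHausdorffMeasure_eq_volume, Measure.addHaar_image_linearMap,
      det_lin, hPd]
  rw [hvol] at hm1 hm2
  have hw1 : ENNReal.ofReal (Real.sqrt (gT e z).det) * volume A
      ≤ κ * ∫⁻ x in A, ENNReal.ofReal (Real.sqrt (gT e x).det) := by
    rw [← setLIntegral_const, ← lintegral_const_mul' _ _ ENNReal.coe_ne_top]
    refine setLIntegral_mono' hA fun x hx => ?_
    rw [← ENNReal.ofReal_coe_nnreal, hκ, ← ENNReal.ofReal_mul (by positivity)]
    exact ENNReal.ofReal_le_ofReal (hw x (hA2 x hx)).2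
  have hw2 : ∫⁻ x in A, ENNReal.ofReal (Real.sqrt (gT e x).det)
      ≤ κ * (ENNReal.ofReal (Real.sqrt (gT e z).det) * volume A) := by
    rw [← setLIntegral_const, ← lintegral_const_mul' _ _ ENNReal.coe_ne_top]
    refine setLIntegral_mono' hA fun x hx => ?_
    rw [← ENNReal.ofReal_coe_nnreal, hκ, ← ENNReal.ofReal_mul (by positivity)]
    exact ENNReal.ofReal_le_ofReal (hw x (hA2 x hx)).1
  have hκK : (κ : ENNReal) ^ (n + 1) ≤ K := by
    have : κ ^ (n + 1) ≤ K := by
      rw [← NNReal.coe_le_coe, NNReal.coe_pow, hκ]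
      exact hεK.le
    exact_mod_cast this
  constructor
  · calc (μHE[n] : Measure M) (e.symm '' A) ≤ _ := hm1
      _ ≤ (κ : ENNReal) ^ n * (κ * ∫⁻ x in A, ENNReal.ofReal (Real.sqrt (gT e x).det)) :=
          mul_le_mul_right hw1 _
      _ = (κ : ENNReal) ^ (n + 1) * ∫⁻ x in A, ENNReal.ofReal (Real.sqrt (gT e x).det) := by ring
      _ ≤ _ := mul_le_mul_left hκK _
  · calc ∫⁻ x in A, ENNReal.ofReal (Real.sqrt (gT e x).det) ≤ _ := hw2
      _ ≤ κ * ((κ : ENNReal) ^ n * (μHE[n] : Measure M) (e.symm '' A)) := mul_le_mul_right hm2 _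
      _ = (κ : ENNReal) ^ (n + 1) * (μHE[n] : Measure M) (e.symm '' A) := by ring
      _ ≤ _ := mul_le_mul_left hκK _

private theorem le_of_local {n : ℕ} (ν lam : Measure (E n)) (B : Set (E n)) (K : NNReal)
    (h : ∀ z ∈ B, ∃ δ : ℝ, 0 < δ ∧ ∀ A : Set (E n), MeasurableSet A → A ⊆ ball z δ ∩ B →
      ν A ≤ K * lam A) (A : Set (E n)) (hA : MeasurableSet A) (hAB : A ⊆ B) :
    ν A ≤ K * lam A := by
  choose! δ hδ0 hδ using h
  obtain ⟨t, htB, htc, htu⟩ := TopologicalSpace.countable_cover_nhdsWithin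
    (f := fun z => ball z (δ z)) (s := B) (fun z hz => mem_nhdsWithin_of_mem_nhds
      (ball_mem_nhds z (hδ0 z hz)))
  rcases t.eq_empty_or_nonempty with rfl | hne
  · have : A = ∅ := by
      refine Set.eq_empty_of_forall_notMem fun x hx => ?_
      have := htu (hAB hx)
      simp at this
    rw [this]
    simp
  · obtain ⟨u, hu⟩ := htc.exists_eq_range hne
    have huB : ∀ k, u k ∈ B := fun k => htB (by rw [hu]; exact Set.mem_range_self k)
    set V : ℕ → Set (E n) := fun k => ball (u k) (δ (u k)) with hV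
    have hVm : ∀ k, MeasurableSet (V k) := fun k => measurableSet_ball
    have hAeq : A = ⋃ k, A ∩ disjointed V k := by
      rw [← Set.inter_iUnion, iUnion_disjointed]
      refine (Set.inter_eq_left.2 fun x hx => ?_).symm
      have h1 := htu (hAB hx)
      rw [hu] at h1
      simpa [hV] using h1
    have hdj : Pairwise (Function.onFun Disjoint fun k => A ∩ disjointed V k) := by
      intro i j hij
      exact (disjoint_disjointed V hij).mono Set.inter_subset_right Set.inter_subset_right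
    have hms : ∀ k, MeasurableSet (A ∩ disjointed V k) := fun k =>
      hA.inter (MeasurableSet.disjointed hVm k)
    rw [hAeq, measure_iUnion hdj hms, measure_iUnion hdj hms, ← ENNReal.tsum_mul_left]
    refine ENNReal.tsum_le_tsum fun k => ?_
    exact hδ (u k) (huB k) _ (hms k) fun x hx => ⟨disjointed_subset V k hx.2, hAB hx.1⟩

private theorem le_of_K {a b : ENNReal} (h : ∀ K : NNReal, 1 < K → a ≤ K * b) : a ≤ b := by
  have h1 : Filter.Tendsto (fun K : ENNReal => K * b) (nhdsWithin 1 (Ioi 1)) (nhds (1 * b)) :=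
    ENNReal.Tendsto.mul_const (Filter.tendsto_id.mono_left nhdsWithin_le_nhds) (Or.inl one_ne_zero)
  rw [one_mul] at h1
  refine ge_of_tendsto h1 ?_
  filter_upwards [Ioo_mem_nhdsGT ENNReal.one_lt_two] with K hK
  lift K to NNReal using (hK.2.trans (by simp)).ne
  exact h K (by exact_mod_cast hK.1)

private theorem nu_apply (n : ℕ) (r Λ : ℝ) (hr : 0 < r) (M : Type) [MetricSpace M]
    [ChartedSpace (E n) M] [IsManifold 𝓘(ℝ, E n) ∞ M]
    [RiemannianBundle (fun x : M => TangentSpace 𝓘(ℝ, E n) x)]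
    [IsContMDiffRiemannianBundle 𝓘(ℝ, E n) ∞ (E n) (fun x : M => TangentSpace 𝓘(ℝ, E n) x)]
    [MeasurableSpace M] [BorelSpace M]
    (e : OpenPartialHomeomorph M (E n)) (he : GoodCh r Λ e) (A : Set (E n))
    (hA : MeasurableSet A) :
    Measure.map e ((μHE[n] : Measure M).restrict (e.symm '' ball (0 : E n) (r / 8))) A
      = (μHE[n] : Measure M) (e.symm '' (A ∩ ball (0 : E n) (r / 8))) := by
  have hBt := ball_target hr he
  have hBs : e.symm '' ball (0 : E n) (r / 8) ⊆ e.source := by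
    rintro q ⟨x, hx, rfl⟩
    exact e.map_target (hBt hx)
  have hBo : IsOpen (e.symm '' ball (0 : E n) (r / 8)) :=
    e.isOpen_image_symm_of_subset_target isOpen_ball hBt
  have haem : AEMeasurable e ((μHE[n] : Measure M).restrict (e.symm '' ball (0 : E n) (r / 8))) :=
    (e.continuousOn.mono hBs).aemeasurable hBo.measurableSet
  rw [Measure.map_apply_of_aemeasurable haem hA, Measure.restrict_apply' hBo.measurableSet]
  congr 1
  ext q
  constructor
  · rintro ⟨h1, x, hx, rfl⟩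
    rw [Set.mem_preimage, e.right_inv (hBt hx)] at h1
    exact ⟨x, ⟨h1, hx⟩, rfl⟩
  · rintro ⟨x, ⟨h1, hx⟩, rfl⟩
    refine ⟨?_, x, hx, rfl⟩
    rw [Set.mem_preimage, e.right_inv (hBt hx)]
    exact h1

private theorem nu_eq (n : ℕ) (r Λ : ℝ) (hr : 0 < r) (hΛ : 1 ≤ Λ) (M : Type) [MetricSpace M]
    [ChartedSpace (E n) M] [IsManifold 𝓘(ℝ, E n) ∞ M]
    [RiemannianBundle (fun x : M => TangentSpace 𝓘(ℝ, E n) x)]
    [IsContMDiffRiemannianBundle 𝓘(ℝ, E n) ∞ (E n) (fun x : M => TangentSpace 𝓘(ℝ, E n) x)]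
    [IsRiemannianManifold 𝓘(ℝ, E n) M] [MeasurableSpace M] [BorelSpace M]
    (e : OpenPartialHomeomorph M (E n)) (he : GoodCh r Λ e) :
    Measure.map e ((μHE[n] : Measure M).restrict (e.symm '' ball (0 : E n) (r / 8)))
      = (volume.restrict (ball (0 : E n) (r / 8))).withDensity
        (fun x => ENNReal.ofReal (Real.sqrt (gT e x).det)) := by
  have h1 : ∀ A : Set (E n), MeasurableSet A → A ⊆ ball (0 : E n) (r / 8) →
      Measure.map e ((μHE[n] : Measure M).restrict (e.symm '' ball (0 : E n) (r / 8))) A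
        = (μHE[n] : Measure M) (e.symm '' A) := by
    intro A hA hAB
    rw [nu_apply n r Λ hr M e he A hA, Set.inter_eq_left.2 hAB]
  have h2 : ∀ A : Set (E n), MeasurableSet A → A ⊆ ball (0 : E n) (r / 8) →
      (volume.restrict (ball (0 : E n) (r / 8))).withDensity
        (fun x => ENNReal.ofReal (Real.sqrt (gT e x).det)) A
        = ∫⁻ x in A, ENNReal.ofReal (Real.sqrt (gT e x).det) := by
    intro A hA hAB
    rw [withDensity_apply _ hA, Measure.restrict_restrict hA, Set.inter_eq_left.2 hAB]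
  have h3 : ∀ A : Set (E n), MeasurableSet A → A ⊆ ball (0 : E n) (r / 8) →
      Measure.map e ((μHE[n] : Measure M).restrict (e.symm '' ball (0 : E n) (r / 8))) A
        = (volume.restrict (ball (0 : E n) (r / 8))).withDensity
        (fun x => ENNReal.ofReal (Real.sqrt (gT e x).det)) A := by
    intro A hA hAB
    refine le_antisymm (le_of_K fun K hK => ?_) (le_of_K fun K hK => ?_)
    · refine le_of_local _ _ (ball (0 : E n) (r / 8)) K (fun z hz => ?_) A hA hAB
      obtain ⟨δ, hδ, h4⟩ := local_cmp n r Λ hr hΛ M e he K hK z hz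
      refine ⟨δ, hδ, fun A hA hAs => ?_⟩
      rw [h1 A hA (hAs.trans Set.inter_subset_right), h2 A hA (hAs.trans Set.inter_subset_right)]
      exact (h4 A hA hAs).1
    · refine le_of_local _ _ (ball (0 : E n) (r / 8)) K (fun z hz => ?_) A hA hAB
      obtain ⟨δ, hδ, h4⟩ := local_cmp n r Λ hr hΛ M e he K hK z hz
      refine ⟨δ, hδ, fun A hA hAs => ?_⟩
      rw [h1 A hA (hAs.trans Set.inter_subset_right), h2 A hA (hAs.trans Set.inter_subset_right)]
      exact (h4 A hA hAs).2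
  refine Measure.ext fun A hA => ?_
  have h4 := h3 (A ∩ ball (0 : E n) (r / 8)) (hA.inter measurableSet_ball) Set.inter_subset_right
  rw [nu_apply n r Λ hr M e he _ (hA.inter measurableSet_ball), Set.inter_assoc,
    Set.inter_self] at h4
  rw [nu_apply n r Λ hr M e he A hA, h4, withDensity_apply _ (hA.inter measurableSet_ball),
    withDensity_apply _ hA, Measure.restrict_restrict (hA.inter measurableSet_ball),
    Measure.restrict_restrict hA, Set.inter_assoc, Set.inter_self]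

theorem vol_chart (n : ℕ) (r Λ : ℝ) (hr : 0 < r) (hΛ : 1 ≤ Λ) (M : Type) [MetricSpace M]
    [ChartedSpace (E n) M] [IsManifold 𝓘(ℝ, E n) ∞ M]
    [RiemannianBundle (fun x : M => TangentSpace 𝓘(ℝ, E n) x)]
    [IsContMDiffRiemannianBundle 𝓘(ℝ, E n) ∞ (E n) (fun x : M => TangentSpace 𝓘(ℝ, E n) x)]
    [IsRiemannianManifold 𝓘(ℝ, E n) M] [MeasurableSpace M] [BorelSpace M]
    (e : OpenPartialHomeomorph M (E n)) (he : GoodCh r Λ e) (A : Set (E n))
    (hA : MeasurableSet A) (hAB : A ⊆ ball 0 (r / 8)) :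
    (Measure.euclideanHausdorffMeasure n : Measure M) (e.symm '' A)
      = ∫⁻ x in A, ENNReal.ofReal (Real.sqrt (gT e x).det) := by
  have hBt := ball_target hr he
  have h1 := nu_eq n r Λ hr hΛ M e he
  have h2 : Measure.map e ((μHE[n] : Measure M).restrict (e.symm '' ball (0 : E n) (r / 8))) A
      = (volume.restrict (ball (0 : E n) (r / 8))).withDensity
        (fun x => ENNReal.ofReal (Real.sqrt (gT e x).det)) A := by rw [h1]
  rw [nu_apply n r Λ hr M e he A hA, withDensity_apply _ hA, Measure.restrict_restrict hA,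
    Set.inter_eq_left.2 hAB] at h2
  exact h2

/-- Integration in a chart. The integral over M is the integral over e.symm '' ball 0 (r/8)
(f vanishes elsewhere by chart_cov: |e q| <= Λ dist < r/8). Push forward: simple functions or
MeasurableEmbedding / Measure.map; f o e.symm vanishes on ball 0 r outside ball 0 (r/8) by
chart_cov. -/
theorem int_chart (n : ℕ) (r Λ : ℝ) (hr : 0 < r) (hΛ : 1 ≤ Λ) (M : Type) [MetricSpace M]
    [ChartedSpace (E n) M] [IsManifold 𝓘(ℝ, E n) ∞ M]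
    [RiemannianBundle (fun x : M => TangentSpace 𝓘(ℝ, E n) x)]
    [IsContMDiffRiemannianBundle 𝓘(ℝ, E n) ∞ (E n) (fun x : M => TangentSpace 𝓘(ℝ, E n) x)]
    [IsRiemannianManifold 𝓘(ℝ, E n) M] [MeasurableSpace M] [BorelSpace M]
    (e : OpenPartialHomeomorph M (E n)) (he : GoodCh r Λ e) (f : M → ℝ) (hf : Continuous f)
    (h0 : ∀ q, f q ≠ 0 → dist (e.symm 0) q < r / (8 * Λ)) :
    ∫ q : M, f q ∂(Measure.euclideanHausdorffMeasure n)
      = ∫ x in ball (0 : E n) r, f (e.symm x) * Real.sqrt (gT e x).det := by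
  have hΛ0 : 0 < Λ := by linarith
  have hBt := ball_target hr he
  have hBs : e.symm '' ball (0 : E n) (r / 8) ⊆ e.source := by
    rintro q ⟨x, hx, rfl⟩
    exact e.map_target (hBt hx)
  have hBo : IsOpen (e.symm '' ball (0 : E n) (r / 8)) :=
    e.isOpen_image_symm_of_subset_target isOpen_ball hBt
  have hsm : ∀ q, f q ≠ 0 → q ∈ e.source ∧ ‖e q‖ < r / 8 := by
    intro q hq
    have h1 := h0 q hq
    have h2 : r / (8 * Λ) ≤ r / (4 * Λ) :=
      div_le_div_of_nonneg_left hr.le (by positivity) (by linarith)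
    obtain ⟨h3, h4⟩ := chart_cov n r Λ hr hΛ M e he q (h1.trans_le h2)
    refine ⟨h3, h4.trans_lt ?_⟩
    rw [lt_div_iff₀ (by positivity)] at h1
    linarith
  have h1 : ∫ q : M, f q ∂(μHE[n] : Measure M)
      = ∫ q in e.symm '' ball (0 : E n) (r / 8), f q ∂(μHE[n] : Measure M) := by
    refine (setIntegral_eq_integral_of_forall_compl_eq_zero fun q hq => ?_).symm
    by_contra hne
    obtain ⟨h2, h3⟩ := hsm q hne
    exact hq ⟨e q, by rw [mem_ball_zero_iff]; exact h3, e.left_inv h2⟩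
  have haem : AEMeasurable e ((μHE[n] : Measure M).restrict (e.symm '' ball (0 : E n) (r / 8))) :=
    (e.continuousOn.mono hBs).aemeasurable hBo.measurableSet
  have hfm : ContinuousOn (fun x => f (e.symm x)) (ball (0 : E n) (r / 8)) :=
    hf.comp_continuousOn (e.continuousOn_symm.mono hBt)
  have hwm : AEMeasurable (fun x => ENNReal.ofReal (Real.sqrt (gT e x).det))
      (volume.restrict (ball (0 : E n) (r / 8))) :=
    (w_cont he (hBt)).aemeasurable isOpen_ball.measurableSet |>.ennreal_ofReal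
  have h2 : ∫ q in e.symm '' ball (0 : E n) (r / 8), f q ∂(μHE[n] : Measure M)
      = ∫ x, f (e.symm x) ∂(Measure.map e
        ((μHE[n] : Measure M).restrict (e.symm '' ball (0 : E n) (r / 8)))) := by
    rw [integral_map haem]
    · refine setIntegral_congr_fun hBo.measurableSet fun q hq => ?_
      simp only [e.left_inv (hBs hq)]
    · rw [nu_eq n r Λ hr hΛ M e he]
      exact (hfm.aestronglyMeasurable isOpen_ball.measurableSet).mono_ac
        (withDensity_absolutelyContinuous _ _)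
  rw [h1, h2, nu_eq n r Λ hr hΛ M e he, integral_withDensity_eq_integral_toReal_smul₀ hwm
    (Filter.Eventually.of_forall fun x => ENNReal.ofReal_lt_top)]
  have h3 : ∫ x in ball (0 : E n) (r / 8),
        (ENNReal.ofReal (Real.sqrt (gT e x).det)).toReal • f (e.symm x)
      = ∫ x in ball (0 : E n) (r / 8), f (e.symm x) * Real.sqrt (gT e x).det := by
    refine setIntegral_congr_fun isOpen_ball.measurableSet fun x _ => ?_
    simp only [ENNReal.toReal_ofReal (Real.sqrt_nonneg _), smul_eq_mul]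
    ring
  rw [h3]
  refine (setIntegral_eq_of_subset_of_forall_sdiff_eq_zero isOpen_ball.measurableSet
    (ball_subset_ball (by linarith)) ?_).symm
  intro x hx
  have hfx : f (e.symm x) = 0 := by
    by_contra hne
    obtain ⟨h4, h5⟩ := hsm _ hne
    rw [e.right_inv (he.target hx.1)] at h5
    exact hx.2 (by rw [mem_ball_zero_iff]; exact h5)
  rw [hfx, zero_mul]

end Pool.H68.LV
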