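import Pool.Agent.H68.LV.Rel

/-!
# Module WD: words and determinants

(1) Let phi : (Fin n -> R) ->l DD n, v |-> sum v_i Lc i. By Lc_mul_Lc phi(v)^2 = 0, so
ExteriorAlgebra.lift gives an algebra homomorphism, and v |-> phi(v_1) ... phi(v_m) is an
alternating map (ExteriorAlgebra.iotaMulti). Hence for fixed Y the map
(v_1, ..., v_n) |-> bt(phi(v_1) ... phi(v_n) Y) is an alternating n-form on R^n, so it is
det times its value at the standard basis (AlternatingMap.eq_smul_basis_det). The same on the
right. The value at the bases is bt(Lc 0 ... Lc (n-1) Rc 0 ... Rc (n-1)) = 1: the product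
cr 0 * ... * cr (n-1) maps the vacuum to + the top element (cr (n-1) first: all signs are
(-1)^0 because smaller indices are not yet present).
(2) degree count: a word of length m in the cr i maps the vacuum to a combination of sets with
m elements (entry (S, empty) of the product is zero unless S.card = m).
-/

open Matrix

noncomputable section
namespace Pool.H68.LV

variable {n : ℕ}

def wL (w : List (Fin n)) : DD n := (w.map Lc).prod
def wR (w : List (Fin n)) : DD n := (w.map Rc).prod

private theorem cr_mul (i : Fin n) (M : Matrix (FI n) (FI n) ℝ) (S T : FI n) :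
    (cr i * M) S T = if i ∈ S then
      (-1 : ℝ) ^ ((S.erase i).filter (fun j => j < i)).card * M (S.erase i) T else 0 := by
  rw [Matrix.mul_apply]
  by_cases hi : i ∈ S
  · rw [if_pos hi, Finset.sum_eq_single (S.erase i)]
    · rw [cr, Matrix.of_apply, if_pos ⟨Finset.notMem_erase i S, (Finset.insert_erase hi).symm⟩]
    · intro R _ hR
      rw [cr, Matrix.of_apply, if_neg, zero_mul]
      rintro ⟨h1, h2⟩
      apply hR
      rw [h2, Finset.erase_insert h1]
    · intro h; exact absurd (Finset.mem_univ _) h
  · rw [if_neg hi]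
    refine Finset.sum_eq_zero fun R _ => ?_
    rw [cr, Matrix.of_apply, if_neg, zero_mul]
    rintro ⟨_, h2⟩
    apply hi
    rw [h2]
    exact Finset.mem_insert_self i R

/-- The product of the creation matrices along a word. -/
private def pc (w : List (Fin n)) : Matrix (FI n) (FI n) ℝ := (w.map cr).prod

private theorem pc_card (w : List (Fin n)) (S : FI n) (h : S.card ≠ w.length) :
    pc w S ∅ = 0 := by
  induction w generalizing S with
  | nil =>
    rw [pc, List.map_nil, List.prod_nil, Matrix.one_apply, if_neg]
    rintro rfl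
    exact h rfl
  | cons i w ih =>
    rw [pc, List.map_cons, List.prod_cons, cr_mul]
    split_ifs with hi
    · have : pc w (S.erase i) ∅ = 0 := by
        apply ih
        intro h'
        apply h
        rw [List.length_cons, ← h', Finset.card_erase_of_mem hi]
        have : 0 < S.card := Finset.card_pos.mpr ⟨i, hi⟩
        omega
      rw [pc] at this
      rw [this, mul_zero]
    · rfl

private theorem pc_sorted (w : List (Fin n)) (hw : w.Pairwise (· < ·)) (S : FI n) :
    pc w S ∅ = if S = w.toFinset then 1 else 0 := by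
  induction w generalizing S with
  | nil => rw [pc, List.map_nil, List.prod_nil, Matrix.one_apply, List.toFinset_nil]
  | cons i w ih =>
    rw [List.pairwise_cons] at hw
    have ih' := ih hw.2
    have hiw : i ∉ w.toFinset := by
      intro h
      exact lt_irrefl i (hw.1 i (List.mem_toFinset.mp h))
    rw [pc, List.map_cons, List.prod_cons, cr_mul]
    rw [show (List.map cr w).prod = pc w from rfl, ih', List.toFinset_cons]
    by_cases hS : S = insert i w.toFinset
    · rw [if_pos hS, hS, if_pos (Finset.mem_insert_self _ _), Finset.erase_insert hiw, if_pos rfl,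
        mul_one]
      have : (w.toFinset.filter (fun j => j < i)) = ∅ := by
        apply Finset.filter_eq_empty_iff.mpr
        intro j hj
        exact not_lt.mpr (hw.1 j (List.mem_toFinset.mp hj)).le
      rw [this, Finset.card_empty, pow_zero]
    · rw [if_neg hS]
      split_ifs with h1 h2
      · exfalso
        apply hS
        rw [← h2, Finset.insert_erase h1]
      · rw [mul_zero]
      · rfl

private theorem kmul (A B A' B' : Matrix (FI n) (FI n) ℝ) :
    (Matrix.kroneckerMap (fun a b => a * b) A B : DD n) * Matrix.kroneckerMap (fun a b => a * b) A' B'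
      = Matrix.kroneckerMap (fun a b => a * b) (A * A') (B * B') :=
  (Matrix.mul_kronecker_mul A A' B B').symm

private theorem wL_eq (w : List (Fin n)) :
    wL w = Matrix.kroneckerMap (fun a b => a * b) (pc w) (1 : Matrix (FI n) (FI n) ℝ) := by
  induction w with
  | nil => rw [wL, pc, List.map_nil, List.map_nil, List.prod_nil, List.prod_nil]
           exact (Matrix.one_kronecker_one).symm
  | cons i w ih =>
    rw [wL, pc, List.map_cons, List.map_cons, List.prod_cons, List.prod_cons]
    rw [show (List.map Lc w).prod = wL w from rfl, ih, Lc, kmul, one_mul]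
    rfl

private theorem wR_eq (w : List (Fin n)) :
    wR w = Matrix.kroneckerMap (fun a b => a * b) (1 : Matrix (FI n) (FI n) ℝ) (pc w) := by
  induction w with
  | nil => rw [wR, pc, List.map_nil, List.map_nil, List.prod_nil, List.prod_nil]
           exact (Matrix.one_kronecker_one).symm
  | cons i w ih =>
    rw [wR, pc, List.map_cons, List.map_cons, List.prod_cons, List.prod_cons]
    rw [show (List.map Rc w).prod = wR w from rfl, ih, Rc, kmul, one_mul]
    rfl

private theorem bt_kron (A B : Matrix (FI n) (FI n) ℝ) :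
    bt ((Matrix.kroneckerMap (fun a b => a * b) A (1 : Matrix (FI n) (FI n) ℝ) : DD n) *
      Matrix.kroneckerMap (fun a b => a * b) (1 : Matrix (FI n) (FI n) ℝ) B)
      = A Finset.univ ∅ * B Finset.univ ∅ := by
  rw [kmul, mul_one, one_mul]
  rfl

/-- The linear map to the algebra. -/
private def phi (n : ℕ) : (Fin n → ℝ) →ₗ[ℝ] Matrix (FI n) (FI n) ℝ where
  toFun v := ∑ i, v i • cr i
  map_add' u v := by
    simp only [Pi.add_apply, add_smul, Finset.sum_add_distrib]
  map_smul' c v := by
    simp only [Pi.smul_apply, smul_eq_mul, mul_smul, Finset.smul_sum, RingHom.id_apply]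

private theorem phi_sq (v : Fin n → ℝ) : phi n v * phi n v = 0 := by
  have h1 : phi n v * phi n v = ∑ i, ∑ j, (v i * v j) • (cr i * cr j : Matrix (FI n) (FI n) ℝ) := by
    show (∑ i, v i • cr i) * (∑ j, v j • cr j) = _
    rw [Finset.sum_mul]
    refine Finset.sum_congr rfl fun i _ => ?_
    rw [Finset.mul_sum]
    refine Finset.sum_congr rfl fun j _ => ?_
    rw [smul_mul_smul_comm]
  have h2 : phi n v * phi n v = -(phi n v * phi n v) := by
    rw [h1]
    conv_lhs => rw [Finset.sum_comm]
    rw [← Finset.sum_neg_distrib]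
    refine Finset.sum_congr rfl fun i _ => ?_
    rw [← Finset.sum_neg_distrib]
    refine Finset.sum_congr rfl fun j _ => ?_
    rw [cr_mul_cr j i, smul_neg, mul_comm]
  have h3 : (2 : ℝ) • (phi n v * phi n v) = 0 := by
    rw [two_smul]
    nth_rewrite 1 [h2]
    exact neg_add_cancel _
  exact (smul_eq_zero.mp h3).resolve_left two_ne_zero

/-- The lift to the exterior algebra. -/
private def lf (n : ℕ) : ExteriorAlgebra ℝ (Fin n → ℝ) →ₐ[ℝ] Matrix (FI n) (FI n) ℝ :=
  ExteriorAlgebra.lift ℝ ⟨phi n, phi_sq⟩

private theorem lf_ioma' {m : ℕ} (v : Fin m → Fin n → ℝ) :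
    lf n (ExteriorAlgebra.ιMulti ℝ m v) = (List.ofFn fun a => phi n (v a)).prod := by
  rw [ExteriorAlgebra.ιMulti_apply, map_list_prod, List.map_ofFn]
  congr 2
  funext a
  exact ExteriorAlgebra.lift_ι_apply ℝ (phi n) phi_sq (v a)

private theorem lf_ioma (v : Fin n → Fin n → ℝ) :
    lf n (ExteriorAlgebra.ιMulti ℝ n v) = (List.ofFn fun a => phi n (v a)).prod := by
  rw [ExteriorAlgebra.ιMulti_apply, map_list_prod, List.map_ofFn]
  congr 2
  funext a
  exact ExteriorAlgebra.lift_ι_apply ℝ (phi n) phi_sq (v a)

/-- The alternating form. -/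
private def alt (n : ℕ) : (Fin n → ℝ) [⋀^Fin n]→ₗ[ℝ] ℝ :=
  (((LinearMap.proj (∅ : FI n)).comp (LinearMap.proj (Finset.univ : FI n) :
    (FI n → FI n → ℝ) →ₗ[ℝ] (FI n → ℝ))).comp
    ((lf n).toLinearMap : ExteriorAlgebra ℝ (Fin n → ℝ) →ₗ[ℝ] (FI n → FI n → ℝ))).compAlternatingMap
    (ExteriorAlgebra.ιMulti ℝ n)

private theorem alt_apply (v : Fin n → Fin n → ℝ) :
    alt n v = (List.ofFn fun a => phi n (v a)).prod Finset.univ ∅ := by
  rw [← lf_ioma]
  rfl

private theorem alt_one : alt n (fun a => Pi.single a 1) = 1 := by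
  rw [alt_apply]
  have h1 : (List.ofFn fun a : Fin n => phi n (Pi.single a (1 : ℝ)))
      = (List.finRange n).map cr := by
    rw [← List.ofFn_id, List.map_ofFn]
    congr 1
    funext a
    show ∑ i, (Pi.single a (1 : ℝ) : Fin n → ℝ) i • cr i = _
    rw [Finset.sum_eq_single a]
    · rw [Pi.single_eq_same, one_smul]; rfl
    · intro b _ hb
      rw [Pi.single_eq_of_ne hb, zero_smul]
    · intro h; exact absurd (Finset.mem_univ _) h
  rw [h1]
  have h2 := pc_sorted (List.finRange n) (List.pairwise_lt_finRange n) Finset.univ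
  rw [pc] at h2
  rw [h2, if_pos]
  ext x
  simp

private theorem alt_det (v : Fin n → Fin n → ℝ) : alt n v = (Matrix.of v).det := by
  have h := AlternatingMap.eq_smul_basis_det (Pi.basisFun ℝ (Fin n)) (alt n)
  rw [h]
  have h1 : alt n (Pi.basisFun ℝ (Fin n)) = 1 := by
    rw [← alt_one]
    congr 1
    funext a
    rw [Pi.basisFun_apply]
  rw [AlternatingMap.smul_apply, h1, one_smul, Pi.basisFun_det]
  rfl

private theorem pcv_card (l : List (Fin n → ℝ)) (S : FI n) (h : S.card ≠ l.length) :
    (l.map (phi n)).prod S ∅ = 0 := by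
  induction l generalizing S with
  | nil =>
    rw [List.map_nil, List.prod_nil, Matrix.one_apply, if_neg]
    rintro rfl
    exact h rfl
  | cons v l ih =>
    rw [List.map_cons, List.prod_cons]
    show ((∑ i, v i • cr i) * (l.map (phi n)).prod) S ∅ = 0
    rw [Finset.sum_mul, Matrix.sum_apply]
    refine Finset.sum_eq_zero fun i _ => ?_
    rw [smul_mul_assoc, Matrix.smul_apply, cr_mul]
    split_ifs with hi
    · rw [ih (S.erase i), mul_zero, smul_zero]
      intro h'
      apply h
      rw [List.length_cons, ← h', Finset.card_erase_of_mem hi]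
      have : 0 < S.card := Finset.card_pos.mpr ⟨i, hi⟩
      omega
    · rw [smul_zero]

private theorem cols (A : Mat n) :
    (List.ofFn fun a => (∑ i, A i a • cr i : Matrix (FI n) (FI n) ℝ)).prod Finset.univ ∅
      = A.det := by
  have h := alt_apply (fun a i => A i a)
  rw [alt_det] at h
  have h2 : (Matrix.of fun a i => A i a).det = A.det := Matrix.det_transpose A
  rw [h2] at h
  exact h.symm

private theorem prod_kl (l : List (Matrix (FI n) (FI n) ℝ)) :
    (l.map fun A => (Matrix.kroneckerMap (fun a b => a * b) A (1 : Matrix (FI n) (FI n) ℝ) :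
      DD n)).prod = Matrix.kroneckerMap (fun a b => a * b) l.prod (1 : Matrix (FI n) (FI n) ℝ) := by
  induction l with
  | nil => rw [List.map_nil, List.prod_nil, List.prod_nil]
           exact (Matrix.one_kronecker_one).symm
  | cons A l ih =>
    rw [List.map_cons, List.prod_cons, List.prod_cons, ih]
    rw [kmul, one_mul]

private theorem prod_kr (l : List (Matrix (FI n) (FI n) ℝ)) :
    (l.map fun A => (Matrix.kroneckerMap (fun a b => a * b) (1 : Matrix (FI n) (FI n) ℝ) A :
      DD n)).prod = Matrix.kroneckerMap (fun a b => a * b) (1 : Matrix (FI n) (FI n) ℝ) l.prod := by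
  induction l with
  | nil => rw [List.map_nil, List.prod_nil, List.prod_nil]
           exact (Matrix.one_kronecker_one).symm
  | cons A l ih =>
    rw [List.map_cons, List.prod_cons, List.prod_cons, ih]
    rw [kmul, one_mul]

private theorem sum_kl (c : Fin n → ℝ) :
    (∑ i, c i • Lc i : DD n) = Matrix.kroneckerMap (fun a b => a * b) (∑ i, c i • cr i)
      (1 : Matrix (FI n) (FI n) ℝ) := by
  ext p q
  simp only [Lc, Matrix.sum_apply, Matrix.smul_apply, Matrix.kroneckerMap_apply, smul_eq_mul,
    Finset.sum_mul, mul_assoc]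

private theorem sum_kr (c : Fin n → ℝ) :
    (∑ i, c i • Rc i : DD n) = Matrix.kroneckerMap (fun a b => a * b)
      (1 : Matrix (FI n) (FI n) ℝ) (∑ i, c i • cr i) := by
  ext p q
  simp only [Rc, Matrix.sum_apply, Matrix.smul_apply, Matrix.kroneckerMap_apply, smul_eq_mul,
    Finset.mul_sum]
  refine Finset.sum_congr rfl fun i _ => ?_
  ring

theorem bt_word_ne (w w' : List (Fin n)) (h : w.length ≠ n ∨ w'.length ≠ n) :
    bt (wL w * wR w') = 0 := by
  rw [wL_eq, wR_eq, bt_kron]
  rcases h with h | h
  · rw [pc_card w Finset.univ, zero_mul]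
    rw [Finset.card_univ, Fintype.card_fin]
    exact fun e => h e.symm
  · rw [pc_card w' Finset.univ, mul_zero]
    rw [Finset.card_univ, Fintype.card_fin]
    exact fun e => h e.symm

theorem bt_cols (A B : Mat n) :
    bt ((List.ofFn fun a => (∑ i, A i a • Lc i : DD n)).prod *
        (List.ofFn fun b => (∑ j, B j b • Rc j : DD n)).prod) = A.det * B.det := by
  have h1 : (List.ofFn fun a => (∑ i, A i a • Lc i : DD n))
      = (List.ofFn fun a => (∑ i, A i a • cr i : Matrix (FI n) (FI n) ℝ)).map
        (fun A => (Matrix.kroneckerMap (fun a b => a * b) A (1 : Matrix (FI n) (FI n) ℝ) : DD n)) := by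
    rw [List.map_ofFn]
    congr 1
    funext a
    exact sum_kl _
  have h2 : (List.ofFn fun b => (∑ j, B j b • Rc j : DD n))
      = (List.ofFn fun b => (∑ j, B j b • cr j : Matrix (FI n) (FI n) ℝ)).map
        (fun A => (Matrix.kroneckerMap (fun a b => a * b) (1 : Matrix (FI n) (FI n) ℝ) A : DD n)) := by
    rw [List.map_ofFn]
    congr 1
    funext a
    exact sum_kr _
  rw [h1, h2, prod_kl, prod_kr, bt_kron, cols, cols]

/-- Words of vectors of the wrong length. -/
theorem bt_vec_ne (l l' : List (Fin n → ℝ)) (h : l.length ≠ n ∨ l'.length ≠ n) :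
    bt ((l.map fun v => (∑ i, v i • Lc i : DD n)).prod *
      (l'.map fun v => (∑ i, v i • Rc i : DD n)).prod) = 0 := by
  have h1 : (l.map fun v => (∑ i, v i • Lc i : DD n))
      = (l.map (phi n)).map (fun A => (Matrix.kroneckerMap (fun a b => a * b) A
        (1 : Matrix (FI n) (FI n) ℝ) : DD n)) := by
    rw [List.map_map]
    congr 1
    funext a
    exact sum_kl _
  have h2 : (l'.map fun v => (∑ i, v i • Rc i : DD n))
      = (l'.map (phi n)).map (fun A => (Matrix.kroneckerMap (fun a b => a * b)
        (1 : Matrix (FI n) (FI n) ℝ) A : DD n)) := by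
    rw [List.map_map]
    congr 1
    funext a
    exact sum_kr _
  rw [h1, h2, prod_kl, prod_kr, bt_kron]
  rcases h with h | h
  · rw [pcv_card l Finset.univ, zero_mul]
    rw [Finset.card_univ, Fintype.card_fin]
    exact fun e => h e.symm
  · rw [pcv_card l' Finset.univ, mul_zero]
    rw [Finset.card_univ, Fintype.card_fin]
    exact fun e => h e.symm

/-- The product of linearly dependent vectors vanishes. -/
theorem prod_dep {m : ℕ} (v : Fin m → Fin n → ℝ) (h : ¬ LinearIndependent ℝ v) :
    (List.ofFn fun a => (∑ i, v a i • Lc i : DD n)).prod = 0 := by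
  have h1 : (List.ofFn fun a => (∑ i, v a i • Lc i : DD n))
      = (List.ofFn fun a => phi n (v a)).map
        (fun A => (Matrix.kroneckerMap (fun a b => a * b) A (1 : Matrix (FI n) (FI n) ℝ) : DD n)) := by
    rw [List.map_ofFn]
    congr 1
    funext a
    exact sum_kl _
  rw [h1, prod_kl, ← lf_ioma', AlternatingMap.map_linearDependent _ v h, map_zero]
  ext p q
  simp [Matrix.kroneckerMap_apply]

/-- Words in general: bt of a word of full length is the product of the signs. -/
theorem bt_word (f f' : Fin n → Fin n) :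
    bt (wL (List.ofFn f) * wR (List.ofFn f'))
      = (Matrix.of fun i a => if i = f a then (1 : ℝ) else 0).det
        * (Matrix.of fun i a => if i = f' a then (1 : ℝ) else 0).det := by
  rw [← bt_cols]
  have h1 : wL (List.ofFn f) = (List.ofFn fun a => (∑ i,
      (Matrix.of fun i a => if i = f a then (1 : ℝ) else 0) i a • Lc i : DD n)).prod := by
    rw [wL, List.map_ofFn]
    congr 2
    funext a
    simp only [Matrix.of_apply, ite_smul, one_smul, zero_smul, Finset.sum_ite_eq',
      Finset.mem_univ, if_true, Function.comp_apply]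
  have h2 : wR (List.ofFn f') = (List.ofFn fun a => (∑ i,
      (Matrix.of fun i a => if i = f' a then (1 : ℝ) else 0) i a • Rc i : DD n)).prod := by
    rw [wR, List.map_ofFn]
    congr 2
    funext a
    simp only [Matrix.of_apply, ite_smul, one_smul, zero_smul, Finset.sum_ite_eq',
      Finset.mem_univ, if_true, Function.comp_apply]
  rw [h1, h2]

end Pool.H68.LV
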